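import Pool.Agent.W775.WH.Stm

set_option autoImplicit false

open MeasureTheory Set Filter Topology

namespace Pool.Agent.W775.WH.ALG

open Pool.Agent.W775.WH

/-- the exact sum of squares identity, for free coefficients -/
theorem ident (l T a b ax ay bx bY A al psi psi1 : ℝ) (hT : T ≠ 0) :
    ((psi1 / T ^ 2 - 2 * psi / T ^ 3) * ((T ^ 2 - a ^ 2 - b ^ 2) / 4) + psi / T ^ 2 * T + A / 2 -
        l * psi1 / T ^ 2) * ((ax + bY) ^ 2 + (bx - ay) ^ 2) -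
      psi / T ^ 2 * (a * (ax * (ax + bY) + ay * (bx - ay)) + b * (bx * (ax + bY) + bY * (bx - ay))) -
      A / 2 * (ax ^ 2 + ay ^ 2 + bx ^ 2 + bY ^ 2) -
      2 * (((A + T * (psi / T ^ 2)) / (2 * T) - 2 * (al + A / 4) / T) *
          ((ax + bY) * (a * bY - b * ay) - (bx - ay) * (a * bx - b * ax)) +
        2 * (al + A / 4) * (ax * bY - ay * bx)) =
    al * ((ax - bY - (a * (ax + bY) - b * (bx - ay)) / T) ^ 2 +
      (bx + ay - (b * (ax + bY) + a * (bx - ay)) / T) ^ 2) +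
    (psi / (2 * T) - al) * (((ax + bY) - (a * (ax + bY) + b * (bx - ay)) / T) ^ 2 +
      ((bx - ay) - (b * (ax + bY) - a * (bx - ay)) / T) ^ 2) +
    ((T ^ 2 - a ^ 2 - b ^ 2) / 4 - l) * (psi1 / T ^ 2) * ((ax + bY) ^ 2 + (bx - ay) ^ 2) := by
  field_simp
  ring

/-- bound of the null form -/
theorem nul (T a b ax ay bx bY : ℝ) (hT : T ≠ 0) :
    (a * bY - b * ay) ^ 2 + (a * bx - b * ax) ^ 2 ≤
    (a ^ 2 + b ^ 2) / 2 * (((ax - bY - (a * (ax + bY) - b * (bx - ay)) / T) ^ 2 +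
      (bx + ay - (b * (ax + bY) + a * (bx - ay)) / T) ^ 2) +
      (((ax + bY) - (a * (ax + bY) + b * (bx - ay)) / T) ^ 2 +
      ((bx - ay) - (b * (ax + bY) - a * (bx - ay)) / T) ^ 2)) := by
  set P1 := ax - bY - (a * (ax + bY) - b * (bx - ay)) / T with hP1
  set P2 := bx + ay - (b * (ax + bY) + a * (bx - ay)) / T with hP2
  set Q1 := (ax + bY) - (a * (ax + bY) + b * (bx - ay)) / T with hQ1
  set Q2 := (bx - ay) - (b * (ax + bY) - a * (bx - ay)) / T with hQ2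
  have e1 : a * bY - b * ay = (a * (Q1 - P1) + b * (Q2 - P2)) / 2 := by
    rw [hP1, hP2, hQ1, hQ2]; field_simp; ring
  have e2 : a * bx - b * ax = (a * (P2 + Q2) - b * (P1 + Q1)) / 2 := by
    rw [hP1, hP2, hQ1, hQ2]; field_simp; ring
  rw [e1, e2]
  nlinarith [sq_nonneg (a * P1 + b * P2 + a * Q1 + b * Q2), sq_nonneg (b * P1 - a * P2 + a * Q2 - b * Q1)]

/-- the absorption step -/
theorem absorb (y F Z Sg rN : ℝ) (hS : 0 ≤ Sg) (h : 2 * Z ^ 2 ≤ rN * Sg) (hr : 0 ≤ rN) :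
    4 * F * y * Z ≤ y ^ 2 * Sg + 2 * F ^ 2 * rN := by
  rcases hS.eq_or_lt with h0 | h0
  · have hZ : Z = 0 := by
      rw [← h0, mul_zero] at h
      have : Z ^ 2 ≤ 0 := by linarith
      exact pow_eq_zero_iff (two_ne_zero) |>.1 (le_antisymm this (sq_nonneg Z))
    rw [hZ, ← h0]
    have : 0 ≤ 2 * F ^ 2 * rN := by positivity
    linarith
  · have key : 0 ≤ Sg * (y ^ 2 * Sg + 2 * F ^ 2 * rN - 4 * F * y * Z) := by
      have h1 : Sg * (y ^ 2 * Sg + 2 * F ^ 2 * rN - 4 * F * y * Z) =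
          (Sg * y - 2 * F * Z) ^ 2 + 2 * F ^ 2 * (rN * Sg - 2 * Z ^ 2) := by ring
      rw [h1]
      have h2 : 0 ≤ rN * Sg - 2 * Z ^ 2 := by linarith
      positivity
    have := nonneg_of_mul_nonneg_right key h0
    linarith

theorem cs2 (cx cy X Y : ℝ) : (cx * X - cy * Y) ^ 2 ≤ (cx ^ 2 + cy ^ 2) * (X ^ 2 + Y ^ 2) := by
  nlinarith [sq_nonneg (cx * Y + cy * X)]

/-- abstract final step: everything is a variable -/
theorem fin (al kap F X3 k3 k4 e l D c Z cx cy r T2 P Q G : ℝ) (hal : 0 < al) (hkap : al ≤ kap)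
    (hP : 0 ≤ P) (hQ : 0 ≤ Q) (hG : 0 ≤ G) (hr : 0 ≤ r) (hrT : r ≤ T2)
    (hZ : 2 * Z ^ 2 ≤ ((cx ^ 2 + cy ^ 2) * r) * (P + Q))
    (hF : 2 * F ^ 2 * T2 / al ≤ 4 * X3) (he : 0 ≤ e) (hD : l - e ≤ D) (hk3 : 0 ≤ k3) (hk4 : k3 ≤ k4) :
    4 * F * c * Z - c ^ 2 * (al * P + kap * Q + (D - l) * k3 * G) ≤
      4 * (cx ^ 2 + cy ^ 2) * X3 + c ^ 2 * (e * k4 * G) := by
  have hab' := absorb (c * al) F Z (P + Q) ((cx ^ 2 + cy ^ 2) * r) (by linarith) hZ (by positivity)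
  have h3 : 4 * F * c * Z ≤ c ^ 2 * al * (P + Q) + (cx ^ 2 + cy ^ 2) * (2 * F ^ 2 * r / al) := by
    have : al * (4 * F * c * Z) ≤ al * (c ^ 2 * al * (P + Q) +
      (cx ^ 2 + cy ^ 2) * (2 * F ^ 2 * r / al)) := by
      have e : al * (c ^ 2 * al * (P + Q) + (cx ^ 2 + cy ^ 2) * (2 * F ^ 2 * r / al)) =
        (c * al) ^ 2 * (P + Q) + 2 * F ^ 2 * ((cx ^ 2 + cy ^ 2) * r) := by
        field_simp
      rw [e]; linarith
    exact le_of_mul_le_mul_left this hal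
  have h4 : 2 * F ^ 2 * r / al ≤ 4 * X3 := by
    refine le_trans ?_ hF
    gcongr
  have h5 := mul_le_mul_of_nonneg_left h4 (by positivity : 0 ≤ cx ^ 2 + cy ^ 2)
  have h15 : al * Q ≤ kap * Q := mul_le_mul_of_nonneg_right hkap hQ
  have h10 : -((D - l) * k3 * G) ≤ e * k4 * G := by
    have h12 : -(D - l) * k3 ≤ e * k3 := mul_le_mul_of_nonneg_right (by linarith) hk3
    have h13 : e * k3 ≤ e * k4 := mul_le_mul_of_nonneg_left hk4 he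
    have h14 := mul_le_mul_of_nonneg_right (h12.trans h13) hG
    linarith
  have hc : 0 ≤ c ^ 2 := sq_nonneg c
  have h16 := mul_le_mul_of_nonneg_left h15 hc
  have h17 := mul_le_mul_of_nonneg_left h10 hc
  have e21 : c ^ 2 * (al * P + kap * Q + (D - l) * k3 * G) =
      c ^ 2 * al * P + c ^ 2 * (kap * Q) - c ^ 2 * (-((D - l) * k3 * G)) := by ring
  have e22 : c ^ 2 * al * (P + Q) = c ^ 2 * al * P + c ^ 2 * (al * Q) := by ring
  have e23 : (cx ^ 2 + cy ^ 2) * (4 * X3) = 4 * (cx ^ 2 + cy ^ 2) * X3 := by ring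
  rw [e21]; rw [e22] at h3; rw [e23] at h5
  linarith

theorem poly1 (s T : ℝ) (hs : 0 < s) (hT : s < T) :
    0 ≤ 4 * 225 * T ^ 3 * (3 * T + s) - 96 * (T ^ 2 + 3 * s * T + s ^ 2) ^ 2 := by
  obtain ⟨d, hd⟩ : ∃ d, T = s + d := ⟨T - s, by ring⟩
  have hd0 : 0 < d := by linarith
  have e : 4 * 225 * T ^ 3 * (3 * T + s) - 96 * (T ^ 2 + 3 * s * T + s ^ 2) ^ 2 =
      1200 * s ^ 4 + 8700 * s ^ 3 * d + 15540 * s ^ 2 * d ^ 2 + 10740 * s * d ^ 3 + 2604 * d ^ 4 := by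
    rw [hd]; ring
  rw [e]; positivity

theorem poly2 (s T : ℝ) (hs : 0 < s) (hT : s < T) :
    0 ≤ 3 * (T + s) ^ 2 - (T - s) * (3 * T + s) := by
  have e : 3 * (T + s) ^ 2 - (T - s) * (3 * T + s) = 8 * T * s + 4 * s ^ 2 := by ring
  have : 0 < T := hs.trans hT
  rw [e]; positivity

theorem poly3 (s T : ℝ) (hs : 0 < s) (hT : s < T) :
    4 * s ^ 2 * (T ^ 2 - s ^ 2) * s ^ 3 ≤ 4 * T ^ 7 := by
  have h1 : s ^ 5 ≤ T ^ 5 := pow_le_pow_left₀ hs.le hT.le 5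
  have h2 : s ^ 5 * T ^ 2 ≤ T ^ 5 * T ^ 2 := mul_le_mul_of_nonneg_right h1 (by positivity)
  have h3 : 0 ≤ s ^ 7 := by positivity
  have e1 : 4 * s ^ 2 * (T ^ 2 - s ^ 2) * s ^ 3 = 4 * (s ^ 5 * T ^ 2) - 4 * s ^ 7 := by ring
  have e2 : 4 * T ^ 7 = 4 * (T ^ 5 * T ^ 2) := by ring
  rw [e1, e2]; linarith

section coef
variable (l s T : ℝ) (hs : 0 < s) (hT : s < T)
include hs hT

theorem c1 : fA1 s T = ((T ^ 2 - s ^ 2) ^ 2 / T ^ 4) / T ^ 2 := by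
  have : T ≠ 0 := (hs.trans hT).ne'
  have hpp : pp (T - s) = T - s := max_eq_left (by linarith)
  rw [fA1, hpp]; field_simp; ring

theorem c2 : fA2 s T = (4 * s ^ 2 * (T ^ 2 - s ^ 2) / T ^ 5) / T ^ 2 -
    2 * ((T ^ 2 - s ^ 2) ^ 2 / T ^ 4) / T ^ 3 := by
  have : T ≠ 0 := (hs.trans hT).ne'
  have hpp : pp (T - s) = T - s := max_eq_left (by linarith)
  rw [fA2, hpp]; field_simp; ring

theorem c3 : fB2 l s T = l * (4 * s ^ 2 * (T ^ 2 - s ^ 2) / T ^ 5) / T ^ 2 := by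
  have : T ≠ 0 := (hs.trans hT).ne'
  have hpp : pp (T - s) = T - s := max_eq_left (by linarith)
  rw [fB2, hpp]; field_simp; ring

theorem c4 : fF s T = (T - s) ^ 3 * (3 * T + s) / (12 * T ^ 5) + fA s T / 4 := by
  have : T ≠ 0 := (hs.trans hT).ne'
  have hpp : pp (T - s) = T - s := max_eq_left (by linarith)
  rw [fF, fA, hpp]; field_simp; ring

theorem c5 : fF1 s T = (fA s T + T * (((T ^ 2 - s ^ 2) ^ 2 / T ^ 4) / T ^ 2)) / (2 * T) -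
    2 * ((T - s) ^ 3 * (3 * T + s) / (12 * T ^ 5) + fA s T / 4) / T := by
  have : T ≠ 0 := (hs.trans hT).ne'
  have hpp : pp (T - s) = T - s := max_eq_left (by linarith)
  rw [fF1, fA, hpp]; field_simp; ring

theorem c6 : (T - s) ^ 3 * (3 * T + s) / (12 * T ^ 5) ≤
    (T ^ 2 - s ^ 2) ^ 2 / T ^ 4 / (2 * T) - (T - s) ^ 3 * (3 * T + s) / (12 * T ^ 5) := by
  have hT0 : 0 < T := hs.trans hT
  have e : (T ^ 2 - s ^ 2) ^ 2 / T ^ 4 / (2 * T) - (T - s) ^ 3 * (3 * T + s) / (12 * T ^ 5) -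
      (T - s) ^ 3 * (3 * T + s) / (12 * T ^ 5) =
      (T - s) ^ 2 * (3 * (T + s) ^ 2 - (T - s) * (3 * T + s)) / (6 * T ^ 5) := by
    field_simp; ring
  have h2 : 0 ≤ (T - s) ^ 2 * (3 * (T + s) ^ 2 - (T - s) * (3 * T + s)) / (6 * T ^ 5) :=
    div_nonneg (mul_nonneg (by positivity) (poly2 s T hs hT)) (by positivity)
  linarith

theorem c7 : 2 * ((T - s) ^ 3 * (3 * T + s) / (12 * T ^ 5) + fA s T / 4) ^ 2 * T ^ 2 /
    ((T - s) ^ 3 * (3 * T + s) / (12 * T ^ 5)) ≤ 4 * ((T - s) ^ 3 / s ^ 2) := by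
  have hT0 : 0 < T := hs.trans hT
  have hpp : pp (T - s) = T - s := max_eq_left (by linarith)
  rw [← c4 s T hs hT, fF, hpp]
  have h1 : 0 < T - s := by linarith
  rw [div_le_iff₀ (by positivity)]
  have e : 4 * ((T - s) ^ 3 / s ^ 2) * ((T - s) ^ 3 * (3 * T + s) / (12 * T ^ 5)) -
      2 * (2 * (T - s) ^ 3 * (T ^ 2 + 3 * s * T + s ^ 2) / (15 * s * T ^ 5)) ^ 2 * T ^ 2 =
      (T - s) ^ 6 * (4 * 225 * T ^ 3 * (3 * T + s) - 96 * (T ^ 2 + 3 * s * T + s ^ 2) ^ 2) /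
        (2700 * s ^ 2 * T ^ 8) := by
    field_simp; ring
  have h : 0 ≤ (T - s) ^ 6 * (4 * 225 * T ^ 3 * (3 * T + s) - 96 * (T ^ 2 + 3 * s * T + s ^ 2) ^ 2) /
        (2700 * s ^ 2 * T ^ 8) :=
    div_nonneg (mul_nonneg (by positivity) (poly1 s T hs hT)) (by positivity)
  linarith

theorem c8 : 4 * s ^ 2 * (T ^ 2 - s ^ 2) / T ^ 5 / T ^ 2 ≤ 4 / s ^ 3 := by
  have hT0 : 0 < T := hs.trans hT
  have e : 4 * s ^ 2 * (T ^ 2 - s ^ 2) / T ^ 5 / T ^ 2 = 4 * s ^ 2 * (T ^ 2 - s ^ 2) / T ^ 7 := by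
    field_simp
  rw [e, div_le_div_iff₀ (by positivity) (by positivity)]
  exact poly3 s T hs hT

theorem c9 : 0 ≤ 4 * s ^ 2 * (T ^ 2 - s ^ 2) / T ^ 5 / T ^ 2 := by
  have hT0 : 0 < T := hs.trans hT
  have : 0 ≤ T ^ 2 - s ^ 2 := by nlinarith
  positivity

end coef

theorem main (l s T a b e Tx Ty ax ay bx bY c cx cy : ℝ) (hs : 0 < s) (hTs : s < T)
    (hab : a ^ 2 + b ^ 2 ≤ T ^ 2) (he : 0 ≤ e) (hD : l - e ≤ (T ^ 2 - a ^ 2 - b ^ 2) / 4)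
    (hTx : Tx = ax + bY) (hTy : Ty = bx - ay) :
  4 * fF s T * c * (cx * (a * bY - b * ay) - cy * (a * bx - b * ax)) -
    c ^ 2 * ((fA2 s T * ((T ^ 2 - a ^ 2 - b ^ 2) / 4) + fA1 s T * T + fA s T / 2 - fB2 l s T) *
        (Tx ^ 2 + Ty ^ 2) -
      fA1 s T * (a * (ax * Tx + ay * Ty) + b * (bx * Tx + bY * Ty)) -
      fA s T / 2 * (ax ^ 2 + ay ^ 2 + bx ^ 2 + bY ^ 2) -
      2 * (fF1 s T * (Tx * (a * bY - b * ay) - Ty * (a * bx - b * ax)) +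
        2 * fF s T * (ax * bY - ay * bx))) ≤
  4 * (cx ^ 2 + cy ^ 2) * ((T - s) ^ 3 / s ^ 2) +
    c ^ 2 * (e * (4 / s ^ 3) * (Tx ^ 2 + Ty ^ 2)) := by
  have hT : 0 < T := hs.trans hTs
  have hts : 0 < T - s := by linarith
  rw [hTx, hTy, c1 s T hs hTs, c2 s T hs hTs, c3 l s T hs hTs, c4 s T hs hTs, c5 s T hs hTs]
  rw [ident l T a b ax ay bx bY (fA s T) ((T - s) ^ 3 * (3 * T + s) / (12 * T ^ 5))
    ((T ^ 2 - s ^ 2) ^ 2 / T ^ 4) (4 * s ^ 2 * (T ^ 2 - s ^ 2) / T ^ 5) hT.ne']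
  refine fin _ _ _ _ _ _ _ _ _ _ _ _ _ (a ^ 2 + b ^ 2) (T ^ 2) _ _ _ (by positivity)
    (c6 s T hs hTs) (by positivity) (by positivity) (by positivity) (by positivity) hab ?_
    (c7 s T hs hTs) he hD (c9 s T hs hTs) (c8 s T hs hTs)
  have hnul := nul T a b ax ay bx bY hT.ne'
  have h1 := cs2 cx cy (a * bY - b * ay) (a * bx - b * ax)
  have h2 := mul_le_mul_of_nonneg_left hnul (by positivity : 0 ≤ cx ^ 2 + cy ^ 2)
  calc 2 * (cx * (a * bY - b * ay) - cy * (a * bx - b * ax)) ^ 2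
      ≤ 2 * ((cx ^ 2 + cy ^ 2) * ((a * bY - b * ay) ^ 2 + (a * bx - b * ax) ^ 2)) := by linarith
    _ ≤ 2 * ((cx ^ 2 + cy ^ 2) * ((a ^ 2 + b ^ 2) / 2 *
        (((ax - bY - (a * (ax + bY) - b * (bx - ay)) / T) ^ 2 +
      (bx + ay - (b * (ax + bY) + a * (bx - ay)) / T) ^ 2) +
      (((ax + bY) - (a * (ax + bY) + b * (bx - ay)) / T) ^ 2 +
      ((bx - ay) - (b * (ax + bY) - a * (bx - ay)) / T) ^ 2)))) := by linarith
    _ = _ := by ring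

theorem t_ALG : S_ALG := by
  intro l s T a b e Tx Ty ax ay bx bY c cx cy hl hs hT0 hab he hD hTx hTy
  rcases le_or_gt T s with hTs | hTs
  · have hpp : pp (T - s) = 0 := max_eq_right (by linarith)
    have hif : ¬ (s < T) := not_lt.2 hTs
    simp only [fF, fA2, fA1, fA, fB2, fF1, hpp, if_neg hif]
    simp
  · have hpp : pp (T - s) = T - s := max_eq_left (by linarith)
    rw [hpp, if_pos hTs]
    exact main l s T a b e Tx Ty ax ay bx bY c cx cy hs hTs hab he hD hTx hTy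

end Pool.Agent.W775.WH.ALG
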