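import Pool.Agent.W775.WH.Stm

/-!
Project WH, part ARE (helper962): the area formula for the gradient map.
-/

set_option autoImplicit false

open MeasureTheory Set Filter Topology

namespace Pool.Agent.W775.WH.ARE

open Pool.Agent.W775.WH

theorem det_eq (A : ℝ × ℝ →L[ℝ] ℝ × ℝ) :
    A.det = (A (1, 0)).1 * (A (0, 1)).2 - (A (0, 1)).1 * (A (1, 0)).2 := by
  rw [ContinuousLinearMap.det, ← LinearMap.det_toMatrix (Module.Basis.finTwoProd ℝ),
    Matrix.det_fin_two]
  simp only [LinearMap.toMatrix_apply, Module.Basis.finTwoProd_zero, Module.Basis.finTwoProd_one,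
    Module.Basis.coe_finTwoProd_repr, ContinuousLinearMap.coe_coe]
  simp

theorem t_ARE (h1 : S_AED) (h2 : S_SYM) : S_ARE := by
  intro l b Ω u P hl hb hG B hB hBΩ
  set S : Set (ℝ × ℝ) := {z | DifferentiableAt ℝ P z} with hS
  have hSm : MeasurableSet S := measurableSet_of_differentiableAt ℝ P
  have hnull : volume (B \ S) = 0 := by
    have h3 := h1 l b Ω u P hl hb hG
    rw [ae_restrict_iff' hG.ma.op.measurableSet] at h3
    refine measure_mono_null ?_ (ae_iff.1 h3)
    intro z hz hcon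
    exact hz.2 (hcon (hBΩ hz.1))
  have himg : ∀ B' : Set (ℝ × ℝ), B' ⊆ Ω → (⋃ z ∈ B', Sub Ω u z) = P '' B' := by
    intro B' hB'
    ext q
    simp only [mem_iUnion, mem_image]
    constructor
    · rintro ⟨z, hz, hq⟩
      rw [hG.sub z (hB' hz)] at hq
      exact ⟨z, hz, hq.symm⟩
    · rintro ⟨z, hz, rfl⟩
      refine ⟨z, hz, ?_⟩
      rw [hG.sub z (hB' hz)]
      rfl
  have hnull2 : volume (P '' (B \ S)) = 0 := by
    have h3 := (hG.ma.bd (B \ S) (hB.diff hSm) (sdiff_subset.trans hBΩ)).2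
    rw [himg _ (sdiff_subset.trans hBΩ), hnull, mul_zero] at h3
    exact le_antisymm h3 zero_le
  have h4 : volume (P '' B) = volume (P '' (B ∩ S)) := by
    have h5 : P '' B = P '' (B ∩ S) ∪ P '' (B \ S) := by
      rw [← image_union, inter_union_sdiff]
    refine le_antisymm ?_ (measure_mono (image_mono inter_subset_left))
    rw [h5]
    refine (measure_union_le _ _).trans ?_
    rw [hnull2, add_zero]
  have h6 : ∫⁻ z in B, ENNReal.ofReal (D0 P z) = ∫⁻ z in B ∩ S, ENNReal.ofReal (D0 P z) := by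
    refine setLIntegral_congr ?_
    refine (ae_eq_set.2 ⟨?_, ?_⟩)
    · rw [sdiff_self_inter]
      exact hnull
    · rw [sdiff_eq_empty.2 inter_subset_left, measure_empty]
  rw [h4, h6, ← lintegral_abs_det_fderiv_eq_addHaar_image volume (hB.inter hSm)
    (f := P) (f' := fun z => fderiv ℝ P z)
    (fun z hz => (show DifferentiableAt ℝ P z from hz.2).hasFDerivAt.hasFDerivWithinAt)
    (hG.inj.mono (inter_subset_left.trans hBΩ))]
  refine setLIntegral_congr_fun (hB.inter hSm) fun z hz => ?_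
  obtain ⟨s1, _, _, s4⟩ := h2 l b Ω u P hl hb hG z (hBΩ hz.1) hz.2
  have h7 : (fderiv ℝ P z).det = D0 P z := by
    rw [det_eq]
    show h11 P z * h22 P z - h12 P z * h21 P z = h11 P z * h22 P z - h12 P z ^ 2
    rw [← s1]
    ring
  rw [h7, abs_of_nonneg s4]

end Pool.Agent.W775.WH.ARE
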