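import Pool.Agent.W775.WH.Stm

/-! Project WH (helper775), part C1B (helper499): Hoelder continuity of the subdifferential. -/

set_option autoImplicit false

open MeasureTheory Set Filter Topology

namespace Pool.Agent.W775.WH.C1B

open Pool.Agent.W775.WH

lemma abs_rot1 {c s : ℝ} (h : c ^ 2 + s ^ 2 = 1) {x y η : ℝ} (hx : |x| ≤ η) (hy : |y| ≤ η) :
    |c * x + s * y| ≤ 2 * η := by
  have hc : |c| ≤ 1 := by
    rw [abs_le]
    constructor <;> nlinarith [sq_nonneg s, sq_nonneg c]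
  have hs : |s| ≤ 1 := by
    rw [abs_le]
    constructor <;> nlinarith [sq_nonneg s, sq_nonneg c]
  have h1 : |c * x| ≤ η := by
    rw [abs_mul]
    calc |c| * |x| ≤ 1 * |x| := mul_le_mul_of_nonneg_right hc (abs_nonneg _)
      _ ≤ η := by rw [one_mul]; exact hx
  have h2 : |s * y| ≤ η := by
    rw [abs_mul]
    calc |s| * |y| ≤ 1 * |y| := mul_le_mul_of_nonneg_right hs (abs_nonneg _)
      _ ≤ η := by rw [one_mul]; exact hy
  calc |c * x + s * y| ≤ |c * x| + |s * y| := abs_add_le _ _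
    _ ≤ 2 * η := by linarith

theorem t_C1B (h1 : S_ROT) (h2 : S_ROTS) (h3 : S_CPT) (h4 : S_LEG) (h5 : S_HOLD) (h6 : S_LNK1)
    (h7 : S_LIP) : S_C1B := by
  intro l l0 l1
  obtain ⟨b, b0, b1, hb⟩ := h5 l l0 l1
  refine ⟨b, b0, b1, ?_⟩
  intro Ω u hMA K hK hKΩ
  obtain ⟨δ, ρ, L, δ0, ρ0, L0, hW⟩ := h3 l Ω u l0 hMA K hK hKΩ
  obtain ⟨M, M0, hM, -⟩ := h7 Ω u hMA.op hMA.cv K hK hKΩ
  obtain ⟨C, C0, hC⟩ := hb (δ + L) ρ (by linarith) ρ0
  set ε : ℝ := min δ (ρ / 32) / 2 with hε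
  have hmin : 0 < min δ (ρ / 32) := lt_min δ0 (by linarith)
  have ε0 : 0 < ε := by rw [hε]; linarith
  have εb : 0 < ε ^ b := Real.rpow_pos_of_pos ε0 b
  have h2b : 0 < (2 : ℝ) ^ b := Real.rpow_pos_of_pos (by norm_num) b
  refine ⟨C * 2 ^ b + 2 * M / ε ^ b, by positivity, ?_⟩
  intro a ha a' ha' p hp p' hp'
  set η : ℝ := ‖a - a'‖ with hη
  have η0 : 0 ≤ η := norm_nonneg _
  have ηb : 0 ≤ η ^ b := Real.rpow_nonneg η0 b
  by_cases hcase : ε ≤ η
  · -- far apart
    have e1 : ‖p - p'‖ ≤ 2 * M := by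
      calc ‖p - p'‖ ≤ ‖p‖ + ‖p'‖ := norm_sub_le _ _
        _ ≤ 2 * M := by linarith [hM a ha p hp, hM a' ha' p' hp']
    have e2 : ε ^ b ≤ η ^ b := Real.rpow_le_rpow ε0.le hcase b0.le
    have e3 : 2 * M ≤ 2 * M / ε ^ b * η ^ b := by
      rw [div_mul_eq_mul_div, le_div_iff₀ εb]
      exact mul_le_mul_of_nonneg_left e2 (by linarith)
    have e4 : 0 ≤ C * 2 ^ b * η ^ b := by positivity
    calc ‖p - p'‖ ≤ 2 * M := e1
      _ ≤ 2 * M / ε ^ b * η ^ b := e3
      _ ≤ (C * 2 ^ b + 2 * M / ε ^ b) * η ^ b := by rw [add_mul]; linarith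
  · push Not at hcase
    set d1 : ℝ := p.1 - p'.1 with hd1
    set d2 : ℝ := p.2 - p'.2 with hd2
    set D : ℝ := Real.sqrt (d1 ^ 2 + d2 ^ 2) with hD
    have D0 : 0 ≤ D := Real.sqrt_nonneg _
    have Dsq : D ^ 2 = d1 ^ 2 + d2 ^ 2 := Real.sq_sqrt (by positivity)
    have hnorm : ‖p - p'‖ ≤ D := by
      rw [Prod.norm_def, max_le_iff]
      constructor
      · rw [Real.norm_eq_abs]
        refine Real.abs_le_sqrt ?_
        have : (p - p').1 = d1 := rfl
        rw [this]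
        nlinarith [sq_nonneg d2]
      · rw [Real.norm_eq_abs]
        refine Real.abs_le_sqrt ?_
        have : (p - p').2 = d2 := rfl
        rw [this]
        nlinarith [sq_nonneg d1]
    rcases D0.eq_or_lt with hD0 | Dpos
    · rw [← hD0] at hnorm
      exact hnorm.trans (by positivity)
    -- rotation
    set c : ℝ := d2 / D with hc
    set s : ℝ := - d1 / D with hs
    have hcs : c ^ 2 + s ^ 2 = 1 := by
      rw [hc, hs, div_pow, div_pow, ← add_div, Dsq, neg_sq, div_eq_one_iff_eq]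
      · ring
      · rw [← Dsq]; positivity
    set Ω' : Set (ℝ × ℝ) := rot c s ⁻¹' Ω with hΩ'
    set u' : ℝ × ℝ → ℝ := fun w => u (rot c s w) with hu'
    have hMA' : MA l Ω' u' := h1 l Ω u c s hcs hMA
    have hwin := hW a ha c s hcs p hp
    have hS1 := h2 Ω u c s hcs a p hp
    have hS2 := h2 Ω u c s hcs a' p' hp'
    set x0 : ℝ := (rot c (-s) a).1 with hx0
    set y0 : ℝ := (rot c (-s) a).2 with hy0
    set p0 : ℝ := (rot c (-s) p).1 with hp0
    set q : ℝ := (rot c (-s) p).2 with hq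
    set x' : ℝ := (rot c (-s) a').1 with hx'
    set y' : ℝ := (rot c (-s) a').2 with hy'
    set q' : ℝ := (rot c (-s) p').2 with hq'
    have Dne : D ≠ 0 := Dpos.ne'
    have hpp : (rot c (-s) p').1 = p0 := by
      rw [hp0]
      have : (rot c (-s) p).1 - (rot c (-s) p').1 = 0 := by
        simp only [rot]
        have : c * p.1 - -s * p.2 - (c * p'.1 - -s * p'.2) = c * d1 + s * d2 := by
          rw [hd1, hd2]; ring
        rw [this, hc, hs]
        field_simp
        try ring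
      linarith
    have hqq : q - q' = D := by
      rw [hq, hq']
      simp only [rot]
      have : -s * p.1 + c * p.2 - (-s * p'.1 + c * p'.2) = - s * d1 + c * d2 := by
        rw [hd1, hd2]; ring
      rw [this, hc, hs]
      have : -(-d1 / D) * d1 + d2 / D * d2 = (d1 ^ 2 + d2 ^ 2) / D := by
        field_simp
        try ring
      rw [this, ← Dsq]
      field_simp
    have hS1' : (p0, q) ∈ Sub Ω' u' (x0, y0) := hS1
    have hS2' : (p0, q') ∈ Sub Ω' u' (x', y') := by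
      have : (p0, q') = rot c (-s) p' := Prod.ext hpp.symm rfl
      rw [this]
      exact hS2
    have hsad : Sad l (δ + L) ρ p0 y0 (leg u' x0 δ) :=
      h4 l Ω' u' x0 y0 p0 δ ρ L l0 l1 hMA' hwin
    -- distances
    have n1 : |a.1 - a'.1| ≤ η := by
      have := norm_fst_le (a - a')
      rwa [Real.norm_eq_abs] at this
    have n2 : |a.2 - a'.2| ≤ η := by
      have := norm_snd_le (a - a')
      rwa [Real.norm_eq_abs] at this
    have n1' : |a'.1 - a.1| ≤ η := by rwa [abs_sub_comm]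
    have n2' : |a'.2 - a.2| ≤ η := by rwa [abs_sub_comm]
    have hx : |x' - x0| ≤ 2 * η := by
      have : x' - x0 = c * (a'.1 - a.1) + s * (a'.2 - a.2) := by
        rw [hx', hx0]; simp only [rot]; ring
      rw [this]
      exact abs_rot1 hcs n1' n2'
    have hy : |y' - y0| ≤ 2 * η := by
      have : y' - y0 = (-s) * (a'.1 - a.1) + c * (a'.2 - a.2) := by
        rw [hy', hy0]; simp only [rot]; ring
      rw [this]
      exact abs_rot1 (by rw [neg_sq, add_comm]; exact hcs) n1' n2'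
    have hη2 : 2 * η ≤ min δ (ρ / 32) := by
      have : η ≤ min δ (ρ / 32) / 2 := by rw [← hε]; exact hcase.le
      linarith
    have hηδ : 2 * η ≤ δ := hη2.trans (min_le_left _ _)
    have hηρ : 2 * η ≤ ρ / 32 := hη2.trans (min_le_right _ _)
    have k1 := h6 Ω' u' x0 y0 p0 δ ρ L hMA'.cv hwin x0 y0 p0 q (by simpa using δ0.le)
      (by simpa using ρ0.le) hS1'
    have k2 := h6 Ω' u' x0 y0 p0 δ ρ L hMA'.cv hwin x' y' p0 q' (hx.trans hηδ)
      (hy.trans (hηρ.trans (by linarith))) hS2'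
    have k3 := hC p0 y0 (leg u' x0 δ) hsad y0 y' q q' (by simpa using (by linarith : 0 ≤ ρ / 32))
      (hy.trans hηρ) k1 k2
    rw [hqq, abs_of_pos Dpos, abs_sub_comm] at k3
    have k4 : |y' - y0| ^ b ≤ (2 * η) ^ b := Real.rpow_le_rpow (abs_nonneg _) hy b0.le
    have k5 : (2 * η) ^ b = 2 ^ b * η ^ b := Real.mul_rpow (by norm_num) η0
    have k6 : 0 ≤ 2 * M / ε ^ b * η ^ b := by positivity
    calc ‖p - p'‖ ≤ D := hnorm
      _ ≤ C * |y' - y0| ^ b := k3
      _ ≤ C * (2 * η) ^ b := mul_le_mul_of_nonneg_left k4 C0.le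
      _ = C * 2 ^ b * η ^ b := by rw [k5]; ring
      _ ≤ (C * 2 ^ b + 2 * M / ε ^ b) * η ^ b := by rw [add_mul]; linarith

end Pool.Agent.W775.WH.C1B
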