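import Pool.Agent.W775.WH.Stm

set_option autoImplicit false
set_option linter.all false

open MeasureTheory Set Filter Topology

namespace Pool.Agent.W775.WH.CPT

open Pool.Agent.W775.WH

theorem abs_c {c s : ℝ} (h : c ^ 2 + s ^ 2 = 1) : |c| ≤ 1 ∧ |s| ≤ 1 := by
  constructor
  · rw [abs_le_one_iff_mul_self_le_one]
    nlinarith [sq_nonneg s]
  · rw [abs_le_one_iff_mul_self_le_one]
    nlinarith [sq_nonneg c]

theorem rot_lip {c s : ℝ} (h : c ^ 2 + s ^ 2 = 1) (z w : ℝ × ℝ) :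
    ‖rot c s z - rot c s w‖ ≤ |z.1 - w.1| + |z.2 - w.2| := by
  obtain ⟨hc, hs⟩ := abs_c h
  rw [Prod.norm_def]
  have h1 := mul_le_mul_of_nonneg_right hc (abs_nonneg (z.1 - w.1))
  have h2 := mul_le_mul_of_nonneg_right hs (abs_nonneg (z.2 - w.2))
  have h3 := mul_le_mul_of_nonneg_right hs (abs_nonneg (z.1 - w.1))
  have h4 := mul_le_mul_of_nonneg_right hc (abs_nonneg (z.2 - w.2))
  apply max_le
  · show |(c * z.1 - s * z.2) - (c * w.1 - s * w.2)| ≤ _
    have e : (c * z.1 - s * z.2) - (c * w.1 - s * w.2) = c * (z.1 - w.1) + (-s) * (z.2 - w.2) := by ring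
    rw [e]
    refine (abs_add_le _ _).trans ?_
    rw [abs_mul, abs_mul, abs_neg]
    linarith
  · show |(s * z.1 + c * z.2) - (s * w.1 + c * w.2)| ≤ _
    have e : (s * z.1 + c * z.2) - (s * w.1 + c * w.2) = s * (z.1 - w.1) + c * (z.2 - w.2) := by ring
    rw [e]
    refine (abs_add_le _ _).trans ?_
    rw [abs_mul, abs_mul]
    linarith

theorem rot_inv {c s : ℝ} (h : c ^ 2 + s ^ 2 = 1) (a : ℝ × ℝ) : rot c s (rot c (-s) a) = a := by
  unfold rot
  ext
  · show c * (c * a.1 - -s * a.2) - s * (-s * a.1 + c * a.2) = a.1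
    linear_combination a.1 * h
  · show s * (c * a.1 - -s * a.2) + c * (-s * a.1 + c * a.2) = a.2
    linear_combination a.2 * h

theorem rot_add {c s : ℝ} (h : c ^ 2 + s ^ 2 = 1) (a : ℝ × ℝ) (d : ℝ) :
    rot c s ((rot c (-s) a).1 + d, (rot c (-s) a).2) = a + d • (c, s) := by
  unfold rot
  ext
  · show c * (c * a.1 - -s * a.2 + d) - s * (-s * a.1 + c * a.2) = a.1 + d * c
    linear_combination a.1 * h
  · show s * (c * a.1 - -s * a.2 + d) + c * (-s * a.1 + c * a.2) = a.2 + d * s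
    linear_combination a.2 * h

/-- strict inequality at a different point -/
theorem strict (h3 : S_STR) {l : ℝ} {Ω : Set (ℝ × ℝ)} {u : ℝ × ℝ → ℝ} (hl : 0 < l) (hM : MA l Ω u)
    {a b p : ℝ × ℝ} (ha : a ∈ Ω) (hb : b ∈ Ω) (hab : a ≠ b) (hp : p ∈ Sub Ω u a) :
    u a + (p.1 * (b.1 - a.1) + p.2 * (b.2 - a.2)) < u b := by
  rcases (hp b hb).lt_or_eq with h | h
  · exact h
  · exfalso
    refine h3 l Ω u hl hM a ha b hb hab p hp ?_
    intro w hw
    have := hp w hw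
    rw [← h]
    linarith

theorem circ_cpt : IsCompact {v : ℝ × ℝ | v.1 ^ 2 + v.2 ^ 2 = 1} := by
  have hcl : IsClosed {v : ℝ × ℝ | v.1 ^ 2 + v.2 ^ 2 = 1} :=
    isClosed_eq (by fun_prop) continuous_const
  refine (isCompact_closedBall (0 : ℝ × ℝ) 1).of_isClosed_subset hcl ?_
  intro v hv
  obtain ⟨h1, h2⟩ := abs_c hv
  rw [Metric.mem_closedBall, dist_zero_right, Prod.norm_def]
  exact max_le h1 h2

theorem t_CPT (h1 : S_ROT) (h2 : S_ROTS) (h3 : S_STR) (h4 : S_NE) (h5 : S_LIP) : S_CPT := by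
  intro l Ω u hl hM K hK hKO
  obtain ⟨D, hD, hDO⟩ := hK.exists_cthickening_subset_open hM.op hKO
  have hK1 : IsCompact (Metric.cthickening D K) := hK.cthickening
  obtain ⟨L, hL, hLp, hLu⟩ := h5 Ω u hM.op hM.cv _ hK1 hDO
  have hmem : ∀ a ∈ K, ∀ w : ℝ × ℝ, ‖w - a‖ ≤ D → w ∈ Metric.cthickening D K := by
    intro a ha w hw
    exact Metric.mem_cthickening_of_dist_le w a D K ha (by rw [dist_eq_norm]; exact hw)
  have hKs : K ⊆ Metric.cthickening D K := Metric.self_subset_cthickening K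
  -- continuity of `u` on the thickening
  have hcont : ContinuousOn u (Metric.cthickening D K) := by
    have : LipschitzOnWith (Real.toNNReal L) u (Metric.cthickening D K) := by
      apply LipschitzOnWith.of_dist_le_mul
      intro x hx y hy
      rw [Real.dist_eq, dist_eq_norm, Real.coe_toNNReal _ hL.le]
      exact hLu x hx y hy
    exact this.continuousOn
  set δ : ℝ := D / 2 with hδ
  have hδ0 : 0 < δ := by positivity
  -- the compact set of pairs
  have hΓ : IsCompact {x : (ℝ × ℝ) × (ℝ × ℝ) | x.1 ∈ K ∧ x.2 ∈ Sub Ω u x.1} := by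
    have hbig : IsCompact (K ×ˢ Metric.closedBall (0 : ℝ × ℝ) L) := hK.prod (isCompact_closedBall _ _)
    have hsub : {x : (ℝ × ℝ) × (ℝ × ℝ) | x.1 ∈ K ∧ x.2 ∈ Sub Ω u x.1} ⊆
        K ×ˢ Metric.closedBall (0 : ℝ × ℝ) L := by
      rintro ⟨a, p⟩ ⟨ha, hp⟩
      refine ⟨ha, ?_⟩
      rw [Metric.mem_closedBall, dist_zero_right]
      exact hLp a (hKs ha) p hp
    refine hbig.of_isClosed_subset ?_ hsub
    have he : {x : (ℝ × ℝ) × (ℝ × ℝ) | x.1 ∈ K ∧ x.2 ∈ Sub Ω u x.1} =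
        (K ×ˢ Metric.closedBall (0 : ℝ × ℝ) L) ∩ ⋂ w ∈ Ω, ((K ×ˢ Metric.closedBall (0 : ℝ × ℝ) L) ∩
          (fun x : (ℝ × ℝ) × (ℝ × ℝ) => u x.1 + (x.2.1 * (w.1 - x.1.1) + x.2.2 * (w.2 - x.1.2))) ⁻¹'
            Iic (u w)) := by
      ext x
      constructor
      · intro hx
        refine ⟨hsub hx, ?_⟩
        simp only [mem_iInter]
        intro w hw
        exact ⟨hsub hx, hx.2 w hw⟩
      · rintro ⟨hx1, hx2⟩
        refine ⟨hx1.1, ?_⟩
        intro w hw
        simp only [mem_iInter] at hx2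
        exact (hx2 w hw).2
    rw [he]
    refine hbig.isClosed.inter (isClosed_biInter fun w hw => ?_)
    refine ContinuousOn.preimage_isClosed_of_isClosed ?_ hbig.isClosed isClosed_Iic
    have hu1 : ContinuousOn (fun x : (ℝ × ℝ) × (ℝ × ℝ) => u x.1) (K ×ˢ Metric.closedBall (0 : ℝ × ℝ) L) :=
      hcont.comp continuous_fst.continuousOn (fun x hx => hKs hx.1)
    exact hu1.add (by fun_prop)
  -- the gap
  have hgap : ∃ m : ℝ, 0 < m ∧ ∀ a ∈ K, ∀ p ∈ Sub Ω u a, ∀ v : ℝ × ℝ, v.1 ^ 2 + v.2 ^ 2 = 1 →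
      m ≤ u (a + δ • v) - u a - δ * (p.1 * v.1 + p.2 * v.2) := by
    set S : Set (((ℝ × ℝ) × (ℝ × ℝ)) × (ℝ × ℝ)) :=
      {x : (ℝ × ℝ) × (ℝ × ℝ) | x.1 ∈ K ∧ x.2 ∈ Sub Ω u x.1} ×ˢ {v : ℝ × ℝ | v.1 ^ 2 + v.2 ^ 2 = 1} with hS
    have hSc : IsCompact S := hΓ.prod circ_cpt
    have hin : ∀ a ∈ K, ∀ v : ℝ × ℝ, v.1 ^ 2 + v.2 ^ 2 = 1 → a + δ • v ∈ Metric.cthickening D K := by
      intro a ha v hv
      apply hmem a ha
      rw [add_sub_cancel_left, norm_smul, Real.norm_of_nonneg hδ0.le]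
      obtain ⟨e1, e2⟩ := abs_c hv
      have : ‖v‖ ≤ 1 := by
        rw [Prod.norm_def]
        exact max_le e1 e2
      calc δ * ‖v‖ ≤ δ * 1 := by gcongr
        _ ≤ D := by rw [hδ]; linarith
    rcases S.eq_empty_or_nonempty with hE | hN
    · refine ⟨1, one_pos, ?_⟩
      intro a ha p hp v hv
      exfalso
      have : ((a, p), v) ∈ S := ⟨⟨ha, hp⟩, hv⟩
      rw [hE] at this
      exact this
    · have hF : ContinuousOn (fun x : ((ℝ × ℝ) × (ℝ × ℝ)) × (ℝ × ℝ) =>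
          u (x.1.1 + δ • x.2) - u x.1.1 - δ * (x.1.2.1 * x.2.1 + x.1.2.2 * x.2.2)) S := by
        have hu1 : ContinuousOn (fun x : ((ℝ × ℝ) × (ℝ × ℝ)) × (ℝ × ℝ) => u (x.1.1 + δ • x.2)) S :=
          hcont.comp (by fun_prop) (fun x hx => hin _ hx.1.1 _ hx.2)
        have hu2 : ContinuousOn (fun x : ((ℝ × ℝ) × (ℝ × ℝ)) × (ℝ × ℝ) => u x.1.1) S :=
          hcont.comp (by fun_prop) (fun x hx => hKs hx.1.1)
        exact (hu1.sub hu2).sub (by fun_prop)
      obtain ⟨x0, hx0, hmin⟩ := hSc.exists_isMinOn hN hF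
      refine ⟨u (x0.1.1 + δ • x0.2) - u x0.1.1 - δ * (x0.1.2.1 * x0.2.1 + x0.1.2.2 * x0.2.2), ?_, ?_⟩
      · have hne : x0.1.1 ≠ x0.1.1 + δ • x0.2 := by
          intro h
          have h0 : δ • x0.2 = 0 := by
            have := congrArg (fun z => z - x0.1.1) h
            simpa using this.symm
          rw [smul_eq_zero] at h0
          rcases h0 with h0 | h0
          · exact hδ0.ne' h0
          · have := hx0.2
            simp only [mem_setOf_eq] at this
            rw [h0] at this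
            simp at this
        have := strict h3 hl hM (hKO hx0.1.1) (hDO (hin _ hx0.1.1 _ hx0.2)) hne hx0.1.2
        have e1 : (x0.1.1 + δ • x0.2).1 - x0.1.1.1 = δ * x0.2.1 := by
          show x0.1.1.1 + δ * x0.2.1 - x0.1.1.1 = _
          ring
        have e2 : (x0.1.1 + δ • x0.2).2 - x0.1.1.2 = δ * x0.2.2 := by
          show x0.1.1.2 + δ * x0.2.2 - x0.1.1.2 = _
          ring
        rw [e1, e2] at this
        nlinarith
      · intro a ha p hp v hv
        exact hmin (show ((a, p), v) ∈ S from ⟨⟨ha, hp⟩, hv⟩)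
  obtain ⟨m, hm, hgap⟩ := hgap
  set ρ : ℝ := min δ (m / (2 * (2 * L + δ))) with hρ
  have hρ0 : 0 < ρ := lt_min hδ0 (by positivity)
  have hρδ : ρ ≤ δ := min_le_left _ _
  have hρm : ρ * (2 * L + δ) < m := by
    have h : ρ ≤ m / (2 * (2 * L + δ)) := min_le_right _ _
    rw [le_div_iff₀ (by positivity)] at h
    nlinarith
  refine ⟨δ, ρ, L, hδ0, hρ0, hL, ?_⟩
  intro a ha c s hcs p hp
  set x0 : ℝ := (rot c (-s) a).1 with hx0
  set y0 : ℝ := (rot c (-s) a).2 with hy0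
  set p0 : ℝ := (rot c (-s) p).1 with hp0
  have hp0' : p0 = c * p.1 + s * p.2 := by
    rw [hp0]
    show c * p.1 - -s * p.2 = _
    ring
  have hra : rot c s (x0, y0) = a := rot_inv hcs a
  have hbox : ∀ x y : ℝ, |x - x0| ≤ δ → |y - y0| ≤ ρ → rot c s (x, y) ∈ Metric.cthickening D K := by
    intro x y hx hy
    apply hmem a ha
    have := rot_lip hcs (x, y) (x0, y0)
    rw [hra] at this
    refine this.trans ?_
    show |x - x0| + |y - y0| ≤ D
    have : δ + δ = D := by rw [hδ]; ring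
    linarith
  have hlip : ∀ x y x' y' : ℝ, |x - x0| ≤ δ → |y - y0| ≤ ρ → |x' - x0| ≤ δ → |y' - y0| ≤ ρ →
      |u (rot c s (x, y)) - u (rot c s (x', y'))| ≤ L * (|x - x'| + |y - y'|) := by
    intro x y x' y' hx hy hx' hy'
    refine (hLu _ (hbox x y hx hy) _ (hbox x' y' hx' hy')).trans ?_
    exact mul_le_mul_of_nonneg_left (rot_lip hcs (x, y) (x', y')) hL.le
  have hδa : |x0 + δ - x0| ≤ δ := by rw [add_sub_cancel_left, abs_of_pos hδ0]
  have hδb : |x0 - δ - x0| ≤ δ := by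
    have : x0 - δ - x0 = -δ := by ring
    rw [this, abs_neg, abs_of_pos hδ0]
  have h00 : |x0 - x0| ≤ δ := by simp [hδ0.le]
  have h01 : |y0 - y0| ≤ ρ := by simp [hρ0.le]
  refine ⟨hδ0, hρ0, hL, ?_, ?_, ?_⟩
  · intro x y hx hy
    exact hDO (hbox x y hx hy)
  · intro y q hy hq
    have A1 := hlip x0 y x0 y0 h00 hy h00 h01
    have A2 := hlip (x0 + δ) y (x0 + δ) y0 hδa hy hδa h01
    have A3 := hlip (x0 - δ) y (x0 - δ) y0 hδb hy hδb h01
    rw [sub_self, abs_zero, zero_add] at A1 A2 A3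
    have G1 := hgap a ha p hp (c, s) hcs
    have G2 := hgap a ha p hp (-c, -s) (by show (-c) ^ 2 + (-s) ^ 2 = 1; rw [neg_sq, neg_sq]; exact hcs)
    have W1 : rot c s (x0 + δ, y0) = a + δ • (c, s) := rot_add hcs a δ
    have W2 : rot c s (x0 - δ, y0) = a + δ • (-c, -s) := by
      have := rot_add hcs a (-δ)
      rw [← sub_eq_add_neg] at this
      rw [this]
      congr 1
      ext
      · show -δ * c = δ * -c
        ring
      · show -δ * s = δ * -s
        ring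
    rw [hra] at A1
    rw [W1] at A2
    rw [W2] at A3
    simp only at G1 G2
    have hLy : L * |y - y0| ≤ L * ρ := mul_le_mul_of_nonneg_left hy hL.le
    have B1 := abs_le.1 A1
    have B2 := abs_le.1 A2
    have B3 := abs_le.1 A3
    have Bq := abs_le.1 hq
    have C1 : (q - p0) * δ ≤ ρ * δ := mul_le_mul_of_nonneg_right Bq.2 hδ0.le
    have C2 : -(ρ * δ) ≤ (q - p0) * δ := by
      have := mul_le_mul_of_nonneg_right Bq.1 hδ0.le
      linarith
    constructor
    · show u (rot c s (x0, y)) - q * x0 < u (rot c s (x0 + δ, y)) - q * (x0 + δ)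
      have e : δ * (p.1 * c + p.2 * s) = p0 * δ := by rw [hp0']; ring
      rw [e] at G1
      nlinarith
    · show u (rot c s (x0, y)) - q * x0 < u (rot c s (x0 - δ, y)) - q * (x0 - δ)
      have e : δ * (p.1 * -c + p.2 * -s) = -(p0 * δ) := by rw [hp0']; ring
      rw [e] at G2
      nlinarith
  · intro x y x' y' hx hy hx' hy'
    exact hlip x y x' y' hx hy hx' hy'

end Pool.Agent.W775.WH.CPT
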