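import Pool.Agent.W775.WH.Stm

set_option autoImplicit false

open MeasureTheory Set Filter Topology

namespace Pool.Agent.W775.WH.DER

open Pool.Agent.W775.WH

theorem pp_pos {x : ℝ} (h : 0 ≤ x) : pp x = x := max_eq_left h

theorem pp_neg {x : ℝ} (h : x ≤ 0) : pp x = 0 := max_eq_right h

theorem pp_cont : Continuous pp := continuous_id.max continuous_const

theorem pp_der (k : ℕ) (hk : 1 ≤ k) (x : ℝ) :
    HasDerivAt (fun x => pp x ^ (k + 1)) (((k : ℝ) + 1) * pp x ^ k) x := by
  rcases lt_trichotomy x 0 with h | h | h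
  · have h1 : (fun x => pp x ^ (k + 1)) =ᶠ[𝓝 x] fun _ => 0 := by
      filter_upwards [gt_mem_nhds h] with y hy
      rw [pp_neg hy.le, zero_pow (by omega)]
    rw [pp_neg h.le, zero_pow (by omega), mul_zero]
    exact (hasDerivAt_const x (0 : ℝ)).congr_of_eventuallyEq h1
  · subst h
    have e : ((k : ℝ) + 1) * pp 0 ^ k = 0 := by
      rw [pp_neg le_rfl, zero_pow (by omega), mul_zero]
    rw [e]
    have h1 : HasDerivWithinAt (fun x => pp x ^ (k + 1)) 0 (Iic 0) 0 := by
      refine (hasDerivWithinAt_const (0 : ℝ) (Iic 0) (0 : ℝ)).congr (fun y hy => ?_) ?_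
      · rw [pp_neg hy, zero_pow (by omega)]
      · rw [pp_neg le_rfl, zero_pow (by omega)]
    have h2 : HasDerivWithinAt (fun x => pp x ^ (k + 1)) 0 (Ici 0) 0 := by
      have h3 : HasDerivAt (fun x : ℝ => x ^ (k + 1)) 0 0 := by
        have := hasDerivAt_pow (k + 1) (0 : ℝ)
        simpa [zero_pow (show k ≠ 0 by omega)] using this
      refine h3.hasDerivWithinAt.congr (fun y hy => ?_) ?_
      · rw [pp_pos hy]
      · rw [pp_pos le_rfl]
    have h4 := h1.union h2
    rw [Iic_union_Ici] at h4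
    exact h4.hasDerivAt univ_mem
  · have h1 : (fun x => pp x ^ (k + 1)) =ᶠ[𝓝 x] fun y => y ^ (k + 1) := by
      filter_upwards [lt_mem_nhds h] with y hy
      rw [pp_pos hy.le]
    rw [pp_pos h.le]
    have h2 := (hasDerivAt_pow (k + 1) x).congr_of_eventuallyEq h1
    simpa using h2

theorem gen {s : ℝ} (hs : 0 < s) (k : ℕ) (hk : 1 ≤ k) (q q' f F : ℝ → ℝ)
    (hf : ∀ T, f T = pp (T - s) ^ (k + 1) * q T) (hq : ∀ T, 0 < T → HasDerivAt q (q' T) T)
    (hF0 : ∀ T, T ≤ s → F T = 0)
    (hF1 : ∀ T, s < T → F T = ((k : ℝ) + 1) * (T - s) ^ k * q T + (T - s) ^ (k + 1) * q' T)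
    (T : ℝ) : HasDerivAt f (F T) T := by
  have hfun : f = fun T => pp (T - s) ^ (k + 1) * q T := funext hf
  rcases lt_or_ge T s with h | h
  · rw [hF0 T h.le]
    have h1 : f =ᶠ[𝓝 T] fun _ => 0 := by
      filter_upwards [gt_mem_nhds h] with y hy
      rw [hf, pp_neg (by linarith), zero_pow (by omega), zero_mul]
    exact (hasDerivAt_const T (0 : ℝ)).congr_of_eventuallyEq h1
  · have h1 : HasDerivAt (fun T => pp (T - s) ^ (k + 1)) (((k : ℝ) + 1) * pp (T - s) ^ k) T := by
      have h2 := (pp_der k hk (T - s)).comp T ((hasDerivAt_id T).sub_const s)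
      rw [mul_one] at h2
      exact h2
    have h2 := h1.mul (hq T (lt_of_lt_of_le hs h))
    rw [hfun]
    refine HasDerivAt.congr_deriv (f := fun T => pp (T - s) ^ (k + 1) * q T) h2 ?_
    rcases h.eq_or_lt with h3 | h3
    · subst h3
      rw [hF0 s le_rfl, sub_self, pp_neg le_rfl, zero_pow (show k ≠ 0 by omega),
        zero_pow (show k + 1 ≠ 0 by omega)]
      ring
    · rw [hF1 T h3, pp_pos (by linarith)]

theorem cont {s : ℝ} (hs : 0 < s) (k : ℕ) (hk : 1 ≤ k) (q f : ℝ → ℝ)
    (hf : ∀ T, f T = pp (T - s) ^ k * q T) (hq : ∀ T, 0 < T → ContinuousAt q T) :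
    Continuous f := by
  have hfun : f = fun T => pp (T - s) ^ k * q T := funext hf
  rw [continuous_iff_continuousAt]
  intro T
  rcases lt_or_ge T s with h | h
  · have h1 : f =ᶠ[𝓝 T] fun _ => 0 := by
      filter_upwards [gt_mem_nhds h] with y hy
      rw [hf, pp_neg (by linarith), zero_pow (by omega), zero_mul]
    exact continuousAt_const.congr h1.symm
  · rw [hfun]
    have h1 : ContinuousAt (fun T => pp (T - s) ^ k) T :=
      ((pp_cont.comp (continuous_id.sub continuous_const)).pow k).continuousAt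
    exact h1.mul (hq T (lt_of_lt_of_le hs h))

theorem t_DER : S_DER := by
  intro l s hs
  have hs0 : s ≠ 0 := hs.ne'
  refine ⟨fun T => ⟨?_, ?_, ?_, ?_, ?_⟩, ?_, ?_, ?_⟩
  · refine gen hs 2 (by norm_num) (fun T => (8 * T ^ 2 + 9 * s * T + 3 * s ^ 2) / (15 * s * T ^ 5))
      (fun T => ((16 * T + 9 * s) * (15 * s * T ^ 5) - (8 * T ^ 2 + 9 * s * T + 3 * s ^ 2) *
        (15 * s * (5 * T ^ 4))) / (15 * s * T ^ 5) ^ 2) _ _ (fun T => ?_) (fun T hT => ?_)
      (fun T hT => ?_) (fun T hT => ?_) T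
    · unfold fA
      ring
    · have h1 : HasDerivAt (fun T : ℝ => 8 * T ^ 2 + 9 * s * T + 3 * s ^ 2) (16 * T + 9 * s) T := by
        have := (((hasDerivAt_pow 2 T).const_mul 8).add ((hasDerivAt_id T).const_mul (9 * s))).add_const
          (3 * s ^ 2)
        refine this.congr_deriv ?_
        simp
        ring
      have h2 : HasDerivAt (fun T : ℝ => 15 * s * T ^ 5) (15 * s * (5 * T ^ 4)) T := by
        have := (hasDerivAt_pow 5 T).const_mul (15 * s)
        simpa using this
      exact h1.div h2 (by positivity)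
    · unfold fA1
      rw [pp_neg (by linarith)]
      simp
    · have hT0 : T ≠ 0 := by linarith
      unfold fA1
      rw [pp_pos (by linarith)]
      push_cast
      field_simp
      ring
  · refine gen hs 1 le_rfl (fun T => (T + s) ^ 2 / T ^ 6)
      (fun T => ((2 * (T + s)) * T ^ 6 - (T + s) ^ 2 * (6 * T ^ 5)) / (T ^ 6) ^ 2) _ _
      (fun T => ?_) (fun T hT => ?_) (fun T hT => ?_) (fun T hT => ?_) T
    · unfold fA1
      ring
    · have h1 : HasDerivAt (fun T : ℝ => (T + s) ^ 2) (2 * (T + s)) T := by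
        have := ((hasDerivAt_id T).add_const s).pow 2
        refine HasDerivAt.congr_deriv (f := fun T : ℝ => (T + s) ^ 2) this ?_
        simp
      have h2 : HasDerivAt (fun T : ℝ => T ^ 6) (6 * T ^ 5) T := by
        have := hasDerivAt_pow 6 T
        simpa using this
      exact h1.div h2 (by positivity)
    · unfold fA2
      rw [pp_neg (by linarith)]
      simp
    · have hT0 : T ≠ 0 := by linarith
      unfold fA2
      rw [pp_pos (by linarith)]
      push_cast
      field_simp
      ring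
  · refine gen hs 2 (by norm_num)
      (fun T => l * ((5 * T ^ 3 + 7 * s * T ^ 2 + 6 * s ^ 2 * T + 2 * s ^ 3) / (15 * s ^ 2 * T ^ 5)))
      (fun T => l * (((15 * T ^ 2 + 14 * s * T + 6 * s ^ 2) * (15 * s ^ 2 * T ^ 5) -
        (5 * T ^ 3 + 7 * s * T ^ 2 + 6 * s ^ 2 * T + 2 * s ^ 3) *
        (15 * s ^ 2 * (5 * T ^ 4))) / (15 * s ^ 2 * T ^ 5) ^ 2)) _ _ (fun T => ?_) (fun T hT => ?_)
      (fun T hT => ?_) (fun T hT => ?_) T
    · unfold fB
      ring
    · have h1 : HasDerivAt (fun T : ℝ => 5 * T ^ 3 + 7 * s * T ^ 2 + 6 * s ^ 2 * T + 2 * s ^ 3)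
          (15 * T ^ 2 + 14 * s * T + 6 * s ^ 2) T := by
        have := ((((hasDerivAt_pow 3 T).const_mul 5).add ((hasDerivAt_pow 2 T).const_mul (7 * s))).add
          ((hasDerivAt_id T).const_mul (6 * s ^ 2))).add_const (2 * s ^ 3)
        refine this.congr_deriv ?_
        simp
        ring
      have h2 : HasDerivAt (fun T : ℝ => 15 * s ^ 2 * T ^ 5) (15 * s ^ 2 * (5 * T ^ 4)) T := by
        have := (hasDerivAt_pow 5 T).const_mul (15 * s ^ 2)
        simpa using this
      exact (h1.div h2 (by positivity)).const_mul l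
    · unfold fB1
      rw [pp_neg (by linarith)]
      simp
    · have hT0 : T ≠ 0 := by linarith
      unfold fB1
      rw [pp_pos (by linarith)]
      push_cast
      field_simp
      ring
  · refine gen hs 1 le_rfl (fun T => l * ((T + s) ^ 2 * (T ^ 2 + 2 * s ^ 2) / (3 * s ^ 2 * T ^ 6)))
      (fun T => l * (((2 * (T + s) * (T ^ 2 + 2 * s ^ 2) + (T + s) ^ 2 * (2 * T)) *
        (3 * s ^ 2 * T ^ 6) - (T + s) ^ 2 * (T ^ 2 + 2 * s ^ 2) * (3 * s ^ 2 * (6 * T ^ 5))) /
        (3 * s ^ 2 * T ^ 6) ^ 2)) _ _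
      (fun T => ?_) (fun T hT => ?_) (fun T hT => ?_) (fun T hT => ?_) T
    · unfold fB1
      ring
    · have h1 : HasDerivAt (fun T : ℝ => (T + s) ^ 2) (2 * (T + s)) T := by
        have := ((hasDerivAt_id T).add_const s).pow 2
        refine HasDerivAt.congr_deriv (f := fun T : ℝ => (T + s) ^ 2) this ?_
        simp
      have h3 : HasDerivAt (fun T : ℝ => T ^ 2 + 2 * s ^ 2) (2 * T) T := by
        have := (hasDerivAt_pow 2 T).add_const (2 * s ^ 2)
        simpa using this
      have h2 : HasDerivAt (fun T : ℝ => 3 * s ^ 2 * T ^ 6) (3 * s ^ 2 * (6 * T ^ 5)) T := by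
        have := (hasDerivAt_pow 6 T).const_mul (3 * s ^ 2)
        simpa using this
      exact ((h1.mul h3).div h2 (by positivity)).const_mul l
    · unfold fB2
      rw [pp_neg (by linarith)]
      simp
    · have hT0 : T ≠ 0 := by linarith
      unfold fB2
      rw [pp_pos (by linarith)]
      push_cast
      field_simp
      ring
  · refine gen hs 2 (by norm_num) (fun T => 2 * (T ^ 2 + 3 * s * T + s ^ 2) / (15 * s * T ^ 5))
      (fun T => ((2 * (2 * T + 3 * s)) * (15 * s * T ^ 5) - 2 * (T ^ 2 + 3 * s * T + s ^ 2) *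
        (15 * s * (5 * T ^ 4))) / (15 * s * T ^ 5) ^ 2) _ _ (fun T => ?_) (fun T hT => ?_)
      (fun T hT => ?_) (fun T hT => ?_) T
    · unfold fF
      ring
    · have h1 : HasDerivAt (fun T : ℝ => 2 * (T ^ 2 + 3 * s * T + s ^ 2)) (2 * (2 * T + 3 * s)) T := by
        have := (((hasDerivAt_pow 2 T).add ((hasDerivAt_id T).const_mul (3 * s))).add_const
          (s ^ 2)).const_mul 2
        refine this.congr_deriv ?_
        simp
      have h2 : HasDerivAt (fun T : ℝ => 15 * s * T ^ 5) (15 * s * (5 * T ^ 4)) T := by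
        have := (hasDerivAt_pow 5 T).const_mul (15 * s)
        simpa using this
      exact h1.div h2 (by positivity)
    · unfold fF1
      rw [pp_neg (by linarith)]
      simp
    · have hT0 : T ≠ 0 := by linarith
      unfold fF1
      rw [pp_pos (by linarith)]
      push_cast
      field_simp
      ring
  · refine cont hs 1 le_rfl (fun T => 2 * (T + s) * (3 * s ^ 2 - T ^ 2) / T ^ 7) _ (fun T => ?_)
      (fun T hT => ?_)
    · unfold fA2
      ring
    · exact ContinuousAt.div (by fun_prop) (by fun_prop) (by positivity)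
  · refine cont hs 1 le_rfl (fun T => 4 * l * s ^ 2 * (T + s) / T ^ 7) _ (fun T => ?_)
      (fun T hT => ?_)
    · unfold fB2
      ring
    · exact ContinuousAt.div (by fun_prop) (by fun_prop) (by positivity)
  · refine cont hs 2 (by norm_num) (fun T => 2 * s * (2 * T + s) / (3 * T ^ 6)) _ (fun T => ?_)
      (fun T hT => ?_)
    · unfold fF1
      ring
    · exact ContinuousAt.div (by fun_prop) (by fun_prop) (by positivity)

end Pool.Agent.W775.WH.DER

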