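import Pool.Agent.W775.WH.Stm

/-! Project WH, part DET: lower bound of the determinant of the Hessian of the heat extension. -/

set_option autoImplicit false

open MeasureTheory Set Filter Topology

namespace Pool.Agent.W775.WH.DET

open Pool.Agent.W775.WH

lemma gam_nonneg (w : ℝ × ℝ) : 0 ≤ gam w := by
  unfold gam
  positivity

lemma gam_cont : Continuous gam := by
  unfold gam
  fun_prop

lemma gauss (b : ℝ) (hb : 0 < b) :
    ∫⁻ w : ℝ × ℝ, ENNReal.ofReal (Real.exp (-b * (w.1 ^ 2 + w.2 ^ 2))) =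
      ENNReal.ofReal (Real.pi / b) := by
  have h1 : ∀ w : ℝ × ℝ, ENNReal.ofReal (Real.exp (-b * (w.1 ^ 2 + w.2 ^ 2))) =
      ENNReal.ofReal (Real.exp (-b * w.1 ^ 2)) * ENNReal.ofReal (Real.exp (-b * w.2 ^ 2)) := by
    intro w
    rw [← ENNReal.ofReal_mul (Real.exp_pos _).le, ← Real.exp_add]
    congr 2
    ring
  have hm : Measurable fun x : ℝ => ENNReal.ofReal (Real.exp (-b * x ^ 2)) := by fun_prop
  have h2 : ∫⁻ x : ℝ, ENNReal.ofReal (Real.exp (-b * x ^ 2)) =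
      ENNReal.ofReal (Real.sqrt (Real.pi / b)) := by
    rw [← integral_gaussian b, ofReal_integral_eq_lintegral_ofReal (integrable_exp_neg_mul_sq hb)]
    exact ae_of_all _ fun x => (Real.exp_pos _).le
  simp only [h1]
  rw [Measure.volume_eq_prod, lintegral_prod_mul hm.aemeasurable hm.aemeasurable, h2,
    ← ENNReal.ofReal_mul (Real.sqrt_nonneg _), Real.mul_self_sqrt (by positivity)]

lemma gam_total : ∫⁻ w : ℝ × ℝ, ENNReal.ofReal (gam w) = 1 := by
  have h1 : ∀ w : ℝ × ℝ, ENNReal.ofReal (gam w) = ENNReal.ofReal (4 * Real.pi)⁻¹ *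
      ENNReal.ofReal (Real.exp (-(1 / 4) * (w.1 ^ 2 + w.2 ^ 2))) := by
    intro w
    rw [← ENNReal.ofReal_mul (by positivity)]
    unfold gam
    congr 3
    ring
  simp only [h1]
  rw [lintegral_const_mul _ (by fun_prop), gauss _ (by norm_num),
    ← ENNReal.ofReal_mul (by positivity)]
  have : (4 * Real.pi)⁻¹ * (Real.pi / (1 / 4)) = 1 := by
    have := Real.pi_ne_zero
    field_simp
  rw [this, ENNReal.ofReal_one]

lemma tail (r : ℝ) (T : Set (ℝ × ℝ)) (hT : MeasurableSet T)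
    (h : ∀ w ∈ T, r ^ 2 ≤ w.1 ^ 2 + w.2 ^ 2) :
    ∫⁻ w in T, ENNReal.ofReal (gam w) ≤ ENNReal.ofReal (2 * Real.exp (-r ^ 2 / 8)) := by
  have h1 : ∀ w ∈ T, ENNReal.ofReal (gam w) ≤
      ENNReal.ofReal ((4 * Real.pi)⁻¹ * Real.exp (-r ^ 2 / 8)) *
      ENNReal.ofReal (Real.exp (-(1 / 8) * (w.1 ^ 2 + w.2 ^ 2))) := by
    intro w hw
    rw [← ENNReal.ofReal_mul (by positivity)]
    apply ENNReal.ofReal_le_ofReal
    unfold gam
    rw [mul_assoc, ← Real.exp_add]
    gcongr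
    have := h w hw
    linarith
  calc ∫⁻ w in T, ENNReal.ofReal (gam w)
      ≤ ∫⁻ w in T, ENNReal.ofReal ((4 * Real.pi)⁻¹ * Real.exp (-r ^ 2 / 8)) *
          ENNReal.ofReal (Real.exp (-(1 / 8) * (w.1 ^ 2 + w.2 ^ 2))) :=
        setLIntegral_mono' hT h1
    _ ≤ ∫⁻ w : ℝ × ℝ, ENNReal.ofReal ((4 * Real.pi)⁻¹ * Real.exp (-r ^ 2 / 8)) *
          ENNReal.ofReal (Real.exp (-(1 / 8) * (w.1 ^ 2 + w.2 ^ 2))) :=
        setLIntegral_le_lintegral _ _
    _ = _ := by
        rw [lintegral_const_mul _ (by fun_prop), gauss _ (by norm_num),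
          ← ENNReal.ofReal_mul (by positivity)]
        congr 1
        have := Real.pi_ne_zero
        field_simp
        norm_num

lemma mass (r : ℝ) (S : Set (ℝ × ℝ)) (hS : MeasurableSet S)
    (h : ∀ w : ℝ × ℝ, w.1 ^ 2 + w.2 ^ 2 < r ^ 2 → w ∈ S) :
    ENNReal.ofReal (1 - 2 * Real.exp (-r ^ 2 / 8)) ≤ ∫⁻ w in S, ENNReal.ofReal (gam w) := by
  have h1 := lintegral_add_compl (μ := volume) (fun w : ℝ × ℝ => ENNReal.ofReal (gam w)) hS
  rw [gam_total] at h1
  have h2 := tail r Sᶜ hS.compl (fun w hw => by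
    by_contra hlt
    exact hw (h w (not_le.1 hlt)))
  rw [ENNReal.ofReal_sub _ (by positivity), ENNReal.ofReal_one]
  apply tsub_le_iff_right.2
  calc (1 : ENNReal) = _ := h1.symm
    _ ≤ _ := by gcongr

/-- linear algebra -/
lemma alg (A B D κ : ℝ) (hκ : 0 ≤ κ) (hA : 0 ≤ A) (hD : 0 ≤ D) (hΔ : 0 ≤ A * D - B ^ 2)
    (h : ∀ c d c' d' : ℝ, (c * d' - c' * d) ^ 2 = 1 →
      2 * κ ≤ (A * c ^ 2 + 2 * B * (c * d) + D * d ^ 2) +
        (A * c' ^ 2 + 2 * B * (c' * d') + D * d' ^ 2)) :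
    κ ^ 2 ≤ A * D - B ^ 2 := by
  have key : ∀ ε : ℝ, 0 < ε → κ ^ 2 ≤ A * D - B ^ 2 + ε * (A + D) + ε ^ 2 := by
    intro ε hε
    set A' := A + ε with hA'
    set D' := D + ε with hD'
    have hA'0 : 0 < A' := by linarith
    have hΔ' : A' * D' - B ^ 2 = A * D - B ^ 2 + ε * (A + D) + ε ^ 2 := by
      rw [hA', hD']
      ring
    have hpos : 0 < A' * D' - B ^ 2 := by
      rw [hΔ']
      positivity
    set s := Real.sqrt (A' * D' - B ^ 2) with hs
    have hs0 : 0 < s := Real.sqrt_pos.2 hpos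
    have hs2 : s ^ 2 = A' * D' - B ^ 2 := Real.sq_sqrt hpos.le
    set lam := Real.sqrt (s / A') with hlam
    have hlam0 : 0 < lam := Real.sqrt_pos.2 (by positivity)
    have hlam2 : lam ^ 2 = s / A' := Real.sq_sqrt (by positivity)
    have h1 := h lam 0 (-B * (1 / (A' * lam))) (A' * (1 / (A' * lam))) (by
      field_simp
      ring)
    have h2 : A * lam ^ 2 ≤ s := by
      calc A * lam ^ 2 ≤ A' * lam ^ 2 := by
            gcongr
            linarith
        _ = s := by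
            rw [hlam2]
            field_simp
    have h3 : (1 / (A' * lam)) ^ 2 = 1 / (A' * s) := by
      rw [div_pow, mul_pow, hlam2, one_pow]
      congr 1
      field_simp
    have h4 : A * (-B * (1 / (A' * lam))) ^ 2 + 2 * B * ((-B * (1 / (A' * lam))) *
        (A' * (1 / (A' * lam)))) + D * (A' * (1 / (A' * lam))) ^ 2 ≤ s := by
      have e1 : A * (-B * (1 / (A' * lam))) ^ 2 + 2 * B * ((-B * (1 / (A' * lam))) *
        (A' * (1 / (A' * lam)))) + D * (A' * (1 / (A' * lam))) ^ 2 =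
        (1 / (A' * lam)) ^ 2 * (A * B ^ 2 - 2 * B ^ 2 * A' + D * A' ^ 2) := by ring
      rw [e1, h3]
      have e2 : A * B ^ 2 - 2 * B ^ 2 * A' + D * A' ^ 2 ≤ A' * s ^ 2 := by
        rw [hs2, hD']
        have h5 : 0 ≤ ε * B ^ 2 := by positivity
        have h6 : 0 ≤ ε * A' ^ 2 := by positivity
        have h7 : A = A' - ε := by rw [hA']; ring
        rw [h7]
        nlinarith
      calc 1 / (A' * s) * (A * B ^ 2 - 2 * B ^ 2 * A' + D * A' ^ 2)
          ≤ 1 / (A' * s) * (A' * s ^ 2) := by gcongr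
        _ = s := by field_simp
    have h5 : κ ≤ s := by
      have : (A * lam ^ 2 + 2 * B * (lam * 0) + D * 0 ^ 2) = A * lam ^ 2 := by ring
      rw [this] at h1
      linarith
    rw [← hΔ', ← hs2]
    gcongr
  have hlim : Tendsto (fun ε : ℝ => A * D - B ^ 2 + ε * (A + D) + ε ^ 2) (𝓝[>] 0)
      (𝓝 (A * D - B ^ 2 + 0 * (A + D) + 0 ^ 2)) := by
    apply Tendsto.mono_left _ nhdsWithin_le_nhds
    have hc : Continuous fun ε : ℝ => A * D - B ^ 2 + ε * (A + D) + ε ^ 2 := by fun_prop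
    exact hc.tendsto 0
  have h1 : κ ^ 2 ≤ A * D - B ^ 2 + 0 * (A + D) + 0 ^ 2 := by
    apply ge_of_tendsto hlim
    filter_upwards [self_mem_nhdsWithin] with ε hε
    exact key ε hε
  linarith

/-- pointwise inequality for a positive matrix with determinant at least `l` -/
lemma ptw (l a b e c d c' d' : ℝ) (hl : 0 < l) (ha : 0 ≤ a) (_he : 0 ≤ e)
    (h : l ≤ a * e - b ^ 2) (hd : (c * d' - c' * d) ^ 2 = 1) :
    0 ≤ a * c ^ 2 + 2 * b * (c * d) + e * d ^ 2 ∧
    0 ≤ a * c' ^ 2 + 2 * b * (c' * d') + e * d' ^ 2 ∧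
    2 * Real.sqrt l ≤ (a * c ^ 2 + 2 * b * (c * d) + e * d ^ 2) +
      (a * c' ^ 2 + 2 * b * (c' * d') + e * d' ^ 2) := by
  have ha' : 0 < a := by
    rcases ha.lt_or_eq with h1 | h1
    · exact h1
    · rw [← h1] at h
      nlinarith [sq_nonneg b]
  have hq : ∀ c d : ℝ, 0 ≤ a * c ^ 2 + 2 * b * (c * d) + e * d ^ 2 := by
    intro c d
    have h1 : a * (a * c ^ 2 + 2 * b * (c * d) + e * d ^ 2) =
        (a * c + b * d) ^ 2 + (a * e - b ^ 2) * d ^ 2 := by ring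
    have h2 : 0 ≤ a * (a * c ^ 2 + 2 * b * (c * d) + e * d ^ 2) := by
      rw [h1]
      have : 0 ≤ a * e - b ^ 2 := by linarith
      positivity
    exact nonneg_of_mul_nonneg_right h2 ha'
  refine ⟨hq c d, hq c' d', ?_⟩
  set q := a * c ^ 2 + 2 * b * (c * d) + e * d ^ 2 with hqd
  set q' := a * c' ^ 2 + 2 * b * (c' * d') + e * d' ^ 2 with hqd'
  have hq0 : 0 ≤ q := hq c d
  have hq0' : 0 ≤ q' := hq c' d'
  have hid : q * q' = (a * (c * c') + b * (c * d' + c' * d) + e * (d * d')) ^ 2 +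
      (a * e - b ^ 2) * (c * d' - c' * d) ^ 2 := by
    rw [hqd, hqd']
    ring
  have hqq : l ≤ q * q' := by
    rw [hid, hd]
    nlinarith [sq_nonneg (a * (c * c') + b * (c * d' + c' * d) + e * (d * d'))]
  have h2 : 2 * Real.sqrt l = Real.sqrt (4 * l) := by
    rw [Real.sqrt_mul (by norm_num), show (4 : ℝ) = 2 ^ 2 by norm_num,
      Real.sqrt_sq (by norm_num)]
  rw [h2]
  apply Real.sqrt_le_iff.2
  constructor
  · linarith
  · nlinarith [sq_nonneg (q - q')]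

/-- null sets under the affine map -/
lemma ae_comp (x y s : ℝ) (hs : s ≠ 0) (p : ℝ × ℝ → Prop) (h : ∀ᵐ z : ℝ × ℝ, p z) :
    ∀ᵐ w : ℝ × ℝ, p (x - s * w.1, y - s * w.2) := by
  have h1 : volume {z : ℝ × ℝ | ¬ p z} = 0 := h
  have h2 : volume ((fun z : ℝ × ℝ => ((x, y) : ℝ × ℝ) - z) ⁻¹' {z : ℝ × ℝ | ¬ p z}) = 0 := by
    have hqm := quasiMeasurePreserving_sub_left (volume : Measure (ℝ × ℝ)) ((x, y) : ℝ × ℝ)
    exact hqm.preimage_null h1
  have h3 : volume ((fun w : ℝ × ℝ => s • w) ⁻¹'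
      ((fun z : ℝ × ℝ => ((x, y) : ℝ × ℝ) - z) ⁻¹' {z : ℝ × ℝ | ¬ p z})) = 0 := by
    rw [Measure.addHaar_preimage_smul _ hs, h2, mul_zero]
  exact h3

theorem t_DET (h1 : S_LOW) (h2 : S_PSD) : S_DET := by
  intro l b C R z0 g P hloc
  have hl := hloc.l0
  have hR := hloc.R0
  refine ⟨R ^ 2 / 8, 4 * l, by positivity, by positivity, ?_⟩
  intro t ht ht1 z hz
  obtain ⟨hT0, hD0, hq⟩ := h2 g C hloc.lip hloc.cv t z.1 z.2 ht
  have hst : 0 < Real.sqrt t := Real.sqrt_pos.2 ht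
  set e : ℝ := Real.exp (-(R ^ 2 / 8) / t) with he
  have he0 : 0 < e := Real.exp_pos _
  rcases le_or_gt (1 - 2 * e) 0 with hm | hm
  · have : l - 4 * l * e ≤ 0 := by nlinarith
    linarith
  -- the set
  set S : Set (ℝ × ℝ) := {w : ℝ × ℝ | (z.1 - Real.sqrt t * w.1, z.2 - Real.sqrt t * w.2) ∈
    Metric.ball z0 (3 * R)} with hS
  have hφ : Continuous fun w : ℝ × ℝ => ((z.1 - Real.sqrt t * w.1, z.2 - Real.sqrt t * w.2) : ℝ × ℝ) := by
    fun_prop
  have hSm : MeasurableSet S := (Metric.isOpen_ball.preimage hφ).measurableSet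
  have hSin : ∀ w : ℝ × ℝ, w.1 ^ 2 + w.2 ^ 2 < (R / Real.sqrt t) ^ 2 → w ∈ S := by
    intro w hw
    have hz' : dist z z0 ≤ 2 * R := Metric.mem_closedBall.1 hz
    rw [Prod.dist_eq, max_le_iff, Real.dist_eq, Real.dist_eq] at hz'
    have hr : 0 < R / Real.sqrt t := by positivity
    have hw1 : |w.1| < R / Real.sqrt t := by
      apply abs_lt_of_sq_lt_sq _ hr.le
      nlinarith [sq_nonneg w.2]
    have hw2 : |w.2| < R / Real.sqrt t := by
      apply abs_lt_of_sq_lt_sq _ hr.le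
      nlinarith [sq_nonneg w.1]
    rw [lt_div_iff₀ hst] at hw1 hw2
    change (z.1 - Real.sqrt t * w.1, z.2 - Real.sqrt t * w.2) ∈ Metric.ball z0 (3 * R)
    rw [Metric.mem_ball, Prod.dist_eq, max_lt_iff, Real.dist_eq, Real.dist_eq]
    constructor
    · calc |z.1 - Real.sqrt t * w.1 - z0.1| = |(z.1 - z0.1) - Real.sqrt t * w.1| := by ring_nf
        _ ≤ |z.1 - z0.1| + |Real.sqrt t * w.1| := abs_sub _ _
        _ < 3 * R := by
          rw [abs_mul, abs_of_pos hst]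
          linarith [hz'.1]
    · calc |z.2 - Real.sqrt t * w.2 - z0.2| = |(z.2 - z0.2) - Real.sqrt t * w.2| := by ring_nf
        _ ≤ |z.2 - z0.2| + |Real.sqrt t * w.2| := abs_sub _ _
        _ < 3 * R := by
          rw [abs_mul, abs_of_pos hst]
          linarith [hz'.2]
  have hmass := mass (R / Real.sqrt t) S hSm hSin
  have hexp : Real.exp (-(R / Real.sqrt t) ^ 2 / 8) = e := by
    rw [he, div_pow, Real.sq_sqrt ht.le]
    congr 1
    field_simp
  rw [hexp] at hmass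
  -- almost everywhere information
  have hgood : ∀ᵐ w : ℝ × ℝ, w ∈ S →
      Good l P (z.1 - Real.sqrt t * w.1, z.2 - Real.sqrt t * w.2) := by
    have h3 := (ae_restrict_iff' measurableSet_ball).1 hloc.good
    exact ae_comp z.1 z.2 (Real.sqrt t) hst.ne' _ h3
  -- measurability
  have hmeas : ∀ c d : ℝ, Measurable fun w : ℝ × ℝ =>
      ENNReal.ofReal (gam w * (h11 P (z.1 - Real.sqrt t * w.1, z.2 - Real.sqrt t * w.2) * c ^ 2 +
        2 * h12 P (z.1 - Real.sqrt t * w.1, z.2 - Real.sqrt t * w.2) * (c * d) +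
        h22 P (z.1 - Real.sqrt t * w.1, z.2 - Real.sqrt t * w.2) * d ^ 2)) := by
    intro c d
    have m11 : Measurable (h11 P) := (measurable_fderiv_apply_const ℝ P (1, 0)).fst
    have m12 : Measurable (h12 P) := (measurable_fderiv_apply_const ℝ P (0, 1)).fst
    have m22 : Measurable (h22 P) := (measurable_fderiv_apply_const ℝ P (0, 1)).snd
    have n11 := m11.comp hφ.measurable
    have n12 := m12.comp hφ.measurable
    have n22 := m22.comp hφ.measurable
    exact (gam_cont.measurable.mul (((n11.mul_const _).add ((n12.const_mul 2).mul_const _)).add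
      (n22.mul_const _))).ennreal_ofReal
  have hpair : ∀ c d c' d' : ℝ, (c * d' - c' * d) ^ 2 = 1 →
      2 * (Real.sqrt l * (1 - 2 * e)) ≤
        ((HT g t z.1 z.2 + HA g t z.1 z.2) / 2 * c ^ 2 + 2 * (HB g t z.1 z.2 / 2) * (c * d) +
          (HT g t z.1 z.2 - HA g t z.1 z.2) / 2 * d ^ 2) +
        ((HT g t z.1 z.2 + HA g t z.1 z.2) / 2 * c' ^ 2 + 2 * (HB g t z.1 z.2 / 2) * (c' * d') +
          (HT g t z.1 z.2 - HA g t z.1 z.2) / 2 * d' ^ 2) := by
    intro c d c' d' hdet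
    have hL1 := h1 l b C R z0 g P hloc t z.1 z.2 ht c d
    have hL2 := h1 l b C R z0 g P hloc t z.1 z.2 ht c' d'
    have hq1 := hq c d
    have hq2 := hq c' d'
    have hsum := add_le_add hL1 hL2
    rw [← ENNReal.ofReal_add hq1 hq2, ← lintegral_add_left (hmeas c d)] at hsum
    have hlow : ∫⁻ w in S, ENNReal.ofReal (2 * Real.sqrt l) * ENNReal.ofReal (gam w) ≤
        ∫⁻ w in S, (ENNReal.ofReal (gam w * (h11 P (z.1 - Real.sqrt t * w.1, z.2 - Real.sqrt t * w.2) * c ^ 2 +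
          2 * h12 P (z.1 - Real.sqrt t * w.1, z.2 - Real.sqrt t * w.2) * (c * d) +
          h22 P (z.1 - Real.sqrt t * w.1, z.2 - Real.sqrt t * w.2) * d ^ 2)) +
        ENNReal.ofReal (gam w * (h11 P (z.1 - Real.sqrt t * w.1, z.2 - Real.sqrt t * w.2) * c' ^ 2 +
          2 * h12 P (z.1 - Real.sqrt t * w.1, z.2 - Real.sqrt t * w.2) * (c' * d') +
          h22 P (z.1 - Real.sqrt t * w.1, z.2 - Real.sqrt t * w.2) * d' ^ 2))) := by
      apply lintegral_mono_ae
      rw [ae_restrict_iff' hSm]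
      filter_upwards [hgood] with w hw hwS
      obtain ⟨_, _, ha, he', hdl, _⟩ := hw hwS
      obtain ⟨p1, p2, p3⟩ := ptw l _ _ _ c d c' d' hl ha he' hdl hdet
      rw [← ENNReal.ofReal_add (mul_nonneg (gam_nonneg w) p1) (mul_nonneg (gam_nonneg w) p2),
        ← ENNReal.ofReal_mul (by positivity)]
      apply ENNReal.ofReal_le_ofReal
      rw [← mul_add, mul_comm]
      exact mul_le_mul_of_nonneg_left p3 (gam_nonneg w)
    rw [lintegral_const_mul _ (gam_cont.measurable.ennreal_ofReal)] at hlow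
    have hfin : ENNReal.ofReal (2 * Real.sqrt l * (1 - 2 * e)) ≤
        ENNReal.ofReal (((HT g t z.1 z.2 + HA g t z.1 z.2) / 2 * c ^ 2 +
          HB g t z.1 z.2 * (c * d) + (HT g t z.1 z.2 - HA g t z.1 z.2) / 2 * d ^ 2) +
        ((HT g t z.1 z.2 + HA g t z.1 z.2) / 2 * c' ^ 2 + HB g t z.1 z.2 * (c' * d') +
          (HT g t z.1 z.2 - HA g t z.1 z.2) / 2 * d' ^ 2)) := by
      rw [ENNReal.ofReal_mul (by positivity)]
      refine (mul_le_mul_right hmass _).trans (hlow.trans hsum)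
    have hfin' := (ENNReal.ofReal_le_ofReal_iff (add_nonneg hq1 hq2)).1 hfin
    linarith
  have hHD : HD g t z.1 z.2 = (HT g t z.1 z.2 + HA g t z.1 z.2) / 2 *
      ((HT g t z.1 z.2 - HA g t z.1 z.2) / 2) - (HB g t z.1 z.2 / 2) ^ 2 := by
    unfold HD
    ring
  have hA0 : 0 ≤ (HT g t z.1 z.2 + HA g t z.1 z.2) / 2 := by
    have := hq 1 0
    simpa using this
  have hDD0 : 0 ≤ (HT g t z.1 z.2 - HA g t z.1 z.2) / 2 := by
    have := hq 0 1
    simpa using this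
  rw [hHD] at hD0 ⊢
  have hfinal := alg _ _ _ (Real.sqrt l * (1 - 2 * e)) (by positivity) hA0 hDD0 hD0 hpair
  refine le_trans ?_ hfinal
  rw [mul_pow, Real.sq_sqrt hl.le]
  nlinarith [sq_nonneg e]

end Pool.Agent.W775.WH.DET
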