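import Pool.Agent.W775.WH.Stm

/-!
WH-DTX (by helper672): crude bound of the gradient of the heat extension of the Laplacian.
-/

set_option autoImplicit false

open MeasureTheory Set Filter Topology

namespace Pool.Agent.W775.WH.DTX

/-- the integrable majorant -/
theorem int_maj : Integrable (fun w : ℝ × ℝ => Real.exp (-(1 / 8) * w.1 ^ 2) *
    Real.exp (-(1 / 8) * w.2 ^ 2)) := by
  have h := integrable_exp_neg_mul_sq (b := 1 / 8) (by norm_num)
  exact h.mul_prod h

theorem exp_split (w : ℝ × ℝ) : Real.exp (-(w.1 ^ 2 + w.2 ^ 2) / 4) =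
    Real.exp (-((w.1 ^ 2 + w.2 ^ 2) / 16)) * Real.exp (-((w.1 ^ 2 + w.2 ^ 2) / 16)) *
    (Real.exp (-(1 / 8) * w.1 ^ 2) * Real.exp (-(1 / 8) * w.2 ^ 2)) := by
  rw [← Real.exp_add, ← Real.exp_add, ← Real.exp_add]
  congr 1
  ring

theorem le_exp (r : ℝ) (a : ℝ) (h : a ≤ 16 * (1 + r / 16)) : a * Real.exp (-(r / 16)) ≤ 16 := by
  have h1 : 1 + r / 16 ≤ Real.exp (r / 16) := by
    have := Real.add_one_le_exp (r / 16)
    linarith
  have h2 : 0 < Real.exp (-(r / 16)) := Real.exp_pos _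
  have h3 : Real.exp (r / 16) * Real.exp (-(r / 16)) = 1 := by
    rw [← Real.exp_add]; simp
  calc a * Real.exp (-(r / 16)) ≤ 16 * Real.exp (r / 16) * Real.exp (-(r / 16)) := by
        apply mul_le_mul_of_nonneg_right _ h2.le
        linarith
    _ = 16 := by rw [mul_assoc, h3, mul_one]

/-- integrability of a quadratic times the Gaussian times a function of linear growth -/
theorem int_gen (f : ℝ × ℝ → ℝ) (M : ℝ) (hM : 0 ≤ M) (hf : Continuous f)
    (hb : ∀ w : ℝ × ℝ, |f w| ≤ M * (1 + |w.1| + |w.2|)) :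
    Integrable (fun w : ℝ × ℝ => ((w.1 ^ 2 + w.2 ^ 2) / 4 - 1) * gam w * f w) := by
  have hmaj := (int_maj.const_mul (256 * M * (4 * Real.pi)⁻¹))
  refine hmaj.mono' ?_ ?_
  · apply Continuous.aestronglyMeasurable
    unfold gam
    fun_prop
  · refine Filter.Eventually.of_forall fun w => ?_
    have hπ : 0 < (4 * Real.pi)⁻¹ := by positivity
    rw [Real.norm_eq_abs, abs_mul, abs_mul]
    unfold gam
    rw [abs_of_pos (mul_pos hπ (Real.exp_pos _)), exp_split]
    set r := w.1 ^ 2 + w.2 ^ 2 with hr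
    have hr0 : 0 ≤ r := by positivity
    set E := Real.exp (-(r / 16)) with hE
    set G := Real.exp (-(1 / 8) * w.1 ^ 2) * Real.exp (-(1 / 8) * w.2 ^ 2) with hG
    have hE0 : 0 < E := Real.exp_pos _
    have hG0 : 0 < G := mul_pos (Real.exp_pos _) (Real.exp_pos _)
    have h1 : |r / 4 - 1| * E ≤ 16 := by
      have h2 : |r / 4 - 1| ≤ r / 4 + 1 := abs_le.2 ⟨by linarith, by linarith⟩
      exact (mul_le_mul_of_nonneg_right h2 hE0.le).trans (le_exp r _ (by linarith))
    have h2 : (1 + |w.1| + |w.2|) * E ≤ 16 := by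
      apply le_exp
      have g1 : |w.1| ≤ (1 + w.1 ^ 2) / 2 := by
        have := sq_nonneg (|w.1| - 1)
        rw [sub_sq, sq_abs] at this
        linarith
      have g2 : |w.2| ≤ (1 + w.2 ^ 2) / 2 := by
        have := sq_nonneg (|w.2| - 1)
        rw [sub_sq, sq_abs] at this
        linarith
      linarith
    have h3 : |f w| * E ≤ 16 * M := by
      calc |f w| * E ≤ M * (1 + |w.1| + |w.2|) * E := mul_le_mul_of_nonneg_right (hb w) hE0.le
        _ = M * ((1 + |w.1| + |w.2|) * E) := by ring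
        _ ≤ M * 16 := mul_le_mul_of_nonneg_left h2 hM
        _ = 16 * M := by ring
    calc |r / 4 - 1| * ((4 * Real.pi)⁻¹ * (E * E * G)) * |f w|
        = (|r / 4 - 1| * E) * (|f w| * E) * ((4 * Real.pi)⁻¹ * G) := by ring
      _ ≤ 16 * (16 * M) * ((4 * Real.pi)⁻¹ * G) := by
          apply mul_le_mul_of_nonneg_right _ (by positivity)
          exact mul_le_mul h1 h3 (by positivity) (by norm_num)
      _ = 256 * M * (4 * Real.pi)⁻¹ * G := by ring

/-- the constant -/
noncomputable def K0 : ℝ := ∫ w : ℝ × ℝ, |((w.1 ^ 2 + w.2 ^ 2) / 4 - 1) * gam w|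

theorem int_one : Integrable (fun w : ℝ × ℝ => ((w.1 ^ 2 + w.2 ^ 2) / 4 - 1) * gam w) := by
  have h := int_gen (fun _ => 1) 1 zero_le_one continuous_const (fun w => by
    have h1 := abs_nonneg w.1
    have h2 := abs_nonneg w.2
    rw [abs_one]
    linarith)
  simpa using h

theorem lip_gen (g : ℝ × ℝ → ℝ) (C : ℝ) (hg : ∀ z w : ℝ × ℝ, |g z - g w| ≤ C * ‖z - w‖)
    (t x y x' y' : ℝ) (ht : 0 < t) (ht1 : t ≤ 1) :
    |HT g t x y - HT g t x' y'| ≤ t⁻¹ * (C * K0) * ‖((x, y) : ℝ × ℝ) - (x', y')‖ := by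
  have hC : 0 ≤ C := by
    have h := hg (1, 0) (0, 0)
    have h1 : ‖((1, 0) : ℝ × ℝ) - (0, 0)‖ = 1 := by simp [Prod.norm_def]
    rw [h1, mul_one] at h
    exact (abs_nonneg _).trans h
  have hgc : Continuous g := by
    have : LipschitzWith (Real.toNNReal C) g := by
      apply LipschitzWith.of_dist_le_mul
      intro z w
      rw [Real.dist_eq, dist_eq_norm, Real.coe_toNNReal C hC]
      exact hg z w
    exact this.continuous
  have hint : ∀ a b : ℝ, Integrable (fun w : ℝ × ℝ => ((w.1 ^ 2 + w.2 ^ 2) / 4 - 1) * gam w *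
      g (a - Real.sqrt t * w.1, b - Real.sqrt t * w.2)) := by
    intro a b
    refine int_gen (fun w => g (a - Real.sqrt t * w.1, b - Real.sqrt t * w.2))
      (|g (a, b)| + C) (by positivity) (by fun_prop) (fun w => ?_)
    have h1 := hg (a - Real.sqrt t * w.1, b - Real.sqrt t * w.2) (a, b)
    have hs1 : Real.sqrt t ≤ 1 := Real.sqrt_le_one.2 ht1
    have hs0 : 0 ≤ Real.sqrt t := Real.sqrt_nonneg _
    have h2 : ‖((a - Real.sqrt t * w.1, b - Real.sqrt t * w.2) : ℝ × ℝ) - (a, b)‖ ≤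
        |w.1| + |w.2| := by
      rw [Prod.norm_def]
      simp only [Prod.fst_sub, Prod.snd_sub, sub_sub_cancel_left, norm_neg, norm_mul,
        Real.norm_eq_abs]
      rw [abs_of_nonneg hs0]
      have g1 := abs_nonneg w.1
      have g2 := abs_nonneg w.2
      apply max_le
      · nlinarith
      · nlinarith
    have h3 : |g (a - Real.sqrt t * w.1, b - Real.sqrt t * w.2)| ≤ |g (a, b)| +
        C * (|w.1| + |w.2|) := by
      have h4 := abs_sub_abs_le_abs_sub (g (a - Real.sqrt t * w.1, b - Real.sqrt t * w.2)) (g (a, b))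
      have h5 := mul_le_mul_of_nonneg_left h2 hC
      linarith
    have g1 := abs_nonneg w.1
    have g2 := abs_nonneg w.2
    have g3 := abs_nonneg (g (a, b))
    nlinarith [mul_nonneg g3 g1, mul_nonneg g3 g2]
  unfold HT
  rw [← mul_sub, ← integral_sub (hint x y) (hint x' y'), abs_mul, abs_of_pos (inv_pos.2 ht),
    mul_assoc t⁻¹]
  apply mul_le_mul_of_nonneg_left _ (inv_pos.2 ht).le
  have h1 : ∀ w : ℝ × ℝ, ‖((w.1 ^ 2 + w.2 ^ 2) / 4 - 1) * gam w *
      g (x - Real.sqrt t * w.1, y - Real.sqrt t * w.2) - ((w.1 ^ 2 + w.2 ^ 2) / 4 - 1) * gam w *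
      g (x' - Real.sqrt t * w.1, y' - Real.sqrt t * w.2)‖ ≤
      |((w.1 ^ 2 + w.2 ^ 2) / 4 - 1) * gam w| * (C * ‖((x, y) : ℝ × ℝ) - (x', y')‖) := by
    intro w
    rw [← mul_sub, norm_mul, Real.norm_eq_abs, Real.norm_eq_abs]
    apply mul_le_mul_of_nonneg_left _ (abs_nonneg _)
    have h2 := hg (x - Real.sqrt t * w.1, y - Real.sqrt t * w.2)
      (x' - Real.sqrt t * w.1, y' - Real.sqrt t * w.2)
    have h3 : ((x - Real.sqrt t * w.1, y - Real.sqrt t * w.2) : ℝ × ℝ) -
        (x' - Real.sqrt t * w.1, y' - Real.sqrt t * w.2) = (x, y) - (x', y') := by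
      ext
      · simp
      · simp
    rwa [h3] at h2
  have h2 := norm_integral_le_of_norm_le (int_one.abs.mul_const
    (C * ‖((x, y) : ℝ × ℝ) - (x', y')‖)) (Filter.Eventually.of_forall h1)
  rw [Real.norm_eq_abs, integral_mul_const] at h2
  refine h2.trans (le_of_eq ?_)
  unfold K0
  ring

theorem t_DTX : S_DTX := by
  intro g C hg
  have hC : 0 ≤ C := by
    have h := hg (1, 0) (0, 0)
    have h1 : ‖((1, 0) : ℝ × ℝ) - (0, 0)‖ = 1 := by simp [Prod.norm_def]
    rw [h1, mul_one] at h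
    exact (abs_nonneg _).trans h
  have hK0 : 0 ≤ K0 := integral_nonneg fun _ => abs_nonneg _
  refine ⟨C * K0 + 1, by positivity, ?_⟩
  intro t ht ht1 x y
  have hti : 0 < t⁻¹ := inv_pos.2 ht
  have hti1 : 1 ≤ t⁻¹ := (one_le_inv₀ ht).2 ht1
  have hpow : t ^ (-2 : ℝ) = t⁻¹ * t⁻¹ := by
    rw [Real.rpow_neg ht.le, Real.rpow_ofNat, pow_two, mul_inv]
  have hbd : t⁻¹ * (C * K0) ≤ (C * K0 + 1) * t ^ (-2 : ℝ) := by
    rw [hpow]
    have h1 : 0 ≤ C * K0 := by positivity
    have h2 : t⁻¹ * (C * K0) ≤ t⁻¹ * t⁻¹ * (C * K0) := by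
      rw [mul_assoc]
      apply mul_le_mul_of_nonneg_left _ hti.le
      nlinarith
    nlinarith [mul_pos hti hti]
  have hnn : 0 ≤ t⁻¹ * (C * K0) := by positivity
  constructor
  · refine le_trans ?_ hbd
    have hL : LipschitzWith (Real.toNNReal (t⁻¹ * (C * K0))) (fun x' => HT g t x' y) := by
      apply LipschitzWith.of_dist_le_mul
      intro a b
      rw [Real.coe_toNNReal _ hnn, Real.dist_eq, Real.dist_eq]
      have h1 := lip_gen g C hg t a y b y ht ht1
      have h2 : ‖((a, y) : ℝ × ℝ) - (b, y)‖ = |a - b| := by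
        rw [Prod.norm_def]; simp
      rwa [h2] at h1
    have h3 := norm_deriv_le_of_lipschitz (x₀ := x) hL
    rw [Real.coe_toNNReal _ hnn, Real.norm_eq_abs] at h3
    exact h3
  · refine le_trans ?_ hbd
    have hL : LipschitzWith (Real.toNNReal (t⁻¹ * (C * K0))) (fun y' => HT g t x y') := by
      apply LipschitzWith.of_dist_le_mul
      intro a b
      rw [Real.coe_toNNReal _ hnn, Real.dist_eq, Real.dist_eq]
      have h1 := lip_gen g C hg t x a x b ht ht1
      have h2 : ‖((x, a) : ℝ × ℝ) - (x, b)‖ = |a - b| := by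
        rw [Prod.norm_def]; simp
      rwa [h2] at h1
    have h3 := norm_deriv_le_of_lipschitz (x₀ := y) hL
    rw [Real.coe_toNNReal _ hnn, Real.norm_eq_abs] at h3
    exact h3

end Pool.Agent.W775.WH.DTX
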