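import Pool.Agent.W775.WH.Stm

/-!
Project WH, part E0 (helper63): the inequality at time zero, at level `s`.
-/

set_option autoImplicit false

open MeasureTheory Set Filter Topology

namespace Pool.Agent.W775.WH.E0

open Pool.Agent.W775.WH

/-! ### the functions `fA`, `fB` -/

theorem pp_cont : Continuous pp := continuous_id.max continuous_const

theorem pp_nonneg (x : ℝ) : 0 ≤ pp x := le_max_right _ _

theorem pp_zero {x : ℝ} (h : x ≤ 0) : pp x = 0 := max_eq_right h

theorem pp_self {x : ℝ} (h : 0 ≤ x) : pp x = x := max_eq_left h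

theorem fA_eq {s : ℝ} (T : ℝ) : fA s T =
    pp (T - s) ^ 3 * (8 * T ^ 2 + 9 * s * T + 3 * s ^ 2) / (15 * s * (max T s) ^ 5) := by
  unfold fA
  rcases le_total T s with h | h
  · rw [pp_zero (by linarith)]
    simp
  · rw [max_eq_left h]

theorem fB_eq {l s : ℝ} (T : ℝ) : fB l s T =
    l * (pp (T - s) ^ 3 * (5 * T ^ 3 + 7 * s * T ^ 2 + 6 * s ^ 2 * T + 2 * s ^ 3) /
      (15 * s ^ 2 * (max T s) ^ 5)) := by
  unfold fB
  rcases le_total T s with h | h
  · rw [pp_zero (by linarith)]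
    simp
  · rw [max_eq_left h]

theorem fA_cont {s : ℝ} (hs : 0 < s) : Continuous (fA s) := by
  have e : fA s = fun T => pp (T - s) ^ 3 * (8 * T ^ 2 + 9 * s * T + 3 * s ^ 2) /
      (15 * s * (max T s) ^ 5) := funext (fun T => fA_eq T)
  rw [e]
  have h1 : Continuous (fun T : ℝ => pp (T - s)) :=
    pp_cont.comp (continuous_id.sub continuous_const)
  refine Continuous.div ((h1.pow 3).mul (by fun_prop)) (by fun_prop) ?_
  intro T
  have : 0 < max T s := lt_of_lt_of_le hs (le_max_right _ _)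
  positivity

theorem fB_cont {l s : ℝ} (hs : 0 < s) : Continuous (fB l s) := by
  have e : fB l s = fun T => l * (pp (T - s) ^ 3 * (5 * T ^ 3 + 7 * s * T ^ 2 +
      6 * s ^ 2 * T + 2 * s ^ 3) / (15 * s ^ 2 * (max T s) ^ 5)) := funext (fun T => fB_eq T)
  rw [e]
  have h1 : Continuous (fun T : ℝ => pp (T - s)) :=
    pp_cont.comp (continuous_id.sub continuous_const)
  refine continuous_const.mul (Continuous.div ((h1.pow 3).mul (by fun_prop)) (by fun_prop) ?_)
  intro T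
  have : 0 < max T s := lt_of_lt_of_le hs (le_max_right _ _)
  positivity

theorem fA_zero {s T : ℝ} (h : T ≤ s) : fA s T = 0 := by
  unfold fA
  rw [pp_zero (by linarith)]
  simp

theorem fB_zero {l s T : ℝ} (h : T ≤ s) : fB l s T = 0 := by
  unfold fB
  rw [pp_zero (by linarith)]
  simp

theorem fA_bound {s : ℝ} (hs : 0 < s) (T : ℝ) : |fA s T| ≤ 4 / (3 * s) := by
  rcases le_total T s with h | h
  · rw [fA_zero h, abs_zero]
    positivity
  · have hT : 0 < T := lt_of_lt_of_le hs h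
    unfold fA
    rw [pp_self (by linarith)]
    have h0 : 0 ≤ T - s := by linarith
    rw [abs_of_nonneg (by positivity), div_le_div_iff₀ (by positivity) (by positivity)]
    have h1 : (T - s) ^ 3 ≤ T ^ 3 := pow_le_pow_left₀ h0 (by linarith) 3
    have h2 : 8 * T ^ 2 + 9 * s * T + 3 * s ^ 2 ≤ 20 * T ^ 2 := by nlinarith
    have h3 : (T - s) ^ 3 * (8 * T ^ 2 + 9 * s * T + 3 * s ^ 2) ≤ T ^ 3 * (20 * T ^ 2) :=
      mul_le_mul h1 h2 (by positivity) (by positivity)
    have h4 : (T - s) ^ 3 * (8 * T ^ 2 + 9 * s * T + 3 * s ^ 2) * (3 * s) ≤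
        T ^ 3 * (20 * T ^ 2) * (3 * s) := mul_le_mul_of_nonneg_right h3 (by positivity)
    linarith [h4]

/-- the bounded remainder `l T / (3 s ^ 2) - fB`. -/
noncomputable def rr (l s T : ℝ) : ℝ := l * T / (3 * s ^ 2) - fB l s T

theorem rr_cont {l s : ℝ} (hs : 0 < s) : Continuous (rr l s) := by
  unfold rr
  have := fB_cont (l := l) hs
  fun_prop

theorem rr_bound {l s : ℝ} (hl : 0 < l) (hs : 0 < s) {T : ℝ} (hT : 0 ≤ T) :
    |rr l s T| ≤ l / s := by
  unfold rr
  rcases le_total T s with h | h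
  · rw [fB_zero h, sub_zero, abs_of_nonneg (by positivity), div_le_div_iff₀ (by positivity) hs]
    nlinarith [mul_le_mul_of_nonneg_left h (mul_nonneg hl.le hs.le), mul_pos hl (pow_pos hs 2)]
  · have hT : 0 < T := lt_of_lt_of_le hs h
    have e : l * T / (3 * s ^ 2) - fB l s T =
        l * (8 * T ^ 5 - 5 * s ^ 3 * T ^ 2 + 2 * s ^ 5) / (15 * s * T ^ 5) := by
      unfold fB
      rw [pp_self (by linarith)]
      field_simp
      ring
    have h3 : s ^ 3 * T ^ 2 ≤ T ^ 3 * T ^ 2 :=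
      mul_le_mul_of_nonneg_right (pow_le_pow_left₀ hs.le h 3) (by positivity)
    have h5 : s ^ 5 ≤ T ^ 5 := pow_le_pow_left₀ hs.le h 5
    have h6 : 0 ≤ 8 * T ^ 5 - 5 * s ^ 3 * T ^ 2 + 2 * s ^ 5 := by
      have : 0 < s ^ 5 := by positivity
      nlinarith [pow_pos hT 5]
    rw [e, abs_of_nonneg (by positivity), div_le_div_iff₀ (by positivity) hs]
    have h7 : 8 * T ^ 5 - 5 * s ^ 3 * T ^ 2 + 2 * s ^ 5 ≤ 15 * T ^ 5 := by
      have : 0 < s ^ 3 * T ^ 2 := by positivity
      nlinarith [pow_pos hT 5]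
    have h8 := mul_le_mul_of_nonneg_left h7 (mul_nonneg hl.le hs.le)
    linarith [h8]

/-! ### continuity in space -/

theorem cont_of_Sm {n : ℕ} {f : ℝ → ℝ → ℝ → ℝ} (h : Sm n f) {t : ℝ} (ht : 0 < t) :
    Continuous (fun z : ℝ × ℝ => f t z.1 z.2) := by
  have h1 : ContinuousOn (fun q : ℝ × ℝ × ℝ => f q.1 q.2.1 q.2.2) {q | 0 < q.1} :=
    ContDiffOn.continuousOn h
  have h2 : Continuous (fun z : ℝ × ℝ => ((t, z.1, z.2) : ℝ × ℝ × ℝ)) := by fun_prop
  exact h1.comp_continuous h2 (fun z => ht)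

theorem meas_h (P : ℝ × ℝ → ℝ × ℝ) : Measurable (T0 P) ∧ Measurable (D0 P) := by
  have h1 : Measurable (fun z => fderiv ℝ P z ((1 : ℝ), (0 : ℝ))) :=
    measurable_fderiv_apply_const ℝ P (1, 0)
  have h2 : Measurable (fun z => fderiv ℝ P z ((0 : ℝ), (1 : ℝ))) :=
    measurable_fderiv_apply_const ℝ P (0, 1)
  have a11 : Measurable (h11 P) := h1.fst
  have a12 : Measurable (h12 P) := h2.fst
  have a22 : Measurable (h22 P) := h2.snd
  constructor
  · exact a11.add a22
  · exact (a11.mul a22).sub (a12.pow_const 2)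

theorem t_E0 (h1 : S_FL) (h2 : S_HSYS) (h3 : S_PSD) (h4 : S_PTL) (h5 : S_L1D) (h6 : S_LTT)
    (h7 : S_SIG) : S_E0 := by
  intro l b C R z0 g P hL χ e hχ hχc hχs hec he0 hle s M hs hHT1 hM
  have hl := hL.l0
  have hR := hL.R0
  have hH := h2 g C hL.lip
  have hps := h3 g C hL.lip hL.cv
  have hcχ : Continuous χ := hχ.continuous
  have hcT : ∀ t : ℝ, 0 < t → Continuous (fun z : ℝ × ℝ => HT g t z.1 z.2) :=
    fun t ht => cont_of_Sm hH.sT ht
  have hcA : ∀ t : ℝ, 0 < t → Continuous (fun z : ℝ × ℝ => HA g t z.1 z.2) :=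
    fun t ht => cont_of_Sm hH.sA ht
  have hcB : ∀ t : ℝ, 0 < t → Continuous (fun z : ℝ × ℝ => HB g t z.1 z.2) :=
    fun t ht => cont_of_Sm hH.sB ht
  have hcD : ∀ t : ℝ, 0 < t → Continuous (fun z : ℝ × ℝ => HD g t z.1 z.2) := by
    intro t ht
    unfold HD
    exact ((((hcT t ht).pow 2).sub ((hcA t ht).pow 2)).sub ((hcB t ht).pow 2)).div_const 4
  have hsubK : tsupport χ ⊆ Metric.closedBall z0 (2 * R) :=
    hχs.trans Metric.ball_subset_closedBall
  have hχ0 : ∀ z : ℝ × ℝ, z ∉ tsupport χ → χ z = 0 := fun z hz => image_eq_zero_of_notMem_tsupport hz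
  -- Step A
  have hstar : ∀ t1 : ℝ, 0 < t1 → t1 < 1 → (∫ z : ℝ × ℝ, χ z ^ 2 *
      (fB l s (HT g t1 z.1 z.2) - fA s (HT g t1 z.1 z.2) * HD g t1 z.1 z.2)) ≤ M := by
    intro t1 ht1 ht11
    have h := h1 (HT g) (HA g) (HB g) χ e l s t1 1 hH hχ hχc hl hs ht1 ht11.le
      (hec.mono (fun t ht => lt_of_lt_of_le ht1 ht.1))
      (fun t ht => he0 t (lt_of_lt_of_le ht1 ht.1)) (by
        intro t ht z hz
        have ht0 : 0 < t := lt_of_lt_of_le ht1 ht.1
        obtain ⟨q1, q2, -⟩ := hps t z.1 z.2 ht0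
        refine ⟨q1, ?_, ?_⟩
        · unfold HD at q2
          linarith
        · exact hle t ht0 ht.2 z (hsubK hz))
    have e1 : (∫ z : ℝ × ℝ, χ z ^ 2 * fW l s (HT g 1 z.1 z.2) (HA g 1 z.1 z.2)
        (HB g 1 z.1 z.2)) = 0 := by
      have : (fun z : ℝ × ℝ => χ z ^ 2 * fW l s (HT g 1 z.1 z.2) (HA g 1 z.1 z.2)
          (HB g 1 z.1 z.2)) = fun _ => 0 := by
        funext z
        by_cases hz : z ∈ tsupport χ
        · unfold fW
          rw [fA_zero (hHT1 z hz), fB_zero (hHT1 z hz)]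
          ring
        · rw [hχ0 z hz]
          ring
      rw [this, integral_zero]
    have e2 : (∫ z : ℝ × ℝ, χ z ^ 2 * (fB l s (HT g t1 z.1 z.2) -
        fA s (HT g t1 z.1 z.2) * HD g t1 z.1 z.2)) = -∫ z : ℝ × ℝ, χ z ^ 2 *
        fW l s (HT g t1 z.1 z.2) (HA g t1 z.1 z.2) (HB g t1 z.1 z.2) := by
      rw [← integral_neg]
      refine integral_congr_ae (Eventually.of_forall (fun z => ?_))
      simp only [fW, HD]
      ring
    rw [e2]
    have h' := hM t1 ht1 ht11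
    rw [e1] at h
    linarith
  -- the finite measure
  set K : Set (ℝ × ℝ) := Metric.closedBall z0 (2 * R) with hK
  have hKc : IsCompact K := isCompact_closedBall z0 (2 * R)
  have hfin : IsFiniteMeasure (volume.restrict K) :=
    ⟨by rw [Measure.restrict_apply_univ]; exact hKc.measure_lt_top⟩
  have hKm : MeasurableSet K := hKc.isClosed.measurableSet
  have hred : ∀ F : ℝ × ℝ → ℝ, (∫ z : ℝ × ℝ, χ z ^ 2 * F z) = ∫ z in K, χ z ^ 2 * F z := by
    intro F
    symm
    apply setIntegral_eq_integral_of_forall_compl_eq_zero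
    intro z hz
    rw [hχ0 z (fun h => hz (hsubK h))]
    ring
  obtain ⟨Cχ, hCχ⟩ := hχc.exists_bound_of_continuous hcχ
  have hCχ2 : ∀ z, |χ z ^ 2| ≤ Cχ ^ 2 := by
    intro z
    rw [abs_pow]
    exact pow_le_pow_left₀ (abs_nonneg _) (hCχ z) 2
  have hgood : ∀ᵐ z ∂(volume.restrict K), Good l P z := by
    have hsub : K ⊆ Metric.ball z0 (3 * R) := Metric.closedBall_subset_ball (by linarith)
    exact ae_restrict_of_ae_restrict_of_subset hsub hL.good
  have hgoodK : ∀ᵐ z ∂(volume.restrict K), z ∈ Metric.ball z0 (3 * R) ∧ Good l P z := by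
    have hsub : K ⊆ Metric.ball z0 (3 * R) := Metric.closedBall_subset_ball (by linarith)
    filter_upwards [hgood, ae_restrict_mem hKm] with z hz hzK
    exact ⟨hsub hzK, hz⟩
  obtain ⟨mT, mD⟩ := meas_h P
  have hT0 : ∀ z, Good l P z → 0 ≤ T0 P z := fun z hz => add_nonneg hz.2.2.1 hz.2.2.2.1
  have hD0 : ∀ z, Good l P z → |D0 P z| ≤ l⁻¹ := by
    intro z hz
    rw [abs_of_nonneg (hl.le.trans hz.2.2.2.2.1)]
    exact hz.2.2.2.2.2
  have hev : ∀ᶠ t : ℝ in 𝓝[>] (0 : ℝ), 0 < t := self_mem_nhdsWithin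
  -- (2)
  have lim2 : Tendsto (fun t : ℝ => ∫ z in K, χ z ^ 2 * rr l s (HT g t z.1 z.2)) (𝓝[>] 0)
      (𝓝 (∫ z in K, χ z ^ 2 * rr l s (T0 P z))) := by
    refine tendsto_integral_filter_of_dominated_convergence (fun _ => Cχ ^ 2 * (l / s)) ?_ ?_
      (integrable_const _) ?_
    · filter_upwards [hev] with t ht
      exact ((hcχ.pow 2).mul ((rr_cont hs).comp (hcT t ht))).aestronglyMeasurable
    · filter_upwards [hev] with t ht
      refine Eventually.of_forall (fun z => ?_)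
      rw [norm_mul, Real.norm_eq_abs, Real.norm_eq_abs]
      exact mul_le_mul (hCχ2 z) (rr_bound hl hs (hps t z.1 z.2 ht).1) (abs_nonneg _)
        (sq_nonneg _)
    · filter_upwards [hgoodK] with z hz
      have h := (h4 l b C R z0 g P hL z hz.1 hz.2).1
      exact (((rr_cont hs).tendsto _).comp h).const_mul _
  -- (3)
  have lim3a : Tendsto (fun t : ℝ => ∫ z in K, χ z ^ 2 * fA s (HT g t z.1 z.2) * D0 P z)
      (𝓝[>] 0) (𝓝 (∫ z in K, χ z ^ 2 * fA s (T0 P z) * D0 P z)) := by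
    refine tendsto_integral_filter_of_dominated_convergence
      (fun _ => Cχ ^ 2 * (4 / (3 * s)) * l⁻¹) ?_ ?_ (integrable_const _) ?_
    · filter_upwards [hev] with t ht
      exact (((hcχ.pow 2).mul ((fA_cont hs).comp (hcT t ht))).measurable.mul
        mD).aestronglyMeasurable
    · filter_upwards [hev] with t ht
      filter_upwards [hgood] with z hz
      rw [norm_mul, norm_mul, Real.norm_eq_abs, Real.norm_eq_abs, Real.norm_eq_abs]
      exact mul_le_mul (mul_le_mul (hCχ2 z) (fA_bound hs _) (abs_nonneg _) (sq_nonneg _))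
        (hD0 z hz) (abs_nonneg _) (by positivity)
    · filter_upwards [hgoodK] with z hz
      have h := (h4 l b C R z0 g P hL z hz.1 hz.2).1
      exact ((((fA_cont hs).tendsto _).comp h).const_mul _).mul_const _
  have lim3b : Tendsto (fun t : ℝ => ∫ z in K, χ z ^ 2 * fA s (HT g t z.1 z.2) *
      (HD g t z.1 z.2 - D0 P z)) (𝓝[>] 0) (𝓝 0) := by
    have hbd : ∀ (t : ℝ) (z : ℝ × ℝ), ‖χ z ^ 2 * fA s (HT g t z.1 z.2) *
        (HD g t z.1 z.2 - D0 P z)‖ ≤ Cχ ^ 2 * (4 / (3 * s)) * |HD g t z.1 z.2 - D0 P z| := by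
      intro t z
      rw [norm_mul, norm_mul, Real.norm_eq_abs, Real.norm_eq_abs, Real.norm_eq_abs]
      exact mul_le_mul (mul_le_mul (hCχ2 z) (fA_bound hs _) (abs_nonneg _) (sq_nonneg _))
        le_rfl (abs_nonneg _) (by positivity)
    have hc0 : 0 ≤ Cχ ^ 2 * (4 / (3 * s)) := by positivity
    have hz : Tendsto (fun t : ℝ => ∫⁻ z in K, ‖χ z ^ 2 * fA s (HT g t z.1 z.2) *
        (HD g t z.1 z.2 - D0 P z) - 0‖ₑ) (𝓝[>] 0) (𝓝 0) := by
      have hup : Tendsto (fun t : ℝ => ENNReal.ofReal (Cχ ^ 2 * (4 / (3 * s))) *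
          ∫⁻ z in K, ENNReal.ofReal |HD g t z.1 z.2 - D0 P z|) (𝓝[>] 0) (𝓝 0) := by
        have h := ENNReal.Tendsto.const_mul (a := ENNReal.ofReal (Cχ ^ 2 * (4 / (3 * s))))
          (h5 l b C R z0 g P hL) (Or.inr ENNReal.ofReal_ne_top)
        rwa [mul_zero] at h
      refine tendsto_of_tendsto_of_tendsto_of_le_of_le tendsto_const_nhds hup
        (fun t => bot_le) (fun t => ?_)
      show (∫⁻ z in K, ‖χ z ^ 2 * fA s (HT g t z.1 z.2) * (HD g t z.1 z.2 - D0 P z) - 0‖ₑ) ≤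
        ENNReal.ofReal (Cχ ^ 2 * (4 / (3 * s))) *
          ∫⁻ z in K, ENNReal.ofReal |HD g t z.1 z.2 - D0 P z|
      rw [← lintegral_const_mul' _ _ ENNReal.ofReal_ne_top]
      refine lintegral_mono (fun z => ?_)
      rw [sub_zero, ← ENNReal.ofReal_mul hc0, ← ofReal_norm]
      exact ENNReal.ofReal_le_ofReal (hbd t z)
    have hfi : ∀ᶠ t : ℝ in 𝓝[>] (0 : ℝ), Integrable (fun z : ℝ × ℝ => χ z ^ 2 *
        fA s (HT g t z.1 z.2) * (HD g t z.1 z.2 - D0 P z)) (volume.restrict K) := by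
      filter_upwards [hev] with t ht
      obtain ⟨Cd, hCd⟩ := hKc.exists_bound_of_continuousOn (hcD t ht).continuousOn
      refine Integrable.mono' (integrable_const (Cχ ^ 2 * (4 / (3 * s)) * (Cd + l⁻¹))) ?_ ?_
      · exact (((hcχ.pow 2).mul ((fA_cont hs).comp (hcT t ht))).measurable.mul
          ((hcD t ht).measurable.sub mD)).aestronglyMeasurable
      · filter_upwards [hgood, ae_restrict_mem hKm] with z hz hzK
        refine (hbd t z).trans (mul_le_mul_of_nonneg_left ?_ hc0)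
        have e1 : |HD g t z.1 z.2 - D0 P z| ≤ |HD g t z.1 z.2| + |D0 P z| := abs_sub _ _
        have e2 : |HD g t z.1 z.2| ≤ Cd := hCd z hzK
        linarith [hD0 z hz]
    have h := tendsto_integral_of_L1 (μ := volume.restrict K) (fun _ : ℝ × ℝ => (0 : ℝ))
      aestronglyMeasurable_const hfi hz
    rwa [integral_zero] at h
  have hint3 : ∀ t : ℝ, 0 < t → (∫ z in K, χ z ^ 2 * (fA s (HT g t z.1 z.2) *
      HD g t z.1 z.2)) = (∫ z in K, χ z ^ 2 * fA s (HT g t z.1 z.2) *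
      (HD g t z.1 z.2 - D0 P z)) + ∫ z in K, χ z ^ 2 * fA s (HT g t z.1 z.2) * D0 P z := by
    intro t ht
    have i2 : Integrable (fun z : ℝ × ℝ => χ z ^ 2 * fA s (HT g t z.1 z.2) * D0 P z)
        (volume.restrict K) := by
      refine Integrable.mono' (integrable_const (Cχ ^ 2 * (4 / (3 * s)) * l⁻¹)) ?_ ?_
      · exact (((hcχ.pow 2).mul ((fA_cont hs).comp (hcT t ht))).measurable.mul
          mD).aestronglyMeasurable
      · filter_upwards [hgood] with z hz
        rw [norm_mul, norm_mul, Real.norm_eq_abs, Real.norm_eq_abs, Real.norm_eq_abs]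
        exact mul_le_mul (mul_le_mul (hCχ2 z) (fA_bound hs _) (abs_nonneg _) (sq_nonneg _))
          (hD0 z hz) (abs_nonneg _) (by positivity)
    have i3 : Integrable (fun z : ℝ × ℝ => χ z ^ 2 * (fA s (HT g t z.1 z.2) *
        HD g t z.1 z.2)) (volume.restrict K) :=
      ((hcχ.pow 2).mul (((fA_cont hs).comp (hcT t ht)).mul (hcD t ht))).continuousOn.integrableOn_compact
        hKc
    have i1 : Integrable (fun z : ℝ × ℝ => χ z ^ 2 * fA s (HT g t z.1 z.2) *
        (HD g t z.1 z.2 - D0 P z)) (volume.restrict K) := by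
      refine (i3.sub i2).congr (Eventually.of_forall (fun z => ?_))
      simp only [Pi.sub_apply]
      ring
    rw [← integral_add i1 i2]
    refine integral_congr_ae (Eventually.of_forall (fun z => ?_))
    simp only
    ring
  have lim3 : Tendsto (fun t : ℝ => ∫ z in K, χ z ^ 2 * (fA s (HT g t z.1 z.2) *
      HD g t z.1 z.2)) (𝓝[>] 0) (𝓝 (∫ z in K, χ z ^ 2 * fA s (T0 P z) * D0 P z)) := by
    have h := lim3b.add lim3a
    rw [zero_add] at h
    refine h.congr' ?_
    filter_upwards [hev] with t ht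
    exact (hint3 t ht).symm
  -- (1)
  have lim1 : Tendsto (fun t : ℝ => ∫ z in K, χ z ^ 2 * HT g t z.1 z.2) (𝓝[>] 0)
      (𝓝 (∫ z : ℝ × ℝ, g z * lap2 χ z)) := by
    have h := (h6 g C hL.lip χ hχ hχc).2
    refine h.congr' ?_
    filter_upwards with t
    exact hred (fun z => HT g t z.1 z.2)
  -- splitting at time t
  have hsplit : ∀ t : ℝ, 0 < t → (∫ z : ℝ × ℝ, χ z ^ 2 *
      (fB l s (HT g t z.1 z.2) - fA s (HT g t z.1 z.2) * HD g t z.1 z.2)) =
      l / (3 * s ^ 2) * (∫ z in K, χ z ^ 2 * HT g t z.1 z.2) -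
      (∫ z in K, χ z ^ 2 * rr l s (HT g t z.1 z.2)) -
      ∫ z in K, χ z ^ 2 * (fA s (HT g t z.1 z.2) * HD g t z.1 z.2) := by
    intro t ht
    have i1 : Integrable (fun z : ℝ × ℝ => l / (3 * s ^ 2) * (χ z ^ 2 * HT g t z.1 z.2))
        (volume.restrict K) :=
      (continuous_const.mul ((hcχ.pow 2).mul (hcT t ht))).continuousOn.integrableOn_compact hKc
    have i2 : Integrable (fun z : ℝ × ℝ => χ z ^ 2 * rr l s (HT g t z.1 z.2))
        (volume.restrict K) :=
      ((hcχ.pow 2).mul ((rr_cont hs).comp (hcT t ht))).continuousOn.integrableOn_compact hKc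
    have i3 : Integrable (fun z : ℝ × ℝ => χ z ^ 2 * (fA s (HT g t z.1 z.2) *
        HD g t z.1 z.2)) (volume.restrict K) :=
      ((hcχ.pow 2).mul (((fA_cont hs).comp (hcT t ht)).mul (hcD t ht))).continuousOn.integrableOn_compact
        hKc
    have i12 : Integrable (fun z : ℝ × ℝ => l / (3 * s ^ 2) * (χ z ^ 2 * HT g t z.1 z.2) -
        χ z ^ 2 * rr l s (HT g t z.1 z.2)) (volume.restrict K) := i1.sub i2
    rw [hred (fun z => fB l s (HT g t z.1 z.2) - fA s (HT g t z.1 z.2) * HD g t z.1 z.2),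
      ← integral_const_mul, ← integral_sub i1 i2, ← integral_sub i12 i3]
    refine integral_congr_ae (Eventually.of_forall (fun z => ?_))
    simp only [rr]
    ring
  have hlim : Tendsto (fun t : ℝ => ∫ z : ℝ × ℝ, χ z ^ 2 *
      (fB l s (HT g t z.1 z.2) - fA s (HT g t z.1 z.2) * HD g t z.1 z.2)) (𝓝[>] 0)
      (𝓝 (l / (3 * s ^ 2) * (∫ z : ℝ × ℝ, g z * lap2 χ z) -
      (∫ z in K, χ z ^ 2 * rr l s (T0 P z)) - ∫ z in K, χ z ^ 2 * fA s (T0 P z) * D0 P z)) := by
    refine (((lim1.const_mul (l / (3 * s ^ 2))).sub lim2).sub lim3).congr' ?_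
    filter_upwards [hev] with t ht
    exact (hsplit t ht).symm
  have hfinal : l / (3 * s ^ 2) * (∫ z : ℝ × ℝ, g z * lap2 χ z) -
      (∫ z in K, χ z ^ 2 * rr l s (T0 P z)) - (∫ z in K, χ z ^ 2 * fA s (T0 P z) * D0 P z) ≤
      M := by
    refine le_of_tendsto hlim ?_
    have h01 : ∀ᶠ t : ℝ in 𝓝[>] (0 : ℝ), t < 1 :=
      mem_nhdsWithin_of_mem_nhds (Iio_mem_nhds one_pos)
    filter_upwards [hev, h01] with t ht ht1
    exact hstar t ht ht1
  -- the limit integrals
  have hTi : IntegrableOn (T0 P) K := (h7 l b C R z0 g P hL).1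
  have j1 : Integrable (fun z : ℝ × ℝ => l / (3 * s ^ 2) * (χ z ^ 2 * T0 P z))
      (volume.restrict K) := by
    refine Integrable.const_mul ?_ _
    refine Integrable.mono' (hTi.norm.const_mul (Cχ ^ 2)) ?_ ?_
    · exact ((hcχ.pow 2).measurable.mul mT).aestronglyMeasurable
    · refine Eventually.of_forall (fun z => ?_)
      rw [norm_mul, Real.norm_eq_abs, Real.norm_eq_abs]
      exact mul_le_mul_of_nonneg_right (hCχ2 z) (abs_nonneg _)
  have j2 : Integrable (fun z : ℝ × ℝ => χ z ^ 2 * rr l s (T0 P z)) (volume.restrict K) := by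
    refine Integrable.mono' (integrable_const (Cχ ^ 2 * (l / s))) ?_ ?_
    · exact ((hcχ.pow 2).measurable.mul ((rr_cont hs).measurable.comp mT)).aestronglyMeasurable
    · filter_upwards [hgood] with z hz
      rw [norm_mul, Real.norm_eq_abs, Real.norm_eq_abs]
      exact mul_le_mul (hCχ2 z) (rr_bound hl hs (hT0 z hz)) (abs_nonneg _) (sq_nonneg _)
  have j3 : Integrable (fun z : ℝ × ℝ => χ z ^ 2 * fA s (T0 P z) * D0 P z)
      (volume.restrict K) := by
    refine Integrable.mono' (integrable_const (Cχ ^ 2 * (4 / (3 * s)) * l⁻¹)) ?_ ?_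
    · exact (((hcχ.pow 2).measurable.mul ((fA_cont hs).measurable.comp mT)).mul
        mD).aestronglyMeasurable
    · filter_upwards [hgood] with z hz
      rw [norm_mul, norm_mul, Real.norm_eq_abs, Real.norm_eq_abs, Real.norm_eq_abs]
      exact mul_le_mul (mul_le_mul (hCχ2 z) (fA_bound hs _) (abs_nonneg _) (sq_nonneg _))
        (hD0 z hz) (abs_nonneg _) (by positivity)
  have efin : (∫ z : ℝ × ℝ, χ z ^ 2 * (fB l s (T0 P z) - fA s (T0 P z) * D0 P z)) =
      l / (3 * s ^ 2) * (∫ z in K, χ z ^ 2 * T0 P z) -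
      (∫ z in K, χ z ^ 2 * rr l s (T0 P z)) - ∫ z in K, χ z ^ 2 * fA s (T0 P z) * D0 P z := by
    have j12 : Integrable (fun z : ℝ × ℝ => l / (3 * s ^ 2) * (χ z ^ 2 * T0 P z) -
        χ z ^ 2 * rr l s (T0 P z)) (volume.restrict K) := j1.sub j2
    rw [hred (fun z => fB l s (T0 P z) - fA s (T0 P z) * D0 P z),
      ← integral_const_mul, ← integral_sub j1 j2, ← integral_sub j12 j3]
    refine integral_congr_ae (Eventually.of_forall (fun z => ?_))
    simp only [rr]
    ring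
  rw [efin, hred (T0 P)]
  linarith [hfinal]

end Pool.Agent.W775.WH.E0
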