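import Pool.Agent.W775.WH.Stm

/-!
Project WH: bound of the error (S_ERR).
-/

set_option autoImplicit false
set_option linter.all false

open MeasureTheory Set Filter Topology

namespace Pool.Agent.W775.WH.ERR

/-! ### pointwise bounds -/

theorem pp_nonneg (x : ℝ) : 0 ≤ pp x := le_max_right _ _

theorem pp_of_nonpos {x : ℝ} (h : x ≤ 0) : pp x = 0 := max_eq_right h

theorem pp_of_nonneg {x : ℝ} (h : 0 ≤ x) : pp x = x := max_eq_left h

theorem fA_bd {s T : ℝ} (hs : 1 ≤ s) (hT : s < T) :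
    0 ≤ fA s T ∧ fA s T * T ^ 2 ≤ (4 / 3) * (pp (T - s) ^ 3 / s ^ 2) := by
  have hs0 : 0 < s := by linarith
  have hT0 : 0 < T := by linarith
  obtain ⟨p, hp⟩ : ∃ p, p = pp (T - s) ^ 3 := ⟨_, rfl⟩
  have hp0 : 0 ≤ p := by rw [hp]; exact pow_nonneg (pp_nonneg _) 3
  unfold fA
  rw [← hp]
  constructor
  · positivity
  · have h1 : p * (8 * T ^ 2 + 9 * s * T + 3 * s ^ 2) / (15 * s * T ^ 5) * T ^ 2 =
        p * ((8 * T ^ 2 + 9 * s * T + 3 * s ^ 2) / (15 * s * T ^ 3)) := by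
      field_simp
    have h2 : (4 / 3) * (p / s ^ 2) = p * ((4 / 3) / s ^ 2) := by ring
    rw [h1, h2]
    apply mul_le_mul_of_nonneg_left _ hp0
    rw [div_le_div_iff₀ (by positivity) (by positivity)]
    have e1 : T ^ 2 * s ≤ T ^ 3 := by nlinarith [pow_pos hT0 2]
    have e2 : s ^ 2 * T ≤ T ^ 3 := by nlinarith [pow_pos hT0 2, mul_pos hs0 hT0]
    have e3 : s ^ 3 ≤ T ^ 3 := pow_le_pow_left₀ hs0.le hT.le 3
    have e4 : (8 * T ^ 2 + 9 * s * T + 3 * s ^ 2) * s ≤ 20 * T ^ 3 := by nlinarith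
    nlinarith [mul_le_mul_of_nonneg_left e4 hs0.le]

theorem fB_bd {l s T : ℝ} (hl0 : 0 < l) (hl1 : l < 1) (hs : 1 ≤ s) (hT : s < T) :
    0 ≤ fB l s T ∧ fB l s T ≤ (4 / 3) * (pp (T - s) ^ 3 / s ^ 2) := by
  have hs0 : 0 < s := by linarith
  have hT0 : 0 < T := by linarith
  obtain ⟨p, hp⟩ : ∃ p, p = pp (T - s) ^ 3 := ⟨_, rfl⟩
  have hp0 : 0 ≤ p := by rw [hp]; exact pow_nonneg (pp_nonneg _) 3
  unfold fB
  rw [← hp]
  constructor
  · positivity
  · have h0 : 0 ≤ p * (5 * T ^ 3 + 7 * s * T ^ 2 + 6 * s ^ 2 * T + 2 * s ^ 3) /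
        (15 * s ^ 2 * T ^ 5) := by positivity
    have h1 : l * (p * (5 * T ^ 3 + 7 * s * T ^ 2 + 6 * s ^ 2 * T + 2 * s ^ 3) /
        (15 * s ^ 2 * T ^ 5)) ≤ 1 * (p * (5 * T ^ 3 + 7 * s * T ^ 2 + 6 * s ^ 2 * T + 2 * s ^ 3) /
        (15 * s ^ 2 * T ^ 5)) := mul_le_mul_of_nonneg_right hl1.le h0
    refine h1.trans ?_
    rw [one_mul]
    have h2 : (4 / 3) * (p / s ^ 2) = p * ((4 / 3) / s ^ 2) := by ring
    rw [h2, mul_div_assoc]
    apply mul_le_mul_of_nonneg_left _ hp0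
    rw [div_le_div_iff₀ (by positivity) (by positivity)]
    have e1 : s * T ^ 2 ≤ T ^ 3 := by nlinarith [pow_pos hT0 2]
    have e2 : s ^ 2 * T ≤ T ^ 3 := by nlinarith [pow_pos hT0 2, mul_pos hs0 hT0]
    have e3 : s ^ 3 ≤ T ^ 3 := pow_le_pow_left₀ hs0.le hT.le 3
    have e4 : 5 * T ^ 3 + 7 * s * T ^ 2 + 6 * s ^ 2 * T + 2 * s ^ 3 ≤ 20 * T ^ 3 := by nlinarith
    have e5 : T ^ 3 ≤ T ^ 5 := pow_le_pow_right₀ (by linarith) (by norm_num)
    have e6 : 5 * T ^ 3 + 7 * s * T ^ 2 + 6 * s ^ 2 * T + 2 * s ^ 3 ≤ 20 * T ^ 5 := by linarith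
    nlinarith [mul_le_mul_of_nonneg_left e6 (by positivity : 0 ≤ s ^ 2)]

theorem fW_bd {l s T a b : ℝ} (hl0 : 0 < l) (hl1 : l < 1) (hs : 1 ≤ s) (hT : s < T)
    (hab : a ^ 2 + b ^ 2 ≤ T ^ 2) : |fW l s T a b| ≤ 2 * (pp (T - s) ^ 3 / s ^ 2) := by
  obtain ⟨a0, a1⟩ := fA_bd hs hT
  obtain ⟨b0, b1⟩ := fB_bd hl0 hl1 hs hT
  unfold fW
  have h1 : fA s T * ((T ^ 2 - a ^ 2 - b ^ 2) / 4) ≤ fA s T * (T ^ 2 / 4) := by
    apply mul_le_mul_of_nonneg_left _ a0
    nlinarith [sq_nonneg a, sq_nonneg b]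
  have h2 : 0 ≤ fA s T * ((T ^ 2 - a ^ 2 - b ^ 2) / 4) := by
    apply mul_nonneg a0
    linarith
  rw [abs_le]
  have h3 : 0 ≤ pp (T - s) ^ 3 / s ^ 2 := by
    apply div_nonneg (pow_nonneg (pp_nonneg _) 3) (by positivity)
  constructor <;> nlinarith

theorem fW_zero {l s T a b : ℝ} (hT : T ≤ s) : fW l s T a b = 0 := by
  unfold fW fA fB
  rw [pp_of_nonpos (by linarith)]
  simp

theorem pp3_bd {s T q κ : ℝ} (hs : 1 ≤ s) (hT : s < T) (hq : 1 ≤ q) (hκ : T ≤ κ) :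
    pp (T - s) ^ 3 / s ^ 2 ≤ s ^ (-1 - q) * κ ^ 2 * T ^ q := by
  have hs0 : 0 < s := by linarith
  have hT0 : 0 < T := by linarith
  have h1 : pp (T - s) ≤ T := by
    rw [pp_of_nonneg (by linarith)]; linarith
  have h2 : pp (T - s) ^ 3 ≤ T ^ 3 := pow_le_pow_left₀ (pp_nonneg _) h1 3
  have h3 : T ≤ T ^ q * s ^ (1 - q) := by
    have e1 : s ^ (q - 1) ≤ T ^ (q - 1) := Real.rpow_le_rpow hs0.le hT.le (by linarith)
    have e2 : T ^ q = T * T ^ (q - 1) := by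
      rw [← Real.rpow_one_add' hT0.le (by linarith)]; congr 1; ring
    have e3 : s ^ (q - 1) * s ^ (1 - q) = 1 := by
      rw [← Real.rpow_add hs0]; simp
    have e4 : 0 < s ^ (1 - q) := Real.rpow_pos_of_pos hs0 _
    have e5 : s ^ (q - 1) * s ^ (1 - q) ≤ T ^ (q - 1) * s ^ (1 - q) :=
      mul_le_mul_of_nonneg_right e1 e4.le
    rw [e3] at e5
    calc T = T * 1 := by ring
      _ ≤ T * (T ^ (q - 1) * s ^ (1 - q)) := mul_le_mul_of_nonneg_left e5 hT0.le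
      _ = T ^ q * s ^ (1 - q) := by rw [e2]; ring
  have h4 : T ^ 2 ≤ κ ^ 2 := pow_le_pow_left₀ hT0.le hκ 2
  have h5 : T ^ 3 ≤ (T ^ q * s ^ (1 - q)) * κ ^ 2 := by
    calc T ^ 3 = T * T ^ 2 := by ring
      _ ≤ (T ^ q * s ^ (1 - q)) * κ ^ 2 := mul_le_mul h3 h4 (by positivity) (by positivity)
  have h6 : s ^ (1 - q) / s ^ 2 = s ^ (-1 - q) := by
    rw [div_eq_mul_inv, ← Real.rpow_natCast s 2, ← Real.rpow_neg hs0.le, ← Real.rpow_add hs0]
    congr 1
    push_cast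
    ring
  calc pp (T - s) ^ 3 / s ^ 2 ≤ ((T ^ q * s ^ (1 - q)) * κ ^ 2) / s ^ 2 := by
        apply div_le_div_of_nonneg_right (h2.trans h5) (by positivity)
    _ = (s ^ (1 - q) / s ^ 2) * κ ^ 2 * T ^ q := by ring
    _ = _ := by rw [h6]

/-- the error density as a function of numbers -/
noncomputable def En (l s T a b L cx cy χ e TX TY : ℝ) : ℝ :=
  |fW l s T a b| * |L| + 4 * (cx ^ 2 + cy ^ 2) * (pp (T - s) ^ 3 / s ^ 2) +
  χ ^ 2 * (e * (if s < T then 4 / s ^ 3 else 0) * (TX ^ 2 + TY ^ 2))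

theorem En_nonneg {l s T a b L cx cy χ e TX TY : ℝ} (hs : 1 ≤ s) (he : 0 ≤ e) :
    0 ≤ En l s T a b L cx cy χ e TX TY := by
  unfold En
  have hs0 : 0 < s := by linarith
  have h1 := pp_nonneg (T - s)
  have h2 : 0 ≤ (if s < T then 4 / s ^ 3 else 0 : ℝ) := by
    split_ifs
    · positivity
    · exact le_rfl
  positivity

theorem En_zero {l s T a b L cx cy χ e TX TY : ℝ} (hT : T ≤ s) :
    En l s T a b L cx cy χ e TX TY = 0 := by
  unfold En
  rw [fW_zero hT, pp_of_nonpos (by linarith), if_neg (by linarith)]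
  simp

theorem En_bd {l s T a b L cx cy χ e TX TY q κ C1 C2 C3 C4 : ℝ} (hl0 : 0 < l) (hl1 : l < 1)
    (hs : 1 ≤ s) (hT : s < T) (hab : a ^ 2 + b ^ 2 ≤ T ^ 2) (hq : 1 ≤ q) (hκ : T ≤ κ)
    (he : 0 ≤ e) (h1 : |L| ≤ C1) (h2 : cx ^ 2 + cy ^ 2 ≤ C2) (h3 : χ ^ 2 ≤ C3)
    (h4 : TX ^ 2 + TY ^ 2 ≤ C4) :
    En l s T a b L cx cy χ e TX TY ≤
      (2 * C1 + 4 * C2) * (s ^ (-1 - q) * κ ^ 2 * T ^ q) + C3 * (e * (4 / s ^ 3) * C4) := by
  unfold En
  have hs0 : 0 < s := by linarith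
  have hT0 : 0 < T := by linarith
  have hC1 : 0 ≤ C1 := (abs_nonneg _).trans h1
  have hC2 : 0 ≤ C2 := le_trans (by positivity) h2
  have hC3 : 0 ≤ C3 := le_trans (by positivity) h3
  have hC4 : 0 ≤ C4 := le_trans (by positivity) h4
  obtain ⟨p, hp⟩ : ∃ p, p = pp (T - s) ^ 3 / s ^ 2 := ⟨_, rfl⟩
  have hp0 : 0 ≤ p := by
    rw [hp]; exact div_nonneg (pow_nonneg (pp_nonneg _) 3) (by positivity)
  have e1 := fW_bd hl0 hl1 hs hT hab
  have e2 := pp3_bd hs hT hq hκ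
  rw [← hp] at e1 e2 ⊢
  rw [if_pos hT]
  have e3 : |fW l s T a b| * |L| ≤ (2 * p) * C1 :=
    mul_le_mul e1 h1 (abs_nonneg _) (by positivity)
  have e4 : 4 * (cx ^ 2 + cy ^ 2) * p ≤ 4 * C2 * p :=
    mul_le_mul_of_nonneg_right (by linarith) hp0
  have e5 : χ ^ 2 * (e * (4 / s ^ 3) * (TX ^ 2 + TY ^ 2)) ≤ C3 * (e * (4 / s ^ 3) * C4) := by
    apply mul_le_mul h3 _ (by positivity) hC3
    exact mul_le_mul_of_nonneg_left h4 (by positivity)
  have e6 : (2 * C1 + 4 * C2) * p ≤ (2 * C1 + 4 * C2) * (s ^ (-1 - q) * κ ^ 2 * T ^ q) :=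
    mul_le_mul_of_nonneg_left e2 (by positivity)
  linarith

/-- exponential decay beats powers -/
theorem exp_bd (c m : ℝ) (hc : 0 < c) (hm : 0 ≤ m) :
    ∃ D : ℝ, 0 < D ∧ ∀ t : ℝ, 0 < t → t ≤ 1 → Real.exp (-c / t) * t ^ (-m) ≤ D := by
  obtain ⟨n, hn⟩ := exists_nat_ge m
  refine ⟨(n.factorial : ℝ) / c ^ n, by positivity, ?_⟩
  intro t ht ht1
  have h1 : (c / t) ^ n / (n.factorial : ℝ) ≤ Real.exp (c / t) :=
    Real.pow_div_factorial_le_exp (c / t) (by positivity) n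
  have h2 : t ^ (-m) ≤ (t ^ n)⁻¹ := by
    rw [Real.rpow_neg ht.le]
    apply inv_anti₀ (by positivity)
    rw [← Real.rpow_natCast]
    exact Real.rpow_le_rpow_of_exponent_ge ht ht1 hn
  have h3 : Real.exp (-c / t) = (Real.exp (c / t))⁻¹ := by
    rw [← Real.exp_neg]; congr 1; ring
  rw [h3]
  have h4 : (Real.exp (c / t))⁻¹ ≤ ((c / t) ^ n / (n.factorial : ℝ))⁻¹ :=
    inv_anti₀ (by positivity) h1
  calc (Real.exp (c / t))⁻¹ * t ^ (-m) ≤ ((c / t) ^ n / (n.factorial : ℝ))⁻¹ * (t ^ n)⁻¹ :=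
        mul_le_mul h4 h2 (Real.rpow_nonneg ht.le _) (by positivity)
    _ = (n.factorial : ℝ) / c ^ n := by
        rw [div_pow]; field_simp

/-! ### the cut-off function -/

theorem px_eq {f : ℝ × ℝ → ℝ} (hf : Differentiable ℝ f) :
    px f = fun z => fderiv ℝ f z (1, 0) := by
  funext z
  unfold px
  have h1 : HasFDerivAt f (fderiv ℝ f z) (z.1, z.2) := (hf z).hasFDerivAt
  have h2 : HasDerivAt (fun x : ℝ => (x, z.2)) ((1 : ℝ), (0 : ℝ)) z.1 :=
    (hasDerivAt_id _).prodMk (hasDerivAt_const _ _)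
  exact (HasFDerivAt.comp_hasDerivAt z.1 h1 h2).deriv

theorem py_eq {f : ℝ × ℝ → ℝ} (hf : Differentiable ℝ f) :
    py f = fun z => fderiv ℝ f z (0, 1) := by
  funext z
  unfold py
  have h1 : HasFDerivAt f (fderiv ℝ f z) (z.1, z.2) := (hf z).hasFDerivAt
  have h2 : HasDerivAt (fun y : ℝ => (z.1, y)) ((0 : ℝ), (1 : ℝ)) z.2 :=
    (hasDerivAt_const _ _).prodMk (hasDerivAt_id _)
  exact (HasFDerivAt.comp_hasDerivAt z.2 h1 h2).deriv

theorem px_cd {n : ℕ} {f : ℝ × ℝ → ℝ} (hf : ContDiff ℝ (n + 1) f) : ContDiff ℝ n (px f) := by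
  rw [px_eq (hf.differentiable (by simp))]
  exact (hf.fderiv_right (m := n) le_rfl).clm_apply contDiff_const

theorem py_cd {n : ℕ} {f : ℝ × ℝ → ℝ} (hf : ContDiff ℝ (n + 1) f) : ContDiff ℝ n (py f) := by
  rw [py_eq (hf.differentiable (by simp))]
  exact (hf.fderiv_right (m := n) le_rfl).clm_apply contDiff_const

theorem px_ts {f : ℝ × ℝ → ℝ} (hf : Differentiable ℝ f) : tsupport (px f) ⊆ tsupport f := by
  apply closure_minimal _ (isClosed_tsupport f)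
  intro z hz
  by_contra h
  apply hz
  rw [px_eq hf]
  have : fderiv ℝ f z = 0 := by
    by_contra h'
    exact h (support_fderiv_subset ℝ h')
  simp only [this]
  rfl

theorem py_ts {f : ℝ × ℝ → ℝ} (hf : Differentiable ℝ f) : tsupport (py f) ⊆ tsupport f := by
  apply closure_minimal _ (isClosed_tsupport f)
  intro z hz
  by_contra h
  apply hz
  rw [py_eq hf]
  have : fderiv ℝ f z = 0 := by
    by_contra h'
    exact h (support_fderiv_subset ℝ h')
  simp only [this]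
  rfl

theorem bdd_of {f χ : ℝ × ℝ → ℝ} (hf : Continuous f) (hc : HasCompactSupport χ)
    (h : tsupport f ⊆ tsupport χ) : ∃ C : ℝ, ∀ z, |f z| ≤ C := by
  have h1 : HasCompactSupport f := HasCompactSupport.of_support_subset_isCompact hc
    ((subset_tsupport f).trans h)
  obtain ⟨C, hC⟩ := hf.bounded_above_of_compact_support h1
  exact ⟨C, hC⟩

theorem zero_of {f χ : ℝ × ℝ → ℝ} (h : tsupport f ⊆ tsupport χ) {z : ℝ × ℝ}
    (hz : z ∉ tsupport χ) : f z = 0 := by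
  by_contra h'
  exact hz (h (subset_tsupport f h'))

theorem chi_data (χ : ℝ × ℝ → ℝ) (h : ContDiff ℝ 3 χ) (hc : HasCompactSupport χ) :
    ∃ C1 C2 C3 : ℝ, (∀ z, |lap2 χ z| ≤ C1) ∧ (∀ z, px χ z ^ 2 + py χ z ^ 2 ≤ C2) ∧
      (∀ z, χ z ^ 2 ≤ C3) ∧
      (∀ z, z ∉ tsupport χ → χ z = 0 ∧ px χ z = 0 ∧ py χ z = 0 ∧ lap2 χ z = 0) := by
  have hd : Differentiable ℝ χ := h.differentiable (by simp)
  have hpx : ContDiff ℝ 2 (px χ) := px_cd (n := 2) (by exact_mod_cast h)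
  have hpy : ContDiff ℝ 2 (py χ) := py_cd (n := 2) (by exact_mod_cast h)
  obtain ⟨F, hF⟩ : ∃ F : ℝ × ℝ → ℝ, F = fun w => χ w ^ 2 := ⟨_, rfl⟩
  have hFc : ContDiff ℝ 3 F := by rw [hF]; exact h.pow 2
  have hFd : Differentiable ℝ F := hFc.differentiable (by simp)
  have hFt : tsupport F ⊆ tsupport χ := by
    apply closure_mono
    intro z hz hz'
    apply hz
    rw [hF]
    simp [hz']
  have hx1 : ContDiff ℝ 2 (px F) := px_cd (n := 2) (by exact_mod_cast hFc)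
  have hy1 : ContDiff ℝ 2 (py F) := py_cd (n := 2) (by exact_mod_cast hFc)
  have hx2 : ContDiff ℝ 1 (px (px F)) := px_cd (n := 1) (by exact_mod_cast hx1)
  have hy2 : ContDiff ℝ 1 (py (py F)) := py_cd (n := 1) (by exact_mod_cast hy1)
  have tx1 : tsupport (px F) ⊆ tsupport χ := (px_ts hFd).trans hFt
  have ty1 : tsupport (py F) ⊆ tsupport χ := (py_ts hFd).trans hFt
  have tx2 : tsupport (px (px F)) ⊆ tsupport χ := (px_ts (hx1.differentiable (by simp))).trans tx1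
  have ty2 : tsupport (py (py F)) ⊆ tsupport χ := (py_ts (hy1.differentiable (by simp))).trans ty1
  obtain ⟨a1, ha1⟩ := bdd_of hx2.continuous hc tx2
  obtain ⟨a2, ha2⟩ := bdd_of hy2.continuous hc ty2
  obtain ⟨a3, ha3⟩ := bdd_of hpx.continuous hc (px_ts hd)
  obtain ⟨a4, ha4⟩ := bdd_of hpy.continuous hc (py_ts hd)
  obtain ⟨a5, ha5⟩ := bdd_of h.continuous hc subset_rfl
  have hl : ∀ z, lap2 χ z = px (px F) z + py (py F) z := by
    intro z; rw [hF]; rfl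
  refine ⟨a1 + a2, a3 ^ 2 + a4 ^ 2, a5 ^ 2, ?_, ?_, ?_, ?_⟩
  · intro z
    rw [hl]
    exact (abs_add_le _ _).trans (add_le_add (ha1 z) (ha2 z))
  · intro z
    have e1 : px χ z ^ 2 ≤ a3 ^ 2 := sq_le_sq' (abs_le.1 (ha3 z)).1 (abs_le.1 (ha3 z)).2
    have e2 : py χ z ^ 2 ≤ a4 ^ 2 := sq_le_sq' (abs_le.1 (ha4 z)).1 (abs_le.1 (ha4 z)).2
    exact add_le_add e1 e2
  · intro z
    exact sq_le_sq' (abs_le.1 (ha5 z)).1 (abs_le.1 (ha5 z)).2
  · intro z hz
    refine ⟨zero_of subset_rfl hz, zero_of (px_ts hd) hz, zero_of (py_ts hd) hz, ?_⟩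
    rw [hl, zero_of tx2 hz, zero_of ty2 hz, add_zero]

/-! ### exponents -/

theorem t_lt {b K3 s t : ℝ} (hb1 : b < 1) (hK : 0 < K3) (hs : 0 < s) (ht : 0 < t)
    (h : s < K3 * t ^ (-(1 - b) / 2)) : t < (K3 / s) ^ (2 / (1 - b)) := by
  have hb : 0 < 1 - b := by linarith
  have h1 : t ^ ((1 - b) / 2) < K3 / s := by
    rw [lt_div_iff₀ hs]
    have e1 : t ^ (-(1 - b) / 2) * t ^ ((1 - b) / 2) = 1 := by
      rw [← Real.rpow_add ht]
      have : -(1 - b) / 2 + (1 - b) / 2 = 0 := by ring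
      rw [this, Real.rpow_zero]
    have e2 : 0 < t ^ ((1 - b) / 2) := Real.rpow_pos_of_pos ht _
    have e3 := mul_lt_mul_of_pos_right h e2
    rw [mul_assoc, e1, mul_one] at e3
    linarith
  have h2 : t = (t ^ ((1 - b) / 2)) ^ (2 / (1 - b)) := by
    rw [← Real.rpow_mul ht.le]
    have : (1 - b) / 2 * (2 / (1 - b)) = 1 := by field_simp
    rw [this, Real.rpow_one]
  rw [h2]
  exact Real.rpow_lt_rpow (Real.rpow_nonneg ht.le _) h1 (by positivity)

theorem kap_sq {b K3 t : ℝ} (ht : 0 < t) :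
    (K3 * t ^ (-(1 - b) / 2)) ^ 2 = K3 ^ 2 * t ^ (b - 1) := by
  rw [mul_pow, ← Real.rpow_natCast (t ^ (-(1 - b) / 2)) 2, ← Real.rpow_mul ht.le]
  congr 2
  push_cast
  ring

theorem sec_bd {b c K1 K2 K3 N D s t : ℝ} (hb1 : b < 1) (hK1 : 0 ≤ K1) (hK3 : 0 < K3) (hN : 0 ≤ N)
    (hs : 1 ≤ s) (ht : 0 < t) (hst : s ≤ K3 * t ^ (-(1 - b) / 2))
    (hD : Real.exp (-c / t) * t ^ (-(4 + (1 - b) * N / 2)) ≤ D) :
    (K1 * Real.exp (-c / t)) * (4 / s ^ 3) * (2 * (K2 * t ^ (-2 : ℝ)) ^ 2) ≤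
      8 * K1 * K2 ^ 2 * K3 ^ N * D * s ^ (1 - N) := by
  have hs0 : 0 < s := by linarith
  have e1 : s ^ N ≤ K3 ^ N * t ^ (-((1 - b) * N / 2)) := by
    calc s ^ N ≤ (K3 * t ^ (-(1 - b) / 2)) ^ N := Real.rpow_le_rpow hs0.le hst hN
      _ = K3 ^ N * t ^ (-((1 - b) * N / 2)) := by
        rw [Real.mul_rpow hK3.le (Real.rpow_nonneg ht.le _), ← Real.rpow_mul ht.le]
        congr 2
        ring
  have e2 : (s ^ 3)⁻¹ ≤ s ^ (1 - N) * s ^ N := by
    rw [← Real.rpow_add hs0]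
    have : 1 - N + N = 1 := by ring
    rw [this, Real.rpow_one]
    have : (s ^ 3)⁻¹ ≤ 1 := inv_le_one_of_one_le₀ (one_le_pow₀ hs)
    linarith
  have e3 : (t ^ (-2 : ℝ)) ^ 2 = t ^ (-4 : ℝ) := by
    rw [← Real.rpow_natCast (t ^ (-2 : ℝ)) 2, ← Real.rpow_mul ht.le]
    norm_num
  have e4 : t ^ (-4 : ℝ) * t ^ (-((1 - b) * N / 2)) = t ^ (-(4 + (1 - b) * N / 2)) := by
    rw [← Real.rpow_add ht]; congr 1; ring
  have hE : 0 < Real.exp (-c / t) := Real.exp_pos _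
  have ht4 : 0 < t ^ (-4 : ℝ) := Real.rpow_pos_of_pos ht _
  have hs1 : 0 < s ^ (1 - N) := Real.rpow_pos_of_pos hs0 _
  have hKN : 0 < K3 ^ N := Real.rpow_pos_of_pos hK3 _
  have e5 : (s ^ 3)⁻¹ ≤ s ^ (1 - N) * (K3 ^ N * t ^ (-((1 - b) * N / 2))) :=
    e2.trans (mul_le_mul_of_nonneg_left e1 hs1.le)
  calc (K1 * Real.exp (-c / t)) * (4 / s ^ 3) * (2 * (K2 * t ^ (-2 : ℝ)) ^ 2)
      = (8 * K1 * K2 ^ 2 * Real.exp (-c / t) * t ^ (-4 : ℝ)) * (s ^ 3)⁻¹ := by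
        rw [mul_pow, e3]; ring
    _ ≤ (8 * K1 * K2 ^ 2 * Real.exp (-c / t) * t ^ (-4 : ℝ)) *
        (s ^ (1 - N) * (K3 ^ N * t ^ (-((1 - b) * N / 2)))) :=
        mul_le_mul_of_nonneg_left e5 (by positivity)
    _ = (8 * K1 * K2 ^ 2 * K3 ^ N * s ^ (1 - N)) *
        (Real.exp (-c / t) * (t ^ (-4 : ℝ) * t ^ (-((1 - b) * N / 2)))) := by ring
    _ = (8 * K1 * K2 ^ 2 * K3 ^ N * s ^ (1 - N)) *
        (Real.exp (-c / t) * t ^ (-(4 + (1 - b) * N / 2))) := by rw [e4]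
    _ ≤ (8 * K1 * K2 ^ 2 * K3 ^ N * s ^ (1 - N)) * D :=
        mul_le_mul_of_nonneg_left hD (by positivity)
    _ = _ := by ring

/-- the time integral -/
theorem time_bd {b ts t1 : ℝ} (hb0 : 0 < b) (hts : 0 < ts) (ht1 : 0 < t1) (ht11 : t1 < 1) :
    Integrable ((Iio ts).indicator (fun t : ℝ => t ^ (b - 1))) (volume.restrict (Ioc t1 1)) ∧
    (∫ t in Ioc t1 1, (Iio ts).indicator (fun t : ℝ => t ^ (b - 1)) t) ≤ ts ^ b / b := by
  have hI : ∀ a : ℝ, 0 < a → IntegrableOn (fun t : ℝ => t ^ (b - 1)) (Ioc 0 a) := by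
    intro a ha
    have := intervalIntegral.intervalIntegrable_rpow' (a := 0) (b := a) (r := b - 1) (by linarith)
    rwa [intervalIntegrable_iff_integrableOn_Ioc_of_le ha.le] at this
  have h1 : IntegrableOn (fun t : ℝ => t ^ (b - 1)) (Ioc t1 1) :=
    (hI 1 one_pos).mono_set (Ioc_subset_Ioc_left ht1.le)
  refine ⟨h1.indicator measurableSet_Iio, ?_⟩
  rw [setIntegral_indicator measurableSet_Iio]
  have h2 : (∫ t in Ioc t1 1 ∩ Iio ts, (fun t : ℝ => t ^ (b - 1)) t) ≤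
      ∫ t in Ioc 0 ts, (fun t : ℝ => t ^ (b - 1)) t := by
    apply setIntegral_mono_set (hI ts hts)
    · rw [Filter.EventuallyLE, ae_restrict_iff' measurableSet_Ioc]
      exact Eventually.of_forall fun t ht => Real.rpow_nonneg ht.1.le _
    · apply HasSubset.Subset.eventuallyLE
      rintro t ⟨h3, h4⟩
      exact ⟨ht1.trans h3.1, le_of_lt h4⟩
  refine h2.trans (le_of_eq ?_)
  rw [← intervalIntegral.integral_of_le hts.le, integral_rpow (Or.inl (by linarith))]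
  rw [sub_add_cancel, Real.zero_rpow hb0.ne', sub_zero]

/-! ### the space integral -/

theorem space_bd (f T : ℝ × ℝ → ℝ) (Bs : Set (ℝ × ℝ)) (hB : MeasurableSet Bs) (c1 c2 q K : ℝ)
    (hc1 : 0 ≤ c1) (hc2 : 0 ≤ c2) (hq : 0 ≤ q) (hK : 0 ≤ K) (hvol : volume Bs ≠ ⊤)
    (hf : ∀ z, 0 ≤ f z) (h0 : ∀ z, z ∉ Bs → f z = 0) (h1 : ∀ z ∈ Bs, f z ≤ c1 * T z ^ q + c2)
    (hT : ∀ z ∈ Bs, 0 ≤ T z)
    (hL : (∫⁻ z in Bs, ENNReal.ofReal (T z) ^ q) ≤ ENNReal.ofReal K) :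
    (∫ z, f z) ≤ c1 * K + c2 * (volume Bs).toReal := by
  have hpos : 0 ≤ c1 * K + c2 * (volume Bs).toReal := by positivity
  by_cases hf' : Integrable f
  · have e1 := ofReal_integral_eq_lintegral_ofReal hf' (Eventually.of_forall hf)
    rw [← ENNReal.ofReal_le_ofReal_iff hpos, e1]
    calc ∫⁻ z, ENNReal.ofReal (f z) ≤ ∫⁻ z, Bs.indicator (fun z => ENNReal.ofReal c1 *
          ENNReal.ofReal (T z) ^ q + ENNReal.ofReal c2) z := by
          apply lintegral_mono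
          intro z
          by_cases hz : z ∈ Bs
          · simp only [indicator_of_mem hz]
            rw [ENNReal.ofReal_rpow_of_nonneg (hT z hz) hq, ← ENNReal.ofReal_mul hc1,
              ← ENNReal.ofReal_add (mul_nonneg hc1 (Real.rpow_nonneg (hT z hz) _)) hc2]
            exact ENNReal.ofReal_le_ofReal (h1 z hz)
          · simp only [indicator_of_notMem hz]
            rw [h0 z hz]
            simp
      _ = ∫⁻ z in Bs, (ENNReal.ofReal c1 * ENNReal.ofReal (T z) ^ q + ENNReal.ofReal c2) :=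
          lintegral_indicator hB _
      _ = (∫⁻ z in Bs, ENNReal.ofReal c1 * ENNReal.ofReal (T z) ^ q) +
            ∫⁻ z in Bs, ENNReal.ofReal c2 := lintegral_add_right _ measurable_const
      _ = ENNReal.ofReal c1 * (∫⁻ z in Bs, ENNReal.ofReal (T z) ^ q) +
            ENNReal.ofReal c2 * volume Bs := by
          rw [lintegral_const_mul' _ _ ENNReal.ofReal_ne_top, setLIntegral_const]
      _ ≤ ENNReal.ofReal c1 * ENNReal.ofReal K +
            ENNReal.ofReal c2 * ENNReal.ofReal (volume Bs).toReal := by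
          rw [ENNReal.ofReal_toReal hvol]
          gcongr
      _ = ENNReal.ofReal (c1 * K + c2 * (volume Bs).toReal) := by
          rw [ENNReal.ofReal_add (by positivity) (by positivity), ENNReal.ofReal_mul hc1,
            ENNReal.ofReal_mul hc2]
  · rw [integral_undef hf']
    exact hpos

theorem final_exp {b K3 q s A Kp : ℝ} (hb0 : 0 < b) (hb1 : b < 1) (hK3 : 0 < K3) (hs : 1 ≤ s) :
    A * s ^ (-1 - q) * Kp * (((K3 / s) ^ (2 / (1 - b))) ^ b / b) =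
      (A * Kp * K3 ^ (2 * b / (1 - b)) / b) * s ^ (1 - (q + 2 / (1 - b))) := by
  have hs0 : 0 < s := by linarith
  have hb : 0 < 1 - b := by linarith
  have e1 : ((K3 / s) ^ (2 / (1 - b))) ^ b = K3 ^ (2 * b / (1 - b)) * s ^ (-(2 * b / (1 - b))) := by
    rw [← Real.rpow_mul (by positivity), Real.div_rpow hK3.le hs0.le, Real.rpow_neg hs0.le]
    have : 2 / (1 - b) * b = 2 * b / (1 - b) := by ring
    rw [this]
    rfl
  have e2 : s ^ (-1 - q) * s ^ (-(2 * b / (1 - b))) = s ^ (1 - (q + 2 / (1 - b))) := by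
    rw [← Real.rpow_add hs0]
    congr 1
    field_simp
    ring
  rw [e1, ← e2]
  ring

theorem er_en (l s : ℝ) (T A B : ℝ → ℝ → ℝ → ℝ) (χ : ℝ × ℝ → ℝ) (e : ℝ → ℝ) (t : ℝ)
    (z : ℝ × ℝ) : Er l s T A B χ e t z = En l s (T t z.1 z.2) (A t z.1 z.2) (B t z.1 z.2)
      (lap2 χ z) (px χ z) (py χ z) (χ z) (e t) (dX T t z.1 z.2) (dY T t z.1 z.2) := rfl

theorem t_ERR (h1 : S_DET) (h2 : S_SUP) (h3 : S_DTX) (h4 : S_PSD) : S_ERR := by
  intro l b C R z0 g P hL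
  obtain ⟨c, K1, hc, hK1, hdet⟩ := h1 l b C R z0 g P hL
  obtain ⟨K3, hK3, hsup⟩ := h2 l b C R z0 g P hL
  obtain ⟨K2, hK2, hdx⟩ := h3 g C hL.lip
  have hpsd := h4 g C hL.lip hL.cv
  have hb0 := hL.b0
  have hb1 := hL.b1
  have hb : 0 < 1 - b := by linarith
  refine ⟨fun t => K1 * Real.exp (-c / t), ?_, ?_, ?_, ?_⟩
  · refine continuousOn_const.mul (Real.continuous_exp.comp_continuousOn
      (continuousOn_const.div continuousOn_id (fun t ht => ne_of_gt ht)))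
  · intro t ht
    positivity
  · intro t ht ht1 z hz
    exact hdet t ht ht1 z hz
  · intro ρ q K χ hρ hρ2 hq hKq hχ hχc hχs
    obtain ⟨C1, C2, C3, b1, b2, b3, bz⟩ := chi_data χ hχ hχc
    have hC1 : 0 ≤ C1 := (abs_nonneg _).trans (b1 z0)
    have hC2 : 0 ≤ C2 := le_trans (by positivity) (b2 z0)
    have hC3 : 0 ≤ C3 := le_trans (by positivity) (b3 z0)
    obtain ⟨N, hN⟩ : ∃ N, N = q + 2 / (1 - b) := ⟨_, rfl⟩
    have hN0 : 0 ≤ N := by rw [hN]; positivity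
    obtain ⟨D, hD0, hD⟩ := exp_bd c (4 + (1 - b) * N / 2) hc (by positivity)
    obtain ⟨Kp, hKp⟩ : ∃ Kp, Kp = max K 0 := ⟨_, rfl⟩
    have hKp0 : 0 ≤ Kp := by rw [hKp]; exact le_max_right _ _
    obtain ⟨V, hV⟩ : ∃ V, V = (volume (Metric.closedBall z0 ρ)).toReal := ⟨_, rfl⟩
    have hV0 : 0 ≤ V := by rw [hV]; exact ENNReal.toReal_nonneg
    obtain ⟨A0, hA0⟩ : ∃ A0, A0 = (2 * C1 + 4 * C2) * K3 ^ 2 := ⟨_, rfl⟩
    have hA00 : 0 ≤ A0 := by rw [hA0]; positivity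
    obtain ⟨A2, hA2⟩ : ∃ A2, A2 = C3 * (8 * K1 * K2 ^ 2 * K3 ^ N * D) := ⟨_, rfl⟩
    have hA20 : 0 ≤ A2 := by
      rw [hA2]
      have := Real.rpow_pos_of_pos hK3 N
      positivity
    have hsub : ∀ z ∈ Metric.closedBall z0 ρ, z ∈ Metric.closedBall z0 (2 * R) := fun z hz =>
      Metric.closedBall_subset_closedBall hρ2 hz
    have hpt : ∀ s : ℝ, 1 ≤ s → ∀ t : ℝ, 0 < t → t ≤ 1 → ∀ z ∈ Metric.closedBall z0 ρ,
        Er l s (HT g) (HA g) (HB g) χ (fun t => K1 * Real.exp (-c / t)) t z ≤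
          (if t < (K3 / s) ^ (2 / (1 - b)) then A0 * s ^ (-1 - q) * t ^ (b - 1) else 0) *
            HT g t z.1 z.2 ^ q + A2 * s ^ (1 - N) := by
      intro s hs t ht ht1 z hz
      have hs0 : 0 < s := by linarith
      have hT0 : 0 ≤ HT g t z.1 z.2 := (hpsd t z.1 z.2 ht).1
      have hHD := (hpsd t z.1 z.2 ht).2.1
      have hTq : 0 ≤ HT g t z.1 z.2 ^ q := Real.rpow_nonneg hT0 _
      have hs1 : 0 < s ^ (1 - N) := Real.rpow_pos_of_pos hs0 _
      have hs2 : 0 < s ^ (-1 - q) := Real.rpow_pos_of_pos hs0 _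
      have ht2 : 0 < t ^ (b - 1) := Real.rpow_pos_of_pos ht _
      have hκ : HT g t z.1 z.2 ≤ K3 * t ^ (-(1 - b) / 2) :=
        (le_abs_self _).trans (hsup t ht ht1 z (hsub z hz)).1
      rw [er_en]
      rcases le_or_gt (HT g t z.1 z.2) s with hTs | hTs
      · rw [En_zero hTs]
        have : 0 ≤ (if t < (K3 / s) ^ (2 / (1 - b)) then A0 * s ^ (-1 - q) * t ^ (b - 1)
            else 0 : ℝ) := by
          split_ifs
          · positivity
          · exact le_rfl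
        positivity
      · have hsκ : s < K3 * t ^ (-(1 - b) / 2) := lt_of_lt_of_le hTs hκ
        rw [if_pos (t_lt hb1 hK3 hs0 ht hsκ)]
        have hab : HA g t z.1 z.2 ^ 2 + HB g t z.1 z.2 ^ 2 ≤ HT g t z.1 z.2 ^ 2 := by
          unfold HD at hHD
          linarith
        have hdx1 := hdx t ht ht1 z.1 z.2
        have hgr : dX (HT g) t z.1 z.2 ^ 2 + dY (HT g) t z.1 z.2 ^ 2 ≤
            2 * (K2 * t ^ (-2 : ℝ)) ^ 2 := by
          have g1 := sq_le_sq' (abs_le.1 hdx1.1).1 (abs_le.1 hdx1.1).2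
          have g2 := sq_le_sq' (abs_le.1 hdx1.2).1 (abs_le.1 hdx1.2).2
          linarith
        have hbd := En_bd (e := K1 * Real.exp (-c / t)) hL.l0 hL.l1 hs hTs hab hq hκ (by positivity)
          (b1 z) (b2 z) (b3 z) hgr
        refine hbd.trans ?_
        rw [kap_sq ht]
        have hsec := sec_bd (b := b) (c := c) (K1 := K1) (K2 := K2) (K3 := K3) (N := N) (D := D)
          (s := s) (t := t) hb1 hK1.le hK3 hN0 hs ht hsκ.le (hD t ht ht1)
        have hsec2 := mul_le_mul_of_nonneg_left hsec hC3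
        have e1 : (2 * C1 + 4 * C2) * (s ^ (-1 - q) * (K3 ^ 2 * t ^ (b - 1)) *
            HT g t z.1 z.2 ^ q) = A0 * s ^ (-1 - q) * t ^ (b - 1) * HT g t z.1 z.2 ^ q := by
          rw [hA0]; ring
        have e2 : C3 * (8 * K1 * K2 ^ 2 * K3 ^ N * D * s ^ (1 - N)) = A2 * s ^ (1 - N) := by
          rw [hA2]; ring
        rw [e1]
        rw [e2] at hsec2
        linarith
    refine ⟨A0 * Kp * K3 ^ (2 * b / (1 - b)) / b + A2 * V + 1, ?_, ?_⟩
    · have := Real.rpow_pos_of_pos hK3 (2 * b / (1 - b))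
      positivity
    · intro s hs t1 ht1 ht11
      have hs0 : 0 < s := by linarith
      have hs1 : 0 < s ^ (1 - N) := Real.rpow_pos_of_pos hs0 _
      have hs2 : 0 < s ^ (-1 - q) := Real.rpow_pos_of_pos hs0 _
      obtain ⟨ts, hts⟩ : ∃ ts, ts = (K3 / s) ^ (2 / (1 - b)) := ⟨_, rfl⟩
      have hts0 : 0 < ts := by rw [hts]; exact Real.rpow_pos_of_pos (by positivity) _
      have hX : (1 - q - 2 / (1 - b)) = 1 - N := by rw [hN]; ring
      rw [hX, intervalIntegral.integral_of_le ht11.le]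
      obtain ⟨hi, hI⟩ := time_bd hb0 hts0 ht1 ht11
      have hnn : ∀ t : ℝ, ∀ z : ℝ × ℝ,
          0 ≤ Er l s (HT g) (HA g) (HB g) χ (fun t => K1 * Real.exp (-c / t)) t z := by
        intro t z
        rw [er_en]
        exact En_nonneg hs (by positivity)
      have hΦ : ∀ t ∈ Ioc t1 1, (∫ z : ℝ × ℝ,
          Er l s (HT g) (HA g) (HB g) χ (fun t => K1 * Real.exp (-c / t)) t z) ≤
          (A0 * s ^ (-1 - q) * Kp) * (Iio ts).indicator (fun t : ℝ => t ^ (b - 1)) t +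
            A2 * s ^ (1 - N) * V := by
        intro t ht
        have ht0 : 0 < t := ht1.trans ht.1
        have ht2 : 0 < t ^ (b - 1) := Real.rpow_pos_of_pos ht0 _
        have hsp := space_bd
          (fun z => Er l s (HT g) (HA g) (HB g) χ (fun t => K1 * Real.exp (-c / t)) t z)
          (fun z => HT g t z.1 z.2) (Metric.closedBall z0 ρ) Metric.isClosed_closedBall.measurableSet
          (if t < ts then A0 * s ^ (-1 - q) * t ^ (b - 1) else 0) (A2 * s ^ (1 - N)) q Kp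
          (by split_ifs
              · positivity
              · exact le_rfl)
          (by positivity) (by linarith) hKp0 (measure_closedBall_lt_top.ne) (hnn t)
          (by
            intro z hz
            have hz' : z ∉ tsupport χ := fun h => hz (Metric.ball_subset_closedBall (hχs h))
            obtain ⟨y1, y2, y3, y4⟩ := bz z hz'
            rw [er_en]
            unfold En
            rw [y1, y2, y3, y4]
            simp)
          (by
            intro z hz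
            have := hpt s hs t ht0 ht.2 z hz
            rw [← hts] at this
            exact this)
          (fun z _ => (hpsd t z.1 z.2 ht0).1)
          ((hKq t ht0 ht.2).trans (ENNReal.ofReal_le_ofReal (by rw [hKp]; exact le_max_left _ _)))
        refine hsp.trans (le_of_eq ?_)
        rw [← hV]
        by_cases htt : t < ts
        · rw [if_pos htt, indicator_of_mem (by exact htt)]
          ring
        · rw [if_neg htt, indicator_of_notMem (by exact htt)]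
          ring
      have hint : Integrable (fun t => (A0 * s ^ (-1 - q) * Kp) *
          (Iio ts).indicator (fun t : ℝ => t ^ (b - 1)) t + A2 * s ^ (1 - N) * V)
          (volume.restrict (Ioc t1 1)) := (hi.const_mul _).add (integrable_const _)
      have hm := integral_mono_of_nonneg (μ := volume.restrict (Ioc t1 1))
        (f := fun t => ∫ z : ℝ × ℝ,
          Er l s (HT g) (HA g) (HB g) χ (fun t => K1 * Real.exp (-c / t)) t z)
        (Eventually.of_forall fun t => integral_nonneg (hnn t)) hint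
        ((ae_restrict_iff' measurableSet_Ioc).2 (Eventually.of_forall hΦ))
      refine hm.trans ?_
      rw [integral_add (hi.const_mul _) (integrable_const _), integral_const_mul, setIntegral_const]
      have e1 : volume.real (Ioc t1 1) ≤ 1 := by
        rw [Real.volume_real_Ioc_of_le ht11.le]; linarith
      have e2 : volume.real (Ioc t1 1) • (A2 * s ^ (1 - N) * V) ≤ A2 * s ^ (1 - N) * V := by
        rw [smul_eq_mul]
        have : 0 ≤ A2 * s ^ (1 - N) * V := by positivity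
        nlinarith
      have e3 : (A0 * s ^ (-1 - q) * Kp) * (∫ t in Ioc t1 1,
          (Iio ts).indicator (fun t : ℝ => t ^ (b - 1)) t) ≤
          (A0 * s ^ (-1 - q) * Kp) * (ts ^ b / b) := mul_le_mul_of_nonneg_left hI (by positivity)
      have e4 := final_exp (q := q) (A := A0) (Kp := Kp) hb0 hb1 hK3 hs
      rw [← hts, ← hN] at e4
      rw [e4] at e3
      calc _ ≤ (A0 * Kp * K3 ^ (2 * b / (1 - b)) / b) * s ^ (1 - N) + A2 * s ^ (1 - N) * V :=
            add_le_add e3 e2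
        _ ≤ _ := by nlinarith

end Pool.Agent.W775.WH.ERR
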