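import Pool.Agent.W775.WH.Stm

/-! Project WH (helper775), task WH-EXT (helper577). -/

set_option autoImplicit false

open MeasureTheory Set Filter Topology

namespace Pool.Agent.W775.WH.EXT

theorem dot_le {p w : ℝ × ℝ} {L : ℝ} (hp : ‖p‖ ≤ L) : p.1 * w.1 + p.2 * w.2 ≤ 2 * L * ‖w‖ := by
  have h1 : |p.1| ≤ ‖p‖ := norm_fst_le p
  have h2 : |p.2| ≤ ‖p‖ := norm_snd_le p
  have h3 : |w.1| ≤ ‖w‖ := norm_fst_le w
  have h4 : |w.2| ≤ ‖w‖ := norm_snd_le w
  have h5 : p.1 * w.1 ≤ L * ‖w‖ := by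
    calc p.1 * w.1 ≤ |p.1 * w.1| := le_abs_self _
      _ = |p.1| * |w.1| := abs_mul _ _
      _ ≤ L * ‖w‖ := mul_le_mul (h1.trans hp) h3 (abs_nonneg _) ((norm_nonneg _).trans hp)
  have h6 : p.2 * w.2 ≤ L * ‖w‖ := by
    calc p.2 * w.2 ≤ |p.2 * w.2| := le_abs_self _
      _ = |p.2| * |w.2| := abs_mul _ _
      _ ≤ L * ‖w‖ := mul_le_mul (h2.trans hp) h4 (abs_nonneg _) ((norm_nonneg _).trans hp)
  linarith

theorem t_EXT (h1 : S_NE) (h2 : S_LIP) : S_EXT := by
  intro Ω u hO hu z0 R hR hK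
  have hsub : Metric.closedBall z0 (3 * R) ⊆ Ω :=
    (Metric.closedBall_subset_closedBall (by linarith)).trans hK
  obtain ⟨L, hL, hL1, hL2⟩ := h2 Ω u hO hu (Metric.closedBall z0 (3 * R))
    (isCompact_closedBall z0 (3 * R)) hsub
  have hne : ∀ y : Metric.closedBall z0 (3 * R), ∃ p, p ∈ Sub Ω u y.1 := fun y =>
    h1 Ω u hO hu y.1 (hsub y.2)
  choose p hp using hne
  have hpL : ∀ y, ‖p y‖ ≤ L := fun y => hL1 y.1 y.2 _ (hp y)
  have hz0 : z0 ∈ Metric.closedBall z0 (3 * R) := Metric.mem_closedBall_self (by linarith)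
  haveI : Nonempty (Metric.closedBall z0 (3 * R)) := ⟨⟨z0, hz0⟩⟩
  -- the affine functions
  set A : Metric.closedBall z0 (3 * R) → ℝ × ℝ → ℝ := fun y w =>
    u y.1 + ((p y).1 * (w.1 - y.1.1) + (p y).2 * (w.2 - y.1.2)) with hA
  have hbd : ∀ w, BddAbove (range fun y => A y w) := by
    intro w
    refine ⟨|u z0| + L * (3 * R) + 2 * L * (‖w - z0‖ + 3 * R), ?_⟩
    rintro _ ⟨y, rfl⟩
    have hy : ‖y.1 - z0‖ ≤ 3 * R := by
      have := y.2
      rwa [Metric.mem_closedBall, dist_eq_norm] at this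
    have e1 : u y.1 ≤ |u z0| + L * (3 * R) := by
      have h3 := hL2 y.1 y.2 z0 hz0
      have h4 := le_abs_self (u y.1 - u z0)
      have h5 := le_abs_self (u z0)
      have h6 := mul_le_mul_of_nonneg_left hy hL.le
      linarith
    have e2 : (p y).1 * (w.1 - y.1.1) + (p y).2 * (w.2 - y.1.2) ≤
        2 * L * (‖w - z0‖ + 3 * R) := by
      have h3 := dot_le (w := w - y.1) (hpL y)
      have h4 : ‖w - y.1‖ ≤ ‖w - z0‖ + 3 * R := by
        have e : w - y.1 = (w - z0) - (y.1 - z0) := by abel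
        rw [e]
        exact (norm_sub_le _ _).trans (by linarith)
      have h5 := mul_le_mul_of_nonneg_left h4 (by positivity : 0 ≤ 2 * L)
      have h6 : (w - y.1).1 = w.1 - y.1.1 := rfl
      have h7 : (w - y.1).2 = w.2 - y.1.2 := rfl
      rw [h6, h7] at h3
      linarith
    simp only [hA]
    linarith
  have hle : ∀ y w, A y w ≤ ⨆ y, A y w := fun y w => le_ciSup (hbd w) y
  have hlip : ∀ w w', (⨆ y, A y w) ≤ (⨆ y, A y w') + 2 * L * ‖w - w'‖ := by
    intro w w'
    refine ciSup_le fun y => ?_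
    have h3 := hle y w'
    have h4 := dot_le (w := w - w') (hpL y)
    have h6 : (w - w').1 = w.1 - w'.1 := rfl
    have h7 : (w - w').2 = w.2 - w'.2 := rfl
    rw [h6, h7] at h4
    have h5 : A y w = A y w' + ((p y).1 * (w.1 - w'.1) + (p y).2 * (w.2 - w'.2)) := by
      simp only [hA]
      ring
    linarith
  refine ⟨fun w => ⨆ y, A y w, 2 * L, by positivity, ?_, ?_, ?_⟩
  · refine ⟨convex_univ, ?_⟩
    intro w _ w' _ a b ha hb hab
    refine ciSup_le fun y => ?_
    have h3 := mul_le_mul_of_nonneg_left (hle y w) ha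
    have h4 := mul_le_mul_of_nonneg_left (hle y w') hb
    have h5 : A y (a • w + b • w') = a * A y w + b * A y w' := by
      simp only [hA, Prod.fst_add, Prod.snd_add, Prod.smul_fst, Prod.smul_snd, smul_eq_mul]
      have hb' : b = 1 - a := by linarith
      rw [hb']
      ring
    rw [h5]
    simp only [smul_eq_mul]
    linarith
  · intro z w
    rw [abs_le]
    have h3 := hlip z w
    have h4 := hlip w z
    rw [norm_sub_rev w z] at h4
    constructor
    · simp only
      linarith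
    · simp only
      linarith
  · intro z hz
    simp only
    refine le_antisymm (ciSup_le fun y => hp y z (hsub hz)) ?_
    have h3 := hle ⟨z, hz⟩ z
    have h4 : A ⟨z, hz⟩ z = u z := by
      simp only [hA]
      ring
    rw [h4] at h3
    exact h3

end Pool.Agent.W775.WH.EXT
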