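import Pool.Agent.W775.WH.Stm

/-! WH-F1 (helper347): one dimensional Legendre transform, second difference formula. -/

set_option autoImplicit false

open MeasureTheory Set Filter Topology

namespace Pool.Agent.W775.WH.F1

open Pool.Agent.W775.WH

/-- the right derivative -/
noncomputable def rd (f : ℝ → ℝ) (x : ℝ) : ℝ := derivWithin f (Ioi x) x

section
variable {f : ℝ → ℝ} {a b : ℝ}

lemma mem_int (x : ℝ) (hx : x ∈ Ioo a b) : x ∈ interior (Icc a b) := by
  rw [interior_Icc]; exact hx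

lemma rd_has (hf : ConvexOn ℝ (Icc a b) f) {x : ℝ} (hx : x ∈ Ioo a b) :
    HasDerivWithinAt f (rd f x) (Ioi x) x :=
  hf.hasDerivWithinAt_rightDeriv_of_mem_interior (mem_int x hx)

lemma rd_mono (hf : ConvexOn ℝ (Icc a b) f) : MonotoneOn (rd f) (Ioo a b) := by
  have := hf.monotoneOn_rightDeriv
  rw [interior_Icc] at this
  exact this

lemma rd_le (hf : ConvexOn ℝ (Icc a b) f) {x y : ℝ} (hx : x ∈ Ioo a b) (hy : y ∈ Icc a b)
    (hxy : x < y) : rd f x * (y - x) ≤ f y - f x := by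
  have h := hf.rightDeriv_le_slope_of_mem_interior (mem_int x hx) hy hxy
  rw [slope_def_field, le_div_iff₀ (by linarith)] at h
  exact h

lemma le_rd (hf : ConvexOn ℝ (Icc a b) f) {x y : ℝ} (hx : x ∈ Ioo a b) (hy : y ∈ Icc a b)
    (hyx : y < x) : f x - f y ≤ rd f x * (x - y) := by
  have h1 := hf.slope_le_leftDeriv hy (Ioo_subset_Icc_self hx) hyx
    (hf.differentiableWithinAt_Iio_of_mem_interior (mem_int x hx))
  have h2 := hf.leftDeriv_le_rightDeriv_of_mem_interior (mem_int x hx)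
  have h3 := h1.trans h2
  rw [slope_def_field, div_le_iff₀ (by linarith)] at h3
  exact h3

/-- subgradients equal the right derivative at almost every point -/
lemma ae_eq (hf : ConvexOn ℝ (Icc a b) f) {π : ℝ → ℝ}
    (hπ : ∀ᵐ x ∂(volume.restrict (Icc a b)), ∀ x' ∈ Icc a b, f x + π x * (x' - x) ≤ f x') :
    ∀ᵐ x ∂(volume : Measure ℝ), x ∈ Ioo a b → π x = rd f x := by
  have hc := (rd_mono hf).countable_not_continuousWithinAt
  have hπ' := (ae_restrict_iff' measurableSet_Icc).1 hπ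
  have hc' : ∀ᵐ x ∂(volume : Measure ℝ),
      x ∉ {x ∈ Ioo a b | ¬ContinuousWithinAt (rd f) (Ioo a b) x} :=
    (measure_eq_zero_iff_ae_notMem).1 (hc.measure_zero volume)
  filter_upwards [hπ', hc'] with x h1 h2 hx
  have hsub := h1 (Ioo_subset_Icc_self hx)
  have hcont : ContinuousWithinAt (rd f) (Ioo a b) x := by
    by_contra h
    exact h2 ⟨hx, h⟩
  apply le_antisymm
  · -- `π x ≤ rd f x`
    have h3 := (rd_has hf hx)
    rw [hasDerivWithinAt_iff_tendsto_slope' self_notMem_Ioi] at h3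
    refine ge_of_tendsto h3 ?_
    have h4 : ∀ᶠ y in 𝓝[>] x, y ∈ Ioo x b := Ioo_mem_nhdsGT hx.2
    filter_upwards [h4] with y hy
    rw [slope_def_field, le_div_iff₀ (by linarith [hy.1])]
    have := hsub y ⟨by linarith [hy.1, hx.1], hy.2.le⟩
    linarith
  · have h3 : Tendsto (rd f) (𝓝[<] x) (𝓝 (rd f x)) := by
      refine hcont.mono_left ?_
      refine le_inf (nhdsWithin_le_nhds) ?_
      rw [le_principal_iff]
      exact mem_of_superset (Ioo_mem_nhdsLT hx.1) fun y hy => ⟨hy.1, hy.2.trans hx.2⟩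
    refine le_of_tendsto h3 ?_
    have h4 : ∀ᶠ y in 𝓝[<] x, y ∈ Ioo a x := Ioo_mem_nhdsLT hx.1
    filter_upwards [h4] with y hy
    have h5 := rd_le hf ⟨hy.1, hy.2.trans hx.2⟩ (Ioo_subset_Icc_self hx) hy.2
    have h6 := hsub y ⟨hy.1.le, (hy.2.trans hx.2).le⟩
    have h7 : 0 < x - y := by linarith [hy.2]
    nlinarith

/-- the Legendre transform as an integral -/
lemma vf (hab : a < b) (hc : ContinuousOn f (Icc a b)) (hf : ConvexOn ℝ (Icc a b) f) (x0 p : ℝ) :
    IntervalIntegrable (fun x => pp (p - rd f x)) volume a b ∧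
    sSup ((fun x : ℝ => p * (x - x0) - f x) '' Icc a b) =
      p * (a - x0) - f a + ∫ x in a..b, pp (p - rd f x) := by
  set φ : ℝ → ℝ := fun x => p * (x - x0) - f x with hφ
  have hφc : ContinuousOn φ (Icc a b) := by
    refine ContinuousOn.sub ?_ hc
    fun_prop
  obtain ⟨z, hz, hmax⟩ := isCompact_Icc.exists_isMaxOn (nonempty_Icc.2 hab.le) hφc
  have hsup : sSup (φ '' Icc a b) = φ z := by
    refine IsGreatest.csSup_eq ⟨mem_image_of_mem _ hz, ?_⟩
    rintro _ ⟨y, hy, rfl⟩
    exact hmax hy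
  -- signs
  have hpos : ∀ x ∈ Ioo a z, 0 ≤ p - rd f x := by
    intro x hx
    have hx' : x ∈ Ioo a b := ⟨hx.1, hx.2.trans_le hz.2⟩
    have h1 := rd_le hf hx' hz hx.2
    have h2 : φ x ≤ φ z := hmax (Ioo_subset_Icc_self hx')
    simp only [hφ] at h2
    have h3 : 0 < z - x := by linarith [hx.2]
    by_contra hneg
    push Not at hneg
    nlinarith
  have hneg : ∀ x ∈ Ioo z b, p - rd f x ≤ 0 := by
    intro x hx
    have hx' : x ∈ Ioo a b := ⟨hz.1.trans_lt hx.1, hx.2⟩
    have h1 := le_rd hf hx' hz hx.1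
    have h2 : φ x ≤ φ z := hmax (Ioo_subset_Icc_self hx')
    simp only [hφ] at h2
    have h3 : 0 < x - z := by linarith [hx.1]
    by_contra hneg
    push Not at hneg
    nlinarith
  -- derivative
  have hder : ∀ x ∈ Ioo a z, HasDerivWithinAt φ (p - rd f x) (Ioi x) x := by
    intro x hx
    have hx' : x ∈ Ioo a b := ⟨hx.1, hx.2.trans_le hz.2⟩
    have h1 : HasDerivWithinAt (fun x : ℝ => p * (x - x0)) p (Ioi x) x := by
      have := (((hasDerivAt_id x).sub_const x0).const_mul p).hasDerivWithinAt (s := Ioi x)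
      simpa using this
    exact h1.sub (rd_has hf hx')
  have hcz : ContinuousOn φ (Icc a z) := hφc.mono (Icc_subset_Icc_right hz.2)
  have hint := intervalIntegral.integrableOn_deriv_right_of_nonneg hcz hder hpos
  have hint' : IntervalIntegrable (fun x => p - rd f x) volume a z :=
    (intervalIntegrable_iff_integrableOn_Ioc_of_le hz.1).2 hint
  have hftc := intervalIntegral.integral_eq_sub_of_hasDeriv_right_of_le hz.1 hcz hder hint'
  -- almost everywhere equalities
  have hne : ∀ c : ℝ, ∀ᵐ x ∂(volume : Measure ℝ), x ≠ c := fun c => by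
    have := (measure_eq_zero_iff_ae_notMem (μ := (volume : Measure ℝ)) (s := {c})).1
      (measure_singleton c)
    simpa using this
  have hae1 : ∀ᵐ x ∂(volume : Measure ℝ), x ∈ uIoc a z → p - rd f x = pp (p - rd f x) := by
    filter_upwards [hne z] with x hx1 hx2
    rw [uIoc_of_le hz.1] at hx2
    have : x ∈ Ioo a z := ⟨hx2.1, lt_of_le_of_ne hx2.2 hx1⟩
    unfold pp
    rw [max_eq_left (hpos x this)]
  have hae2 : ∀ᵐ x ∂(volume : Measure ℝ), x ∈ uIoc z b → (0 : ℝ) = pp (p - rd f x) := by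
    filter_upwards [hne b] with x hx1 hx2
    rw [uIoc_of_le hz.2] at hx2
    have : x ∈ Ioo z b := ⟨hx2.1, lt_of_le_of_ne hx2.2 hx1⟩
    unfold pp
    rw [max_eq_right (hneg x this)]
  have hi1 : IntervalIntegrable (fun x => pp (p - rd f x)) volume a z :=
    hint'.congr_ae ((ae_restrict_iff' measurableSet_uIoc).2 hae1)
  have hi2 : IntervalIntegrable (fun x => pp (p - rd f x)) volume z b :=
    (intervalIntegrable_const (c := (0 : ℝ))).congr_ae
      ((ae_restrict_iff' measurableSet_uIoc).2 hae2)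
  refine ⟨hi1.trans hi2, ?_⟩
  rw [hsup, ← intervalIntegral.integral_add_adjacent_intervals hi1 hi2,
    ← intervalIntegral.integral_congr_ae hae1, ← intervalIntegral.integral_congr_ae hae2, hftc]
  simp only [hφ, intervalIntegral.integral_zero]
  ring

end

lemma pp_id (s h : ℝ) (hh : 0 < h) : pp (s + h) + pp (s - h) - 2 * pp s = pp (h - |s|) := by
  unfold pp
  rcases abs_cases s with ⟨h1, h2⟩ | ⟨h1, h2⟩ <;> rw [h1] <;>
    rcases max_cases (s + h) 0 with ⟨e1, e2⟩ | ⟨e1, e2⟩ <;>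
    rcases max_cases (s - h) 0 with ⟨e3, e4⟩ | ⟨e3, e4⟩ <;>
    rcases max_cases s 0 with ⟨e5, e6⟩ | ⟨e5, e6⟩ <;>
    rw [e1, e3, e5] <;>
    first
    | (rw [max_eq_left (by linarith)]; linarith)
    | (rw [max_eq_right (by linarith)]; linarith)

theorem t_F1 : S_F1 := by
  intro f π x0 δ hδ hc hπ hf p h hh
  have hab : x0 - δ < x0 + δ := by linarith
  obtain ⟨i1, v1⟩ := vf hab hc hf x0 (p + h)
  obtain ⟨i2, v2⟩ := vf hab hc hf x0 (p - h)
  obtain ⟨i3, v3⟩ := vf hab hc hf x0 p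
  rw [v1, v2, v3]
  have hne : ∀ᵐ x ∂(volume : Measure ℝ), x ≠ x0 + δ := by
    have := (measure_eq_zero_iff_ae_notMem (μ := (volume : Measure ℝ)) (s := {x0 + δ})).1
      (measure_singleton _)
    simpa using this
  have hae : ∀ᵐ x ∂(volume : Measure ℝ), x ∈ uIoc (x0 - δ) (x0 + δ) →
      pp (h - |π x - p|) = pp (p + h - rd f x) + pp (p - h - rd f x) - 2 * pp (p - rd f x) := by
    filter_upwards [hne, ae_eq hf hπ] with x h1 h2 h3
    rw [uIoc_of_le hab.le] at h3
    have h4 : x ∈ Ioo (x0 - δ) (x0 + δ) := ⟨h3.1, lt_of_le_of_ne h3.2 h1⟩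
    rw [h2 h4, abs_sub_comm, ← pp_id _ h hh]
    congr 2
    · congr 1; ring_nf
    · ring_nf
  rw [intervalIntegral.integral_congr_ae hae,
    intervalIntegral.integral_sub (i1.add i2) (i3.const_mul 2),
    intervalIntegral.integral_add i1 i2, intervalIntegral.integral_const_mul]
  ring

end Pool.Agent.W775.WH.F1
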