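import Pool.Agent.W775.WH.Stm

/-!
Project WH, part WH-F2: the second difference of a convex function in terms of its slopes.
-/

set_option autoImplicit false

open MeasureTheory Set Filter Topology

namespace Pool.Agent.W775.WH.F2

open Pool.Agent.W775.WH

/-- the subgradient inequality in terms of slopes, to the right -/
theorem slope_ge {f : ℝ → ℝ} {q t s : ℝ} (h : f t + q * (s - t) ≤ f s) (hts : t < s) :
    q ≤ slope f t s := by
  rw [slope_def_field, le_div_iff₀ (by linarith)]
  linarith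

/-- the subgradient inequality in terms of slopes, to the left -/
theorem slope_le {f : ℝ → ℝ} {q t s : ℝ} (h : f t + q * (s - t) ≤ f s) (hst : s < t) :
    slope f s t ≤ q := by
  rw [slope_def_field, div_le_iff₀ (by linarith)]
  linarith

/-- a subgradient is at most the right derivative to the right of the point -/
theorem le_rd {f : ℝ → ℝ} {a b q t x : ℝ} (hf : ConvexOn ℝ (Icc a b) f) (ht : t ∈ Icc a b)
    (hx : x ∈ Ioo a b) (htx : t ≤ x) (hq : ∀ s ∈ Icc a b, f t + q * (s - t) ≤ f s) :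
    q ≤ derivWithin f (Ioi x) x := by
  have hxi : x ∈ interior (Icc a b) := by rw [interior_Icc]; exact hx
  rcases htx.lt_or_eq with h | h
  · have h1 := slope_ge (hq x (Ioo_subset_Icc_self hx)) h
    have h2 := hf.slope_le_leftDeriv_of_mem_interior ht hxi h
    have h3 := hf.leftDeriv_le_rightDeriv_of_mem_interior hxi
    linarith
  · subst h
    rw [hf.rightDeriv_eq_sInf_slope_of_mem_interior hxi]
    refine le_csInf ?_ ?_
    · rw [image_nonempty]
      exact ⟨b, ⟨right_mem_Icc.2 (by linarith [hx.1, hx.2]), hx.2⟩⟩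
    · rintro _ ⟨s, ⟨hs, hts⟩, rfl⟩
      exact slope_ge (hq s hs) hts

/-- a subgradient is at least the left derivative to the left of the point -/
theorem ld_le {f : ℝ → ℝ} {a b q t x : ℝ} (hf : ConvexOn ℝ (Icc a b) f) (ht : t ∈ Icc a b)
    (hx : x ∈ Ioo a b) (hxt : x ≤ t) (hq : ∀ s ∈ Icc a b, f t + q * (s - t) ≤ f s) :
    derivWithin f (Iio x) x ≤ q := by
  have hxi : x ∈ interior (Icc a b) := by rw [interior_Icc]; exact hx
  rcases hxt.lt_or_eq with h | h
  · have h1 := slope_le (hq x (Ioo_subset_Icc_self hx)) h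
    have h2 := hf.rightDeriv_le_slope_of_mem_interior hxi ht h
    have h3 := hf.leftDeriv_le_rightDeriv_of_mem_interior hxi
    linarith
  · subst h
    rw [hf.leftDeriv_eq_sSup_slope_of_mem_interior hxi]
    refine csSup_le ?_ ?_
    · rw [image_nonempty]
      exact ⟨a, ⟨left_mem_Icc.2 (by linarith [hx.1, hx.2]), hx.1⟩⟩
    · rintro _ ⟨s, ⟨hs, hst⟩, rfl⟩
      rw [slope_comm]
      exact slope_le (hq s hs) hst

/-- the set of the slopes with a point of contact in `[y - τ, y + τ]` -/
theorem vol_eq {f : ℝ → ℝ} {a b y k τ : ℝ} (hf : ConvexOn ℝ (Icc a b) f) (ha : a ≤ y - k)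
    (hb : y + k ≤ b) (hfc : ContinuousOn f (Icc a b)) {Q : Set ℝ} {Y : ℝ → ℝ}
    (hQ : ∀ q ∈ Q, Y q ∈ Icc a b ∧ ∀ t ∈ Icc a b, f (Y q) + q * (t - Y q) ≤ f t)
    (hQ' : ∀ q : ℝ, q ∉ Q → ∀ t ∈ Ioo (y - k) (y + k),
      ¬ (∀ t' ∈ Icc a b, f t + q * (t' - t) ≤ f t'))
    (hτ0 : 0 < τ) (hτk : τ < k) :
    volume {q | q ∈ Q ∧ |Y q - y| ≤ τ} = ENNReal.ofReal
      (derivWithin f (Ioi (y + τ)) (y + τ) - derivWithin f (Iio (y - τ)) (y - τ)) := by
  have hx1 : y - τ ∈ Ioo a b := ⟨by linarith, by linarith⟩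
  have hx2 : y + τ ∈ Ioo a b := ⟨by linarith, by linarith⟩
  have hi1 : y - τ ∈ interior (Icc a b) := by rw [interior_Icc]; exact hx1
  have hi2 : y + τ ∈ interior (Icc a b) := by rw [interior_Icc]; exact hx2
  have hab : a ≤ b := by linarith
  refine le_antisymm ?_ ?_
  · rw [← Real.volume_Icc]
    refine measure_mono ?_
    rintro q ⟨hq, hqy⟩
    rw [abs_le] at hqy
    obtain ⟨h1, h2⟩ := hQ q hq
    exact ⟨ld_le hf h1 hx1 (by linarith) h2, le_rd hf h1 hx2 (by linarith) h2⟩
  · rw [← Real.volume_Ioo]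
    refine measure_mono ?_
    rintro q ⟨hq1, hq2⟩
    -- all points of contact lie in the interval
    have key : ∀ t ∈ Icc a b, (∀ s ∈ Icc a b, f t + q * (s - t) ≤ f s) →
        y - τ ≤ t ∧ t ≤ y + τ := by
      intro t ht hts
      constructor
      · by_contra h
        push Not at h
        have h1 := slope_ge (hts _ (Ioo_subset_Icc_self hx1)) h
        have h2 := hf.slope_le_leftDeriv_of_mem_interior ht hi1 h
        linarith
      · by_contra h
        push Not at h
        have h1 := slope_le (hts _ (Ioo_subset_Icc_self hx2)) h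
        have h2 := hf.rightDeriv_le_slope_of_mem_interior hi2 ht h
        linarith
    -- a point of contact
    obtain ⟨t, ht, hmin⟩ := isCompact_Icc.exists_isMinOn (nonempty_Icc.2 hab)
      (hfc.sub (continuousOn_const.mul continuousOn_id : ContinuousOn (fun s => q * s) (Icc a b)))
    have hts : ∀ s ∈ Icc a b, f t + q * (s - t) ≤ f s := by
      intro s hs
      have h1 : f t - q * t ≤ f s - q * s := hmin hs
      linarith
    have hqQ : q ∈ Q := by
      by_contra h
      have h1 := key t ht hts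
      exact hQ' q h t ⟨by linarith, by linarith⟩ hts
    obtain ⟨h1, h2⟩ := hQ q hqQ
    have h3 := key _ h1 h2
    exact ⟨hqQ, abs_le.2 ⟨by linarith, by linarith⟩⟩

theorem layer (c k : ℝ) (hc : 0 ≤ c) : ENNReal.ofReal (pp (k - c)) =
    volume {τ : ℝ | τ ∈ Ioo 0 k ∧ c ≤ τ} := by
  have e : ENNReal.ofReal (pp (k - c)) = ENNReal.ofReal (k - c) := by
    unfold pp
    rcases le_total (k - c) 0 with h | h
    · rw [max_eq_right h, ENNReal.ofReal_zero, ENNReal.ofReal_of_nonpos h]
    · rw [max_eq_left h]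
  rw [e]
  refine le_antisymm ?_ ?_
  · rw [← Real.volume_Ioo]
    refine measure_mono ?_
    rintro τ ⟨h1, h2⟩
    exact ⟨⟨by linarith, h2⟩, h1.le⟩
  · rw [← Real.volume_Icc]
    refine measure_mono ?_
    rintro τ ⟨h1, h2⟩
    exact ⟨h2, h1.2.le⟩

theorem t_F2 : S_F2 := by
  intro f a b y k hf ha hb hk hfc Q Y hQm hYm hQ hQ'
  set R : ℝ → ℝ := fun τ => derivWithin f (Ioi (y + τ)) (y + τ)
    - derivWithin f (Iio (y - τ)) (y - τ) with hR
  -- layer cake
  have hms : MeasurableSet {p : ℝ × ℝ | |Y p.1 - y| ≤ p.2} :=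
    measurableSet_le ((hYm.comp measurable_fst).sub_const y).abs measurable_snd
  set g : ℝ → ℝ → ENNReal := fun q τ => {p : ℝ × ℝ | |Y p.1 - y| ≤ p.2}.indicator (fun _ => 1)
    (q, τ) with hg
  have h1 : ∀ q, ENNReal.ofReal (pp (k - |Y q - y|)) = ∫⁻ τ in Ioo 0 k, g q τ := by
    intro q
    rw [layer _ _ (abs_nonneg _)]
    have h2 : ∀ τ, g q τ = (Ici |Y q - y|).indicator (fun _ => 1) τ := by
      intro τ
      simp only [hg, indicator, mem_ofPred_eq, mem_Ici]
    simp_rw [h2]
    rw [lintegral_indicator measurableSet_Ici, setLIntegral_const, one_mul,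
      Measure.restrict_apply measurableSet_Ici]
    congr 1
    ext τ
    simp only [mem_ofPred_eq, mem_inter_iff, mem_Ici]
    tauto
  have h3 : ∀ τ ∈ Ioo 0 k, ∫⁻ q in Q, g q τ = ENNReal.ofReal (R τ) := by
    intro τ hτ
    simp only [hR]
    rw [← vol_eq hf ha hb hfc hQ hQ' hτ.1 hτ.2]
    have h4 : ∀ q, g q τ = {q | |Y q - y| ≤ τ}.indicator (fun _ => 1) q := by
      intro q
      simp only [hg, indicator, mem_ofPred_eq]
    have hm4 : MeasurableSet {q | |Y q - y| ≤ τ} :=
      measurableSet_le (hYm.sub_const y).abs measurable_const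
    simp_rw [h4]
    rw [lintegral_indicator hm4, setLIntegral_const, one_mul,
      Measure.restrict_apply hm4]
    congr 1
    ext q
    simp only [mem_ofPred_eq, mem_inter_iff]
    tauto
  have h5 : ∫⁻ q in Q, ENNReal.ofReal (pp (k - |Y q - y|)) = ∫⁻ τ in Ioo 0 k, ENNReal.ofReal (R τ) := by
    simp_rw [h1]
    rw [lintegral_lintegral_swap]
    · exact setLIntegral_congr_fun measurableSet_Ioo h3
    · exact (measurable_const.indicator hms).aemeasurable
  rw [h5]
  -- the fundamental theorem of calculus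
  set G : ℝ → ℝ := fun τ => f (y + τ) + f (y - τ) with hG
  have hGc : ContinuousOn G (Icc 0 k) := by
    refine ContinuousOn.add ?_ ?_
    · refine hfc.comp (by fun_prop) ?_
      intro τ hτ
      exact ⟨by linarith [hτ.1], by linarith [hτ.2]⟩
    · refine hfc.comp (by fun_prop) ?_
      intro τ hτ
      exact ⟨by linarith [hτ.2], by linarith [hτ.1]⟩
  have hGd : ∀ τ ∈ Ioo 0 k, HasDerivWithinAt G (R τ) (Ioi τ) τ := by
    intro τ hτ
    have hi1 : y - τ ∈ interior (Icc a b) := by
      rw [interior_Icc]; exact ⟨by linarith [hτ.2], by linarith [hτ.1]⟩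
    have hi2 : y + τ ∈ interior (Icc a b) := by
      rw [interior_Icc]; exact ⟨by linarith [hτ.1], by linarith [hτ.2]⟩
    have k1 := hf.hasDerivWithinAt_rightDeriv_of_mem_interior hi2
    have k2 := hf.hasDerivWithinAt_leftDeriv_of_mem_interior hi1
    have d1 : HasDerivWithinAt (fun τ : ℝ => y + τ) 1 (Ioi τ) τ :=
      ((hasDerivAt_id τ).const_add y).hasDerivWithinAt
    have d2 : HasDerivWithinAt (fun τ : ℝ => y - τ) (-1) (Ioi τ) τ :=
      ((hasDerivAt_id τ).const_sub y).hasDerivWithinAt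
    have e1 := HasDerivWithinAt.comp τ (h := fun τ : ℝ => y + τ) k1 d1
      (fun s (hs : τ < s) => show y + τ < y + s by linarith)
    have e2 := HasDerivWithinAt.comp τ (h := fun τ : ℝ => y - τ) k2 d2
      (fun s (hs : τ < s) => show y - s < y - τ by linarith)
    have e3 := e1.add e2
    refine e3.congr_deriv ?_
    simp only [hR]
    ring
  have hR0 : ∀ τ ∈ Ioo 0 k, 0 ≤ R τ := by
    intro τ hτ
    have hi1 : y - τ ∈ interior (Icc a b) := by
      rw [interior_Icc]; exact ⟨by linarith [hτ.2], by linarith [hτ.1]⟩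
    have hi2 : y + τ ∈ interior (Icc a b) := by
      rw [interior_Icc]; exact ⟨by linarith [hτ.1], by linarith [hτ.2]⟩
    have k1 := hf.leftDeriv_le_rightDeriv_of_mem_interior hi1
    have k2 := hf.monotoneOn_rightDeriv hi1 hi2 (by linarith [hτ.1])
    simp only at k2
    simp only [hR]
    linarith
  have hint := intervalIntegral.integrableOn_deriv_right_of_nonneg hGc hGd hR0
  have hftc := intervalIntegral.integral_eq_sub_of_hasDeriv_right_of_le hk.le hGc hGd
    ((intervalIntegrable_iff_integrableOn_Ioc_of_le hk.le).2 hint)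
  have e4 : G k - G 0 = f (y + k) + f (y - k) - 2 * f y := by
    simp only [hG, add_zero, sub_zero]
    ring
  rw [← e4, ← hftc, intervalIntegral.integral_of_le hk.le, integral_Ioc_eq_integral_Ioo,
    ofReal_integral_eq_lintegral_ofReal (hint.mono_set Ioo_subset_Ioc_self)]
  filter_upwards [ae_restrict_mem measurableSet_Ioo] with τ hτ
  exact hR0 τ hτ

end Pool.Agent.W775.WH.F2
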