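import Pool.Agent.W775.WH.Stm

/-!
# Project WH: FL, the flow inequality on a time interval
-/

set_option autoImplicit false

open MeasureTheory Set Filter Topology

namespace Pool.Agent.W775.WH.FL

/-! ### calculus of `Sm` -/

/-- uncurried function -/
def UF (f : ℝ → ℝ → ℝ → ℝ) (q : ℝ × ℝ × ℝ) : ℝ := f q.1 q.2.1 q.2.2

/-- positive times -/
def PT : Set (ℝ × ℝ × ℝ) := {q | 0 < q.1}

lemma PT_open : IsOpen PT := isOpen_lt continuous_const continuous_fst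

lemma sm_iff (n : ℕ) (f : ℝ → ℝ → ℝ → ℝ) : Sm n f ↔ ContDiffOn ℝ n (UF f) PT := Iff.rfl

lemma sm_mono {n m : ℕ} {f : ℝ → ℝ → ℝ → ℝ} (h : Sm n f) (hmn : m ≤ n) : Sm m f := by
  rw [sm_iff] at h ⊢
  exact h.of_le (by exact_mod_cast hmn)

lemma sm_cont {n : ℕ} {f : ℝ → ℝ → ℝ → ℝ} (h : Sm n f) : ContinuousOn (UF f) PT := by
  rw [sm_iff] at h
  exact h.continuousOn

lemma sm_hasF {n : ℕ} {f : ℝ → ℝ → ℝ → ℝ} (h : Sm (n + 1) f) {t x y : ℝ} (ht : 0 < t) :
    HasFDerivAt (UF f) (fderiv ℝ (UF f) (t, x, y)) (t, x, y) := by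
  rw [sm_iff] at h
  have h1 : ContDiffAt ℝ ((n + 1 : ℕ) : WithTop ℕ∞) (UF f) (t, x, y) :=
    h.contDiffAt (PT_open.mem_nhds ht)
  exact (h1.differentiableAt (by simp)).hasFDerivAt

lemma sm_hX {n : ℕ} {f : ℝ → ℝ → ℝ → ℝ} (h : Sm (n + 1) f) {t x y : ℝ} (ht : 0 < t) :
    HasDerivAt (fun x' => f t x' y) (fderiv ℝ (UF f) (t, x, y) (0, 1, 0)) x := by
  have h1 := sm_hasF h (x := x) (y := y) ht
  have h2 : HasDerivAt (fun x' : ℝ => ((t, x', y) : ℝ × ℝ × ℝ)) (0, 1, 0) x :=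
    (hasDerivAt_const x t).prodMk ((hasDerivAt_id x).prodMk (hasDerivAt_const x y))
  exact h1.comp_hasDerivAt x h2

lemma sm_hY {n : ℕ} {f : ℝ → ℝ → ℝ → ℝ} (h : Sm (n + 1) f) {t x y : ℝ} (ht : 0 < t) :
    HasDerivAt (fun y' => f t x y') (fderiv ℝ (UF f) (t, x, y) (0, 0, 1)) y := by
  have h1 := sm_hasF h (x := x) (y := y) ht
  have h2 : HasDerivAt (fun y' : ℝ => ((t, x, y') : ℝ × ℝ × ℝ)) (0, 0, 1) y :=
    (hasDerivAt_const y t).prodMk ((hasDerivAt_const y x).prodMk (hasDerivAt_id y))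
  exact h1.comp_hasDerivAt y h2

lemma sm_hS {n : ℕ} {f : ℝ → ℝ → ℝ → ℝ} (h : Sm (n + 1) f) {t x y : ℝ} (ht : 0 < t) :
    HasDerivAt (fun t' => f t' x y) (fderiv ℝ (UF f) (t, x, y) (1, 0, 0)) t := by
  have h1 := sm_hasF h (x := x) (y := y) ht
  have h2 : HasDerivAt (fun t' : ℝ => ((t', x, y) : ℝ × ℝ × ℝ)) (1, 0, 0) t :=
    (hasDerivAt_id t).prodMk ((hasDerivAt_const t x).prodMk (hasDerivAt_const t y))
  exact h1.comp_hasDerivAt t h2

lemma sm_dX_eq {n : ℕ} {f : ℝ → ℝ → ℝ → ℝ} (h : Sm (n + 1) f) {t x y : ℝ} (ht : 0 < t) :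
    dX f t x y = fderiv ℝ (UF f) (t, x, y) (0, 1, 0) := (sm_hX h ht).deriv

lemma sm_dY_eq {n : ℕ} {f : ℝ → ℝ → ℝ → ℝ} (h : Sm (n + 1) f) {t x y : ℝ} (ht : 0 < t) :
    dY f t x y = fderiv ℝ (UF f) (t, x, y) (0, 0, 1) := (sm_hY h ht).deriv

lemma sm_dS_eq {n : ℕ} {f : ℝ → ℝ → ℝ → ℝ} (h : Sm (n + 1) f) {t x y : ℝ} (ht : 0 < t) :
    dS f t x y = fderiv ℝ (UF f) (t, x, y) (1, 0, 0) := (sm_hS h ht).deriv

lemma sm_hasX {n : ℕ} {f : ℝ → ℝ → ℝ → ℝ} (h : Sm (n + 1) f) {t x y : ℝ} (ht : 0 < t) :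
    HasDerivAt (fun x' => f t x' y) (dX f t x y) x := by
  rw [sm_dX_eq h ht]; exact sm_hX h ht

lemma sm_hasY {n : ℕ} {f : ℝ → ℝ → ℝ → ℝ} (h : Sm (n + 1) f) {t x y : ℝ} (ht : 0 < t) :
    HasDerivAt (fun y' => f t x y') (dY f t x y) y := by
  rw [sm_dY_eq h ht]; exact sm_hY h ht

lemma sm_hasS {n : ℕ} {f : ℝ → ℝ → ℝ → ℝ} (h : Sm (n + 1) f) {t x y : ℝ} (ht : 0 < t) :
    HasDerivAt (fun t' => f t' x y) (dS f t x y) t := by
  rw [sm_dS_eq h ht]; exact sm_hS h ht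

lemma sm_fd {n : ℕ} {f : ℝ → ℝ → ℝ → ℝ} (h : Sm (n + 1) f) (v : ℝ × ℝ × ℝ) :
    ContDiffOn ℝ n (fun q => fderiv ℝ (UF f) q v) PT := by
  rw [sm_iff] at h
  exact (h.fderiv_of_isOpen PT_open (by push_cast; exact le_rfl)).clm_apply contDiffOn_const

lemma sm_dX {n : ℕ} {f : ℝ → ℝ → ℝ → ℝ} (h : Sm (n + 1) f) : Sm n (dX f) := by
  rw [sm_iff]
  refine (sm_fd h (0, 1, 0)).congr ?_
  intro q hq
  exact sm_dX_eq h (x := q.2.1) (y := q.2.2) hq

lemma sm_dY {n : ℕ} {f : ℝ → ℝ → ℝ → ℝ} (h : Sm (n + 1) f) : Sm n (dY f) := by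
  rw [sm_iff]
  refine (sm_fd h (0, 0, 1)).congr ?_
  intro q hq
  exact sm_dY_eq h (x := q.2.1) (y := q.2.2) hq

lemma sm_dS {n : ℕ} {f : ℝ → ℝ → ℝ → ℝ} (h : Sm (n + 1) f) : Sm n (dS f) := by
  rw [sm_iff]
  refine (sm_fd h (1, 0, 0)).congr ?_
  intro q hq
  exact sm_dS_eq h (x := q.2.1) (y := q.2.2) hq

lemma sm_symm {n : ℕ} {f : ℝ → ℝ → ℝ → ℝ} (h : Sm (n + 2) f) {t x y : ℝ} (ht : 0 < t) :
    dX (dY f) t x y =
      dY (dX f) t x y := by
  have hf : Sm (n + 1 + 1) f := h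
  have h1 : ContDiffAt ℝ ((n + 2 : ℕ) : WithTop ℕ∞) (UF f) (t, x, y) :=
    ((sm_iff _ _).1 h).contDiffAt (PT_open.mem_nhds ht)
  have hs := h1.isSymmSndFDerivAt (by simp)
  have hd : DifferentiableAt ℝ (fderiv ℝ (UF f)) (t, x, y) := by
    have h2 : ContDiffOn ℝ ((n + 1 : ℕ) : WithTop ℕ∞) (fderiv ℝ (UF f)) PT :=
      ((sm_iff _ _).1 h).fderiv_of_isOpen PT_open (by norm_cast)
    exact (h2.contDiffAt (PT_open.mem_nhds ht)).differentiableAt (by simp)
  have hv : ∀ v w : ℝ × ℝ × ℝ, fderiv ℝ (fun q => fderiv ℝ (UF f) q v) (t, x, y) w =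
      fderiv ℝ (fderiv ℝ (UF f)) (t, x, y) w v := by
    intro v w
    have h3 : HasFDerivAt (fun q => fderiv ℝ (UF f) q v)
        ((ContinuousLinearMap.apply ℝ ℝ v).comp (fderiv ℝ (fderiv ℝ (UF f)) (t, x, y))) (t, x, y) :=
      (ContinuousLinearMap.apply ℝ ℝ v).hasFDerivAt.comp (t, x, y) hd.hasFDerivAt
    rw [h3.fderiv]
    rfl
  have hY1 : UF (dY f) =ᶠ[𝓝 (t, x, y)] fun q => fderiv ℝ (UF f) q (0, 0, 1) := by
    filter_upwards [PT_open.mem_nhds (show (t, x, y) ∈ PT from ht)] with q hq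
    exact sm_dY_eq hf (x := q.2.1) (y := q.2.2) hq
  have hX1 : UF (dX f) =ᶠ[𝓝 (t, x, y)] fun q => fderiv ℝ (UF f) q (0, 1, 0) := by
    filter_upwards [PT_open.mem_nhds (show (t, x, y) ∈ PT from ht)] with q hq
    exact sm_dX_eq hf (x := q.2.1) (y := q.2.2) hq
  rw [sm_dX_eq (sm_dY hf) ht, sm_dY_eq (sm_dX hf) ht, hY1.fderiv_eq, hX1.fderiv_eq, hv, hv]
  exact hs.eq _ _

/-- slices -/
lemma slice {F : ℝ × ℝ × ℝ → ℝ} (h : ContinuousOn F PT) {t : ℝ} (ht : 0 < t) :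
    Continuous (fun z : ℝ × ℝ => F (t, z.1, z.2)) := by
  refine h.comp_continuous (by fun_prop) ?_
  intro z
  exact ht

/-! ### calculus in the plane -/

lemma hasPx {n : ℕ} {f : ℝ × ℝ → ℝ} (h : ContDiff ℝ (n + 1 : ℕ) f) (x y : ℝ) :
    HasDerivAt (fun x' => f (x', y)) (px f (x, y)) x := by
  have h1 : HasFDerivAt f (fderiv ℝ f (x, y)) (x, y) :=
    (h.contDiffAt.differentiableAt (by simp)).hasFDerivAt
  have h2 : HasDerivAt (fun x' : ℝ => ((x', y) : ℝ × ℝ)) (1, 0) x :=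
    (hasDerivAt_id x).prodMk (hasDerivAt_const x y)
  have h3 := h1.comp_hasDerivAt x h2
  have h4 : px f (x, y) = fderiv ℝ f (x, y) (1, 0) := h3.deriv
  rw [h4]; exact h3

lemma hasPy {n : ℕ} {f : ℝ × ℝ → ℝ} (h : ContDiff ℝ (n + 1 : ℕ) f) (x y : ℝ) :
    HasDerivAt (fun y' => f (x, y')) (py f (x, y)) y := by
  have h1 : HasFDerivAt f (fderiv ℝ f (x, y)) (x, y) :=
    (h.contDiffAt.differentiableAt (by simp)).hasFDerivAt
  have h2 : HasDerivAt (fun y' : ℝ => ((x, y') : ℝ × ℝ)) (0, 1) y :=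
    (hasDerivAt_const y x).prodMk (hasDerivAt_id y)
  have h3 := h1.comp_hasDerivAt y h2
  have h4 : py f (x, y) = fderiv ℝ f (x, y) (0, 1) := h3.deriv
  rw [h4]; exact h3

lemma px_eq {n : ℕ} {f : ℝ × ℝ → ℝ} (h : ContDiff ℝ (n + 1 : ℕ) f) :
    px f = fun z => fderiv ℝ f z (1, 0) := by
  funext z
  have h1 : HasFDerivAt f (fderiv ℝ f z) z :=
    (h.contDiffAt.differentiableAt (by simp)).hasFDerivAt
  have h2 : HasDerivAt (fun x' : ℝ => ((x', z.2) : ℝ × ℝ)) (1, 0) z.1 :=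
    (hasDerivAt_id z.1).prodMk (hasDerivAt_const z.1 z.2)
  exact (h1.comp_hasDerivAt z.1 h2).deriv

lemma py_eq {n : ℕ} {f : ℝ × ℝ → ℝ} (h : ContDiff ℝ (n + 1 : ℕ) f) :
    py f = fun z => fderiv ℝ f z (0, 1) := by
  funext z
  have h1 : HasFDerivAt f (fderiv ℝ f z) z :=
    (h.contDiffAt.differentiableAt (by simp)).hasFDerivAt
  have h2 : HasDerivAt (fun y' : ℝ => ((z.1, y') : ℝ × ℝ)) (0, 1) z.2 :=
    (hasDerivAt_const z.2 z.1).prodMk (hasDerivAt_id z.2)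
  exact (h1.comp_hasDerivAt z.2 h2).deriv

lemma smPx {n : ℕ} {f : ℝ × ℝ → ℝ} (h : ContDiff ℝ (n + 1 : ℕ) f) : ContDiff ℝ (n : ℕ) (px f) := by
  rw [px_eq h]
  exact (h.fderiv_right (m := (n : WithTop ℕ∞)) (by push_cast; exact le_rfl)).clm_apply
    contDiff_const

lemma smPy {n : ℕ} {f : ℝ × ℝ → ℝ} (h : ContDiff ℝ (n + 1 : ℕ) f) : ContDiff ℝ (n : ℕ) (py f) := by
  rw [py_eq h]
  exact (h.fderiv_right (m := (n : WithTop ℕ∞)) (by push_cast; exact le_rfl)).clm_apply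
    contDiff_const

/-- `px`, `py` vanish where the function vanishes on a neighbourhood -/
lemma px_zero {f : ℝ × ℝ → ℝ} {U : Set (ℝ × ℝ)} (hU : IsOpen U) (hf : ∀ z ∈ U, f z = 0) :
    ∀ z ∈ U, px f z = 0 := by
  intro z hz
  unfold px
  have h1 : (fun x => f (x, z.2)) =ᶠ[𝓝 z.1] fun _ => (0 : ℝ) := by
    have h2 : ∀ᶠ x in 𝓝 z.1, ((x, z.2) : ℝ × ℝ) ∈ U := by
      have h3 : Continuous (fun x : ℝ => ((x, z.2) : ℝ × ℝ)) := by fun_prop
      exact h3.continuousAt.eventually (hU.mem_nhds hz)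
    filter_upwards [h2] with x hx using hf _ hx
  rw [h1.deriv_eq]
  simp

lemma py_zero {f : ℝ × ℝ → ℝ} {U : Set (ℝ × ℝ)} (hU : IsOpen U) (hf : ∀ z ∈ U, f z = 0) :
    ∀ z ∈ U, py f z = 0 := by
  intro z hz
  unfold py
  have h1 : (fun y => f (z.1, y)) =ᶠ[𝓝 z.2] fun _ => (0 : ℝ) := by
    have h2 : ∀ᶠ y in 𝓝 z.2, ((z.1, y) : ℝ × ℝ) ∈ U := by
      have h3 : Continuous (fun y : ℝ => ((z.1, y) : ℝ × ℝ)) := by fun_prop
      exact h3.continuousAt.eventually (hU.mem_nhds hz)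
    filter_upwards [h2] with y hy using hf _ hy
  rw [h1.deriv_eq]
  simp

/-! ### the divergence theorem for compact support -/

lemma int_px {V v : ℝ × ℝ → ℝ} {K : Set (ℝ × ℝ)} (hK : IsCompact K) (hV : Continuous V)
    (hv : Continuous v) (hV0 : ∀ z, z ∉ K → V z = 0) (hv0 : ∀ z, z ∉ K → v z = 0)
    (hd : ∀ x y, HasDerivAt (fun x' => V (x', y)) (v (x, y)) x) : ∫ z, v z = 0 := by
  have hint : Integrable v := hv.integrable_of_hasCompactSupport (HasCompactSupport.intro hK hv0)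
  rw [Measure.volume_eq_prod] at hint ⊢
  rw [integral_prod_symm _ hint]
  have : ∀ y : ℝ, ∫ x : ℝ, v (x, y) = 0 := by
    intro y
    have c1 : Continuous (fun x : ℝ => v (x, y)) := by fun_prop
    have c2 : Continuous (fun x : ℝ => V (x, y)) := by fun_prop
    have hK1 : IsCompact (Prod.fst '' K) := hK.image continuous_fst
    refine integral_eq_zero_of_hasDerivAt_of_integrable (fun x => hd x y) ?_ ?_
    · refine c1.integrable_of_hasCompactSupport (HasCompactSupport.intro hK1 ?_)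
      intro x hx
      exact hv0 _ fun h => hx ⟨_, h, rfl⟩
    · refine c2.integrable_of_hasCompactSupport (HasCompactSupport.intro hK1 ?_)
      intro x hx
      exact hV0 _ fun h => hx ⟨_, h, rfl⟩
  simp only [this, integral_zero]

lemma int_py {V v : ℝ × ℝ → ℝ} {K : Set (ℝ × ℝ)} (hK : IsCompact K) (hV : Continuous V)
    (hv : Continuous v) (hV0 : ∀ z, z ∉ K → V z = 0) (hv0 : ∀ z, z ∉ K → v z = 0)
    (hd : ∀ x y, HasDerivAt (fun y' => V (x, y')) (v (x, y)) y) : ∫ z, v z = 0 := by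
  have hint : Integrable v := hv.integrable_of_hasCompactSupport (HasCompactSupport.intro hK hv0)
  rw [Measure.volume_eq_prod] at hint ⊢
  rw [integral_prod _ hint]
  have : ∀ x : ℝ, ∫ y : ℝ, v (x, y) = 0 := by
    intro x
    have c1 : Continuous (fun y : ℝ => v (x, y)) := by fun_prop
    have c2 : Continuous (fun y : ℝ => V (x, y)) := by fun_prop
    have hK1 : IsCompact (Prod.snd '' K) := hK.image continuous_snd
    refine integral_eq_zero_of_hasDerivAt_of_integrable (fun y => hd x y) ?_ ?_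
    · refine c1.integrable_of_hasCompactSupport (HasCompactSupport.intro hK1 ?_)
      intro y hy
      exact hv0 _ fun h => hy ⟨_, h, rfl⟩
    · refine c2.integrable_of_hasCompactSupport (HasCompactSupport.intro hK1 ?_)
      intro y hy
      exact hV0 _ fun h => hy ⟨_, h, rfl⟩
  simp only [this, integral_zero]

/-! ### derivatives of the energy density -/

/-- first derivative of `fW` along a curve -/
noncomputable def w1 (l s T a b T1 a1 b1 : ℝ) : ℝ :=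
  fA1 s T * T1 * ((T ^ 2 - a ^ 2 - b ^ 2) / 4) + fA s T * ((T * T1 - a * a1 - b * b1) / 2) -
    fB1 l s T * T1

/-- second derivative of `fW` along a curve -/
noncomputable def w2 (l s T a b T1 a1 b1 T2 a2 b2 : ℝ) : ℝ :=
  fA2 s T * T1 ^ 2 * ((T ^ 2 - a ^ 2 - b ^ 2) / 4) + fA1 s T * T2 * ((T ^ 2 - a ^ 2 - b ^ 2) / 4) +
    fA1 s T * T1 * (T * T1 - a * a1 - b * b1) +
    fA s T * ((T1 ^ 2 + T * T2 - a1 ^ 2 - a * a2 - b1 ^ 2 - b * b2) / 2) -
    fB2 l s T * T1 ^ 2 - fB1 l s T * T2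

section der

variable {l s : ℝ} (hs : 0 < s) (h1 : S_DER)

include hs h1

lemma has_w {u a b : ℝ → ℝ} {x u1 a1 b1 : ℝ} (hu : HasDerivAt u u1 x) (ha : HasDerivAt a a1 x)
    (hb : HasDerivAt b b1 x) :
    HasDerivAt (fun x => fW l s (u x) (a x) (b x)) (w1 l s (u x) (a x) (b x) u1 a1 b1) x := by
  obtain ⟨hA, -, hB, -, -⟩ := (h1 l s hs).1 (u x)
  have e1 : HasDerivAt (fun x => fA s (u x)) (fA1 s (u x) * u1) x := hA.comp x hu
  have e2 : HasDerivAt (fun x => fB l s (u x)) (fB1 l s (u x) * u1) x := hB.comp x hu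
  have e3 : HasDerivAt (fun x => (u x ^ 2 - a x ^ 2 - b x ^ 2) / 4)
      ((2 * u x * u1 - 2 * a x * a1 - 2 * b x * b1) / 4) x := by
    have g1 : HasDerivAt (fun x => u x ^ 2) (2 * u x * u1) x := by
      simpa using hu.fun_pow 2
    have g2 : HasDerivAt (fun x => a x ^ 2) (2 * a x * a1) x := by
      simpa using ha.fun_pow 2
    have g3 : HasDerivAt (fun x => b x ^ 2) (2 * b x * b1) x := by
      simpa using hb.fun_pow 2
    exact ((g1.sub g2).sub g3).div_const 4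
  have e4 := (e1.mul e3).sub e2
  unfold fW
  refine e4.congr_deriv ?_
  unfold w1
  ring

lemma has_w1 {u a b u1 a1 b1 : ℝ → ℝ} {x u2 a2 b2 : ℝ} (hu : HasDerivAt u (u1 x) x)
    (ha : HasDerivAt a (a1 x) x) (hb : HasDerivAt b (b1 x) x) (hu1 : HasDerivAt u1 u2 x)
    (ha1 : HasDerivAt a1 a2 x) (hb1 : HasDerivAt b1 b2 x) :
    HasDerivAt (fun x => w1 l s (u x) (a x) (b x) (u1 x) (a1 x) (b1 x))
      (w2 l s (u x) (a x) (b x) (u1 x) (a1 x) (b1 x) u2 a2 b2) x := by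
  obtain ⟨hA, hA1, -, hB1, -⟩ := (h1 l s hs).1 (u x)
  have e1 : HasDerivAt (fun x => fA s (u x)) (fA1 s (u x) * u1 x) x := hA.comp x hu
  have e1' : HasDerivAt (fun x => fA1 s (u x)) (fA2 s (u x) * u1 x) x := hA1.comp x hu
  have e2 : HasDerivAt (fun x => fB1 l s (u x)) (fB2 l s (u x) * u1 x) x := hB1.comp x hu
  have e3 : HasDerivAt (fun x => (u x ^ 2 - a x ^ 2 - b x ^ 2) / 4)
      ((2 * u x * u1 x - 2 * a x * a1 x - 2 * b x * b1 x) / 4) x := by
    have g1 : HasDerivAt (fun x => u x ^ 2) (2 * u x * u1 x) x := by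
      simpa using hu.fun_pow 2
    have g2 : HasDerivAt (fun x => a x ^ 2) (2 * a x * a1 x) x := by
      simpa using ha.fun_pow 2
    have g3 : HasDerivAt (fun x => b x ^ 2) (2 * b x * b1 x) x := by
      simpa using hb.fun_pow 2
    exact ((g1.sub g2).sub g3).div_const 4
  have e4 : HasDerivAt (fun x => (u x * u1 x - a x * a1 x - b x * b1 x) / 2)
      ((u1 x * u1 x + u x * u2 - (a1 x * a1 x + a x * a2) - (b1 x * b1 x + b x * b2)) / 2) x :=
    (((hu.mul hu1).sub (ha.mul ha1)).sub (hb.mul hb1)).div_const 2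
  have e5 := (((e1'.mul hu1).mul e3).add (e1.mul e4)).sub (e2.mul hu1)
  unfold w1
  refine e5.congr_deriv ?_
  unfold w2
  simp only [Pi.mul_apply]
  ring

lemma has_V {c c1 u a b u1 a1 b1 m : ℝ → ℝ} {x c2 u2 a2 b2 m1 : ℝ} (k : ℝ)
    (hc : HasDerivAt c (c1 x) x) (hc1 : HasDerivAt c1 c2 x) (hu : HasDerivAt u (u1 x) x)
    (ha : HasDerivAt a (a1 x) x) (hb : HasDerivAt b (b1 x) x) (hu1 : HasDerivAt u1 u2 x)
    (ha1 : HasDerivAt a1 a2 x) (hb1 : HasDerivAt b1 b2 x) (hm : HasDerivAt m m1 x) :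
    HasDerivAt (fun x => c x * w1 l s (u x) (a x) (b x) (u1 x) (a1 x) (b1 x) -
        fW l s (u x) (a x) (b x) * c1 x + k * (c x * (fF s (u x) * m x)))
      (c x * w2 l s (u x) (a x) (b x) (u1 x) (a1 x) (b1 x) u2 a2 b2 -
        fW l s (u x) (a x) (b x) * c2 + k * (c1 x * (fF s (u x) * m x) +
          c x * (fF1 s (u x) * u1 x * m x + fF s (u x) * m1))) x := by
  obtain ⟨-, -, -, -, hF⟩ := (h1 l s hs).1 (u x)
  have e1 : HasDerivAt (fun x => fF s (u x)) (fF1 s (u x) * u1 x) x := hF.comp x hu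
  have e2 := has_w (l := l) hs h1 hu ha hb
  have e3 := has_w1 (l := l) hs h1 hu ha hb hu1 ha1 hb1
  have e4 := ((hc.mul e3).sub (e2.mul hc1)).add ((hc.mul (e1.mul hm)).const_mul k)
  refine e4.congr_deriv ?_
  simp only [Pi.mul_apply]
  ring

lemma cf : Continuous (fA s) ∧ Continuous (fA1 s) ∧ Continuous (fB l s) ∧ Continuous (fB1 l s) ∧
    Continuous (fF s) ∧ Continuous (fA2 s) ∧ Continuous (fB2 l s) ∧ Continuous (fF1 s) := by
  obtain ⟨h, h2, h3, h4⟩ := h1 l s hs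
  refine ⟨?_, ?_, ?_, ?_, ?_, h2, h3, h4⟩
  · exact continuous_iff_continuousAt.2 fun T => (h T).1.continuousAt
  · exact continuous_iff_continuousAt.2 fun T => (h T).2.1.continuousAt
  · exact continuous_iff_continuousAt.2 fun T => (h T).2.2.1.continuousAt
  · exact continuous_iff_continuousAt.2 fun T => (h T).2.2.2.1.continuousAt
  · exact continuous_iff_continuousAt.2 fun T => (h T).2.2.2.2.continuousAt

lemma cfW {X : Type} [TopologicalSpace X] {S : Set X} {u a b : X → ℝ} (hu : ContinuousOn u S)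
    (ha : ContinuousOn a S) (hb : ContinuousOn b S) :
    ContinuousOn (fun x => fW l s (u x) (a x) (b x)) S := by
  obtain ⟨c1, c2, c3, c4, c5, c6, c7, c8⟩ := cf (l := l) hs h1
  unfold fW
  have e1 : ContinuousOn (fun x => fA s (u x)) S := c1.comp_continuousOn hu
  have e2 : ContinuousOn (fun x => fB l s (u x)) S := c3.comp_continuousOn hu
  fun_prop

lemma cw1 {X : Type} [TopologicalSpace X] {S : Set X} {u a b u1 a1 b1 : X → ℝ}
    (hu : ContinuousOn u S) (ha : ContinuousOn a S) (hb : ContinuousOn b S)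
    (hu1 : ContinuousOn u1 S) (ha1 : ContinuousOn a1 S) (hb1 : ContinuousOn b1 S) :
    ContinuousOn (fun x => w1 l s (u x) (a x) (b x) (u1 x) (a1 x) (b1 x)) S := by
  obtain ⟨c1, c2, c3, c4, c5, c6, c7, c8⟩ := cf (l := l) hs h1
  unfold w1
  have e1 : ContinuousOn (fun x => fA s (u x)) S := c1.comp_continuousOn hu
  have e2 : ContinuousOn (fun x => fA1 s (u x)) S := c2.comp_continuousOn hu
  have e3 : ContinuousOn (fun x => fB1 l s (u x)) S := c4.comp_continuousOn hu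
  fun_prop

lemma cw2 {X : Type} [TopologicalSpace X] {S : Set X} {u a b u1 a1 b1 u2 a2 b2 : X → ℝ}
    (hu : ContinuousOn u S) (ha : ContinuousOn a S) (hb : ContinuousOn b S)
    (hu1 : ContinuousOn u1 S) (ha1 : ContinuousOn a1 S) (hb1 : ContinuousOn b1 S)
    (hu2 : ContinuousOn u2 S) (ha2 : ContinuousOn a2 S) (hb2 : ContinuousOn b2 S) :
    ContinuousOn (fun x => w2 l s (u x) (a x) (b x) (u1 x) (a1 x) (b1 x) (u2 x) (a2 x) (b2 x)) S := by
  obtain ⟨c1, c2, c3, c4, c5, c6, c7, c8⟩ := cf (l := l) hs h1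
  unfold w2
  have e1 : ContinuousOn (fun x => fA s (u x)) S := c1.comp_continuousOn hu
  have e2 : ContinuousOn (fun x => fA1 s (u x)) S := c2.comp_continuousOn hu
  have e3 : ContinuousOn (fun x => fA2 s (u x)) S := c6.comp_continuousOn hu
  have e4 : ContinuousOn (fun x => fB1 l s (u x)) S := c4.comp_continuousOn hu
  have e5 : ContinuousOn (fun x => fB2 l s (u x)) S := c7.comp_continuousOn hu
  fun_prop

end der

/-! ### integrability on slabs -/

lemma slab {F : ℝ × (ℝ × ℝ) → ℝ} {K : Set (ℝ × ℝ)} (hK : IsCompact K) {t1 t0 : ℝ}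
    (hF : ContinuousOn F (Icc t1 t0 ×ˢ univ)) (h0 : ∀ t z, z ∉ K → F (t, z) = 0) :
    Integrable F ((volume.restrict (Ioc t1 t0)).prod volume) := by
  have h1 : IntegrableOn F (Icc t1 t0 ×ˢ K) :=
    (hF.mono (prod_mono_right (subset_univ _))).integrableOn_compact (isCompact_Icc.prod hK)
  have h2 : IntegrableOn F (Icc t1 t0 ×ˢ univ) := by
    refine h1.of_forall_sdiff_eq_zero (measurableSet_Icc.prod MeasurableSet.univ) ?_
    rintro ⟨t, z⟩ ⟨hz1, hz2⟩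
    refine h0 t z fun hz => hz2 ⟨hz1.1, hz⟩
  have h3 : IntegrableOn F (Ioc t1 t0 ×ˢ univ) :=
    h2.mono_set (prod_mono_left Ioc_subset_Icc_self)
  have h4 : (volume : Measure (ℝ × (ℝ × ℝ))).restrict (Ioc t1 t0 ×ˢ univ) =
      (volume.restrict (Ioc t1 t0)).prod (volume : Measure (ℝ × ℝ)) := by
    rw [Measure.volume_eq_prod, ← Measure.prod_restrict, Measure.restrict_univ]
  rw [IntegrableOn, h4] at h3
  exact h3

/-! ### the fixed time inequality -/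

/-- the remainder after integration by parts -/
noncomputable def RR (l s : ℝ) (T A B : ℝ → ℝ → ℝ → ℝ) (χ : ℝ × ℝ → ℝ) (t : ℝ) (z : ℝ × ℝ) : ℝ :=
  fW l s (T t z.1 z.2) (A t z.1 z.2) (B t z.1 z.2) * lap2 χ z +
  (4 * fF s (T t z.1 z.2) * χ z * (px χ z * (A t z.1 z.2 * dY B t z.1 z.2 - B t z.1 z.2 * dY A t z.1 z.2) -
      py χ z * (A t z.1 z.2 * dX B t z.1 z.2 - B t z.1 z.2 * dX A t z.1 z.2)) -
    χ z ^ 2 * ((fA2 s (T t z.1 z.2) * ((T t z.1 z.2 ^ 2 - A t z.1 z.2 ^ 2 - B t z.1 z.2 ^ 2) / 4) +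
        fA1 s (T t z.1 z.2) * T t z.1 z.2 + fA s (T t z.1 z.2) / 2 - fB2 l s (T t z.1 z.2)) *
        (dX T t z.1 z.2 ^ 2 + dY T t z.1 z.2 ^ 2) -
      fA1 s (T t z.1 z.2) * (A t z.1 z.2 * (dX A t z.1 z.2 * dX T t z.1 z.2 +
          dY A t z.1 z.2 * dY T t z.1 z.2) +
        B t z.1 z.2 * (dX B t z.1 z.2 * dX T t z.1 z.2 + dY B t z.1 z.2 * dY T t z.1 z.2)) -
      fA s (T t z.1 z.2) / 2 * (dX A t z.1 z.2 ^ 2 + dY A t z.1 z.2 ^ 2 + dX B t z.1 z.2 ^ 2 +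
        dY B t z.1 z.2 ^ 2) -
      2 * (fF1 s (T t z.1 z.2) * (dX T t z.1 z.2 * (A t z.1 z.2 * dY B t z.1 z.2 -
          B t z.1 z.2 * dY A t z.1 z.2) -
          dY T t z.1 z.2 * (A t z.1 z.2 * dX B t z.1 z.2 - B t z.1 z.2 * dX A t z.1 z.2)) +
        2 * fF s (T t z.1 z.2) * (dX A t z.1 z.2 * dY B t z.1 z.2 - dY A t z.1 z.2 * dX B t z.1 z.2))))

/-- the cutoff `χ ^ 2` -/
def cc (χ : ℝ × ℝ → ℝ) : ℝ × ℝ → ℝ := fun w => χ w ^ 2

lemma cc_px {χ : ℝ × ℝ → ℝ} (h : ContDiff ℝ (2 + 1 : ℕ) χ) (z : ℝ × ℝ) :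
    px (cc χ) z = 2 * χ z * px χ z := by
  have h1 := hasPx h z.1 z.2
  have h2 : HasDerivAt (fun x' => χ (x', z.2) ^ 2) (2 * χ (z.1, z.2) * px χ (z.1, z.2)) z.1 := by
    simpa using h1.fun_pow 2
  exact h2.deriv

lemma cc_py {χ : ℝ × ℝ → ℝ} (h : ContDiff ℝ (2 + 1 : ℕ) χ) (z : ℝ × ℝ) :
    py (cc χ) z = 2 * χ z * py χ z := by
  have h1 := hasPy h z.1 z.2
  have h2 : HasDerivAt (fun y' => χ (z.1, y') ^ 2) (2 * χ (z.1, z.2) * py χ (z.1, z.2)) z.2 := by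
    simpa using h1.fun_pow 2
  exact h2.deriv

/-- fluxes and their derivatives -/
noncomputable def VX (l s : ℝ) (T A B : ℝ → ℝ → ℝ → ℝ) (χ : ℝ × ℝ → ℝ) (t : ℝ) (z : ℝ × ℝ) : ℝ :=
  cc χ z * w1 l s (T t z.1 z.2) (A t z.1 z.2) (B t z.1 z.2)
        (dX T t z.1 z.2) (dX A t z.1 z.2) (dX B t z.1 z.2) -
      fW l s (T t z.1 z.2) (A t z.1 z.2) (B t z.1 z.2) * px (cc χ) z +
      (-2) * (cc χ z * (fF s (T t z.1 z.2) *
        (A t z.1 z.2 * dY B t z.1 z.2 - B t z.1 z.2 * dY A t z.1 z.2)))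

noncomputable def vX (l s : ℝ) (T A B : ℝ → ℝ → ℝ → ℝ) (χ : ℝ × ℝ → ℝ) (t : ℝ) (z : ℝ × ℝ) : ℝ :=
  cc χ z * w2 l s (T t z.1 z.2) (A t z.1 z.2) (B t z.1 z.2)
        (dX T t z.1 z.2) (dX A t z.1 z.2) (dX B t z.1 z.2) (dX (dX T) t z.1 z.2)
        (dX (dX A) t z.1 z.2) (dX (dX B) t z.1 z.2) -
      fW l s (T t z.1 z.2) (A t z.1 z.2) (B t z.1 z.2) * px (px (cc χ)) z +
      (-2) * (px (cc χ) z * (fF s (T t z.1 z.2) *
        (A t z.1 z.2 * dY B t z.1 z.2 - B t z.1 z.2 * dY A t z.1 z.2)) +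
        cc χ z * (fF1 s (T t z.1 z.2) * dX T t z.1 z.2 *
          (A t z.1 z.2 * dY B t z.1 z.2 - B t z.1 z.2 * dY A t z.1 z.2) +
          fF s (T t z.1 z.2) * (dX A t z.1 z.2 * dY B t z.1 z.2 +
            A t z.1 z.2 * dX (dY B) t z.1 z.2 - (dX B t z.1 z.2 * dY A t z.1 z.2 +
            B t z.1 z.2 * dX (dY A) t z.1 z.2))))

noncomputable def VY (l s : ℝ) (T A B : ℝ → ℝ → ℝ → ℝ) (χ : ℝ × ℝ → ℝ) (t : ℝ) (z : ℝ × ℝ) : ℝ :=
  cc χ z * w1 l s (T t z.1 z.2) (A t z.1 z.2) (B t z.1 z.2)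
        (dY T t z.1 z.2) (dY A t z.1 z.2) (dY B t z.1 z.2) -
      fW l s (T t z.1 z.2) (A t z.1 z.2) (B t z.1 z.2) * py (cc χ) z +
      2 * (cc χ z * (fF s (T t z.1 z.2) *
        (A t z.1 z.2 * dX B t z.1 z.2 - B t z.1 z.2 * dX A t z.1 z.2)))

noncomputable def vY (l s : ℝ) (T A B : ℝ → ℝ → ℝ → ℝ) (χ : ℝ × ℝ → ℝ) (t : ℝ) (z : ℝ × ℝ) : ℝ :=
  cc χ z * w2 l s (T t z.1 z.2) (A t z.1 z.2) (B t z.1 z.2)
        (dY T t z.1 z.2) (dY A t z.1 z.2) (dY B t z.1 z.2) (dY (dY T) t z.1 z.2)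
        (dY (dY A) t z.1 z.2) (dY (dY B) t z.1 z.2) -
      fW l s (T t z.1 z.2) (A t z.1 z.2) (B t z.1 z.2) * py (py (cc χ)) z +
      2 * (py (cc χ) z * (fF s (T t z.1 z.2) *
        (A t z.1 z.2 * dX B t z.1 z.2 - B t z.1 z.2 * dX A t z.1 z.2)) +
        cc χ z * (fF1 s (T t z.1 z.2) * dY T t z.1 z.2 *
          (A t z.1 z.2 * dX B t z.1 z.2 - B t z.1 z.2 * dX A t z.1 z.2) +
          fF s (T t z.1 z.2) * (dY A t z.1 z.2 * dX B t z.1 z.2 +
            A t z.1 z.2 * dY (dX B) t z.1 z.2 - (dY B t z.1 z.2 * dX A t z.1 z.2 +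
            B t z.1 z.2 * dY (dX A) t z.1 z.2))))

section fixed

variable {l s : ℝ} (hs : 0 < s) (h1 : S_DER) {T A B : ℝ → ℝ → ℝ → ℝ} (hH : HeatSys T A B)
  {χ : ℝ × ℝ → ℝ} (hχ : ContDiff ℝ (2 + 1 : ℕ) χ) (hcs : HasCompactSupport χ)

include hs h1 hH hχ hcs

lemma fixed_time {t : ℝ} (ht : 0 < t) :
    Integrable (fun z => RR l s T A B χ t z) ∧
    ∫ z : ℝ × ℝ, χ z ^ 2 * w1 l s (T t z.1 z.2) (A t z.1 z.2) (B t z.1 z.2) (dS T t z.1 z.2)
      (dS A t z.1 z.2) (dS B t z.1 z.2) = ∫ z : ℝ × ℝ, RR l s T A B χ t z := by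
  have hT : Sm (2 + 1) T := hH.sT
  have hA : Sm (2 + 1) A := hH.sA
  have hB : Sm (2 + 1) B := hH.sB
  have hTx : Sm (1 + 1) (dX T) := sm_dX hT
  have hAx : Sm (1 + 1) (dX A) := sm_dX hA
  have hBx : Sm (1 + 1) (dX B) := sm_dX hB
  have hTy : Sm (1 + 1) (dY T) := sm_dY hT
  have hAy : Sm (1 + 1) (dY A) := sm_dY hA
  have hBy : Sm (1 + 1) (dY B) := sm_dY hB
  have hc : ContDiff ℝ (2 + 1 : ℕ) (cc χ) := hχ.pow 2
  have hcx : ContDiff ℝ (1 + 1 : ℕ) (px (cc χ)) := smPx hc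
  have hcy : ContDiff ℝ (1 + 1 : ℕ) (py (cc χ)) := smPy hc
  have hcxx : ContDiff ℝ (1 : ℕ) (px (px (cc χ))) := smPx hcx
  have hcyy : ContDiff ℝ (1 : ℕ) (py (py (cc χ))) := smPy hcy
  have kc : Continuous (cc χ) := hc.continuous
  have kcx : Continuous (px (cc χ)) := hcx.continuous
  have kcy : Continuous (py (cc χ)) := hcy.continuous
  have kcxx : Continuous (px (px (cc χ))) := hcxx.continuous
  have kcyy : Continuous (py (py (cc χ))) := hcyy.continuous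
  have kx : Continuous (px χ) := (smPx hχ).continuous
  have ky : Continuous (py χ) := (smPy hχ).continuous
  have kχ : Continuous χ := hχ.continuous
  -- supports
  have hU : IsOpen (tsupport χ)ᶜ := (isClosed_tsupport χ).isOpen_compl
  have z0 : ∀ z ∈ (tsupport χ)ᶜ, χ z = 0 := fun z hz => image_eq_zero_of_notMem_tsupport hz
  have zc : ∀ z ∈ (tsupport χ)ᶜ, cc χ z = 0 := fun z hz => by
    show χ z ^ 2 = 0
    rw [z0 z hz]; norm_num
  have zcx := px_zero hU zc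
  have zcy := py_zero hU zc
  have zcxx := px_zero hU zcx
  have zcyy := py_zero hU zcy
  have zx := px_zero hU z0
  have zy := py_zero hU z0
  -- continuity of the slices
  have cT : Continuous (fun z : ℝ × ℝ => T t z.1 z.2) := slice (sm_cont hT) ht
  have cA : Continuous (fun z : ℝ × ℝ => A t z.1 z.2) := slice (sm_cont hA) ht
  have cB : Continuous (fun z : ℝ × ℝ => B t z.1 z.2) := slice (sm_cont hB) ht
  have cTx : Continuous (fun z : ℝ × ℝ => dX T t z.1 z.2) := slice (sm_cont hTx) ht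
  have cAx : Continuous (fun z : ℝ × ℝ => dX A t z.1 z.2) := slice (sm_cont hAx) ht
  have cBx : Continuous (fun z : ℝ × ℝ => dX B t z.1 z.2) := slice (sm_cont hBx) ht
  have cTy : Continuous (fun z : ℝ × ℝ => dY T t z.1 z.2) := slice (sm_cont hTy) ht
  have cAy : Continuous (fun z : ℝ × ℝ => dY A t z.1 z.2) := slice (sm_cont hAy) ht
  have cBy : Continuous (fun z : ℝ × ℝ => dY B t z.1 z.2) := slice (sm_cont hBy) ht
  have cTxx : Continuous (fun z : ℝ × ℝ => dX (dX T) t z.1 z.2) := slice (sm_cont (sm_dX hTx)) ht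
  have cAxx : Continuous (fun z : ℝ × ℝ => dX (dX A) t z.1 z.2) := slice (sm_cont (sm_dX hAx)) ht
  have cBxx : Continuous (fun z : ℝ × ℝ => dX (dX B) t z.1 z.2) := slice (sm_cont (sm_dX hBx)) ht
  have cTyy : Continuous (fun z : ℝ × ℝ => dY (dY T) t z.1 z.2) := slice (sm_cont (sm_dY hTy)) ht
  have cAyy : Continuous (fun z : ℝ × ℝ => dY (dY A) t z.1 z.2) := slice (sm_cont (sm_dY hAy)) ht
  have cByy : Continuous (fun z : ℝ × ℝ => dY (dY B) t z.1 z.2) := slice (sm_cont (sm_dY hBy)) ht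
  have cAyx : Continuous (fun z : ℝ × ℝ => dX (dY A) t z.1 z.2) := slice (sm_cont (sm_dX hAy)) ht
  have cByx : Continuous (fun z : ℝ × ℝ => dX (dY B) t z.1 z.2) := slice (sm_cont (sm_dX hBy)) ht
  have cAxy : Continuous (fun z : ℝ × ℝ => dY (dX A) t z.1 z.2) := slice (sm_cont (sm_dY hAx)) ht
  have cBxy : Continuous (fun z : ℝ × ℝ => dY (dX B) t z.1 z.2) := slice (sm_cont (sm_dY hBx)) ht
  obtain ⟨f1, f2, f3, f4, f5, f6, f7, f8⟩ := cf (l := l) hs h1
  have cW : Continuous (fun z : ℝ × ℝ => fW l s (T t z.1 z.2) (A t z.1 z.2) (B t z.1 z.2)) := by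
    rw [← continuousOn_univ]
    exact cfW hs h1 cT.continuousOn cA.continuousOn cB.continuousOn
  have cF : Continuous (fun z : ℝ × ℝ => fF s (T t z.1 z.2)) := f5.comp cT
  have cF1 : Continuous (fun z : ℝ × ℝ => fF1 s (T t z.1 z.2)) := f8.comp cT
  have cfA : Continuous (fun z : ℝ × ℝ => fA s (T t z.1 z.2)) := f1.comp cT
  have cfA1 : Continuous (fun z : ℝ × ℝ => fA1 s (T t z.1 z.2)) := f2.comp cT
  have cfA2 : Continuous (fun z : ℝ × ℝ => fA2 s (T t z.1 z.2)) := f6.comp cT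
  have cfB2 : Continuous (fun z : ℝ × ℝ => fB2 l s (T t z.1 z.2)) := f7.comp cT
  have cmy : Continuous (fun z : ℝ × ℝ =>
      A t z.1 z.2 * dY B t z.1 z.2 - B t z.1 z.2 * dY A t z.1 z.2) :=
    (cA.mul cBy).sub (cB.mul cAy)
  have cmx : Continuous (fun z : ℝ × ℝ =>
      A t z.1 z.2 * dX B t z.1 z.2 - B t z.1 z.2 * dX A t z.1 z.2) :=
    (cA.mul cBx).sub (cB.mul cAx)
  -- the two fluxes
  have kVX : Continuous (VX l s T A B χ t) := by
    have e : Continuous (fun z : ℝ × ℝ => w1 l s (T t z.1 z.2) (A t z.1 z.2) (B t z.1 z.2)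
        (dX T t z.1 z.2) (dX A t z.1 z.2) (dX B t z.1 z.2)) := by
      rw [← continuousOn_univ]
      exact cw1 hs h1 cT.continuousOn cA.continuousOn cB.continuousOn cTx.continuousOn
        cAx.continuousOn cBx.continuousOn
    exact ((kc.mul e).sub (cW.mul kcx)).add (continuous_const.mul (kc.mul (cF.mul cmy)))
  have kVY : Continuous (VY l s T A B χ t) := by
    have e : Continuous (fun z : ℝ × ℝ => w1 l s (T t z.1 z.2) (A t z.1 z.2) (B t z.1 z.2)
        (dY T t z.1 z.2) (dY A t z.1 z.2) (dY B t z.1 z.2)) := by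
      rw [← continuousOn_univ]
      exact cw1 hs h1 cT.continuousOn cA.continuousOn cB.continuousOn cTy.continuousOn
        cAy.continuousOn cBy.continuousOn
    exact ((kc.mul e).sub (cW.mul kcy)).add (continuous_const.mul (kc.mul (cF.mul cmx)))
  have kvX : Continuous (vX l s T A B χ t) := by
    have e : Continuous (fun z : ℝ × ℝ => w2 l s (T t z.1 z.2) (A t z.1 z.2) (B t z.1 z.2)
        (dX T t z.1 z.2) (dX A t z.1 z.2) (dX B t z.1 z.2) (dX (dX T) t z.1 z.2)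
        (dX (dX A) t z.1 z.2) (dX (dX B) t z.1 z.2)) := by
      rw [← continuousOn_univ]
      exact cw2 hs h1 cT.continuousOn cA.continuousOn cB.continuousOn cTx.continuousOn
        cAx.continuousOn cBx.continuousOn cTxx.continuousOn cAxx.continuousOn cBxx.continuousOn
    have e2 : Continuous (fun z : ℝ × ℝ => dX A t z.1 z.2 * dY B t z.1 z.2 +
            A t z.1 z.2 * dX (dY B) t z.1 z.2 - (dX B t z.1 z.2 * dY A t z.1 z.2 +
            B t z.1 z.2 * dX (dY A) t z.1 z.2)) :=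
      ((cAx.mul cBy).add (cA.mul cByx)).sub ((cBx.mul cAy).add (cB.mul cAyx))
    exact ((kc.mul e).sub (cW.mul kcxx)).add (continuous_const.mul ((kcx.mul (cF.mul cmy)).add
      (kc.mul (((cF1.mul cTx).mul cmy).add (cF.mul e2)))))
  have kvY : Continuous (vY l s T A B χ t) := by
    have e : Continuous (fun z : ℝ × ℝ => w2 l s (T t z.1 z.2) (A t z.1 z.2) (B t z.1 z.2)
        (dY T t z.1 z.2) (dY A t z.1 z.2) (dY B t z.1 z.2) (dY (dY T) t z.1 z.2)
        (dY (dY A) t z.1 z.2) (dY (dY B) t z.1 z.2)) := by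
      rw [← continuousOn_univ]
      exact cw2 hs h1 cT.continuousOn cA.continuousOn cB.continuousOn cTy.continuousOn
        cAy.continuousOn cBy.continuousOn cTyy.continuousOn cAyy.continuousOn cByy.continuousOn
    have e2 : Continuous (fun z : ℝ × ℝ => dY A t z.1 z.2 * dX B t z.1 z.2 +
            A t z.1 z.2 * dY (dX B) t z.1 z.2 - (dY B t z.1 z.2 * dX A t z.1 z.2 +
            B t z.1 z.2 * dY (dX A) t z.1 z.2)) :=
      ((cAy.mul cBx).add (cA.mul cBxy)).sub ((cBy.mul cAx).add (cB.mul cAxy))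
    exact ((kc.mul e).sub (cW.mul kcyy)).add (continuous_const.mul ((kcy.mul (cF.mul cmx)).add
      (kc.mul (((cF1.mul cTy).mul cmx).add (cF.mul e2)))))
  have sVX : ∀ z, z ∉ tsupport χ → VX l s T A B χ t z = 0 := by
    intro z hz
    unfold VX
    rw [zc z hz, zcx z hz]; ring
  have sVY : ∀ z, z ∉ tsupport χ → VY l s T A B χ t z = 0 := by
    intro z hz
    unfold VY
    rw [zc z hz, zcy z hz]; ring
  have svX : ∀ z, z ∉ tsupport χ → vX l s T A B χ t z = 0 := by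
    intro z hz
    unfold vX
    rw [zc z hz, zcx z hz, zcxx z hz]; ring
  have svY : ∀ z, z ∉ tsupport χ → vY l s T A B χ t z = 0 := by
    intro z hz
    unfold vY
    rw [zc z hz, zcy z hz, zcyy z hz]; ring
  have iX : ∫ z, vX l s T A B χ t z = 0 := by
    refine int_px hcs kVX kvX sVX svX ?_
    intro x y
    refine has_V (l := l) hs h1 (c := fun x => cc χ (x, y)) (c1 := fun x => px (cc χ) (x, y))
      (u := fun x => T t x y) (a := fun x => A t x y) (b := fun x => B t x y)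
      (u1 := fun x => dX T t x y) (a1 := fun x => dX A t x y) (b1 := fun x => dX B t x y)
      (m := fun x => A t x y * dY B t x y - B t x y * dY A t x y) (-2)
      (hasPx hc x y) (hasPx hcx x y) (sm_hasX hT ht) (sm_hasX hA ht) (sm_hasX hB ht)
      (sm_hasX hTx ht) (sm_hasX hAx ht) (sm_hasX hBx ht) ?_
    exact ((sm_hasX hA ht).mul (sm_hasX hBy ht)).sub ((sm_hasX hB ht).mul (sm_hasX hAy ht))
  have iY : ∫ z, vY l s T A B χ t z = 0 := by
    refine int_py hcs kVY kvY sVY svY ?_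
    intro x y
    refine has_V (l := l) hs h1 (c := fun y => cc χ (x, y)) (c1 := fun y => py (cc χ) (x, y))
      (u := fun y => T t x y) (a := fun y => A t x y) (b := fun y => B t x y)
      (u1 := fun y => dY T t x y) (a1 := fun y => dY A t x y) (b1 := fun y => dY B t x y)
      (m := fun y => A t x y * dX B t x y - B t x y * dX A t x y) 2
      (hasPy hc x y) (hasPy hcy x y) (sm_hasY hT ht) (sm_hasY hA ht) (sm_hasY hB ht)
      (sm_hasY hTy ht) (sm_hasY hAy ht) (sm_hasY hBy ht) ?_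
    exact ((sm_hasY hA ht).mul (sm_hasY hBx ht)).sub ((sm_hasY hB ht).mul (sm_hasY hAx ht))
  -- the remainder
  have kR : Continuous (RR l s T A B χ t) := by
    unfold RR
    have e0 : Continuous (lap2 χ) := kcxx.add kcyy
    have e1 : Continuous (fun z : ℝ × ℝ => 4 * fF s (T t z.1 z.2) * χ z *
        (px χ z * (A t z.1 z.2 * dY B t z.1 z.2 - B t z.1 z.2 * dY A t z.1 z.2) -
      py χ z * (A t z.1 z.2 * dX B t z.1 z.2 - B t z.1 z.2 * dX A t z.1 z.2))) :=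
      ((continuous_const.mul cF).mul kχ).mul ((kx.mul cmy).sub (ky.mul cmx))
    refine (cW.mul e0).add (e1.sub ((kχ.pow 2).mul ?_))
    fun_prop
  have sR : ∀ z, z ∉ tsupport χ → RR l s T A B χ t z = 0 := by
    intro z hz
    unfold RR
    have e0 : lap2 χ z = 0 := by
      show px (px (cc χ)) z + py (py (cc χ)) z = 0
      rw [zcxx z hz, zcyy z hz]; norm_num
    rw [e0, z0 z hz]; ring
  have jR : Integrable (fun z => RR l s T A B χ t z) :=
    kR.integrable_of_hasCompactSupport (HasCompactSupport.intro hcs sR)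
  have jX : Integrable (fun z => vX l s T A B χ t z) :=
    kvX.integrable_of_hasCompactSupport (HasCompactSupport.intro hcs svX)
  have jY : Integrable (fun z => vY l s T A B χ t z) :=
    kvY.integrable_of_hasCompactSupport (HasCompactSupport.intro hcs svY)
  refine ⟨jR, ?_⟩
  have key : ∀ z : ℝ × ℝ, χ z ^ 2 * w1 l s (T t z.1 z.2) (A t z.1 z.2) (B t z.1 z.2)
      (dS T t z.1 z.2) (dS A t z.1 z.2) (dS B t z.1 z.2) =
      (vX l s T A B χ t z + vY l s T A B χ t z) + RR l s T A B χ t z := by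
    intro z
    have g1 := cc_px hχ z
    have g2 := cc_py hχ z
    have g3 : lap2 χ z = px (px (cc χ)) z + py (py (cc χ)) z := rfl
    have g4 : cc χ z = χ z ^ 2 := rfl
    have g5 := sm_symm (n := 1) (f := A) (hH.sA) (x := z.1) (y := z.2) ht
    have g6 := sm_symm (n := 1) (f := B) (hH.sB) (x := z.1) (y := z.2) ht
    rw [hH.hT t z.1 z.2 ht, hH.hA t z.1 z.2 ht, hH.hB t z.1 z.2 ht]
    unfold vX vY RR w1 w2
    rw [g3, g1, g2, g4, g5, g6]
    ring
  simp only [key]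
  have jXY : Integrable (fun z => vX l s T A B χ t z + vY l s T A B χ t z) := jX.add jY
  rw [integral_add jXY jR, integral_add jX jY, iX, iY]
  ring

end fixed

/-- the pointwise inequality -/
lemma RR_le (h2 : S_ALG) {l s : ℝ} (hl : 0 < l) (hs : 0 < s) {T A B : ℝ → ℝ → ℝ → ℝ}
    (hH : HeatSys T A B) {χ : ℝ × ℝ → ℝ} {e : ℝ → ℝ} {t : ℝ} (ht : 0 < t) (he : 0 ≤ e t)
    (hb : ∀ z ∈ tsupport χ, 0 ≤ T t z.1 z.2 ∧
      A t z.1 z.2 ^ 2 + B t z.1 z.2 ^ 2 ≤ T t z.1 z.2 ^ 2 ∧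
      l - e t ≤ (T t z.1 z.2 ^ 2 - A t z.1 z.2 ^ 2 - B t z.1 z.2 ^ 2) / 4) (z : ℝ × ℝ) :
    RR l s T A B χ t z ≤ Er l s T A B χ e t z := by
  by_cases hz : z ∈ tsupport χ
  · obtain ⟨k1, k2, k3⟩ := hb z hz
    have h3 := h2 l s (T t z.1 z.2) (A t z.1 z.2) (B t z.1 z.2) (e t) (dX T t z.1 z.2)
      (dY T t z.1 z.2) (dX A t z.1 z.2) (dY A t z.1 z.2) (dX B t z.1 z.2) (dY B t z.1 z.2)
      (χ z) (px χ z) (py χ z) hl hs k1 k2 he k3 (hH.cX t z.1 z.2 ht) (hH.cY t z.1 z.2 ht)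
    have h4 : fW l s (T t z.1 z.2) (A t z.1 z.2) (B t z.1 z.2) * lap2 χ z ≤
        |fW l s (T t z.1 z.2) (A t z.1 z.2) (B t z.1 z.2)| * |lap2 χ z| := by
      rw [← abs_mul]; exact le_abs_self _
    unfold RR Er
    linarith
  · have hU : IsOpen (tsupport χ)ᶜ := (isClosed_tsupport χ).isOpen_compl
    have z0 : ∀ z ∈ (tsupport χ)ᶜ, χ z = 0 := fun z hz => image_eq_zero_of_notMem_tsupport hz
    have zc : ∀ z ∈ (tsupport χ)ᶜ, cc χ z = 0 := fun z hz => by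
      show χ z ^ 2 = 0
      rw [z0 z hz]; norm_num
    have zcxx := px_zero hU (px_zero hU zc)
    have zcyy := py_zero hU (py_zero hU zc)
    have zx := px_zero hU z0
    have zy := py_zero hU z0
    have e0 : lap2 χ z = 0 := by
      show px (px (cc χ)) z + py (py (cc χ)) z = 0
      rw [zcxx z hz, zcyy z hz]; norm_num
    unfold RR Er
    rw [e0, z0 z hz, zx z hz, zy z hz]
    simp

theorem t_FL (h1 : S_DER) (h2 : S_ALG) : S_FL := by
  intro T A B χ e l s t1 t0 hH hχ3 hcs hl hs ht1 ht10 hec he hb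
  have hχ : ContDiff ℝ (2 + 1 : ℕ) χ := by exact_mod_cast hχ3
  have hT : Sm (2 + 1) T := hH.sT
  have hA : Sm (2 + 1) A := hH.sA
  have hB : Sm (2 + 1) B := hH.sB
  have hU : IsOpen (tsupport χ)ᶜ := (isClosed_tsupport χ).isOpen_compl
  have z0 : ∀ z ∈ (tsupport χ)ᶜ, χ z = 0 := fun z hz => image_eq_zero_of_notMem_tsupport hz
  have zc : ∀ z ∈ (tsupport χ)ᶜ, cc χ z = 0 := fun z hz => by
    show χ z ^ 2 = 0
    rw [z0 z hz]; norm_num
  have zcxx := px_zero hU (px_zero hU zc)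
  have zcyy := py_zero hU (py_zero hU zc)
  have zx := px_zero hU z0
  have zy := py_zero hU z0
  have zl : ∀ z ∈ (tsupport χ)ᶜ, lap2 χ z = 0 := fun z hz => by
    show px (px (cc χ)) z + py (py (cc χ)) z = 0
    rw [zcxx z hz, zcyy z hz]; norm_num
  have hc : ContDiff ℝ (2 + 1 : ℕ) (cc χ) := hχ.pow 2
  have hcx : ContDiff ℝ (1 + 1 : ℕ) (px (cc χ)) := smPx hc
  have hcy : ContDiff ℝ (1 + 1 : ℕ) (py (cc χ)) := smPy hc
  have klap : Continuous (lap2 χ) :=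
    (smPx hcx : ContDiff ℝ (1 : ℕ) _).continuous.add (smPy hcy : ContDiff ℝ (1 : ℕ) _).continuous
  have kx : Continuous (px χ) := (smPx hχ).continuous
  have ky : Continuous (py χ) := (smPy hχ).continuous
  have kχ : Continuous χ := hχ.continuous
  obtain ⟨f1, f2, f3, f4, f5, f6, f7, f8⟩ := cf (l := l) hs h1
  -- joint continuity
  have hsub : (Icc t1 t0 ×ˢ univ : Set (ℝ × ℝ × ℝ)) ⊆ PT := by
    rintro ⟨t, z⟩ ⟨h, -⟩
    exact lt_of_lt_of_le ht1 h.1
  have cT := (sm_cont hT).mono hsub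
  have cA := (sm_cont hA).mono hsub
  have cB := (sm_cont hB).mono hsub
  have cTs := (sm_cont (sm_dS hT)).mono hsub
  have cAs := (sm_cont (sm_dS hA)).mono hsub
  have cBs := (sm_cont (sm_dS hB)).mono hsub
  have cTx := (sm_cont (sm_dX hT)).mono hsub
  have cTy := (sm_cont (sm_dY hT)).mono hsub
  have cW := cfW (l := l) hs h1 cT cA cB
  have cWt := cw1 (l := l) hs h1 cT cA cB cTs cAs cBs
  have c2 : ContinuousOn (fun q : ℝ × ℝ × ℝ => χ q.2 ^ 2) (Icc t1 t0 ×ˢ univ) :=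
    ((kχ.comp continuous_snd).pow 2).continuousOn
  -- the integrand
  set G : ℝ × ℝ × ℝ → ℝ := fun q => χ q.2 ^ 2 * w1 l s (UF T q) (UF A q) (UF B q) (UF (dS T) q)
    (UF (dS A) q) (UF (dS B) q) with hG
  have hGc : ContinuousOn G (Icc t1 t0 ×ˢ univ) := c2.mul cWt
  have hG0 : ∀ t z, z ∉ tsupport χ → G (t, z) = 0 := by
    intro t z hz
    show χ z ^ 2 * _ = 0
    rw [z0 z hz]; ring
  have iG : Integrable G ((volume.restrict (Ioc t1 t0)).prod volume) := slab hcs hGc hG0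
  -- the error
  set E1 : ℝ × ℝ × ℝ → ℝ := fun q => |fW l s (UF T q) (UF A q) (UF B q)| * |lap2 χ q.2| +
    4 * (px χ q.2 ^ 2 + py χ q.2 ^ 2) * (pp (UF T q - s) ^ 3 / s ^ 2) with hE1
  set E2 : ℝ × ℝ × ℝ → ℝ := fun q => χ q.2 ^ 2 * (e q.1 * (4 / s ^ 3) *
    (UF (dX T) q ^ 2 + UF (dY T) q ^ 2)) with hE2
  have cpp : Continuous pp := continuous_id.max continuous_const
  have cE1 : ContinuousOn E1 (Icc t1 t0 ×ˢ univ) := by
    have g1 : ContinuousOn (fun q : ℝ × ℝ × ℝ => |lap2 χ q.2|) (Icc t1 t0 ×ˢ univ) :=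
      (klap.comp continuous_snd).abs.continuousOn
    have g2 : ContinuousOn (fun q : ℝ × ℝ × ℝ => 4 * (px χ q.2 ^ 2 + py χ q.2 ^ 2))
        (Icc t1 t0 ×ˢ univ) :=
      (continuous_const.mul (((kx.comp continuous_snd).pow 2).add
        ((ky.comp continuous_snd).pow 2))).continuousOn
    have g3 : ContinuousOn (fun q : ℝ × ℝ × ℝ => pp (UF T q - s)) (Icc t1 t0 ×ˢ univ) :=
      cpp.comp_continuousOn (cT.sub continuousOn_const)
    exact (cW.abs.mul g1).add (g2.mul ((g3.pow 3).div_const _))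
  have cE2 : ContinuousOn E2 (Icc t1 t0 ×ˢ univ) := by
    have g1 : ContinuousOn (fun q : ℝ × ℝ × ℝ => e q.1) (Icc t1 t0 ×ˢ univ) :=
      hec.comp continuous_fst.continuousOn (fun q hq => hq.1)
    exact c2.mul ((g1.mul continuousOn_const).mul ((cTx.pow 2).add (cTy.pow 2)))
  have hE10 : ∀ t z, z ∉ tsupport χ → E1 (t, z) = 0 := by
    intro t z hz
    show |_| * |lap2 χ z| + 4 * (px χ z ^ 2 + py χ z ^ 2) * _ = 0
    rw [zl z hz, zx z hz, zy z hz]; simp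
  have hE20 : ∀ t z, z ∉ tsupport χ → E2 (t, z) = 0 := by
    intro t z hz
    show χ z ^ 2 * _ = 0
    rw [z0 z hz]; ring
  have iE1 : Integrable E1 ((volume.restrict (Ioc t1 t0)).prod volume) := slab hcs cE1 hE10
  have iE2 : Integrable E2 ((volume.restrict (Ioc t1 t0)).prod volume) := slab hcs cE2 hE20
  set S : Set (ℝ × ℝ × ℝ) := PT ∩ (UF T) ⁻¹' (Ioi s) with hS
  have hSm : MeasurableSet S := ((sm_cont hT).isOpen_inter_preimage PT_open isOpen_Ioi).measurableSet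
  have iE3 : Integrable (fun q => E1 q + S.indicator E2 q)
      ((volume.restrict (Ioc t1 t0)).prod volume) := iE1.add (iE2.indicator hSm)
  have hEr : ∀ t ∈ Ioc t1 t0, ∀ z : ℝ × ℝ, E1 (t, z) + S.indicator E2 (t, z) =
      Er l s T A B χ e t z := by
    intro t ht z
    have htp : 0 < t := lt_trans ht1 ht.1
    unfold Er
    rw [add_assoc]
    by_cases hc : s < T t z.1 z.2
    · have hm : (t, z) ∈ S := ⟨htp, hc⟩
      rw [indicator_of_mem hm, if_pos hc]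
      simp only [hE2, UF]
      ring
    · have hm : (t, z) ∉ S := fun h => hc h.2
      rw [indicator_of_notMem hm, if_neg hc]
      simp only [UF]
      ring
  -- the time derivative
  have hder : ∀ z : ℝ × ℝ, ∫ t in t1..t0, G (t, z) =
      χ z ^ 2 * fW l s (T t0 z.1 z.2) (A t0 z.1 z.2) (B t0 z.1 z.2) -
      χ z ^ 2 * fW l s (T t1 z.1 z.2) (A t1 z.1 z.2) (B t1 z.1 z.2) := by
    intro z
    refine intervalIntegral.integral_eq_sub_of_hasDerivAt
      (f := fun t => χ z ^ 2 * fW l s (T t z.1 z.2) (A t z.1 z.2) (B t z.1 z.2)) ?_ ?_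
    · intro t ht
      rw [uIcc_of_le ht10] at ht
      have htp : 0 < t := lt_of_lt_of_le ht1 ht.1
      exact (has_w (l := l) hs h1 (sm_hasS hT htp) (sm_hasS hA htp) (sm_hasS hB htp)).const_mul _
    · apply ContinuousOn.intervalIntegrable
      rw [uIcc_of_le ht10]
      refine hGc.comp (Continuous.continuousOn (by fun_prop)) ?_
      intro t ht
      exact ⟨ht, mem_univ _⟩
  -- integrability of the end terms
  have hend : ∀ t : ℝ, 0 < t → Integrable (fun z : ℝ × ℝ =>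
      χ z ^ 2 * fW l s (T t z.1 z.2) (A t z.1 z.2) (B t z.1 z.2)) := by
    intro t ht
    have kT : Continuous (fun z : ℝ × ℝ => T t z.1 z.2) := slice (sm_cont hT) ht
    have kA : Continuous (fun z : ℝ × ℝ => A t z.1 z.2) := slice (sm_cont hA) ht
    have kB : Continuous (fun z : ℝ × ℝ => B t z.1 z.2) := slice (sm_cont hB) ht
    have kW : Continuous (fun z : ℝ × ℝ => fW l s (T t z.1 z.2) (A t z.1 z.2) (B t z.1 z.2)) := by
      rw [← continuousOn_univ]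
      exact cfW hs h1 kT.continuousOn kA.continuousOn kB.continuousOn
    refine ((kχ.pow 2).mul kW).integrable_of_hasCompactSupport (HasCompactSupport.intro hcs ?_)
    intro z hz
    show χ z ^ 2 * _ = 0
    rw [z0 z hz]; ring
  rw [← integral_sub (hend t0 (lt_of_lt_of_le ht1 ht10)) (hend t1 ht1)]
  have hsw : ∫ z : ℝ × ℝ, (χ z ^ 2 * fW l s (T t0 z.1 z.2) (A t0 z.1 z.2) (B t0 z.1 z.2) -
      χ z ^ 2 * fW l s (T t1 z.1 z.2) (A t1 z.1 z.2) (B t1 z.1 z.2)) =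
      ∫ t in Ioc t1 t0, ∫ z : ℝ × ℝ, G (t, z) := by
    rw [integral_integral_swap (f := fun t z => G (t, z)) iG]
    refine integral_congr_ae (Eventually.of_forall fun z => ?_)
    show (χ z ^ 2 * fW l s (T t0 z.1 z.2) (A t0 z.1 z.2) (B t0 z.1 z.2) -
      χ z ^ 2 * fW l s (T t1 z.1 z.2) (A t1 z.1 z.2) (B t1 z.1 z.2)) = ∫ t in Ioc t1 t0, G (t, z)
    rw [← hder z, intervalIntegral.integral_of_le ht10]
  rw [hsw, intervalIntegral.integral_of_le ht10]
  have hr : ∫ t in Ioc t1 t0, ∫ z : ℝ × ℝ, Er l s T A B χ e t z =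
      ∫ t in Ioc t1 t0, ∫ z : ℝ × ℝ, (E1 (t, z) + S.indicator E2 (t, z)) := by
    refine setIntegral_congr_fun measurableSet_Ioc ?_
    intro t ht
    show ∫ z : ℝ × ℝ, Er l s T A B χ e t z = ∫ z : ℝ × ℝ, (E1 (t, z) + S.indicator E2 (t, z))
    congr 1
    funext z
    exact (hEr t ht z).symm
  rw [hr]
  refine integral_mono_ae iG.integral_prod_left iE3.integral_prod_left ?_
  have hae := iE3.prod_right_ae
  filter_upwards [hae, ae_restrict_mem measurableSet_Ioc] with t hti ht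
  have htp : 0 < t := lt_trans ht1 ht.1
  have htI : t ∈ Icc t1 t0 := ⟨ht.1.le, ht.2⟩
  obtain ⟨jR, hR⟩ := fixed_time (l := l) hs h1 hH hχ hcs htp
  have e1 : ∫ z : ℝ × ℝ, G (t, z) = ∫ z : ℝ × ℝ, RR l s T A B χ t z := hR
  rw [e1]
  refine integral_mono_ae jR hti (Eventually.of_forall fun z => ?_)
  show RR l s T A B χ t z ≤ E1 (t, z) + S.indicator E2 (t, z)
  rw [hEr t ht z]
  exact RR_le h2 hl hs hH htp (he t htI) (hb t htI) z

end Pool.Agent.W775.WH.FL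

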