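import Pool.Agent.W775.WH.Stm

/-!
Project WH, part GOOD: almost every point is good.
-/

set_option autoImplicit false

open MeasureTheory Set Filter Topology

namespace Pool.Agent.W775.WH.GOOD

lemma meas_h (P : ℝ × ℝ → ℝ × ℝ) (v : ℝ × ℝ) : Measurable (fun z => fderiv ℝ P z v) :=
  measurable_fderiv_apply_const ℝ P v

lemma meas_D0 (P : ℝ × ℝ → ℝ × ℝ) : Measurable (D0 P) := by
  unfold D0 h11 h22 h12
  exact ((meas_h P _).fst.mul (meas_h P _).snd).sub ((meas_h P _).fst.pow_const 2)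

theorem t_GOOD (h1 : S_AED) (h2 : S_SYM) (h3 : S_ARE) : S_GOOD := by
  intro l b Ω u P hl hb hG
  have hop : IsOpen Ω := hG.ma.op
  have hm : MeasurableSet Ω := hop.measurableSet
  have hU : ∀ B : Set (ℝ × ℝ), B ⊆ Ω → (⋃ z ∈ B, Sub Ω u z) = P '' B := by
    intro B hB
    ext p
    simp only [mem_iUnion, mem_image, exists_prop]
    constructor
    · rintro ⟨z, hz, hp⟩
      rw [hG.sub z (hB hz)] at hp
      exact ⟨z, hz, hp.symm⟩
    · rintro ⟨z, hz, rfl⟩
      refine ⟨z, hz, ?_⟩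
      rw [hG.sub z (hB hz)]
      rfl
  have hkey : ∀ s : Set (ℝ × ℝ), MeasurableSet s →
      ENNReal.ofReal l * volume (s ∩ Ω) ≤ ∫⁻ z in s ∩ Ω, ENNReal.ofReal (D0 P z) ∧
      ∫⁻ z in s ∩ Ω, ENNReal.ofReal (D0 P z) ≤ ENNReal.ofReal l⁻¹ * volume (s ∩ Ω) := by
    intro s hs
    have a1 := hG.ma.bd (s ∩ Ω) (hs.inter hm) inter_subset_right
    rw [hU _ inter_subset_right] at a1
    rw [← h3 l b Ω u P hl hb hG (s ∩ Ω) (hs.inter hm) inter_subset_right]
    exact a1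
  have e1 : (fun _ : ℝ × ℝ => ENNReal.ofReal l) ≤ᵐ[volume.restrict Ω]
      fun z => ENNReal.ofReal (D0 P z) := by
    refine ae_le_of_forall_setLIntegral_le_of_sigmaFinite measurable_const ?_
    intro s hs _
    rw [Measure.restrict_restrict hs, setLIntegral_const]
    exact (hkey s hs).1
  have e2 : (fun z => ENNReal.ofReal (D0 P z)) ≤ᵐ[volume.restrict Ω]
      fun _ : ℝ × ℝ => ENNReal.ofReal l⁻¹ := by
    refine ae_le_of_forall_setLIntegral_le_of_sigmaFinite (meas_D0 P).ennreal_ofReal ?_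
    intro s hs _
    rw [Measure.restrict_restrict hs, setLIntegral_const]
    exact (hkey s hs).2
  have e3 : ∀ᵐ z ∂(volume.restrict Ω), z ∈ Ω := ae_restrict_mem hm
  filter_upwards [h1 l b Ω u P hl hb hG, e1, e2, e3] with z hz1 hz2 hz3 hz4
  obtain ⟨c1, c2, c3, c4⟩ := h2 l b Ω u P hl hb hG z hz4 hz1
  refine ⟨hz1, c1, c2, c3, ?_, ?_⟩
  · rcases ENNReal.ofReal_le_ofReal_iff'.1 hz2 with h | h
    · exact h
    · exact absurd h (not_le.2 hl)
  · have hl' : 0 < l⁻¹ := inv_pos.2 hl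
    rcases ENNReal.ofReal_le_ofReal_iff'.1 hz3 with h | h
    · exact h
    · exact h.trans hl'.le

end Pool.Agent.W775.WH.GOOD
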