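import Pool.Agent.W775.WH.Stm

/-! Project WH, part HEAT: smoothness of the heat extension and formulas for its derivatives. -/

set_option autoImplicit false

open MeasureTheory Set Filter Topology

namespace Pool.Agent.W775.WH.HEAT

noncomputable section

/-! ### polynomially bounded functions -/

/-- polynomially bounded measurable functions -/
structure PB (p : ℝ × ℝ → ℝ) : Prop where
  meas : Measurable p
  bd : ∃ (B : ℝ) (m : ℕ), 0 ≤ B ∧ ∀ z, |p z| ≤ B * ((1 + |z.1|) ^ m * (1 + |z.2|) ^ m)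

theorem PB.mul {p q : ℝ × ℝ → ℝ} (hp : PB p) (hq : PB q) : PB fun z => p z * q z := by
  refine ⟨hp.meas.mul hq.meas, ?_⟩
  obtain ⟨B, m, hB, h1⟩ := hp.bd
  obtain ⟨B', m', hB', h2⟩ := hq.bd
  refine ⟨B * B', m + m', mul_nonneg hB hB', fun z => ?_⟩
  rw [abs_mul]
  refine (mul_le_mul (h1 z) (h2 z) (abs_nonneg _) (by positivity)).trans (le_of_eq ?_)
  rw [pow_add, pow_add]
  ring

theorem PB.const (c : ℝ) : PB fun _ => c := by
  refine ⟨measurable_const, |c|, 0, abs_nonneg _, fun z => ?_⟩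
  simp

theorem PB.fst : PB fun z => z.1 := by
  refine ⟨measurable_fst, 1, 1, zero_le_one, fun z => ?_⟩
  have h1 := abs_nonneg z.1
  have h2 := abs_nonneg z.2
  simp only [pow_one, one_mul]
  nlinarith [mul_nonneg h1 h2]

theorem PB.snd : PB fun z => z.2 := by
  refine ⟨measurable_snd, 1, 1, zero_le_one, fun z => ?_⟩
  have h1 := abs_nonneg z.1
  have h2 := abs_nonneg z.2
  simp only [pow_one, one_mul]
  nlinarith [mul_nonneg h1 h2]

theorem PB.add {p q : ℝ × ℝ → ℝ} (hp : PB p) (hq : PB q) : PB fun z => p z + q z := by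
  refine ⟨hp.meas.add hq.meas, ?_⟩
  obtain ⟨B, m, hB, h1⟩ := hp.bd
  obtain ⟨B', m', hB', h2⟩ := hq.bd
  refine ⟨B + B', m + m', add_nonneg hB hB', fun z => ?_⟩
  have hx : 1 ≤ 1 + |z.1| := by linarith [abs_nonneg z.1]
  have hy : 1 ≤ 1 + |z.2| := by linarith [abs_nonneg z.2]
  have e1 : (1 + |z.1|) ^ m * (1 + |z.2|) ^ m ≤ (1 + |z.1|) ^ (m + m') * (1 + |z.2|) ^ (m + m') :=
    mul_le_mul (pow_le_pow_right₀ hx (by omega)) (pow_le_pow_right₀ hy (by omega))
      (by positivity) (by positivity)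
  have e2 : (1 + |z.1|) ^ m' * (1 + |z.2|) ^ m' ≤ (1 + |z.1|) ^ (m + m') * (1 + |z.2|) ^ (m + m') :=
    mul_le_mul (pow_le_pow_right₀ hx (by omega)) (pow_le_pow_right₀ hy (by omega))
      (by positivity) (by positivity)
  calc |p z + q z| ≤ |p z| + |q z| := abs_add_le _ _
    _ ≤ B * ((1 + |z.1|) ^ m * (1 + |z.2|) ^ m) + B' * ((1 + |z.1|) ^ m' * (1 + |z.2|) ^ m') :=
        add_le_add (h1 z) (h2 z)
    _ ≤ B * ((1 + |z.1|) ^ (m + m') * (1 + |z.2|) ^ (m + m')) +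
        B' * ((1 + |z.1|) ^ (m + m') * (1 + |z.2|) ^ (m + m')) :=
        add_le_add (mul_le_mul_of_nonneg_left e1 hB) (mul_le_mul_of_nonneg_left e2 hB')
    _ = _ := by ring

theorem PB.q3 : PB fun z => -(z.1 ^ 2 + z.2 ^ 2) := by
  have h1 := ((PB.fst.mul PB.fst).add (PB.snd.mul PB.snd)).mul (PB.const (-1))
  have h2 : (fun z : ℝ × ℝ => -(z.1 ^ 2 + z.2 ^ 2)) =
      fun z => (z.1 * z.1 + z.2 * z.2) * (-1) := by
    funext z
    ring
  rw [h2]
  exact h1

theorem PB.lip {g : ℝ × ℝ → ℝ} {C : ℝ} (hg : ∀ z w : ℝ × ℝ, |g z - g w| ≤ C * ‖z - w‖) :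
    PB g := by
  have hC : 0 ≤ C := by
    have h1 := hg (1, 0) 0
    have h2 : ‖((1, 0) : ℝ × ℝ) - 0‖ = 1 := by
      rw [sub_zero, Prod.norm_def]
      simp
    rw [h2, mul_one] at h1
    exact (abs_nonneg _).trans h1
  have hcont : Continuous g := by
    have : LipschitzWith ⟨C, hC⟩ g := LipschitzWith.of_dist_le_mul fun z w => by
      rw [Real.dist_eq, dist_eq_norm]
      exact hg z w
    exact this.continuous
  refine ⟨hcont.measurable, |g 0| + C, 1, by positivity, fun z => ?_⟩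
  have h1 := hg z 0
  rw [sub_zero] at h1
  have h2 : ‖z‖ ≤ |z.1| + |z.2| := by
    rw [Prod.norm_def, Real.norm_eq_abs, Real.norm_eq_abs]
    exact max_le (by linarith [abs_nonneg z.2]) (by linarith [abs_nonneg z.1])
  have h3 : |g z| ≤ |g 0| + C * (|z.1| + |z.2|) := by
    have h4 : |g z| ≤ |g 0| + |g z - g 0| := by
      have := abs_add_le (g 0) (g z - g 0)
      rwa [add_sub_cancel] at this
    have h5 := mul_le_mul_of_nonneg_left h2 hC
    linarith
  refine h3.trans ?_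
  simp only [pow_one]
  have e1 := abs_nonneg z.1
  have e2 := abs_nonneg z.2
  have e3 := abs_nonneg (g 0)
  have e4 : 1 + |z.1| + |z.2| ≤ (1 + |z.1|) * (1 + |z.2|) := by nlinarith
  have e5 := mul_le_mul_of_nonneg_left e4 (add_nonneg e3 hC)
  have e6 : 0 ≤ |g 0| * (|z.1| + |z.2|) := by positivity
  nlinarith

/-! ### the exponential integrals -/

/-- the exponential -/
def ex (s : ℝ × ℝ × ℝ) (z : ℝ × ℝ) : ℝ :=
  Real.exp (s.1 * z.1 + s.2.1 * z.2 - s.2.2 * (z.1 ^ 2 + z.2 ^ 2))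

/-- the exponential integral -/
def M (p : ℝ × ℝ → ℝ) (s : ℝ × ℝ × ℝ) : ℝ := ∫ z, p z * ex s z

theorem ex_meas (s : ℝ × ℝ × ℝ) : Measurable (ex s) := by
  have : Continuous (ex s) := by
    unfold ex
    fun_prop
  exact this.measurable

theorem phi (m : ℕ) (S σ : ℝ) (hσ : 0 < σ) : ∃ K : ℝ, 0 ≤ K ∧ ∀ a s s3 : ℝ, |s| ≤ S → σ ≤ s3 →
    (1 + |a|) ^ m * Real.exp (s * a - s3 * a ^ 2) ≤ K * Real.exp (-(σ / 2) * a ^ 2) := by
  refine ⟨m.factorial * Real.exp (1 + (S + 1) ^ 2 / (2 * σ)), by positivity, ?_⟩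
  intro a s s3 hs hs3
  have h1 : (1 + |a|) ^ m ≤ m.factorial * Real.exp (1 + |a|) := by
    have h2 := Real.pow_div_factorial_le_exp (1 + |a|) (by positivity) m
    rwa [div_le_iff₀ (by positivity), mul_comm] at h2
  have h2 : s * a ≤ S * |a| := by
    calc s * a ≤ |s * a| := le_abs_self _
      _ = |s| * |a| := abs_mul _ _
      _ ≤ S * |a| := mul_le_mul_of_nonneg_right hs (abs_nonneg _)
  have h3 : (S + 1) * |a| ≤ (S + 1) ^ 2 / (2 * σ) + σ / 2 * a ^ 2 := by
    have h4 : 0 ≤ (σ * |a| - (S + 1)) ^ 2 / (2 * σ) := by positivity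
    have h5 : (σ * |a| - (S + 1)) ^ 2 / (2 * σ) =
        (S + 1) ^ 2 / (2 * σ) + σ / 2 * a ^ 2 - (S + 1) * |a| := by
      rw [← sq_abs a]
      field_simp
      ring
    linarith
  have h4 : σ * a ^ 2 ≤ s3 * a ^ 2 := mul_le_mul_of_nonneg_right hs3 (sq_nonneg _)
  calc (1 + |a|) ^ m * Real.exp (s * a - s3 * a ^ 2)
      ≤ (m.factorial * Real.exp (1 + |a|)) * Real.exp (S * |a| - σ * a ^ 2) := by
        refine mul_le_mul h1 (Real.exp_le_exp.2 (by linarith)) (Real.exp_pos _).le (by positivity)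
    _ = m.factorial * Real.exp ((1 + |a|) + (S * |a| - σ * a ^ 2)) := by
        rw [mul_assoc, ← Real.exp_add]
    _ ≤ m.factorial * Real.exp ((1 + (S + 1) ^ 2 / (2 * σ)) + -(σ / 2) * a ^ 2) := by
        refine mul_le_mul_of_nonneg_left (Real.exp_le_exp.2 ?_) (by positivity)
        linarith
    _ = _ := by
        rw [mul_assoc, ← Real.exp_add]

theorem PB.bdd {p : ℝ × ℝ → ℝ} (hp : PB p) (S σ : ℝ) (hσ : 0 < σ) :
    ∃ bd : ℝ × ℝ → ℝ, Integrable bd ∧ ∀ (s : ℝ × ℝ × ℝ) (z : ℝ × ℝ), |s.1| ≤ S → |s.2.1| ≤ S →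
      σ ≤ s.2.2 → |p z * ex s z| ≤ bd z := by
  obtain ⟨B, m, hB, h1⟩ := hp.bd
  obtain ⟨K, hK, h2⟩ := phi m S σ hσ
  refine ⟨fun z => (B * K * K) * (Real.exp (-(σ / 2) * z.1 ^ 2) * Real.exp (-(σ / 2) * z.2 ^ 2)),
    ?_, ?_⟩
  · have h3 := integrable_exp_neg_mul_sq (show 0 < σ / 2 by positivity)
    exact (Integrable.mul_prod h3 h3).const_mul _
  · intro s z hs1 hs2 hs3
    have e1 : ex s z = Real.exp (s.1 * z.1 - s.2.2 * z.1 ^ 2) *
        Real.exp (s.2.1 * z.2 - s.2.2 * z.2 ^ 2) := by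
      unfold ex
      rw [← Real.exp_add]
      congr 1
      ring
    rw [abs_mul, e1, abs_of_pos (by positivity :
      0 < Real.exp (s.1 * z.1 - s.2.2 * z.1 ^ 2) * Real.exp (s.2.1 * z.2 - s.2.2 * z.2 ^ 2))]
    calc |p z| * (Real.exp (s.1 * z.1 - s.2.2 * z.1 ^ 2) *
          Real.exp (s.2.1 * z.2 - s.2.2 * z.2 ^ 2))
        ≤ (B * ((1 + |z.1|) ^ m * (1 + |z.2|) ^ m)) *
          (Real.exp (s.1 * z.1 - s.2.2 * z.1 ^ 2) *
          Real.exp (s.2.1 * z.2 - s.2.2 * z.2 ^ 2)) :=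
          mul_le_mul_of_nonneg_right (h1 z) (by positivity)
      _ = B * (((1 + |z.1|) ^ m * Real.exp (s.1 * z.1 - s.2.2 * z.1 ^ 2)) *
          ((1 + |z.2|) ^ m * Real.exp (s.2.1 * z.2 - s.2.2 * z.2 ^ 2))) := by ring
      _ ≤ B * ((K * Real.exp (-(σ / 2) * z.1 ^ 2)) * (K * Real.exp (-(σ / 2) * z.2 ^ 2))) := by
          refine mul_le_mul_of_nonneg_left ?_ hB
          exact mul_le_mul (h2 _ _ _ hs1 hs3) (h2 _ _ _ hs2 hs3) (by positivity) (by positivity)
      _ = _ := by ring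

theorem PB.int {p : ℝ × ℝ → ℝ} (hp : PB p) (s : ℝ × ℝ × ℝ) (hs : 0 < s.2.2) :
    Integrable fun z => p z * ex s z := by
  obtain ⟨bd, h1, h2⟩ := hp.bdd (max |s.1| |s.2.1|) s.2.2 hs
  refine h1.mono' (hp.meas.mul (ex_meas s)).aestronglyMeasurable
    (Filter.Eventually.of_forall fun z => ?_)
  rw [Real.norm_eq_abs]
  exact h2 s z (le_max_left _ _) (le_max_right _ _) le_rfl

/-- coordinates -/
def A1 : ℝ × ℝ × ℝ →L[ℝ] ℝ := ContinuousLinearMap.fst ℝ ℝ (ℝ × ℝ)
/-- coordinates -/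
def A2 : ℝ × ℝ × ℝ →L[ℝ] ℝ :=
  (ContinuousLinearMap.fst ℝ ℝ ℝ).comp (ContinuousLinearMap.snd ℝ ℝ (ℝ × ℝ))
/-- coordinates -/
def A3 : ℝ × ℝ × ℝ →L[ℝ] ℝ :=
  (ContinuousLinearMap.snd ℝ ℝ ℝ).comp (ContinuousLinearMap.snd ℝ ℝ (ℝ × ℝ))

theorem A1_apply (s : ℝ × ℝ × ℝ) : A1 s = s.1 := rfl
theorem A2_apply (s : ℝ × ℝ × ℝ) : A2 s = s.2.1 := rfl
theorem A3_apply (s : ℝ × ℝ × ℝ) : A3 s = s.2.2 := rfl

/-- multiplication by the first coordinate -/
def m1 (p : ℝ × ℝ → ℝ) : ℝ × ℝ → ℝ := fun z => z.1 * p z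
/-- multiplication by the second coordinate -/
def m2 (p : ℝ × ℝ → ℝ) : ℝ × ℝ → ℝ := fun z => z.2 * p z
/-- multiplication by minus the square of the norm -/
def m3 (p : ℝ × ℝ → ℝ) : ℝ × ℝ → ℝ := fun z => -(z.1 ^ 2 + z.2 ^ 2) * p z

theorem PB.m1 {p : ℝ × ℝ → ℝ} (hp : PB p) : PB (m1 p) := PB.fst.mul hp
theorem PB.m2 {p : ℝ × ℝ → ℝ} (hp : PB p) : PB (m2 p) := PB.snd.mul hp
theorem PB.m3 {p : ℝ × ℝ → ℝ} (hp : PB p) : PB (m3 p) := PB.q3.mul hp

theorem int3 {E : Type} [NormedAddCommGroup E] [NormedSpace ℝ E] [CompleteSpace E]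
    (f1 f2 f3 : ℝ × ℝ → ℝ) (h1 : Integrable f1) (h2 : Integrable f2) (h3 : Integrable f3)
    (a1 a2 a3 : E) : ∫ z, (f1 z • a1 + f2 z • a2 + f3 z • a3) =
      (∫ z, f1 z) • a1 + (∫ z, f2 z) • a2 + (∫ z, f3 z) • a3 := by
  have i1 : Integrable fun z => f1 z • a1 := h1.smul_const a1
  have i2 : Integrable fun z => f2 z • a2 := h2.smul_const a2
  have i3 : Integrable fun z => f3 z • a3 := h3.smul_const a3
  have i12 : Integrable fun z => f1 z • a1 + f2 z • a2 := i1.add i2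
  rw [integral_add i12 i3, integral_add i1 i2, integral_smul_const, integral_smul_const,
    integral_smul_const]

theorem hasFD {p : ℝ × ℝ → ℝ} (hp : PB p) (s : ℝ × ℝ × ℝ) (hs : 0 < s.2.2) :
    HasFDerivAt (M p) (M (m1 p) s • A1 + M (m2 p) s • A2 + M (m3 p) s • A3) s := by
  set S : ℝ := max |s.1| |s.2.1| + 1 with hS
  set N : Set (ℝ × ℝ × ℝ) := {s' | |s'.1| < S ∧ |s'.2.1| < S ∧ s.2.2 / 2 < s'.2.2} with hN
  have hNo : IsOpen N := by
    have h1 : IsOpen {s' : ℝ × ℝ × ℝ | |s'.1| < S} :=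
      isOpen_lt (by fun_prop) continuous_const
    have h2 : IsOpen {s' : ℝ × ℝ × ℝ | |s'.2.1| < S} :=
      isOpen_lt (by fun_prop) continuous_const
    have h3 : IsOpen {s' : ℝ × ℝ × ℝ | s.2.2 / 2 < s'.2.2} :=
      isOpen_lt continuous_const (by fun_prop)
    exact h1.inter (h2.inter h3)
  have hsN : s ∈ N := by
    refine ⟨?_, ?_, by linarith⟩
    · have := le_max_left |s.1| |s.2.1|
      linarith
    · have := le_max_right |s.1| |s.2.1|
      linarith
  obtain ⟨b1, hb1, hb1'⟩ := hp.m1.bdd S (s.2.2 / 2) (by linarith)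
  obtain ⟨b2, hb2, hb2'⟩ := hp.m2.bdd S (s.2.2 / 2) (by linarith)
  obtain ⟨b3, hb3, hb3'⟩ := hp.m3.bdd S (s.2.2 / 2) (by linarith)
  set F' : ℝ × ℝ × ℝ → ℝ × ℝ → (ℝ × ℝ × ℝ →L[ℝ] ℝ) := fun s' z =>
    (m1 p z * ex s' z) • A1 + (m2 p z * ex s' z) • A2 + (m3 p z * ex s' z) • A3 with hF'
  have hF'int : ∫ z, F' s z = M (m1 p) s • A1 + M (m2 p) s • A2 + M (m3 p) s • A3 := by
    simp only [hF', M]
    exact int3 _ _ _ (hp.m1.int s hs) (hp.m2.int s hs) (hp.m3.int s hs) A1 A2 A3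
  rw [← hF'int]
  have h := hasFDerivAt_integral_of_dominated_of_fderiv_le (𝕜 := ℝ) (μ := volume)
    (F := fun s' z => p z * ex s' z) (F' := F') (x₀ := s) (s := N)
    (bound := fun z => b1 z * ‖A1‖ + b2 z * ‖A2‖ + b3 z * ‖A3‖)
    (hNo.mem_nhds hsN)
    (Filter.Eventually.of_forall fun s' => (hp.meas.mul (ex_meas s')).aestronglyMeasurable)
    (hp.int s hs) ?_ ?_ ?_ ?_
  · exact h
  · refine Measurable.aestronglyMeasurable ?_
    refine Measurable.add (Measurable.add ?_ ?_) ?_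
    · exact (hp.m1.meas.mul (ex_meas s)).smul_const A1
    · exact (hp.m2.meas.mul (ex_meas s)).smul_const A2
    · exact (hp.m3.meas.mul (ex_meas s)).smul_const A3
  · refine Filter.Eventually.of_forall fun z s' hs' => ?_
    have k1 : |s'.1| ≤ S := hs'.1.le
    have k2 : |s'.2.1| ≤ S := hs'.2.1.le
    have k3 : s.2.2 / 2 ≤ s'.2.2 := hs'.2.2.le
    have e1 := hb1' s' z k1 k2 k3
    have e2 := hb2' s' z k1 k2 k3
    have e3 := hb3' s' z k1 k2 k3
    simp only [hF']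
    refine (norm_add_le _ _).trans (add_le_add ((norm_add_le _ _).trans (add_le_add ?_ ?_)) ?_)
    · rw [norm_smul, Real.norm_eq_abs]
      exact mul_le_mul_of_nonneg_right e1 (norm_nonneg _)
    · rw [norm_smul, Real.norm_eq_abs]
      exact mul_le_mul_of_nonneg_right e2 (norm_nonneg _)
    · rw [norm_smul, Real.norm_eq_abs]
      exact mul_le_mul_of_nonneg_right e3 (norm_nonneg _)
  · exact ((hb1.mul_const _).add (hb2.mul_const _)).add (hb3.mul_const _)
  · refine Filter.Eventually.of_forall fun z s' _ => ?_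
    set Lz : ℝ × ℝ × ℝ →L[ℝ] ℝ := z.1 • A1 + z.2 • A2 + (-(z.1 ^ 2 + z.2 ^ 2)) • A3 with hLz
    have e1 : ∀ s'' : ℝ × ℝ × ℝ, ex s'' z = Real.exp (Lz s'') := by
      intro s''
      unfold ex
      congr 1
      simp only [hLz, add_apply, smul_apply, A1_apply, A2_apply, A3_apply, smul_eq_mul]
      ring
    have e2 := (Lz.hasFDerivAt (x := s')).exp.const_mul (p z)
    have e3 : (fun s'' => p z * ex s'' z) = fun s'' => p z * Real.exp (Lz s'') := by
      funext s''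
      rw [e1]
    rw [e3]
    refine e2.congr_fderiv ?_
    simp only [hF', m1, m2, m3, e1, hLz, smul_add, smul_smul]
    refine congrArg₂ _ (congrArg₂ _ ?_ ?_) ?_
    · congr 1
      ring
    · congr 1
      ring
    · congr 1
      ring

theorem isOpen_half : IsOpen {s : ℝ × ℝ × ℝ | 0 < s.2.2} :=
  isOpen_lt continuous_const (by fun_prop)

theorem smooth (n : ℕ) : ∀ p : ℝ × ℝ → ℝ, PB p →
    ContDiffOn ℝ n (M p) {s : ℝ × ℝ × ℝ | 0 < s.2.2} := by
  induction n with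
  | zero =>
    intro p hp
    rw [Nat.cast_zero, contDiffOn_zero]
    intro s hs
    exact (hasFD hp s hs).continuousAt.continuousWithinAt
  | succ n ih =>
    intro p hp
    rw [show ((n + 1 : ℕ) : WithTop ℕ∞) = (n : WithTop ℕ∞) + 1 by push_cast; rfl,
      contDiffOn_succ_iff_fderiv_of_isOpen isOpen_half]
    refine ⟨fun s hs => (hasFD hp s hs).differentiableAt.differentiableWithinAt, ?_, ?_⟩
    · intro h
      exact absurd h (by simp)
    · refine ContDiffOn.congr (f := fun s => M (m1 p) s • A1 + M (m2 p) s • A2 + M (m3 p) s • A3)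
        ?_ (fun s hs => (hasFD hp s hs).fderiv)
      exact (((ih _ hp.m1).smul contDiffOn_const).add ((ih _ hp.m2).smul contDiffOn_const)).add
        ((ih _ hp.m3).smul contDiffOn_const)

/-! ### change of variables -/

/-- parameters -/
def sx (t x y : ℝ) : ℝ × ℝ × ℝ := (x / (2 * t), y / (2 * t), 1 / (4 * t))

/-- the Gaussian factor -/
def EE (t x y : ℝ) : ℝ := (4 * Real.pi * t)⁻¹ * Real.exp (-(x ^ 2 + y ^ 2) / (4 * t))

theorem sx_pos (t x y : ℝ) (ht : 0 < t) : 0 < (sx t x y).2.2 := by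
  simp only [sx]
  positivity

theorem cov (q g : ℝ × ℝ → ℝ) (t x y : ℝ) (ht : 0 < t) :
    ∫ w : ℝ × ℝ, q w * gam w * g (x - Real.sqrt t * w.1, y - Real.sqrt t * w.2) =
      EE t x y * ∫ z : ℝ × ℝ, (q ((x - z.1) / Real.sqrt t, (y - z.2) / Real.sqrt t) * g z) *
        ex (sx t x y) z := by
  set r := Real.sqrt t with hr
  have hr0 : 0 < r := Real.sqrt_pos.2 ht
  have hrt : r ^ 2 = t := Real.sq_sqrt ht.le
  set G : ℝ × ℝ → ℝ := fun v => q (v.1 / r, v.2 / r) * gam (v.1 / r, v.2 / r) *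
    g (x - v.1, y - v.2) with hG
  have h1 : ∀ w : ℝ × ℝ, q w * gam w * g (x - r * w.1, y - r * w.2) = G (r • w) := by
    intro w
    simp only [hG, Prod.smul_fst, Prod.smul_snd, smul_eq_mul]
    rw [mul_div_cancel_left₀ _ hr0.ne', mul_div_cancel_left₀ _ hr0.ne']
  simp only [h1]
  rw [MeasureTheory.Measure.integral_comp_smul, ← integral_sub_left_eq_self G volume (x, y)]
  have h2 : |(r ^ Module.finrank ℝ (ℝ × ℝ))⁻¹| = t⁻¹ := by
    rw [Module.finrank_prod, Module.finrank_self, show (1 + 1 : ℕ) = 2 from rfl, hrt,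
      abs_of_pos (by positivity)]
  rw [h2, smul_eq_mul, ← integral_const_mul, ← integral_const_mul]
  refine integral_congr_ae (Filter.Eventually.of_forall fun z => ?_)
  simp only [hG, Prod.fst_sub, Prod.snd_sub, sub_sub_cancel]
  have h3 : gam ((x - z.1) / r, (y - z.2) / r) = (4 * Real.pi)⁻¹ *
      (Real.exp (-(x ^ 2 + y ^ 2) / (4 * t)) * ex (sx t x y) z) := by
    unfold gam ex sx
    rw [← Real.exp_add]
    congr 2
    simp only
    rw [← hrt]
    field_simp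
    ring
  rw [h3]
  unfold EE
  field_simp

theorem comb {g : ℝ × ℝ → ℝ} (hg : PB g) (s : ℝ × ℝ × ℝ) (hs : 0 < s.2.2)
    (c0 c1 c2 c11 c12 c22 : ℝ) :
    ∫ z : ℝ × ℝ, ((c0 + c1 * z.1 + c2 * z.2 + c11 * z.1 ^ 2 + c12 * (z.1 * z.2) +
      c22 * z.2 ^ 2) * g z) * ex s z =
    c0 * M g s + c1 * M (m1 g) s + c2 * M (m2 g) s + c11 * M (m1 (m1 g)) s +
      c12 * M (m1 (m2 g)) s + c22 * M (m2 (m2 g)) s := by
  have h1 : (fun z : ℝ × ℝ => ((c0 + c1 * z.1 + c2 * z.2 + c11 * z.1 ^ 2 + c12 * (z.1 * z.2) +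
      c22 * z.2 ^ 2) * g z) * ex s z) = fun z =>
      c0 * (g z * ex s z) + c1 * (m1 g z * ex s z) + c2 * (m2 g z * ex s z) +
      c11 * (m1 (m1 g) z * ex s z) + c12 * (m1 (m2 g) z * ex s z) +
      c22 * (m2 (m2 g) z * ex s z) := by
    funext z
    simp only [m1, m2]
    ring
  rw [h1]
  have i0 := (hg.int s hs).const_mul c0
  have i1 := (hg.m1.int s hs).const_mul c1
  have i2 := (hg.m2.int s hs).const_mul c2
  have i3 := (hg.m1.m1.int s hs).const_mul c11
  have i4 := (hg.m2.m1.int s hs).const_mul c12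
  have i5 := (hg.m2.m2.int s hs).const_mul c22
  have j1 : Integrable fun z => c0 * (g z * ex s z) + c1 * (m1 g z * ex s z) := i0.add i1
  have j2 : Integrable fun z => c0 * (g z * ex s z) + c1 * (m1 g z * ex s z) +
    c2 * (m2 g z * ex s z) := j1.add i2
  have j3 : Integrable fun z => c0 * (g z * ex s z) + c1 * (m1 g z * ex s z) +
    c2 * (m2 g z * ex s z) + c11 * (m1 (m1 g) z * ex s z) := j2.add i3
  have j4 : Integrable fun z => c0 * (g z * ex s z) + c1 * (m1 g z * ex s z) +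
    c2 * (m2 g z * ex s z) + c11 * (m1 (m1 g) z * ex s z) + c12 * (m1 (m2 g) z * ex s z) :=
    j3.add i4
  rw [integral_add j4 i5, integral_add j3 i4, integral_add j2 i3, integral_add j1 i2,
    integral_add i0 i1]
  simp only [integral_const_mul]
  rfl

/-- the integral with a quadratic weight -/
theorem quad {g : ℝ × ℝ → ℝ} (hg : PB g) (q : ℝ × ℝ → ℝ) (t x y : ℝ) (ht : 0 < t)
    (c0 c1 c2 c11 c12 c22 : ℝ)
    (hq : ∀ z : ℝ × ℝ, q ((x - z.1) / Real.sqrt t, (y - z.2) / Real.sqrt t) =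
      c0 + c1 * z.1 + c2 * z.2 + c11 * z.1 ^ 2 + c12 * (z.1 * z.2) + c22 * z.2 ^ 2) :
    ∫ w : ℝ × ℝ, q w * gam w * g (x - Real.sqrt t * w.1, y - Real.sqrt t * w.2) =
      EE t x y * (c0 * M g (sx t x y) + c1 * M (m1 g) (sx t x y) + c2 * M (m2 g) (sx t x y) +
        c11 * M (m1 (m1 g)) (sx t x y) + c12 * M (m1 (m2 g)) (sx t x y) +
        c22 * M (m2 (m2 g)) (sx t x y)) := by
  rw [cov q g t x y ht, ← comb hg (sx t x y) (sx_pos t x y ht) c0 c1 c2 c11 c12 c22]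
  simp only [hq]

section formulas

variable {g : ℝ × ℝ → ℝ} (hg : PB g) {t x y : ℝ} (ht : 0 < t)

include hg ht

theorem HU_eq : HU g t x y = EE t x y * M g (sx t x y) := by
  have h := quad hg (fun _ => 1) t x y ht 1 0 0 0 0 0 (fun z => by ring)
  unfold HU
  simp only [one_mul, zero_mul, add_zero] at h
  exact h

theorem HX_eq : HX g t x y =
    -(EE t x y * (x * M g (sx t x y) - M (m1 g) (sx t x y))) / (2 * t) := by
  have hr0 : 0 < Real.sqrt t := Real.sqrt_pos.2 ht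
  have hrt : Real.sqrt t ^ 2 = t := Real.sq_sqrt ht.le
  have h := quad hg (fun w => -w.1 / 2) t x y ht (-x / (2 * Real.sqrt t)) (1 / (2 * Real.sqrt t))
    0 0 0 0 (fun z => by field_simp; ring)
  unfold HX
  rw [h]
  simp only [zero_mul, add_zero]
  field_simp
  rw [hrt]
  ring

theorem HY_eq : HY g t x y =
    -(EE t x y * (y * M g (sx t x y) - M (m2 g) (sx t x y))) / (2 * t) := by
  have hr0 : 0 < Real.sqrt t := Real.sqrt_pos.2 ht
  have hrt : Real.sqrt t ^ 2 = t := Real.sq_sqrt ht.le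
  have h := quad hg (fun w => -w.2 / 2) t x y ht (-y / (2 * Real.sqrt t)) 0
    (1 / (2 * Real.sqrt t)) 0 0 0 (fun z => by field_simp; ring)
  unfold HY
  rw [h]
  simp only [zero_mul, add_zero]
  field_simp
  rw [hrt]
  ring

theorem HT_eq : HT g t x y = EE t x y *
    (((x ^ 2 + y ^ 2) * M g (sx t x y) - 2 * x * M (m1 g) (sx t x y) -
      2 * y * M (m2 g) (sx t x y) + M (m1 (m1 g)) (sx t x y) + M (m2 (m2 g)) (sx t x y)) /
        (4 * t ^ 2) - M g (sx t x y) / t) := by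
  have hr0 : 0 < Real.sqrt t := Real.sqrt_pos.2 ht
  have hrt : Real.sqrt t ^ 2 = t := Real.sq_sqrt ht.le
  have h := quad hg (fun w => (w.1 ^ 2 + w.2 ^ 2) / 4 - 1) t x y ht
    ((x ^ 2 + y ^ 2) / (4 * t) - 1) (-(2 * x) / (4 * t)) (-(2 * y) / (4 * t)) (1 / (4 * t)) 0
    (1 / (4 * t)) (fun z => by
      simp only [div_pow, hrt]
      field_simp
      ring)
  unfold HT
  rw [h]
  field_simp
  ring

theorem HA_eq : HA g t x y = EE t x y *
    (((x ^ 2 - y ^ 2) * M g (sx t x y) - 2 * x * M (m1 g) (sx t x y) +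
      2 * y * M (m2 g) (sx t x y) + M (m1 (m1 g)) (sx t x y) - M (m2 (m2 g)) (sx t x y)) /
        (4 * t ^ 2)) := by
  have hr0 : 0 < Real.sqrt t := Real.sqrt_pos.2 ht
  have hrt : Real.sqrt t ^ 2 = t := Real.sq_sqrt ht.le
  have h := quad hg (fun w => (w.1 ^ 2 - w.2 ^ 2) / 4) t x y ht
    ((x ^ 2 - y ^ 2) / (4 * t)) (-(2 * x) / (4 * t)) ((2 * y) / (4 * t)) (1 / (4 * t)) 0
    (-(1 / (4 * t))) (fun z => by
      simp only [div_pow, hrt]
      field_simp
      ring)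
  unfold HA
  rw [h]
  field_simp
  ring

theorem HB_eq : HB g t x y = EE t x y *
    ((x * y * M g (sx t x y) - y * M (m1 g) (sx t x y) - x * M (m2 g) (sx t x y) +
      M (m1 (m2 g)) (sx t x y)) / (2 * t ^ 2)) := by
  have hr0 : 0 < Real.sqrt t := Real.sqrt_pos.2 ht
  have hrt : Real.sqrt t * Real.sqrt t = t := Real.mul_self_sqrt ht.le
  have h := quad hg (fun w => w.1 * w.2 / 2) t x y ht
    (x * y / (2 * t)) (-y / (2 * t)) (-x / (2 * t)) 0 (1 / (2 * t)) 0 (fun z => by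
      simp only [div_mul_div_comm, hrt]
      field_simp
      ring)
  unfold HB
  rw [h]
  field_simp
  ring

end formulas

/-! ### derivatives -/

theorem E_x (t x y : ℝ) (ht : 0 < t) :
    HasDerivAt (fun x' => EE t x' y) (EE t x y * (-x / (2 * t))) x := by
  unfold EE
  have h1 : HasDerivAt (fun x' : ℝ => -(x' ^ 2 + y ^ 2) / (4 * t)) (-x / (2 * t)) x := by
    have h2 := (((hasDerivAt_id x).pow 2).add_const (y ^ 2)).neg.div_const (4 * t)
    refine h2.congr_deriv ?_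
    simp only [id]
    field_simp
    ring
  have h3 := (h1.exp).const_mul ((4 * Real.pi * t)⁻¹)
  refine h3.congr_deriv ?_
  ring

theorem E_y (t x y : ℝ) (ht : 0 < t) :
    HasDerivAt (fun y' => EE t x y') (EE t x y * (-y / (2 * t))) y := by
  unfold EE
  have h1 : HasDerivAt (fun y' : ℝ => -(x ^ 2 + y' ^ 2) / (4 * t)) (-y / (2 * t)) y := by
    have h2 := (((hasDerivAt_id y).pow 2).const_add (x ^ 2)).neg.div_const (4 * t)
    refine h2.congr_deriv ?_
    simp only [id]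
    field_simp
    ring
  have h3 := (h1.exp).const_mul ((4 * Real.pi * t)⁻¹)
  refine h3.congr_deriv ?_
  ring

theorem E_t (t x y : ℝ) (ht : 0 < t) :
    HasDerivAt (fun t' => EE t' x y) (EE t x y * (-1 / t + (x ^ 2 + y ^ 2) / (4 * t ^ 2))) t := by
  unfold EE
  have h0 : 4 * Real.pi * t ≠ 0 := by positivity
  have h1 : HasDerivAt (fun t' : ℝ => -(x ^ 2 + y ^ 2) / (4 * t'))
      ((x ^ 2 + y ^ 2) / (4 * t ^ 2)) t := by
    have h2 := (hasDerivAt_const t (-(x ^ 2 + y ^ 2))).div ((hasDerivAt_id t).const_mul 4)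
      (by simp only [id]; positivity)
    refine h2.congr_deriv ?_
    simp only [id]
    field_simp
    ring
  have h2 : HasDerivAt (fun t' : ℝ => (4 * Real.pi * t')⁻¹) (-(4 * Real.pi * t)⁻¹ / t) t := by
    have h3 := ((hasDerivAt_id t).const_mul (4 * Real.pi)).inv (by simp only [id]; exact h0)
    refine h3.congr_deriv ?_
    simp only [id]
    field_simp
  have h3 := h2.mul h1.exp
  refine h3.congr_deriv ?_
  ring

theorem M_x {p : ℝ × ℝ → ℝ} (hp : PB p) (t x y : ℝ) (ht : 0 < t) :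
    HasDerivAt (fun x' => M p (sx t x' y)) (M (m1 p) (sx t x y) / (2 * t)) x := by
  have h1 : HasDerivAt (fun x' => sx t x' y) (1 / (2 * t), 0, 0) x :=
    ((hasDerivAt_id x).div_const (2 * t)).prodMk ((hasDerivAt_const x _).prodMk
      (hasDerivAt_const x _))
  have h2 := (hasFD hp (sx t x y) (sx_pos t x y ht)).comp_hasDerivAt x h1
  refine h2.congr_deriv ?_
  simp only [add_apply, smul_apply, A1_apply, A2_apply, A3_apply, smul_eq_mul]
  ring

theorem M_y {p : ℝ × ℝ → ℝ} (hp : PB p) (t x y : ℝ) (ht : 0 < t) :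
    HasDerivAt (fun y' => M p (sx t x y')) (M (m2 p) (sx t x y) / (2 * t)) y := by
  have h1 : HasDerivAt (fun y' => sx t x y') (0, 1 / (2 * t), 0) y :=
    (hasDerivAt_const y _).prodMk (((hasDerivAt_id y).div_const (2 * t)).prodMk
      (hasDerivAt_const y _))
  have h2 := (hasFD hp (sx t x y) (sx_pos t x y ht)).comp_hasDerivAt y h1
  refine h2.congr_deriv ?_
  simp only [add_apply, smul_apply, A1_apply, A2_apply, A3_apply, smul_eq_mul]
  ring

theorem M_t {p : ℝ × ℝ → ℝ} (hp : PB p) (t x y : ℝ) (ht : 0 < t) :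
    HasDerivAt (fun t' => M p (sx t' x y)) (-(x * M (m1 p) (sx t x y)) / (2 * t ^ 2) -
      y * M (m2 p) (sx t x y) / (2 * t ^ 2) - M (m3 p) (sx t x y) / (4 * t ^ 2)) t := by
  have ha : ∀ c d : ℝ, 0 < d → HasDerivAt (fun t' : ℝ => c / (d * t')) (-c / (d * t ^ 2)) t := by
    intro c d hd
    have h2 := (hasDerivAt_const t c).div ((hasDerivAt_id t).const_mul d)
      (by simp only [id]; positivity)
    refine h2.congr_deriv ?_
    simp only [id]
    field_simp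
    ring
  have h1 : HasDerivAt (fun t' => sx t' x y)
      (-x / (2 * t ^ 2), -y / (2 * t ^ 2), -1 / (4 * t ^ 2)) t :=
    (ha x 2 (by norm_num)).prodMk ((ha y 2 (by norm_num)).prodMk (ha 1 4 (by norm_num)))
  have h2 := (hasFD hp (sx t x y) (sx_pos t x y ht)).comp_hasDerivAt t h1
  refine h2.congr_deriv ?_
  simp only [add_apply, smul_apply, A1_apply, A2_apply, A3_apply, smul_eq_mul]
  ring

theorem M_m3 {g : ℝ × ℝ → ℝ} (hg : PB g) (s : ℝ × ℝ × ℝ) (hs : 0 < s.2.2) :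
    M (m3 g) s = -(M (m1 (m1 g)) s + M (m2 (m2 g)) s) := by
  have h := comb hg s hs 0 0 0 (-1) 0 (-1)
  have h1 : M (m3 g) s = ∫ z : ℝ × ℝ, ((0 + 0 * z.1 + 0 * z.2 + -1 * z.1 ^ 2 +
      0 * (z.1 * z.2) + -1 * z.2 ^ 2) * g z) * ex s z := by
    unfold M m3
    congr 1
    funext z
    ring
  rw [h1, h]
  ring

theorem t_HEAT : S_HEAT := by
  intro g C hgC
  have hg : PB g := PB.lip hgC
  refine ⟨?_, ?_⟩
  · -- smoothness
    unfold Sm
    have h1 : ContDiffOn ℝ ((6 : ℕ) : WithTop ℕ∞) (fun q : ℝ × ℝ × ℝ => sx q.1 q.2.1 q.2.2)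
        {q : ℝ × ℝ × ℝ | 0 < q.1} := by
      unfold sx
      have e1 : ContDiffOn ℝ ((6 : ℕ) : WithTop ℕ∞) (fun q : ℝ × ℝ × ℝ => q.1)
        {q : ℝ × ℝ × ℝ | 0 < q.1} := contDiff_fst.contDiffOn
      have e2 : ContDiffOn ℝ ((6 : ℕ) : WithTop ℕ∞) (fun q : ℝ × ℝ × ℝ => q.2.1)
        {q : ℝ × ℝ × ℝ | 0 < q.1} := (contDiff_fst.comp contDiff_snd).contDiffOn
      have e3 : ContDiffOn ℝ ((6 : ℕ) : WithTop ℕ∞) (fun q : ℝ × ℝ × ℝ => q.2.2)
        {q : ℝ × ℝ × ℝ | 0 < q.1} := (contDiff_snd.comp contDiff_snd).contDiffOn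
      have n1 : ∀ q ∈ {q : ℝ × ℝ × ℝ | 0 < q.1}, 2 * q.1 ≠ 0 := fun q hq => by
        have : 0 < q.1 := hq
        positivity
      have n2 : ∀ q ∈ {q : ℝ × ℝ × ℝ | 0 < q.1}, 4 * q.1 ≠ 0 := fun q hq => by
        have : 0 < q.1 := hq
        positivity
      exact (e2.div (contDiffOn_const.mul e1) n1).prodMk
        ((e3.div (contDiffOn_const.mul e1) n1).prodMk
          (contDiffOn_const.div (contDiffOn_const.mul e1) n2))
    have h2 : ContDiffOn ℝ ((6 : ℕ) : WithTop ℕ∞) (fun q : ℝ × ℝ × ℝ => EE q.1 q.2.1 q.2.2)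
        {q : ℝ × ℝ × ℝ | 0 < q.1} := by
      unfold EE
      have e1 : ContDiffOn ℝ ((6 : ℕ) : WithTop ℕ∞) (fun q : ℝ × ℝ × ℝ => q.1)
        {q : ℝ × ℝ × ℝ | 0 < q.1} := contDiff_fst.contDiffOn
      have e2 : ContDiffOn ℝ ((6 : ℕ) : WithTop ℕ∞) (fun q : ℝ × ℝ × ℝ => q.2.1)
        {q : ℝ × ℝ × ℝ | 0 < q.1} := (contDiff_fst.comp contDiff_snd).contDiffOn
      have e3 : ContDiffOn ℝ ((6 : ℕ) : WithTop ℕ∞) (fun q : ℝ × ℝ × ℝ => q.2.2)
        {q : ℝ × ℝ × ℝ | 0 < q.1} := (contDiff_snd.comp contDiff_snd).contDiffOn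
      have n1 : ∀ q ∈ {q : ℝ × ℝ × ℝ | 0 < q.1}, 4 * Real.pi * q.1 ≠ 0 := fun q hq => by
        have : 0 < q.1 := hq
        positivity
      have n2 : ∀ q ∈ {q : ℝ × ℝ × ℝ | 0 < q.1}, 4 * q.1 ≠ 0 := fun q hq => by
        have : 0 < q.1 := hq
        positivity
      exact ((contDiffOn_const.mul e1).inv n1).mul
        ((((e2.pow 2).add (e3.pow 2)).neg.div (contDiffOn_const.mul e1) n2).exp)
    have h3 : ContDiffOn ℝ ((6 : ℕ) : WithTop ℕ∞)
        (fun q : ℝ × ℝ × ℝ => M g (sx q.1 q.2.1 q.2.2)) {q : ℝ × ℝ × ℝ | 0 < q.1} :=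
      (smooth 6 g hg).comp h1 fun q hq => sx_pos q.1 q.2.1 q.2.2 hq
    exact (h2.mul h3).congr fun q hq => HU_eq hg hq
  · intro t x y ht
    have ht0 : t ≠ 0 := ht.ne'
    -- first derivatives
    have dXU : ∀ x', dX (HU g) t x' y = HX g t x' y := by
      intro x'
      unfold dX
      have h1 : (fun x' => HU g t x' y) = fun x' => EE t x' y * M g (sx t x' y) := by
        funext x''
        exact HU_eq hg ht
      rw [h1]
      refine ((E_x t x' y ht).mul (M_x hg t x' y ht)).deriv.trans ?_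
      rw [HX_eq hg ht]
      field_simp
      ring
    have dYU : ∀ x' y', dY (HU g) t x' y' = HY g t x' y' := by
      intro x' y'
      unfold dY
      have h1 : (fun y' => HU g t x' y') = fun y' => EE t x' y' * M g (sx t x' y') := by
        funext y''
        exact HU_eq hg ht
      rw [h1]
      refine ((E_y t x' y' ht).mul (M_y hg t x' y' ht)).deriv.trans ?_
      rw [HY_eq hg ht]
      field_simp
      ring
    refine ⟨dXU x, dYU x y, ?_, ?_, ?_, ?_⟩
    · -- second derivative in x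
      have h1 : (fun x' => dX (HU g) t x' y) = fun x' =>
          -(EE t x' y * (x' * M g (sx t x' y) - M (m1 g) (sx t x' y))) / (2 * t) := by
        funext x'
        rw [dXU, HX_eq hg ht]
      have h2 := ((E_x t x y ht).mul (((hasDerivAt_id x).mul (M_x hg t x y ht)).sub
        (M_x hg.m1 t x y ht))).neg.div_const (2 * t)
      have h3 : dX (dX (HU g)) t x y = deriv (fun x' => dX (HU g) t x' y) x := rfl
      rw [h3, h1]
      refine h2.deriv.trans ?_
      rw [HT_eq hg ht, HA_eq hg ht]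
      simp only [id, Pi.mul_apply, Pi.sub_apply]
      field_simp
      ring
    · have h1 : (fun y' => dY (HU g) t x y') = fun y' =>
          -(EE t x y' * (y' * M g (sx t x y') - M (m2 g) (sx t x y'))) / (2 * t) := by
        funext y'
        rw [dYU, HY_eq hg ht]
      have h2 := ((E_y t x y ht).mul (((hasDerivAt_id y).mul (M_y hg t x y ht)).sub
        (M_y hg.m2 t x y ht))).neg.div_const (2 * t)
      have h3 : dY (dY (HU g)) t x y = deriv (fun y' => dY (HU g) t x y') y := rfl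
      rw [h3, h1]
      refine h2.deriv.trans ?_
      rw [HT_eq hg ht, HA_eq hg ht]
      simp only [id, Pi.mul_apply, Pi.sub_apply]
      field_simp
      ring
    · have h1 : (fun x' => dY (HU g) t x' y) = fun x' =>
          -(EE t x' y * (y * M g (sx t x' y) - M (m2 g) (sx t x' y))) / (2 * t) := by
        funext x'
        rw [dYU, HY_eq hg ht]
      have h2 := ((E_x t x y ht).mul (((M_x hg t x y ht).const_mul y).sub
        (M_x hg.m2 t x y ht))).neg.div_const (2 * t)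
      have h3 : dX (dY (HU g)) t x y = deriv (fun x' => dY (HU g) t x' y) x := rfl
      rw [h3, h1]
      refine h2.deriv.trans ?_
      rw [HB_eq hg ht]
      simp only [id, Pi.mul_apply, Pi.sub_apply]
      field_simp
      ring
    · have h1 : (fun t' => HU g t' x y) =ᶠ[𝓝 t] fun t' => EE t' x y * M g (sx t' x y) := by
        filter_upwards [lt_mem_nhds ht] with t' ht'
        exact HU_eq hg ht'
      have h2 := (E_t t x y ht).mul (M_t hg t x y ht)
      have h3 : dS (HU g) t x y = deriv (fun t' => HU g t' x y) t := rfl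
      rw [h3, h1.deriv_eq]
      refine h2.deriv.trans ?_
      rw [HT_eq hg ht, M_m3 hg _ (sx_pos t x y ht)]
      field_simp
      ring

end

end Pool.Agent.W775.WH.HEAT
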