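import Pool.Agent.W775.WH.Stm

set_option autoImplicit false

open MeasureTheory Set Filter Topology

namespace Pool.Agent.W775.WH.HF1

open Pool.Agent.W775.WH

/-! ### partial derivatives -/

lemma hasDeriv_x {f : ℝ × ℝ → ℝ} (hf : Differentiable ℝ f) (x y : ℝ) :
    HasDerivAt (fun x => f (x, y)) (fderiv ℝ f (x, y) (1, 0)) x := by
  have h1 : HasDerivAt (fun x : ℝ => (x, y)) ((1 : ℝ), (0 : ℝ)) x :=
    (hasDerivAt_id x).prodMk (hasDerivAt_const x y)
  exact (hf (x, y)).hasFDerivAt.comp_hasDerivAt x h1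

lemma hasDeriv_y {f : ℝ × ℝ → ℝ} (hf : Differentiable ℝ f) (x y : ℝ) :
    HasDerivAt (fun y => f (x, y)) (fderiv ℝ f (x, y) (0, 1)) y := by
  have h1 : HasDerivAt (fun y : ℝ => (x, y)) ((0 : ℝ), (1 : ℝ)) y :=
    (hasDerivAt_const y x).prodMk (hasDerivAt_id y)
  exact (hf (x, y)).hasFDerivAt.comp_hasDerivAt y h1

lemma px_eq {f : ℝ × ℝ → ℝ} (hf : Differentiable ℝ f) : px f = fun z => fderiv ℝ f z (1, 0) := by
  funext z
  exact (hasDeriv_x hf z.1 z.2).deriv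

lemma py_eq {f : ℝ × ℝ → ℝ} (hf : Differentiable ℝ f) : py f = fun z => fderiv ℝ f z (0, 1) := by
  funext z
  exact (hasDeriv_y hf z.1 z.2).deriv

lemma hd_x {f : ℝ × ℝ → ℝ} (hf : Differentiable ℝ f) (x y : ℝ) :
    HasDerivAt (fun x => f (x, y)) (px f (x, y)) x := by
  rw [px_eq hf]
  exact hasDeriv_x hf x y

lemma hd_y {f : ℝ × ℝ → ℝ} (hf : Differentiable ℝ f) (x y : ℝ) :
    HasDerivAt (fun y => f (x, y)) (py f (x, y)) y := by
  rw [py_eq hf]
  exact hasDeriv_y hf x y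

lemma cd_x {f : ℝ × ℝ → ℝ} {n : ℕ} (hf : ContDiff ℝ ((n + 1 : ℕ) : WithTop ℕ∞) f) :
    ContDiff ℝ n (px f) := by
  rw [px_eq (hf.differentiable (by simp))]
  exact (hf.fderiv_right (m := (n : WithTop ℕ∞)) (by push_cast; exact le_rfl)).clm_apply contDiff_const

lemma cd_y {f : ℝ × ℝ → ℝ} {n : ℕ} (hf : ContDiff ℝ ((n + 1 : ℕ) : WithTop ℕ∞) f) :
    ContDiff ℝ n (py f) := by
  rw [py_eq (hf.differentiable (by simp))]
  exact (hf.fderiv_right (m := (n : WithTop ℕ∞)) (by push_cast; exact le_rfl)).clm_apply contDiff_const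

lemma symm2 {f : ℝ × ℝ → ℝ} (hf : ContDiff ℝ ((2 : ℕ) : WithTop ℕ∞) f) : px (py f) = py (px f) := by
  have hd : Differentiable ℝ f := hf.differentiable (by simp)
  have hx : Differentiable ℝ (px f) := (cd_x (n := 1) hf).differentiable (by simp)
  have hy : Differentiable ℝ (py f) := (cd_y (n := 1) hf).differentiable (by simp)
  have hdd : Differentiable ℝ (fderiv ℝ f) :=
    (hf.fderiv_right (m := ((1 : ℕ) : WithTop ℕ∞)) (by norm_num)).differentiable (by simp)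
  rw [px_eq hy, py_eq hx, px_eq hd, py_eq hd]
  have h1 : ∀ z u v : ℝ × ℝ, fderiv ℝ (fun z => fderiv ℝ f z v) z u =
      fderiv ℝ (fderiv ℝ f) z u v := by
    intro z u v
    have := ((hdd z).hasFDerivAt.clm_apply (hasFDerivAt_const v z)).fderiv
    rw [this]
    simp
  funext z
  rw [h1, h1]
  exact (hf.contDiffAt.isSymmSndFDerivAt (by simp)) (1, 0) (0, 1)

/-! ### integrals along a side -/

lemma side {P Q ρ E : ℝ} (hρ : 0 < ρ) (hE : 0 < E) (hPQ : Q - P = 4 * ρ) {n φ ψ : ℝ → ℝ}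
    (hn : Continuous n) (n0 : ∀ t, 0 ≤ n t) (hint : ∫ t in P..Q, n t ≤ E / ρ)
    {M p q : ℝ} (hM : 0 ≤ M) (hp : P ≤ p) (hpq : p ≤ q) (hq : q ≤ Q)
    (hφ : ∀ t ∈ Icc p q, |φ t| ≤ M) (hψ : ∀ t, ψ t ^ 2 ≤ n t) :
    |∫ t in p..q, φ t * ψ t| ≤ M * (2 * √E) := by
  have hs : 0 < √E := Real.sqrt_pos.2 hE
  have hss : √E * √E = E := Real.mul_self_sqrt hE.le
  set α : ℝ := ρ / √E with hα
  have hα0 : 0 < α := div_pos hρ hs
  have hb : ∀ t, |ψ t| ≤ α * n t + 1 / (4 * α) := by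
    intro t
    have h1 : 0 ≤ (2 * α * |ψ t| - 1) ^ 2 := sq_nonneg _
    have h2 : |ψ t| ^ 2 ≤ n t := by rw [sq_abs]; exact hψ t
    have h3 : 4 * α * |ψ t| ≤ 4 * α * (α * |ψ t| ^ 2 + 1 / (4 * α)) := by
      have : 4 * α * (α * |ψ t| ^ 2 + 1 / (4 * α)) = 4 * α ^ 2 * |ψ t| ^ 2 + 1 := by
        field_simp
      rw [this]
      nlinarith
    have h4 : |ψ t| ≤ α * |ψ t| ^ 2 + 1 / (4 * α) := le_of_mul_le_mul_left h3 (by positivity)
    have h5 := mul_le_mul_of_nonneg_left h2 hα0.le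
    linarith
  have hcont : Continuous (fun t => M * (α * n t + 1 / (4 * α))) := by fun_prop
  have h1 : ‖∫ t in p..q, φ t * ψ t‖ ≤ ∫ t in p..q, M * (α * n t + 1 / (4 * α)) := by
    refine intervalIntegral.norm_integral_le_of_norm_le hpq ?_ (hcont.intervalIntegrable _ _)
    refine Filter.Eventually.of_forall fun t ht => ?_
    rw [Real.norm_eq_abs, abs_mul]
    exact mul_le_mul (hφ t ⟨ht.1.le, ht.2⟩) (hb t) (abs_nonneg _) hM
  rw [Real.norm_eq_abs] at h1
  refine h1.trans ?_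
  rw [intervalIntegral.integral_const_mul]
  refine mul_le_mul_of_nonneg_left ?_ hM
  rw [intervalIntegral.integral_add ((hn.const_mul α |>.intervalIntegrable _ _))
    (continuous_const.intervalIntegrable _ _), intervalIntegral.integral_const_mul,
    intervalIntegral.integral_const, smul_eq_mul]
  have h2 : ∫ t in p..q, n t ≤ ∫ t in P..Q, n t :=
    intervalIntegral.integral_mono_interval hp hpq hq (Filter.Eventually.of_forall fun t => n0 t)
      (hn.intervalIntegrable _ _)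
  have h3 : α * (∫ t in p..q, n t) ≤ √E := by
    calc α * (∫ t in p..q, n t) ≤ α * (E / ρ) :=
          mul_le_mul_of_nonneg_left (h2.trans hint) hα0.le
      _ = √E := by
          rw [hα]
          field_simp
          rw [sq, hss]
  have h4 : (q - p) * (1 / (4 * α)) ≤ √E := by
    calc (q - p) * (1 / (4 * α)) ≤ (4 * ρ) * (1 / (4 * α)) :=
          mul_le_mul_of_nonneg_right (by linarith) (by positivity)
      _ = √E := by
          rw [hα]
          field_simp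
  linarith

/-- choice of a good line -/
lemma pick {g : ℝ → ℝ} (hg : Continuous g) {a b E : ℝ} (hab : a < b)
    (h : ∫ x in Ioo a b, g x ≤ E) : ∃ t ∈ Icc a b, g t ≤ E / (b - a) := by
  by_contra hcon
  push Not at hcon
  have h1 : 0 < ∫ x in a..b, (g x - E / (b - a)) := by
    refine intervalIntegral.intervalIntegral_pos_of_pos_on
      ((hg.sub continuous_const).intervalIntegrable _ _) (fun x hx => ?_) hab
    have := hcon x ⟨hx.1.le, hx.2.le⟩
    linarith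
  rw [intervalIntegral.integral_sub (hg.intervalIntegrable _ _)
    (continuous_const.intervalIntegrable _ _), intervalIntegral.integral_const, smul_eq_mul,
    intervalIntegral.integral_of_le hab.le, integral_Ioc_eq_integral_Ioo] at h1
  have h2 : (b - a) * (E / (b - a)) = E := mul_div_cancel₀ _ (by linarith)
  linarith

/-! ### Fubini -/

lemma int_rect {f : ℝ × ℝ → ℝ} (hf : Continuous f) {s t : Set ℝ} {a b c d : ℝ}
    (hs : s ⊆ Icc a b) (ht : t ⊆ Icc c d) : IntegrableOn f (s ×ˢ t) :=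
  (hf.continuousOn.integrableOn_compact (isCompact_Icc.prod isCompact_Icc)).mono_set
    (prod_mono hs ht)

lemma fub1 {f : ℝ × ℝ → ℝ} (hf : Continuous f) {s : Set ℝ} {a b c d : ℝ} (hs : s ⊆ Icc a b)
    (hcd : c ≤ d) : ∫ z in s ×ˢ Icc c d, f z = ∫ x in s, ∫ y in c..d, f (x, y) := by
  have h := int_rect hf hs (subset_refl (Icc c d))
  rw [Measure.volume_eq_prod] at h ⊢
  rw [setIntegral_prod f h]
  congr 1
  funext x
  rw [intervalIntegral.integral_of_le hcd, integral_Icc_eq_integral_Ioc]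

lemma fub2 {f : ℝ × ℝ → ℝ} (hf : Continuous f) {t : Set ℝ} {a b c d : ℝ} (ht : t ⊆ Icc c d)
    (hab : a ≤ b) : ∫ z in Icc a b ×ˢ t, f z = ∫ y in t, ∫ x in a..b, f (x, y) := by
  have h := fub1 (f := fun z => f z.swap) (hf.comp continuous_swap) ht hab
  rw [Measure.volume_eq_prod] at h ⊢
  rw [← setIntegral_prod_swap, h]
  rfl

lemma cont1 {f : ℝ × ℝ → ℝ} (hf : Continuous f) (c d : ℝ) :
    Continuous (fun x => ∫ y in c..d, f (x, y)) :=
  intervalIntegral.continuous_parametric_intervalIntegral_of_continuous' (f := fun x y => f (x, y))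
    (by exact hf) c d

lemma cont2 {f : ℝ × ℝ → ℝ} (hf : Continuous f) (a b : ℝ) :
    Continuous (fun y => ∫ x in a..b, f (x, y)) :=
  intervalIntegral.continuous_parametric_intervalIntegral_of_continuous' (f := fun y x => f (x, y))
    (by exact hf.comp continuous_swap) a b

/-- data of a good rectangle -/
structure Bd (N : ℝ × ℝ → ℝ) (z : ℝ × ℝ) (ρ E a1 a2 b1 b2 : ℝ) : Prop where
  hρ : 0 < ρ
  hE : 0 < E
  cN : Continuous N
  N0 : ∀ z, 0 ≤ N z
  a1l : z.1 - 2 * ρ ≤ a1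
  a1u : a1 ≤ z.1 - ρ
  a2l : z.1 + ρ ≤ a2
  a2u : a2 ≤ z.1 + 2 * ρ
  b1l : z.2 - 2 * ρ ≤ b1
  b1u : b1 ≤ z.2 - ρ
  b2l : z.2 + ρ ≤ b2
  b2u : b2 ≤ z.2 + 2 * ρ
  ia1 : ∫ y in (z.2 - 2 * ρ)..(z.2 + 2 * ρ), N (a1, y) ≤ E / ρ
  ia2 : ∫ y in (z.2 - 2 * ρ)..(z.2 + 2 * ρ), N (a2, y) ≤ E / ρ
  ib1 : ∫ x in (z.1 - 2 * ρ)..(z.1 + 2 * ρ), N (x, b1) ≤ E / ρ
  ib2 : ∫ x in (z.1 - 2 * ρ)..(z.1 + 2 * ρ), N (x, b2) ≤ E / ρ

lemma cb_eq (z : ℝ × ℝ) (r : ℝ) : Metric.closedBall z r =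
    Icc (z.1 - r) (z.1 + r) ×ˢ Icc (z.2 - r) (z.2 + r) := by
  rw [← Real.closedBall_eq_Icc, ← Real.closedBall_eq_Icc, closedBall_prod_same]

lemma strip {N : ℝ × ℝ → ℝ} (cN : Continuous N) (N0 : ∀ z, 0 ≤ N z) {S Q1 Q2 : Set (ℝ × ℝ)}
    (hQ2 : IsCompact Q2) (m1 : MeasurableSet Q1)
    (h12 : Q1 ⊆ Q2) (hS : S ⊆ Q2) (hd : Disjoint S Q1) {E : ℝ}
    (hE : (∫ x in Q2, N x) - (∫ x in Q1, N x) ≤ E) : ∫ x in S, N x ≤ E := by
  have i2 : IntegrableOn N Q2 := cN.continuousOn.integrableOn_compact hQ2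
  have h1 : ∫ x in S ∪ Q1, N x = (∫ x in S, N x) + ∫ x in Q1, N x :=
    setIntegral_union hd m1 (i2.mono_set hS) (i2.mono_set h12)
  have h2 : ∫ x in S ∪ Q1, N x ≤ ∫ x in Q2, N x :=
    setIntegral_mono_set i2 (Filter.Eventually.of_forall fun x => N0 x)
      (Filter.Eventually.of_forall (union_subset hS h12))
  linarith

lemma exists_bd {N : ℝ × ℝ → ℝ} (cN : Continuous N) (N0 : ∀ z, 0 ≤ N z) (z : ℝ × ℝ) {ρ E : ℝ}
    (hρ : 0 < ρ) (hE0 : 0 < E) (hE : (∫ x in Metric.closedBall z (2 * ρ), N x) -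
      (∫ x in Metric.closedBall z ρ, N x) ≤ E) : ∃ a1 a2 b1 b2, Bd N z ρ E a1 a2 b1 b2 := by
  have hc : IsCompact (Metric.closedBall z (2 * ρ)) := isCompact_closedBall _ _
  have m1 : MeasurableSet (Metric.closedBall z ρ) := Metric.isClosed_closedBall.measurableSet
  have h12 : Metric.closedBall z ρ ⊆ Metric.closedBall z (2 * ρ) :=
    Metric.closedBall_subset_closedBall (by linarith)
  have kx : ∀ a b : ℝ, a < b → b - a = ρ → z.1 - 2 * ρ ≤ a → b ≤ z.1 + 2 * ρ →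
      (b ≤ z.1 - ρ ∨ z.1 + ρ ≤ a) →
      ∃ t ∈ Icc a b, ∫ y in (z.2 - 2 * ρ)..(z.2 + 2 * ρ), N (t, y) ≤ E / ρ := by
    intro a b hab hb h1 h2 h3
    have h4 : ∫ x in Ioo a b ×ˢ Icc (z.2 - 2 * ρ) (z.2 + 2 * ρ), N x ≤ E := by
      refine strip cN N0 hc m1 h12 ?_ ?_ hE
      · rw [cb_eq]
        exact prod_mono (fun x hx => ⟨by linarith [hx.1], by linarith [hx.2]⟩) subset_rfl
      · rw [cb_eq, Set.disjoint_left]
        rintro ⟨x, y⟩ ⟨hx, -⟩ ⟨hx', -⟩
        simp only [mem_Ioo, mem_Icc] at hx hx'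
        rcases h3 with h3 | h3 <;> linarith [hx.1, hx.2, hx'.1, hx'.2]
    rw [fub1 cN (Ioo_subset_Icc_self) (by linarith)] at h4
    obtain ⟨t, ht, ht'⟩ := pick (cont1 cN _ _) hab h4
    rw [hb] at ht'
    exact ⟨t, ht, ht'⟩
  have ky : ∀ a b : ℝ, a < b → b - a = ρ → z.2 - 2 * ρ ≤ a → b ≤ z.2 + 2 * ρ →
      (b ≤ z.2 - ρ ∨ z.2 + ρ ≤ a) →
      ∃ t ∈ Icc a b, ∫ x in (z.1 - 2 * ρ)..(z.1 + 2 * ρ), N (x, t) ≤ E / ρ := by
    intro a b hab hb h1 h2 h3
    have h4 : ∫ x in Icc (z.1 - 2 * ρ) (z.1 + 2 * ρ) ×ˢ Ioo a b, N x ≤ E := by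
      refine strip cN N0 hc m1 h12 ?_ ?_ hE
      · rw [cb_eq]
        exact prod_mono subset_rfl (fun x hx => ⟨by linarith [hx.1], by linarith [hx.2]⟩)
      · rw [cb_eq, Set.disjoint_left]
        rintro ⟨x, y⟩ ⟨-, hx⟩ ⟨-, hx'⟩
        simp only [mem_Ioo, mem_Icc] at hx hx'
        rcases h3 with h3 | h3 <;> linarith [hx.1, hx.2, hx'.1, hx'.2]
    rw [fub2 cN (Ioo_subset_Icc_self) (by linarith)] at h4
    obtain ⟨t, ht, ht'⟩ := pick (cont2 cN _ _) hab h4
    rw [hb] at ht'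
    exact ⟨t, ht, ht'⟩
  obtain ⟨a1, ha1, ia1⟩ := kx (z.1 - 2 * ρ) (z.1 - ρ) (by linarith) (by ring) le_rfl
    (by linarith) (Or.inl le_rfl)
  obtain ⟨a2, ha2, ia2⟩ := kx (z.1 + ρ) (z.1 + 2 * ρ) (by linarith) (by ring) (by linarith) le_rfl
    (Or.inr le_rfl)
  obtain ⟨b1, hb1, ib1⟩ := ky (z.2 - 2 * ρ) (z.2 - ρ) (by linarith) (by ring) le_rfl
    (by linarith) (Or.inl le_rfl)
  obtain ⟨b2, hb2, ib2⟩ := ky (z.2 + ρ) (z.2 + 2 * ρ) (by linarith) (by ring) (by linarith) le_rfl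
    (Or.inr le_rfl)
  exact ⟨a1, a2, b1, b2, hρ, hE0, cN, N0, ha1.1, ha1.2, ha2.1, ha2.2, hb1.1, hb1.2, hb2.1, hb2.2,
    ia1, ia2, ib1, ib2⟩

/-- oscillation along a segment -/
lemma seg {P Q ρ E : ℝ} (hρ : 0 < ρ) (hE : 0 < E) (hPQ : Q - P = 4 * ρ) {n g g' : ℝ → ℝ}
    (hn : Continuous n) (n0 : ∀ t, 0 ≤ n t) (hint : ∫ t in P..Q, n t ≤ E / ρ)
    (hg : ∀ t, HasDerivAt g (g' t) t) (cg : Continuous g') (hb : ∀ t, g' t ^ 2 ≤ n t)
    {p q : ℝ} (hp : P ≤ p) (hpq : p ≤ q) (hq : q ≤ Q) : |g q - g p| ≤ 2 * √E := by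
  have h1 := side hρ hE hPQ hn n0 hint (φ := fun _ => 1) (ψ := g') (M := 1) zero_le_one hp hpq hq
    (fun t _ => by simp) hb
  have h2 : ∫ t in p..q, (1 : ℝ) * g' t = g q - g p := by
    simp only [one_mul]
    exact intervalIntegral.integral_eq_sub_of_hasDerivAt (fun t _ => hg t)
      (cg.intervalIntegrable _ _)
  rw [h2] at h1
  linarith

lemma osc {N : ℝ × ℝ → ℝ} {z : ℝ × ℝ} {ρ E a1 a2 b1 b2 : ℝ} (h : Bd N z ρ E a1 a2 b1 b2)
    {f : ℝ × ℝ → ℝ} (hf : ContDiff ℝ ((1 : ℕ) : WithTop ℕ∞) f) (hx : ∀ z, px f z ^ 2 ≤ N z)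
    (hy : ∀ z, py f z ^ 2 ≤ N z) :
    (∀ x ∈ Icc a1 a2, |f (x, b1) - f (a1, b1)| ≤ 4 * √E ∧ |f (x, b2) - f (a1, b1)| ≤ 4 * √E) ∧
    (∀ y ∈ Icc b1 b2, |f (a1, y) - f (a1, b1)| ≤ 4 * √E ∧ |f (a2, y) - f (a1, b1)| ≤ 4 * √E) := by
  have hd : Differentiable ℝ f := hf.differentiable (by simp)
  have cx : Continuous (px f) := (cd_x (n := 0) hf).continuous
  have cy : Continuous (py f) := (cd_y (n := 0) hf).continuous
  have hs : 0 ≤ √E := Real.sqrt_nonneg _
  have hρ := h.hρ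
  have sx : ∀ b, (∫ x in (z.1 - 2 * ρ)..(z.1 + 2 * ρ), N (x, b) ≤ E / ρ) → ∀ x ∈ Icc a1 a2,
      |f (x, b) - f (a1, b)| ≤ 2 * √E := by
    intro b hb x hx1
    exact seg (g := fun x => f (x, b)) (g' := fun x => px f (x, b)) (n := fun x => N (x, b)) h.hρ
      h.hE (by ring) (h.cN.comp (by fun_prop)) (fun t => h.N0 _) hb (fun t => hd_x hd t b)
      (cx.comp (by fun_prop)) (fun t => hx _) h.a1l hx1.1 (hx1.2.trans h.a2u)
  have sy : ∀ a, (∫ y in (z.2 - 2 * ρ)..(z.2 + 2 * ρ), N (a, y) ≤ E / ρ) → ∀ y ∈ Icc b1 b2,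
      |f (a, y) - f (a, b1)| ≤ 2 * √E := by
    intro a ha y hy1
    exact seg (g := fun y => f (a, y)) (g' := fun y => py f (a, y)) (n := fun y => N (a, y)) h.hρ
      h.hE (by ring) (h.cN.comp (by fun_prop)) (fun t => h.N0 _) ha (fun t => hd_y hd a t)
      (cy.comp (by fun_prop)) (fun t => hy _) h.b1l hy1.1 (hy1.2.trans h.b2u)
  have hb12 : b1 ≤ b2 := by linarith [h.b1u, h.b2l]
  have ha12 : a1 ≤ a2 := by linarith [h.a1u, h.a2l]
  constructor
  · intro x hx1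
    have e1 := sx b1 h.ib1 x hx1
    have e2 := sx b2 h.ib2 x hx1
    have e3 := sy a1 h.ia1 b2 ⟨hb12, le_rfl⟩
    refine ⟨by linarith, ?_⟩
    have e4 : f (x, b2) - f (a1, b1) = (f (x, b2) - f (a1, b2)) + (f (a1, b2) - f (a1, b1)) := by
      ring
    rw [e4]
    exact (abs_add_le _ _).trans (by linarith)
  · intro y hy1
    have e1 := sy a1 h.ia1 y hy1
    have e2 := sy a2 h.ia2 y hy1
    have e3 := sx b1 h.ib1 a2 ⟨ha12, le_rfl⟩
    refine ⟨by linarith, ?_⟩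
    have e4 : f (a2, y) - f (a1, b1) = (f (a2, y) - f (a2, b1)) + (f (a2, b1) - f (a1, b1)) := by
      ring
    rw [e4]
    exact (abs_add_le _ _).trans (by linarith)

/-- the Jacobian -/
noncomputable def Jw (w : ℝ × ℝ → ℝ) (z : ℝ × ℝ) : ℝ :=
  px (py w) z ^ 2 - px (px w) z * py (py w) z

lemma cN2 {w : ℝ × ℝ → ℝ} (hw : ContDiff ℝ ((4 : ℕ) : WithTop ℕ∞) w) : Continuous (N2 w) := by
  have h1 := (cd_x (n := 2) (cd_x (n := 3) hw)).continuous
  have h2 := (cd_x (n := 2) (cd_y (n := 3) hw)).continuous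
  have h3 := (cd_y (n := 2) (cd_y (n := 3) hw)).continuous
  unfold N2
  fun_prop

lemma cJ {w : ℝ × ℝ → ℝ} (hw : ContDiff ℝ ((4 : ℕ) : WithTop ℕ∞) w) : Continuous (Jw w) := by
  have h1 := (cd_x (n := 2) (cd_x (n := 3) hw)).continuous
  have h2 := (cd_x (n := 2) (cd_y (n := 3) hw)).continuous
  have h3 := (cd_y (n := 2) (cd_y (n := 3) hw)).continuous
  unfold Jw
  fun_prop

lemma N2_nonneg (w : ℝ × ℝ → ℝ) (z : ℝ × ℝ) : 0 ≤ N2 w z := by
  unfold N2
  positivity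

/-- divergence theorem -/
lemma divg {w : ℝ × ℝ → ℝ} (hw : ContDiff ℝ ((4 : ℕ) : WithTop ℕ∞) w) (c0 : ℝ) {a1 a2 b1 b2 : ℝ}
    (ha : a1 ≤ a2) (hb : b1 ≤ b2) : ∫ x in Icc a1 a2 ×ˢ Icc b1 b2, Jw w x =
    ((∫ x in a1..a2, (px w (x, b2) - c0) * px (py w) (x, b2)) -
      ∫ x in a1..a2, (px w (x, b1) - c0) * px (py w) (x, b1)) -
    ((∫ y in b1..b2, (px w (a2, y) - c0) * py (py w) (a2, y)) -
      ∫ y in b1..b2, (px w (a1, y) - c0) * py (py w) (a1, y)) := by
  have w1 : ContDiff ℝ ((3 : ℕ) : WithTop ℕ∞) (px w) := cd_x hw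
  have w2 : ContDiff ℝ ((3 : ℕ) : WithTop ℕ∞) (py w) := cd_y hw
  have w12 : ContDiff ℝ ((2 : ℕ) : WithTop ℕ∞) (px (py w)) := cd_x w2
  have w22 : ContDiff ℝ ((2 : ℕ) : WithTop ℕ∞) (py (py w)) := cd_y w2
  have w11 : ContDiff ℝ ((2 : ℕ) : WithTop ℕ∞) (px (px w)) := cd_x w1
  have w122 : ContDiff ℝ ((1 : ℕ) : WithTop ℕ∞) (py (px (py w))) := cd_y w12
  have d1 := w1.differentiable (by simp)
  have d12 := w12.differentiable (by simp)
  have d22 := w22.differentiable (by simp)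
  have s1 : py (px w) = px (py w) := (symm2 (hw.of_le (by norm_cast))).symm
  have s2 : px (py (py w)) = py (px (py w)) := symm2 (w2.of_le (by norm_cast))
  have c1 := w1.continuous
  have c12 := w12.continuous
  have c22 := w22.continuous
  have c11 := w11.continuous
  have c122 := w122.continuous
  set F : ℝ × ℝ → ℝ := fun z => px (py w) z * px (py w) z + (px w z - c0) * py (px (py w)) z with hF
  set G : ℝ × ℝ → ℝ := fun z => px (px w) z * py (py w) z + (px w z - c0) * py (px (py w)) z with hG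
  have cF : Continuous F := by rw [hF]; fun_prop
  have cG : Continuous G := by rw [hG]; fun_prop
  have hFy : ∀ x y : ℝ, HasDerivAt (fun y => (px w (x, y) - c0) * px (py w) (x, y)) (F (x, y)) y := by
    intro x y
    have h1 := hd_y d1 x y
    have h2 := hd_y d12 x y
    rw [s1] at h1
    exact (h1.sub_const c0).mul h2
  have hGx : ∀ x y : ℝ, HasDerivAt (fun x => (px w (x, y) - c0) * py (py w) (x, y)) (G (x, y)) x := by
    intro x y
    have h1 := hd_x d1 x y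
    have h2 := hd_x d22 x y
    rw [s2] at h2
    exact (h1.sub_const c0).mul h2
  have hJ : ∀ z, Jw w z = F z - G z := by
    intro z
    rw [hF, hG]
    unfold Jw
    ring
  have iF := int_rect cF (subset_refl (Icc a1 a2)) (subset_refl (Icc b1 b2))
  have iG := int_rect cG (subset_refl (Icc a1 a2)) (subset_refl (Icc b1 b2))
  have e1 : ∫ x in Icc a1 a2 ×ˢ Icc b1 b2, Jw w x =
      (∫ x in Icc a1 a2 ×ˢ Icc b1 b2, F x) - ∫ x in Icc a1 a2 ×ˢ Icc b1 b2, G x := by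
    rw [← integral_sub iF iG]
    simp only [hJ]
  have e2 : ∫ x in Icc a1 a2 ×ˢ Icc b1 b2, F x =
      (∫ x in a1..a2, (px w (x, b2) - c0) * px (py w) (x, b2)) -
      ∫ x in a1..a2, (px w (x, b1) - c0) * px (py w) (x, b1) := by
    rw [fub1 cF (subset_refl _) hb, integral_Icc_eq_integral_Ioc, ← intervalIntegral.integral_of_le ha,
      ← intervalIntegral.integral_sub]
    · refine intervalIntegral.integral_congr fun x _ => ?_
      exact intervalIntegral.integral_eq_sub_of_hasDerivAt (fun t _ => hFy x t)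
        ((cF.comp (by fun_prop : Continuous fun t : ℝ => (x, t))).intervalIntegrable _ _)
    · exact Continuous.intervalIntegrable (by fun_prop) _ _
    · exact Continuous.intervalIntegrable (by fun_prop) _ _
  have e3 : ∫ x in Icc a1 a2 ×ˢ Icc b1 b2, G x =
      (∫ y in b1..b2, (px w (a2, y) - c0) * py (py w) (a2, y)) -
      ∫ y in b1..b2, (px w (a1, y) - c0) * py (py w) (a1, y) := by
    rw [fub2 cG (subset_refl _) ha, integral_Icc_eq_integral_Ioc, ← intervalIntegral.integral_of_le hb,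
      ← intervalIntegral.integral_sub]
    · refine intervalIntegral.integral_congr fun y _ => ?_
      exact intervalIntegral.integral_eq_sub_of_hasDerivAt (fun t _ => hGx t y)
        ((cG.comp (by fun_prop : Continuous fun t : ℝ => (t, y))).intervalIntegrable _ _)
    · exact Continuous.intervalIntegrable (by fun_prop) _ _
    · exact Continuous.intervalIntegrable (by fun_prop) _ _
  rw [e1, e2, e3]

lemma key {l L r : ℝ} {c : ℝ × ℝ} {w : ℝ × ℝ → ℝ} (hl : 0 < l) (hl1 : l < 1)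
    (hw : SmS l L r c w) {z : ℝ × ℝ} {ρ E : ℝ} (hρ : 0 < ρ) (hE0 : 0 < E)
    (hsub : Metric.closedBall z (2 * ρ) ⊆ Metric.closedBall c r)
    (hE : (∫ x in Metric.closedBall z (2 * ρ), N2 w x) -
      (∫ x in Metric.closedBall z ρ, N2 w x) ≤ E) :
    (∫ x in Metric.closedBall z ρ, N2 w x) ≤ 128 / l * E ∧
      ∀ x ∈ Metric.closedBall z ρ, ∀ y ∈ Metric.closedBall z ρ,
        (py w x - py w y) ^ 2 ≤ 128 / l * E := by
  have hcd : ContDiff ℝ ((4 : ℕ) : WithTop ℕ∞) w := hw.sm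
  have w1 : ContDiff ℝ ((3 : ℕ) : WithTop ℕ∞) (px w) := cd_x hcd
  have w2 : ContDiff ℝ ((3 : ℕ) : WithTop ℕ∞) (py w) := cd_y hcd
  have w12 : ContDiff ℝ ((2 : ℕ) : WithTop ℕ∞) (px (py w)) := cd_x w2
  have w22 : ContDiff ℝ ((2 : ℕ) : WithTop ℕ∞) (py (py w)) := cd_y w2
  have c1 := w1.continuous
  have c12 := w12.continuous
  have c22 := w22.continuous
  have s1 : py (px w) = px (py w) := (symm2 (hcd.of_le (by norm_cast))).symm
  have cN := cN2 hcd
  have cJ' := cJ hcd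
  obtain ⟨a1, a2, b1, b2, h⟩ := exists_bd cN (N2_nonneg w) z hρ hE0 hE
  have hn1 : ∀ z, px (px w) z ^ 2 ≤ N2 w z := by
    intro z; unfold N2; nlinarith [sq_nonneg (px (py w) z), sq_nonneg (py (py w) z)]
  have hn2 : ∀ z, px (py w) z ^ 2 ≤ N2 w z := by
    intro z
    unfold N2
    nlinarith [sq_nonneg (px (py w) z), sq_nonneg (py (py w) z), sq_nonneg (px (px w) z)]
  have hn3 : ∀ z, py (py w) z ^ 2 ≤ N2 w z := by
    intro z; unfold N2; nlinarith [sq_nonneg (px (py w) z), sq_nonneg (px (px w) z)]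
  have o1 := osc h (w1.of_le (by norm_cast)) hn1 (by rw [s1]; exact hn2)
  have o2 := osc h (w2.of_le (by norm_cast)) hn2 hn3
  have hs0 : 0 ≤ √E := Real.sqrt_nonneg _
  have hss : √E * √E = E := Real.mul_self_sqrt hE0.le
  have hb12 : b1 ≤ b2 := by linarith [h.b1u, h.b2l]
  have ha12 : a1 ≤ a2 := by linarith [h.a1u, h.a2l]
  have hM : 4 * √E * (2 * √E) = 8 * E := by linear_combination 8 * hss
  have k1 := side (φ := fun x => px w (x, b2) - px w (a1, b1)) (ψ := fun x => px (py w) (x, b2))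
    (n := fun x => N2 w (x, b2)) h.hρ h.hE (by ring) (cN.comp (by fun_prop)) (fun t => N2_nonneg w _)
    h.ib2 (M := 4 * √E) (by positivity) h.a1l ha12 h.a2u (fun t ht => (o1.1 t ht).2)
    (fun t => hn2 _)
  have k2 := side (φ := fun x => px w (x, b1) - px w (a1, b1)) (ψ := fun x => px (py w) (x, b1))
    (n := fun x => N2 w (x, b1)) h.hρ h.hE (by ring) (cN.comp (by fun_prop)) (fun t => N2_nonneg w _)
    h.ib1 (M := 4 * √E) (by positivity) h.a1l ha12 h.a2u (fun t ht => (o1.1 t ht).1)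
    (fun t => hn2 _)
  have k3 := side (φ := fun y => px w (a2, y) - px w (a1, b1)) (ψ := fun y => py (py w) (a2, y))
    (n := fun y => N2 w (a2, y)) h.hρ h.hE (by ring) (cN.comp (by fun_prop)) (fun t => N2_nonneg w _)
    h.ia2 (M := 4 * √E) (by positivity) h.b1l hb12 h.b2u (fun t ht => (o1.2 t ht).2)
    (fun t => hn3 _)
  have k4 := side (φ := fun y => px w (a1, y) - px w (a1, b1)) (ψ := fun y => py (py w) (a1, y))
    (n := fun y => N2 w (a1, y)) h.hρ h.hE (by ring) (cN.comp (by fun_prop)) (fun t => N2_nonneg w _)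
    h.ia1 (M := 4 * √E) (by positivity) h.b1l hb12 h.b2u (fun t ht => (o1.2 t ht).1)
    (fun t => hn3 _)
  rw [hM] at k1 k2 k3 k4
  have hdiv := divg hcd (px w (a1, b1)) ha12 hb12
  have hJle : ∫ x in Icc a1 a2 ×ˢ Icc b1 b2, Jw w x ≤ 32 * E := by
    rw [hdiv]
    have e1 := (abs_le.1 k1).2
    have e2 := (abs_le.1 k2).1
    have e3 := (abs_le.1 k3).1
    have e4 := (abs_le.1 k4).2
    linarith
  have hRsub : Icc a1 a2 ×ˢ Icc b1 b2 ⊆ Metric.closedBall c r := by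
    refine Subset.trans ?_ hsub
    rw [cb_eq]
    exact prod_mono (Icc_subset_Icc h.a1l h.a2u) (Icc_subset_Icc h.b1l h.b2u)
  have hmR : MeasurableSet (Icc a1 a2 ×ˢ Icc b1 b2) := measurableSet_Icc.prod measurableSet_Icc
  have iN := int_rect cN (subset_refl (Icc a1 a2)) (subset_refl (Icc b1 b2))
  have iJ := int_rect cJ' (subset_refl (Icc a1 a2)) (subset_refl (Icc b1 b2))
  have hl0 := hl
  have hinv : 0 < l⁻¹ := inv_pos.2 hl
  have hll : l * l⁻¹ = 1 := mul_inv_cancel₀ hl.ne'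
  constructor
  · have e1 : (∫ x in Metric.closedBall z ρ, N2 w x) ≤ ∫ x in Icc a1 a2 ×ˢ Icc b1 b2, N2 w x := by
      refine setIntegral_mono_set iN (Filter.Eventually.of_forall fun x => N2_nonneg w x)
        (Filter.Eventually.of_forall ?_)
      rw [cb_eq]
      exact prod_mono (Icc_subset_Icc h.a1u h.a2l) (Icc_subset_Icc h.b1u h.b2l)
    have e2 : ∫ x in Icc a1 a2 ×ˢ Icc b1 b2, N2 w x ≤
        ∫ x in Icc a1 a2 ×ˢ Icc b1 b2, 2 / l * Jw w x := by
      refine setIntegral_mono_on iN (iJ.const_mul _) hmR fun x hx => ?_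
      have hx' := hRsub hx
      have g1 := hw.cv x hx'
      have g2 := hw.i1 x hx'
      have g3 := hw.i2 x hx'
      unfold N2 Jw
      set p := px (px w) x
      set q := py (py w) x
      set m := px (py w) x
      have h1 : l * p ^ 2 ≤ -(p * q) := by nlinarith
      have h2 : l * q ^ 2 ≤ -(p * q) := by
        have h3 : l * (-q) ≤ p := by
          have := mul_le_mul_of_nonneg_left g3 hl.le
          rwa [← mul_assoc, hll, one_mul] at this
        have h4 : 0 ≤ -q := le_trans (mul_nonneg hl.le g1) g2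
        nlinarith
      have h3 : l * m ^ 2 ≤ m ^ 2 := by nlinarith [sq_nonneg m]
      have h4 : 0 ≤ m ^ 2 := sq_nonneg m
      rw [div_mul_eq_mul_div, le_div_iff₀ hl]
      nlinarith
    rw [integral_const_mul] at e2
    have e3 : 2 / l * (∫ x in Icc a1 a2 ×ˢ Icc b1 b2, Jw w x) ≤ 2 / l * (32 * E) :=
      mul_le_mul_of_nonneg_left hJle (by positivity)
    have e4 : 2 / l * (32 * E) ≤ 128 / l * E := by
      rw [div_mul_eq_mul_div, div_mul_eq_mul_div]
      exact div_le_div_of_nonneg_right (by linarith) hl.le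
    linarith
  · have hcb : ∀ x ∈ Metric.closedBall z ρ, |py w x - py w (a1, b1)| ≤ 4 * √E := by
      intro x hx
      rw [cb_eq] at hx
      obtain ⟨hx1, hx2⟩ := hx
      have hxa : x.1 ∈ Icc a1 a2 := ⟨h.a1u.trans hx1.1, hx1.2.trans h.a2l⟩
      have hxb : x.2 ∈ Icc b1 b2 := ⟨h.b1u.trans hx2.1, hx2.2.trans h.b2l⟩
      have hanti : AntitoneOn (fun y => py w (x.1, y)) (Icc b1 b2) := by
        refine antitoneOn_of_deriv_nonpos (convex_Icc _ _) ?_ ?_ ?_
        · exact (w2.continuous.comp (by fun_prop)).continuousOn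
        · intro y _
          exact ((hd_y (w2.differentiable (by simp)) x.1 y).differentiableAt).differentiableWithinAt
        · intro y hy
          rw [interior_Icc] at hy
          rw [(hd_y (w2.differentiable (by simp)) x.1 y).deriv]
          have hin : (x.1, y) ∈ Metric.closedBall c r := hRsub ⟨hxa, hy.1.le, hy.2.le⟩
          have g1 := hw.cv _ hin
          have g2 := hw.i1 _ hin
          have := mul_nonneg hl.le g1
          linarith
      have u1 := hanti ⟨le_rfl, hb12⟩ hxb hxb.1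
      have u2 := hanti hxb ⟨hb12, le_rfl⟩ hxb.2
      have v1 := (abs_le.1 (o2.1 x.1 hxa).1).2
      have v2 := (abs_le.1 (o2.1 x.1 hxa).2).1
      simp only [Prod.mk.eta] at u1 u2
      rw [abs_le]
      constructor <;> linarith
    intro x hx y hy
    have e1 := hcb x hx
    have e2 := hcb y hy
    have e3 : |py w x - py w y| ≤ 8 * √E := by
      rw [abs_le] at e1 e2 ⊢
      constructor <;> linarith [e1.1, e1.2, e2.1, e2.2]
    have e4 : (py w x - py w y) ^ 2 ≤ (8 * √E) ^ 2 := by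
      rw [← sq_abs]
      exact pow_le_pow_left₀ (abs_nonneg _) e3 2
    have e5 : (8 * √E) ^ 2 = 64 * E := by rw [mul_pow, Real.sq_sqrt hE0.le]; norm_num
    rw [e5] at e4
    refine e4.trans ?_
    rw [div_mul_eq_mul_div, le_div_iff₀ hl]
    nlinarith

theorem t_HF1 : S_HF1 := by
  intro l hl hl1
  have hK : 0 < 128 / l := by positivity
  refine ⟨128 / l, hK, ?_⟩
  intro L r c w hr hw z ρ hρ hsub
  have hcd : ContDiff ℝ ((4 : ℕ) : WithTop ℕ∞) w := hw.sm
  have cN := cN2 hcd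
  have i2 : IntegrableOn (N2 w) (Metric.closedBall z (2 * ρ)) :=
    cN.continuousOn.integrableOn_compact (isCompact_closedBall _ _)
  have h12 : (∫ x in Metric.closedBall z ρ, N2 w x) ≤ ∫ x in Metric.closedBall z (2 * ρ), N2 w x :=
    setIntegral_mono_set i2 (Filter.Eventually.of_forall fun x => N2_nonneg w x)
      (Filter.Eventually.of_forall (Metric.closedBall_subset_closedBall (by linarith)))
  have h0 : 0 ≤ ∫ x in Metric.closedBall z ρ, N2 w x :=
    integral_nonneg fun x => N2_nonneg w x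
  set I1 := ∫ x in Metric.closedBall z ρ, N2 w x with hI1
  set I2 := ∫ x in Metric.closedBall z (2 * ρ), N2 w x with hI2
  have hk : ∀ ε : ℝ, 0 < ε → I1 ≤ 128 / l * (I2 - I1 + ε) ∧
      ∀ x ∈ Metric.closedBall z ρ, ∀ y ∈ Metric.closedBall z ρ,
        (py w x - py w y) ^ 2 ≤ 128 / l * (I2 - I1 + ε) := fun ε hε =>
    key hl hl1 hw hρ (by linarith) hsub (by linarith)
  have lim : ∀ A B : ℝ, (∀ ε : ℝ, 0 < ε → A ≤ 128 / l * (B + ε)) → A ≤ 128 / l * B := by
    intro A B hAB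
    refine le_of_forall_pos_le_add fun δ hδ => ?_
    have := hAB (δ / (128 / l)) (div_pos hδ hK)
    rw [mul_add, mul_div_cancel₀ _ hK.ne'] at this
    exact this
  refine ⟨lim _ _ fun ε hε => (hk ε hε).1, fun x hx y hy => ?_⟩
  refine lim _ _ fun ε hε => ((hk ε hε).2 x hx y hy).trans ?_
  exact mul_le_mul_of_nonneg_left (by linarith) hK.le

end Pool.Agent.W775.WH.HF1
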