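import Pool.Agent.W775.WH.Stm

/-!
Project WH, part HF2: energy bound.
-/

set_option autoImplicit false

open MeasureTheory Set Filter Topology

namespace Pool.Agent.W775.WH.HF2

lemma px_hasDerivAt {f : ℝ × ℝ → ℝ} {z : ℝ × ℝ} (hf : DifferentiableAt ℝ f z) :
    HasDerivAt (fun x => f (x, z.2)) (fderiv ℝ f z (1, 0)) z.1 := by
  have h1 : HasDerivAt (fun x : ℝ => ((x, z.2) : ℝ × ℝ)) (1, 0) z.1 :=
    (hasDerivAt_id z.1).prodMk (hasDerivAt_const z.1 z.2)
  have h2 : HasFDerivAt f (fderiv ℝ f z) ((fun x : ℝ => ((x, z.2) : ℝ × ℝ)) z.1) := hf.hasFDerivAt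
  exact h2.comp_hasDerivAt z.1 h1

lemma py_hasDerivAt {f : ℝ × ℝ → ℝ} {z : ℝ × ℝ} (hf : DifferentiableAt ℝ f z) :
    HasDerivAt (fun y => f (z.1, y)) (fderiv ℝ f z (0, 1)) z.2 := by
  have h1 : HasDerivAt (fun y : ℝ => ((z.1, y) : ℝ × ℝ)) (0, 1) z.2 :=
    (hasDerivAt_const z.2 z.1).prodMk (hasDerivAt_id z.2)
  have h2 : HasFDerivAt f (fderiv ℝ f z) ((fun y : ℝ => ((z.1, y) : ℝ × ℝ)) z.2) := hf.hasFDerivAt
  exact h2.comp_hasDerivAt z.2 h1

lemma px_eq {f : ℝ × ℝ → ℝ} {z : ℝ × ℝ} (hf : DifferentiableAt ℝ f z) :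
    px f z = fderiv ℝ f z (1, 0) := (px_hasDerivAt hf).deriv

lemma py_eq {f : ℝ × ℝ → ℝ} {z : ℝ × ℝ} (hf : DifferentiableAt ℝ f z) :
    py f z = fderiv ℝ f z (0, 1) := (py_hasDerivAt hf).deriv

lemma px_contDiff {f : ℝ × ℝ → ℝ} {n m : ℕ} (hf : ContDiff ℝ n f) (h : m + 1 ≤ n) :
    ContDiff ℝ m (px f) := by
  have h1 : px f = fun z => fderiv ℝ f z (1, 0) := by
    funext z
    refine px_eq (hf.differentiable ?_ z)
    intro h0
    have : n = 0 := by exact_mod_cast h0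
    omega
  rw [h1]
  exact (hf.fderiv_right (by exact_mod_cast h)).clm_apply contDiff_const

lemma py_contDiff {f : ℝ × ℝ → ℝ} {n m : ℕ} (hf : ContDiff ℝ n f) (h : m + 1 ≤ n) :
    ContDiff ℝ m (py f) := by
  have h1 : py f = fun z => fderiv ℝ f z (0, 1) := by
    funext z
    refine py_eq (hf.differentiable ?_ z)
    intro h0
    have : n = 0 := by exact_mod_cast h0
    omega
  rw [h1]
  exact (hf.fderiv_right (by exact_mod_cast h)).clm_apply contDiff_const

lemma symm {f : ℝ × ℝ → ℝ} {n : ℕ} (hf : ContDiff ℝ n f) (h : 2 ≤ n) (z : ℝ × ℝ) :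
    py (px f) z = px (py f) z := by
  have hd : Differentiable ℝ f := hf.differentiable (by
    intro h0
    have : n = 0 := by exact_mod_cast h0
    omega)
  have hf1 : ContDiff ℝ 1 (fderiv ℝ f) := hf.fderiv_right (by exact_mod_cast h)
  have hd1 : Differentiable ℝ (fderiv ℝ f) := hf1.differentiable (by simp)
  have h1 : px f = fun z => fderiv ℝ f z (1, 0) := by
    funext z; exact px_eq (hd z)
  have h2 : py f = fun z => fderiv ℝ f z (0, 1) := by
    funext z; exact py_eq (hd z)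
  have e1 : py (px f) z = fderiv ℝ (fderiv ℝ f) z (0, 1) (1, 0) := by
    rw [h1, py_eq]
    · rw [fderiv_clm_apply (hd1 z) (differentiableAt_const _)]
      simp
    · exact (hd1 z).clm_apply (differentiableAt_const _)
  have e2 : px (py f) z = fderiv ℝ (fderiv ℝ f) z (1, 0) (0, 1) := by
    rw [h2, px_eq]
    · rw [fderiv_clm_apply (hd1 z) (differentiableAt_const _)]
      simp
    · exact (hd1 z).clm_apply (differentiableAt_const _)
  rw [e1, e2]
  exact second_derivative_symmetric (fun y => (hd y).hasFDerivAt) (hd1 z).hasFDerivAt _ _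

lemma ball_eq (c : ℝ × ℝ) (r : ℝ) :
    Metric.closedBall c r = Icc (c.1 - r, c.2 - r) (c.1 + r, c.2 + r) := by
  ext z
  rw [Metric.mem_closedBall, dist_eq_norm, Prod.norm_def, max_le_iff, Real.norm_eq_abs,
    Real.norm_eq_abs, abs_le, abs_le, mem_Icc, Prod.le_def, Prod.le_def]
  simp only [Prod.fst_sub, Prod.snd_sub]
  constructor
  · rintro ⟨⟨h1, h2⟩, h3, h4⟩
    exact ⟨⟨by linarith, by linarith⟩, by linarith, by linarith⟩
  · rintro ⟨⟨h1, h2⟩, h3, h4⟩
    exact ⟨⟨by linarith, by linarith⟩, by linarith, by linarith⟩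

/-- divergence theorem on the square for fields vanishing on the boundary -/
lemma div_zero {F G : ℝ × ℝ → ℝ} (hF : ContDiff ℝ 1 F) (hG : ContDiff ℝ 1 G) (c : ℝ × ℝ) {r : ℝ}
    (hr : 0 < r) (hF0 : ∀ y, F (c.1 - r, y) = 0 ∧ F (c.1 + r, y) = 0)
    (hG0 : ∀ x, G (x, c.2 - r) = 0 ∧ G (x, c.2 + r) = 0) :
    ∫ z in Metric.closedBall c r, (px F z + py G z) = 0 := by
  have dF : Differentiable ℝ F := hF.differentiable (by simp)
  have dG : Differentiable ℝ G := hG.differentiable (by simp)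
  have e : (fun z => px F z + py G z) = fun z => fderiv ℝ F z (1, 0) + fderiv ℝ G z (0, 1) := by
    funext z
    rw [px_eq (dF z), py_eq (dG z)]
  rw [e, ball_eq]
  have hc : Continuous (fun z => fderiv ℝ F z (1, 0) + fderiv ℝ G z (0, 1)) :=
    ((hF.continuous_fderiv (by simp)).clm_apply continuous_const).add
      ((hG.continuous_fderiv (by simp)).clm_apply continuous_const)
  rw [integral_divergence_prod_Icc_of_hasFDerivAt_off_countable_of_le F G (fderiv ℝ F)
    (fderiv ℝ G) (c.1 - r, c.2 - r) (c.1 + r, c.2 + r)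
    (Prod.mk_le_mk.2 ⟨by linarith, by linarith⟩) ∅ countable_empty
    hF.continuous.continuousOn hG.continuous.continuousOn
    (fun x _ => (dF x).hasFDerivAt) (fun x _ => (dG x).hasFDerivAt)
    (hc.continuousOn.integrableOn_compact isCompact_Icc)]
  simp [(hG0 _).1, (hG0 _).2, (hF0 _).1, (hF0 _).2]

/-- pointwise inequality -/
lemma pw {l L r φ φx φy w1 a m d : ℝ} (hl : 0 < l) (hl1 : l < 1) (hL : 0 < L) (hr : 0 < r)
    (h0 : 0 ≤ a) (h1 : l * a ≤ -d) (h2 : -d ≤ l⁻¹ * a) (hφ : 0 ≤ φ) (hx : |φx| ≤ 2 / r)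
    (hy : |φy| ≤ 2 / r) (hw : |w1| ≤ L) :
    l / 4 * (φ ^ 2 * (a ^ 2 + 2 * m ^ 2 + d ^ 2)) ≤
      (φ ^ 2 * (m ^ 2 - a * d) + 2 * φ * w1 * (φy * m - φx * d)) + 32 * L ^ 2 / (l * r ^ 2) := by
  have hd : 0 ≤ -d := le_trans (mul_nonneg hl.le h0) h1
  have h2' : l * (-d) ≤ a := by
    have := mul_le_mul_of_nonneg_left h2 hl.le
    rwa [← mul_assoc, mul_inv_cancel₀ hl.ne', one_mul] at this
  have k1 : l * a ^ 2 ≤ a * (-d) := by nlinarith [mul_le_mul_of_nonneg_left h1 h0]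
  have k2 : l * d ^ 2 ≤ a * (-d) := by nlinarith [mul_le_mul_of_nonneg_left h2' hd]
  have k3 : l * m ^ 2 ≤ m ^ 2 := by nlinarith [sq_nonneg m]
  have J : l / 2 * (a ^ 2 + 2 * m ^ 2 + d ^ 2) ≤ m ^ 2 - a * d := by nlinarith
  have J' : φ ^ 2 * (l / 2 * (a ^ 2 + 2 * m ^ 2 + d ^ 2)) ≤ φ ^ 2 * (m ^ 2 - a * d) :=
    mul_le_mul_of_nonneg_left J (sq_nonneg _)
  -- the cross terms
  have cr : ∀ ψ t : ℝ, |ψ| ≤ 2 / r →
      -(l / 4 * (φ ^ 2 * t ^ 2) + 16 * L ^ 2 / (l * r ^ 2)) ≤ 2 * φ * w1 * (ψ * t) := by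
    intro ψ t hψ
    have a1 : |2 * φ * w1 * (ψ * t)| ≤ 4 * (φ * |t|) * (L / r) := by
      rw [abs_mul, abs_mul, abs_mul, abs_mul, abs_of_nonneg hφ, abs_of_pos (by norm_num : (0:ℝ) < 2)]
      calc 2 * φ * |w1| * (|ψ| * |t|) ≤ 2 * φ * L * (2 / r * |t|) := by gcongr
        _ = _ := by ring
    have a2 : 4 * (φ * |t|) * (L / r) ≤ l / 4 * (φ * |t|) ^ 2 + 16 / l * (L / r) ^ 2 := by
      have hs : 0 ≤ l / 4 * (φ * |t| - 8 / l * (L / r)) ^ 2 := by positivity
      have : l / 4 * (φ * |t| - 8 / l * (L / r)) ^ 2 =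
          l / 4 * (φ * |t|) ^ 2 + 16 / l * (L / r) ^ 2 - 4 * (φ * |t|) * (L / r) := by
        field_simp
        ring
      linarith
    have a3 : l / 4 * (φ * |t|) ^ 2 + 16 / l * (L / r) ^ 2 =
        l / 4 * (φ ^ 2 * t ^ 2) + 16 * L ^ 2 / (l * r ^ 2) := by
      rw [mul_pow, sq_abs]
      field_simp
    have a4 := (abs_le.1 (a1.trans (a2.trans a3.le))).1
    exact a4
  have c1 := cr φy m hy
  have c2 := cr (-φx) d (by rw [abs_neg]; exact hx)
  have e1 : 2 * φ * w1 * (φy * m - φx * d) =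
      2 * φ * w1 * (φy * m) + 2 * φ * w1 * (-φx * d) := by ring
  have e2 : 32 * L ^ 2 / (l * r ^ 2) = 16 * L ^ 2 / (l * r ^ 2) + 16 * L ^ 2 / (l * r ^ 2) := by
    ring
  rw [e1, e2]
  have n1 : 0 ≤ φ ^ 2 * a ^ 2 := by positivity
  have n2 : 0 ≤ φ ^ 2 * m ^ 2 := by positivity
  nlinarith [J', c1, c2, mul_nonneg hl.le n1, mul_nonneg hl.le n2]

/-- one-dimensional cutoff -/
noncomputable def cu (c r x : ℝ) : ℝ := 1 - ((x - c) / r) ^ 2

lemma cu_deriv (c r x : ℝ) : HasDerivAt (cu c r) (-(2 * (x - c) / r ^ 2)) x := by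
  have h1 : HasDerivAt (fun x : ℝ => (x - c) / r) (1 / r) x :=
    ((hasDerivAt_id x).sub_const c).div_const r
  have h2 := (h1.pow 2).const_sub 1
  refine h2.congr_deriv ?_
  by_cases hr : r = 0
  · subst hr; simp
  · norm_num
    field_simp

lemma cu_contDiff (c r : ℝ) : ContDiff ℝ 4 (cu c r) := by
  unfold cu
  fun_prop

lemma cu_bd {c r x : ℝ} (hr : 0 < r) (hx : |x - c| ≤ r) :
    0 ≤ cu c r x ∧ cu c r x ≤ 1 ∧ |-(2 * (x - c) / r ^ 2)| ≤ 2 / r := by
  have h1 : ((x - c) / r) ^ 2 ≤ 1 := by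
    rw [div_pow, div_le_one (by positivity), ← sq_abs]
    exact pow_le_pow_left₀ (abs_nonneg _) hx 2
  refine ⟨by unfold cu; linarith, by unfold cu; nlinarith [sq_nonneg ((x - c) / r)], ?_⟩
  rw [abs_neg, abs_div, abs_mul, abs_of_pos (by norm_num : (0:ℝ) < 2), abs_of_pos (by positivity :
    (0:ℝ) < r ^ 2), div_le_div_iff₀ (by positivity) hr]
  nlinarith [hx, abs_nonneg (x - c)]

lemma cu_low {c r x : ℝ} (hr : 0 < r) (hx : |x - c| ≤ r / 2) : 3 / 4 ≤ cu c r x := by
  have h1 : ((x - c) / r) ^ 2 ≤ 1 / 4 := by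
    rw [div_pow, div_le_iff₀ (by positivity), ← sq_abs]
    have := pow_le_pow_left₀ (abs_nonneg _) hx 2
    nlinarith
  unfold cu
  linarith

theorem t_HF2 : S_HF2 := by
  intro l hl hl1
  refine ⟨2000 / l ^ 2, by positivity, ?_⟩
  intro L r c w hr hL hS
  have hsm : ContDiff ℝ ((4 : ℕ) : WithTop ℕ∞) w := hS.sm
  -- smoothness of the derivatives
  have s1 : ContDiff ℝ ((3 : ℕ) : WithTop ℕ∞) (px w) := px_contDiff hsm (by norm_num)
  have s2 : ContDiff ℝ ((3 : ℕ) : WithTop ℕ∞) (py w) := py_contDiff hsm (by norm_num)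
  have s11 : ContDiff ℝ ((2 : ℕ) : WithTop ℕ∞) (px (px w)) := px_contDiff s1 (by norm_num)
  have s12 : ContDiff ℝ ((2 : ℕ) : WithTop ℕ∞) (px (py w)) := px_contDiff s2 (by norm_num)
  have s22 : ContDiff ℝ ((2 : ℕ) : WithTop ℕ∞) (py (py w)) := py_contDiff s2 (by norm_num)
  set φ : ℝ × ℝ → ℝ := fun z => cu c.1 r z.1 * cu c.2 r z.2 with hφ
  have sφ : ContDiff ℝ ((1 : ℕ) : WithTop ℕ∞) φ := by
    have a1 : ContDiff ℝ ((1 : ℕ) : WithTop ℕ∞) (cu c.1 r) :=
      (cu_contDiff c.1 r).of_le (by exact_mod_cast (by norm_num : (1:ℕ) ≤ 4))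
    have a2 : ContDiff ℝ ((1 : ℕ) : WithTop ℕ∞) (cu c.2 r) :=
      (cu_contDiff c.2 r).of_le (by exact_mod_cast (by norm_num : (1:ℕ) ≤ 4))
    exact (a1.comp contDiff_fst).mul (a2.comp contDiff_snd)
  have dlt : ∀ {f : ℝ × ℝ → ℝ} {n : ℕ}, ContDiff ℝ ((n + 1 : ℕ) : WithTop ℕ∞) f →
      Differentiable ℝ f := by
    intro f n hf
    refine hf.differentiable ?_
    intro h0
    have : n + 1 = 0 := by exact_mod_cast h0
    omega
  set F : ℝ × ℝ → ℝ := fun z => -(φ z ^ 2 * (px w z * py (py w) z)) with hF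
  set G : ℝ × ℝ → ℝ := fun z => φ z ^ 2 * (px w z * px (py w) z) with hG
  have sF : ContDiff ℝ 1 F := by
    have b1 : ContDiff ℝ ((1 : ℕ) : WithTop ℕ∞) (px w) :=
      s1.of_le (by exact_mod_cast (by norm_num : (1:ℕ) ≤ 3))
    have b2 : ContDiff ℝ ((1 : ℕ) : WithTop ℕ∞) (py (py w)) :=
      s22.of_le (by exact_mod_cast (by norm_num : (1:ℕ) ≤ 2))
    exact_mod_cast ((sφ.pow 2).mul (b1.mul b2)).neg
  have sG : ContDiff ℝ 1 G := by
    have b1 : ContDiff ℝ ((1 : ℕ) : WithTop ℕ∞) (px w) :=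
      s1.of_le (by exact_mod_cast (by norm_num : (1:ℕ) ≤ 3))
    have b2 : ContDiff ℝ ((1 : ℕ) : WithTop ℕ∞) (px (py w)) :=
      s12.of_le (by exact_mod_cast (by norm_num : (1:ℕ) ≤ 2))
    exact_mod_cast (sφ.pow 2).mul (b1.mul b2)
  have cu0 : ∀ c' : ℝ, cu c' r (c' - r) = 0 ∧ cu c' r (c' + r) = 0 := by
    intro c'
    unfold cu
    constructor
    · have : (c' - r - c') / r = -1 := by field_simp; ring
      rw [this]; norm_num
    · have : (c' + r - c') / r = 1 := by field_simp; ring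
      rw [this]; norm_num
  have hF0 : ∀ y, F (c.1 - r, y) = 0 ∧ F (c.1 + r, y) = 0 := by
    intro y
    simp only [hF, hφ]
    rw [(cu0 c.1).1, (cu0 c.1).2]
    constructor <;> ring
  have hG0 : ∀ x, G (x, c.2 - r) = 0 ∧ G (x, c.2 + r) = 0 := by
    intro x
    simp only [hG, hφ]
    rw [(cu0 c.2).1, (cu0 c.2).2]
    constructor <;> ring
  have hdiv := div_zero sF sG c hr hF0 hG0
  -- partial derivatives
  have pxF : ∀ z, px F z = -(2 * φ z * (-(2 * (z.1 - c.1) / r ^ 2) * cu c.2 r z.2) *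
      (px w z * py (py w) z) + φ z ^ 2 * (px (px w) z * py (py w) z +
        px w z * px (py (py w)) z)) := by
    intro z
    have d1 : HasDerivAt (fun x => φ (x, z.2)) (-(2 * (z.1 - c.1) / r ^ 2) * cu c.2 r z.2) z.1 := by
      simp only [hφ]
      exact (cu_deriv c.1 r z.1).mul_const (cu c.2 r z.2)
    have d2 : HasDerivAt (fun x => px w (x, z.2)) (px (px w) z) z.1 := by
      have := px_hasDerivAt (dlt (n := 2) s1 z)
      rwa [← px_eq (dlt (n := 2) s1 z)] at this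
    have d3 : HasDerivAt (fun x => py (py w) (x, z.2)) (px (py (py w)) z) z.1 := by
      have := px_hasDerivAt (dlt (n := 1) s22 z)
      rwa [← px_eq (dlt (n := 1) s22 z)] at this
    have d4 := ((d1.pow 2).mul (d2.mul d3)).neg
    have d5 : px F z = _ := d4.deriv
    rw [d5]
    simp only [Pi.mul_apply, Pi.pow_apply, Prod.mk.eta]
    push_cast
    ring
  have pyG : ∀ z, py G z = 2 * φ z * (cu c.1 r z.1 * -(2 * (z.2 - c.2) / r ^ 2)) *
      (px w z * px (py w) z) + φ z ^ 2 * (py (px w) z * px (py w) z +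
        px w z * py (px (py w)) z) := by
    intro z
    have d1 : HasDerivAt (fun y => φ (z.1, y)) (cu c.1 r z.1 * -(2 * (z.2 - c.2) / r ^ 2)) z.2 := by
      simp only [hφ]
      exact (cu_deriv c.2 r z.2).const_mul (cu c.1 r z.1)
    have d2 : HasDerivAt (fun y => px w (z.1, y)) (py (px w) z) z.2 := by
      have := py_hasDerivAt (dlt (n := 2) s1 z)
      rwa [← py_eq (dlt (n := 2) s1 z)] at this
    have d3 : HasDerivAt (fun y => px (py w) (z.1, y)) (py (px (py w)) z) z.2 := by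
      have := py_hasDerivAt (dlt (n := 1) s12 z)
      rwa [← py_eq (dlt (n := 1) s12 z)] at this
    have d4 := (d1.pow 2).mul (d2.mul d3)
    have d5 : py G z = _ := d4.deriv
    rw [d5]
    simp only [Pi.mul_apply, Pi.pow_apply, Prod.mk.eta]
    push_cast
    ring
  have hN2 : Continuous (N2 w) := by
    unfold N2
    exact ((s11.continuous.pow 2).add ((s12.continuous.pow 2).const_mul 2 |>.congr
      (fun _ => rfl))).add (s22.continuous.pow 2)
  have cφ : Continuous φ := sφ.continuous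
  -- pointwise bound
  have hpw : ∀ z ∈ Metric.closedBall c r, l / 4 * (φ z ^ 2 * N2 w z) ≤
      (px F z + py G z) + 32 * L ^ 2 / (l * r ^ 2) := by
    intro z hz
    have hz' : |z.1 - c.1| ≤ r ∧ |z.2 - c.2| ≤ r := by
      have h0 : dist z c ≤ r := hz
      rw [Prod.dist_eq, max_le_iff, Real.dist_eq, Real.dist_eq] at h0
      exact h0
    obtain ⟨p1, p2, p3⟩ := cu_bd hr hz'.1
    obtain ⟨q1, q2, q3⟩ := cu_bd hr hz'.2
    have e1 : py (px w) z = px (py w) z := symm hsm (by norm_num) z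
    have e2 : py (px (py w)) z = px (py (py w)) z := symm s2 (by norm_num) z
    have hx : |-(2 * (z.1 - c.1) / r ^ 2) * cu c.2 r z.2| ≤ 2 / r := by
      rw [abs_mul, abs_of_nonneg q1]
      calc _ ≤ 2 / r * 1 := by gcongr
        _ = _ := by ring
    have hy : |cu c.1 r z.1 * -(2 * (z.2 - c.2) / r ^ 2)| ≤ 2 / r := by
      rw [abs_mul, abs_of_nonneg p1]
      calc _ ≤ 1 * (2 / r) := by gcongr
        _ = _ := by ring
    have key := pw (φ := φ z) (w1 := px w z) (a := px (px w) z) (m := px (py w) z)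
      (d := py (py w) z) hl hl1 hL hr (hS.cv z hz) (hS.i1 z hz) (hS.i2 z hz)
      (mul_nonneg p1 q1) hx hy (hS.g1 z hz)
    rw [pxF, pyG, e1, e2]
    unfold N2
    refine key.trans (le_of_eq ?_)
    ring
  -- integrate
  have hcF : Continuous (px F) := (px_contDiff (n := 1) (m := 0) (by exact_mod_cast sF)
    (by norm_num)).continuous
  have hcG : Continuous (py G) := (py_contDiff (n := 1) (m := 0) (by exact_mod_cast sG)
    (by norm_num)).continuous
  have i1 : IntegrableOn (fun z => l / 4 * (φ z ^ 2 * N2 w z)) (Metric.closedBall c r) :=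
    (((cφ.pow 2).mul hN2).const_mul _ |>.congr (fun _ => rfl)).continuousOn.integrableOn_compact
      (isCompact_closedBall _ _)
  have i2 : IntegrableOn (fun z => px F z + py G z) (Metric.closedBall c r) :=
    (hcF.add hcG).continuousOn.integrableOn_compact (isCompact_closedBall _ _)
  have i3 : IntegrableOn (fun _ : ℝ × ℝ => 32 * L ^ 2 / (l * r ^ 2)) (Metric.closedBall c r) :=
    continuous_const.continuousOn.integrableOn_compact (isCompact_closedBall _ _)
  have m1 : ∫ z in Metric.closedBall c r, l / 4 * (φ z ^ 2 * N2 w z) ≤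
      ∫ z in Metric.closedBall c r, ((px F z + py G z) + 32 * L ^ 2 / (l * r ^ 2)) :=
    setIntegral_mono_on i1 (i2.add i3) Metric.isClosed_closedBall.measurableSet hpw
  rw [integral_add i2 i3, hdiv, zero_add, setIntegral_const, integral_const_mul] at m1
  have hvol : volume.real (Metric.closedBall c r) = (2 * r) ^ 2 := by
    rw [ball_eq, Measure.real, ← Icc_prod_Icc, Measure.volume_eq_prod, Measure.prod_prod,
      Real.volume_Icc, Real.volume_Icc, ENNReal.toReal_mul,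
      ENNReal.toReal_ofReal (by linarith), ENNReal.toReal_ofReal (by linarith)]
    ring
  rw [hvol, smul_eq_mul] at m1
  have m2 : ∫ z in Metric.closedBall c r, φ z ^ 2 * N2 w z ≤ 512 * L ^ 2 / l ^ 2 := by
    have : (2 * r) ^ 2 * (32 * L ^ 2 / (l * r ^ 2)) = l / 4 * (512 * L ^ 2 / l ^ 2) := by
      field_simp
      ring
    rw [this] at m1
    exact le_of_mul_le_mul_left m1 (by positivity)
  have hN0 : ∀ z, 0 ≤ N2 w z := by
    intro z; unfold N2; positivity
  have sub : Metric.closedBall c (r / 2) ⊆ Metric.closedBall c r :=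
    Metric.closedBall_subset_closedBall (by linarith)
  have i4 : IntegrableOn (fun z => φ z ^ 2 * N2 w z) (Metric.closedBall c r) :=
    ((cφ.pow 2).mul hN2).continuousOn.integrableOn_compact (isCompact_closedBall _ _)
  have m3 : ∫ z in Metric.closedBall c (r / 2), φ z ^ 2 * N2 w z ≤
      ∫ z in Metric.closedBall c r, φ z ^ 2 * N2 w z := by
    refine setIntegral_mono_set i4 ?_ (LE.le.eventuallyLE sub)
    exact Eventually.of_forall fun z => mul_nonneg (sq_nonneg _) (hN0 z)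
  have m4 : ∫ z in Metric.closedBall c (r / 2), 81 / 256 * N2 w z ≤
      ∫ z in Metric.closedBall c (r / 2), φ z ^ 2 * N2 w z := by
    refine setIntegral_mono_on ?_ (i4.mono_set sub) Metric.isClosed_closedBall.measurableSet ?_
    · exact (hN2.const_mul _ |>.congr (fun _ => rfl)).continuousOn.integrableOn_compact
        (isCompact_closedBall _ _)
    · intro z hz
      have hz' : |z.1 - c.1| ≤ r / 2 ∧ |z.2 - c.2| ≤ r / 2 := by
        have h0 : dist z c ≤ r / 2 := hz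
        rw [Prod.dist_eq, max_le_iff, Real.dist_eq, Real.dist_eq] at h0
        exact h0
      have a1 := cu_low hr hz'.1
      have a2 := cu_low hr hz'.2
      have a3 : 9 / 16 ≤ φ z := by
        simp only [hφ]
        nlinarith
      have a4 : 81 / 256 ≤ φ z ^ 2 := by nlinarith
      exact mul_le_mul_of_nonneg_right a4 (hN0 z)
  rw [integral_const_mul] at m4
  have m5 : 81 / 256 * ∫ z in Metric.closedBall c (r / 2), N2 w z ≤ 512 * L ^ 2 / l ^ 2 :=
    m4.trans (m3.trans m2)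
  have m6 : ∫ z in Metric.closedBall c (r / 2), N2 w z ≤ 256 / 81 * (512 * L ^ 2 / l ^ 2) := by
    linarith
  refine m6.trans ?_
  have : 256 / 81 * (512 * L ^ 2 / l ^ 2) = (256 * 512 / 81) * (L ^ 2 / l ^ 2) := by ring
  rw [this]
  have e3 : 2000 / l ^ 2 * L ^ 2 = 2000 * (L ^ 2 / l ^ 2) := by ring
  rw [e3]
  exact mul_le_mul_of_nonneg_right (by norm_num) (by positivity)

end Pool.Agent.W775.WH.HF2
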