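import Pool.Agent.W775.WH.Stm

/-!
Project WH (helper775), part HFS (helper28): Hoelder estimate for `py w` from the hole filling
inequality.
-/

set_option autoImplicit false

open MeasureTheory Set Filter Topology

namespace Pool.Agent.W775.WH.HFS

theorem px_eq {f : ℝ × ℝ → ℝ} (hf : Differentiable ℝ f) (z : ℝ × ℝ) :
    px f z = fderiv ℝ f z (1, 0) := by
  unfold px
  have h1 : HasDerivAt (fun x : ℝ => (x, z.2)) (1, 0) z.1 :=
    (hasDerivAt_id z.1).prodMk (hasDerivAt_const z.1 z.2)
  have h2 : HasFDerivAt f (fderiv ℝ f z) ((fun x : ℝ => (x, z.2)) z.1) := by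
    simpa using (hf z).hasFDerivAt
  exact (h2.comp_hasDerivAt z.1 h1).deriv

theorem py_eq {f : ℝ × ℝ → ℝ} (hf : Differentiable ℝ f) (z : ℝ × ℝ) :
    py f z = fderiv ℝ f z (0, 1) := by
  unfold py
  have h1 : HasDerivAt (fun y : ℝ => (z.1, y)) (0, 1) z.2 :=
    (hasDerivAt_const z.2 z.1).prodMk (hasDerivAt_id z.2)
  have h2 : HasFDerivAt f (fderiv ℝ f z) ((fun y : ℝ => (z.1, y)) z.2) := by
    simpa using (hf z).hasFDerivAt
  exact (h2.comp_hasDerivAt z.2 h1).deriv

theorem px_cd {n : ℕ} {f : ℝ × ℝ → ℝ} (hf : ContDiff ℝ (n + 1 : ℕ) f) :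
    ContDiff ℝ n (px f) := by
  have h : px f = fun z => fderiv ℝ f z (1, 0) :=
    funext (px_eq (hf.differentiable (by simp)))
  rw [h]
  exact (hf.fderiv_right (m := n) (by norm_cast)).clm_apply contDiff_const

theorem py_cd {n : ℕ} {f : ℝ × ℝ → ℝ} (hf : ContDiff ℝ (n + 1 : ℕ) f) :
    ContDiff ℝ n (py f) := by
  have h : py f = fun z => fderiv ℝ f z (0, 1) :=
    funext (py_eq (hf.differentiable (by simp)))
  rw [h]
  exact (hf.fderiv_right (m := n) (by norm_cast)).clm_apply contDiff_const

theorem N2_cont {w : ℝ × ℝ → ℝ} (hw : ContDiff ℝ 4 w) : Continuous (N2 w) := by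
  have h4 : ContDiff ℝ (3 + 1 : ℕ) w := by exact_mod_cast hw
  have hx : ContDiff ℝ (2 + 1 : ℕ) (px w) := px_cd (n := 3) h4
  have hy : ContDiff ℝ (2 + 1 : ℕ) (py w) := py_cd (n := 3) h4
  have hxx := (px_cd (n := 2) hx).continuous
  have hxy := (px_cd (n := 2) hy).continuous
  have hyy := (py_cd (n := 2) hy).continuous
  unfold N2
  exact ((hxx.pow 2).add ((continuous_const.mul (hxy.pow 2)))).add (hyy.pow 2)

theorem N2_nn (w : ℝ × ℝ → ℝ) (z : ℝ × ℝ) : 0 ≤ N2 w z := by
  unfold N2; positivity

theorem E_mono {w : ℝ × ℝ → ℝ} (hw : ContDiff ℝ 4 w) {z z' : ℝ × ℝ} {ρ ρ' : ℝ}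
    (h : Metric.closedBall z ρ ⊆ Metric.closedBall z' ρ') :
    (∫ x in Metric.closedBall z ρ, N2 w x) ≤ ∫ x in Metric.closedBall z' ρ', N2 w x := by
  apply setIntegral_mono_set
  · exact (N2_cont hw).continuousOn.integrableOn_compact (isCompact_closedBall z' ρ')
  · exact Filter.Eventually.of_forall (fun x => N2_nn w x)
  · exact Filter.Eventually.of_forall h

theorem t_HFS (h1 : S_HF1) (h2 : S_HF2) : S_HFS := by
  intro l hl0 hl1
  obtain ⟨K1, hK1, H1⟩ := h1 l hl0 hl1
  obtain ⟨K2, hK2, H2⟩ := h2 l hl0 hl1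
  set θ : ℝ := K1 / (1 + K1) with hθ
  have hθ0 : 0 < θ := by positivity
  have hθ1 : θ < 1 := by
    rw [hθ, div_lt_one (by positivity)]; linarith
  obtain ⟨b, hb0, hb1, hb⟩ : ∃ b : ℝ, 0 < b ∧ b < 1 ∧ θ ≤ (1 / 4 : ℝ) ^ b := by
    have hlog : 0 < Real.log (1 / θ) := Real.log_pos (by rw [lt_div_iff₀ hθ0]; linarith)
    have hl4 : 0 < Real.log 4 := Real.log_pos (by norm_num)
    refine ⟨min (1 / 2) (Real.log (1 / θ) / Real.log 4), lt_min (by norm_num) (by positivity),
      lt_of_le_of_lt (min_le_left _ _) (by norm_num), ?_⟩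
    have h5 : min (1 / 2) (Real.log (1 / θ) / Real.log 4) * Real.log 4 ≤ Real.log (1 / θ) := by
      calc _ ≤ Real.log (1 / θ) / Real.log 4 * Real.log 4 :=
            mul_le_mul_of_nonneg_right (min_le_right _ _) hl4.le
        _ = _ := div_mul_cancel₀ _ hl4.ne'
    have h7 : Real.log (1 / θ) = - Real.log θ := by rw [one_div, Real.log_inv]
    have h6 : Real.log (1 / 4) = - Real.log 4 := by rw [one_div, Real.log_inv]
    rw [Real.rpow_def_of_pos (by norm_num), h6]
    calc θ = Real.exp (Real.log θ) := (Real.exp_log hθ0).symm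
      _ ≤ _ := by
        apply Real.exp_le_exp.mpr
        rw [h7] at h5 ⊢
        linarith
  refine ⟨b, hb0, hb1, ?_⟩
  intro L r hL hr
  refine ⟨2 * L * (4 / r) ^ b + Real.sqrt (K1 * K2) * L * (8 / r) ^ b, by positivity, ?_⟩
  intro c w hw x hx y hy
  have hxr : x ∈ Metric.closedBall c r := Metric.closedBall_subset_closedBall (by linarith) hx
  have hyr : y ∈ Metric.closedBall c r := Metric.closedBall_subset_closedBall (by linarith) hy
  set d := ‖x - y‖ with hd
  rcases eq_or_lt_of_le (norm_nonneg (x - y)) with h0 | h0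
  · have hxy : x = y := sub_eq_zero.mp (norm_eq_zero.mp h0.symm)
    rw [hxy, sub_self, abs_zero]
    positivity
  · change 0 < d at h0
    have hdb : 0 ≤ d ^ b := by positivity
    have hC1 : 0 ≤ 2 * L * (4 / r) ^ b := by positivity
    have hC2 : 0 ≤ Real.sqrt (K1 * K2) * L * (8 / r) ^ b := by positivity
    by_cases hbig : 1 < 4 * d / r
    · have h3 : |py w x - py w y| ≤ 2 * L := by
        calc |py w x - py w y| ≤ |py w x| + |py w y| := abs_sub _ _
          _ ≤ L + L := add_le_add (hw.g2 x hxr) (hw.g2 y hyr)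
          _ = 2 * L := by ring
      have h4 : 1 ≤ (4 * d / r) ^ b := Real.one_le_rpow hbig.le hb0.le
      have h5 : (4 * d / r) ^ b = (4 / r) ^ b * d ^ b := by
        rw [← Real.mul_rpow (by positivity) h0.le]; congr 1; ring
      rw [h5] at h4
      nlinarith
    · push Not at hbig
      obtain ⟨n, hn1, hn2⟩ := exists_nat_pow_near_of_lt_one (x := 4 * d / r) (y := 1 / 2)
        (by positivity) hbig (by norm_num) (by norm_num)
      -- the midpoint
      set z : ℝ × ℝ := (1 / 2 : ℝ) • (x + y) with hz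
      have hxz : ‖x - z‖ = d / 2 := by
        have : x - z = (1 / 2 : ℝ) • (x - y) := by
          rw [hz]
          ext <;> simp <;> ring
        rw [this, norm_smul, hd]; norm_num; ring
      have hyz : ‖y - z‖ = d / 2 := by
        have : y - z = (-(1 / 2) : ℝ) • (x - y) := by
          rw [hz]
          ext <;> simp <;> ring
        rw [this, norm_smul, hd]; norm_num; ring
      have hzc : ‖z - c‖ ≤ r / 4 := by
        have : z - c = (1 / 2 : ℝ) • ((x - c) + (y - c)) := by
          rw [hz]
          ext <;> simp <;> ring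
        rw [this, norm_smul]
        rw [Metric.mem_closedBall, dist_eq_norm] at hx hy
        have := norm_add_le (x - c) (y - c)
        norm_num
        linarith
      have hsub : ∀ ρ : ℝ, ρ ≤ r / 4 → Metric.closedBall z ρ ⊆ Metric.closedBall c (r / 2) := by
        intro ρ hρ u hu
        rw [Metric.mem_closedBall, dist_eq_norm] at hu ⊢
        have : u - c = (u - z) + (z - c) := by abel
        rw [this]
        have := norm_add_le (u - z) (z - c)
        linarith
      have hsub' : Metric.closedBall c (r / 2) ⊆ Metric.closedBall c r :=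
        Metric.closedBall_subset_closedBall (by linarith)
      have hpow1 : ∀ j : ℕ, (1 / 2 : ℝ) ^ j ≤ 1 := fun j => pow_le_one₀ (by norm_num) (by norm_num)
      have hpow0 : ∀ j : ℕ, (0 : ℝ) < (1 / 2 : ℝ) ^ j := fun j => by positivity
      -- decay
      have hdec : ∀ j : ℕ, (∫ u in Metric.closedBall z (2 * ((1 / 2) ^ j * (r / 8))), N2 w u) ≤
          θ ^ j * (K2 * L ^ 2) := by
        intro j
        induction j with
        | zero =>
          rw [pow_zero, one_mul, pow_zero, one_mul]
          exact (E_mono hw.sm (hsub _ (by linarith))).trans (H2 L r c w hr hL hw)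
        | succ j ih =>
          have hρ : 0 < (1 / 2 : ℝ) ^ j * (r / 8) := by have := hpow0 j; positivity
          have hρ' : 2 * ((1 / 2 : ℝ) ^ j * (r / 8)) ≤ r / 4 := by
            have := hpow1 j
            nlinarith
          have h3 := (H1 L r c w hr hw z ((1 / 2) ^ j * (r / 8)) hρ
            ((hsub _ hρ').trans hsub')).1
          have e1 : 2 * ((1 / 2 : ℝ) ^ (j + 1) * (r / 8)) = (1 / 2) ^ j * (r / 8) := by
            rw [pow_succ]; ring
          rw [e1]
          set A := ∫ u in Metric.closedBall z ((1 / 2) ^ j * (r / 8)), N2 w u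
          set B := ∫ u in Metric.closedBall z (2 * ((1 / 2) ^ j * (r / 8))), N2 w u
          have h4 : A ≤ θ * B := by
            rw [hθ, div_mul_eq_mul_div, le_div_iff₀ (by positivity)]
            nlinarith
          calc A ≤ θ * B := h4
            _ ≤ θ * (θ ^ j * (K2 * L ^ 2)) := mul_le_mul_of_nonneg_left ih hθ0.le
            _ = θ ^ (j + 1) * (K2 * L ^ 2) := by rw [pow_succ]; ring
      have hρ : 0 < (1 / 2 : ℝ) ^ n * (r / 8) := by have := hpow0 n; positivity
      have hρ' : 2 * ((1 / 2 : ℝ) ^ n * (r / 8)) ≤ r / 4 := by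
        have := hpow1 n
        nlinarith
      have hdn : d / 2 ≤ (1 / 2 : ℝ) ^ n * (r / 8) := by
        rw [div_le_iff₀ hr] at hn2
        nlinarith
      have h5 := (H1 L r c w hr hw z ((1 / 2) ^ n * (r / 8)) hρ ((hsub _ hρ').trans hsub')).2
        x (by rw [Metric.mem_closedBall, dist_eq_norm, hxz]; exact hdn)
        y (by rw [Metric.mem_closedBall, dist_eq_norm, hyz]; exact hdn)
      have h6 : (py w x - py w y) ^ 2 ≤ K1 * K2 * L ^ 2 * ((8 / r) ^ b * d ^ b) ^ 2 := by
        have h7 : θ ^ n ≤ ((8 / r) ^ b * d ^ b) ^ 2 := by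
          have h8 : (1 / 2 : ℝ) ^ n ≤ 8 / r * d := by
            have : (1 / 2 : ℝ) ^ (n + 1) = (1 / 2) ^ n / 2 := by rw [pow_succ]; ring
            rw [this] at hn1
            have : 4 * d / r = (8 / r * d) / 2 := by ring
            linarith
          calc θ ^ n ≤ ((1 / 4 : ℝ) ^ b) ^ n := pow_le_pow_left₀ hθ0.le hb n
            _ = (((1 / 2 : ℝ) ^ n) ^ b) ^ 2 := by
                rw [← Real.rpow_natCast, ← Real.rpow_natCast, ← Real.rpow_natCast,
                  ← Real.rpow_mul (by norm_num), ← Real.rpow_mul (by norm_num),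
                  ← Real.rpow_mul (by norm_num)]
                have : (1 / 4 : ℝ) = (1 / 2) ^ (2 : ℝ) := by norm_num
                rw [this, ← Real.rpow_mul (by norm_num)]
                congr 1
                push_cast
                ring
            _ ≤ ((8 / r * d) ^ b) ^ 2 := by
                apply pow_le_pow_left₀ (by positivity)
                exact Real.rpow_le_rpow (hpow0 n).le h8 hb0.le
            _ = _ := by rw [Real.mul_rpow (by positivity) h0.le]
        calc (py w x - py w y) ^ 2 ≤ K1 * (θ ^ n * (K2 * L ^ 2)) :=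
              h5.trans (mul_le_mul_of_nonneg_left (hdec n) hK1.le)
          _ = K1 * K2 * L ^ 2 * θ ^ n := by ring
          _ ≤ _ := mul_le_mul_of_nonneg_left h7 (by positivity)
      have h9 : |py w x - py w y| ≤ Real.sqrt (K1 * K2) * L * ((8 / r) ^ b * d ^ b) := by
        apply abs_le_of_sq_le_sq _ (by positivity)
        rw [mul_pow, mul_pow, Real.sq_sqrt (by positivity)]
        exact h6
      calc |py w x - py w y| ≤ Real.sqrt (K1 * K2) * L * ((8 / r) ^ b * d ^ b) := h9
        _ = Real.sqrt (K1 * K2) * L * (8 / r) ^ b * d ^ b := by ring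
        _ ≤ _ := by nlinarith

end Pool.Agent.W775.WH.HFS
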