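import Pool.Agent.W775.WH.Stm

/-! Project WH: Hoelder estimate for `Sad` functions (part HOLD). -/

set_option autoImplicit false

open MeasureTheory Set Filter Topology

namespace Pool.Agent.W775.WH.HOLD

open Pool.Agent.W775.WH

lemma mvt (w : ℝ × ℝ → ℝ) (hw : ContDiff ℝ 4 w) (p a t : ℝ) (ht : 0 < t) :
    ∃ ξ : ℝ, a ≤ ξ ∧ ξ ≤ a + t ∧ w (p, a + t) - w (p, a) = t * py w (p, ξ) := by
  have hd : Differentiable ℝ (fun s : ℝ => w (p, s)) := by
    have h1 : Differentiable ℝ w := hw.differentiable (by norm_num)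
    have h2 : Differentiable ℝ (fun s : ℝ => (p, s)) := by fun_prop
    exact h1.comp h2
  obtain ⟨ξ, hξ, h⟩ := exists_deriv_eq_slope (fun s : ℝ => w (p, s)) (show a < a + t by linarith)
    hd.continuous.continuousOn hd.differentiableOn
  refine ⟨ξ, hξ.1.le, hξ.2.le, ?_⟩
  have h2 : py w (p, ξ) = deriv (fun s : ℝ => w (p, s)) ξ := rfl
  have h3 : a + t - a = t := by ring
  rw [h3] at h
  rw [h2, h]
  field_simp

lemma mem_ball {p0 y0 ξ R : ℝ} (h : |ξ - y0| ≤ R) :
    ((p0, ξ) : ℝ × ℝ) ∈ Metric.closedBall ((p0, y0) : ℝ × ℝ) R := by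
  rw [Metric.mem_closedBall, Prod.dist_eq, Real.dist_eq, Real.dist_eq]
  simp [h, (abs_nonneg (ξ - y0)).trans h]

lemma one_side {l L r p0 y0 b C : ℝ} {v : ℝ → ℝ → ℝ} (h1 : S_MOL) (hl : 0 < l) (hl1 : l < 1)
    (hL : 0 < L) (hr : 0 < r) (hb : 0 < b) (hC : 0 < C)
    (hf : ∀ (c : ℝ × ℝ) (w : ℝ × ℝ → ℝ), SmS l L (r / 2) c w →
      ∀ x ∈ Metric.closedBall c (r / 2 / 4), ∀ y ∈ Metric.closedBall c (r / 2 / 4),
        |py w x - py w y| ≤ C * ‖x - y‖ ^ b)
    (hv : Sad l L r p0 y0 v) {y y' q q' : ℝ} (hy : |y - y0| ≤ r / 32) (hy' : |y' - y0| ≤ r / 32)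
    (hq : ∀ t : ℝ, |t - y0| ≤ r → - v p0 y + q * (t - y) ≤ - v p0 t)
    (hq' : ∀ t : ℝ, |t - y0| ≤ r → - v p0 y' + q' * (t - y') ≤ - v p0 t)
    {t : ℝ} (ht : 0 < t) (ht' : t ≤ r / 16) :
    q - q' ≤ C * (|y - y'| + 2 * t) ^ b := by
  rw [abs_le] at hy hy'
  have e1 : q * t ≤ v p0 y - v p0 (y + t) := by
    have := hq (y + t) (by rw [abs_le]; constructor <;> linarith)
    have e : q * (y + t - y) = q * t := by ring
    rw [e] at this
    linarith
  have e2 : v p0 (y' - t) - v p0 y' ≤ q' * t := by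
    have := hq' (y' - t) (by rw [abs_le]; constructor <;> linarith)
    have e : q' * (y' - t - y') = - (q' * t) := by ring
    rw [e] at this
    linarith
  have key : ∀ ε : ℝ, 0 < ε → t * (q - q') ≤ t * (C * (|y - y'| + 2 * t) ^ b) + ε := by
    intro ε hε
    set ε' : ℝ := min (ε / (8 * L)) (r / 4) with hε'
    have h3 : 0 < ε' := lt_min (by positivity) (by positivity)
    have h4 : ε' ≤ ε / (8 * L) := min_le_left _ _
    have h4' : 8 * L * ε' ≤ ε := by
      rw [le_div_iff₀ (by positivity)] at h4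
      linarith
    obtain ⟨w, hw, hw2⟩ := h1 l L r p0 y0 v hl hl1 hL hr hv ε' h3 (min_le_right _ _)
    have hS : SmS l L (r / 2) (p0, y0) w := by
      have hz : ∀ z ∈ Metric.closedBall ((p0, y0) : ℝ × ℝ) (r / 2),
          |z.1 - p0| ≤ r / 2 ∧ |z.2 - y0| ≤ r / 2 := by
        intro z hz
        rw [Metric.mem_closedBall, Prod.dist_eq, Real.dist_eq, Real.dist_eq, max_le_iff] at hz
        exact hz
      exact ⟨hw, fun z h => (hw2 z (hz z h).1 (hz z h).2).2.1,
        fun z h => (hw2 z (hz z h).1 (hz z h).2).2.2.1,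
        fun z h => (hw2 z (hz z h).1 (hz z h).2).2.2.2.1,
        fun z h => (hw2 z (hz z h).1 (hz z h).2).2.2.2.2.1,
        fun z h => (hw2 z (hz z h).1 (hz z h).2).2.2.2.2.2⟩
    have ap : ∀ s : ℝ, |s - y0| ≤ r / 8 → |w (p0, s) - v p0 s| ≤ 2 * L * ε' := by
      intro s hs
      exact (hw2 (p0, s) (by simp only [sub_self, abs_zero]; positivity) (by
        show |s - y0| ≤ r / 2
        linarith)).1
    obtain ⟨ξ, k1, k2, k3⟩ := mvt w hw p0 y t ht
    obtain ⟨ζ, m1, m2, m3⟩ := mvt w hw p0 (y' - t) t ht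
    have m4 : y' - t + t = y' := by ring
    rw [m4] at m2 m3
    have hξ : |ξ - y0| ≤ r / 2 / 4 := by rw [abs_le]; constructor <;> linarith
    have hζ : |ζ - y0| ≤ r / 2 / 4 := by rw [abs_le]; constructor <;> linarith
    have h5 := hf (p0, y0) w hS (p0, ξ) (mem_ball hξ) (p0, ζ)
      (mem_ball hζ)
    have h6 : ‖((p0, ξ) : ℝ × ℝ) - (p0, ζ)‖ ≤ |y - y'| + 2 * t := by
      rw [Prod.mk_sub_mk, sub_self, Prod.norm_mk, norm_zero, Real.norm_eq_abs]
      apply max_le (by positivity)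
      rw [abs_le]
      have := le_abs_self (y - y')
      have := neg_abs_le (y - y')
      constructor <;> linarith
    have h7 : |py w (p0, ξ) - py w (p0, ζ)| ≤ C * (|y - y'| + 2 * t) ^ b :=
      h5.trans (mul_le_mul_of_nonneg_left (Real.rpow_le_rpow (norm_nonneg _) h6 hb.le) hC.le)
    have h8 : t * (py w (p0, ζ) - py w (p0, ξ)) ≤ t * (C * (|y - y'| + 2 * t) ^ b) := by
      apply mul_le_mul_of_nonneg_left _ ht.le
      have := neg_abs_le (py w (p0, ξ) - py w (p0, ζ))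
      linarith
    have a1 := abs_le.mp (ap y (by rw [abs_le]; constructor <;> linarith))
    have a2 := abs_le.mp (ap (y + t) (by rw [abs_le]; constructor <;> linarith))
    have a3 := abs_le.mp (ap (y' - t) (by rw [abs_le]; constructor <;> linarith))
    have a4 := abs_le.mp (ap y' (by rw [abs_le]; constructor <;> linarith))
    linarith [a1.1, a2.2, a3.2, a4.1]
  have h9 : t * (q - q') ≤ t * (C * (|y - y'| + 2 * t) ^ b) := le_of_forall_pos_le_add key
  exact le_of_mul_le_mul_left h9 ht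

theorem t_HOLD (h1 : S_MOL) (h2 : S_HFS) : S_HOLD := by
  intro l hl hl1
  obtain ⟨b, hb, hb1, h3⟩ := h2 l hl hl1
  refine ⟨b, hb, hb1, fun L r hL hr => ?_⟩
  obtain ⟨C, hC, hf⟩ := h3 L (r / 2) hL (by positivity)
  refine ⟨C * 3 ^ b, by positivity, ?_⟩
  intro p0 y0 v hv y y' q q' hy hy' hq hq'
  have main : ∀ t : ℝ, 0 < t → t ≤ r / 16 → |q - q'| ≤ C * (|y - y'| + 2 * t) ^ b := by
    intro t ht ht'
    rw [abs_le]
    have a1 := one_side h1 hl hl1 hL hr hb hC hf hv hy hy' hq hq' ht ht'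
    have a2 := one_side h1 hl hl1 hL hr hb hC hf hv hy' hy hq' hq ht ht'
    rw [abs_sub_comm y' y] at a2
    constructor <;> linarith
  rcases eq_or_ne y y' with hyy | hyy
  · subst hyy
    rw [sub_self, abs_zero, Real.zero_rpow hb.ne', mul_zero]
    have lim : Tendsto (fun t : ℝ => C * (|y - y| + 2 * t) ^ b) (𝓝[>] 0) (𝓝 (C * (|y - y| + 2 * 0) ^ b)) := by
      apply Tendsto.mono_left _ nhdsWithin_le_nhds
      apply Continuous.tendsto
      have : Continuous fun t : ℝ => (|y - y| + 2 * t) ^ b :=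
        (by fun_prop : Continuous fun t : ℝ => |y - y| + 2 * t).rpow_const (fun _ => Or.inr hb.le)
      exact continuous_const.mul this
    have h4 : C * (|y - y| + 2 * 0) ^ b = 0 := by
      simp [Real.zero_rpow hb.ne']
    rw [h4] at lim
    refine ge_of_tendsto lim ?_
    have h5 : Ioc (0 : ℝ) (r / 16) ∈ 𝓝[>] (0 : ℝ) := Ioc_mem_nhdsGT (by positivity)
    filter_upwards [h5] with t ht
    exact main t ht.1 ht.2
  · have hpos : 0 < |y - y'| := abs_pos.mpr (sub_ne_zero.mpr hyy)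
    have hle : |y - y'| ≤ r / 16 := by
      rw [abs_le] at hy hy' ⊢
      constructor <;> linarith
    have h4 := main _ hpos hle
    have h5 : |y - y'| + 2 * |y - y'| = 3 * |y - y'| := by ring
    rw [h5, Real.mul_rpow (by norm_num) hpos.le] at h4
    rw [mul_assoc]
    exact h4

end Pool.Agent.W775.WH.HOLD
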