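import Mathlib

/-!
Project WH (helper775): MP_4aaa5f_an / S04589, sharp weak `L^p` estimate for the Hessian of planar
solutions of the Monge-Ampere equation.  Everything is written on `ℝ × ℝ` (sup norm, product measure).
-/

set_option autoImplicit false

open MeasureTheory Set Filter Topology

namespace Pool.Agent.W775.WH

/-- subgradients of `u` at `z` relative to `Ω` -/
def Sub (Ω : Set (ℝ × ℝ)) (u : ℝ × ℝ → ℝ) (z : ℝ × ℝ) : Set (ℝ × ℝ) :=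
  {p | ∀ w ∈ Ω, u z + (p.1 * (w.1 - z.1) + p.2 * (w.2 - z.2)) ≤ u w}

/-- convex `u` on the open convex `Ω` whose Monge-Ampere measure is between `l` and `1/l` -/
structure MA (l : ℝ) (Ω : Set (ℝ × ℝ)) (u : ℝ × ℝ → ℝ) : Prop where
  op : IsOpen Ω
  cx : Convex ℝ Ω
  cv : ConvexOn ℝ Ω u
  bd : ∀ B : Set (ℝ × ℝ), MeasurableSet B → B ⊆ Ω →
    ENNReal.ofReal l * volume B ≤ volume (⋃ z ∈ B, Sub Ω u z) ∧
    volume (⋃ z ∈ B, Sub Ω u z) ≤ ENNReal.ofReal l⁻¹ * volume B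

/-- rotation (when `c ^ 2 + s ^ 2 = 1`); the inverse is `rot c (-s)` -/
def rot (c s : ℝ) (z : ℝ × ℝ) : ℝ × ℝ := (c * z.1 - s * z.2, s * z.1 + c * z.2)

/-- the linear form with coefficients `p` -/
def lin (p : ℝ × ℝ) : ℝ × ℝ →L[ℝ] ℝ :=
  p.1 • ContinuousLinearMap.fst ℝ ℝ ℝ + p.2 • ContinuousLinearMap.snd ℝ ℝ ℝ

/-- window for the partial Legendre transform in the first variable -/
structure Win (Ω : Set (ℝ × ℝ)) (u : ℝ × ℝ → ℝ) (x0 y0 p0 δ ρ L : ℝ) : Prop where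
  δ0 : 0 < δ
  ρ0 : 0 < ρ
  L0 : 0 < L
  box : ∀ x y : ℝ, |x - x0| ≤ δ → |y - y0| ≤ ρ → (x, y) ∈ Ω
  intr : ∀ y p : ℝ, |y - y0| ≤ ρ → |p - p0| ≤ ρ →
    u (x0, y) - p * x0 < u (x0 + δ, y) - p * (x0 + δ) ∧
    u (x0, y) - p * x0 < u (x0 - δ, y) - p * (x0 - δ)
  lip : ∀ x y x' y' : ℝ, |x - x0| ≤ δ → |y - y0| ≤ ρ → |x' - x0| ≤ δ → |y' - y0| ≤ ρ →
    |u (x, y) - u (x', y')| ≤ L * (|x - x'| + |y - y'|)

/-- partial Legendre transform: `leg u x0 δ p y = sup_{|x-x0| ≤ δ} (p (x - x0) - u (x, y))` -/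
noncomputable def leg (u : ℝ × ℝ → ℝ) (x0 δ p y : ℝ) : ℝ :=
  sSup ((fun x : ℝ => p * (x - x0) - u (x, y)) '' Icc (x0 - δ) (x0 + δ))

/-- saddle functions: convex in `p`, concave in `y`, with `l v_pp ≤ - v_yy ≤ l⁻¹ v_pp` (as measures,
tested on products of tent functions; no derivative of `v` appears) on the box of half side `r` -/
structure Sad (l L r p0 y0 : ℝ) (v : ℝ → ℝ → ℝ) : Prop where
  cvx : ∀ y : ℝ, |y - y0| ≤ r → ConvexOn ℝ (Icc (p0 - r) (p0 + r)) (fun p => v p y)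
  ccv : ∀ p : ℝ, |p - p0| ≤ r → ConcaveOn ℝ (Icc (y0 - r) (y0 + r)) (fun y => v p y)
  lip : ∀ p y p' y' : ℝ, |p - p0| ≤ r → |y - y0| ≤ r → |p' - p0| ≤ r → |y' - y0| ≤ r →
    |v p y - v p' y'| ≤ L * (|p - p'| + |y - y'|)
  rl : ∀ p y h k : ℝ, 0 < h → 0 < k → |p - p0| + h ≤ r → |y - y0| + k ≤ r →
    l * (∫ t in (-k)..k, (k - |t|) * (v (p + h) (y + t) + v (p - h) (y + t) - 2 * v p (y + t))) ≤
      ∫ t in (-h)..h, (h - |t|) * (2 * v (p + t) y - v (p + t) (y + k) - v (p + t) (y - k))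
  ru : ∀ p y h k : ℝ, 0 < h → 0 < k → |p - p0| + h ≤ r → |y - y0| + k ≤ r →
    (∫ t in (-h)..h, (h - |t|) * (2 * v (p + t) y - v (p + t) (y + k) - v (p + t) (y - k))) ≤
      l⁻¹ * (∫ t in (-k)..k, (k - |t|) * (v (p + h) (y + t) + v (p - h) (y + t) - 2 * v p (y + t)))

/-- entries of the derivative of the gradient map `P` (junk value `0` where `P` is not differentiable) -/
noncomputable def h11 (P : ℝ × ℝ → ℝ × ℝ) (z : ℝ × ℝ) : ℝ := (fderiv ℝ P z (1, 0)).1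
noncomputable def h12 (P : ℝ × ℝ → ℝ × ℝ) (z : ℝ × ℝ) : ℝ := (fderiv ℝ P z (0, 1)).1
noncomputable def h21 (P : ℝ × ℝ → ℝ × ℝ) (z : ℝ × ℝ) : ℝ := (fderiv ℝ P z (1, 0)).2
noncomputable def h22 (P : ℝ × ℝ → ℝ × ℝ) (z : ℝ × ℝ) : ℝ := (fderiv ℝ P z (0, 1)).2
/-- trace and determinant -/
noncomputable def T0 (P : ℝ × ℝ → ℝ × ℝ) (z : ℝ × ℝ) : ℝ := h11 P z + h22 P z
noncomputable def D0 (P : ℝ × ℝ → ℝ × ℝ) (z : ℝ × ℝ) : ℝ := h11 P z * h22 P z - h12 P z ^ 2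

/-- good points: `P` is differentiable, the derivative is symmetric, positive, with determinant
between `l` and `1/l` -/
def Good (l : ℝ) (P : ℝ × ℝ → ℝ × ℝ) (z : ℝ × ℝ) : Prop :=
  DifferentiableAt ℝ P z ∧ h12 P z = h21 P z ∧ 0 ≤ h11 P z ∧ 0 ≤ h22 P z ∧
    l ≤ D0 P z ∧ D0 P z ≤ l⁻¹

/-- the gradient package: `P` is the gradient of `u` on `Ω`, locally Hoelder and injective -/
structure Grad (l b : ℝ) (Ω : Set (ℝ × ℝ)) (u : ℝ × ℝ → ℝ) (P : ℝ × ℝ → ℝ × ℝ) : Prop where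
  ma : MA l Ω u
  sub : ∀ z ∈ Ω, Sub Ω u z = {P z}
  der : ∀ z ∈ Ω, HasFDerivAt u (lin (P z)) z
  inj : InjOn P Ω
  hol : ∀ K : Set (ℝ × ℝ), IsCompact K → K ⊆ Ω →
    ∃ C : ℝ, 0 < C ∧ ∀ z ∈ K, ∀ w ∈ K, ‖P z - P w‖ ≤ C * ‖z - w‖ ^ b

/-- The local package.  `g` is globally convex and Lipschitz, `P` is its gradient in the open square
`ball z0 (3 R)`, with the Hoelder bounds and the almost everywhere information. -/
structure Loc (l b C R : ℝ) (z0 : ℝ × ℝ) (g : ℝ × ℝ → ℝ) (P : ℝ × ℝ → ℝ × ℝ) : Prop where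
  l0 : 0 < l
  l1 : l < 1
  b0 : 0 < b
  b1 : b < 1
  C0 : 0 < C
  R0 : 0 < R
  cv : ConvexOn ℝ univ g
  lip : ∀ z w : ℝ × ℝ, |g z - g w| ≤ C * ‖z - w‖
  der : ∀ z ∈ Metric.ball z0 (3 * R), HasFDerivAt g (lin (P z)) z
  hol : ∀ z ∈ Metric.closedBall z0 (2 * R), ∀ w : ℝ × ℝ,
    |g w - g z - ((P z).1 * (w.1 - z.1) + (P z).2 * (w.2 - z.2))| ≤ C * ‖w - z‖ ^ (1 + b)
  holP : ∀ z ∈ Metric.ball z0 (3 * R), ∀ w ∈ Metric.ball z0 (3 * R),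
    ‖P z - P w‖ ≤ C * ‖z - w‖ ^ b
  good : ∀ᵐ z ∂(volume.restrict (Metric.ball z0 (3 * R))), Good l P z
  inj : InjOn P (Metric.ball z0 (3 * R))
  area : ∀ B : Set (ℝ × ℝ), MeasurableSet B → B ⊆ Metric.ball z0 (3 * R) →
    volume (P '' B) = ∫⁻ z in B, ENNReal.ofReal (D0 P z)

/-! ### heat extension -/

/-- Gaussian density at time one: `G_1` for the equation `u_t = Δ u` -/
noncomputable def gam (w : ℝ × ℝ) : ℝ := (4 * Real.pi)⁻¹ * Real.exp (-(w.1 ^ 2 + w.2 ^ 2) / 4)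

/-- heat extension `U(t, x, y)` of `g`, its gradient, and `HT = U_xx + U_yy`, `HA = U_xx - U_yy`,
`HB = 2 U_xy` (for `t > 0`) -/
noncomputable def HU (g : ℝ × ℝ → ℝ) (t x y : ℝ) : ℝ :=
  ∫ w : ℝ × ℝ, gam w * g (x - Real.sqrt t * w.1, y - Real.sqrt t * w.2)
noncomputable def HX (g : ℝ × ℝ → ℝ) (t x y : ℝ) : ℝ :=
  (Real.sqrt t)⁻¹ * ∫ w : ℝ × ℝ, (-w.1 / 2) * gam w * g (x - Real.sqrt t * w.1, y - Real.sqrt t * w.2)
noncomputable def HY (g : ℝ × ℝ → ℝ) (t x y : ℝ) : ℝ :=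
  (Real.sqrt t)⁻¹ * ∫ w : ℝ × ℝ, (-w.2 / 2) * gam w * g (x - Real.sqrt t * w.1, y - Real.sqrt t * w.2)
noncomputable def HT (g : ℝ × ℝ → ℝ) (t x y : ℝ) : ℝ :=
  t⁻¹ * ∫ w : ℝ × ℝ, ((w.1 ^ 2 + w.2 ^ 2) / 4 - 1) * gam w *
    g (x - Real.sqrt t * w.1, y - Real.sqrt t * w.2)
noncomputable def HA (g : ℝ × ℝ → ℝ) (t x y : ℝ) : ℝ :=
  t⁻¹ * ∫ w : ℝ × ℝ, ((w.1 ^ 2 - w.2 ^ 2) / 4) * gam w *
    g (x - Real.sqrt t * w.1, y - Real.sqrt t * w.2)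
noncomputable def HB (g : ℝ × ℝ → ℝ) (t x y : ℝ) : ℝ :=
  t⁻¹ * ∫ w : ℝ × ℝ, (w.1 * w.2 / 2) * gam w *
    g (x - Real.sqrt t * w.1, y - Real.sqrt t * w.2)
/-- determinant of the Hessian of `U` -/
noncomputable def HD (g : ℝ × ℝ → ℝ) (t x y : ℝ) : ℝ :=
  (HT g t x y ^ 2 - HA g t x y ^ 2 - HB g t x y ^ 2) / 4

/-- partial derivatives of functions of `(t, x, y)` -/
noncomputable def dX (f : ℝ → ℝ → ℝ → ℝ) (t x y : ℝ) : ℝ := deriv (fun x' => f t x' y) x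
noncomputable def dY (f : ℝ → ℝ → ℝ → ℝ) (t x y : ℝ) : ℝ := deriv (fun y' => f t x y') y
noncomputable def dS (f : ℝ → ℝ → ℝ → ℝ) (t x y : ℝ) : ℝ := deriv (fun t' => f t' x y) t

/-- `f` is `C^n` for `t > 0` -/
def Sm (n : ℕ) (f : ℝ → ℝ → ℝ → ℝ) : Prop :=
  ContDiffOn ℝ n (fun q : ℝ × ℝ × ℝ => f q.1 q.2.1 q.2.2) {q | 0 < q.1}

/-- partial derivatives of functions on the plane -/
noncomputable def px (f : ℝ × ℝ → ℝ) (z : ℝ × ℝ) : ℝ := deriv (fun x => f (x, z.2)) z.1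
noncomputable def py (f : ℝ × ℝ → ℝ) (z : ℝ × ℝ) : ℝ := deriv (fun y => f (z.1, y)) z.2
/-- Laplacian of `χ ^ 2` -/
noncomputable def lap2 (χ : ℝ × ℝ → ℝ) (z : ℝ × ℝ) : ℝ :=
  px (px (fun w => χ w ^ 2)) z + py (py (fun w => χ w ^ 2)) z

/-! ### the certificate (truncation level `s`) -/

/-- positive part -/
noncomputable def pp (x : ℝ) : ℝ := max x 0
noncomputable def fA (s T : ℝ) : ℝ := pp (T - s) ^ 3 * (8 * T ^ 2 + 9 * s * T + 3 * s ^ 2) / (15 * s * T ^ 5)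
noncomputable def fB (l s T : ℝ) : ℝ :=
  l * (pp (T - s) ^ 3 * (5 * T ^ 3 + 7 * s * T ^ 2 + 6 * s ^ 2 * T + 2 * s ^ 3) / (15 * s ^ 2 * T ^ 5))
noncomputable def fF (s T : ℝ) : ℝ := 2 * pp (T - s) ^ 3 * (T ^ 2 + 3 * s * T + s ^ 2) / (15 * s * T ^ 5)
noncomputable def fM (s T : ℝ) : ℝ := pp (T - s) ^ 4 * (5 * T ^ 2 + 4 * s * T + s ^ 2) / (30 * s ^ 2 * T ^ 5)
/-- the energy density `W = A(T) D - B(T)` -/
noncomputable def fW (l s T a b : ℝ) : ℝ := fA s T * ((T ^ 2 - a ^ 2 - b ^ 2) / 4) - fB l s T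

/-- error density of the flow inequality at time `t` (`e` = deficit of the determinant) -/
noncomputable def Er (l s : ℝ) (T A B : ℝ → ℝ → ℝ → ℝ) (χ : ℝ × ℝ → ℝ) (e : ℝ → ℝ) (t : ℝ) (z : ℝ × ℝ) : ℝ :=
  |fW l s (T t z.1 z.2) (A t z.1 z.2) (B t z.1 z.2)| * |lap2 χ z| +
  4 * (px χ z ^ 2 + py χ z ^ 2) * (pp (T t z.1 z.2 - s) ^ 3 / s ^ 2) +
  χ z ^ 2 * (e t * (if s < T t z.1 z.2 then 4 / s ^ 3 else 0) *
    (dX T t z.1 z.2 ^ 2 + dY T t z.1 z.2 ^ 2))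

/-- heat system for `(T, A, B) = (U_xx + U_yy, U_xx - U_yy, 2 U_xy)` -/
structure HeatSys (T A B : ℝ → ℝ → ℝ → ℝ) : Prop where
  sT : Sm 3 T
  sA : Sm 3 A
  sB : Sm 3 B
  hT : ∀ t x y : ℝ, 0 < t → dS T t x y = dX (dX T) t x y + dY (dY T) t x y
  hA : ∀ t x y : ℝ, 0 < t → dS A t x y = dX (dX A) t x y + dY (dY A) t x y
  hB : ∀ t x y : ℝ, 0 < t → dS B t x y = dX (dX B) t x y + dY (dY B) t x y
  cX : ∀ t x y : ℝ, 0 < t → dX T t x y = dX A t x y + dY B t x y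
  cY : ∀ t x y : ℝ, 0 < t → dY T t x y = dX B t x y - dY A t x y

/-- the exponent -/
noncomputable def pst (l : ℝ) : ℝ := (1 + l ^ 2) / (1 - l ^ 2)

end Pool.Agent.W775.WH
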