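import Pool.Agent.W775.WH.Defs

/-! Project WH: statements of the parts (every part is an independent theorem `t_XXX : S_XXX`,
possibly from other `S_YYY` as hypotheses, see the subtask specs). -/

set_option autoImplicit false

open MeasureTheory Set Filter Topology

namespace Pool.Agent.W775.WH

/-! ## R1: regularity -/

/-- rotations preserve `MA` -/
def S_ROT : Prop := ∀ (l : ℝ) (Ω : Set (ℝ × ℝ)) (u : ℝ × ℝ → ℝ) (c s : ℝ), c ^ 2 + s ^ 2 = 1 →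
  MA l Ω u → MA l (rot c s ⁻¹' Ω) (fun z => u (rot c s z))

def S_ROTS : Prop := ∀ (Ω : Set (ℝ × ℝ)) (u : ℝ × ℝ → ℝ) (c s : ℝ), c ^ 2 + s ^ 2 = 1 →
  ∀ z p : ℝ × ℝ, p ∈ Sub Ω u z →
    rot c (-s) p ∈ Sub (rot c s ⁻¹' Ω) (fun w => u (rot c s w)) (rot c (-s) z)

/-- subgradients exist and are locally bounded, `u` is locally Lipschitz -/
def S_NE : Prop := ∀ (Ω : Set (ℝ × ℝ)) (u : ℝ × ℝ → ℝ), IsOpen Ω → ConvexOn ℝ Ω u →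
  ∀ a ∈ Ω, (Sub Ω u a).Nonempty

def S_LIP : Prop := ∀ (Ω : Set (ℝ × ℝ)) (u : ℝ × ℝ → ℝ), IsOpen Ω → ConvexOn ℝ Ω u →
  ∀ K : Set (ℝ × ℝ), IsCompact K → K ⊆ Ω → ∃ L : ℝ, 0 < L ∧
    (∀ a ∈ K, ∀ p ∈ Sub Ω u a, ‖p‖ ≤ L) ∧ (∀ a ∈ K, ∀ a' ∈ K, |u a - u a'| ≤ L * ‖a - a'‖)

/-- no horizontal flat segment -/
def S_STR0 : Prop := ∀ (l : ℝ) (Ω : Set (ℝ × ℝ)) (u : ℝ × ℝ → ℝ), 0 < l → MA l Ω u →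
  ∀ a ∈ Ω, ∀ b ∈ Ω, a.2 = b.2 → a.1 < b.1 → ∀ p ∈ Sub Ω u a, p ∉ Sub Ω u b

/-- strict convexity -/
def S_STR : Prop := ∀ (l : ℝ) (Ω : Set (ℝ × ℝ)) (u : ℝ × ℝ → ℝ), 0 < l → MA l Ω u →
  ∀ a ∈ Ω, ∀ b ∈ Ω, a ≠ b → ∀ p ∈ Sub Ω u a, p ∉ Sub Ω u b

/-- uniform windows on compact sets, in all rotated frames -/
def S_CPT : Prop := ∀ (l : ℝ) (Ω : Set (ℝ × ℝ)) (u : ℝ × ℝ → ℝ), 0 < l → MA l Ω u →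
  ∀ K : Set (ℝ × ℝ), IsCompact K → K ⊆ Ω → ∃ δ ρ L : ℝ, 0 < δ ∧ 0 < ρ ∧ 0 < L ∧
    ∀ a ∈ K, ∀ c s : ℝ, c ^ 2 + s ^ 2 = 1 → ∀ p ∈ Sub Ω u a,
      Win (rot c s ⁻¹' Ω) (fun w => u (rot c s w)) (rot c (-s) a).1 (rot c (-s) a).2
        (rot c (-s) p).1 δ ρ L

/-- measure theory of the subdifferential: the inverse map `X` -/
def S_MEAS : Prop := ∀ (l : ℝ) (Ω : Set (ℝ × ℝ)) (u : ℝ × ℝ → ℝ), 0 < l → MA l Ω u →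
  MeasurableSet (⋃ z ∈ Ω, Sub Ω u z) ∧
  ∃ X : ℝ × ℝ → ℝ × ℝ, Measurable X ∧ (∀ z ∈ Ω, ∀ p ∈ Sub Ω u z, X p = z) ∧
    ∀ φ : ℝ × ℝ → ENNReal, Measurable φ →
      ENNReal.ofReal l * (∫⁻ z in Ω, φ z) ≤ (∫⁻ p in (⋃ z ∈ Ω, Sub Ω u z), φ (X p)) ∧
      (∫⁻ p in (⋃ z ∈ Ω, Sub Ω u z), φ (X p)) ≤ ENNReal.ofReal l⁻¹ * (∫⁻ z in Ω, φ z)

/-- almost everywhere uniqueness of the subgradient, measurable selection -/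
def S_SEL : Prop := ∀ (l : ℝ) (Ω : Set (ℝ × ℝ)) (u : ℝ × ℝ → ℝ), 0 < l → MA l Ω u →
  ∃ (N : Set (ℝ × ℝ)) (Q : ℝ × ℝ → ℝ × ℝ), MeasurableSet N ∧ volume N = 0 ∧ Measurable Q ∧
    (∀ z ∈ Ω, z ∉ N → Sub Ω u z = {Q z}) ∧ volume (⋃ z ∈ Ω ∩ N, Sub Ω u z) = 0

/-- one dimensional Legendre transform: second difference formula -/
def S_F1 : Prop := ∀ (f π : ℝ → ℝ) (x0 δ : ℝ), 0 < δ → ContinuousOn f (Icc (x0 - δ) (x0 + δ)) →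
  (∀ᵐ x ∂(volume.restrict (Icc (x0 - δ) (x0 + δ))),
    ∀ x' ∈ Icc (x0 - δ) (x0 + δ), f x + π x * (x' - x) ≤ f x') →
  ConvexOn ℝ (Icc (x0 - δ) (x0 + δ)) f →
  ∀ p h : ℝ, 0 < h →
    sSup ((fun x : ℝ => (p + h) * (x - x0) - f x) '' Icc (x0 - δ) (x0 + δ)) +
    sSup ((fun x : ℝ => (p - h) * (x - x0) - f x) '' Icc (x0 - δ) (x0 + δ)) -
    2 * sSup ((fun x : ℝ => p * (x - x0) - f x) '' Icc (x0 - δ) (x0 + δ)) =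
      ∫ x in (x0 - δ)..(x0 + δ), pp (h - |π x - p|)

/-- second difference of a convex function in terms of its slopes -/
def S_F2 : Prop := ∀ (f : ℝ → ℝ) (a b y k : ℝ), ConvexOn ℝ (Icc a b) f → a ≤ y - k → y + k ≤ b →
  0 < k → ContinuousOn f (Icc a b) →
  ∀ (Q : Set ℝ) (Y : ℝ → ℝ), MeasurableSet Q → Measurable Y →
  (∀ q ∈ Q, Y q ∈ Icc a b ∧ ∀ t ∈ Icc a b, f (Y q) + q * (t - Y q) ≤ f t) →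
  (∀ q : ℝ, q ∉ Q → ∀ t ∈ Ioo (y - k) (y + k), ¬ (∀ t' ∈ Icc a b, f t + q * (t' - t) ≤ f t')) →
  ∫⁻ q in Q, ENNReal.ofReal (pp (k - |Y q - y|)) = ENNReal.ofReal (f (y + k) + f (y - k) - 2 * f y)

/-- links between the subdifferential of `u` and of `- leg` -/
def S_LNK1 : Prop := ∀ (Ω : Set (ℝ × ℝ)) (u : ℝ × ℝ → ℝ) (x0 y0 p0 δ ρ L : ℝ), ConvexOn ℝ Ω u →
  Win Ω u x0 y0 p0 δ ρ L → ∀ x y p q : ℝ, |x - x0| ≤ δ → |y - y0| ≤ ρ → (p, q) ∈ Sub Ω u (x, y) →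
    ∀ t : ℝ, |t - y0| ≤ ρ → - leg u x0 δ p y + q * (t - y) ≤ - leg u x0 δ p t

def S_LNK2 : Prop := ∀ (Ω : Set (ℝ × ℝ)) (u : ℝ × ℝ → ℝ) (x0 y0 p0 δ ρ L : ℝ), ConvexOn ℝ Ω u →
  Win Ω u x0 y0 p0 δ ρ L → ∀ y p q : ℝ, |y - y0| < ρ → |p - p0| ≤ ρ →
    (∀ t : ℝ, |t - y0| ≤ ρ → - leg u x0 δ p y + q * (t - y) ≤ - leg u x0 δ p t) →
    ∃ x : ℝ, |x - x0| < δ ∧ (p, q) ∈ Sub Ω u (x, y)

/-- basic properties of `leg` (first three fields of `Sad`) -/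
def S_LEGB : Prop := ∀ (Ω : Set (ℝ × ℝ)) (u : ℝ × ℝ → ℝ) (x0 y0 p0 δ ρ L : ℝ), ConvexOn ℝ Ω u →
  Win Ω u x0 y0 p0 δ ρ L →
  (∀ y : ℝ, |y - y0| ≤ ρ → ConvexOn ℝ (Icc (p0 - ρ) (p0 + ρ)) (fun p => leg u x0 δ p y)) ∧
  (∀ p : ℝ, |p - p0| ≤ ρ → ConcaveOn ℝ (Icc (y0 - ρ) (y0 + ρ)) (fun y => leg u x0 δ p y)) ∧
  (∀ p y p' y' : ℝ, |p - p0| ≤ ρ → |y - y0| ≤ ρ → |p' - p0| ≤ ρ → |y' - y0| ≤ ρ →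
    |leg u x0 δ p y - leg u x0 δ p' y'| ≤ (δ + L) * (|p - p'| + |y - y'|))

/-- the partial Legendre transform is a `Sad` function -/
def S_LEG : Prop := ∀ (l : ℝ) (Ω : Set (ℝ × ℝ)) (u : ℝ × ℝ → ℝ) (x0 y0 p0 δ ρ L : ℝ),
  0 < l → l < 1 → MA l Ω u → Win Ω u x0 y0 p0 δ ρ L → Sad l (δ + L) ρ p0 y0 (leg u x0 δ)

/-- smooth approximation of `Sad` functions -/
def S_MOL : Prop := ∀ (l L r p0 y0 : ℝ) (v : ℝ → ℝ → ℝ), 0 < l → l < 1 → 0 < L → 0 < r →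
  Sad l L r p0 y0 v → ∀ ε : ℝ, 0 < ε → ε ≤ r / 4 →
  ∃ w : ℝ × ℝ → ℝ, ContDiff ℝ 4 w ∧ ∀ z : ℝ × ℝ, |z.1 - p0| ≤ r / 2 → |z.2 - y0| ≤ r / 2 →
    |w z - v z.1 z.2| ≤ 2 * L * ε ∧ |px w z| ≤ L ∧ |py w z| ≤ L ∧ 0 ≤ px (px w) z ∧
    l * px (px w) z ≤ - py (py w) z ∧ - py (py w) z ≤ l⁻¹ * px (px w) z

/-- squared norm of the Hessian -/
noncomputable def N2 (w : ℝ × ℝ → ℝ) (z : ℝ × ℝ) : ℝ :=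
  px (px w) z ^ 2 + 2 * px (py w) z ^ 2 + py (py w) z ^ 2

/-- smooth saddle data on the closed square `closedBall c r` -/
structure SmS (l L r : ℝ) (c : ℝ × ℝ) (w : ℝ × ℝ → ℝ) : Prop where
  sm : ContDiff ℝ 4 w
  g1 : ∀ z ∈ Metric.closedBall c r, |px w z| ≤ L
  g2 : ∀ z ∈ Metric.closedBall c r, |py w z| ≤ L
  cv : ∀ z ∈ Metric.closedBall c r, 0 ≤ px (px w) z
  i1 : ∀ z ∈ Metric.closedBall c r, l * px (px w) z ≤ - py (py w) z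
  i2 : ∀ z ∈ Metric.closedBall c r, - py (py w) z ≤ l⁻¹ * px (px w) z

/-- hole filling inequality and oscillation bound -/
def S_HF1 : Prop := ∀ l : ℝ, 0 < l → l < 1 → ∃ K : ℝ, 0 < K ∧ ∀ (L r : ℝ) (c : ℝ × ℝ) (w : ℝ × ℝ → ℝ),
  0 < r → SmS l L r c w → ∀ (z : ℝ × ℝ) (ρ : ℝ), 0 < ρ → Metric.closedBall z (2 * ρ) ⊆ Metric.closedBall c r →
    (∫ x in Metric.closedBall z ρ, N2 w x) ≤
      K * ((∫ x in Metric.closedBall z (2 * ρ), N2 w x) - ∫ x in Metric.closedBall z ρ, N2 w x) ∧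
    ∀ x ∈ Metric.closedBall z ρ, ∀ y ∈ Metric.closedBall z ρ,
      (py w x - py w y) ^ 2 ≤ K * ∫ x in Metric.closedBall z (2 * ρ), N2 w x

/-- energy bound -/
def S_HF2 : Prop := ∀ l : ℝ, 0 < l → l < 1 → ∃ K : ℝ, 0 < K ∧ ∀ (L r : ℝ) (c : ℝ × ℝ) (w : ℝ × ℝ → ℝ),
  0 < r → 0 < L → SmS l L r c w → (∫ x in Metric.closedBall c (r / 2), N2 w x) ≤ K * L ^ 2

/-- Hoelder estimate, smooth case -/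
def S_HFS : Prop := ∀ l : ℝ, 0 < l → l < 1 → ∃ b : ℝ, 0 < b ∧ b < 1 ∧ ∀ L r : ℝ, 0 < L → 0 < r →
  ∃ C : ℝ, 0 < C ∧ ∀ (c : ℝ × ℝ) (w : ℝ × ℝ → ℝ), SmS l L r c w →
    ∀ x ∈ Metric.closedBall c (r / 4), ∀ y ∈ Metric.closedBall c (r / 4),
      |py w x - py w y| ≤ C * ‖x - y‖ ^ b

/-- Hoelder estimate for `Sad` functions -/
def S_HOLD : Prop := ∀ l : ℝ, 0 < l → l < 1 → ∃ b : ℝ, 0 < b ∧ b < 1 ∧ ∀ L r : ℝ, 0 < L → 0 < r →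
  ∃ C : ℝ, 0 < C ∧ ∀ (p0 y0 : ℝ) (v : ℝ → ℝ → ℝ), Sad l L r p0 y0 v →
    ∀ y y' q q' : ℝ, |y - y0| ≤ r / 32 → |y' - y0| ≤ r / 32 →
      (∀ t : ℝ, |t - y0| ≤ r → - v p0 y + q * (t - y) ≤ - v p0 t) →
      (∀ t : ℝ, |t - y0| ≤ r → - v p0 y' + q' * (t - y') ≤ - v p0 t) →
      |q - q'| ≤ C * |y - y'| ^ b

/-- Hoelder continuity of the subdifferential -/
def S_C1B : Prop := ∀ l : ℝ, 0 < l → l < 1 → ∃ b : ℝ, 0 < b ∧ b < 1 ∧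
  ∀ (Ω : Set (ℝ × ℝ)) (u : ℝ × ℝ → ℝ), MA l Ω u → ∀ K : Set (ℝ × ℝ), IsCompact K → K ⊆ Ω →
    ∃ C : ℝ, 0 < C ∧ ∀ a ∈ K, ∀ a' ∈ K, ∀ p ∈ Sub Ω u a, ∀ p' ∈ Sub Ω u a',
      ‖p - p'‖ ≤ C * ‖a - a'‖ ^ b

/-- the gradient package exists -/
def S_GRAD : Prop := ∀ l : ℝ, 0 < l → l < 1 → ∃ b : ℝ, 0 < b ∧ b < 1 ∧
  ∀ (Ω : Set (ℝ × ℝ)) (u : ℝ × ℝ → ℝ), MA l Ω u → ∃ P : ℝ × ℝ → ℝ × ℝ, Grad l b Ω u P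

/-! ## R2: almost everywhere differentiability, area formula, extension, local package -/

def S_AED : Prop := ∀ (l b : ℝ) (Ω : Set (ℝ × ℝ)) (u : ℝ × ℝ → ℝ) (P : ℝ × ℝ → ℝ × ℝ),
  0 < l → 0 < b → Grad l b Ω u P → ∀ᵐ z ∂(volume.restrict Ω), DifferentiableAt ℝ P z

def S_SYM : Prop := ∀ (l b : ℝ) (Ω : Set (ℝ × ℝ)) (u : ℝ × ℝ → ℝ) (P : ℝ × ℝ → ℝ × ℝ),
  0 < l → 0 < b → Grad l b Ω u P → ∀ z ∈ Ω, DifferentiableAt ℝ P z →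
    h12 P z = h21 P z ∧ 0 ≤ h11 P z ∧ 0 ≤ h22 P z ∧ 0 ≤ D0 P z

def S_ARE : Prop := ∀ (l b : ℝ) (Ω : Set (ℝ × ℝ)) (u : ℝ × ℝ → ℝ) (P : ℝ × ℝ → ℝ × ℝ),
  0 < l → 0 < b → Grad l b Ω u P → ∀ B : Set (ℝ × ℝ), MeasurableSet B → B ⊆ Ω →
    volume (P '' B) = ∫⁻ z in B, ENNReal.ofReal (D0 P z)

def S_GOOD : Prop := ∀ (l b : ℝ) (Ω : Set (ℝ × ℝ)) (u : ℝ × ℝ → ℝ) (P : ℝ × ℝ → ℝ × ℝ),
  0 < l → 0 < b → Grad l b Ω u P → ∀ᵐ z ∂(volume.restrict Ω), Good l P z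

def S_EXT : Prop := ∀ (Ω : Set (ℝ × ℝ)) (u : ℝ × ℝ → ℝ), IsOpen Ω → ConvexOn ℝ Ω u →
  ∀ (z0 : ℝ × ℝ) (R : ℝ), 0 < R → Metric.closedBall z0 (4 * R) ⊆ Ω →
    ∃ (g : ℝ × ℝ → ℝ) (C : ℝ), 0 < C ∧ ConvexOn ℝ univ g ∧ (∀ z w : ℝ × ℝ, |g z - g w| ≤ C * ‖z - w‖) ∧
      ∀ z ∈ Metric.closedBall z0 (3 * R), g z = u z

def S_LOC : Prop := ∀ (l b : ℝ) (Ω : Set (ℝ × ℝ)) (u : ℝ × ℝ → ℝ) (P : ℝ × ℝ → ℝ × ℝ),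
  0 < l → l < 1 → 0 < b → b < 1 → Grad l b Ω u P → ∀ (z0 : ℝ × ℝ) (R : ℝ), 0 < R →
    Metric.closedBall z0 (4 * R) ⊆ Ω → ∃ (C : ℝ) (g : ℝ × ℝ → ℝ), Loc l b C R z0 g P

/-! ## R3: heat extension -/

/-- smoothness of the heat extension and formulas for the derivatives -/
def S_HEAT : Prop := ∀ (g : ℝ × ℝ → ℝ) (C : ℝ), (∀ z w : ℝ × ℝ, |g z - g w| ≤ C * ‖z - w‖) →
  Sm 6 (HU g) ∧ ∀ t x y : ℝ, 0 < t →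
    dX (HU g) t x y = HX g t x y ∧ dY (HU g) t x y = HY g t x y ∧
    dX (dX (HU g)) t x y = (HT g t x y + HA g t x y) / 2 ∧
    dY (dY (HU g)) t x y = (HT g t x y - HA g t x y) / 2 ∧
    dX (dY (HU g)) t x y = HB g t x y / 2 ∧ dS (HU g) t x y = HT g t x y

def S_HSYS : Prop := ∀ (g : ℝ × ℝ → ℝ) (C : ℝ), (∀ z w : ℝ × ℝ, |g z - g w| ≤ C * ‖z - w‖) →
  HeatSys (HT g) (HA g) (HB g)

/-- convexity of the extension -/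
def S_PSD : Prop := ∀ (g : ℝ × ℝ → ℝ) (C : ℝ), (∀ z w : ℝ × ℝ, |g z - g w| ≤ C * ‖z - w‖) →
  ConvexOn ℝ univ g → ∀ t x y : ℝ, 0 < t → 0 ≤ HT g t x y ∧ 0 ≤ HD g t x y ∧
    ∀ a b : ℝ, 0 ≤ (HT g t x y + HA g t x y) / 2 * a ^ 2 + HB g t x y * (a * b) +
      (HT g t x y - HA g t x y) / 2 * b ^ 2

/-- lower bound of the Hessian by the averaged pointwise Hessian (Fatou) -/
def S_LOW : Prop := ∀ (l b C R : ℝ) (z0 : ℝ × ℝ) (g : ℝ × ℝ → ℝ) (P : ℝ × ℝ → ℝ × ℝ),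
  Loc l b C R z0 g P → ∀ t x y : ℝ, 0 < t → ∀ c d : ℝ,
    ∫⁻ w in {w : ℝ × ℝ | (x - Real.sqrt t * w.1, y - Real.sqrt t * w.2) ∈ Metric.ball z0 (3 * R)},
      ENNReal.ofReal (gam w * (h11 P (x - Real.sqrt t * w.1, y - Real.sqrt t * w.2) * c ^ 2 +
        2 * h12 P (x - Real.sqrt t * w.1, y - Real.sqrt t * w.2) * (c * d) +
        h22 P (x - Real.sqrt t * w.1, y - Real.sqrt t * w.2) * d ^ 2)) ≤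
    ENNReal.ofReal ((HT g t x y + HA g t x y) / 2 * c ^ 2 + HB g t x y * (c * d) +
      (HT g t x y - HA g t x y) / 2 * d ^ 2)

/-- lower bound of the determinant -/
def S_DET : Prop := ∀ (l b C R : ℝ) (z0 : ℝ × ℝ) (g : ℝ × ℝ → ℝ) (P : ℝ × ℝ → ℝ × ℝ),
  Loc l b C R z0 g P → ∃ c K : ℝ, 0 < c ∧ 0 < K ∧ ∀ t : ℝ, 0 < t → t ≤ 1 →
    ∀ z ∈ Metric.closedBall z0 (2 * R), l - K * Real.exp (-c / t) ≤ HD g t z.1 z.2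

/-- upper bounds from the Hoelder estimate -/
def S_SUP : Prop := ∀ (l b C R : ℝ) (z0 : ℝ × ℝ) (g : ℝ × ℝ → ℝ) (P : ℝ × ℝ → ℝ × ℝ),
  Loc l b C R z0 g P → ∃ K : ℝ, 0 < K ∧ ∀ t : ℝ, 0 < t → t ≤ 1 →
    ∀ z ∈ Metric.closedBall z0 (2 * R), |HT g t z.1 z.2| ≤ K * t ^ (-(1 - b) / 2) ∧
      |HX g t z.1 z.2 - (P z).1| ≤ K * t ^ (b / 2) ∧ |HY g t z.1 z.2 - (P z).2| ≤ K * t ^ (b / 2) ∧
      |HU g t z.1 z.2 - g z| ≤ K * t ^ (1 / 2 : ℝ)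

/-- crude bound of the gradient of `HT` -/
def S_DTX : Prop := ∀ (g : ℝ × ℝ → ℝ) (C : ℝ), (∀ z w : ℝ × ℝ, |g z - g w| ≤ C * ‖z - w‖) →
  ∃ K : ℝ, 0 < K ∧ ∀ t : ℝ, 0 < t → t ≤ 1 → ∀ x y : ℝ,
    |dX (HT g) t x y| ≤ K * t ^ (-2 : ℝ) ∧ |dY (HT g) t x y| ≤ K * t ^ (-2 : ℝ)

/-- pointwise limits -/
def S_PTL : Prop := ∀ (l b C R : ℝ) (z0 : ℝ × ℝ) (g : ℝ × ℝ → ℝ) (P : ℝ × ℝ → ℝ × ℝ),
  Loc l b C R z0 g P → ∀ z ∈ Metric.ball z0 (3 * R), Good l P z →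
    Tendsto (fun t : ℝ => HT g t z.1 z.2) (𝓝[>] 0) (𝓝 (T0 P z)) ∧
    Tendsto (fun t : ℝ => HD g t z.1 z.2) (𝓝[>] 0) (𝓝 (D0 P z))

/-- convergence of the determinants in `L^1` -/
def S_L1D : Prop := ∀ (l b C R : ℝ) (z0 : ℝ × ℝ) (g : ℝ × ℝ → ℝ) (P : ℝ × ℝ → ℝ × ℝ),
  Loc l b C R z0 g P → Tendsto (fun t : ℝ => ∫⁻ z in Metric.closedBall z0 (2 * R),
    ENNReal.ofReal |HD g t z.1 z.2 - D0 P z|) (𝓝[>] 0) (𝓝 0)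

/-- integration by parts and limit of `∫ χ² HT` -/
def S_LTT : Prop := ∀ (g : ℝ × ℝ → ℝ) (C : ℝ), (∀ z w : ℝ × ℝ, |g z - g w| ≤ C * ‖z - w‖) →
  ∀ χ : ℝ × ℝ → ℝ, ContDiff ℝ 3 χ → HasCompactSupport χ →
    (∀ t : ℝ, 0 < t → (∫ z : ℝ × ℝ, χ z ^ 2 * HT g t z.1 z.2) = ∫ z : ℝ × ℝ, HU g t z.1 z.2 * lap2 χ z) ∧
    Tendsto (fun t : ℝ => ∫ z : ℝ × ℝ, χ z ^ 2 * HT g t z.1 z.2) (𝓝[>] 0)
      (𝓝 (∫ z : ℝ × ℝ, g z * lap2 χ z))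

/-- `T0` is integrable, the singular part is nonnegative, and `L^1` bound for `HT` -/
def S_SIG : Prop := ∀ (l b C R : ℝ) (z0 : ℝ × ℝ) (g : ℝ × ℝ → ℝ) (P : ℝ × ℝ → ℝ × ℝ),
  Loc l b C R z0 g P → IntegrableOn (T0 P) (Metric.closedBall z0 (2 * R)) ∧
    (∃ K : ℝ, 0 < K ∧ ∀ t : ℝ, 0 < t → t ≤ 1 →
      (∫⁻ z in Metric.closedBall z0 (2 * R), ENNReal.ofReal (HT g t z.1 z.2)) ≤ ENNReal.ofReal K) ∧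
    ∀ χ : ℝ × ℝ → ℝ, ContDiff ℝ 3 χ → HasCompactSupport χ → tsupport χ ⊆ Metric.ball z0 (2 * R) →
      (∫ z : ℝ × ℝ, χ z ^ 2 * T0 P z) ≤ ∫ z : ℝ × ℝ, g z * lap2 χ z

/-- `L^q` bound of `HT` when there is no singular part -/
def S_IQQ : Prop := ∀ (l b C R : ℝ) (z0 : ℝ × ℝ) (g : ℝ × ℝ → ℝ) (P : ℝ × ℝ → ℝ × ℝ),
  Loc l b C R z0 g P → ∀ q : ℝ, 1 ≤ q →
    (∫⁻ z in Metric.ball z0 (2 * R), ENNReal.ofReal (T0 P z) ^ q) < ⊤ →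
    (∀ χ : ℝ × ℝ → ℝ, ContDiff ℝ 3 χ → HasCompactSupport χ → tsupport χ ⊆ Metric.ball z0 (2 * R) →
      (∫ z : ℝ × ℝ, g z * lap2 χ z) = ∫ z : ℝ × ℝ, χ z ^ 2 * T0 P z) →
    ∃ K : ℝ, 0 < K ∧ ∀ t : ℝ, 0 < t → t ≤ 1 →
      (∫⁻ z in Metric.closedBall z0 R, ENNReal.ofReal (HT g t z.1 z.2) ^ q) ≤ ENNReal.ofReal K

/-! ## R4: the certificate and the flow inequality -/

/-- first and second derivatives of `fA`, `fB`, and first derivative of `fF`, in `T` -/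
noncomputable def fA1 (s T : ℝ) : ℝ := pp (T - s) ^ 2 * (T + s) ^ 2 / T ^ 6
noncomputable def fA2 (s T : ℝ) : ℝ := 2 * pp (T - s) * (T + s) * (3 * s ^ 2 - T ^ 2) / T ^ 7
noncomputable def fB1 (l s T : ℝ) : ℝ :=
  l * (pp (T - s) ^ 2 * (T + s) ^ 2 * (T ^ 2 + 2 * s ^ 2) / (3 * s ^ 2 * T ^ 6))
noncomputable def fB2 (l s T : ℝ) : ℝ := 4 * l * s ^ 2 * pp (T - s) * (T + s) / T ^ 7
noncomputable def fF1 (s T : ℝ) : ℝ := 2 * s * pp (T - s) ^ 2 * (2 * T + s) / (3 * T ^ 6)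

/-- these are the derivatives (everywhere, for `s > 0`), and the last ones are continuous -/
def S_DER : Prop := ∀ l s : ℝ, 0 < s → (∀ T : ℝ, HasDerivAt (fA s) (fA1 s T) T ∧
  HasDerivAt (fA1 s) (fA2 s T) T ∧ HasDerivAt (fB l s) (fB1 l s T) T ∧
  HasDerivAt (fB1 l s) (fB2 l s T) T ∧ HasDerivAt (fF s) (fF1 s T) T) ∧
  Continuous (fA2 s) ∧ Continuous (fB2 l s) ∧ Continuous (fF1 s)

/-- the pointwise inequality (sum of squares) -/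
def S_ALG : Prop := ∀ l s T a b e Tx Ty ax ay bx bY c cx cy : ℝ, 0 < l → 0 < s → 0 ≤ T →
  a ^ 2 + b ^ 2 ≤ T ^ 2 → 0 ≤ e → l - e ≤ (T ^ 2 - a ^ 2 - b ^ 2) / 4 →
  Tx = ax + bY → Ty = bx - ay →
  4 * fF s T * c * (cx * (a * bY - b * ay) - cy * (a * bx - b * ax)) -
    c ^ 2 * ((fA2 s T * ((T ^ 2 - a ^ 2 - b ^ 2) / 4) + fA1 s T * T + fA s T / 2 - fB2 l s T) *
        (Tx ^ 2 + Ty ^ 2) -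
      fA1 s T * (a * (ax * Tx + ay * Ty) + b * (bx * Tx + bY * Ty)) -
      fA s T / 2 * (ax ^ 2 + ay ^ 2 + bx ^ 2 + bY ^ 2) -
      2 * (fF1 s T * (Tx * (a * bY - b * ay) - Ty * (a * bx - b * ax)) +
        2 * fF s T * (ax * bY - ay * bx))) ≤
  4 * (cx ^ 2 + cy ^ 2) * (pp (T - s) ^ 3 / s ^ 2) +
    c ^ 2 * (e * (if s < T then 4 / s ^ 3 else 0) * (Tx ^ 2 + Ty ^ 2))

/-- the flow inequality on a time interval -/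
def S_FL : Prop := ∀ (T A B : ℝ → ℝ → ℝ → ℝ) (χ : ℝ × ℝ → ℝ) (e : ℝ → ℝ) (l s t1 t0 : ℝ),
  HeatSys T A B → ContDiff ℝ 3 χ → HasCompactSupport χ → 0 < l → 0 < s → 0 < t1 → t1 ≤ t0 →
  ContinuousOn e (Icc t1 t0) → (∀ t ∈ Icc t1 t0, 0 ≤ e t) →
  (∀ t ∈ Icc t1 t0, ∀ z ∈ tsupport χ, 0 ≤ T t z.1 z.2 ∧
    A t z.1 z.2 ^ 2 + B t z.1 z.2 ^ 2 ≤ T t z.1 z.2 ^ 2 ∧
    l - e t ≤ (T t z.1 z.2 ^ 2 - A t z.1 z.2 ^ 2 - B t z.1 z.2 ^ 2) / 4) →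
  (∫ z : ℝ × ℝ, χ z ^ 2 * fW l s (T t0 z.1 z.2) (A t0 z.1 z.2) (B t0 z.1 z.2)) -
    (∫ z : ℝ × ℝ, χ z ^ 2 * fW l s (T t1 z.1 z.2) (A t1 z.1 z.2) (B t1 z.1 z.2)) ≤
  ∫ t in t1..t0, ∫ z : ℝ × ℝ, Er l s T A B χ e t z

/-! ## R5: conclusion -/

/-- the inequality at time zero, at level `s` -/
def S_E0 : Prop := ∀ (l b C R : ℝ) (z0 : ℝ × ℝ) (g : ℝ × ℝ → ℝ) (P : ℝ × ℝ → ℝ × ℝ),
  Loc l b C R z0 g P → ∀ (χ : ℝ × ℝ → ℝ) (e : ℝ → ℝ), ContDiff ℝ 3 χ → HasCompactSupport χ →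
  tsupport χ ⊆ Metric.ball z0 (2 * R) → ContinuousOn e (Ioi 0) → (∀ t : ℝ, 0 < t → 0 ≤ e t) →
  (∀ t : ℝ, 0 < t → t ≤ 1 → ∀ z ∈ Metric.closedBall z0 (2 * R), l - e t ≤ HD g t z.1 z.2) →
  ∀ s M : ℝ, 0 < s → (∀ z ∈ tsupport χ, HT g 1 z.1 z.2 ≤ s) →
  (∀ t1 : ℝ, 0 < t1 → t1 < 1 →
    (∫ t in t1..1, ∫ z : ℝ × ℝ, Er l s (HT g) (HA g) (HB g) χ e t z) ≤ M) →
  (∫ z : ℝ × ℝ, χ z ^ 2 * (fB l s (T0 P z) - fA s (T0 P z) * D0 P z)) +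
    l / (3 * s ^ 2) * ((∫ z : ℝ × ℝ, g z * lap2 χ z) - ∫ z : ℝ × ℝ, χ z ^ 2 * T0 P z) ≤ M

/-- bound of the error -/
def S_ERR : Prop := ∀ (l b C R : ℝ) (z0 : ℝ × ℝ) (g : ℝ × ℝ → ℝ) (P : ℝ × ℝ → ℝ × ℝ),
  Loc l b C R z0 g P → ∃ e : ℝ → ℝ, ContinuousOn e (Ioi 0) ∧ (∀ t : ℝ, 0 < t → 0 ≤ e t) ∧
  (∀ t : ℝ, 0 < t → t ≤ 1 → ∀ z ∈ Metric.closedBall z0 (2 * R), l - e t ≤ HD g t z.1 z.2) ∧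
  ∀ (ρ q K : ℝ) (χ : ℝ × ℝ → ℝ), 0 < ρ → ρ ≤ 2 * R → 1 ≤ q →
    (∀ t : ℝ, 0 < t → t ≤ 1 →
      (∫⁻ z in Metric.closedBall z0 ρ, ENNReal.ofReal (HT g t z.1 z.2) ^ q) ≤ ENNReal.ofReal K) →
    ContDiff ℝ 3 χ → HasCompactSupport χ → tsupport χ ⊆ Metric.ball z0 ρ →
    ∃ M : ℝ, 0 < M ∧ ∀ s : ℝ, 1 ≤ s → ∀ t1 : ℝ, 0 < t1 → t1 < 1 →
      (∫ t in t1..1, ∫ z : ℝ × ℝ, Er l s (HT g) (HA g) (HB g) χ e t z) ≤ M * s ^ (1 - q - 2 / (1 - b))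

/-- one stage: no singular part, and weak type bound -/
def S_STG : Prop := ∀ (l b C R : ℝ) (z0 : ℝ × ℝ) (g : ℝ × ℝ → ℝ) (P : ℝ × ℝ → ℝ × ℝ),
  Loc l b C R z0 g P → ∀ (ρ q K : ℝ) (χ : ℝ × ℝ → ℝ), 0 < ρ → ρ ≤ 2 * R → 1 ≤ q →
    (∀ t : ℝ, 0 < t → t ≤ 1 →
      (∫⁻ z in Metric.closedBall z0 ρ, ENNReal.ofReal (HT g t z.1 z.2) ^ q) ≤ ENNReal.ofReal K) →
    ContDiff ℝ 3 χ → HasCompactSupport χ → tsupport χ ⊆ Metric.ball z0 ρ →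
    (∫ z : ℝ × ℝ, g z * lap2 χ z) = (∫ z : ℝ × ℝ, χ z ^ 2 * T0 P z) ∧
    ∀ p : ℝ, 1 < p → p ≤ pst l → p < q + 2 * b / (1 - b) → ∃ K' : ℝ, 0 < K' ∧ ∀ S : ℝ, 1 ≤ S →
      ENNReal.ofReal (S ^ p) * volume {z : ℝ × ℝ | χ z = 1 ∧ 2 * S ≤ T0 P z} ≤ ENNReal.ofReal K'

/-- weak type bound of the trace on compact sets -/
def S_WK : Prop := ∀ (l b : ℝ) (Ω : Set (ℝ × ℝ)) (u : ℝ × ℝ → ℝ) (P : ℝ × ℝ → ℝ × ℝ),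
  0 < l → l < 1 → 0 < b → b < 1 → Grad l b Ω u P → ∀ K : Set (ℝ × ℝ), IsCompact K → K ⊆ Ω →
    ∃ C : ℝ, ∀ s : ℝ, 0 < s →
      ENNReal.ofReal (s ^ pst l) * volume {z ∈ K | s < T0 P z} ≤ ENNReal.ofReal C

/-- the frozen statement -/
def S_MAIN : Prop :=
    ∀ (Ω : Set (EuclideanSpace ℝ (Fin 2))) (u : EuclideanSpace ℝ (Fin 2) → ℝ) (l : ℝ),
      IsOpen Ω → Convex ℝ Ω → ConvexOn ℝ Ω u → 0 < l → l < 1 →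
      (∀ B : Set (EuclideanSpace ℝ (Fin 2)), MeasurableSet B → B ⊆ Ω →
        ENNReal.ofReal l * volume B ≤
            volume (⋃ x ∈ B, {p : EuclideanSpace ℝ (Fin 2) |
              ∀ y ∈ Ω, u x + inner ℝ p (y - x) ≤ u y}) ∧
        volume (⋃ x ∈ B, {p : EuclideanSpace ℝ (Fin 2) |
              ∀ y ∈ Ω, u x + inner ℝ p (y - x) ≤ u y}) ≤
            ENNReal.ofReal l⁻¹ * volume B) →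
      ∀ K : Set (EuclideanSpace ℝ (Fin 2)), IsCompact K → K ⊆ Ω →
        ∃ C : ℝ, ∀ s : ℝ, 0 < s →
          ENNReal.ofReal (s ^ ((1 + l ^ 2) / (1 - l ^ 2))) *
              volume {x ∈ K | s < ‖fderiv ℝ (fderiv ℝ u) x‖} ≤ ENNReal.ofReal C

end Pool.Agent.W775.WH
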