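import Mathlib
import Pool.Agent.W775.WH.Defs
import Pool.Agent.W775.WH.Stm

/-!
Project WH, part HSYS (helper205): the heat system for `(U_xx + U_yy, U_xx - U_yy, 2 U_xy)`.
-/

set_option autoImplicit false

open MeasureTheory Set Filter Topology

namespace Pool.Agent.W775.WH.HSYS

open Pool.Agent.W775.WH

/-- uncurried function -/
def unc (f : ℝ → ℝ → ℝ → ℝ) (q : ℝ × ℝ × ℝ) : ℝ := f q.1 q.2.1 q.2.2

theorem isOpen_pos : IsOpen {q : ℝ × ℝ × ℝ | 0 < q.1} :=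
  isOpen_lt continuous_const continuous_fst

theorem Sm_iff {n : ℕ} {f : ℝ → ℝ → ℝ → ℝ} :
    Sm n f ↔ ContDiffOn ℝ n (unc f) {q : ℝ × ℝ × ℝ | 0 < q.1} := Iff.rfl

theorem Sm_mono {n m : ℕ} {f : ℝ → ℝ → ℝ → ℝ} (h : Sm n f) (hm : m ≤ n) : Sm m f :=
  ContDiffOn.of_le (Sm_iff.1 h) (by exact_mod_cast hm)

theorem Sm_congr {n : ℕ} {f f' : ℝ → ℝ → ℝ → ℝ} (h : Sm n f)
    (he : ∀ t x y : ℝ, 0 < t → f' t x y = f t x y) : Sm n f' :=
  ContDiffOn.congr (Sm_iff.1 h) (fun q hq => he q.1 q.2.1 q.2.2 hq)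

theorem Sm_add {n : ℕ} {f f' : ℝ → ℝ → ℝ → ℝ} (h : Sm n f) (h' : Sm n f') :
    Sm n (fun t x y => f t x y + f' t x y) :=
  ContDiffOn.add (Sm_iff.1 h) (Sm_iff.1 h')

theorem Sm_sub {n : ℕ} {f f' : ℝ → ℝ → ℝ → ℝ} (h : Sm n f) (h' : Sm n f') :
    Sm n (fun t x y => f t x y - f' t x y) :=
  ContDiffOn.sub (Sm_iff.1 h) (Sm_iff.1 h')

theorem Sm_smul {n : ℕ} {f : ℝ → ℝ → ℝ → ℝ} (c : ℝ) (h : Sm n f) :
    Sm n (fun t x y => c * f t x y) :=
  ContDiffOn.mul contDiffOn_const (Sm_iff.1 h)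

theorem diffAt {n : ℕ} {f : ℝ → ℝ → ℝ → ℝ} (h : Sm n f) (hn : 1 ≤ n) {t x y : ℝ} (ht : 0 < t) :
    DifferentiableAt ℝ (unc f) (t, x, y) := by
  have h1 : ContDiffAt ℝ n (unc f) (t, x, y) :=
    (Sm_iff.1 h).contDiffAt (isOpen_pos.mem_nhds ht)
  exact h1.differentiableAt (by
    have : (n : WithTop ℕ∞) ≠ 0 := by
      exact_mod_cast (by omega : n ≠ 0)
    exact this)

theorem hasX {f : ℝ → ℝ → ℝ → ℝ} {t x y : ℝ} (h : DifferentiableAt ℝ (unc f) (t, x, y)) :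
    HasDerivAt (fun x' => f t x' y) (fderiv ℝ (unc f) (t, x, y) (0, 1, 0)) x := by
  have h1 : HasDerivAt (fun x' : ℝ => ((t, x', y) : ℝ × ℝ × ℝ)) (0, 1, 0) x :=
    (hasDerivAt_const x t).prodMk ((hasDerivAt_id x).prodMk (hasDerivAt_const x y))
  exact (h.hasFDerivAt.comp_hasDerivAt x h1)

theorem hasY {f : ℝ → ℝ → ℝ → ℝ} {t x y : ℝ} (h : DifferentiableAt ℝ (unc f) (t, x, y)) :
    HasDerivAt (fun y' => f t x y') (fderiv ℝ (unc f) (t, x, y) (0, 0, 1)) y := by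
  have h1 : HasDerivAt (fun y' : ℝ => ((t, x, y') : ℝ × ℝ × ℝ)) (0, 0, 1) y :=
    (hasDerivAt_const y t).prodMk ((hasDerivAt_const y x).prodMk (hasDerivAt_id y))
  exact (h.hasFDerivAt.comp_hasDerivAt y h1)

theorem hasS {f : ℝ → ℝ → ℝ → ℝ} {t x y : ℝ} (h : DifferentiableAt ℝ (unc f) (t, x, y)) :
    HasDerivAt (fun t' => f t' x y) (fderiv ℝ (unc f) (t, x, y) (1, 0, 0)) t := by
  have h1 : HasDerivAt (fun t' : ℝ => ((t', x, y) : ℝ × ℝ × ℝ)) (1, 0, 0) t :=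
    (hasDerivAt_id t).prodMk ((hasDerivAt_const t x).prodMk (hasDerivAt_const t y))
  exact (h.hasFDerivAt.comp_hasDerivAt t h1)

/-- derivative in the direction `v` -/
noncomputable def dV (v : ℝ × ℝ × ℝ) (f : ℝ → ℝ → ℝ → ℝ) (t x y : ℝ) : ℝ :=
  fderiv ℝ (unc f) (t, x, y) v

theorem dX_eq {n : ℕ} {f : ℝ → ℝ → ℝ → ℝ} (h : Sm n f) (hn : 1 ≤ n) (t x y : ℝ) (ht : 0 < t) :
    dX f t x y = dV (0, 1, 0) f t x y := (hasX (diffAt h hn ht)).deriv

theorem dY_eq {n : ℕ} {f : ℝ → ℝ → ℝ → ℝ} (h : Sm n f) (hn : 1 ≤ n) (t x y : ℝ) (ht : 0 < t) :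
    dY f t x y = dV (0, 0, 1) f t x y := (hasY (diffAt h hn ht)).deriv

theorem dS_eq {n : ℕ} {f : ℝ → ℝ → ℝ → ℝ} (h : Sm n f) (hn : 1 ≤ n) (t x y : ℝ) (ht : 0 < t) :
    dS f t x y = dV (1, 0, 0) f t x y := (hasS (diffAt h hn ht)).deriv

theorem Sm_dV {n : ℕ} {f : ℝ → ℝ → ℝ → ℝ} (v : ℝ × ℝ × ℝ) (h : Sm (n + 1) f) :
    Sm n (dV v f) := by
  have h1 : ContDiffOn ℝ n (fderiv ℝ (unc f)) {q : ℝ × ℝ × ℝ | 0 < q.1} :=
    (Sm_iff.1 h).fderiv_of_isOpen isOpen_pos (by norm_cast)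
  exact h1.clm_apply contDiffOn_const

theorem Sm_dX {n : ℕ} {f : ℝ → ℝ → ℝ → ℝ} (h : Sm (n + 1) f) : Sm n (dX f) :=
  Sm_congr (Sm_dV (0, 1, 0) h) (dX_eq h (by omega))

theorem Sm_dY {n : ℕ} {f : ℝ → ℝ → ℝ → ℝ} (h : Sm (n + 1) f) : Sm n (dY f) :=
  Sm_congr (Sm_dV (0, 0, 1) h) (dY_eq h (by omega))

theorem Sm_dS {n : ℕ} {f : ℝ → ℝ → ℝ → ℝ} (h : Sm (n + 1) f) : Sm n (dS f) :=
  Sm_congr (Sm_dV (1, 0, 0) h) (dS_eq h (by omega))

theorem dX_congr {f f' : ℝ → ℝ → ℝ → ℝ} (he : ∀ t x y : ℝ, 0 < t → f' t x y = f t x y)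
    (t x y : ℝ) (ht : 0 < t) : dX f' t x y = dX f t x y := by
  have : (fun x' => f' t x' y) = fun x' => f t x' y := funext fun x' => he t x' y ht
  simp only [dX, this]

theorem dY_congr {f f' : ℝ → ℝ → ℝ → ℝ} (he : ∀ t x y : ℝ, 0 < t → f' t x y = f t x y)
    (t x y : ℝ) (ht : 0 < t) : dY f' t x y = dY f t x y := by
  have : (fun y' => f' t x y') = fun y' => f t x y' := funext fun y' => he t x y' ht
  simp only [dY, this]

theorem dS_congr {f f' : ℝ → ℝ → ℝ → ℝ} (he : ∀ t x y : ℝ, 0 < t → f' t x y = f t x y)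
    (t x y : ℝ) (ht : 0 < t) : dS f' t x y = dS f t x y := by
  have : (fun t' => f' t' x y) =ᶠ[𝓝 t] fun t' => f t' x y := by
    filter_upwards [lt_mem_nhds ht] with t' ht'
    exact he t' x y ht'
  exact this.deriv_eq

/-- directional derivatives commute -/
theorem dV_comm {n : ℕ} {f : ℝ → ℝ → ℝ → ℝ} (v w : ℝ × ℝ × ℝ) (h : Sm n f) (hn : 2 ≤ n)
    (t x y : ℝ) (ht : 0 < t) : dV v (dV w f) t x y = dV w (dV v f) t x y := by
  have h2 : ContDiffAt ℝ 2 (unc f) (t, x, y) :=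
    ((Sm_iff.1 h).contDiffAt (isOpen_pos.mem_nhds ht)).of_le (by exact_mod_cast hn)
  have hsym : IsSymmSndFDerivAt ℝ (unc f) (t, x, y) :=
    h2.isSymmSndFDerivAt (by simp)
  have hd : DifferentiableAt ℝ (fderiv ℝ (unc f)) (t, x, y) := by
    have : ContDiffAt ℝ 1 (fderiv ℝ (unc f)) (t, x, y) := h2.fderiv_right (by norm_num)
    exact this.differentiableAt (by norm_num)
  have key : ∀ a b : ℝ × ℝ × ℝ, dV a (dV b f) t x y
      = fderiv ℝ (fderiv ℝ (unc f)) (t, x, y) a b := by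
    intro a b
    have e1 : unc (dV b f) = fun q => fderiv ℝ (unc f) q b := by
      funext q
      rfl
    have e2 : HasFDerivAt (fun q => fderiv ℝ (unc f) q b)
        ((fderiv ℝ (fderiv ℝ (unc f)) (t, x, y)).flip b) (t, x, y) := by
      have := hd.hasFDerivAt.clm_apply (hasFDerivAt_const b (t, x, y))
      simpa using this
    show fderiv ℝ (unc (dV b f)) (t, x, y) a = _
    rw [e1, e2.fderiv]
    rfl
  rw [key, key]
  exact hsym.eq v w

theorem dV_congr {f f' : ℝ → ℝ → ℝ → ℝ} (v : ℝ × ℝ × ℝ)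
    (he : ∀ t x y : ℝ, 0 < t → f' t x y = f t x y)
    (t x y : ℝ) (ht : 0 < t) : dV v f' t x y = dV v f t x y := by
  have : unc f' =ᶠ[𝓝 (t, x, y)] unc f := by
    filter_upwards [isOpen_pos.mem_nhds (show (t, x, y) ∈ {q : ℝ × ℝ × ℝ | 0 < q.1} from ht)]
      with q hq
    exact he q.1 q.2.1 q.2.2 hq
  simp only [dV, this.fderiv_eq]

theorem comm_XY {n : ℕ} {f : ℝ → ℝ → ℝ → ℝ} (h : Sm n f) (hn : 2 ≤ n)
    (t x y : ℝ) (ht : 0 < t) : dX (dY f) t x y = dY (dX f) t x y := by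
  obtain ⟨m, rfl⟩ : ∃ m, n = m + 1 := ⟨n - 1, by omega⟩
  rw [dX_eq (Sm_dY h) (by omega) t x y ht, dY_eq (Sm_dX h) (by omega) t x y ht,
    dV_congr _ (dY_eq h (by omega)) t x y ht, dV_congr _ (dX_eq h (by omega)) t x y ht]
  exact dV_comm _ _ h hn t x y ht

theorem comm_SX {n : ℕ} {f : ℝ → ℝ → ℝ → ℝ} (h : Sm n f) (hn : 2 ≤ n)
    (t x y : ℝ) (ht : 0 < t) : dS (dX f) t x y = dX (dS f) t x y := by
  obtain ⟨m, rfl⟩ : ∃ m, n = m + 1 := ⟨n - 1, by omega⟩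
  rw [dS_eq (Sm_dX h) (by omega) t x y ht, dX_eq (Sm_dS h) (by omega) t x y ht,
    dV_congr _ (dX_eq h (by omega)) t x y ht, dV_congr _ (dS_eq h (by omega)) t x y ht]
  exact dV_comm _ _ h hn t x y ht

theorem comm_SY {n : ℕ} {f : ℝ → ℝ → ℝ → ℝ} (h : Sm n f) (hn : 2 ≤ n)
    (t x y : ℝ) (ht : 0 < t) : dS (dY f) t x y = dY (dS f) t x y := by
  obtain ⟨m, rfl⟩ : ∃ m, n = m + 1 := ⟨n - 1, by omega⟩
  rw [dS_eq (Sm_dY h) (by omega) t x y ht, dY_eq (Sm_dS h) (by omega) t x y ht,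
    dV_congr _ (dY_eq h (by omega)) t x y ht, dV_congr _ (dS_eq h (by omega)) t x y ht]
  exact dV_comm _ _ h hn t x y ht

/-! linearity -/

section lin

variable {n : ℕ} {f f' : ℝ → ℝ → ℝ → ℝ}

theorem dX_add (h : Sm n f) (h' : Sm n f') (hn : 1 ≤ n) (t x y : ℝ) (ht : 0 < t) :
    dX (fun t x y => f t x y + f' t x y) t x y = dX f t x y + dX f' t x y :=
  ((hasX (diffAt h hn ht)).differentiableAt.hasDerivAt.add
    (hasX (diffAt h' hn ht)).differentiableAt.hasDerivAt).deriv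

theorem dY_add (h : Sm n f) (h' : Sm n f') (hn : 1 ≤ n) (t x y : ℝ) (ht : 0 < t) :
    dY (fun t x y => f t x y + f' t x y) t x y = dY f t x y + dY f' t x y :=
  ((hasY (diffAt h hn ht)).differentiableAt.hasDerivAt.add
    (hasY (diffAt h' hn ht)).differentiableAt.hasDerivAt).deriv

theorem dS_add (h : Sm n f) (h' : Sm n f') (hn : 1 ≤ n) (t x y : ℝ) (ht : 0 < t) :
    dS (fun t x y => f t x y + f' t x y) t x y = dS f t x y + dS f' t x y :=
  ((hasS (diffAt h hn ht)).differentiableAt.hasDerivAt.add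
    (hasS (diffAt h' hn ht)).differentiableAt.hasDerivAt).deriv

theorem dX_sub (h : Sm n f) (h' : Sm n f') (hn : 1 ≤ n) (t x y : ℝ) (ht : 0 < t) :
    dX (fun t x y => f t x y - f' t x y) t x y = dX f t x y - dX f' t x y :=
  ((hasX (diffAt h hn ht)).differentiableAt.hasDerivAt.sub
    (hasX (diffAt h' hn ht)).differentiableAt.hasDerivAt).deriv

theorem dY_sub (h : Sm n f) (h' : Sm n f') (hn : 1 ≤ n) (t x y : ℝ) (ht : 0 < t) :
    dY (fun t x y => f t x y - f' t x y) t x y = dY f t x y - dY f' t x y :=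
  ((hasY (diffAt h hn ht)).differentiableAt.hasDerivAt.sub
    (hasY (diffAt h' hn ht)).differentiableAt.hasDerivAt).deriv

theorem dS_sub (h : Sm n f) (h' : Sm n f') (hn : 1 ≤ n) (t x y : ℝ) (ht : 0 < t) :
    dS (fun t x y => f t x y - f' t x y) t x y = dS f t x y - dS f' t x y :=
  ((hasS (diffAt h hn ht)).differentiableAt.hasDerivAt.sub
    (hasS (diffAt h' hn ht)).differentiableAt.hasDerivAt).deriv

theorem dX_smul (c : ℝ) (h : Sm n f) (hn : 1 ≤ n) (t x y : ℝ) (ht : 0 < t) :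
    dX (fun t x y => c * f t x y) t x y = c * dX f t x y :=
  ((hasX (diffAt h hn ht)).differentiableAt.hasDerivAt.const_mul c).deriv

theorem dY_smul (c : ℝ) (h : Sm n f) (hn : 1 ≤ n) (t x y : ℝ) (ht : 0 < t) :
    dY (fun t x y => c * f t x y) t x y = c * dY f t x y :=
  ((hasY (diffAt h hn ht)).differentiableAt.hasDerivAt.const_mul c).deriv

theorem dS_smul (c : ℝ) (h : Sm n f) (hn : 1 ≤ n) (t x y : ℝ) (ht : 0 < t) :
    dS (fun t x y => c * f t x y) t x y = c * dS f t x y :=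
  ((hasS (diffAt h hn ht)).differentiableAt.hasDerivAt.const_mul c).deriv

end lin

/-- solutions of the heat equation for `t > 0` -/
def Ht (f : ℝ → ℝ → ℝ → ℝ) : Prop :=
  ∀ t x y : ℝ, 0 < t → dS f t x y = dX (dX f) t x y + dY (dY f) t x y

theorem Ht_congr {f f' : ℝ → ℝ → ℝ → ℝ} (he : ∀ t x y : ℝ, 0 < t → f' t x y = f t x y)
    (h : Ht f) : Ht f' := by
  intro t x y ht
  rw [dS_congr he t x y ht, dX_congr (dX_congr he) t x y ht, dY_congr (dY_congr he) t x y ht]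
  exact h t x y ht

theorem Ht_add {f f' : ℝ → ℝ → ℝ → ℝ} (s : Sm 2 f) (s' : Sm 2 f') (h : Ht f) (h' : Ht f') :
    Ht (fun t x y => f t x y + f' t x y) := by
  intro t x y ht
  rw [dS_add s s' (by norm_num) t x y ht,
    dX_congr (dX_add s s' (by norm_num)) t x y ht,
    dY_congr (dY_add s s' (by norm_num)) t x y ht,
    dX_add (Sm_dX s) (Sm_dX s') (by norm_num) t x y ht,
    dY_add (Sm_dY s) (Sm_dY s') (by norm_num) t x y ht, h t x y ht, h' t x y ht]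
  ring

theorem Ht_sub {f f' : ℝ → ℝ → ℝ → ℝ} (s : Sm 2 f) (s' : Sm 2 f') (h : Ht f) (h' : Ht f') :
    Ht (fun t x y => f t x y - f' t x y) := by
  intro t x y ht
  rw [dS_sub s s' (by norm_num) t x y ht,
    dX_congr (dX_sub s s' (by norm_num)) t x y ht,
    dY_congr (dY_sub s s' (by norm_num)) t x y ht,
    dX_sub (Sm_dX s) (Sm_dX s') (by norm_num) t x y ht,
    dY_sub (Sm_dY s) (Sm_dY s') (by norm_num) t x y ht, h t x y ht, h' t x y ht]
  ring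

theorem Ht_smul {f : ℝ → ℝ → ℝ → ℝ} (c : ℝ) (s : Sm 2 f) (h : Ht f) :
    Ht (fun t x y => c * f t x y) := by
  intro t x y ht
  rw [dS_smul c s (by norm_num) t x y ht,
    dX_congr (dX_smul c s (by norm_num)) t x y ht,
    dY_congr (dY_smul c s (by norm_num)) t x y ht,
    dX_smul c (Sm_dX s) (by norm_num) t x y ht,
    dY_smul c (Sm_dY s) (by norm_num) t x y ht, h t x y ht]
  ring

theorem Ht_dX {f : ℝ → ℝ → ℝ → ℝ} (s : Sm 3 f) (h : Ht f) : Ht (dX f) := by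
  intro t x y ht
  rw [comm_SX s (by norm_num) t x y ht, dX_congr h t x y ht,
    dX_add (Sm_dX (Sm_dX s)) (Sm_dY (Sm_dY s)) (by norm_num) t x y ht,
    comm_XY (Sm_dY s) (by norm_num) t x y ht,
    dY_congr (comm_XY s (by norm_num)) t x y ht]

theorem Ht_dY {f : ℝ → ℝ → ℝ → ℝ} (s : Sm 3 f) (h : Ht f) : Ht (dY f) := by
  intro t x y ht
  rw [comm_SY s (by norm_num) t x y ht, dY_congr h t x y ht,
    dY_add (Sm_dX (Sm_dX s)) (Sm_dY (Sm_dY s)) (by norm_num) t x y ht,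
    ← comm_XY (Sm_dX s) (by norm_num) t x y ht,
    dX_congr (fun t x y ht => (comm_XY s (by norm_num) t x y ht).symm) t x y ht]

theorem t_HSYS (h1 : S_HEAT) : S_HSYS := by
  intro g C hg
  obtain ⟨s6, hU⟩ := h1 g C hg
  have eT : ∀ t x y : ℝ, 0 < t → HT g t x y =
      dX (dX (HU g)) t x y + dY (dY (HU g)) t x y := by
    intro t x y ht
    obtain ⟨-, -, hxx, hyy, -, -⟩ := hU t x y ht
    rw [hxx, hyy]; ring
  have eA : ∀ t x y : ℝ, 0 < t → HA g t x y =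
      dX (dX (HU g)) t x y - dY (dY (HU g)) t x y := by
    intro t x y ht
    obtain ⟨-, -, hxx, hyy, -, -⟩ := hU t x y ht
    rw [hxx, hyy]; ring
  have eB : ∀ t x y : ℝ, 0 < t → HB g t x y = 2 * dX (dY (HU g)) t x y := by
    intro t x y ht
    obtain ⟨-, -, -, -, hxy, -⟩ := hU t x y ht
    rw [hxy]; ring
  have hUht : Ht (HU g) := by
    intro t x y ht
    obtain ⟨-, -, -, -, -, hs⟩ := hU t x y ht
    rw [hs, eT t x y ht]
  have sX : Sm 5 (dX (HU g)) := Sm_dX s6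
  have sY : Sm 5 (dY (HU g)) := Sm_dY s6
  have sXX : Sm 4 (dX (dX (HU g))) := Sm_dX sX
  have sYY : Sm 4 (dY (dY (HU g))) := Sm_dY sY
  have sXY : Sm 4 (dX (dY (HU g))) := Sm_dX sY
  have sT : Sm 4 (HT g) := Sm_congr (Sm_add sXX sYY) eT
  have sA : Sm 4 (HA g) := Sm_congr (Sm_sub sXX sYY) eA
  have sB : Sm 4 (HB g) := Sm_congr (Sm_smul 2 sXY) eB
  have kXX : Ht (dX (dX (HU g))) :=
    Ht_dX (Sm_mono sX (by norm_num)) (Ht_dX (Sm_mono s6 (by norm_num)) hUht)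
  have kYY : Ht (dY (dY (HU g))) :=
    Ht_dY (Sm_mono sY (by norm_num)) (Ht_dY (Sm_mono s6 (by norm_num)) hUht)
  have kXY : Ht (dX (dY (HU g))) :=
    Ht_dX (Sm_mono sY (by norm_num)) (Ht_dY (Sm_mono s6 (by norm_num)) hUht)
  have tXX : Sm 2 (dX (dX (HU g))) := Sm_mono sXX (by norm_num)
  have tYY : Sm 2 (dY (dY (HU g))) := Sm_mono sYY (by norm_num)
  have tXY : Sm 2 (dX (dY (HU g))) := Sm_mono sXY (by norm_num)
  refine ⟨Sm_mono sT (by norm_num), Sm_mono sA (by norm_num), Sm_mono sB (by norm_num),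
    Ht_congr eT (Ht_add tXX tYY kXX kYY), Ht_congr eA (Ht_sub tXX tYY kXX kYY),
    Ht_congr eB (Ht_smul 2 tXY kXY), ?_, ?_⟩
  · intro t x y ht
    rw [dX_congr eT t x y ht, dX_congr eA t x y ht, dY_congr eB t x y ht,
      dX_add sXX sYY (by norm_num) t x y ht, dX_sub sXX sYY (by norm_num) t x y ht,
      dY_smul 2 sXY (by norm_num) t x y ht,
      comm_XY sY (by norm_num) t x y ht]
    ring
  · intro t x y ht
    rw [dY_congr eT t x y ht, dX_congr eB t x y ht, dY_congr eA t x y ht,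
      dY_add sXX sYY (by norm_num) t x y ht, dY_sub sXX sYY (by norm_num) t x y ht,
      dX_smul 2 sXY (by norm_num) t x y ht,
      dX_congr (comm_XY (Sm_mono s6 (le_refl 6)) (by norm_num)) t x y ht,
      comm_XY sX (by norm_num) t x y ht]
    ring

end Pool.Agent.W775.WH.HSYS
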