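import Pool.Agent.W775.WH.Stm

/-!
# `L^q` bound of `HT` when there is no singular part
-/

set_option autoImplicit false

open MeasureTheory Set Filter Topology

namespace Pool.Agent.W775.WH.IQQ

open Pool.Agent.W775.WH

/-- change of variables -/
theorem cov (F : ℝ × ℝ → ℝ) (x y t : ℝ) (ht : 0 < t) :
    ∫ w : ℝ × ℝ, F (x - Real.sqrt t * w.1, y - Real.sqrt t * w.2) = t⁻¹ * ∫ z', F z' := by
  have h1 := MeasureTheory.Measure.integral_comp_smul (volume : Measure (ℝ × ℝ))
    (fun v => F ((x, y) - v)) (Real.sqrt t)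
  have h2 : Module.finrank ℝ (ℝ × ℝ) = 2 := by simp
  rw [h2, Real.sq_sqrt ht.le, abs_of_pos (inv_pos.2 ht), integral_sub_left_eq_self,
    smul_eq_mul] at h1
  rw [← h1]
  rfl

/-! ### Young inequality -/

theorem jensen {k H : ℝ × ℝ → ENNReal} (hk : Measurable k) (hH : Measurable H)
    (h1 : ∫⁻ v, k v = 1) {q : ℝ} (hq : 1 ≤ q) (z : ℝ × ℝ) :
    (∫⁻ z', k (z' - z) * H z') ^ q ≤ ∫⁻ z', k (z' - z) * H z' ^ q := by
  have hk' : Measurable fun z' => k (z' - z) := hk.comp (measurable_id.sub_const z)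
  set ν : Measure (ℝ × ℝ) := volume.withDensity (fun z' => k (z' - z)) with hν
  have : IsProbabilityMeasure ν := ⟨by
    rw [hν, withDensity_apply _ MeasurableSet.univ, Measure.restrict_univ,
      lintegral_sub_right_eq_self, h1]⟩
  have h2 := eLpNorm'_le_eLpNorm'_of_exponent_le (μ := ν) (f := H) one_pos hq
    hH.aestronglyMeasurable
  have hq0 : 0 < q := by linarith
  rw [eLpNorm'_eq_lintegral_enorm, eLpNorm'_eq_lintegral_enorm] at h2
  simp only [enorm_eq_self, ENNReal.rpow_one, one_div, inv_one] at h2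
  have h3 : ∀ G : ℝ × ℝ → ENNReal, Measurable G → ∫⁻ z', G z' ∂ν = ∫⁻ z', k (z' - z) * G z' := by
    intro G hG
    rw [hν, lintegral_withDensity_eq_lintegral_mul _ hk' hG]
    rfl
  rw [h3 H hH, h3 (fun z' => H z' ^ q) (hH.pow_const q)] at h2
  calc (∫⁻ z', k (z' - z) * H z') ^ q ≤ ((∫⁻ z', k (z' - z) * H z' ^ q) ^ q⁻¹) ^ q :=
        ENNReal.rpow_le_rpow h2 hq0.le
    _ = _ := by rw [← ENNReal.rpow_mul, inv_mul_cancel₀ hq0.ne', ENNReal.rpow_one]

theorem young {k H : ℝ × ℝ → ENNReal} (hk : Measurable k) (hH : Measurable H)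
    (h1 : ∫⁻ v, k v = 1) {q : ℝ} (hq : 1 ≤ q) :
    ∫⁻ z, (∫⁻ z', k (z' - z) * H z') ^ q ≤ ∫⁻ z', H z' ^ q := by
  calc ∫⁻ z, (∫⁻ z', k (z' - z) * H z') ^ q ≤ ∫⁻ z, ∫⁻ z', k (z' - z) * H z' ^ q :=
        lintegral_mono fun z => jensen hk hH h1 hq z
    _ = ∫⁻ z', ∫⁻ z, k (z' - z) * H z' ^ q := by
        rw [lintegral_lintegral_swap]
        apply Measurable.aemeasurable
        exact (hk.comp (measurable_snd.sub measurable_fst)).mul
          ((hH.comp measurable_snd).pow_const q)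
    _ = ∫⁻ z', H z' ^ q := by
        refine lintegral_congr fun z' => ?_
        have hm : Measurable fun z => k (z' - z) := hk.comp (measurable_const.sub measurable_id)
        rw [lintegral_mul_const _ hm, lintegral_sub_left_eq_self (fun v => k v) z', h1, one_mul]

/-! ### One variable -/

/-- the Gaussian -/
noncomputable def E (t x s : ℝ) : ℝ := Real.exp (-(x - s) ^ 2 / (4 * t))

/-- its first derivative -/
noncomputable def E1 (t x s : ℝ) : ℝ := (x - s) / (2 * t) * E t x s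

/-- its second derivative -/
noncomputable def E2 (t x s : ℝ) : ℝ := ((x - s) ^ 2 / (4 * t ^ 2) - 1 / (2 * t)) * E t x s

theorem hasDerivAt_E {t : ℝ} (ht : t ≠ 0) (x s : ℝ) : HasDerivAt (E t x) (E1 t x s) s := by
  have h1 : HasDerivAt (fun s : ℝ => -(x - s) ^ 2 / (4 * t)) ((x - s) / (2 * t)) s := by
    have h2 : HasDerivAt (fun s : ℝ => x - s) (-1) s := by
      simpa using (hasDerivAt_id s).const_sub x
    have h3 := ((h2.pow 2).neg).div_const (4 * t)
    refine h3.congr_deriv ?_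
    push_cast
    field_simp
    ring
  have h4 := h1.exp
  unfold E1 E
  refine h4.congr_deriv ?_
  ring

theorem hasDerivAt_E1 {t : ℝ} (ht : t ≠ 0) (x s : ℝ) : HasDerivAt (E1 t x) (E2 t x s) s := by
  have h2 : HasDerivAt (fun s : ℝ => (x - s) / (2 * t)) (-1 / (2 * t)) s := by
    simpa using ((hasDerivAt_id s).const_sub x).div_const (2 * t)
  have h3 := h2.mul (hasDerivAt_E ht x s)
  refine h3.congr_deriv ?_
  unfold E2 E1
  field_simp
  ring

theorem mul_exp_neg_le (y : ℝ) : y * Real.exp (-y) ≤ 1 := by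
  have h1 := Real.add_one_le_exp y
  have h2 : Real.exp (-y) * Real.exp y = 1 := by rw [← Real.exp_add]; simp
  have h3 := Real.exp_pos (-y)
  nlinarith

theorem bound_E {t : ℝ} (ht : 0 < t) (ht1 : t ≤ 1) (x s : ℝ) :
    |E t x s| ≤ 3 / t * Real.exp (-(x - s) ^ 2 / (8 * t)) ∧
    |E1 t x s| ≤ 3 / t * Real.exp (-(x - s) ^ 2 / (8 * t)) ∧
    |E2 t x s| ≤ 3 / t * Real.exp (-(x - s) ^ 2 / (8 * t)) := by
  set u := x - s with hu
  set y := u ^ 2 / (8 * t) with hy
  have hy0 : 0 ≤ y := by positivity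
  have hE : E t x s = Real.exp (-y) * Real.exp (-y) := by
    unfold E
    rw [← Real.exp_add, ← hu, hy]
    congr 1
    field_simp
    ring
  have he : Real.exp (-u ^ 2 / (8 * t)) = Real.exp (-y) := by
    rw [hy]; congr 1; ring
  rw [he]
  have h0 := Real.exp_pos (-y)
  have h1 := mul_exp_neg_le y
  have h2 : Real.exp (-y) ≤ 1 := Real.exp_le_one_iff.2 (by linarith)
  have ht' : 1 ≤ 1 / t := by rw [le_div_iff₀ ht]; linarith
  have hE0 : 0 < E t x s := Real.exp_pos _
  have h3t : 3 / t = 3 * (1 / t) := by ring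
  have key : ∀ c : ℝ, |c| ≤ 1 / t + 2 / t * y → |c * E t x s| ≤ 3 / t * Real.exp (-y) := by
    intro c hc
    rw [abs_mul, abs_of_pos hE0, hE, ← mul_assoc]
    refine mul_le_mul_of_nonneg_right ?_ h0.le
    calc |c| * Real.exp (-y) ≤ (1 / t + 2 / t * y) * Real.exp (-y) :=
          mul_le_mul_of_nonneg_right hc h0.le
      _ = 1 / t * Real.exp (-y) + 2 / t * (y * Real.exp (-y)) := by ring
      _ ≤ 1 / t * 1 + 2 / t * 1 := by gcongr
      _ = 3 / t := by ring
  have hty : u ^ 2 = 8 * t * y := by rw [hy]; field_simp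
  refine ⟨?_, ?_, ?_⟩
  · have := key 1 (by
      rw [abs_one]
      have : 0 ≤ 2 / t * y := by positivity
      linarith)
    rwa [one_mul] at this
  · unfold E1
    apply key
    rw [← hu, abs_div, abs_of_pos (by positivity : (0 : ℝ) < 2 * t), div_le_iff₀ (by positivity)]
    have e1 : (1 / t + 2 / t * y) * (2 * t) = 2 + 4 * y := by field_simp; ring
    rw [e1]
    have e2 : |u| ≤ (1 + u ^ 2) / 2 := by
      nlinarith [sq_abs u, sq_nonneg (|u| - 1)]
    have e3 : t * y ≤ y := by nlinarith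
    nlinarith
  · unfold E2
    apply key
    rw [← hu]
    have e1 : u ^ 2 / (4 * t ^ 2) = 2 / t * y := by rw [hy]; field_simp; ring
    rw [e1, abs_le]
    have e2 : 0 ≤ 2 / t * y := by positivity
    have e3 : 1 / (2 * t) = 1 / t / 2 := by field_simp
    constructor <;> linarith

theorem cont_E (t x : ℝ) : Continuous (E t x) := by unfold E; fun_prop
theorem cont_E1 (t x : ℝ) : Continuous (E1 t x) := by unfold E1 E; fun_prop
theorem cont_E2 (t x : ℝ) : Continuous (E2 t x) := by unfold E2 E; fun_prop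

/-- second derivative of `a * E` -/
noncomputable def A2 (a a1 a2 : ℝ → ℝ) (t x s : ℝ) : ℝ :=
  a2 s * E t x s + 2 * (a1 s * E1 t x s) + a s * E2 t x s

theorem deriv2_mul {a a1 a2 : ℝ → ℝ} (h1 : ∀ s, HasDerivAt a (a1 s) s)
    (h2 : ∀ s, HasDerivAt a1 (a2 s) s) {t : ℝ} (ht : t ≠ 0) (x : ℝ) :
    deriv (deriv (fun s => a s * E t x s)) = A2 a a1 a2 t x := by
  have e1 : deriv (fun s => a s * E t x s) = fun s => a1 s * E t x s + a s * E1 t x s :=
    funext fun s => ((h1 s).mul (hasDerivAt_E ht x s)).deriv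
  rw [e1]
  funext s
  have h3 : HasDerivAt (fun s => a1 s * E t x s + a s * E1 t x s)
      (a2 s * E t x s + a1 s * E1 t x s + (a1 s * E1 t x s + a s * E2 t x s)) s :=
    ((h2 s).mul (hasDerivAt_E ht x s)).add ((h1 s).mul (hasDerivAt_E1 ht x s))
  rw [h3.deriv]
  unfold A2
  ring

/-- data of a cut-off function in one variable -/
structure Cut (c R N : ℝ) (a a1 a2 : ℝ → ℝ) : Prop where
  h1 : ∀ s, HasDerivAt a (a1 s) s
  h2 : ∀ s, HasDerivAt a1 (a2 s) s
  cont : Continuous a2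
  b0 : ∀ s, |a s| ≤ N
  b1 : ∀ s, |a1 s| ≤ N
  b2 : ∀ s, |a2 s| ≤ N
  one : ∀ s, |s - c| < 3 * R / 2 → a s = 1 ∧ a1 s = 0 ∧ a2 s = 0

/-- the bump function -/
noncomputable def bmp (c R : ℝ) (hR : 0 < R) : ContDiffBump c where
  rIn := 3 * R / 2
  rOut := 7 * R / 4
  rIn_pos := by linarith
  rIn_lt_rOut := by linarith

theorem exists_cut (c R : ℝ) (hR : 0 < R) : ∃ (N : ℝ) (a1 a2 : ℝ → ℝ),
    1 ≤ N ∧ Cut c R N (fun s => bmp c R hR s ^ 2) a1 a2 := by
  set a : ℝ → ℝ := fun s => bmp c R hR s ^ 2 with ha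
  have hf : ContDiff ℝ 2 (bmp c R hR) := (bmp c R hR).contDiff (n := 2)
  have hac : ContDiff ℝ 2 a := hf.pow 2
  have hcs : HasCompactSupport a := by
    have h1 : HasCompactSupport (bmp c R hR) := (bmp c R hR).hasCompactSupport
    exact h1.comp_left (g := fun r : ℝ => r ^ 2) (by norm_num)
  have hd1 : Differentiable ℝ a := hac.differentiable (by norm_num)
  have hac1 : ContDiff ℝ 1 (deriv a) := by
    have h1 : ContDiff ℝ (1 + 1) a := by exact_mod_cast hac
    exact (contDiff_succ_iff_deriv.1 h1).2.2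
  have hd2 : Differentiable ℝ (deriv a) := hac1.differentiable (by norm_num)
  have hc2 : Continuous (deriv (deriv a)) := hac1.continuous_deriv (by norm_num)
  obtain ⟨N0, hN0⟩ := hac.continuous.bounded_above_of_compact_support hcs
  obtain ⟨N1, hN1⟩ := hac1.continuous.bounded_above_of_compact_support hcs.deriv
  obtain ⟨N2, hN2⟩ := hc2.bounded_above_of_compact_support hcs.deriv.deriv
  simp only [Real.norm_eq_abs] at hN0 hN1 hN2
  have hone : ∀ s, |s - c| < 3 * R / 2 → a s = 1 := by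
    intro s hs
    have h1 : bmp c R hR s = 1 := by
      apply ContDiffBump.one_of_mem_closedBall
      rw [Metric.mem_closedBall, Real.dist_eq]
      exact hs.le
    rw [ha]
    simp only [h1, one_pow]
  have hopen : IsOpen {s : ℝ | |s - c| < 3 * R / 2} := by
    apply isOpen_lt
    · fun_prop
    · fun_prop
  have hone1 : ∀ s, |s - c| < 3 * R / 2 → deriv a s = 0 := by
    intro s hs
    have h1 : a =ᶠ[𝓝 s] fun _ => (1 : ℝ) := by
      filter_upwards [hopen.mem_nhds hs] with r hr using hone r hr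
    rw [h1.deriv_eq, deriv_const]
  have hone2 : ∀ s, |s - c| < 3 * R / 2 → deriv (deriv a) s = 0 := by
    intro s hs
    have h1 : deriv a =ᶠ[𝓝 s] fun _ => (0 : ℝ) := by
      filter_upwards [hopen.mem_nhds hs] with r hr using hone1 r hr
    rw [h1.deriv_eq, deriv_const]
  have g0 := (abs_nonneg _).trans (hN0 0)
  have g1 := (abs_nonneg _).trans (hN1 0)
  have g2 := (abs_nonneg _).trans (hN2 0)
  refine ⟨N0 + N1 + N2 + 1, deriv a, deriv (deriv a), by linarith, ?_⟩
  exact {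
    h1 := fun s => (hd1 s).hasDerivAt
    h2 := fun s => (hd2 s).hasDerivAt
    cont := hc2
    b0 := fun s => (hN0 s).trans (by linarith)
    b1 := fun s => (hN1 s).trans (by linarith)
    b2 := fun s => (hN2 s).trans (by linarith)
    one := fun s hs => ⟨hone s hs, hone1 s hs, hone2 s hs⟩ }

theorem Cut.mono {c R N N' : ℝ} {a a1 a2 : ℝ → ℝ} (h : Cut c R N a a1 a2) (hN : N ≤ N') :
    Cut c R N' a a1 a2 :=
  { h with
    b0 := fun s => (h.b0 s).trans hN
    b1 := fun s => (h.b1 s).trans hN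
    b2 := fun s => (h.b2 s).trans hN }

theorem bound_A {c R N : ℝ} {a a1 a2 : ℝ → ℝ} (hc : Cut c R N a a1 a2) (hN : 1 ≤ N) {t : ℝ}
    (ht : 0 < t) (ht1 : t ≤ 1) (x s : ℝ) :
    |a s * E t x s| ≤ 12 * N / t * Real.exp (-(x - s) ^ 2 / (8 * t)) ∧
    |A2 a a1 a2 t x s| ≤ 12 * N / t * Real.exp (-(x - s) ^ 2 / (8 * t)) ∧
    |E t x s| ≤ 12 * N / t * Real.exp (-(x - s) ^ 2 / (8 * t)) ∧
    |E2 t x s| ≤ 12 * N / t * Real.exp (-(x - s) ^ 2 / (8 * t)) := by
  obtain ⟨h0, h1, h2⟩ := bound_E ht ht1 x s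
  set B := 3 / t * Real.exp (-(x - s) ^ 2 / (8 * t)) with hB
  have hB0 : 0 ≤ B := by positivity
  have e : 12 * N / t * Real.exp (-(x - s) ^ 2 / (8 * t)) = 4 * (N * B) := by
    rw [hB]; ring
  rw [e]
  have hNB : B ≤ N * B := by nlinarith
  have hNB0 : 0 ≤ N * B := by positivity
  have a0 : |a s * E t x s| ≤ N * B := by
    rw [abs_mul]
    exact mul_le_mul (hc.b0 s) h0 (abs_nonneg _) (by linarith)
  have a1' : |a1 s * E1 t x s| ≤ N * B := by
    rw [abs_mul]
    exact mul_le_mul (hc.b1 s) h1 (abs_nonneg _) (by linarith)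
  have a2' : |a2 s * E t x s| ≤ N * B := by
    rw [abs_mul]
    exact mul_le_mul (hc.b2 s) h0 (abs_nonneg _) (by linarith)
  have a3 : |a s * E2 t x s| ≤ N * B := by
    rw [abs_mul]
    exact mul_le_mul (hc.b0 s) h2 (abs_nonneg _) (by linarith)
  refine ⟨by linarith, ?_, by linarith, by linarith⟩
  unfold A2
  rw [abs_le] at *
  constructor <;> linarith [a1'.1, a1'.2, a2'.1, a2'.2, a3.1, a3.2]

theorem t3_bound {R t : ℝ} (hR : 0 < R) (ht : 0 < t) :
    (1 / t) ^ 3 * Real.exp (-R ^ 2 / (64 * t)) ≤ 6 * (64 / R ^ 2) ^ 3 := by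
  set y := R ^ 2 / (64 * t) with hy
  have hy0 : 0 ≤ y := by positivity
  have h1 := Real.pow_div_factorial_le_exp y hy0 3
  have h2 : Real.exp (-y) * Real.exp y = 1 := by rw [← Real.exp_add]; simp
  have h3 := Real.exp_pos (-y)
  have h4 : y ^ 3 * Real.exp (-y) ≤ 6 := by
    have h5 : y ^ 3 ≤ 6 * Real.exp y := by
      have : ((3 : ℕ).factorial : ℝ) = 6 := by norm_num [Nat.factorial]
      rw [this] at h1
      linarith
    nlinarith
  have e1 : -R ^ 2 / (64 * t) = -y := by rw [hy]; ring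
  have e2 : 1 / t = 64 / R ^ 2 * y := by rw [hy]; field_simp
  rw [e1, e2, mul_pow]
  calc (64 / R ^ 2) ^ 3 * y ^ 3 * Real.exp (-y) = (64 / R ^ 2) ^ 3 * (y ^ 3 * Real.exp (-y)) := by
        ring
    _ ≤ (64 / R ^ 2) ^ 3 * 6 := mul_le_mul_of_nonneg_left h4 (by positivity)
    _ = _ := by ring

theorem kap_le {t : ℝ} (ht : 0 < t) : (4 * Real.pi * t)⁻¹ ≤ 1 / t := by
  rw [← one_div]
  apply one_div_le_one_div_of_le ht
  have := Real.pi_gt_three
  nlinarith

/-- the Laplacian of the heat kernel minus that of its localisation -/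
noncomputable def Dif (a a1 a2 b b1 b2 : ℝ → ℝ) (t x y s r : ℝ) : ℝ :=
  (4 * Real.pi * t)⁻¹ * ((E2 t x s * E t y r + E t x s * E2 t y r) -
    (A2 a a1 a2 t x s * (b r * E t y r) + a s * E t x s * A2 b b1 b2 t y r))

theorem dif_bound {c1 c2 R N : ℝ} {a a1 a2 b b1 b2 : ℝ → ℝ} (hR : 0 < R) (hN : 1 ≤ N)
    (ha : Cut c1 R N a a1 a2) (hb : Cut c2 R N b b1 b2) {t x y : ℝ} (ht : 0 < t) (ht1 : t ≤ 1)
    (hx : |x - c1| ≤ R) (hy : |y - c2| ≤ R) (s r : ℝ) :
    |Dif a a1 a2 b b1 b2 t x y s r| ≤ 4 * (12 * N) ^ 2 * (6 * (64 / R ^ 2) ^ 3) *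
      Real.exp (-((x - s) ^ 2 + (y - r) ^ 2) / 16) := by
  by_cases hcase : |x - s| < R / 2 ∧ |y - r| < R / 2
  · have h1 : |s - c1| < 3 * R / 2 := by
      have := abs_sub_le s x c1
      rw [abs_sub_comm s x] at this
      linarith
    have h2 : |r - c2| < 3 * R / 2 := by
      have := abs_sub_le r y c2
      rw [abs_sub_comm r y] at this
      linarith
    obtain ⟨p0, p1, p2⟩ := ha.one s h1
    obtain ⟨q0, q1, q2⟩ := hb.one r h2
    have h3 : Dif a a1 a2 b b1 b2 t x y s r = 0 := by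
      unfold Dif A2
      rw [p0, p1, p2, q0, q1, q2]
      ring
    rw [h3, abs_zero]
    positivity
  · have hS : R ^ 2 / 4 ≤ (x - s) ^ 2 + (y - r) ^ 2 := by
      by_contra hlt
      apply hcase
      push Not at hlt
      constructor
      · apply abs_lt_of_sq_lt_sq _ (by linarith)
        nlinarith [sq_nonneg (y - r)]
      · apply abs_lt_of_sq_lt_sq _ (by linarith)
        nlinarith [sq_nonneg (x - s)]
    obtain ⟨u0, u1, u2, u3⟩ := bound_A ha hN ht ht1 x s
    obtain ⟨v0, v1, v2, v3⟩ := bound_A hb hN ht ht1 y r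
    set P := 12 * N / t * Real.exp (-(x - s) ^ 2 / (8 * t)) with hP
    set Q := 12 * N / t * Real.exp (-(y - r) ^ 2 / (8 * t)) with hQ
    have hP0 : 0 ≤ P := (abs_nonneg _).trans u0
    have hQ0 : 0 ≤ Q := (abs_nonneg _).trans v0
    have key : ∀ m n : ℝ, |m| ≤ P → |n| ≤ Q → |m * n| ≤ P * Q := by
      intro m n hm hn
      rw [abs_mul]
      exact mul_le_mul hm hn (abs_nonneg _) hP0
    have k1 := key _ _ u3 v2
    have k2 := key _ _ u2 v3
    have k3 := key _ _ u1 v0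
    have k4 := key _ _ u0 v1
    have hsum : |(E2 t x s * E t y r + E t x s * E2 t y r) -
        (A2 a a1 a2 t x s * (b r * E t y r) + a s * E t x s * A2 b b1 b2 t y r)| ≤ 4 * (P * Q) := by
      rw [abs_le] at *
      constructor <;> linarith [k1.1, k1.2, k2.1, k2.2, k3.1, k3.2, k4.1, k4.2]
    have hPQ : P * Q = (12 * N) ^ 2 * (1 / t) ^ 2 *
        Real.exp (-((x - s) ^ 2 + (y - r) ^ 2) / (8 * t)) := by
      rw [hP, hQ]
      have : Real.exp (-((x - s) ^ 2 + (y - r) ^ 2) / (8 * t)) =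
          Real.exp (-(x - s) ^ 2 / (8 * t)) * Real.exp (-(y - r) ^ 2 / (8 * t)) := by
        rw [← Real.exp_add]
        congr 1
        ring
      rw [this]
      ring
    set S := (x - s) ^ 2 + (y - r) ^ 2 with hSdef
    have hexp : Real.exp (-S / (8 * t)) ≤ Real.exp (-S / 16) * Real.exp (-R ^ 2 / (64 * t)) := by
      rw [← Real.exp_add]
      apply Real.exp_le_exp.2
      have e1 : -S / (8 * t) = -(S * (1 / t)) / 16 - (S * (1 / t)) / 16 := by field_simp; ring
      have e2 : -R ^ 2 / (64 * t) = -(R ^ 2 / 4 * (1 / t)) / 16 := by field_simp; ring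
      rw [e1, e2]
      have ht' : 1 ≤ 1 / t := by rw [le_div_iff₀ ht]; linarith
      have hS0 : 0 ≤ S := by positivity
      have e3 : R ^ 2 / 4 * (1 / t) ≤ S * (1 / t) := mul_le_mul_of_nonneg_right hS (by positivity)
      have e4 : S * 1 ≤ S * (1 / t) := mul_le_mul_of_nonneg_left ht' hS0
      linarith
    have hk0 : 0 ≤ (4 * Real.pi * t)⁻¹ := by positivity
    unfold Dif
    rw [abs_mul, abs_of_nonneg hk0]
    calc (4 * Real.pi * t)⁻¹ * |(E2 t x s * E t y r + E t x s * E2 t y r) -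
        (A2 a a1 a2 t x s * (b r * E t y r) + a s * E t x s * A2 b b1 b2 t y r)|
        ≤ (1 / t) * (4 * (P * Q)) :=
          mul_le_mul (kap_le ht) hsum (abs_nonneg _) (by positivity)
      _ = 4 * (12 * N) ^ 2 * ((1 / t) ^ 3 * Real.exp (-S / (8 * t))) := by rw [hPQ]; ring
      _ ≤ 4 * (12 * N) ^ 2 * ((1 / t) ^ 3 *
          (Real.exp (-S / 16) * Real.exp (-R ^ 2 / (64 * t)))) := by gcongr
      _ = 4 * (12 * N) ^ 2 * (((1 / t) ^ 3 * Real.exp (-R ^ 2 / (64 * t))) * Real.exp (-S / 16)) := by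
          ring
      _ ≤ 4 * (12 * N) ^ 2 * ((6 * (64 / R ^ 2) ^ 3) * Real.exp (-S / 16)) :=
          mul_le_mul_of_nonneg_left
            (mul_le_mul_of_nonneg_right (t3_bound hR ht) (Real.exp_pos _).le) (by positivity)
      _ = _ := by ring

/-! ### The plane -/

/-- the heat kernel's Laplacian -/
noncomputable def Lk (t x y : ℝ) (z : ℝ × ℝ) : ℝ :=
  (4 * Real.pi * t)⁻¹ * (E2 t x z.1 * E t y z.2 + E t x z.1 * E2 t y z.2)

theorem HT_eq (g : ℝ × ℝ → ℝ) {t : ℝ} (ht : 0 < t) (x y : ℝ) :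
    HT g t x y = ∫ z, g z * Lk t x y z := by
  have h1 := cov (fun z => g z * Lk t x y z) x y t ht
  have h2 : ∫ z, g z * Lk t x y z = t * ∫ w : ℝ × ℝ,
      (fun z => g z * Lk t x y z) (x - Real.sqrt t * w.1, y - Real.sqrt t * w.2) := by
    rw [h1, ← mul_assoc, mul_inv_cancel₀ ht.ne', one_mul]
  rw [h2]
  unfold HT
  rw [← integral_const_mul, ← integral_const_mul]
  congr 1
  funext w
  simp only [Lk, E2, E, gam]
  have hs : Real.sqrt t ^ 2 = t := Real.sq_sqrt ht.le
  have e1 : (x - (x - Real.sqrt t * w.1)) ^ 2 = t * w.1 ^ 2 := by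
    have : x - (x - Real.sqrt t * w.1) = Real.sqrt t * w.1 := by ring
    rw [this, mul_pow, hs]
  have e2 : (y - (y - Real.sqrt t * w.2)) ^ 2 = t * w.2 ^ 2 := by
    have : y - (y - Real.sqrt t * w.2) = Real.sqrt t * w.2 := by ring
    rw [this, mul_pow, hs]
  rw [e1, e2]
  have e3 : Real.exp (-(w.1 ^ 2 + w.2 ^ 2) / 4) =
      Real.exp (-(t * w.1 ^ 2) / (4 * t)) * Real.exp (-(t * w.2 ^ 2) / (4 * t)) := by
    rw [← Real.exp_add]
    congr 1
    field_simp
    ring
  rw [e3]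
  field_simp
  ring

/-- the local test function -/
noncomputable def psi (a b : ℝ → ℝ) (t x y : ℝ) (z : ℝ × ℝ) : ℝ :=
  a z.1 * b z.2 * (Real.sqrt (4 * Real.pi * t)⁻¹ *
    (Real.exp (-(x - z.1) ^ 2 / (8 * t)) * Real.exp (-(y - z.2) ^ 2 / (8 * t))))

theorem psi_sq (a b : ℝ → ℝ) {t : ℝ} (ht : 0 < t) (x y : ℝ) (z : ℝ × ℝ) :
    psi a b t x y z ^ 2 = (4 * Real.pi * t)⁻¹ * ((a z.1 ^ 2 * E t x z.1) *
      (b z.2 ^ 2 * E t y z.2)) := by
  unfold psi E
  have hk0 : 0 ≤ (4 * Real.pi * t)⁻¹ := by positivity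
  have h1 := Real.sq_sqrt hk0
  have e : ∀ u : ℝ, Real.exp (-u ^ 2 / (4 * t)) = Real.exp (-u ^ 2 / (8 * t)) ^ 2 := by
    intro u
    rw [← Real.exp_nat_mul]
    congr 1
    push_cast
    field_simp
    ring
  rw [e, e, mul_pow, mul_pow, mul_pow, mul_pow, h1]
  ring

theorem lap2_eq (A B : ℝ → ℝ) (κ : ℝ) (ψ : ℝ × ℝ → ℝ)
    (h : ∀ z, ψ z ^ 2 = κ * (A z.1 * B z.2)) (z : ℝ × ℝ) :
    lap2 ψ z = κ * (deriv (deriv A) z.1 * B z.2 + A z.1 * deriv (deriv B) z.2) := by
  unfold lap2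
  rw [show (fun w => ψ w ^ 2) = fun w : ℝ × ℝ => κ * (A w.1 * B w.2) from funext h]
  have hx : ∀ (A B : ℝ → ℝ), px (fun w : ℝ × ℝ => κ * (A w.1 * B w.2)) =
      fun w => κ * (deriv A w.1 * B w.2) := by
    intro A B
    funext w
    unfold px
    simp only [deriv_const_mul_field, deriv_mul_const_field]
  have hy : ∀ (A B : ℝ → ℝ), py (fun w : ℝ × ℝ => κ * (A w.1 * B w.2)) =
      fun w => κ * (A w.1 * deriv B w.2) := by
    intro A B
    funext w
    unfold py
    simp only [deriv_const_mul_field]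
  rw [hx, hx, hy, hy]
  ring

theorem gauss_int {c : ℝ} (hc : 0 < c) (x y : ℝ) :
    Integrable (fun z : ℝ × ℝ => Real.exp (-((x - z.1) ^ 2 + (y - z.2) ^ 2) / c)) := by
  have h1 : ∀ x : ℝ, Integrable (fun s : ℝ => Real.exp (-(x - s) ^ 2 / c)) := by
    intro x
    have h2 := (integrable_exp_neg_mul_sq (b := 1 / c) (by positivity)).comp_sub_left x
    refine h2.congr (Filter.Eventually.of_forall fun s => ?_)
    simp only
    congr 1
    ring
  have h3 := (h1 x).mul_prod (h1 y)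
  refine h3.congr (Filter.Eventually.of_forall fun z => ?_)
  simp only
  rw [← Real.exp_add]
  congr 1
  ring

/-- growth of `g` against a Gaussian -/
theorem growth {g : ℝ × ℝ → ℝ} {C : ℝ} (hC : 0 ≤ C) (hg : ∀ z w : ℝ × ℝ, |g z - g w| ≤ C * ‖z - w‖)
    {z0 : ℝ × ℝ} {R x y : ℝ} (hx : |x - z0.1| ≤ R) (hy : |y - z0.2| ≤ R) (z : ℝ × ℝ) :
    |g z| * Real.exp (-((x - z.1) ^ 2 + (y - z.2) ^ 2) / 16) ≤
      (|g z0| + C * R + 17 * C) * Real.exp (-((x - z.1) ^ 2 + (y - z.2) ^ 2) / 32) := by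
  set u := x - z.1 with hu
  set v := y - z.2 with hv
  set Y := (u ^ 2 + v ^ 2) / 32 with hY
  have hY0 : 0 ≤ Y := by positivity
  have e1 : -(u ^ 2 + v ^ 2) / 16 = -Y + -Y := by rw [hY]; ring
  have e2 : -(u ^ 2 + v ^ 2) / 32 = -Y := by rw [hY]; ring
  rw [e1, e2, Real.exp_add, ← mul_assoc]
  refine mul_le_mul_of_nonneg_right ?_ (Real.exp_pos _).le
  have h1 : ‖z - z0‖ ≤ R + (1 + 16 * Y) := by
    rw [Prod.norm_def]
    have hu2 : |u| ≤ (1 + u ^ 2) / 2 := by nlinarith [sq_abs u, sq_nonneg (|u| - 1)]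
    have hv2 : |v| ≤ (1 + v ^ 2) / 2 := by nlinarith [sq_abs v, sq_nonneg (|v| - 1)]
    apply max_le
    · change |z.1 - z0.1| ≤ _
      have : |z.1 - z0.1| ≤ |z.1 - x| + |x - z0.1| := abs_sub_le _ _ _
      rw [abs_sub_comm z.1 x] at this
      nlinarith [sq_nonneg v]
    · change |z.2 - z0.2| ≤ _
      have : |z.2 - z0.2| ≤ |z.2 - y| + |y - z0.2| := abs_sub_le _ _ _
      rw [abs_sub_comm z.2 y] at this
      nlinarith [sq_nonneg u]
  have h2 : |g z| ≤ |g z0| + C * (R + (1 + 16 * Y)) := by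
    have h3 := hg z z0
    have h4 : |g z| ≤ |g z - g z0| + |g z0| := by
      have := abs_add_le (g z - g z0) (g z0)
      simpa using this
    have h5 : C * ‖z - z0‖ ≤ C * (R + (1 + 16 * Y)) := mul_le_mul_of_nonneg_left h1 hC
    linarith
  have h0 := Real.exp_pos (-Y)
  have h3 := mul_exp_neg_le Y
  have h4 : Real.exp (-Y) ≤ 1 := Real.exp_le_one_iff.2 (by linarith)
  have hR : 0 ≤ R := (abs_nonneg _).trans hx
  calc |g z| * Real.exp (-Y) ≤ (|g z0| + C * (R + (1 + 16 * Y))) * Real.exp (-Y) :=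
        mul_le_mul_of_nonneg_right h2 h0.le
    _ = (|g z0| + C * R + C) * Real.exp (-Y) + 16 * C * (Y * Real.exp (-Y)) := by ring
    _ ≤ (|g z0| + C * R + C) * 1 + 16 * C * 1 := by
        gcongr
    _ = _ := by ring

/-- the heat kernel -/
noncomputable def kr (t : ℝ) (v : ℝ × ℝ) : ℝ :=
  (4 * Real.pi * t)⁻¹ * (Real.exp (-v.1 ^ 2 / (4 * t)) * Real.exp (-v.2 ^ 2 / (4 * t)))

theorem kr_cont (t : ℝ) : Continuous (kr t) := by unfold kr; fun_prop

theorem kr_lint {t : ℝ} (ht : 0 < t) : ∫⁻ v, ENNReal.ofReal (kr t v) = 1 := by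
  have h1 : Integrable (fun s : ℝ => Real.exp (-s ^ 2 / (4 * t))) := by
    refine (integrable_exp_neg_mul_sq (b := 1 / (4 * t)) (by positivity)).congr
      (Filter.Eventually.of_forall fun s => ?_)
    simp only
    congr 1
    ring
  have h2 : ∫ s : ℝ, Real.exp (-s ^ 2 / (4 * t)) = Real.sqrt (4 * Real.pi * t) := by
    have h3 := integral_gaussian (1 / (4 * t))
    have h4 : Real.pi / (1 / (4 * t)) = 4 * Real.pi * t := by field_simp
    rw [h4] at h3
    rw [← h3]
    congr 1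
    funext s
    congr 1
    ring
  have h5 : Integrable (kr t) := ((h1.mul_prod h1).const_mul _)
  have h6 : ∫ v, kr t v = 1 := by
    unfold kr
    rw [integral_const_mul]
    have h7 := integral_prod_mul (μ := (volume : Measure ℝ)) (ν := (volume : Measure ℝ))
      (fun s : ℝ => Real.exp (-s ^ 2 / (4 * t))) (fun s : ℝ => Real.exp (-s ^ 2 / (4 * t)))
    rw [← Measure.volume_eq_prod, h2, Real.mul_self_sqrt (by positivity)] at h7
    rw [h7]
    have : 0 < 4 * Real.pi * t := by positivity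
    field_simp
  rw [← ofReal_integral_eq_lintegral_ofReal h5
    (Filter.Eventually.of_forall fun v => by unfold kr; positivity), h6, ENNReal.ofReal_one]

theorem ofReal_integral_le (f : ℝ × ℝ → ℝ) :
    ENNReal.ofReal (∫ z, f z) ≤ ∫⁻ z, ENNReal.ofReal (f z) := by
  by_cases hf : Integrable f
  · rw [integral_eq_lintegral_pos_part_sub_lintegral_neg_part hf]
    refine (ENNReal.ofReal_le_ofReal (sub_le_self _ ENNReal.toReal_nonneg)).trans ?_
    exact ENNReal.ofReal_toReal_le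
  · rw [integral_undef hf, ENNReal.ofReal_zero]
    exact zero_le

/-- the local estimate -/
theorem est {g T : ℝ × ℝ → ℝ} {C R : ℝ} {z0 : ℝ × ℝ} (hC : 0 ≤ C) (hR : 0 < R)
    (hg : ∀ z w : ℝ × ℝ, |g z - g w| ≤ C * ‖z - w‖)
    (hid : ∀ χ : ℝ × ℝ → ℝ, ContDiff ℝ 3 χ → HasCompactSupport χ →
      tsupport χ ⊆ Metric.ball z0 (2 * R) → (∫ z : ℝ × ℝ, g z * lap2 χ z) = ∫ z : ℝ × ℝ, χ z ^ 2 * T z) :
    ∃ M : ℝ, ∀ t : ℝ, 0 < t → t ≤ 1 → ∀ z ∈ Metric.closedBall z0 R,
      ENNReal.ofReal (HT g t z.1 z.2) ≤ ENNReal.ofReal M + ∫⁻ z', ENNReal.ofReal (kr t (z' - z)) *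
        (Metric.ball z0 (2 * R)).indicator (fun w => ENNReal.ofReal (T w)) z' := by
  obtain ⟨N1, a1, a2, hN1, ha0⟩ := exists_cut z0.1 R hR
  obtain ⟨N2, b1, b2, hN2, hb0⟩ := exists_cut z0.2 R hR
  obtain ⟨N, hN, hNa, hNb⟩ : ∃ N : ℝ, 1 ≤ N ∧ N1 ≤ N ∧ N2 ≤ N :=
    ⟨N1 + N2, by linarith, by linarith, by linarith⟩
  have ha := ha0.mono hNa
  have hb := hb0.mono hNb
  set f1 := bmp z0.1 R hR with hf1
  set f2 := bmp z0.2 R hR with hf2
  set M := 4 * (12 * N) ^ 2 * (6 * (64 / R ^ 2) ^ 3) with hM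
  have hM0 : 0 ≤ M := by positivity
  set G := |g z0| + C * R + 17 * C with hG
  set J := ∫ v : ℝ × ℝ, Real.exp (-(v.1 ^ 2 + v.2 ^ 2) / 32) with hJ
  have hJxy : ∀ x y : ℝ, ∫ z : ℝ × ℝ, Real.exp (-((x - z.1) ^ 2 + (y - z.2) ^ 2) / 32) = J := by
    intro x y
    exact integral_sub_left_eq_self (fun v : ℝ × ℝ => Real.exp (-(v.1 ^ 2 + v.2 ^ 2) / 32))
      volume (x, y)
  have hgc : Continuous g := by
    have h1 : LipschitzWith (Real.toNNReal C) g := by
      apply LipschitzWith.of_dist_le_mul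
      intro z w
      rw [Real.dist_eq, dist_eq_norm, Real.coe_toNNReal _ hC]
      exact hg z w
    exact h1.continuous
  refine ⟨M * G * J, ?_⟩
  intro t ht ht1 z hz
  rw [Metric.mem_closedBall, Prod.dist_eq, max_le_iff, Real.dist_eq, Real.dist_eq] at hz
  obtain ⟨hx, hy⟩ := hz
  set x := z.1 with hxdef
  set y := z.2 with hydef
  have hcA : Continuous fun s : ℝ => f1 s ^ 2 := (f1.contDiff (n := 0)).continuous.pow 2
  have hcB : Continuous fun s : ℝ => f2 s ^ 2 := (f2.contDiff (n := 0)).continuous.pow 2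
  have hca1 : Continuous a1 := continuous_iff_continuousAt.2 fun s => (ha.h2 s).continuousAt
  have hcb1 : Continuous b1 := continuous_iff_continuousAt.2 fun s => (hb.h2 s).continuousAt
  have hca2 := ha.cont
  have hcb2 := hb.cont
  have hcE := cont_E t x
  have hcE' := cont_E t y
  have hcE1 := cont_E1 t x
  have hcE1' := cont_E1 t y
  have hcE2 := cont_E2 t x
  have hcE2' := cont_E2 t y
  have hcL : Continuous (Lk t x y) := by
    unfold Lk
    exact continuous_const.mul (((hcE2.comp continuous_fst).mul (hcE'.comp continuous_snd)).add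
      ((hcE.comp continuous_fst).mul (hcE2'.comp continuous_snd)))
  have hcA2 : Continuous (A2 (fun s => f1 s ^ 2) a1 a2 t x) := by
    unfold A2
    exact ((hca2.mul hcE).add (continuous_const.mul (hca1.mul hcE1))).add (hcA.mul hcE2)
  have hcB2 : Continuous (A2 (fun s => f2 s ^ 2) b1 b2 t y) := by
    unfold A2
    exact ((hcb2.mul hcE').add (continuous_const.mul (hcb1.mul hcE1'))).add (hcB.mul hcE2')
  set D : ℝ × ℝ → ℝ := fun w =>
    Dif (fun s => f1 s ^ 2) a1 a2 (fun s => f2 s ^ 2) b1 b2 t x y w.1 w.2 with hD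
  have hcD : Continuous D := by
    rw [hD]
    unfold Dif
    exact continuous_const.mul ((((hcE2.comp continuous_fst).mul (hcE'.comp continuous_snd)).add
      ((hcE.comp continuous_fst).mul (hcE2'.comp continuous_snd))).sub
      (((hcA2.comp continuous_fst).mul ((hcB.mul hcE').comp continuous_snd)).add
      (((hcA.mul hcE).comp continuous_fst).mul (hcB2.comp continuous_snd))))
  have hint32 := gauss_int (c := 32) (by norm_num) x y
  have hgD : ∀ w, ‖g w * D w‖ ≤ M * G * Real.exp (-((x - w.1) ^ 2 + (y - w.2) ^ 2) / 32) := by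
    intro w
    rw [Real.norm_eq_abs, abs_mul]
    have h1 := dif_bound hR hN ha hb ht ht1 hx hy w.1 w.2
    have h2 := growth hC hg hx hy w
    calc |g w| * |D w| ≤ |g w| * (M * Real.exp (-((x - w.1) ^ 2 + (y - w.2) ^ 2) / 16)) :=
          mul_le_mul_of_nonneg_left h1 (abs_nonneg _)
      _ = M * (|g w| * Real.exp (-((x - w.1) ^ 2 + (y - w.2) ^ 2) / 16)) := by ring
      _ ≤ M * (G * Real.exp (-((x - w.1) ^ 2 + (y - w.2) ^ 2) / 32)) :=
          mul_le_mul_of_nonneg_left h2 hM0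
      _ = _ := by ring
  have hintD : Integrable fun w => g w * D w :=
    (hint32.const_mul (M * G)).mono' (hgc.mul hcD).aestronglyMeasurable
      (Filter.Eventually.of_forall hgD)
  have hLb : ∀ w, |Lk t x y w| ≤ 18 / t ^ 3 *
      Real.exp (-((x - w.1) ^ 2 + (y - w.2) ^ 2) / 16) := by
    intro w
    obtain ⟨u0, -, u2⟩ := bound_E ht ht1 x w.1
    obtain ⟨v0, -, v2⟩ := bound_E ht ht1 y w.2
    have hk0 : 0 ≤ (4 * Real.pi * t)⁻¹ := by positivity
    unfold Lk
    rw [abs_mul, abs_of_nonneg hk0]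
    have k1 : |E2 t x w.1 * E t y w.2| ≤ (3 / t * Real.exp (-(x - w.1) ^ 2 / (8 * t))) *
        (3 / t * Real.exp (-(y - w.2) ^ 2 / (8 * t))) := by
      rw [abs_mul]
      exact mul_le_mul u2 v0 (abs_nonneg _) (by positivity)
    have k2 : |E t x w.1 * E2 t y w.2| ≤ (3 / t * Real.exp (-(x - w.1) ^ 2 / (8 * t))) *
        (3 / t * Real.exp (-(y - w.2) ^ 2 / (8 * t))) := by
      rw [abs_mul]
      exact mul_le_mul u0 v2 (abs_nonneg _) (by positivity)
    have k3 := abs_add_le (E2 t x w.1 * E t y w.2) (E t x w.1 * E2 t y w.2)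
    have k4 : Real.exp (-(x - w.1) ^ 2 / (8 * t)) * Real.exp (-(y - w.2) ^ 2 / (8 * t)) ≤
        Real.exp (-((x - w.1) ^ 2 + (y - w.2) ^ 2) / 16) := by
      rw [← Real.exp_add]
      apply Real.exp_le_exp.2
      have ht' : 1 ≤ 1 / t := by rw [le_div_iff₀ ht]; linarith
      have e1 : -(x - w.1) ^ 2 / (8 * t) + -(y - w.2) ^ 2 / (8 * t) =
          -(((x - w.1) ^ 2 + (y - w.2) ^ 2) * (1 / t)) / 8 := by field_simp; ring
      rw [e1]
      have hS0 : 0 ≤ (x - w.1) ^ 2 + (y - w.2) ^ 2 := by positivity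
      nlinarith [mul_le_mul_of_nonneg_left ht' hS0]
    calc (4 * Real.pi * t)⁻¹ * |E2 t x w.1 * E t y w.2 + E t x w.1 * E2 t y w.2|
        ≤ (1 / t) * (2 * ((3 / t * Real.exp (-(x - w.1) ^ 2 / (8 * t))) *
          (3 / t * Real.exp (-(y - w.2) ^ 2 / (8 * t))))) :=
          mul_le_mul (kap_le ht) (by linarith) (abs_nonneg _) (by positivity)
      _ = 18 / t ^ 3 * (Real.exp (-(x - w.1) ^ 2 / (8 * t)) *
          Real.exp (-(y - w.2) ^ 2 / (8 * t))) := by field_simp; ring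
      _ ≤ _ := mul_le_mul_of_nonneg_left k4 (by positivity)
  have hintL : Integrable fun w => g w * Lk t x y w := by
    refine (hint32.const_mul (18 / t ^ 3 * G)).mono' (hgc.mul hcL).aestronglyMeasurable
      (Filter.Eventually.of_forall fun w => ?_)
    rw [Real.norm_eq_abs, abs_mul]
    have h2 := growth hC hg hx hy w
    calc |g w| * |Lk t x y w| ≤ |g w| * (18 / t ^ 3 *
          Real.exp (-((x - w.1) ^ 2 + (y - w.2) ^ 2) / 16)) :=
          mul_le_mul_of_nonneg_left (hLb w) (abs_nonneg _)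
      _ = 18 / t ^ 3 * (|g w| * Real.exp (-((x - w.1) ^ 2 + (y - w.2) ^ 2) / 16)) := by ring
      _ ≤ 18 / t ^ 3 * (G * Real.exp (-((x - w.1) ^ 2 + (y - w.2) ^ 2) / 32)) :=
          mul_le_mul_of_nonneg_left h2 (by positivity)
      _ = _ := by ring
  set ψ := psi f1 f2 t x y with hψ
  have hψ2 := psi_sq f1 f2 ht x y
  have hlap : ∀ w, lap2 ψ w = Lk t x y w - D w := by
    intro w
    rw [lap2_eq (fun s => f1 s ^ 2 * E t x s) (fun s => f2 s ^ 2 * E t y s) _ ψ hψ2 w,
      deriv2_mul ha.h1 ha.h2 ht.ne' x, deriv2_mul hb.h1 hb.h2 ht.ne' y, hD]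
    unfold Lk Dif
    ring
  have hψ0 : ∀ w, ψ w ≠ 0 → w ∈ Metric.closedBall z0 (7 * R / 4) := by
    intro w hw
    have h1 : f1 w.1 ≠ 0 := by
      intro h
      apply hw
      rw [hψ]
      unfold psi
      rw [h]
      ring
    have h2 : f2 w.2 ≠ 0 := by
      intro h
      apply hw
      rw [hψ]
      unfold psi
      rw [h]
      ring
    have h3 : w.1 ∈ Metric.ball z0.1 (7 * R / 4) := by
      have := f1.support_eq
      rw [← Function.mem_support, this] at h1
      exact h1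
    have h4 : w.2 ∈ Metric.ball z0.2 (7 * R / 4) := by
      have := f2.support_eq
      rw [← Function.mem_support, this] at h2
      exact h2
    rw [Metric.mem_closedBall, Prod.dist_eq, max_le_iff]
    exact ⟨(Metric.mem_ball.1 h3).le, (Metric.mem_ball.1 h4).le⟩
  have hsm : ContDiff ℝ 3 ψ := by
    rw [hψ]
    unfold psi
    have c1 : ContDiff ℝ 3 fun w : ℝ × ℝ => f1 w.1 := (f1.contDiff (n := 3)).comp contDiff_fst
    have c2 : ContDiff ℝ 3 fun w : ℝ × ℝ => f2 w.2 := (f2.contDiff (n := 3)).comp contDiff_snd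
    exact (c1.mul c2).mul (by fun_prop)
  have hcs : HasCompactSupport ψ :=
    HasCompactSupport.of_support_subset_isCompact (isCompact_closedBall z0 (7 * R / 4))
      (fun w hw => hψ0 w hw)
  have hts : tsupport ψ ⊆ Metric.ball z0 (2 * R) := by
    have h1 : tsupport ψ ⊆ Metric.closedBall z0 (7 * R / 4) :=
      closure_minimal (fun w hw => hψ0 w hw) Metric.isClosed_closedBall
    exact h1.trans (Metric.closedBall_subset_ball (by linarith))
  have hI := hid ψ hsm hcs hts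
  have hI2 : ∫ w, g w * lap2 ψ w = HT g t x y - ∫ w, g w * D w := by
    rw [HT_eq g ht x y, ← integral_sub hintL hintD]
    congr 1
    funext w
    rw [hlap]
    ring
  have hI3 : |∫ w, g w * D w| ≤ M * G * J := by
    have h1 := norm_integral_le_of_norm_le (hint32.const_mul (M * G))
      (Filter.Eventually.of_forall hgD)
    rw [integral_const_mul, hJxy] at h1
    exact h1
  have hI4 : HT g t x y ≤ M * G * J + ∫ w, ψ w ^ 2 * T w := by
    have := (abs_le.1 hI3).2
    linarith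
  refine (ENNReal.ofReal_le_ofReal hI4).trans (ENNReal.ofReal_add_le.trans ?_)
  gcongr
  refine (ofReal_integral_le _).trans (lintegral_mono fun w => ?_)
  by_cases hw : w ∈ Metric.ball z0 (2 * R)
  · rw [Set.indicator_of_mem hw, ENNReal.ofReal_mul (sq_nonneg _)]
    gcongr
    rw [hψ2]
    unfold kr E
    have e1 : ∀ s : ℝ, f1 s ^ 2 ≤ 1 := fun s => by
      have h1 := f1.nonneg (x := s)
      have h2 := f1.le_one (x := s)
      nlinarith
    have e2 : ∀ s : ℝ, f2 s ^ 2 ≤ 1 := fun s => by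
      have h1 := f2.nonneg (x := s)
      have h2 := f2.le_one (x := s)
      nlinarith
    have e3 : (w - z).1 = w.1 - x := rfl
    have e4 : (w - z).2 = w.2 - y := rfl
    rw [e3, e4]
    have e5 : (w.1 - x) ^ 2 = (x - w.1) ^ 2 := by ring
    have e6 : (w.2 - y) ^ 2 = (y - w.2) ^ 2 := by ring
    rw [e5, e6]
    have k0 : 0 ≤ (4 * Real.pi * t)⁻¹ := by positivity
    refine mul_le_mul_of_nonneg_left ?_ k0
    refine mul_le_mul ?_ ?_ (by positivity) (Real.exp_pos _).le
    · have := mul_le_mul_of_nonneg_right (e1 w.1) (Real.exp_pos (-(x - w.1) ^ 2 / (4 * t))).le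
      linarith
    · have := mul_le_mul_of_nonneg_right (e2 w.2) (Real.exp_pos (-(y - w.2) ^ 2 / (4 * t))).le
      linarith
  · have : ψ w = 0 := by
      by_contra h
      apply hw
      exact Metric.closedBall_subset_ball (by linarith) (hψ0 w h)
    rw [this]
    simp

theorem t_IQQ : S_IQQ := by
  intro l b C R z0 g P hL q hq hfin hident
  have hR := hL.R0
  have hq0 : 0 < q := by linarith
  obtain ⟨M, hM⟩ := est hL.C0.le hR hL.lip hident
  set H : ℝ × ℝ → ENNReal := (Metric.ball z0 (2 * R)).indicator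
    (fun w => ENNReal.ofReal (T0 P w)) with hH
  have hTm : Measurable (T0 P) := by
    unfold T0 h11 h22
    exact ((measurable_fderiv_apply_const ℝ P ((1, 0) : ℝ × ℝ)).fst).add
      ((measurable_fderiv_apply_const ℝ P ((0, 1) : ℝ × ℝ)).snd)
  have hHm : Measurable H := (ENNReal.measurable_ofReal.comp hTm).indicator Metric.isOpen_ball.measurableSet
  have hHq : ∫⁻ w, H w ^ q = ∫⁻ w in Metric.ball z0 (2 * R), ENNReal.ofReal (T0 P w) ^ q := by
    rw [← lintegral_indicator Metric.isOpen_ball.measurableSet]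
    refine lintegral_congr fun w => ?_
    rw [hH]
    by_cases hw : w ∈ Metric.ball z0 (2 * R)
    · rw [Set.indicator_of_mem hw, Set.indicator_of_mem hw]
    · rw [Set.indicator_of_notMem hw, Set.indicator_of_notMem hw, ENNReal.zero_rpow_of_pos hq0]
  set c : ENNReal := ENNReal.ofReal M with hc
  set V : ENNReal := volume (Metric.closedBall z0 R) with hV
  have hVfin : V < ⊤ := (isCompact_closedBall z0 R).measure_lt_top
  set Kt : ENNReal := 2 ^ (q - 1) * (c ^ q * V + ∫⁻ w, H w ^ q) with hKt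
  have hKfin : Kt < ⊤ := by
    rw [hKt]
    apply ENNReal.mul_lt_top
    · exact ENNReal.rpow_lt_top_of_nonneg (by linarith) (by simp)
    · apply ENNReal.add_lt_top.2
      refine ⟨ENNReal.mul_lt_top (ENNReal.rpow_lt_top_of_nonneg hq0.le ENNReal.ofReal_ne_top) hVfin, ?_⟩
      rw [hHq]
      exact hfin
  refine ⟨Kt.toReal + 1, by positivity, ?_⟩
  intro t ht ht1
  have hkm : Measurable fun v => ENNReal.ofReal (kr t v) :=
    ENNReal.measurable_ofReal.comp (kr_cont t).measurable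
  have hY := young hkm hHm (kr_lint ht) hq
  have hKle : Kt ≤ ENNReal.ofReal (Kt.toReal + 1) := by
    calc Kt = ENNReal.ofReal Kt.toReal := (ENNReal.ofReal_toReal hKfin.ne).symm
      _ ≤ _ := ENNReal.ofReal_le_ofReal (by linarith)
  refine le_trans ?_ hKle
  calc (∫⁻ z in Metric.closedBall z0 R, ENNReal.ofReal (HT g t z.1 z.2) ^ q)
      ≤ ∫⁻ z in Metric.closedBall z0 R, 2 ^ (q - 1) * (c ^ q +
          (∫⁻ z', ENNReal.ofReal (kr t (z' - z)) * H z') ^ q) := by
        refine setLIntegral_mono' Metric.isClosed_closedBall.measurableSet fun z hz => ?_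
        refine (ENNReal.rpow_le_rpow (hM t ht ht1 z hz) hq0.le).trans ?_
        exact ENNReal.rpow_add_le_mul_rpow_add_rpow _ _ hq
    _ = 2 ^ (q - 1) * (c ^ q * V + ∫⁻ z in Metric.closedBall z0 R,
          (∫⁻ z', ENNReal.ofReal (kr t (z' - z)) * H z') ^ q) := by
        rw [lintegral_const_mul' _ _ (ENNReal.rpow_lt_top_of_nonneg (by linarith) (by simp)).ne,
          lintegral_add_left measurable_const, setLIntegral_const]
    _ ≤ Kt := by
        rw [hKt]
        exact mul_le_mul' le_rfl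
          (add_le_add le_rfl ((setLIntegral_le_lintegral _ _).trans hY))

end Pool.Agent.W775.WH.IQQ
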