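import Pool.Agent.W775.WH.Stm

/-! Project WH: convergence of the determinants in `L^1` (helper863). -/

set_option autoImplicit false

open MeasureTheory Set Filter Topology

namespace Pool.Agent.W775.WH.L1D

/-! ### partial derivatives of functions on the plane -/

theorem px_eq (v : ℝ × ℝ → ℝ) (z : ℝ × ℝ) (hv : DifferentiableAt ℝ v z) :
    px v z = fderiv ℝ v z (1, 0) := by
  unfold px
  have h1 : HasDerivAt (fun x : ℝ => (x, z.2)) ((1 : ℝ), (0 : ℝ)) z.1 :=
    (hasDerivAt_id z.1).prodMk (hasDerivAt_const z.1 z.2)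
  have h2 : HasFDerivAt v (fderiv ℝ v z) ((fun x : ℝ => (x, z.2)) z.1) := hv.hasFDerivAt
  exact (h2.comp_hasDerivAt z.1 h1).deriv

theorem py_eq (v : ℝ × ℝ → ℝ) (z : ℝ × ℝ) (hv : DifferentiableAt ℝ v z) :
    py v z = fderiv ℝ v z (0, 1) := by
  unfold py
  have h1 : HasDerivAt (fun y : ℝ => (z.1, y)) ((0 : ℝ), (1 : ℝ)) z.2 :=
    (hasDerivAt_const z.2 z.1).prodMk (hasDerivAt_id z.2)
  have h2 : HasFDerivAt v (fderiv ℝ v z) ((fun y : ℝ => (z.1, y)) z.2) := hv.hasFDerivAt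
  exact (h2.comp_hasDerivAt z.2 h1).deriv

theorem fd_eq (v : ℝ × ℝ → ℝ) (z : ℝ × ℝ) (hv : DifferentiableAt ℝ v z) :
    HasFDerivAt v (px v z • ContinuousLinearMap.fst ℝ ℝ ℝ +
      py v z • ContinuousLinearMap.snd ℝ ℝ ℝ) z := by
  have h : fderiv ℝ v z = px v z • ContinuousLinearMap.fst ℝ ℝ ℝ +
      py v z • ContinuousLinearMap.snd ℝ ℝ ℝ := by
    rw [px_eq v z hv, py_eq v z hv]
    ext <;> simp
  rw [← h]
  exact hv.hasFDerivAt

theorem px_fun (u : ℝ × ℝ → ℝ) (hu : ContDiff ℝ 1 u) :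
    px u = fun z => fderiv ℝ u z (1, 0) := by
  funext z
  exact px_eq u z (hu.differentiable (by norm_num) z)

theorem py_fun (u : ℝ × ℝ → ℝ) (hu : ContDiff ℝ 1 u) :
    py u = fun z => fderiv ℝ u z (0, 1) := by
  funext z
  exact py_eq u z (hu.differentiable (by norm_num) z)

theorem px_cd (u : ℝ × ℝ → ℝ) (n : ℕ) (hu : ContDiff ℝ ((n + 1 : ℕ) : WithTop ℕ∞) u) :
    ContDiff ℝ (n : WithTop ℕ∞) (px u) := by
  rw [px_fun u (hu.of_le (by exact_mod_cast Nat.le_add_left 1 n))]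
  have h : ContDiff ℝ (n : WithTop ℕ∞) (fderiv ℝ u) := hu.fderiv_right (by push_cast; exact le_rfl)
  exact h.clm_apply contDiff_const

theorem py_cd (u : ℝ × ℝ → ℝ) (n : ℕ) (hu : ContDiff ℝ ((n + 1 : ℕ) : WithTop ℕ∞) u) :
    ContDiff ℝ (n : WithTop ℕ∞) (py u) := by
  rw [py_fun u (hu.of_le (by exact_mod_cast Nat.le_add_left 1 n))]
  have h : ContDiff ℝ (n : WithTop ℕ∞) (fderiv ℝ u) := hu.fderiv_right (by push_cast; exact le_rfl)
  exact h.clm_apply contDiff_const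

theorem sym (u : ℝ × ℝ → ℝ) (hu : ContDiff ℝ 2 u) (z : ℝ × ℝ) :
    py (px u) z = px (py u) z := by
  have h1 : ContDiff ℝ 1 u := hu.of_le (by norm_num)
  have hf : ContDiff ℝ 1 (fderiv ℝ u) := hu.fderiv_right (by norm_num)
  have hd : DifferentiableAt ℝ (fderiv ℝ u) z := hf.differentiable (by norm_num) z
  have e1 : HasFDerivAt (px u) ((ContinuousLinearMap.apply ℝ ℝ ((1, 0) : ℝ × ℝ)).comp
      (fderiv ℝ (fderiv ℝ u) z)) z := by
    rw [px_fun u h1]
    exact (ContinuousLinearMap.apply ℝ ℝ ((1, 0) : ℝ × ℝ)).hasFDerivAt.comp z hd.hasFDerivAt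
  have e2 : HasFDerivAt (py u) ((ContinuousLinearMap.apply ℝ ℝ ((0, 1) : ℝ × ℝ)).comp
      (fderiv ℝ (fderiv ℝ u) z)) z := by
    rw [py_fun u h1]
    exact (ContinuousLinearMap.apply ℝ ℝ ((0, 1) : ℝ × ℝ)).hasFDerivAt.comp z hd.hasFDerivAt
  rw [py_eq _ z e1.differentiableAt, px_eq _ z e2.differentiableAt, e1.fderiv, e2.fderiv]
  have hs : IsSymmSndFDerivAt ℝ u z := by
    refine ContDiffAt.isSymmSndFDerivAt (n := 2) hu.contDiffAt ?_
    simp
  exact hs.eq _ _

/-- the derivative of the gradient map -/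
noncomputable def Dm (a b c : ℝ) : ℝ × ℝ →L[ℝ] ℝ × ℝ :=
  (a • ContinuousLinearMap.fst ℝ ℝ ℝ + b • ContinuousLinearMap.snd ℝ ℝ ℝ).prod
    (b • ContinuousLinearMap.fst ℝ ℝ ℝ + c • ContinuousLinearMap.snd ℝ ℝ ℝ)

theorem Dm_det (a b c : ℝ) : (Dm a b c).det = a * c - b * b := by
  unfold ContinuousLinearMap.det
  rw [← LinearMap.det_toMatrix (Module.Basis.finTwoProd ℝ), Matrix.det_fin_two]
  simp [LinearMap.toMatrix_apply, Dm]

theorem grad_fd (u : ℝ × ℝ → ℝ) (hu : ContDiff ℝ 2 u) (z : ℝ × ℝ) :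
    HasFDerivAt (fun z => (px u z, py u z)) (Dm (px (px u) z) (px (py u) z) (py (py u) z)) z := by
  have h1 : ContDiff ℝ 1 (px u) := px_cd u 1 (by exact_mod_cast hu)
  have h2 : ContDiff ℝ 1 (py u) := py_cd u 1 (by exact_mod_cast hu)
  have e1 := fd_eq (px u) z (h1.differentiable (by norm_num) z)
  have e2 := fd_eq (py u) z (h2.differentiable (by norm_num) z)
  rw [sym u hu z] at e1
  exact e1.prodMk e2

/-- injectivity of the gradient on convex sets where the Hessian is positive definite -/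
theorem grad_inj (u : ℝ × ℝ → ℝ) (hu : ContDiff ℝ 2 u) (Q : Set (ℝ × ℝ)) (hQ : Convex ℝ Q)
    (hp : ∀ z ∈ Q, ∀ a b : ℝ, (a ≠ 0 ∨ b ≠ 0) →
      0 < px (px u) z * a ^ 2 + 2 * px (py u) z * (a * b) + py (py u) z * b ^ 2) :
    InjOn (fun z => (px u z, py u z)) Q := by
  intro z hz w hw hzw
  by_contra hne
  set d : ℝ × ℝ := z - w with hd
  have hd0 : d.1 ≠ 0 ∨ d.2 ≠ 0 := by
    by_contra h
    push Not at h
    apply hne
    have : d = 0 := Prod.ext h.1 h.2
    exact sub_eq_zero.mp this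
  set γ : ℝ → ℝ × ℝ := fun s => w + s • d with hγ
  have hγd : ∀ s, HasDerivAt γ d s := by
    intro s
    have : HasDerivAt (fun s : ℝ => s • d) ((1 : ℝ) • d) s := (hasDerivAt_id s).smul_const d
    rw [one_smul] at this
    exact this.const_add w
  set ψ : ℝ → ℝ := fun s => px u (γ s) * d.1 + py u (γ s) * d.2 with hψ
  have hψd : ∀ s, HasDerivAt ψ (px (px u) (γ s) * d.1 ^ 2 + 2 * px (py u) (γ s) * (d.1 * d.2) +
      py (py u) (γ s) * d.2 ^ 2) s := by
    intro s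
    have h1 := (grad_fd u hu (γ s)).comp_hasDerivAt s (hγd s)
    have h2 : HasDerivAt (fun s => px u (γ s)) ((Dm (px (px u) (γ s)) (px (py u) (γ s))
        (py (py u) (γ s)) d).1) s := h1.fst
    have h3 : HasDerivAt (fun s => py u (γ s)) ((Dm (px (px u) (γ s)) (px (py u) (γ s))
        (py (py u) (γ s)) d).2) s := h1.snd
    have h4 := (h2.mul_const d.1).add (h3.mul_const d.2)
    refine h4.congr_deriv ?_
    simp [Dm]
    ring
  obtain ⟨s, hs, hs2⟩ := exists_hasDerivAt_eq_slope ψ _ (zero_lt_one)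
    (fun s _ => (hψd s).continuousAt.continuousWithinAt) (fun s _ => hψd s)
  have hγs : γ s ∈ Q := by
    have := hQ hw hz (by linarith [hs.2] : (0 : ℝ) ≤ 1 - s) hs.1.le (by ring)
    have e : γ s = (1 - s) • w + s • z := by
      rw [hγ, hd]
      simp only
      module
    rw [e]
    exact this
  have hpos := hp (γ s) hγs d.1 d.2 hd0
  have h0 : ψ 1 - ψ 0 = 0 := by
    have e1 : γ 1 = z := by rw [hγ, hd]; simp
    have e0 : γ 0 = w := by rw [hγ]; simp
    simp only [hψ, e1, e0]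
    have h5 := congrArg Prod.fst hzw
    have h6 := congrArg Prod.snd hzw
    simp only at h5 h6
    rw [h5, h6]
    ring
  rw [h0] at hs2
  simp at hs2
  linarith

theorem posdef (a b c : ℝ) (h : ∀ x y : ℝ, 0 ≤ a * x ^ 2 + 2 * b * (x * y) + c * y ^ 2)
    (hd : 0 < a * c - b * b) (x y : ℝ) (hxy : x ≠ 0 ∨ y ≠ 0) :
    0 < a * x ^ 2 + 2 * b * (x * y) + c * y ^ 2 := by
  have ha0 : 0 ≤ a := by simpa using h 1 0
  have ha : 0 < a := by
    rcases ha0.lt_or_eq with h' | h'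
    · exact h'
    · rw [← h'] at hd
      nlinarith [mul_self_nonneg b]
  have key : a * (a * x ^ 2 + 2 * b * (x * y) + c * y ^ 2)
      = (a * x + b * y) ^ 2 + (a * c - b * b) * y ^ 2 := by ring
  have hpos : 0 < (a * x + b * y) ^ 2 + (a * c - b * b) * y ^ 2 := by
    by_cases hy : y = 0
    · have hx : x ≠ 0 := by
        rcases hxy with h' | h'
        · exact h'
        · exact absurd hy h'
      subst hy
      have : 0 < (a * x) ^ 2 := by positivity
      nlinarith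
    · have : 0 < (a * c - b * b) * y ^ 2 := by positivity
      nlinarith [sq_nonneg (a * x + b * y)]
  rw [← key] at hpos
  exact (mul_pos_iff_of_pos_left ha).mp hpos

theorem slice (g : ℝ × ℝ → ℝ) (h : Sm 6 (HU g)) (t : ℝ) (ht : 0 < t) :
    ContDiff ℝ 6 (fun z : ℝ × ℝ => HU g t z.1 z.2) := by
  have hm : ContDiff ℝ 6 (fun z : ℝ × ℝ => ((t, z.1, z.2) : ℝ × ℝ × ℝ)) :=
    contDiff_const.prodMk (contDiff_fst.prodMk contDiff_snd)
  have h' : ContDiffOn ℝ 6 (fun z : ℝ × ℝ => HU g t z.1 z.2) univ := by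
    have := ContDiffOn.comp (s := univ) (t := {q : ℝ × ℝ × ℝ | 0 < q.1}) h hm.contDiffOn
      (fun z _ => by simpa using ht)
    exact this
  exact contDiffOn_univ.mp h'

/-- the function `z ↦ det D²U(t, z)` and its data for fixed `t > 0` -/
theorem data (h0 : S_HEAT) (g : ℝ × ℝ → ℝ) (C : ℝ)
    (hg : ∀ z w : ℝ × ℝ, |g z - g w| ≤ C * ‖z - w‖) (t : ℝ) (ht : 0 < t) :
    ContDiff ℝ 6 (fun z : ℝ × ℝ => HU g t z.1 z.2) ∧
    (∀ z : ℝ × ℝ, px (fun z : ℝ × ℝ => HU g t z.1 z.2) z = HX g t z.1 z.2) ∧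
    (∀ z : ℝ × ℝ, py (fun z : ℝ × ℝ => HU g t z.1 z.2) z = HY g t z.1 z.2) ∧
    (∀ z : ℝ × ℝ, px (px (fun z : ℝ × ℝ => HU g t z.1 z.2)) z
      = (HT g t z.1 z.2 + HA g t z.1 z.2) / 2) ∧
    (∀ z : ℝ × ℝ, px (py (fun z : ℝ × ℝ => HU g t z.1 z.2)) z = HB g t z.1 z.2 / 2) ∧
    (∀ z : ℝ × ℝ, py (py (fun z : ℝ × ℝ => HU g t z.1 z.2)) z
      = (HT g t z.1 z.2 - HA g t z.1 z.2) / 2) := by
  obtain ⟨h1, h2⟩ := h0 g C hg
  refine ⟨slice g h1 t ht, ?_, ?_, ?_, ?_, ?_⟩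
  · intro z; exact (h2 t z.1 z.2 ht).1
  · intro z; exact (h2 t z.1 z.2 ht).2.1
  · intro z; exact (h2 t z.1 z.2 ht).2.2.1
  · intro z; exact (h2 t z.1 z.2 ht).2.2.2.2.1
  · intro z; exact (h2 t z.1 z.2 ht).2.2.2.1

theorem HD_eq (h0 : S_HEAT) (g : ℝ × ℝ → ℝ) (C : ℝ)
    (hg : ∀ z w : ℝ × ℝ, |g z - g w| ≤ C * ‖z - w‖) (t : ℝ) (ht : 0 < t) (z : ℝ × ℝ) :
    HD g t z.1 z.2 = px (px (fun z : ℝ × ℝ => HU g t z.1 z.2)) z *
      py (py (fun z : ℝ × ℝ => HU g t z.1 z.2)) z -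
      px (py (fun z : ℝ × ℝ => HU g t z.1 z.2)) z *
      px (py (fun z : ℝ × ℝ => HU g t z.1 z.2)) z := by
  obtain ⟨_, _, _, e1, e2, e3⟩ := data h0 g C hg t ht
  rw [e1, e2, e3]
  unfold HD
  ring

theorem HD_cont (h0 : S_HEAT) (g : ℝ × ℝ → ℝ) (C : ℝ)
    (hg : ∀ z w : ℝ × ℝ, |g z - g w| ≤ C * ‖z - w‖) (t : ℝ) (ht : 0 < t) :
    Continuous (fun z : ℝ × ℝ => HD g t z.1 z.2) := by
  have h : (fun z : ℝ × ℝ => HD g t z.1 z.2) = fun z => px (px (fun z : ℝ × ℝ => HU g t z.1 z.2)) z *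
      py (py (fun z : ℝ × ℝ => HU g t z.1 z.2)) z -
      px (py (fun z : ℝ × ℝ => HU g t z.1 z.2)) z *
      px (py (fun z : ℝ × ℝ => HU g t z.1 z.2)) z := funext fun z => HD_eq h0 g C hg t ht z
  rw [h]
  have hu := (data h0 g C hg t ht).1
  have a1 : ContDiff ℝ ((1 : ℕ) : WithTop ℕ∞) (px (fun z : ℝ × ℝ => HU g t z.1 z.2)) :=
    px_cd _ 1 (hu.of_le (by norm_num))
  have a2 : ContDiff ℝ ((1 : ℕ) : WithTop ℕ∞) (py (fun z : ℝ × ℝ => HU g t z.1 z.2)) :=
    py_cd _ 1 (hu.of_le (by norm_num))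
  have b1 := (px_cd _ 0 a1).continuous
  have b2 := (py_cd _ 0 a2).continuous
  have b3 := (px_cd _ 0 a2).continuous
  exact (b1.mul b2).sub (b3.mul b3)

/-- area formula for the gradient of the extension -/
theorem area_t (h0 : S_HEAT) (h4 : S_PSD) (g : ℝ × ℝ → ℝ) (C : ℝ)
    (hg : ∀ z w : ℝ × ℝ, |g z - g w| ≤ C * ‖z - w‖) (hcv : ConvexOn ℝ univ g)
    (t : ℝ) (ht : 0 < t) (Q : Set (ℝ × ℝ)) (hQ : Convex ℝ Q) (hQm : MeasurableSet Q)
    (hpos : ∀ z ∈ Q, 0 < HD g t z.1 z.2) :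
    ∫⁻ z in Q, ENNReal.ofReal (HD g t z.1 z.2) =
      volume ((fun z : ℝ × ℝ => (HX g t z.1 z.2, HY g t z.1 z.2)) '' Q) := by
  obtain ⟨hu, eX, eY, e1, e2, e3⟩ := data h0 g C hg t ht
  have hu2 : ContDiff ℝ 2 (fun z : ℝ × ℝ => HU g t z.1 z.2) := hu.of_le (by norm_num)
  set u : ℝ × ℝ → ℝ := fun z : ℝ × ℝ => HU g t z.1 z.2 with hudef
  have hG : (fun z : ℝ × ℝ => (HX g t z.1 z.2, HY g t z.1 z.2)) = fun z => (px u z, py u z) := by
    funext z
    rw [eX, eY]
  have hHD := fun z => HD_eq h0 g C hg t ht z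
  have hinj : InjOn (fun z => (px u z, py u z)) Q := by
    refine grad_inj u hu2 Q hQ ?_
    intro z hz a b hab
    refine posdef _ _ _ ?_ ?_ a b hab
    · intro x y
      have h := (h4 g C hg hcv t z.1 z.2 ht).2.2 x y
      rw [e1, e2, e3]
      have e : 2 * (HB g t z.1 z.2 / 2) * (x * y) = HB g t z.1 z.2 * (x * y) := by ring
      rw [e]
      exact h
    · rw [← hHD z]
      exact hpos z hz
  have harea := lintegral_abs_det_fderiv_eq_addHaar_image (volume : Measure (ℝ × ℝ)) hQm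
    (f := fun z => (px u z, py u z))
    (f' := fun z => Dm (px (px u) z) (px (py u) z) (py (py u) z))
    (fun z _ => (grad_fd u hu2 z).hasFDerivWithinAt) hinj
  rw [hG, ← harea]
  refine lintegral_congr_ae ?_
  refine (ae_restrict_iff' hQm).mpr (ae_of_all _ fun z hz => ?_)
  simp only
  rw [Dm_det, ← hHD z, abs_of_pos (hpos z hz)]

theorem meas_D0 (P : ℝ × ℝ → ℝ × ℝ) : Measurable (D0 P) := by
  have h := measurable_fderiv ℝ P
  have h1 : Measurable fun z => fderiv ℝ P z (1, 0) := (ContinuousLinearMap.measurable_apply _).comp h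
  have h2 : Measurable fun z => fderiv ℝ P z (0, 1) := (ContinuousLinearMap.measurable_apply _).comp h
  have a11 : Measurable (h11 P) := measurable_fst.comp h1
  have a12 : Measurable (h12 P) := measurable_fst.comp h2
  have a22 : Measurable (h22 P) := measurable_snd.comp h2
  exact (a11.mul a22).sub (a12.pow_const 2)

theorem t_L1D (h0 : S_HEAT) (h1 : S_SUP) (h2 : S_PTL) (h3 : S_DET) (h4 : S_PSD) : S_L1D := by
  intro l b C R z0 g P hL
  obtain ⟨c, K3, hc, hK3, hdet⟩ := h3 l b C R z0 g P hL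
  obtain ⟨K1, hK1, hsup⟩ := h1 l b C R z0 g P hL
  have hl := hL.l0
  have hR := hL.R0
  have hb := hL.b0
  set Q : Set (ℝ × ℝ) := Metric.closedBall z0 (2 * R) with hQdef
  have hQ3 : Q ⊆ Metric.ball z0 (3 * R) := Metric.closedBall_subset_ball (by linarith)
  have hQm : MeasurableSet Q := Metric.isClosed_closedBall.measurableSet
  have hQc : IsCompact Q := isCompact_closedBall _ _
  have hQcx : Convex ℝ Q := convex_closedBall _ _
  have hQfin : volume Q < ⊤ := hQc.measure_lt_top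
  -- good points
  have hgood : ∀ᵐ z ∂(volume.restrict Q), Good l P z := ae_restrict_of_ae_restrict_of_subset hQ3 hL.good
  -- the integral of `D0`
  set I : ENNReal := ∫⁻ z in Q, ENNReal.ofReal (D0 P z) with hI
  have hIle : I ≤ ENNReal.ofReal l⁻¹ * volume Q := by
    rw [hI, ← setLIntegral_const]
    refine lintegral_mono_ae ?_
    filter_upwards [hgood] with z hz
    exact ENNReal.ofReal_le_ofReal hz.2.2.2.2.2
  have hIfin : I ≠ ⊤ := (hIle.trans_lt (ENNReal.mul_lt_top ENNReal.ofReal_lt_top hQfin)).ne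
  have hIarea : volume (P '' Q) = I := hL.area Q hQm hQ3
  -- `P` is continuous on `Q`
  have hPc : ContinuousOn P Q := by
    have hh : HolderOnWith (Real.toNNReal C) (Real.toNNReal b) P Q := by
      intro z hz w hw
      have h := hL.holP z (hQ3 hz) w (hQ3 hw)
      rw [edist_dist, edist_dist, dist_eq_norm, dist_eq_norm]
      have hC := hL.C0
      have e : ENNReal.ofReal (C * ‖z - w‖ ^ b) =
          (Real.toNNReal C : ENNReal) * ENNReal.ofReal ‖z - w‖ ^ ((Real.toNNReal b : NNReal) : ℝ) := by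
        rw [Real.coe_toNNReal b hb.le, ENNReal.ofReal_mul hC.le,
          ENNReal.ofReal_rpow_of_nonneg (norm_nonneg _) hb.le]
        rfl
      rw [← e]
      exact ENNReal.ofReal_le_ofReal h
    exact hh.continuousOn (by simpa using hb)
  have hPQ : IsCompact (P '' Q) := hQc.image_of_continuousOn hPc
  -- volume of thickenings
  have hthick := tendsto_measure_cthickening_of_isCompact (μ := (volume : Measure (ℝ × ℝ))) hPQ
  rw [hIarea] at hthick
  -- small times: positivity of the determinant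
  have hexp : Tendsto (fun t : ℝ => K3 * Real.exp (-c / t)) (𝓝[>] 0) (𝓝 0) := by
    have h5 : Tendsto (fun t : ℝ => -c / t) (𝓝[>] 0) atBot := by
      have : Tendsto (fun t : ℝ => (-c) * t⁻¹) (𝓝[>] 0) atBot :=
        (tendsto_inv_nhdsGT_zero).const_mul_atTop_of_neg (by linarith)
      simpa [div_eq_mul_inv] using this
    have h6 := (Real.tendsto_exp_atBot.comp h5).const_mul K3
    simpa using h6
  have hev1 : ∀ᶠ t : ℝ in 𝓝[>] 0, 0 < t ∧ t ≤ 1 := by
    have : Ioc (0 : ℝ) 1 ∈ 𝓝[>] (0 : ℝ) := Ioc_mem_nhdsGT zero_lt_one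
    exact this
  have hev2 : ∀ᶠ t : ℝ in 𝓝[>] 0, ∀ z ∈ Q, 0 < HD g t z.1 z.2 := by
    filter_upwards [hev1, hexp.eventually (eventually_lt_nhds hl)] with t ht1 ht2 z hz
    have := hdet t ht1.1 ht1.2 z hz
    linarith
  -- uniform convergence of the gradients
  have hgr : Tendsto (fun t : ℝ => K1 * t ^ (b / 2)) (𝓝[>] 0) (𝓝 0) := by
    have h5 : Tendsto (fun t : ℝ => t ^ (b / 2)) (𝓝 0) (𝓝 ((0 : ℝ) ^ (b / 2))) :=
      (Real.continuousAt_rpow_const 0 (b / 2) (Or.inr (by positivity)))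
    rw [Real.zero_rpow (by positivity)] at h5
    have h6 := (h5.mono_left (nhdsWithin_le_nhds (s := Ioi (0 : ℝ)))).const_mul K1
    simpa using h6
  -- the limsup of the integrals of `HD`
  have hupper : ∀ ε : ENNReal, 0 < ε → ∀ᶠ t : ℝ in 𝓝[>] 0,
      ∫⁻ z in Q, ENNReal.ofReal (HD g t z.1 z.2) ≤ I + ε := by
    intro ε hε
    have h5 : ∀ᶠ t : ℝ in 𝓝[>] 0,
        volume (Metric.cthickening (K1 * t ^ (b / 2)) (P '' Q)) ≤ I + ε := by
      have h6 : Tendsto (fun t : ℝ => volume (Metric.cthickening (K1 * t ^ (b / 2)) (P '' Q)))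
          (𝓝[>] 0) (𝓝 I) := hthick.comp hgr
      have h7 : I < I + ε := ENNReal.lt_add_right hIfin hε.ne'
      filter_upwards [h6.eventually (eventually_lt_nhds h7)] with t ht
      exact ht.le
    filter_upwards [h5, hev1, hev2] with t ht5 ht1 ht2
    rw [area_t h0 h4 g C hL.lip hL.cv t ht1.1 Q hQcx hQm ht2]
    refine (measure_mono ?_).trans ht5
    rintro _ ⟨z, hz, rfl⟩
    have h6 := hsup t ht1.1 ht1.2 z hz
    refine Metric.mem_cthickening_of_dist_le _ (P z) _ _ (mem_image_of_mem P hz) ?_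
    rw [Prod.dist_eq]
    exact max_le (by rw [Real.dist_eq]; exact h6.2.1) (by rw [Real.dist_eq]; exact h6.2.2.1)
  -- dominated convergence for the negative part
  have hneg : Tendsto (fun t : ℝ => ∫⁻ z in Q, ENNReal.ofReal (D0 P z - HD g t z.1 z.2))
      (𝓝[>] 0) (𝓝 0) := by
    have h5 : Tendsto (fun t : ℝ => ∫⁻ z in Q, ENNReal.ofReal (D0 P z - HD g t z.1 z.2))
        (𝓝[>] 0) (𝓝 (∫⁻ _ in Q, (0 : ENNReal))) := by
      refine tendsto_lintegral_filter_of_dominated_convergence (fun _ => ENNReal.ofReal l⁻¹) ?_ ?_ ?_ ?_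
      · filter_upwards [hev1] with t ht
        exact ((meas_D0 P).sub (HD_cont h0 g C hL.lip t ht.1).measurable).ennreal_ofReal
      · filter_upwards [hev1] with t ht
        filter_upwards [hgood] with z hz
        refine ENNReal.ofReal_le_ofReal ?_
        have := (h4 g C hL.lip hL.cv t z.1 z.2 ht.1).2.1
        have := hz.2.2.2.2.2
        linarith
      · rw [setLIntegral_const]
        exact (ENNReal.mul_lt_top ENNReal.ofReal_lt_top hQfin).ne
      · filter_upwards [hgood, ae_restrict_mem hQm] with z hz hzQ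
        have h6 := (h2 l b C R z0 g P hL z (hQ3 hzQ) hz).2
        have h7 : Tendsto (fun t : ℝ => D0 P z - HD g t z.1 z.2) (𝓝[>] 0) (𝓝 (D0 P z - D0 P z)) :=
          tendsto_const_nhds.sub h6
        rw [sub_self] at h7
        have h8 := ENNReal.tendsto_ofReal h7
        simpa using h8
    simpa using h5
  -- Scheffe
  have hkey : ∀ᶠ t : ℝ in 𝓝[>] 0,
      (∫⁻ z in Q, ENNReal.ofReal |HD g t z.1 z.2 - D0 P z|) + I =
        (∫⁻ z in Q, ENNReal.ofReal (HD g t z.1 z.2)) +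
          2 * ∫⁻ z in Q, ENNReal.ofReal (D0 P z - HD g t z.1 z.2) := by
    filter_upwards [hev1] with t ht
    have m1 := (HD_cont h0 g C hL.lip t ht.1).measurable
    have m2 := meas_D0 P
    have m3 : Measurable fun z : ℝ × ℝ => ENNReal.ofReal (D0 P z - HD g t z.1 z.2) :=
      (m2.sub m1).ennreal_ofReal
    rw [hI, ← lintegral_add_right _ m2.ennreal_ofReal, ← lintegral_const_mul _ m3,
      ← lintegral_add_left m1.ennreal_ofReal]
    refine lintegral_congr_ae ?_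
    filter_upwards [hgood] with z hz
    have hx := (h4 g C hL.lip hL.cv t z.1 z.2 ht.1).2.1
    have hy : 0 ≤ D0 P z := hl.le.trans hz.2.2.2.2.1
    set x := HD g t z.1 z.2 with hxdef
    set y := D0 P z with hydef
    rcases le_total y x with hxy | hxy
    · rw [abs_of_nonneg (by linarith), ENNReal.ofReal_of_nonpos (by linarith : y - x ≤ 0), mul_zero,
        add_zero, ← ENNReal.ofReal_add (by linarith) hy]
      congr 1
      ring
    · rw [abs_of_nonpos (by linarith), ← ENNReal.ofReal_add (by linarith) hy]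
      have h9 : (2 : ENNReal) * ENNReal.ofReal (y - x) = ENNReal.ofReal (2 * (y - x)) := by
        rw [ENNReal.ofReal_mul (by norm_num)]
        norm_num
      rw [h9, ← ENNReal.ofReal_add hx (by linarith)]
      congr 1
      ring
  rw [ENNReal.tendsto_nhds_zero]
  intro ε hε
  have hε3 : 0 < ε / 3 := ENNReal.div_pos hε.ne' (by norm_num)
  filter_upwards [hkey, hupper (ε / 3) hε3, (ENNReal.tendsto_nhds_zero.mp hneg) (ε / 3) hε3]
    with t ht1 ht2 ht3
  have h5 : (∫⁻ z in Q, ENNReal.ofReal |HD g t z.1 z.2 - D0 P z|) + I ≤ ε + I := by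
    rw [ht1]
    calc (∫⁻ z in Q, ENNReal.ofReal (HD g t z.1 z.2)) +
          2 * ∫⁻ z in Q, ENNReal.ofReal (D0 P z - HD g t z.1 z.2)
        ≤ (I + ε / 3) + 2 * (ε / 3) := add_le_add ht2 (mul_le_mul_right ht3 _)
      _ = (ε / 3 + ε / 3 + ε / 3) + I := by ring
      _ = ε + I := by rw [ENNReal.add_thirds]
  exact (ENNReal.add_le_add_iff_right hIfin).mp h5

end Pool.Agent.W775.WH.L1D
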