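import Pool.Agent.W775.WH.Stm

set_option autoImplicit false

open MeasureTheory Set Filter Topology

namespace Pool.Agent.W775.WH.LEG

/-- integral of a function against a tent -/
theorem tent (c k : ℝ) (hk : 0 < k) (G : ℝ → ℝ) (hc : ContinuousOn G (Icc (c - k) (c + k)))
    (h0 : ∀ s ∈ Icc (c - k) (c + k), 0 ≤ G s) (F : ℝ → ENNReal)
    (h1 : ∀ᵐ s : ℝ, |s - c| < k → F s = ENNReal.ofReal ((k - |s - c|) * G s))
    (h2 : ∀ s : ℝ, k ≤ |s - c| → F s = 0) :
    ∫⁻ s, F s = ENNReal.ofReal (∫ t in (-k)..k, (k - |t|) * G (c + t)) := by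
  have e1 : ∫⁻ s, F s = ∫⁻ s, (Ioc (c - k) (c + k)).indicator
      (fun s => ENNReal.ofReal ((k - |s - c|) * G s)) s := by
    apply lintegral_congr_ae
    filter_upwards [h1] with s hs
    by_cases h : |s - c| < k
    · rw [hs h, indicator_of_mem]
      rw [abs_lt] at h
      exact ⟨by linarith [h.1], by linarith [h.2]⟩
    · rw [not_lt] at h
      rw [h2 s h]
      by_cases h3 : s ∈ Ioc (c - k) (c + k)
      · rw [indicator_of_mem h3]
        have h4 : |s - c| ≤ k := by
          rw [abs_le]; exact ⟨by linarith [h3.1], by linarith [h3.2]⟩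
        have h5 : k - |s - c| = 0 := by linarith
        rw [h5]; simp
      · rw [indicator_of_notMem h3]
  have e2 : (∫ t in (-k)..k, (k - |t|) * G (c + t)) =
      ∫ s in Ioc (c - k) (c + k), (k - |s - c|) * G s := by
    have e3 : (∫ t in (-k)..k, (fun s => (k - |s - c|) * G s) (c + t)) =
        ∫ s in (c + -k)..(c + k), (fun s => (k - |s - c|) * G s) s :=
      intervalIntegral.integral_comp_add_left (fun s => (k - |s - c|) * G s) c
    have e4 : (∫ t in (-k)..k, (k - |t|) * G (c + t)) =
        (∫ t in (-k)..k, (fun s => (k - |s - c|) * G s) (c + t)) := by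
      apply intervalIntegral.integral_congr
      intro t _
      simp only [add_sub_cancel_left]
    rw [e4, e3, intervalIntegral.integral_of_le (by linarith)]
    congr 2
  rw [e1, lintegral_indicator measurableSet_Ioc, e2, ofReal_integral_eq_lintegral_ofReal]
  · apply IntegrableOn.mono_set _ Ioc_subset_Icc_self
    apply ContinuousOn.integrableOn_Icc
    apply ContinuousOn.mul _ hc
    exact (continuous_const.sub ((continuous_id.sub continuous_const).abs)).continuousOn
  · apply (ae_restrict_mem measurableSet_Ioc).mono
    intro s hs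
    have h4 : |s - c| ≤ k := by
      rw [abs_le]; exact ⟨by linarith [hs.1], by linarith [hs.2]⟩
    exact mul_nonneg (by linarith) (h0 s (Ioc_subset_Icc_self hs))

theorem t_LEG (h1 : S_SEL) (h2 : S_MEAS) (h3 : S_F1) (h4 : S_F2) (h5 : S_LNK1) (h6 : S_LNK2)
    (h7 : S_LEGB) (h8 : S_STR) : S_LEG := by
  intro l Ω u x0 y0 p0 δ ρ L hl hl1 hMA hW
  obtain ⟨hcvx, hccv, hlip⟩ := h7 Ω u x0 y0 p0 δ ρ L hMA.cv hW
  set v : ℝ → ℝ → ℝ := leg u x0 δ with hv
  obtain ⟨N, Q, hNm, hN0, hQm, hQ, hNV⟩ := h1 l Ω u hl hMA
  obtain ⟨hVm, X, hXm, hX, hφ⟩ := h2 l Ω u hl hMA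
  set V : Set (ℝ × ℝ) := ⋃ z ∈ Ω, Sub Ω u z with hV
  have hppm : Measurable pp := measurable_id.max measurable_const
  have hpp0 : ∀ x : ℝ, 0 ≤ pp x := fun x => le_max_right _ _
  -- continuity of v in each variable
  have hvy : ∀ p' : ℝ, |p' - p0| ≤ ρ → ContinuousOn (fun y => v p' y) (Icc (y0 - ρ) (y0 + ρ)) := by
    intro p' hp'
    apply (LipschitzOnWith.of_dist_le_mul (K := Real.toNNReal (δ + L)) _).continuousOn
    intro a ha b hb
    rw [Real.dist_eq, Real.dist_eq, Real.coe_toNNReal _ (by linarith [hW.δ0, hW.L0])]
    have := hlip p' a p' b hp' (by rw [abs_le]; exact ⟨by linarith [ha.1], by linarith [ha.2]⟩) hp'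
      (by rw [abs_le]; exact ⟨by linarith [hb.1], by linarith [hb.2]⟩)
    simpa using this
  have hvp : ∀ y' : ℝ, |y' - y0| ≤ ρ → ContinuousOn (fun p => v p y') (Icc (p0 - ρ) (p0 + ρ)) := by
    intro y' hy'
    apply (LipschitzOnWith.of_dist_le_mul (K := Real.toNNReal (δ + L)) _).continuousOn
    intro a ha b hb
    rw [Real.dist_eq, Real.dist_eq, Real.coe_toNNReal _ (by linarith [hW.δ0, hW.L0])]
    have := hlip a y' b y' (by rw [abs_le]; exact ⟨by linarith [ha.1], by linarith [ha.2]⟩) hy'
      (by rw [abs_le]; exact ⟨by linarith [hb.1], by linarith [hb.2]⟩) hy'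
    simpa using this
  -- nonnegativity of second differences
  have gA : ∀ p y h : ℝ, 0 < h → |p - p0| + h ≤ ρ → |y - y0| ≤ ρ →
      0 ≤ v (p + h) y + v (p - h) y - 2 * v p y := by
    intro p y h hh hph hy
    have hp1 := (abs_le.1 (by linarith : |p - p0| ≤ ρ - h))
    have := (hcvx y hy).2 (show p + h ∈ Icc (p0 - ρ) (p0 + ρ) from
      ⟨by linarith [hp1.1], by linarith [hp1.2]⟩) (show p - h ∈ Icc (p0 - ρ) (p0 + ρ) from
      ⟨by linarith [hp1.1], by linarith [hp1.2]⟩)
      (show (0 : ℝ) ≤ 1 / 2 by norm_num) (show (0 : ℝ) ≤ 1 / 2 by norm_num) (by norm_num)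
    have e : (1 / 2 : ℝ) • (p + h) + (1 / 2 : ℝ) • (p - h) = p := by
      simp only [smul_eq_mul]; ring
    rw [e] at this
    simp only [smul_eq_mul] at this
    linarith
  have gB : ∀ p y k : ℝ, 0 < k → |p - p0| ≤ ρ → |y - y0| + k ≤ ρ →
      0 ≤ 2 * v p y - v p (y + k) - v p (y - k) := by
    intro p y k hk hp hyk
    have hy1 := (abs_le.1 (by linarith : |y - y0| ≤ ρ - k))
    have := (hccv p hp).2 (show y + k ∈ Icc (y0 - ρ) (y0 + ρ) from
      ⟨by linarith [hy1.1], by linarith [hy1.2]⟩) (show y - k ∈ Icc (y0 - ρ) (y0 + ρ) from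
      ⟨by linarith [hy1.1], by linarith [hy1.2]⟩)
      (show (0 : ℝ) ≤ 1 / 2 by norm_num) (show (0 : ℝ) ≤ 1 / 2 by norm_num) (by norm_num)
    have e : (1 / 2 : ℝ) • (y + k) + (1 / 2 : ℝ) • (y - k) = y := by
      simp only [smul_eq_mul]; ring
    rw [e] at this
    simp only [smul_eq_mul] at this
    linarith
  have nearp : ∀ p h s : ℝ, |p - p0| + h ≤ ρ → |s - p| ≤ h → |s - p0| ≤ ρ := by
    intro p h s h1 h2
    have := abs_sub_le s p p0
    linarith
  have neary : ∀ y k s : ℝ, |y - y0| + k ≤ ρ → |s - y| ≤ k → |s - y0| ≤ ρ := by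
    intro p h s h1 h2
    have := abs_sub_le s p y0
    linarith
  -- the key identities
  have key : ∀ p y h k : ℝ, 0 < h → 0 < k → |p - p0| + h ≤ ρ → |y - y0| + k ≤ ρ →
      ENNReal.ofReal l * ENNReal.ofReal
        (∫ t in (-k)..k, (k - |t|) * (v (p + h) (y + t) + v (p - h) (y + t) - 2 * v p (y + t))) ≤
      ENNReal.ofReal
        (∫ t in (-h)..h, (h - |t|) * (2 * v (p + t) y - v (p + t) (y + k) - v (p + t) (y - k))) ∧
      ENNReal.ofReal
        (∫ t in (-h)..h, (h - |t|) * (2 * v (p + t) y - v (p + t) (y + k) - v (p + t) (y - k))) ≤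
      ENNReal.ofReal l⁻¹ * ENNReal.ofReal
        (∫ t in (-k)..k, (k - |t|) * (v (p + h) (y + t) + v (p - h) (y + t) - 2 * v p (y + t))) := by
    intro p y h k hh hk hph hyk
    set φ : ℝ × ℝ → ENNReal := ({z : ℝ × ℝ | |z.1 - x0| ≤ δ} : Set (ℝ × ℝ)).indicator
      (fun z => ENNReal.ofReal (pp (k - |z.2 - y|)) * ENNReal.ofReal (pp (h - |(Q z).1 - p|))) with hφd
    have hSm : MeasurableSet ({z : ℝ × ℝ | |z.1 - x0| ≤ δ} : Set (ℝ × ℝ)) := by
      apply measurableSet_le _ measurable_const
      exact ((measurable_fst.sub measurable_const).abs)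
    have hφm : Measurable φ := by
      apply Measurable.indicator _ hSm
      apply Measurable.fun_mul
      · apply ENNReal.measurable_ofReal.comp
        apply hppm.comp
        exact measurable_const.sub ((measurable_snd.sub measurable_const).abs)
      · apply ENNReal.measurable_ofReal.comp
        apply hppm.comp
        exact measurable_const.sub (((measurable_fst.comp hQm).sub measurable_const).abs)
    obtain ⟨k1, k2⟩ := hφ φ hφm
    have pp0 : ∀ x : ℝ, x ≤ 0 → ENNReal.ofReal (pp x) = 0 := by
      intro x hx
      rw [pp, max_eq_right hx]; simp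
    have hA : ∫⁻ z in Ω, φ z = ENNReal.ofReal
        (∫ t in (-k)..k, (k - |t|) * (v (p + h) (y + t) + v (p - h) (y + t) - 2 * v p (y + t))) := by
      have hsup : Ω.indicator φ = φ := by
        rw [indicator_eq_self]
        intro z hz
        rw [Function.mem_support] at hz
        by_cases hz1 : |z.1 - x0| ≤ δ
        · by_cases hz2 : |z.2 - y| < k
          · have := hW.box z.1 z.2 hz1 (neary y k z.2 hyk hz2.le)
            exact this
          · exfalso; apply hz
            rw [hφd, indicator_of_mem (show z ∈ {z : ℝ × ℝ | |z.1 - x0| ≤ δ} from hz1),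
              pp0 _ (by linarith), zero_mul]
        · exfalso; apply hz
          rw [hφd, indicator_of_notMem (show z ∉ {z : ℝ × ℝ | |z.1 - x0| ≤ δ} from hz1)]
      rw [← lintegral_indicator hMA.op.measurableSet, hsup, Measure.volume_eq_prod,
        lintegral_prod_symm' φ hφm]
      have hNae : ∀ᵐ y' : ℝ, ∀ᵐ x : ℝ, (x, y') ∉ N := by
        rw [← Measure.ae_ae_comm (p := fun (x y' : ℝ) => (x, y') ∉ N)]
        · refine Measure.ae_ae_of_ae_prod (p := fun z : ℝ × ℝ => z ∉ N) ?_
          rw [← Measure.volume_eq_prod, ← measure_eq_zero_iff_ae_notMem]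
          exact hN0
        · exact hNm.compl
      apply tent y k hk (fun s => v (p + h) s + v (p - h) s - 2 * v p s)
      · have hsub : Icc (y - k) (y + k) ⊆ Icc (y0 - ρ) (y0 + ρ) := by
          intro s hs
          have := abs_le.1 (neary y k s hyk (by
            rw [abs_le]; exact ⟨by linarith [hs.1], by linarith [hs.2]⟩))
          exact ⟨by linarith [this.1], by linarith [this.2]⟩
        apply ContinuousOn.sub
        · apply ContinuousOn.add
          · exact (hvy _ (nearp p h _ hph (by simp [abs_of_pos hh]))).mono hsub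
          · exact (hvy _ (nearp p h _ hph (by simp [abs_of_pos hh]))).mono hsub
        · apply continuousOn_const.mul
          exact (hvy _ (nearp p h _ hph (by simp [hh.le]))).mono hsub
      · intro s hs
        apply gA p s h hh hph
        apply neary y k s hyk
        rw [abs_le]; exact ⟨by linarith [hs.1], by linarith [hs.2]⟩
      · filter_upwards [hNae] with y' hy' hy'k
        have hy'0 : |y' - y0| ≤ ρ := neary y k y' hyk hy'k.le
        have e1 : ∫⁻ x : ℝ, φ (x, y') = ENNReal.ofReal (pp (k - |y' - y|)) *
            ∫⁻ x in Icc (x0 - δ) (x0 + δ), ENNReal.ofReal (pp (h - |(Q (x, y')).1 - p|)) := by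
          rw [← lintegral_const_mul, ← lintegral_indicator measurableSet_Icc]
          · apply lintegral_congr
            intro x
            by_cases hx : |x - x0| ≤ δ
            · rw [hφd, indicator_of_mem (show (x, y') ∈ {z : ℝ × ℝ | |z.1 - x0| ≤ δ} from hx),
                indicator_of_mem]
              rw [abs_le] at hx
              exact ⟨by linarith [hx.1], by linarith [hx.2]⟩
            · rw [hφd, indicator_of_notMem (show (x, y') ∉ {z : ℝ × ℝ | |z.1 - x0| ≤ δ} from hx),
                indicator_of_notMem]
              intro hx2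
              apply hx
              rw [abs_le]
              exact ⟨by linarith [hx2.1], by linarith [hx2.2]⟩
          · apply ENNReal.measurable_ofReal.comp
            apply hppm.comp
            exact measurable_const.sub (((measurable_fst.comp (hQm.comp
              (measurable_id.prodMk measurable_const))).sub measurable_const).abs)
        have hf1 := h3 (fun x => u (x, y')) (fun x => (Q (x, y')).1) x0 δ hW.δ0 ?_ ?_ ?_ p h hh
        · have hm : Measurable (fun x : ℝ => pp (h - |(Q (x, y')).1 - p|)) := by
            apply hppm.comp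
            exact measurable_const.sub (((measurable_fst.comp (hQm.comp
              (measurable_id.prodMk measurable_const))).sub measurable_const).abs)
          have e2 : ∫⁻ x in Icc (x0 - δ) (x0 + δ), ENNReal.ofReal (pp (h - |(Q (x, y')).1 - p|)) =
              ENNReal.ofReal (v (p + h) y' + v (p - h) y' - 2 * v p y') := by
            have e3 : v (p + h) y' + v (p - h) y' - 2 * v p y' =
                ∫ x in Icc (x0 - δ) (x0 + δ), pp (h - |(Q (x, y')).1 - p|) := by
              rw [integral_Icc_eq_integral_Ioc, ← intervalIntegral.integral_of_le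
                (by linarith [hW.δ0])]
              exact hf1
            rw [e3, ofReal_integral_eq_lintegral_ofReal]
            · apply Measure.integrableOn_of_bounded (M := h)
              · rw [Real.volume_Icc]; exact ENNReal.ofReal_ne_top
              · exact hm.aestronglyMeasurable
              · apply Eventually.of_forall
                intro x
                rw [Real.norm_eq_abs, abs_of_nonneg (hpp0 _)]
                exact max_le (by linarith [abs_nonneg ((Q (x, y')).1 - p)]) hh.le
            · exact Eventually.of_forall (fun x => hpp0 _)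
          rw [e1, e2, ← ENNReal.ofReal_mul (hpp0 _)]
          congr 2
          exact max_eq_left (by linarith)
        · -- continuity
          intro a ha
          have hcont : ContinuousOn (fun x => u (x, y')) (Icc (x0 - δ) (x0 + δ)) := by
            apply (LipschitzOnWith.of_dist_le_mul (K := Real.toNNReal L) _).continuousOn
            intro a ha b hb
            rw [Real.dist_eq, Real.dist_eq, Real.coe_toNNReal _ hW.L0.le]
            have := hW.lip a y' b y' (by rw [abs_le]; exact ⟨by linarith [ha.1], by linarith [ha.2]⟩)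
              hy'0 (by rw [abs_le]; exact ⟨by linarith [hb.1], by linarith [hb.2]⟩) hy'0
            simpa using this
          exact hcont a ha
        · -- subgradient
          rw [ae_restrict_iff' measurableSet_Icc]
          filter_upwards [hy'] with x hx hxI x' hx'
          have hz : (x, y') ∈ Ω := hW.box x y' (by
            rw [abs_le]; exact ⟨by linarith [hxI.1], by linarith [hxI.2]⟩) hy'0
          have hz' : (x', y') ∈ Ω := hW.box x' y' (by
            rw [abs_le]; exact ⟨by linarith [hx'.1], by linarith [hx'.2]⟩) hy'0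
          have hs := hQ (x, y') hz hx
          have hm : Q (x, y') ∈ Sub Ω u (x, y') := by rw [hs]; rfl
          have := hm (x', y') hz'
          simpa using this
        · -- convexity
          refine ⟨convex_Icc _ _, ?_⟩
          intro a ha b hb s t hs ht hst
          have hza : (a, y') ∈ Ω := hW.box a y' (by
            rw [abs_le]; exact ⟨by linarith [ha.1], by linarith [ha.2]⟩) hy'0
          have hzb : (b, y') ∈ Ω := hW.box b y' (by
            rw [abs_le]; exact ⟨by linarith [hb.1], by linarith [hb.2]⟩) hy'0
          have := hMA.cv.2 hza hzb hs ht hst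
          have e : s • (a, y') + t • (b, y') = (s • a + t • b, y') := by
            ext
            · simp
            · simp only [Prod.snd_add, Prod.smul_snd, smul_eq_mul]
              rw [← add_mul, hst, one_mul]
          rw [e] at this
          exact this
      · intro s hs
        have : ∀ x : ℝ, φ (x, s) = 0 := by
          intro x
          rw [hφd]
          by_cases hx : |x - x0| ≤ δ
          · rw [indicator_of_mem (show (x, s) ∈ {z : ℝ × ℝ | |z.1 - x0| ≤ δ} from hx),
              pp0 _ (by simpa using hs), zero_mul]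
          · rw [indicator_of_notMem (show (x, s) ∉ {z : ℝ × ℝ | |z.1 - x0| ≤ δ} from hx)]
        simp [this]
    have hB : ∫⁻ P in V, φ (X P) = ENNReal.ofReal
        (∫ t in (-h)..h, (h - |t|) * (2 * v (p + t) y - v (p + t) (y + k) - v (p + t) (y - k))) := by
      set E : Set (ℝ × ℝ) := V ∩ {P : ℝ × ℝ | |(X P).1 - x0| ≤ δ ∧ |(X P).2 - y0| ≤ ρ} with hE
      have hEm : MeasurableSet E := by
        apply hVm.inter
        apply MeasurableSet.inter
        · exact measurableSet_le (((measurable_fst.comp hXm).sub measurable_const).abs)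
            measurable_const
        · exact measurableSet_le (((measurable_snd.comp hXm).sub measurable_const).abs)
            measurable_const
      set ψ : ℝ × ℝ → ENNReal := E.indicator (fun P => ENNReal.ofReal (pp (h - |P.1 - p|)) *
        ENNReal.ofReal (pp (k - |(X P).2 - y|))) with hψ
      have hψm : Measurable ψ := by
        apply Measurable.indicator _ hEm
        apply Measurable.fun_mul
        · apply ENNReal.measurable_ofReal.comp
          apply hppm.comp
          exact measurable_const.sub ((measurable_fst.sub measurable_const).abs)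
        · apply ENNReal.measurable_ofReal.comp
          apply hppm.comp
          exact measurable_const.sub (((measurable_snd.comp hXm).sub measurable_const).abs)
      have e0 : ∫⁻ P in V, φ (X P) = ∫⁻ P, ψ P := by
        rw [← lintegral_indicator hVm]
        apply lintegral_congr_ae
        rw [measure_eq_zero_iff_ae_notMem] at hNV
        filter_upwards [hNV] with P hP
        by_cases hPV : P ∈ V
        · rw [indicator_of_mem hPV]
          obtain ⟨z, hz, hPz⟩ := mem_iUnion₂.1 hPV
          have hXz : X P = z := hX z hz P hPz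
          have hzN : z ∉ N := by
            intro hzN
            apply hP
            exact mem_iUnion₂.2 ⟨z, ⟨hz, hzN⟩, hPz⟩
          have hQz : P = Q z := by
            have := hQ z hz hzN
            rw [this] at hPz
            exact hPz
          by_cases h1 : |z.1 - x0| ≤ δ
          · by_cases h2 : |z.2 - y0| ≤ ρ
            · rw [hφd, hψ, indicator_of_mem (show X P ∈ {z : ℝ × ℝ | |z.1 - x0| ≤ δ} by
                rw [hXz]; exact h1), indicator_of_mem (show P ∈ E from
                ⟨hPV, by rw [mem_setOf_eq, hXz]; exact ⟨h1, h2⟩⟩), hXz, ← hQz, mul_comm]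
            · rw [hφd, hψ, indicator_of_mem (show X P ∈ {z : ℝ × ℝ | |z.1 - x0| ≤ δ} by
                rw [hXz]; exact h1), indicator_of_notMem (show P ∉ E by
                rintro ⟨_, _, h4⟩; rw [hXz] at h4; exact h2 h4), hXz, pp0, zero_mul]
              by_contra hc
              apply h2
              exact neary y k z.2 hyk (by linarith)
          · rw [hφd, hψ, indicator_of_notMem (show X P ∉ {z : ℝ × ℝ | |z.1 - x0| ≤ δ} by
                rw [hXz]; exact h1), indicator_of_notMem (show P ∉ E by
                rintro ⟨_, h4, _⟩; rw [hXz] at h4; exact h1 h4)]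
        · rw [indicator_of_notMem hPV, hψ, indicator_of_notMem (fun hPE => hPV hPE.1)]
      rw [e0, Measure.volume_eq_prod, lintegral_prod _ hψm.aemeasurable]
      apply tent p h hh (fun s => 2 * v s y - v s (y + k) - v s (y - k))
      · have hsub : Icc (p - h) (p + h) ⊆ Icc (p0 - ρ) (p0 + ρ) := by
          intro s hs
          have := abs_le.1 (nearp p h s hph (by
            rw [abs_le]; exact ⟨by linarith [hs.1], by linarith [hs.2]⟩))
          exact ⟨by linarith [this.1], by linarith [this.2]⟩
        apply ContinuousOn.sub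
        · apply ContinuousOn.sub
          · apply continuousOn_const.mul
            exact (hvp _ (neary y k _ hyk (by simp [hk.le]))).mono hsub
          · exact (hvp _ (neary y k _ hyk (by simp [abs_of_pos hk]))).mono hsub
        · exact (hvp _ (neary y k _ hyk (by simp [abs_of_pos hk]))).mono hsub
      · intro s hs
        apply gB s y k hk _ hyk
        apply nearp p h s hph
        rw [abs_le]; exact ⟨by linarith [hs.1], by linarith [hs.2]⟩
      · apply Eventually.of_forall
        intro p' hp'
        have hp'0 : |p' - p0| ≤ ρ := nearp p h p' hph hp'.le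
        set F : Set ℝ := {q : ℝ | (p', q) ∈ E} with hF
        have hFm : MeasurableSet F := (measurable_const.prodMk measurable_id) hEm
        have e1 : ∫⁻ q : ℝ, ψ (p', q) = ENNReal.ofReal (pp (h - |p' - p|)) *
            ∫⁻ q in F, ENNReal.ofReal (pp (k - |(X (p', q)).2 - y|)) := by
          rw [← lintegral_const_mul, ← lintegral_indicator hFm]
          · apply lintegral_congr
            intro q
            by_cases hq : (p', q) ∈ E
            · rw [hψ, indicator_of_mem hq, indicator_of_mem (show q ∈ F from hq)]
            · rw [hψ, indicator_of_notMem hq, indicator_of_notMem (show q ∉ F from hq)]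
          · apply ENNReal.measurable_ofReal.comp
            apply hppm.comp
            exact measurable_const.sub (((measurable_snd.comp (hXm.comp
              (measurable_const.prodMk measurable_id))).sub measurable_const).abs)
        have hyy := abs_le.1 (by linarith : |y - y0| ≤ ρ - k)
        have hf2 := h4 (fun t => - v p' t) (y0 - ρ) (y0 + ρ) y k (hccv p' hp'0).neg
          (by linarith [hyy.1]) (by linarith [hyy.2]) hk (hvy p' hp'0).neg F
          (fun q => (X (p', q)).2) hFm (measurable_snd.comp (hXm.comp
              (measurable_const.prodMk measurable_id))) ?_ ?_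
        · rw [e1, hf2, ← ENNReal.ofReal_mul (hpp0 _)]
          congr 1
          rw [pp, max_eq_left (by linarith)]
          ring
        · intro q hq
          obtain ⟨hqV, hq1, hq2⟩ := hq
          obtain ⟨z, hz, hPz⟩ := mem_iUnion₂.1 hqV
          have hXz : X (p', q) = z := hX z hz _ hPz
          rw [hXz] at hq1 hq2
          refine ⟨?_, ?_⟩
          · simp only [hXz]
            rw [abs_le] at hq2
            exact ⟨by linarith [hq2.1], by linarith [hq2.2]⟩
          · intro t ht
            simp only [hXz]
            apply h5 Ω u x0 y0 p0 δ ρ L hMA.cv hW z.1 z.2 p' q hq1 hq2 hPz t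
            rw [abs_le]; exact ⟨by linarith [ht.1], by linarith [ht.2]⟩
        · intro q hq t ht hcon
          apply hq
          have ht0 : |t - y0| < ρ := by
            rw [abs_lt]; exact ⟨by linarith [ht.1, hyy.1], by linarith [ht.2, hyy.2]⟩
          obtain ⟨x, hx, hxs⟩ := h6 Ω u x0 y0 p0 δ ρ L hMA.cv hW t p' q ht0 hp'0 (by
            intro t' ht'
            apply hcon t'
            rw [abs_le] at ht'
            exact ⟨by linarith [ht'.1], by linarith [ht'.2]⟩)
          have hz : (x, t) ∈ Ω := hW.box x t hx.le ht0.le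
          have hXz : X (p', q) = (x, t) := hX (x, t) hz _ hxs
          refine ⟨mem_iUnion₂.2 ⟨(x, t), hz, hxs⟩, ?_⟩
          rw [mem_setOf_eq, hXz]
          exact ⟨hx.le, ht0.le⟩
      · intro s hs
        have : ∀ q : ℝ, ψ (s, q) = 0 := by
          intro q
          rw [hψ]
          by_cases hx : (s, q) ∈ E
          · rw [indicator_of_mem hx, pp0 _ (by simpa using hs), zero_mul]
          · rw [indicator_of_notMem hx]
        simp [this]
    rw [hA, hB] at k1 k2
    exact ⟨k1, k2⟩
  have nonA : ∀ p y h k : ℝ, 0 < h → 0 < k → |p - p0| + h ≤ ρ → |y - y0| + k ≤ ρ →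
      0 ≤ ∫ t in (-k)..k, (k - |t|) * (v (p + h) (y + t) + v (p - h) (y + t) - 2 * v p (y + t)) := by
    intro p y h k hh hk hph hyk
    apply intervalIntegral.integral_nonneg (by linarith)
    intro t ht
    have ht' : |t| ≤ k := abs_le.2 ⟨ht.1, ht.2⟩
    apply mul_nonneg (by linarith)
    apply gA p (y + t) h hh hph
    apply neary y k _ hyk
    simpa using ht'
  have nonB : ∀ p y h k : ℝ, 0 < h → 0 < k → |p - p0| + h ≤ ρ → |y - y0| + k ≤ ρ →
      0 ≤ ∫ t in (-h)..h, (h - |t|) * (2 * v (p + t) y - v (p + t) (y + k) - v (p + t) (y - k)) := by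
    intro p y h k hh hk hph hyk
    apply intervalIntegral.integral_nonneg (by linarith)
    intro t ht
    have ht' : |t| ≤ h := abs_le.2 ⟨ht.1, ht.2⟩
    apply mul_nonneg (by linarith)
    apply gB (p + t) y k hk _ hyk
    apply nearp p h _ hph
    simpa using ht'
  refine ⟨hcvx, hccv, hlip, ?_, ?_⟩
  · intro p y h k hh hk hph hyk
    have := (key p y h k hh hk hph hyk).1
    rw [← ENNReal.ofReal_mul hl.le, ENNReal.ofReal_le_ofReal_iff (nonB p y h k hh hk hph hyk)] at this
    exact this
  · intro p y h k hh hk hph hyk
    have := (key p y h k hh hk hph hyk).2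
    rw [← ENNReal.ofReal_mul (inv_nonneg.2 hl.le), ENNReal.ofReal_le_ofReal_iff
      (mul_nonneg (inv_nonneg.2 hl.le) (nonA p y h k hh hk hph hyk))] at this
    exact this

end Pool.Agent.W775.WH.LEG
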