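import Mathlib
import Pool.Agent.W775.WH.Defs
import Pool.Agent.W775.WH.Stm

/-!
Project WH (owner helper775), part WH-LEGB, by helper402: the partial Legendre transform `leg` is
convex in `p`, concave in `y` and Lipschitz.
-/

set_option autoImplicit false

open MeasureTheory Set Filter Topology

namespace Pool.Agent.W775.WH.LEGB

open Pool.Agent.W775.WH

/-- the supremum defining `leg` is attained -/
theorem leg_spec {Ω : Set (ℝ × ℝ)} {u : ℝ × ℝ → ℝ} {x0 y0 p0 δ ρ L : ℝ}
    (hW : Win Ω u x0 y0 p0 δ ρ L) (p y : ℝ) (hy : |y - y0| ≤ ρ) :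
    (∃ x : ℝ, |x - x0| ≤ δ ∧ leg u x0 δ p y = p * (x - x0) - u (x, y)) ∧
    (∀ x : ℝ, |x - x0| ≤ δ → p * (x - x0) - u (x, y) ≤ leg u x0 δ p y) := by
  have hδ := hW.δ0
  have hL := hW.L0
  have hIcc : ∀ x : ℝ, x ∈ Icc (x0 - δ) (x0 + δ) ↔ |x - x0| ≤ δ := by
    intro x
    rw [abs_le, mem_Icc]
    constructor
    · intro h; constructor <;> linarith [h.1, h.2]
    · intro h; constructor <;> linarith [h.1, h.2]
  have hcu : ContinuousOn (fun x : ℝ => u (x, y)) (Icc (x0 - δ) (x0 + δ)) := by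
    have : LipschitzOnWith ⟨L, hL.le⟩ (fun x : ℝ => u (x, y)) (Icc (x0 - δ) (x0 + δ)) := by
      apply LipschitzOnWith.of_dist_le_mul
      intro x hx x' hx'
      have := hW.lip x y x' y ((hIcc x).1 hx) hy ((hIcc x').1 hx') hy
      rw [Real.dist_eq, Real.dist_eq]
      have h2 : |u (x, y) - u (x', y)| ≤ L * |x - x'| := by simpa using this
      exact h2
    exact this.continuousOn
  have hc : ContinuousOn (fun x : ℝ => p * (x - x0) - u (x, y)) (Icc (x0 - δ) (x0 + δ)) := by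
    refine ContinuousOn.sub ?_ hcu
    fun_prop
  have hne : (Icc (x0 - δ) (x0 + δ)).Nonempty := ⟨x0, by constructor <;> linarith⟩
  obtain ⟨x, hx, hmax⟩ := isCompact_Icc.exists_isMaxOn hne hc
  have hbdd : BddAbove ((fun x : ℝ => p * (x - x0) - u (x, y)) '' Icc (x0 - δ) (x0 + δ)) := by
    refine ⟨p * (x - x0) - u (x, y), ?_⟩
    rintro _ ⟨z, hz, rfl⟩
    exact hmax hz
  refine ⟨⟨x, (hIcc x).1 hx, ?_⟩, ?_⟩
  · apply le_antisymm
    · apply csSup_le (hne.image _)
      rintro _ ⟨z, hz, rfl⟩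
      exact hmax hz
    · exact le_csSup hbdd ⟨x, hx, rfl⟩
  · intro z hz
    exact le_csSup hbdd ⟨z, (hIcc z).2 hz, rfl⟩

theorem mem_abs {c r t : ℝ} (h : t ∈ Icc (c - r) (c + r)) : |t - c| ≤ r := by
  rw [abs_le]
  constructor <;> linarith [h.1, h.2]

theorem t_LEGB : S_LEGB := by
  intro Ω u x0 y0 p0 δ ρ L hcv hW
  have hδ := hW.δ0
  have hL := hW.L0
  refine ⟨?_, ?_, ?_⟩
  · intro y hy
    refine ⟨convex_Icc _ _, ?_⟩
    intro p1 _ p2 _ a b ha hb hab
    obtain ⟨⟨x, hx, hxe⟩, -⟩ := leg_spec hW (a • p1 + b • p2) y hy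
    have h1 := (leg_spec hW p1 y hy).2 x hx
    have h2 := (leg_spec hW p2 y hy).2 x hx
    simp only [smul_eq_mul] at *
    rw [hxe]
    have e : (a * p1 + b * p2) * (x - x0) - u (x, y) =
        a * (p1 * (x - x0) - u (x, y)) + b * (p2 * (x - x0) - u (x, y)) := by
      have : u (x, y) = (a + b) * u (x, y) := by rw [hab, one_mul]
      linear_combination (-1 : ℝ) * this
    rw [e]
    exact add_le_add (mul_le_mul_of_nonneg_left h1 ha) (mul_le_mul_of_nonneg_left h2 hb)
  · intro p _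
    refine ⟨convex_Icc _ _, ?_⟩
    intro y1 hy1 y2 hy2 a b ha hb hab
    have hy1' := mem_abs hy1
    have hy2' := mem_abs hy2
    have hy3' : |(a • y1 + b • y2) - y0| ≤ ρ :=
      mem_abs ((convex_Icc (y0 - ρ) (y0 + ρ)) hy1 hy2 ha hb hab)
    obtain ⟨⟨x1, hx1, he1⟩, -⟩ := leg_spec hW p y1 hy1'
    obtain ⟨⟨x2, hx2, he2⟩, -⟩ := leg_spec hW p y2 hy2'
    simp only [smul_eq_mul] at *
    have hx3 : |(a * x1 + b * x2) - x0| ≤ δ := by
      have e : (a * x1 + b * x2) - x0 = a * (x1 - x0) + b * (x2 - x0) := by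
        have : x0 = (a + b) * x0 := by rw [hab, one_mul]
        linear_combination (-1 : ℝ) * this
      rw [e]
      calc |a * (x1 - x0) + b * (x2 - x0)| ≤ |a * (x1 - x0)| + |b * (x2 - x0)| := abs_add_le _ _
        _ = a * |x1 - x0| + b * |x2 - x0| := by rw [abs_mul, abs_mul, abs_of_nonneg ha, abs_of_nonneg hb]
        _ ≤ a * δ + b * δ := add_le_add (mul_le_mul_of_nonneg_left hx1 ha)
            (mul_le_mul_of_nonneg_left hx2 hb)
        _ = δ := by rw [← add_mul, hab, one_mul]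
    have hu := hcv.2 (hW.box x1 y1 hx1 hy1') (hW.box x2 y2 hx2 hy2') ha hb hab
    have hu' : u (a * x1 + b * x2, a * y1 + b * y2) ≤ a * u (x1, y1) + b * u (x2, y2) := by
      simpa [Prod.smul_mk, Prod.mk_add_mk, smul_eq_mul] using hu
    have h3 := (leg_spec hW p (a * y1 + b * y2) hy3').2 (a * x1 + b * x2) hx3
    rw [he1, he2]
    refine le_trans ?_ h3
    have e : p * (a * x1 + b * x2 - x0) = a * (p * (x1 - x0)) + b * (p * (x2 - x0)) := by
      have : x0 = (a + b) * x0 := by rw [hab, one_mul]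
      linear_combination (-p : ℝ) * this
    rw [e]
    nlinarith [hu']
  · have key : ∀ p y p' y' : ℝ, |y - y0| ≤ ρ → |y' - y0| ≤ ρ →
        leg u x0 δ p y - leg u x0 δ p' y' ≤ (δ + L) * (|p - p'| + |y - y'|) := by
      intro p y p' y' hy hy'
      obtain ⟨⟨x, hx, he⟩, -⟩ := leg_spec hW p y hy
      have h' := (leg_spec hW p' y' hy').2 x hx
      have h1 : leg u x0 δ p y - leg u x0 δ p' y' ≤ (p - p') * (x - x0) - (u (x, y) - u (x, y')) := by
        rw [he]; linarith
      have h2 : (p - p') * (x - x0) ≤ |p - p'| * δ := by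
        calc (p - p') * (x - x0) ≤ |(p - p') * (x - x0)| := le_abs_self _
          _ = |p - p'| * |x - x0| := abs_mul _ _
          _ ≤ |p - p'| * δ := mul_le_mul_of_nonneg_left hx (abs_nonneg _)
      have h3 : |u (x, y) - u (x, y')| ≤ L * |y - y'| := by
        have := hW.lip x y x y' hx hy hx hy'
        simpa using this
      have h4 : -(u (x, y) - u (x, y')) ≤ L * |y - y'| := le_trans (neg_le_abs _) h3
      have h5 : 0 ≤ |p - p'| := abs_nonneg _
      have h6 : 0 ≤ |y - y'| := abs_nonneg _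
      nlinarith [mul_nonneg hL.le h5, mul_nonneg hδ.le h6]
    intro p y p' y' _ hy _ hy'
    rw [abs_le]
    constructor
    · have := key p' y' p y hy' hy
      rw [abs_sub_comm p' p, abs_sub_comm y' y] at this
      linarith
    · exact key p y p' y' hy hy'

end Pool.Agent.W775.WH.LEGB
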