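import Pool.Agent.W775.WH.Stm

/-!
Project WH (helper775): links between the subdifferential of `u` and the one of `- leg`.
-/

set_option autoImplicit false

open MeasureTheory Set Filter Topology

namespace Pool.Agent.W775.WH.LNK

open Pool.Agent.W775.WH

section
variable {Ω : Set (ℝ × ℝ)} {u : ℝ × ℝ → ℝ} {x0 y0 p0 δ ρ L : ℝ}

theorem abs_le_of_mem {x : ℝ} (hx : x ∈ Icc (x0 - δ) (x0 + δ)) : |x - x0| ≤ δ := by
  rw [abs_le]
  constructor <;> linarith [hx.1, hx.2]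

theorem mem_of_abs_le {x : ℝ} (hx : |x - x0| ≤ δ) : x ∈ Icc (x0 - δ) (x0 + δ) := by
  rw [abs_le] at hx
  constructor <;> linarith [hx.1, hx.2]

theorem cont_phi (hW : Win Ω u x0 y0 p0 δ ρ L) (p : ℝ) {y : ℝ} (hy : |y - y0| ≤ ρ) :
    ContinuousOn (fun x : ℝ => p * (x - x0) - u (x, y)) (Icc (x0 - δ) (x0 + δ)) := by
  have h1 : ContinuousOn (fun x : ℝ => u (x, y)) (Icc (x0 - δ) (x0 + δ)) := by
    have h2 : LipschitzOnWith (Real.toNNReal L) (fun x : ℝ => u (x, y))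
        (Icc (x0 - δ) (x0 + δ)) := by
      refine LipschitzOnWith.of_dist_le_mul fun a ha b hb => ?_
      rw [Real.dist_eq, Real.dist_eq, Real.coe_toNNReal _ hW.L0.le]
      have := hW.lip a y b y (abs_le_of_mem ha) hy (abs_le_of_mem hb) hy
      simpa using this
    exact h2.continuousOn
  have h3 : Continuous fun x : ℝ => p * (x - x0) := by fun_prop
  exact h3.continuousOn.sub h1

theorem bdd_phi (hW : Win Ω u x0 y0 p0 δ ρ L) (p : ℝ) {y : ℝ} (hy : |y - y0| ≤ ρ) :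
    BddAbove ((fun x : ℝ => p * (x - x0) - u (x, y)) '' Icc (x0 - δ) (x0 + δ)) :=
  (isCompact_Icc.image_of_continuousOn (cont_phi hW p hy)).bddAbove

theorem le_leg (hW : Win Ω u x0 y0 p0 δ ρ L) (p : ℝ) {x y : ℝ} (hx : |x - x0| ≤ δ)
    (hy : |y - y0| ≤ ρ) : p * (x - x0) - u (x, y) ≤ leg u x0 δ p y :=
  le_csSup (bdd_phi hW p hy) ⟨x, mem_of_abs_le hx, rfl⟩

theorem leg_le (hW : Win Ω u x0 y0 p0 δ ρ L) (p : ℝ) {y c : ℝ}
    (h : ∀ x : ℝ, |x - x0| ≤ δ → p * (x - x0) - u (x, y) ≤ c) : leg u x0 δ p y ≤ c := by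
  refine csSup_le ?_ ?_
  · refine ⟨_, ⟨x0, mem_of_abs_le ?_, rfl⟩⟩
    rw [sub_self, abs_zero]
    exact hW.δ0.le
  · rintro _ ⟨x, hx, rfl⟩
    exact h x (abs_le_of_mem hx)

end

theorem t_LNK1 : S_LNK1 := by
  intro Ω u x0 y0 p0 δ ρ L _ hW x y p q hx hy hpq t ht
  have h1 : leg u x0 δ p t ≤ leg u x0 δ p y - q * (t - y) := by
    refine leg_le hW p fun x' hx' => ?_
    have h2 := hpq (x', t) (hW.box x' t hx' ht)
    have h3 := le_leg hW p hx hy
    simp only at h2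
    linarith
  linarith

theorem t_LNK2 : S_LNK2 := by
  intro Ω u x0 y0 p0 δ ρ L hcv hW y p q hy hp hleg
  have hy' : |y - y0| ≤ ρ := hy.le
  -- a maximizer
  have hne : (Icc (x0 - δ) (x0 + δ)).Nonempty := nonempty_Icc.mpr (by linarith [hW.δ0])
  obtain ⟨x, hx, hmax⟩ := isCompact_Icc.exists_isMaxOn hne (cont_phi hW p hy')
  have hmax' : ∀ x' : ℝ, |x' - x0| ≤ δ → p * (x' - x0) - u (x', y) ≤ p * (x - x0) - u (x, y) :=
    fun x' hx' => hmax (mem_of_abs_le hx')
  have hlegy : leg u x0 δ p y ≤ p * (x - x0) - u (x, y) := leg_le hW p hmax'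
  have hδ := hW.δ0
  have h0 := hmax' x0 (by rw [sub_self, abs_zero]; exact hδ.le)
  obtain ⟨hi1, hi2⟩ := hW.intr y p hy' hp
  have hxlt : |x - x0| < δ := by
    rw [abs_lt]
    constructor
    · rcases hx.1.eq_or_lt with h | h
      · exfalso
        rw [← h] at h0
        linarith
      · linarith
    · rcases hx.2.eq_or_lt with h | h
      · exfalso
        rw [h] at h0
        linarith
      · linarith
  refine ⟨x, hxlt, ?_⟩
  -- the local inequality
  have hloc : ∀ x' t : ℝ, |x' - x0| ≤ δ → |t - y0| ≤ ρ →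
      u (x, y) + (p * (x' - x) + q * (t - y)) ≤ u (x', t) := by
    intro x' t hx' ht
    have h1 := le_leg hW p hx' ht
    have h2 := hleg t ht
    linarith
  have hzΩ : (x, y) ∈ Ω := hW.box x y hxlt.le hy'
  have hmin : IsLocalMinOn (fun w : ℝ × ℝ => u w - (p * w.1 + q * w.2)) Ω (x, y) := by
    have h1 : ∀ᶠ w : ℝ × ℝ in 𝓝 (x, y), |w.1 - x0| < δ ∧ |w.2 - y0| < ρ := by
      have c1 : Continuous fun w : ℝ × ℝ => |w.1 - x0| := by fun_prop
      have c2 : Continuous fun w : ℝ × ℝ => |w.2 - y0| := by fun_prop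
      exact (c1.continuousAt.eventually_lt continuousAt_const hxlt).and
        (c2.continuousAt.eventually_lt continuousAt_const hy)
    refine (h1.filter_mono nhdsWithin_le_nhds).mono fun w hw => ?_
    have h2 := hloc w.1 w.2 hw.1.le hw.2.le
    show u (x, y) - (p * x + q * y) ≤ u w - (p * w.1 + q * w.2)
    have h3 : u (w.1, w.2) = u w := rfl
    rw [h3] at h2
    linarith
  have hcv' : ConvexOn ℝ Ω (fun w : ℝ × ℝ => u w - (p * w.1 + q * w.2)) := by
    refine ⟨hcv.1, fun a ha b hb s t hs ht hst => ?_⟩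
    have h1 := hcv.2 ha hb hs ht hst
    simp only [smul_eq_mul, Prod.fst_add, Prod.snd_add, Prod.smul_fst, Prod.smul_snd] at h1 ⊢
    linarith
  have hglob := IsMinOn.of_isLocalMinOn_of_convexOn hzΩ hmin hcv'
  intro w hw
  have h1 := hglob hw
  simp only [mem_ofPred_eq] at h1
  show u (x, y) + (p * (w.1 - x) + q * (w.2 - y)) ≤ u w
  linarith

end Pool.Agent.W775.WH.LNK
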