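import Pool.Agent.W775.WH.Stm

/-!
# Project WH, part LOC: the local package from the gradient package
-/

set_option autoImplicit false

open MeasureTheory Set Filter Topology

namespace Pool.Agent.W775.WH.LOC

/-- pairing bound in the sup norm -/
theorem pair_le (a w z : ℝ × ℝ) :
    |a.1 * (w.1 - z.1) + a.2 * (w.2 - z.2)| ≤ 2 * ‖a‖ * ‖w - z‖ := by
  have h1 : |a.1| ≤ ‖a‖ := by simpa using norm_fst_le a
  have h2 : |a.2| ≤ ‖a‖ := by simpa using norm_snd_le a
  have h3 : |w.1 - z.1| ≤ ‖w - z‖ := by simpa using norm_fst_le (w - z)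
  have h4 : |w.2 - z.2| ≤ ‖w - z‖ := by simpa using norm_snd_le (w - z)
  calc |a.1 * (w.1 - z.1) + a.2 * (w.2 - z.2)|
      ≤ |a.1 * (w.1 - z.1)| + |a.2 * (w.2 - z.2)| := abs_add_le _ _
    _ = |a.1| * |w.1 - z.1| + |a.2| * |w.2 - z.2| := by rw [abs_mul, abs_mul]
    _ ≤ ‖a‖ * ‖w - z‖ + ‖a‖ * ‖w - z‖ := by
        gcongr
    _ = 2 * ‖a‖ * ‖w - z‖ := by ring

theorem t_LOC (h1 : S_EXT) (h2 : S_GOOD) (h3 : S_ARE) : S_LOC := by
  intro l b Ω u P hl hl1 hb hb1 hG z0 R hR hball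
  obtain ⟨g, C1, hC1, hcv, hlip, hgu⟩ := h1 Ω u hG.ma.op hG.ma.cv z0 R hR hball
  have hsub3 : Metric.closedBall z0 (3 * R) ⊆ Ω :=
    (Metric.closedBall_subset_closedBall (by linarith)).trans hball
  have hsub3' : Metric.ball z0 (3 * R) ⊆ Ω := Metric.ball_subset_closedBall.trans hsub3
  obtain ⟨C2, hC2, hH⟩ := hG.hol (Metric.closedBall z0 (3 * R)) (isCompact_closedBall _ _) hsub3
  -- bound for the gradient
  set M : ℝ := ‖P z0‖ + C2 * (2 * R) ^ b with hM
  have hM0 : 0 ≤ M := by positivity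
  have hz0 : z0 ∈ Metric.closedBall z0 (3 * R) := Metric.mem_closedBall_self (by linarith)
  have h23 : Metric.closedBall z0 (2 * R) ⊆ Metric.closedBall z0 (3 * R) :=
    Metric.closedBall_subset_closedBall (by linarith)
  have hPM : ∀ z ∈ Metric.closedBall z0 (2 * R), ‖P z‖ ≤ M := by
    intro z hz
    have ha := hH z (h23 hz) z0 hz0
    have hd : ‖z - z0‖ ≤ 2 * R := by
      rw [← dist_eq_norm]; exact Metric.mem_closedBall.1 hz
    have hp : ‖z - z0‖ ^ b ≤ (2 * R) ^ b := Real.rpow_le_rpow (norm_nonneg _) hd hb.le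
    have : ‖P z‖ ≤ ‖P z0‖ + ‖P z - P z0‖ := by
      have := norm_add_le (P z0) (P z - P z0)
      simpa using this
    calc ‖P z‖ ≤ ‖P z0‖ + ‖P z - P z0‖ := this
      _ ≤ ‖P z0‖ + C2 * (2 * R) ^ b := by
        have := mul_le_mul_of_nonneg_left hp hC2.le
        linarith
  set C : ℝ := C1 + 2 * C2 + (C1 + 2 * M) * (R ^ b)⁻¹ with hC
  have hRb : 0 < (R ^ b)⁻¹ := by positivity
  have hlast : 0 ≤ (C1 + 2 * M) * (R ^ b)⁻¹ := by positivity
  have hCC1 : C1 ≤ C := by rw [hC]; linarith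
  have hCC2 : 2 * C2 ≤ C := by rw [hC]; linarith
  have hCC3 : (C1 + 2 * M) * (R ^ b)⁻¹ ≤ C := by rw [hC]; linarith
  refine ⟨C, g, ?_⟩
  refine { l0 := hl, l1 := hl1, b0 := hb, b1 := hb1, C0 := by linarith, R0 := hR, cv := hcv,
           lip := ?_, der := ?_, hol := ?_, holP := ?_, good := ?_, inj := ?_, area := ?_ }
  · intro z w
    exact (hlip z w).trans (mul_le_mul_of_nonneg_right hCC1 (norm_nonneg _))
  · intro z hz
    have hd := hG.der z (hsub3' hz)
    refine hd.congr_of_eventuallyEq ?_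
    filter_upwards [Metric.isOpen_ball.mem_nhds hz] with w hw
    exact hgu w (Metric.ball_subset_closedBall hw)
  · intro z hz w
    have hz3 := h23 hz
    have hr1 : ‖w - z‖ ^ (1 + b) = ‖w - z‖ * ‖w - z‖ ^ b := by
      rw [Real.rpow_add' (norm_nonneg _) (by linarith), Real.rpow_one]
    have hrb : 0 ≤ ‖w - z‖ ^ b := Real.rpow_nonneg (norm_nonneg _) _
    have hrb1 : 0 ≤ ‖w - z‖ ^ (1 + b) := Real.rpow_nonneg (norm_nonneg _) _
    by_cases hw : w ∈ Metric.closedBall z0 (3 * R)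
    · rw [hgu w hw, hgu z hz3]
      have hsz : P z ∈ Sub Ω u z := by rw [hG.sub z (hsub3 hz3)]; exact rfl
      have hsw : P w ∈ Sub Ω u w := by rw [hG.sub w (hsub3 hw)]; exact rfl
      have ha := hsz w (hsub3 hw)
      have hb' := hsw z (hsub3 hz3)
      have hc := pair_le (P w - P z) w z
      have hd := hH w hw z hz3
      have he : (P w - P z).1 * (w.1 - z.1) + (P w - P z).2 * (w.2 - z.2) ≤
          2 * ‖P w - P z‖ * ‖w - z‖ := (le_abs_self _).trans hc
      have hf : 2 * ‖P w - P z‖ * ‖w - z‖ ≤ 2 * (C2 * ‖w - z‖ ^ b) * ‖w - z‖ := by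
        gcongr
      have hg' : 2 * (C2 * ‖w - z‖ ^ b) * ‖w - z‖ = 2 * C2 * ‖w - z‖ ^ (1 + b) := by
        rw [hr1]; ring
      have hh : 2 * C2 * ‖w - z‖ ^ (1 + b) ≤ C * ‖w - z‖ ^ (1 + b) :=
        mul_le_mul_of_nonneg_right hCC2 hrb1
      rw [abs_le]
      simp only [Prod.fst_sub, Prod.snd_sub] at he
      constructor
      · have : 0 ≤ C * ‖w - z‖ ^ (1 + b) := by
          apply mul_nonneg _ hrb1; linarith
        linarith
      · linarith
    · have hdist : R ≤ ‖w - z‖ := by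
        rw [Metric.mem_closedBall, not_le] at hw
        rw [Metric.mem_closedBall] at hz
        have := dist_triangle w z z0
        rw [← dist_eq_norm]
        linarith
      have hn : 0 < ‖w - z‖ := lt_of_lt_of_le hR hdist
      have hp := pair_le (P z) w z
      have hl' := hlip w z
      have hPz := hPM z hz
      have hx : |g w - g z - ((P z).1 * (w.1 - z.1) + (P z).2 * (w.2 - z.2))| ≤
          (C1 + 2 * M) * ‖w - z‖ := by
        calc |g w - g z - ((P z).1 * (w.1 - z.1) + (P z).2 * (w.2 - z.2))|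
            ≤ |g w - g z| + |(P z).1 * (w.1 - z.1) + (P z).2 * (w.2 - z.2)| := abs_sub _ _
          _ ≤ C1 * ‖w - z‖ + 2 * ‖P z‖ * ‖w - z‖ := add_le_add hl' hp
          _ ≤ C1 * ‖w - z‖ + 2 * M * ‖w - z‖ := by gcongr
          _ = (C1 + 2 * M) * ‖w - z‖ := by ring
      have hRb' : R ^ b ≤ ‖w - z‖ ^ b := Real.rpow_le_rpow hR.le hdist hb.le
      have hRp : 0 < R ^ b := by positivity
      have hone : ‖w - z‖ ≤ (R ^ b)⁻¹ * ‖w - z‖ ^ (1 + b) := by
        rw [hr1]
        rw [inv_mul_eq_div, le_div_iff₀ hRp]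
        exact mul_le_mul_of_nonneg_left hRb' hn.le
      calc |g w - g z - ((P z).1 * (w.1 - z.1) + (P z).2 * (w.2 - z.2))|
          ≤ (C1 + 2 * M) * ‖w - z‖ := hx
        _ ≤ (C1 + 2 * M) * ((R ^ b)⁻¹ * ‖w - z‖ ^ (1 + b)) :=
            mul_le_mul_of_nonneg_left hone (by positivity)
        _ = ((C1 + 2 * M) * (R ^ b)⁻¹) * ‖w - z‖ ^ (1 + b) := by ring
        _ ≤ C * ‖w - z‖ ^ (1 + b) := mul_le_mul_of_nonneg_right hCC3 hrb1
  · intro z hz w hw
    have ha := hH z (Metric.ball_subset_closedBall hz) w (Metric.ball_subset_closedBall hw)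
    have : C2 ≤ C := by linarith
    exact ha.trans (mul_le_mul_of_nonneg_right this (Real.rpow_nonneg (norm_nonneg _) _))
  · exact ae_restrict_of_ae_restrict_of_subset hsub3' (h2 l b Ω u P hl hb hG)
  · exact hG.inj.mono hsub3'
  · intro B hB hBs
    exact h3 l b Ω u P hl hb hG B hB (hBs.trans hsub3')

end Pool.Agent.W775.WH.LOC
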