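import Pool.Agent.W775.WH.Stm
import Pool.Agent.W775.WH.HF2

/-!
Project WH, part LOW: lower bound of the Hessian of the heat extension (Fatou).
-/

set_option autoImplicit false

open MeasureTheory Set Filter Topology

namespace Pool.Agent.W775.WH.LOW

/-! ### symmetric second differences -/

lemma sd {ψ ψ' : ℝ → ℝ} {q : ℝ} (h1 : ∀ᶠ h in 𝓝 (0 : ℝ), HasDerivAt ψ (ψ' h) h)
    (h2 : HasDerivAt ψ' q 0) :
    Tendsto (fun h => (ψ h + ψ (-h) - 2 * ψ 0) / h ^ 2) (𝓝[>] 0) (𝓝 q) := by
  have h1' : ∀ᶠ h in 𝓝 (0 : ℝ), HasDerivAt ψ (ψ' (-h)) (-h) := by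
    have ht : Tendsto (fun h : ℝ => -h) (𝓝 0) (𝓝 0) := by
      have := (continuous_neg (G := ℝ)).tendsto 0
      simpa using this
    exact ht.eventually h1
  have hψ : ContinuousAt ψ 0 := h1.self_of_nhds.continuousAt
  refine HasDerivAt.lhopital_zero_nhdsGT (f' := fun h => ψ' h - ψ' (-h)) (g' := fun h => 2 * h)
    ?_ ?_ ?_ ?_ ?_ ?_
  · refine nhdsWithin_le_nhds ?_
    filter_upwards [h1, h1'] with h a1 a2
    have a3 : HasDerivAt (fun h => ψ (-h)) (-(ψ' (-h))) h := by
      have := HasDerivAt.comp h a2 (hasDerivAt_neg h)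
      simpa [Function.comp_def] using this
    have a4 := (a1.add a3).sub_const (2 * ψ 0)
    refine a4.congr_deriv ?_
    ring
  · refine Eventually.of_forall fun h => ?_
    have := hasDerivAt_pow 2 h
    simpa using this
  · filter_upwards [self_mem_nhdsWithin] with h hh
    have : (0 : ℝ) < h := hh
    positivity
  · have a1 : Tendsto (fun h => ψ h + ψ (-h) - 2 * ψ 0) (𝓝 0) (𝓝 (ψ 0 + ψ 0 - 2 * ψ 0)) := by
      have a2 : Tendsto (fun h : ℝ => ψ (-h)) (𝓝 0) (𝓝 (ψ 0)) := by
        have ht : Tendsto (fun h : ℝ => -h) (𝓝 0) (𝓝 0) := by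
          have := (continuous_neg (G := ℝ)).tendsto 0
          simpa using this
        exact hψ.tendsto.comp ht
      exact (hψ.tendsto.add a2).sub_const _
    have e : ψ 0 + ψ 0 - 2 * ψ 0 = 0 := by ring
    rw [e] at a1
    exact a1.mono_left nhdsWithin_le_nhds
  · have a1 : Tendsto (fun h : ℝ => h ^ 2) (𝓝 0) (𝓝 (0 ^ 2)) := (continuous_pow 2).tendsto 0
    rw [zero_pow two_ne_zero] at a1
    exact a1.mono_left nhdsWithin_le_nhds
  · rw [hasDerivAt_iff_tendsto_slope] at h2
    have b1 : Tendsto (slope ψ' 0) (𝓝[>] 0) (𝓝 q) :=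
      h2.mono_left (nhdsWithin_mono _ (fun x hx => by
        have : (0 : ℝ) < x := hx
        simpa using this.ne'))
    have b2 : Tendsto (fun h : ℝ => -h) (𝓝[>] 0) (𝓝[≠] 0) := by
      refine tendsto_nhdsWithin_iff.2 ⟨?_, ?_⟩
      · have := (continuous_neg (G := ℝ)).tendsto 0
        rw [neg_zero] at this
        exact this.mono_left nhdsWithin_le_nhds
      · filter_upwards [self_mem_nhdsWithin] with h hh
        have : (0 : ℝ) < h := hh
        simpa using this.ne'
    have b3 : Tendsto (fun h => slope ψ' 0 (-h)) (𝓝[>] 0) (𝓝 q) := h2.comp b2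
    have b4 := (b1.add b3).div_const 2
    have e : (q + q) / 2 = q := by ring
    rw [e] at b4
    refine b4.congr' ?_
    filter_upwards [self_mem_nhdsWithin] with h hh
    have hh' : (0 : ℝ) < h := hh
    have hne : h ≠ 0 := hh'.ne'
    rw [slope_def_field, slope_def_field, sub_zero, sub_zero, div_neg]
    field_simp
    ring

/-- second derivative in direction `v` from the gradient -/
lemma sd2 {f : ℝ × ℝ → ℝ} {D : ℝ × ℝ → (ℝ × ℝ →L[ℝ] ℝ)} {z v : ℝ × ℝ} {q : ℝ}
    (h1 : ∀ᶠ w in 𝓝 z, HasFDerivAt f (D w) w)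
    (h2 : HasDerivAt (fun h : ℝ => D (z + h • v) v) q 0) :
    Tendsto (fun h : ℝ => (f (z + h • v) + f (z - h • v) - 2 * f z) / h ^ 2) (𝓝[>] 0) (𝓝 q) := by
  have hl : ∀ h : ℝ, HasDerivAt (fun h : ℝ => z + h • v) v h := by
    intro h
    have := ((hasDerivAt_id h).smul_const v).const_add z
    simpa using this
  have ht : Tendsto (fun h : ℝ => z + h • v) (𝓝 0) (𝓝 z) := by
    have := (hl 0).continuousAt.tendsto
    simpa using this
  have h3 : ∀ᶠ h in 𝓝 (0 : ℝ), HasDerivAt (fun h : ℝ => f (z + h • v)) (D (z + h • v) v) h := by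
    filter_upwards [ht.eventually h1] with h hh
    exact hh.comp_hasDerivAt h (hl h)
  have h4 := sd (ψ := fun h : ℝ => f (z + h • v)) h3 h2
  refine h4.congr fun h => ?_
  simp only [neg_smul, zero_smul, add_zero, sub_eq_add_neg]

/-! ### integrability -/

lemma meas_gam : Continuous gam := by
  unfold gam
  fun_prop

lemma gam_nonneg (w : ℝ × ℝ) : 0 ≤ gam w := by
  unfold gam
  positivity

lemma int_gam {g : ℝ × ℝ → ℝ} {C : ℝ} (hC : 0 < C) (hg : ∀ z w : ℝ × ℝ, |g z - g w| ≤ C * ‖z - w‖)
    (hgc : Continuous g) (t x y : ℝ) :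
    Integrable (fun w : ℝ × ℝ => gam w * g (x - Real.sqrt t * w.1, y - Real.sqrt t * w.2)) := by
  have i0 : Integrable (fun s : ℝ => Real.exp (-(1 / 4) * s ^ 2)) :=
    integrable_exp_neg_mul_sq (by norm_num)
  have i1 : Integrable (fun s : ℝ => |s| * Real.exp (-(1 / 4) * s ^ 2)) := by
    have := (integrable_mul_exp_neg_mul_sq (b := 1 / 4) (by norm_num)).abs
    refine this.congr (Eventually.of_forall fun s => ?_)
    simp only
    rw [abs_mul, abs_of_pos (Real.exp_pos _)]
  have j0 : Integrable (fun w : ℝ × ℝ => Real.exp (-(1 / 4) * w.1 ^ 2) *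
      Real.exp (-(1 / 4) * w.2 ^ 2)) := i0.mul_prod i0
  have j1 : Integrable (fun w : ℝ × ℝ => (|w.1| * Real.exp (-(1 / 4) * w.1 ^ 2)) *
      Real.exp (-(1 / 4) * w.2 ^ 2)) := i1.mul_prod i0
  have j2 : Integrable (fun w : ℝ × ℝ => Real.exp (-(1 / 4) * w.1 ^ 2) *
      (|w.2| * Real.exp (-(1 / 4) * w.2 ^ 2))) := i0.mul_prod i1
  have hge : ∀ w : ℝ × ℝ, gam w = (4 * Real.pi)⁻¹ * (Real.exp (-(1 / 4) * w.1 ^ 2) *
      Real.exp (-(1 / 4) * w.2 ^ 2)) := by
    intro w
    rw [gam, ← Real.exp_add]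
    congr 2
    ring
  have j3 : Integrable (fun w : ℝ × ℝ => (4 * Real.pi)⁻¹ * (|g (x, y)| *
      (Real.exp (-(1 / 4) * w.1 ^ 2) * Real.exp (-(1 / 4) * w.2 ^ 2)) + C * Real.sqrt t *
      ((|w.1| * Real.exp (-(1 / 4) * w.1 ^ 2)) * Real.exp (-(1 / 4) * w.2 ^ 2)) +
      C * Real.sqrt t * (Real.exp (-(1 / 4) * w.1 ^ 2) *
      (|w.2| * Real.exp (-(1 / 4) * w.2 ^ 2))))) :=
    (((j0.const_mul _).add (j1.const_mul _)).add (j2.const_mul _)).const_mul _
  refine j3.mono' ?_ (Eventually.of_forall fun w => ?_)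
  · have : Continuous (fun w : ℝ × ℝ => gam w *
        g (x - Real.sqrt t * w.1, y - Real.sqrt t * w.2)) :=
      meas_gam.mul (hgc.comp (by fun_prop))
    exact this.aestronglyMeasurable
  · rw [Real.norm_eq_abs, abs_mul, abs_of_nonneg (gam_nonneg w)]
    have h1 := hg (x - Real.sqrt t * w.1, y - Real.sqrt t * w.2) (x, y)
    have h2 : ‖((x - Real.sqrt t * w.1, y - Real.sqrt t * w.2) : ℝ × ℝ) - (x, y)‖ ≤
        Real.sqrt t * |w.1| + Real.sqrt t * |w.2| := by
      rw [Prod.norm_def]
      simp only [Prod.fst_sub, Prod.snd_sub, Real.norm_eq_abs]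
      have e1 : x - Real.sqrt t * w.1 - x = -(Real.sqrt t * w.1) := by ring
      have e2 : y - Real.sqrt t * w.2 - y = -(Real.sqrt t * w.2) := by ring
      rw [e1, e2, abs_neg, abs_neg, abs_mul, abs_mul, abs_of_nonneg (Real.sqrt_nonneg t)]
      refine max_le ?_ ?_
      · have : 0 ≤ Real.sqrt t * |w.2| := by positivity
        linarith
      · have : 0 ≤ Real.sqrt t * |w.1| := by positivity
        linarith
    have h3 : |g (x - Real.sqrt t * w.1, y - Real.sqrt t * w.2)| ≤
        |g (x, y)| + C * (Real.sqrt t * |w.1| + Real.sqrt t * |w.2|) := by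
      have a1 : |g (x - Real.sqrt t * w.1, y - Real.sqrt t * w.2)| ≤ |g (x, y)| +
          |g (x - Real.sqrt t * w.1, y - Real.sqrt t * w.2) - g (x, y)| := by
        have := abs_add_le (g (x, y)) (g (x - Real.sqrt t * w.1, y - Real.sqrt t * w.2) - g (x, y))
        simpa using this
      have a2 := mul_le_mul_of_nonneg_left h2 hC.le
      linarith
    have h4 := mul_le_mul_of_nonneg_left h3 (gam_nonneg w)
    refine h4.trans (le_of_eq ?_)
    rw [hge w]
    ring

/-! ### the null set -/

lemma null_pre {N : Set (ℝ × ℝ)} (hN : volume N = 0) (x y t : ℝ) (ht : 0 < t) :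
    volume {w : ℝ × ℝ | (x - Real.sqrt t * w.1, y - Real.sqrt t * w.2) ∈ N} = 0 := by
  have hs : Real.sqrt t ≠ 0 := (Real.sqrt_pos.2 ht).ne'
  have e : {w : ℝ × ℝ | (x - Real.sqrt t * w.1, y - Real.sqrt t * w.2) ∈ N} =
      (fun w : ℝ × ℝ => Real.sqrt t • w) ⁻¹' ((fun w : ℝ × ℝ => (x, y) - w) ⁻¹' N) := by
    ext w
    rfl
  rw [e, Measure.addHaar_preimage_smul volume hs,
    (Measure.measurePreserving_sub_left volume ((x, y) : ℝ × ℝ)).quasiMeasurePreserving.preimage_null
      hN, mul_zero]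

lemma lin_apply (p v : ℝ × ℝ) : lin p v = p.1 * v.1 + p.2 * v.2 := by
  simp [lin]

lemma vec_eq (c d : ℝ) : ((c, d) : ℝ × ℝ) = c • ((1, 0) : ℝ × ℝ) + d • ((0, 1) : ℝ × ℝ) := by
  ext <;> simp

theorem t_LOW (h1 : S_HEAT) : S_LOW := by
  intro l b C R z0 g P hL t x y ht c d
  obtain ⟨hsm, hd⟩ := h1 g C hL.lip
  obtain ⟨-, -, dxx, dyy, dxy, -⟩ := hd t x y ht
  have hgc : Continuous g := by
    have : LipschitzWith (Real.toNNReal C) g := by
      refine LipschitzWith.of_dist_le_mul fun z w => ?_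
      rw [Real.coe_toNNReal _ hL.C0.le, Real.dist_eq, dist_eq_norm]
      exact hL.lip z w
    exact this.continuous
  set v : ℝ × ℝ := (c, d) with hv
  set U : ℝ × ℝ → ℝ := fun z => HU g t z.1 z.2 with hU
  have sU : ContDiff ℝ ((6 : ℕ) : WithTop ℕ∞) U := by
    have a1 : ContDiff ℝ ((6 : ℕ) : WithTop ℕ∞) (fun z : ℝ × ℝ => ((t, z.1, z.2) : ℝ × ℝ × ℝ)) :=
      contDiff_const.prodMk (contDiff_fst.prodMk contDiff_snd)
    unfold Sm at hsm
    exact hsm.comp_contDiff a1 (fun z => ht)
  have sU2 : ContDiff ℝ 2 U := sU.of_le (by exact_mod_cast (by norm_num : (2:ℕ) ≤ 6))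
  have dU : Differentiable ℝ U := sU2.differentiable (by simp)
  have sU1 : ContDiff ℝ 1 (fderiv ℝ U) := sU2.fderiv_right (by norm_num)
  have dU1 : Differentiable ℝ (fderiv ℝ U) := sU1.differentiable (by simp)
  set z : ℝ × ℝ := (x, y) with hz
  set D2 := fderiv ℝ (fderiv ℝ U) z with hD2
  -- entries
  have p1 : px U = fun z => fderiv ℝ U z (1, 0) := by
    funext z; exact HF2.px_eq (dU z)
  have p2 : py U = fun z => fderiv ℝ U z (0, 1) := by
    funext z; exact HF2.py_eq (dU z)
  have q11 : D2 (1, 0) (1, 0) = (HT g t x y + HA g t x y) / 2 := by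
    rw [← dxx]
    have : dX (dX (HU g)) t x y = px (px U) z := rfl
    rw [this, p1, HF2.px_eq ((dU1 z).clm_apply (differentiableAt_const _)),
      fderiv_clm_apply (dU1 z) (differentiableAt_const _)]
    simp [hD2]
  have q22 : D2 (0, 1) (0, 1) = (HT g t x y - HA g t x y) / 2 := by
    rw [← dyy]
    have : dY (dY (HU g)) t x y = py (py U) z := rfl
    rw [this, p2, HF2.py_eq ((dU1 z).clm_apply (differentiableAt_const _)),
      fderiv_clm_apply (dU1 z) (differentiableAt_const _)]
    simp [hD2]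
  have q12 : D2 (1, 0) (0, 1) = HB g t x y / 2 := by
    rw [← dxy]
    have : dX (dY (HU g)) t x y = px (py U) z := rfl
    rw [this, p2, HF2.px_eq ((dU1 z).clm_apply (differentiableAt_const _)),
      fderiv_clm_apply (dU1 z) (differentiableAt_const _)]
    simp [hD2]
  have q21 : D2 (0, 1) (1, 0) = HB g t x y / 2 := by
    rw [← q12]
    exact second_derivative_symmetric (fun y => (dU y).hasFDerivAt) (dU1 z).hasFDerivAt _ _
  have qv : D2 v v = (HT g t x y + HA g t x y) / 2 * c ^ 2 + HB g t x y * (c * d) +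
      (HT g t x y - HA g t x y) / 2 * d ^ 2 := by
    rw [hv, vec_eq c d]
    simp only [map_add, map_smul, add_apply, smul_apply, smul_eq_mul]
    rw [q11, q12, q21, q22]
    ring
  rw [← qv]
  -- limit of the second differences of `U`
  have lU : Tendsto (fun h : ℝ => (U (z + h • v) + U (z - h • v) - 2 * U z) / h ^ 2) (𝓝[>] 0)
      (𝓝 (D2 v v)) := by
    refine sd2 (D := fderiv ℝ U) (Eventually.of_forall fun w => (dU w).hasFDerivAt) ?_
    have hl : HasDerivAt (fun h : ℝ => z + h • v) v 0 := by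
      have := ((hasDerivAt_id (0 : ℝ)).smul_const v).const_add z
      simpa using this
    have a1 : HasFDerivAt (fderiv ℝ U) D2 (z + (0 : ℝ) • v) := by
      rw [zero_smul, add_zero]
      exact (dU1 z).hasFDerivAt
    have a2 : HasDerivAt (fun h : ℝ => fderiv ℝ U (z + h • v)) (D2 v) 0 :=
      a1.comp_hasDerivAt 0 hl
    have a3 := a2.clm_apply (hasDerivAt_const (0 : ℝ) v)
    simpa using a3
  -- second differences of `g`
  set A : ℝ × ℝ → ℝ × ℝ := fun w => (x - Real.sqrt t * w.1, y - Real.sqrt t * w.2) with hA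
  have cA : Continuous A := by simp only [hA]; fun_prop
  set G : ℝ → ℝ × ℝ → ℝ := fun h w => (g (A w + h • v) + g (A w - h • v) - 2 * g (A w)) / h ^ 2
    with hG
  have G0 : ∀ h w, 0 ≤ G h w := by
    intro h w
    refine div_nonneg ?_ (sq_nonneg _)
    have := hL.cv.2 (mem_univ (A w + h • v)) (mem_univ (A w - h • v))
      (by norm_num : (0 : ℝ) ≤ 1 / 2) (by norm_num : (0 : ℝ) ≤ 1 / 2) (by norm_num)
    have e : (1 / 2 : ℝ) • (A w + h • v) + (1 / 2 : ℝ) • (A w - h • v) = A w := by
      rw [← smul_add]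
      have : A w + h • v + (A w - h • v) = (2 : ℝ) • A w := by rw [two_smul]; abel
      rw [this, smul_smul]
      norm_num
    rw [e, smul_eq_mul, smul_eq_mul] at this
    linarith
  have Gi : ∀ h : ℝ, Integrable (fun w => gam w * G h w) ∧
      ∫ w, gam w * G h w = (U (z + h • v) + U (z - h • v) - 2 * U z) / h ^ 2 := by
    intro h
    have b1 : Integrable (fun w : ℝ × ℝ => gam w * g (A w + h • v)) := by
      refine (int_gam hL.C0 hL.lip hgc t (x + h * c) (y + h * d)).congr
        (Eventually.of_forall fun w => ?_)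
      simp only [hA, hv]
      congr 2
      ext <;> simp <;> ring
    have b2 : Integrable (fun w : ℝ × ℝ => gam w * g (A w - h • v)) := by
      refine (int_gam hL.C0 hL.lip hgc t (x - h * c) (y - h * d)).congr
        (Eventually.of_forall fun w => ?_)
      simp only [hA, hv]
      congr 2
      ext <;> simp <;> ring
    have b3 : Integrable (fun w : ℝ × ℝ => gam w * g (A w)) := int_gam hL.C0 hL.lip hgc t x y
    have e : (fun w => gam w * G h w) = fun w => (h ^ 2)⁻¹ * ((gam w * g (A w + h • v) +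
        gam w * g (A w - h • v)) - 2 * (gam w * g (A w))) := by
      funext w
      simp only [hG]
      ring
    refine ⟨?_, ?_⟩
    · rw [e]
      exact (((b1.add b2).sub (b3.const_mul 2)).const_mul _ :)
    · rw [e, integral_const_mul]
      have s1 : ∫ w, ((gam w * g (A w + h • v) + gam w * g (A w - h • v)) -
          2 * (gam w * g (A w))) = (∫ w, gam w * g (A w + h • v)) +
          (∫ w, gam w * g (A w - h • v)) - 2 * ∫ w, gam w * g (A w) := by
        have b12 : Integrable (fun w => gam w * g (A w + h • v) + gam w * g (A w - h • v)) :=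
          b1.add b2
        rw [integral_sub b12 (b3.const_mul 2), integral_add b1 b2, integral_const_mul]
      have s2 : U (z + h • v) = ∫ w, gam w * g (A w + h • v) := by
        simp only [hU, HU, hz, hv, hA]
        refine integral_congr_ae (Eventually.of_forall fun w => ?_)
        simp only
        congr 2
        ext <;> simp <;> ring
      have s3 : U (z - h • v) = ∫ w, gam w * g (A w - h • v) := by
        simp only [hU, HU, hz, hv, hA]
        refine integral_congr_ae (Eventually.of_forall fun w => ?_)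
        simp only
        congr 2
        ext <;> simp <;> ring
      have s4 : U z = ∫ w, gam w * g (A w) := rfl
      rw [s1, s2, s3, s4]
      ring
  -- the sequence
  set τ : ℕ → ℝ := fun n => 1 / ((n : ℝ) + 1) with hτ
  have τ0 : Tendsto τ atTop (𝓝[>] 0) := by
    refine tendsto_nhdsWithin_iff.2 ⟨tendsto_one_div_add_atTop_nhds_zero_nat, ?_⟩
    exact Eventually.of_forall fun n => by
      simp only [hτ, mem_Ioi]
      positivity
  set F : ℕ → ℝ × ℝ → ENNReal := fun n w => ENNReal.ofReal (gam w * G (τ n) w) with hF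
  have Fm : ∀ n, Measurable (F n) := by
    intro n
    have : Continuous (fun w => gam w * G (τ n) w) := by
      simp only [hG]
      refine meas_gam.mul (Continuous.div_const ?_ _)
      exact ((hgc.comp (cA.add continuous_const)).add (hgc.comp (cA.sub continuous_const))).sub
        ((hgc.comp cA).const_mul 2 |>.congr (fun _ => rfl))
    exact this.measurable.ennreal_ofReal
  have Fi : ∀ n, ∫⁻ w, F n w =
      ENNReal.ofReal ((U (z + τ n • v) + U (z - τ n • v) - 2 * U z) / τ n ^ 2) := by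
    intro n
    rw [← (Gi (τ n)).2, ofReal_integral_eq_lintegral_ofReal (Gi (τ n)).1
      (Eventually.of_forall fun w => mul_nonneg (gam_nonneg w) (G0 _ _))]
  have Fl : liminf (fun n => ∫⁻ w, F n w) atTop = ENNReal.ofReal (D2 v v) := by
    refine Tendsto.liminf_eq ?_
    simp only [Fi]
    exact (ENNReal.continuous_ofReal.tendsto _).comp (lU.comp τ0)
  have fat := lintegral_liminf_le (μ := volume) (u := atTop) Fm
  rw [Fl] at fat
  refine le_trans ?_ fat
  -- the pointwise limit
  have hSm : MeasurableSet {w : ℝ × ℝ | A w ∈ Metric.ball z0 (3 * R)} :=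
    cA.measurable Metric.isOpen_ball.measurableSet
  refine le_trans ?_ (setLIntegral_le_lintegral {w : ℝ × ℝ | A w ∈ Metric.ball z0 (3 * R)} _)
  refine lintegral_mono_ae ?_
  rw [ae_restrict_iff' hSm]
  have hN : volume {z | ¬ (z ∈ Metric.ball z0 (3 * R) → Good l P z)} = 0 := by
    have := (ae_restrict_iff' (μ := volume) Metric.isOpen_ball.measurableSet).1 hL.good
    exact this
  have hN' := null_pre hN x y t ht
  have hae : ∀ᵐ w : ℝ × ℝ, A w ∈ Metric.ball z0 (3 * R) → Good l P (A w) := by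
    rw [ae_iff]
    exact hN'
  filter_upwards [hae] with w hw hwS
  have hgood := hw hwS
  have lim : Tendsto (fun n => F n w) atTop (𝓝 (ENNReal.ofReal (gam w *
      (h11 P (A w) * c ^ 2 + 2 * h12 P (A w) * (c * d) + h22 P (A w) * d ^ 2)))) := by
    refine (ENNReal.continuous_ofReal.tendsto _).comp (Tendsto.const_mul _ ?_)
    have lg : Tendsto (fun h : ℝ => (g (A w + h • v) + g (A w - h • v) - 2 * g (A w)) / h ^ 2)
        (𝓝[>] 0) (𝓝 (h11 P (A w) * c ^ 2 + 2 * h12 P (A w) * (c * d) + h22 P (A w) * d ^ 2)) := by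
      refine sd2 (D := fun z => lin (P z)) ?_ ?_
      · filter_upwards [Metric.isOpen_ball.mem_nhds hwS] with z' hz'
        exact hL.der z' hz'
      · have hl : HasDerivAt (fun h : ℝ => A w + h • v) v 0 := by
          have := ((hasDerivAt_id (0 : ℝ)).smul_const v).const_add (A w)
          simpa using this
        have a1 : HasFDerivAt P (fderiv ℝ P (A w)) (A w + (0 : ℝ) • v) := by
          rw [zero_smul, add_zero]
          exact hgood.1.hasFDerivAt
        have a2 : HasDerivAt (fun h : ℝ => P (A w + h • v)) (fderiv ℝ P (A w) v) 0 :=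
          a1.comp_hasDerivAt 0 hl
        have a3 : HasDerivAt (fun h : ℝ => (P (A w + h • v)).1) (fderiv ℝ P (A w) v).1 0 :=
          (ContinuousLinearMap.fst ℝ ℝ ℝ).hasFDerivAt.comp_hasDerivAt 0 a2
        have a4 : HasDerivAt (fun h : ℝ => (P (A w + h • v)).2) (fderiv ℝ P (A w) v).2 0 :=
          (ContinuousLinearMap.snd ℝ ℝ ℝ).hasFDerivAt.comp_hasDerivAt 0 a2
        have a5 := (a3.mul_const c).add (a4.mul_const d)
        have e : (fun h : ℝ => lin (P (A w + h • v)) v) =
            fun h : ℝ => (P (A w + h • v)).1 * c + (P (A w + h • v)).2 * d := by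
          funext h
          rw [lin_apply]
        rw [e]
        refine a5.congr_deriv ?_
        have e2 : fderiv ℝ P (A w) v = c • fderiv ℝ P (A w) (1, 0) + d • fderiv ℝ P (A w) (0, 1) := by
          rw [hv, vec_eq c d, map_add, map_smul, map_smul]
        rw [e2]
        have s := hgood.2.1
        unfold h12 h21 at s
        unfold h11 h12 h22
        simp only [Prod.fst_add, Prod.snd_add, Prod.smul_fst, Prod.smul_snd, smul_eq_mul]
        rw [← s]
        ring
    exact lg.comp τ0
  rw [lim.liminf_eq]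

end Pool.Agent.W775.WH.LOW
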