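import Pool.Agent.W775.WH.Stm

/-! Project WH: integration by parts and limit of the integral of `χ² HT`. -/

set_option autoImplicit false

open MeasureTheory Set Filter Topology

namespace Pool.Agent.W775.WH.LTT

theorem px_eq {F : ℝ × ℝ → ℝ} (hF : Differentiable ℝ F) (z : ℝ × ℝ) :
    px F z = fderiv ℝ F z (1, 0) := by
  have h1 : HasDerivAt (fun x : ℝ => ((x, z.2) : ℝ × ℝ)) (1, 0) z.1 :=
    (hasDerivAt_id z.1).prodMk (hasDerivAt_const z.1 z.2)
  have h2 : HasFDerivAt F (fderiv ℝ F z) ((fun x : ℝ => ((x, z.2) : ℝ × ℝ)) z.1) :=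
    (hF z).hasFDerivAt
  exact (h2.comp_hasDerivAt z.1 h1).deriv

theorem py_eq {F : ℝ × ℝ → ℝ} (hF : Differentiable ℝ F) (z : ℝ × ℝ) :
    py F z = fderiv ℝ F z (0, 1) := by
  have h1 : HasDerivAt (fun x : ℝ => ((z.1, x) : ℝ × ℝ)) (0, 1) z.2 :=
    (hasDerivAt_const z.2 z.1).prodMk (hasDerivAt_id z.2)
  have h2 : HasFDerivAt F (fderiv ℝ F z) ((fun x : ℝ => ((z.1, x) : ℝ × ℝ)) z.2) :=
    (hF z).hasFDerivAt
  exact (h2.comp_hasDerivAt z.2 h1).deriv

theorem fd_smooth {F : ℝ × ℝ → ℝ} (hF : ContDiff ℝ 2 F) (v : ℝ × ℝ) :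
    ContDiff ℝ 1 (fun w => fderiv ℝ F w v) :=
  (hF.fderiv_right (m := 1) (by norm_num)).clm_apply contDiff_const

theorem pxx_eq {F : ℝ × ℝ → ℝ} (hF : ContDiff ℝ 2 F) (z : ℝ × ℝ) :
    px (px F) z = fderiv ℝ (fun w => fderiv ℝ F w (1, 0)) z (1, 0) := by
  have h1 : px F = fun w => fderiv ℝ F w (1, 0) := by
    funext w
    exact px_eq (hF.differentiable (by norm_num)) w
  rw [h1]
  exact px_eq ((fd_smooth hF _).differentiable (by norm_num)) z

theorem pyy_eq {F : ℝ × ℝ → ℝ} (hF : ContDiff ℝ 2 F) (z : ℝ × ℝ) :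
    py (py F) z = fderiv ℝ (fun w => fderiv ℝ F w (0, 1)) z (0, 1) := by
  have h1 : py F = fun w => fderiv ℝ F w (0, 1) := by
    funext w
    exact py_eq (hF.differentiable (by norm_num)) w
  rw [h1]
  exact py_eq ((fd_smooth hF _).differentiable (by norm_num)) z

theorem ibp {F G : ℝ × ℝ → ℝ} (hF : ContDiff ℝ 2 F) (hG : ContDiff ℝ 2 G)
    (hc : HasCompactSupport G) (v : ℝ × ℝ) :
    ∫ z, G z * fderiv ℝ (fun w => fderiv ℝ F w v) z v =
      ∫ z, F z * fderiv ℝ (fun w => fderiv ℝ G w v) z v := by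
  have hF1 := fd_smooth hF v
  have hG1 := fd_smooth hG v
  have hF2 : Continuous (fun z => fderiv ℝ (fun w => fderiv ℝ F w v) z v) :=
    (hF1.continuous_fderiv (by norm_num)).clm_apply continuous_const
  have hG2 : Continuous (fun z => fderiv ℝ (fun w => fderiv ℝ G w v) z v) :=
    (hG1.continuous_fderiv (by norm_num)).clm_apply continuous_const
  have hc1 : HasCompactSupport (fun w => fderiv ℝ G w v) := hc.fderiv_apply ℝ v
  have hc2 : HasCompactSupport (fun z => fderiv ℝ (fun w => fderiv ℝ G w v) z v) :=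
    hc1.fderiv_apply ℝ v
  have cF : Continuous F := hF.continuous
  have cG : Continuous G := hG.continuous
  have e1 := integral_mul_fderiv_eq_neg_fderiv_mul_of_integrable (𝕜 := ℝ) (μ := volume)
    (f := G) (g := fun w => fderiv ℝ F w v) (v := v)
    ((hG1.continuous.mul hF1.continuous).integrable_of_hasCompactSupport hc1.mul_right)
    ((cG.mul hF2).integrable_of_hasCompactSupport hc.mul_right)
    ((cG.mul hF1.continuous).integrable_of_hasCompactSupport hc.mul_right)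
    (fun x _ => hG.differentiable (by norm_num) x) (fun x _ => hF1.differentiable (by norm_num) x)
  have e2 := integral_mul_fderiv_eq_neg_fderiv_mul_of_integrable (𝕜 := ℝ) (μ := volume)
    (f := F) (g := fun w => fderiv ℝ G w v) (v := v)
    ((hF1.continuous.mul hG1.continuous).integrable_of_hasCompactSupport hc1.mul_left)
    ((cF.mul hG2).integrable_of_hasCompactSupport hc2.mul_left)
    ((cF.mul hG1.continuous).integrable_of_hasCompactSupport hc1.mul_left)
    (fun x _ => hF.differentiable (by norm_num) x) (fun x _ => hG1.differentiable (by norm_num) x)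
  rw [e1, e2]
  congr 1
  apply integral_congr_ae
  filter_upwards with z
  exact mul_comm _ _

/-! ### the Gaussian -/

theorem expo (b : ℝ) (w : ℝ × ℝ) : Real.exp (-b * w.1 ^ 2) * Real.exp (-b * w.2 ^ 2) =
    Real.exp (-(b * (w.1 ^ 2 + w.2 ^ 2))) := by
  rw [← Real.exp_add]
  ring_nf

theorem gint (b : ℝ) (hb : 0 < b) :
    Integrable (fun w : ℝ × ℝ => Real.exp (-(b * (w.1 ^ 2 + w.2 ^ 2)))) := by
  have h := (integrable_exp_neg_mul_sq hb).mul_prod (integrable_exp_neg_mul_sq hb)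
  simp only [expo] at h
  exact h

theorem gval : ∫ w : ℝ × ℝ, gam w = 1 := by
  have h : ∫ w : ℝ × ℝ, Real.exp (-(1 / 4) * w.1 ^ 2) * Real.exp (-(1 / 4) * w.2 ^ 2) =
      (∫ x : ℝ, Real.exp (-(1 / 4) * x ^ 2)) * ∫ x : ℝ, Real.exp (-(1 / 4) * x ^ 2) :=
    integral_prod_mul (μ := volume) (ν := volume) (fun x : ℝ => Real.exp (-(1 / 4) * x ^ 2))
      (fun x : ℝ => Real.exp (-(1 / 4) * x ^ 2))
  rw [integral_gaussian, Real.mul_self_sqrt (by positivity)] at h
  unfold gam
  rw [integral_const_mul]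
  have h2 : ∀ w : ℝ × ℝ, Real.exp (-(w.1 ^ 2 + w.2 ^ 2) / 4) =
      Real.exp (-(1 / 4) * w.1 ^ 2) * Real.exp (-(1 / 4) * w.2 ^ 2) := by
    intro w
    rw [← Real.exp_add]
    ring_nf
  simp only [h2]
  rw [h]
  field_simp

theorem gam_int : Integrable gam := by
  have h := (gint (1 / 4) (by norm_num)).const_mul (4 * Real.pi)⁻¹
  refine h.congr ?_
  filter_upwards with w
  unfold gam
  ring_nf

theorem gam_pos (w : ℝ × ℝ) : 0 ≤ gam w := by
  unfold gam
  positivity

theorem nrm_le (w : ℝ × ℝ) : ‖w‖ ≤ 8 * Real.exp ((w.1 ^ 2 + w.2 ^ 2) / 8) := by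
  have h1 : ‖w‖ ≤ 1 + (w.1 ^ 2 + w.2 ^ 2) := by
    rw [Prod.norm_def]
    apply max_le
    · rw [Real.norm_eq_abs]
      nlinarith [sq_nonneg (|w.1| - 1), sq_abs w.1, sq_nonneg w.2]
    · rw [Real.norm_eq_abs]
      nlinarith [sq_nonneg (|w.2| - 1), sq_abs w.2, sq_nonneg w.1]
  have h2 := Real.add_one_le_exp ((w.1 ^ 2 + w.2 ^ 2) / 8)
  nlinarith [sq_nonneg w.1, sq_nonneg w.2]

theorem gam_nrm_int : Integrable (fun w => gam w * ‖w‖) := by
  have h := (gint (1 / 8) (by norm_num)).const_mul ((4 * Real.pi)⁻¹ * 8)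
  refine h.mono' (gam_int.aestronglyMeasurable.mul continuous_norm.aestronglyMeasurable) ?_
  filter_upwards with w
  rw [norm_mul, Real.norm_of_nonneg (gam_pos w), norm_norm]
  have h1 := mul_le_mul_of_nonneg_left (nrm_le w) (gam_pos w)
  refine h1.trans (le_of_eq ?_)
  unfold gam
  have h2 : Real.exp (-(w.1 ^ 2 + w.2 ^ 2) / 4) * Real.exp ((w.1 ^ 2 + w.2 ^ 2) / 8) =
      Real.exp (-(1 / 8 * (w.1 ^ 2 + w.2 ^ 2))) := by
    rw [← Real.exp_add]
    ring_nf
  rw [← h2]
  ring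

theorem lip_cont {g : ℝ × ℝ → ℝ} {C : ℝ} (hg : ∀ z w : ℝ × ℝ, |g z - g w| ≤ C * ‖z - w‖) :
    Continuous g ∧ 0 ≤ C := by
  have hC : 0 ≤ C := by
    have h := hg (1, 0) 0
    have h2 : ‖((1, 0) : ℝ × ℝ) - 0‖ = 1 := by simp [Prod.norm_def]
    rw [h2] at h
    linarith [abs_nonneg (g (1, 0) - g 0)]
  refine ⟨?_, hC⟩
  have : LipschitzWith ⟨C, hC⟩ g := by
    apply LipschitzWith.of_dist_le_mul
    intro z w
    rw [Real.dist_eq, dist_eq_norm]
    exact hg z w
  exact this.continuous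

theorem HU_close {g : ℝ × ℝ → ℝ} {C : ℝ} (hg : ∀ z w : ℝ × ℝ, |g z - g w| ≤ C * ‖z - w‖)
    (t x y : ℝ) : |HU g t x y - g (x, y)| ≤ C * Real.sqrt t * ∫ w, gam w * ‖w‖ := by
  obtain ⟨hgc, hC⟩ := lip_cont hg
  have hs : 0 ≤ Real.sqrt t := Real.sqrt_nonneg t
  have hcont : Continuous (fun w : ℝ × ℝ => g (x - Real.sqrt t * w.1, y - Real.sqrt t * w.2)) := by
    fun_prop
  have hb : ∀ w : ℝ × ℝ, |g (x - Real.sqrt t * w.1, y - Real.sqrt t * w.2) - g (x, y)| ≤
      C * Real.sqrt t * ‖w‖ := by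
    intro w
    have h := hg (x - Real.sqrt t * w.1, y - Real.sqrt t * w.2) (x, y)
    have h2 : ((x - Real.sqrt t * w.1, y - Real.sqrt t * w.2) : ℝ × ℝ) - (x, y) =
        (-Real.sqrt t) • w := by
      ext <;> simp
    rw [h2, norm_smul, Real.norm_eq_abs, abs_neg, abs_of_nonneg hs] at h
    linarith
  have hdom : Integrable (fun w => gam w * (C * Real.sqrt t * ‖w‖)) := by
    have := gam_nrm_int.const_mul (C * Real.sqrt t)
    refine this.congr ?_
    filter_upwards with w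
    ring
  have hdiff : Integrable (fun w => gam w *
      (g (x - Real.sqrt t * w.1, y - Real.sqrt t * w.2) - g (x, y))) := by
    refine hdom.mono' (gam_int.aestronglyMeasurable.mul
      (hcont.sub continuous_const).aestronglyMeasurable) ?_
    filter_upwards with w
    rw [norm_mul, Real.norm_of_nonneg (gam_pos w), Real.norm_eq_abs]
    exact mul_le_mul_of_nonneg_left (hb w) (gam_pos w)
  have hconst : Integrable (fun w => gam w * g (x, y)) := gam_int.mul_const _
  have h1 : HU g t x y - g (x, y) = ∫ w, gam w *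
      (g (x - Real.sqrt t * w.1, y - Real.sqrt t * w.2) - g (x, y)) := by
    have h3 : ∫ w, gam w * g (x, y) = g (x, y) := by
      rw [integral_mul_const, gval, one_mul]
    have h4 : HU g t x y = (∫ w, gam w *
      (g (x - Real.sqrt t * w.1, y - Real.sqrt t * w.2) - g (x, y))) + ∫ w, gam w * g (x, y) := by
      rw [← integral_add hdiff hconst]
      unfold HU
      apply integral_congr_ae
      filter_upwards with w
      ring
    rw [h4, h3]
    ring
  rw [h1]
  calc |∫ w, gam w * (g (x - Real.sqrt t * w.1, y - Real.sqrt t * w.2) - g (x, y))|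
      ≤ ∫ w, gam w * (C * Real.sqrt t * ‖w‖) := by
        rw [← Real.norm_eq_abs]
        apply norm_integral_le_of_norm_le hdom
        filter_upwards with w
        rw [norm_mul, Real.norm_of_nonneg (gam_pos w), Real.norm_eq_abs]
        exact mul_le_mul_of_nonneg_left (hb w) (gam_pos w)
    _ = C * Real.sqrt t * ∫ w, gam w * ‖w‖ := by
        rw [← integral_const_mul]
        apply integral_congr_ae
        filter_upwards with w
        ring

theorem t_LTT (h1 : S_HEAT) : S_LTT := by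
  intro g C hg χ hχ hcχ
  obtain ⟨hgc, hC⟩ := lip_cont hg
  obtain ⟨hsm, hder⟩ := h1 g C hg
  have hG : ContDiff ℝ 2 (fun w => χ w ^ 2) := (hχ.of_le (by norm_num)).pow 2
  have hGc : HasCompactSupport (fun w => χ w ^ 2) := by
    have h := hcχ.mul_left (f := χ)
    have h2 : (fun w => χ w ^ 2) = χ * χ := by
      funext w
      simp [pow_two]
    rw [h2]
    exact h
  have hF : ∀ t : ℝ, 0 < t → ContDiff ℝ 2 (fun z : ℝ × ℝ => HU g t z.1 z.2) := by
    intro t ht
    have h2 : ContDiff ℝ 2 (fun z : ℝ × ℝ => ((t, z.1, z.2) : ℝ × ℝ × ℝ)) := by fun_prop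
    have h3 : ContDiffOn ℝ 2 (fun q : ℝ × ℝ × ℝ => HU g q.1 q.2.1 q.2.2) {q | 0 < q.1} :=
      ContDiffOn.of_le hsm (by norm_num)
    exact h3.comp_contDiff h2 (fun z => ht)
  have hlc : Continuous (lap2 χ) ∧ HasCompactSupport (lap2 χ) := by
    have e : lap2 χ = fun z => fderiv ℝ (fun w => fderiv ℝ (fun w => χ w ^ 2) w (1, 0)) z (1, 0) +
        fderiv ℝ (fun w => fderiv ℝ (fun w => χ w ^ 2) w (0, 1)) z (0, 1) := by
      funext z
      unfold lap2
      rw [pxx_eq hG, pyy_eq hG]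
    rw [e]
    constructor
    · exact (((fd_smooth hG _).continuous_fderiv (by norm_num)).clm_apply continuous_const).add
        (((fd_smooth hG _).continuous_fderiv (by norm_num)).clm_apply continuous_const)
    · exact ((hGc.fderiv_apply ℝ _).fderiv_apply ℝ _).add ((hGc.fderiv_apply ℝ _).fderiv_apply ℝ _)
  have hfirst : ∀ t : ℝ, 0 < t → (∫ z : ℝ × ℝ, χ z ^ 2 * HT g t z.1 z.2) =
      ∫ z : ℝ × ℝ, HU g t z.1 z.2 * lap2 χ z := by
    intro t ht
    have hFt := hF t ht
    have cF := hFt.continuous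
    have cF1 : ∀ v : ℝ × ℝ, Continuous (fun z => fderiv ℝ (fun w => fderiv ℝ
        (fun z : ℝ × ℝ => HU g t z.1 z.2) w v) z v) := fun v =>
      ((fd_smooth hFt _).continuous_fderiv (by norm_num)).clm_apply continuous_const
    have cG1 : ∀ v : ℝ × ℝ, Continuous (fun z => fderiv ℝ (fun w => fderiv ℝ
        (fun w => χ w ^ 2) w v) z v) := fun v =>
      ((fd_smooth hG _).continuous_fderiv (by norm_num)).clm_apply continuous_const
    have kG1 : ∀ v : ℝ × ℝ, HasCompactSupport (fun z => fderiv ℝ (fun w => fderiv ℝ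
        (fun w => χ w ^ 2) w v) z v) := fun v => (hGc.fderiv_apply ℝ _).fderiv_apply ℝ _
    have e1 : ∀ z : ℝ × ℝ, χ z ^ 2 * HT g t z.1 z.2 =
        χ z ^ 2 * fderiv ℝ (fun w => fderiv ℝ (fun z : ℝ × ℝ => HU g t z.1 z.2) w (1, 0)) z (1, 0) +
        χ z ^ 2 * fderiv ℝ (fun w => fderiv ℝ (fun z : ℝ × ℝ => HU g t z.1 z.2) w (0, 1)) z (0, 1) := by
      intro z
      rw [← pxx_eq hFt, ← pyy_eq hFt]
      obtain ⟨-, -, h3, h4, -, -⟩ := hder t z.1 z.2 ht
      have h3' : px (px (fun z : ℝ × ℝ => HU g t z.1 z.2)) z =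
          (HT g t z.1 z.2 + HA g t z.1 z.2) / 2 := h3
      have h4' : py (py (fun z : ℝ × ℝ => HU g t z.1 z.2)) z =
          (HT g t z.1 z.2 - HA g t z.1 z.2) / 2 := h4
      rw [h3', h4']
      ring
    have e2 : ∀ z : ℝ × ℝ, HU g t z.1 z.2 * lap2 χ z =
        HU g t z.1 z.2 * fderiv ℝ (fun w => fderiv ℝ (fun w => χ w ^ 2) w (1, 0)) z (1, 0) +
        HU g t z.1 z.2 * fderiv ℝ (fun w => fderiv ℝ (fun w => χ w ^ 2) w (0, 1)) z (0, 1) := by
      intro z
      unfold lap2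
      rw [pxx_eq hG, pyy_eq hG]
      ring
    simp only [e1, e2]
    rw [integral_add, integral_add, ibp hFt hG hGc, ibp hFt hG hGc]
    · exact (cF.mul (cG1 _)).integrable_of_hasCompactSupport (kG1 _).mul_left
    · exact (cF.mul (cG1 _)).integrable_of_hasCompactSupport (kG1 _).mul_left
    · exact (hG.continuous.mul (cF1 _)).integrable_of_hasCompactSupport hGc.mul_right
    · exact (hG.continuous.mul (cF1 _)).integrable_of_hasCompactSupport hGc.mul_right
  refine ⟨hfirst, ?_⟩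
  obtain ⟨M, hM⟩ : ∃ M : ℝ, M = ∫ w, gam w * ‖w‖ := ⟨_, rfl⟩
  obtain ⟨I, hI⟩ : ∃ I : ℝ, I = ∫ z, |lap2 χ z| := ⟨_, rfl⟩
  have hlint : Integrable (lap2 χ) := hlc.1.integrable_of_hasCompactSupport hlc.2
  have hbound : ∀ t : ℝ, 0 < t → |(∫ z : ℝ × ℝ, χ z ^ 2 * HT g t z.1 z.2) -
      ∫ z : ℝ × ℝ, g z * lap2 χ z| ≤ C * M * I * Real.sqrt t := by
    intro t ht
    rw [hfirst t ht]
    have i1 : Integrable (fun z : ℝ × ℝ => HU g t z.1 z.2 * lap2 χ z) :=
      ((hF t ht).continuous.mul hlc.1).integrable_of_hasCompactSupport hlc.2.mul_left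
    have i2 : Integrable (fun z : ℝ × ℝ => g z * lap2 χ z) :=
      (hgc.mul hlc.1).integrable_of_hasCompactSupport hlc.2.mul_left
    rw [← integral_sub i1 i2, ← Real.norm_eq_abs]
    have i3 : Integrable (fun z => C * Real.sqrt t * M * |lap2 χ z|) :=
      hlint.abs.const_mul _
    have := norm_integral_le_of_norm_le (f := fun z : ℝ × ℝ => HU g t z.1 z.2 * lap2 χ z -
      g z * lap2 χ z) i3 (by
        filter_upwards with z
        rw [← sub_mul, norm_mul, Real.norm_eq_abs, Real.norm_eq_abs]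
        apply mul_le_mul_of_nonneg_right _ (abs_nonneg _)
        rw [hM]
        exact HU_close hg t z.1 z.2)
    refine this.trans (le_of_eq ?_)
    rw [integral_const_mul, ← hI]
    ring
  rw [tendsto_iff_norm_sub_tendsto_zero]
  have hlim : Tendsto (fun t : ℝ => C * M * I * Real.sqrt t) (𝓝[>] 0) (𝓝 0) := by
    have h2 : Tendsto (fun t : ℝ => C * M * I * Real.sqrt t) (𝓝 0) (𝓝 (C * M * I * Real.sqrt 0)) :=
      (Real.continuous_sqrt.tendsto 0).const_mul _
    rw [Real.sqrt_zero, mul_zero] at h2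
    exact h2.mono_left nhdsWithin_le_nhds
  refine squeeze_zero' ?_ ?_ hlim
  · filter_upwards with t
    exact norm_nonneg _
  · filter_upwards [self_mem_nhdsWithin] with t ht
    rw [Real.norm_eq_abs]
    exact hbound t ht

end Pool.Agent.W775.WH.LTT
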