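import Pool.Agent.W775.WH.Stm

/-!
Measure theory of the subdifferential: measurability of its range, and the inverse map.
-/

set_option autoImplicit false

open MeasureTheory Set Filter Topology

namespace Pool.Agent.W775.WH.MEAS

/-- the union of the subdifferentials at the points of `B` -/
def VB (Ω : Set (ℝ × ℝ)) (u : ℝ × ℝ → ℝ) (B : Set (ℝ × ℝ)) : Set (ℝ × ℝ) := ⋃ z ∈ B, Sub Ω u z

theorem mem_VB {Ω : Set (ℝ × ℝ)} {u : ℝ × ℝ → ℝ} {B : Set (ℝ × ℝ)} {p : ℝ × ℝ} :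
    p ∈ VB Ω u B ↔ ∃ z ∈ B, p ∈ Sub Ω u z := by
  simp [VB]

theorem VB_compact (h2 : S_LIP) {Ω : Set (ℝ × ℝ)} {u : ℝ × ℝ → ℝ} (ho : IsOpen Ω)
    (hc : ConvexOn ℝ Ω u) {K : Set (ℝ × ℝ)} (hK : IsCompact K) (hKΩ : K ⊆ Ω) :
    IsCompact (VB Ω u K) := by
  obtain ⟨L, hL, hb, hl⟩ := h2 Ω u ho hc K hK hKΩ
  have hu : ContinuousOn u K := by
    have : LipschitzOnWith (Real.toNNReal L) u K := by
      refine LipschitzOnWith.of_dist_le_mul fun a ha b hb' => ?_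
      rw [Real.coe_toNNReal L hL.le, Real.dist_eq, dist_eq_norm]
      exact hl a ha b hb'
    exact this.continuousOn
  have hS : IsCompact (K ×ˢ Metric.closedBall (0 : ℝ × ℝ) L) :=
    hK.prod (isCompact_closedBall _ _)
  have hG : IsClosed {q : (ℝ × ℝ) × (ℝ × ℝ) | q ∈ K ×ˢ Metric.closedBall (0 : ℝ × ℝ) L ∧
      ∀ w ∈ Ω, u q.1 + (q.2.1 * (w.1 - q.1.1) + q.2.2 * (w.2 - q.1.2)) ≤ u w} := by
    have : {q : (ℝ × ℝ) × (ℝ × ℝ) | q ∈ K ×ˢ Metric.closedBall (0 : ℝ × ℝ) L ∧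
        ∀ w ∈ Ω, u q.1 + (q.2.1 * (w.1 - q.1.1) + q.2.2 * (w.2 - q.1.2)) ≤ u w} =
        (K ×ˢ Metric.closedBall (0 : ℝ × ℝ) L) ∩
        ⋂ w ∈ Ω, {q : (ℝ × ℝ) × (ℝ × ℝ) | q ∈ K ×ˢ Metric.closedBall (0 : ℝ × ℝ) L ∧
        u q.1 + (q.2.1 * (w.1 - q.1.1) + q.2.2 * (w.2 - q.1.2)) ≤ u w} := by
      ext q
      simp only [mem_setOf_eq, mem_inter_iff, mem_iInter]
      constructor
      · rintro ⟨h1, h2⟩
        exact ⟨h1, fun w hw => ⟨h1, h2 w hw⟩⟩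
      · rintro ⟨h1, h2⟩
        exact ⟨h1, fun w hw => (h2 w hw).2⟩
    rw [this]
    refine hS.isClosed.inter (isClosed_biInter fun w _ => ?_)
    refine hS.isClosed.isClosed_le ?_ continuousOn_const
    refine ContinuousOn.add ?_ (Continuous.continuousOn (by fun_prop))
    exact hu.comp continuousOn_fst (fun q hq => hq.1)
  have hG2 := hS.of_isClosed_subset hG (fun q hq => hq.1)
  have himg : VB Ω u K = Prod.snd '' {q : (ℝ × ℝ) × (ℝ × ℝ) |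
      q ∈ K ×ˢ Metric.closedBall (0 : ℝ × ℝ) L ∧
      ∀ w ∈ Ω, u q.1 + (q.2.1 * (w.1 - q.1.1) + q.2.2 * (w.2 - q.1.2)) ≤ u w} := by
    ext p
    rw [mem_VB]
    constructor
    · rintro ⟨z, hz, hp⟩
      refine ⟨(z, p), ⟨⟨hz, ?_⟩, hp⟩, rfl⟩
      rw [mem_closedBall_zero_iff]
      exact hb z hz p hp
    · rintro ⟨⟨z, p'⟩, ⟨⟨hz, _⟩, hp⟩, rfl⟩
      exact ⟨z, hz, hp⟩
  rw [himg]
  exact hG2.image continuous_snd

theorem t_MEAS (_h1 : S_NE) (h2 : S_LIP) (h3 : S_STR) (_h4 : S_SEL) : S_MEAS := by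
  classical
  intro l Ω u hl hMA
  have ho := hMA.op
  have hc := hMA.cv
  -- exhaustion
  obtain ⟨K, hK, hKU⟩ : ∃ K : ℕ → Set (ℝ × ℝ), (∀ n, IsCompact (K n)) ∧ ⋃ n, K n = Ω := by
    have : LocallyCompactSpace Ω := ho.locallyCompactSpace
    have h5 : SigmaCompactSpace Ω := inferInstance
    exact isSigmaCompact_iff_sigmaCompactSpace.2 h5
  have hKΩ : ∀ n, K n ⊆ Ω := fun n => by rw [← hKU]; exact subset_iUnion K n
  have hVC : ∀ C : Set (ℝ × ℝ), IsClosed C → MeasurableSet (VB Ω u (Ω ∩ C)) := by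
    intro C hC
    have h5 : VB Ω u (Ω ∩ C) = ⋃ n, VB Ω u (K n ∩ C) := by
      ext p
      rw [mem_VB, mem_iUnion]
      constructor
      · rintro ⟨z, ⟨hz, hzC⟩, hp⟩
        rw [← hKU, mem_iUnion] at hz
        obtain ⟨n, hn⟩ := hz
        exact ⟨n, mem_VB.2 ⟨z, ⟨hn, hzC⟩, hp⟩⟩
      · rintro ⟨n, hn⟩
        obtain ⟨z, ⟨hz, hzC⟩, hp⟩ := mem_VB.1 hn
        exact ⟨z, ⟨hKΩ n hz, hzC⟩, hp⟩
    rw [h5]
    refine MeasurableSet.iUnion fun n => ?_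
    exact (VB_compact h2 ho hc ((hK n).inter_right hC)
      (inter_subset_left.trans (hKΩ n))).isClosed.measurableSet
  have hV : MeasurableSet (⋃ z ∈ Ω, Sub Ω u z) := by
    have h5 := hVC univ isClosed_univ
    rw [inter_univ] at h5
    exact h5
  refine ⟨hV, ?_⟩
  set X : ℝ × ℝ → ℝ × ℝ := fun p => if h : ∃ z ∈ Ω, p ∈ Sub Ω u z then h.choose else 0 with hX
  have hXz : ∀ z ∈ Ω, ∀ p ∈ Sub Ω u z, X p = z := by
    intro z hz p hp
    have h : ∃ z ∈ Ω, p ∈ Sub Ω u z := ⟨z, hz, hp⟩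
    have h5 : X p = h.choose := by rw [hX]; exact dif_pos h
    have h6 := h.choose_spec
    by_contra hne
    rw [h5] at hne
    exact h3 l Ω u hl hMA _ h6.1 z hz hne p h6.2 hp
  have hX0 : ∀ p, p ∉ (⋃ z ∈ Ω, Sub Ω u z) → X p = 0 := by
    intro p hp
    have h : ¬ ∃ z ∈ Ω, p ∈ Sub Ω u z := fun h => hp (mem_VB.2 h)
    rw [hX]
    exact dif_neg h
  have hpre : ∀ B : Set (ℝ × ℝ), X ⁻¹' B ∩ (⋃ z ∈ Ω, Sub Ω u z) = VB Ω u (Ω ∩ B) := by
    intro B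
    ext p
    rw [mem_VB]
    constructor
    · rintro ⟨h5, h6⟩
      obtain ⟨z, hz, hp⟩ := mem_VB.1 h6
      have h7 : X p ∈ B := h5
      rw [hXz z hz p hp] at h7
      exact ⟨z, ⟨hz, h7⟩, hp⟩
    · rintro ⟨z, ⟨hz, hzB⟩, hp⟩
      refine ⟨?_, mem_VB.2 ⟨z, hz, hp⟩⟩
      change X p ∈ B
      rw [hXz z hz p hp]
      exact hzB
  have hXm : Measurable X := by
    refine measurable_of_isClosed fun C hC => ?_
    have h5 : X ⁻¹' C = (X ⁻¹' C ∩ (⋃ z ∈ Ω, Sub Ω u z)) ∪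
        (X ⁻¹' C ∩ (⋃ z ∈ Ω, Sub Ω u z)ᶜ) := by
      rw [← inter_union_distrib_left, union_compl_self, inter_univ]
    rw [h5, hpre C]
    refine (hVC C hC).union ?_
    by_cases h0 : (0 : ℝ × ℝ) ∈ C
    · have h6 : X ⁻¹' C ∩ (⋃ z ∈ Ω, Sub Ω u z)ᶜ = (⋃ z ∈ Ω, Sub Ω u z)ᶜ := by
        refine inter_eq_right.2 fun p hp => ?_
        change X p ∈ C
        rw [hX0 p hp]
        exact h0
      rw [h6]
      exact hV.compl
    · have h6 : X ⁻¹' C ∩ (⋃ z ∈ Ω, Sub Ω u z)ᶜ = ∅ := by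
        rw [eq_empty_iff_forall_notMem]
        rintro p ⟨hp1, hp2⟩
        have h7 : X p ∈ C := hp1
        rw [hX0 p hp2] at h7
        exact h0 h7
      rw [h6]
      exact MeasurableSet.empty
  refine ⟨X, hXm, hXz, ?_⟩
  intro φ hφ
  have hm : ∀ B : Set (ℝ × ℝ), MeasurableSet B →
      ((volume.restrict (⋃ z ∈ Ω, Sub Ω u z)).map X) B = volume (VB Ω u (Ω ∩ B)) := by
    intro B hB
    rw [Measure.map_apply hXm hB, Measure.restrict_apply (hXm hB), hpre B]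
  have hle1 : ENNReal.ofReal l • (volume.restrict Ω : Measure (ℝ × ℝ)) ≤
      (volume.restrict (⋃ z ∈ Ω, Sub Ω u z)).map X := by
    refine Measure.le_iff.2 fun B hB => ?_
    rw [hm B hB, Measure.smul_apply, Measure.restrict_apply hB, smul_eq_mul, inter_comm]
    exact (hMA.bd (Ω ∩ B) (ho.measurableSet.inter hB) inter_subset_left).1
  have hle2 : (volume.restrict (⋃ z ∈ Ω, Sub Ω u z)).map X ≤
      ENNReal.ofReal l⁻¹ • (volume.restrict Ω : Measure (ℝ × ℝ)) := by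
    refine Measure.le_iff.2 fun B hB => ?_
    rw [hm B hB, Measure.smul_apply, Measure.restrict_apply hB, smul_eq_mul, inter_comm B Ω]
    exact (hMA.bd (Ω ∩ B) (ho.measurableSet.inter hB) inter_subset_left).2
  have hint : (∫⁻ p in (⋃ z ∈ Ω, Sub Ω u z), φ (X p)) =
      ∫⁻ z, φ z ∂((volume.restrict (⋃ z ∈ Ω, Sub Ω u z)).map X) := (lintegral_map hφ hXm).symm
  rw [hint]
  constructor
  · have h5 := lintegral_mono' hle1 (le_refl φ)
    rw [lintegral_smul_measure, smul_eq_mul] at h5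
    exact h5
  · have h5 := lintegral_mono' hle2 (le_refl φ)
    rw [lintegral_smul_measure, smul_eq_mul] at h5
    exact h5

end Pool.Agent.W775.WH.MEAS
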