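import Mathlib
import Pool.Agent.W775.WH.Stm

/-!
# Project WH, part MOL: smooth approximation of saddle functions
-/

set_option autoImplicit false

open MeasureTheory Set Filter Topology Pool.Agent.W775.WH
open scoped Convolution

namespace Pool.Agent.W775.WH.MOL

/-! ### second differences -/

lemma sd_lower (f : ℝ → ℝ) (hf : ContDiff ℝ 2 f) (x h m : ℝ) (hh : 0 ≤ h)
    (hm : ∀ s, |s - x| ≤ h → m ≤ deriv (deriv f) s) :
    m * h ^ 2 ≤ f (x + h) + f (x - h) - 2 * f x := by
  have hd1 : Differentiable ℝ f := hf.differentiable (by norm_num)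
  have hd2' : ContDiff ℝ 1 (deriv f) := by
    have h2 : ContDiff ℝ (1 + 1) f := by
      have e : (2 : WithTop ℕ∞) = 1 + 1 := by norm_num
      rwa [← e]
    exact (contDiff_succ_iff_deriv.1 h2).2.2
  have hd2 : Differentiable ℝ (deriv f) := hd2'.differentiable (by norm_num)
  set g : ℝ → ℝ := fun s => f s - m / 2 * s ^ 2 with hg
  have hg1 : deriv g = fun s => deriv f s - m * s := by
    funext s
    have : HasDerivAt g (deriv f s - m / 2 * (2 * s)) s := by
      have h2 := (hasDerivAt_pow 2 s).const_mul (m / 2)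
      simp only [Nat.cast_ofNat, Nat.add_one_sub_one, pow_one] at h2
      exact (hd1 s).hasDerivAt.sub h2
    rw [this.deriv]; ring
  have hg2 : deriv (deriv g) = fun s => deriv (deriv f) s - m := by
    rw [hg1]
    funext s
    have : HasDerivAt (fun s => deriv f s - m * s) (deriv (deriv f) s - m * 1) s :=
      (hd2 s).hasDerivAt.sub ((hasDerivAt_id s).const_mul m)
    rw [this.deriv]; ring
  have hgd : Differentiable ℝ g := by
    simp only [hg]; fun_prop
  have hgd1 : Differentiable ℝ (deriv g) := by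
    rw [hg1]; fun_prop
  have hcv : ConvexOn ℝ (Icc (x - h) (x + h)) g := by
    apply convexOn_of_deriv2_nonneg' (convex_Icc _ _) hgd.differentiableOn hgd1.differentiableOn
    intro s hs
    change 0 ≤ deriv (deriv g) s
    rw [hg2]
    have := hm s (by rw [abs_le]; constructor <;> linarith [hs.1, hs.2])
    simp only
    linarith
  have m1 : x - h ∈ Icc (x - h) (x + h) := ⟨le_rfl, by linarith⟩
  have m2 : x + h ∈ Icc (x - h) (x + h) := ⟨by linarith, le_rfl⟩
  have h1 := hcv.2 m1 m2 (by norm_num : (0 : ℝ) ≤ 1 / 2) (by norm_num : (0 : ℝ) ≤ 1 / 2)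
    (by norm_num)
  simp only [smul_eq_mul, hg] at h1
  have e : 1 / 2 * (x - h) + 1 / 2 * (x + h) = x := by ring
  rw [e] at h1
  nlinarith [h1]

lemma sd_upper (f : ℝ → ℝ) (hf : ContDiff ℝ 2 f) (x h m : ℝ) (hh : 0 ≤ h)
    (hm : ∀ s, |s - x| ≤ h → deriv (deriv f) s ≤ m) :
    f (x + h) + f (x - h) - 2 * f x ≤ m * h ^ 2 := by
  have h1 := sd_lower (fun s => -f s) hf.neg x h (-m) hh (fun s hs => by
    have e1 : deriv (fun s => -f s) = fun s => -deriv f s := by
      funext s; exact deriv.fun_neg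
    rw [e1]
    have e2 : deriv (fun s => -deriv f s) s = -deriv (deriv f) s := deriv.fun_neg
    rw [e2]
    have := hm s hs
    linarith)
  linarith

/-! ### partial derivatives -/

lemma px_eq (w : ℝ × ℝ → ℝ) (hw : Differentiable ℝ w) : px w = fun z => fderiv ℝ w z (1, 0) := by
  funext z
  unfold px
  have h1 : HasDerivAt (fun x : ℝ => ((x, z.2) : ℝ × ℝ)) (1, 0) z.1 :=
    (hasDerivAt_id z.1).prodMk (hasDerivAt_const _ _)
  exact ((hw (z.1, z.2)).hasFDerivAt.comp_hasDerivAt z.1 h1).deriv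

lemma py_eq (w : ℝ × ℝ → ℝ) (hw : Differentiable ℝ w) : py w = fun z => fderiv ℝ w z (0, 1) := by
  funext z
  unfold py
  have h1 : HasDerivAt (fun y : ℝ => ((z.1, y) : ℝ × ℝ)) (0, 1) z.2 :=
    (hasDerivAt_const _ _).prodMk (hasDerivAt_id z.2)
  exact ((hw (z.1, z.2)).hasFDerivAt.comp_hasDerivAt z.2 h1).deriv

lemma px_smooth (w : ℝ × ℝ → ℝ) (n : ℕ) (hw : ContDiff ℝ (n + 1 : ℕ) w) : ContDiff ℝ n (px w) := by
  have hd : Differentiable ℝ w := hw.differentiable (by norm_cast)
  rw [px_eq w hd]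
  exact (hw.fderiv_right (by norm_cast)).clm_apply contDiff_const

lemma py_smooth (w : ℝ × ℝ → ℝ) (n : ℕ) (hw : ContDiff ℝ (n + 1 : ℕ) w) : ContDiff ℝ n (py w) := by
  have hd : Differentiable ℝ w := hw.differentiable (by norm_cast)
  rw [py_eq w hd]
  exact (hw.fderiv_right (by norm_cast)).clm_apply contDiff_const

lemma tent_int (k : ℝ) (hk : 0 ≤ k) : ∫ t in (-k)..k, (k - |t|) = k ^ 2 := by
  have h1 : IntervalIntegrable (fun t : ℝ => k - |t|) volume (-k) 0 :=
    (by fun_prop : Continuous (fun t : ℝ => k - |t|)).intervalIntegrable _ _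
  have h2 : IntervalIntegrable (fun t : ℝ => k - |t|) volume 0 k :=
    (by fun_prop : Continuous (fun t : ℝ => k - |t|)).intervalIntegrable _ _
  rw [← intervalIntegral.integral_add_adjacent_intervals h1 h2]
  have e1 : ∫ t in (-k)..0, (k - |t|) = ∫ t in (-k)..0, (k + t) := by
    apply intervalIntegral.integral_congr
    intro t ht
    rw [uIcc_of_le (by linarith)] at ht
    simp only
    rw [abs_of_nonpos ht.2]; ring
  have e2 : ∫ t in (0 : ℝ)..k, (k - |t|) = ∫ t in (0 : ℝ)..k, (k - t) := by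
    apply intervalIntegral.integral_congr
    intro t ht
    rw [uIcc_of_le hk] at ht
    simp only
    rw [abs_of_nonneg ht.1]
  rw [e1, e2, intervalIntegral.integral_add (Continuous.intervalIntegrable (by fun_prop) _ _)
      (Continuous.intervalIntegrable (by fun_prop) _ _),
    intervalIntegral.integral_sub (Continuous.intervalIntegrable (by fun_prop) _ _)
      (Continuous.intervalIntegrable (by fun_prop) _ _)]
  simp
  ring

/-! ### the infinitesimal inequalities -/

/-- the three pointwise conclusions at a point, from the finite difference inequalities -/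
lemma infin (w : ℝ × ℝ → ℝ) (hw : ContDiff ℝ 4 w) (z : ℝ × ℝ) (l r : ℝ) (hl : 0 < l) (hr : 0 < r)
    (h0 : ∀ h, 0 < h → h ≤ r → 0 ≤ w (z.1 + h, z.2) + w (z.1 - h, z.2) - 2 * w z)
    (h1 : ∀ h k, 0 < h → 0 < k → h ≤ r → k ≤ r →
      l * (∫ t in (-k)..k, (k - |t|) * (w (z.1 + h, z.2 + t) + w (z.1 - h, z.2 + t) -
        2 * w (z.1, z.2 + t))) ≤
      ∫ t in (-h)..h, (h - |t|) * (2 * w (z.1 + t, z.2) - w (z.1 + t, z.2 + k) -
        w (z.1 + t, z.2 - k)))
    (h2 : ∀ h k, 0 < h → 0 < k → h ≤ r → k ≤ r →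
      ∫ t in (-h)..h, (h - |t|) * (2 * w (z.1 + t, z.2) - w (z.1 + t, z.2 + k) -
        w (z.1 + t, z.2 - k)) ≤
      l⁻¹ * (∫ t in (-k)..k, (k - |t|) * (w (z.1 + h, z.2 + t) + w (z.1 - h, z.2 + t) -
        2 * w (z.1, z.2 + t)))) :
    0 ≤ px (px w) z ∧ l * px (px w) z ≤ - py (py w) z ∧ - py (py w) z ≤ l⁻¹ * px (px w) z := by
  have hpx : ContDiff ℝ 2 (px (px w)) := by
    have a1 : ContDiff ℝ (3 : ℕ) (px w) := px_smooth w 3 (by exact_mod_cast hw)
    exact_mod_cast px_smooth (px w) 2 a1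
  have hpy : ContDiff ℝ 2 (py (py w)) := by
    have a1 : ContDiff ℝ (3 : ℕ) (py w) := py_smooth w 3 (by exact_mod_cast hw)
    exact_mod_cast py_smooth (py w) 2 a1
  have hw2 : ContDiff ℝ 2 w := hw.of_le (by norm_num)
  have hcw : Continuous w := hw.continuous
  set A := px (px w) z with hA
  set B := py (py w) z with hB
  have key : ∀ η : ℝ, 0 < η → 0 ≤ A + η ∧ l * (A - η) ≤ -(B - η) ∧ -(B + η) ≤ l⁻¹ * (A + η) := by
    intro η hη
    obtain ⟨δ1, hδ1, hx⟩ := Metric.continuousAt_iff.1 (hpx.continuous.continuousAt (x := z)) η hη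
    obtain ⟨δ2, hδ2, hy⟩ := Metric.continuousAt_iff.1 (hpy.continuous.continuousAt (x := z)) η hη
    set h := min r (min (δ1 / 2) (δ2 / 2)) with hh
    have hpos : 0 < h := by positivity
    have hhr : h ≤ r := min_le_left _ _
    have hh1 : h < δ1 := by
      have : h ≤ δ1 / 2 := (min_le_right _ _).trans (min_le_left _ _)
      linarith
    have hh2 : h < δ2 := by
      have : h ≤ δ2 / 2 := (min_le_right _ _).trans (min_le_right _ _)
      linarith
    have hdist : ∀ p y : ℝ, |p - z.1| ≤ h → |y - z.2| ≤ h → dist ((p, y) : ℝ × ℝ) z ≤ h := by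
      intro p y hp hy
      rw [Prod.dist_eq]
      exact max_le hp hy
    have hX : ∀ p y : ℝ, |p - z.1| ≤ h → |y - z.2| ≤ h →
        A - η ≤ deriv (deriv (fun x => w (x, y))) p ∧ deriv (deriv (fun x => w (x, y))) p ≤ A + η := by
      intro p y hp hy
      have := hx (lt_of_le_of_lt (hdist p y hp hy) hh1)
      rw [Real.dist_eq, abs_lt] at this
      change A - η ≤ px (px w) (p, y) ∧ px (px w) (p, y) ≤ A + η
      constructor <;> linarith [this.1, this.2]
    have hY : ∀ p y : ℝ, |p - z.1| ≤ h → |y - z.2| ≤ h →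
        B - η ≤ deriv (deriv (fun y' => w (p, y'))) y ∧ deriv (deriv (fun y' => w (p, y'))) y ≤ B + η := by
      intro p y hp hy'
      have := hy (lt_of_le_of_lt (hdist p y hp hy') hh2)
      rw [Real.dist_eq, abs_lt] at this
      change B - η ≤ py (py w) (p, y) ∧ py (py w) (p, y) ≤ B + η
      constructor <;> linarith [this.1, this.2]
    have hwx : ∀ y : ℝ, ContDiff ℝ 2 (fun x => w (x, y)) := fun y => by fun_prop
    have hwy : ∀ p : ℝ, ContDiff ℝ 2 (fun y => w (p, y)) := fun p => by fun_prop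
    -- second differences in the first variable
    have dX : ∀ t : ℝ, |t| ≤ h → (A - η) * h ^ 2 ≤ w (z.1 + h, z.2 + t) + w (z.1 - h, z.2 + t) -
        2 * w (z.1, z.2 + t) ∧ w (z.1 + h, z.2 + t) + w (z.1 - h, z.2 + t) -
        2 * w (z.1, z.2 + t) ≤ (A + η) * h ^ 2 := by
      intro t ht
      have ht' : |z.2 + t - z.2| ≤ h := by rwa [add_sub_cancel_left]
      exact ⟨sd_lower (fun x => w (x, z.2 + t)) (hwx _) z.1 h _ hpos.le
          (fun s hs => (hX s (z.2 + t) hs ht').1),
        sd_upper (fun x => w (x, z.2 + t)) (hwx _) z.1 h _ hpos.le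
          (fun s hs => (hX s (z.2 + t) hs ht').2)⟩
    have dY : ∀ t : ℝ, |t| ≤ h → (B - η) * h ^ 2 ≤ w (z.1 + t, z.2 + h) + w (z.1 + t, z.2 - h) -
        2 * w (z.1 + t, z.2) ∧ w (z.1 + t, z.2 + h) + w (z.1 + t, z.2 - h) -
        2 * w (z.1 + t, z.2) ≤ (B + η) * h ^ 2 := by
      intro t ht
      have ht' : |z.1 + t - z.1| ≤ h := by rwa [add_sub_cancel_left]
      exact ⟨sd_lower (fun y => w (z.1 + t, y)) (hwy _) z.2 h _ hpos.le
          (fun s hs => (hY (z.1 + t) s ht' hs).1),
        sd_upper (fun y => w (z.1 + t, y)) (hwy _) z.2 h _ hpos.le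
          (fun s hs => (hY (z.1 + t) s ht' hs).2)⟩
    -- integrals
    have hle : -h ≤ h := by linarith
    have cst : ∀ c : ℝ, ∫ t in (-h)..h, (h - |t|) * c = h ^ 2 * c := by
      intro c
      rw [intervalIntegral.integral_mul_const, tent_int h hpos.le]
    have hnn : ∀ t ∈ Icc (-h) h, 0 ≤ h - |t| ∧ |t| ≤ h := by
      intro t ht
      have := abs_le.2 ⟨ht.1, ht.2⟩
      exact ⟨by linarith, this⟩
    have iX : (A - η) * h ^ 4 ≤ ∫ t in (-h)..h, (h - |t|) * (w (z.1 + h, z.2 + t) +
        w (z.1 - h, z.2 + t) - 2 * w (z.1, z.2 + t)) := by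
      have := intervalIntegral.integral_mono_on (μ := volume) hle
        (f := fun t => (h - |t|) * ((A - η) * h ^ 2))
        (g := fun t => (h - |t|) * (w (z.1 + h, z.2 + t) +
        w (z.1 - h, z.2 + t) - 2 * w (z.1, z.2 + t)))
        (Continuous.intervalIntegrable (by fun_prop) _ _)
        (Continuous.intervalIntegrable (by fun_prop) _ _)
        (fun t ht => mul_le_mul_of_nonneg_left (dX t (hnn t ht).2).1 (hnn t ht).1)
      rw [cst] at this
      linarith
    have iX' : ∫ t in (-h)..h, (h - |t|) * (w (z.1 + h, z.2 + t) +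
        w (z.1 - h, z.2 + t) - 2 * w (z.1, z.2 + t)) ≤ (A + η) * h ^ 4 := by
      have := intervalIntegral.integral_mono_on (μ := volume) hle
        (g := fun t => (h - |t|) * ((A + η) * h ^ 2))
        (f := fun t => (h - |t|) * (w (z.1 + h, z.2 + t) +
        w (z.1 - h, z.2 + t) - 2 * w (z.1, z.2 + t)))
        (Continuous.intervalIntegrable (by fun_prop) _ _)
        (Continuous.intervalIntegrable (by fun_prop) _ _)
        (fun t ht => mul_le_mul_of_nonneg_left (dX t (hnn t ht).2).2 (hnn t ht).1)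
      rw [cst] at this
      linarith
    have iY : ∫ t in (-h)..h, (h - |t|) * (2 * w (z.1 + t, z.2) - w (z.1 + t, z.2 + h) -
        w (z.1 + t, z.2 - h)) ≤ -(B - η) * h ^ 4 := by
      have := intervalIntegral.integral_mono_on (μ := volume) hle
        (g := fun t => (h - |t|) * (-((B - η) * h ^ 2)))
        (f := fun t => (h - |t|) * (2 * w (z.1 + t, z.2) - w (z.1 + t, z.2 + h) -
        w (z.1 + t, z.2 - h)))
        (Continuous.intervalIntegrable (by fun_prop) _ _)
        (Continuous.intervalIntegrable (by fun_prop) _ _)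
        (fun t ht => mul_le_mul_of_nonneg_left (by linarith [(dY t (hnn t ht).2).1]) (hnn t ht).1)
      rw [cst] at this
      linarith
    have iY' : -(B + η) * h ^ 4 ≤ ∫ t in (-h)..h, (h - |t|) * (2 * w (z.1 + t, z.2) -
        w (z.1 + t, z.2 + h) - w (z.1 + t, z.2 - h)) := by
      have := intervalIntegral.integral_mono_on (μ := volume) hle
        (f := fun t => (h - |t|) * (-((B + η) * h ^ 2)))
        (g := fun t => (h - |t|) * (2 * w (z.1 + t, z.2) - w (z.1 + t, z.2 + h) -
        w (z.1 + t, z.2 - h)))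
        (Continuous.intervalIntegrable (by fun_prop) _ _)
        (Continuous.intervalIntegrable (by fun_prop) _ _)
        (fun t ht => mul_le_mul_of_nonneg_left (by linarith [(dY t (hnn t ht).2).2]) (hnn t ht).1)
      rw [cst] at this
      linarith
    have h4 : 0 < h ^ 4 := by positivity
    have hh2' : 0 < h ^ 2 := by positivity
    refine ⟨?_, ?_, ?_⟩
    · have a1 := h0 h hpos hhr
      have a2 := (dX 0 (by rw [abs_zero]; exact hpos.le)).2
      rw [add_zero] at a2
      have a3 : 0 ≤ (A + η) * h ^ 2 := a1.trans a2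
      exact nonneg_of_mul_nonneg_left a3 hh2'
    · have a1 := h1 h h hpos hpos hhr hhr
      have a2 : l * ((A - η) * h ^ 4) ≤ -(B - η) * h ^ 4 :=
        (mul_le_mul_of_nonneg_left iX hl.le).trans (a1.trans iY)
      have a3 : (l * (A - η)) * h ^ 4 ≤ (-(B - η)) * h ^ 4 := by linarith
      exact le_of_mul_le_mul_right a3 h4
    · have a1 := h2 h h hpos hpos hhr hhr
      have a2 : -(B + η) * h ^ 4 ≤ l⁻¹ * ((A + η) * h ^ 4) :=
        (iY'.trans a1).trans (mul_le_mul_of_nonneg_left iX' (by positivity))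
      have a3 : (-(B + η)) * h ^ 4 ≤ (l⁻¹ * (A + η)) * h ^ 4 := by linarith
      exact le_of_mul_le_mul_right a3 h4
  refine ⟨?_, ?_, ?_⟩
  · apply le_of_forall_pos_le_add
    intro η hη
    exact (key η hη).1
  · apply le_of_forall_pos_le_add
    intro η hη
    have := (key (η / (1 + l)) (by positivity)).2.1
    have e : η / (1 + l) * (1 + l) = η := by field_simp
    nlinarith
  · apply le_of_forall_pos_le_add
    intro η hη
    have hl' : 0 < l⁻¹ := by positivity
    have := (key (η / (1 + l⁻¹)) (by positivity)).2.2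
    have e : η / (1 + l⁻¹) * (1 + l⁻¹) = η := by field_simp
    nlinarith

/-! ### truncation -/

/-- clamp to the interval of half length `r` around `c` -/
noncomputable def cl (c r x : ℝ) : ℝ := max (c - r) (min x (c + r))

lemma cl_lip (c r x y : ℝ) : |cl c r x - cl c r y| ≤ |x - y| := by
  unfold cl
  refine (abs_max_sub_max_le_max _ _ _ _).trans ?_
  rw [sub_self, abs_zero]
  refine max_le (abs_nonneg _) ?_
  refine (abs_min_sub_min_le_max _ _ _ _).trans ?_
  rw [sub_self, abs_zero]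
  exact max_le le_rfl (abs_nonneg _)

lemma cl_mem (c r x : ℝ) (hr : 0 ≤ r) : |cl c r x - c| ≤ r := by
  unfold cl
  rw [abs_le]
  constructor
  · have := le_max_left (c - r) (min x (c + r)); linarith
  · have : max (c - r) (min x (c + r)) ≤ c + r := max_le (by linarith) (min_le_right _ _)
    linarith

lemma cl_self (c r x : ℝ) (h : |x - c| ≤ r) : cl c r x = x := by
  unfold cl
  rw [abs_le] at h
  rw [min_eq_left (by linarith), max_eq_right (by linarith)]

/-- the extension -/
noncomputable def vt (v : ℝ → ℝ → ℝ) (p0 y0 r : ℝ) (z : ℝ × ℝ) : ℝ := v (cl p0 r z.1) (cl y0 r z.2)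

section
variable {l L r p0 y0 : ℝ} {v : ℝ → ℝ → ℝ}

lemma vt_lip (hr : 0 < r) (hv : Sad l L r p0 y0 v) (hL : 0 < L) (z z' : ℝ × ℝ) :
    |vt v p0 y0 r z - vt v p0 y0 r z'| ≤ L * (|z.1 - z'.1| + |z.2 - z'.2|) := by
  unfold vt
  refine (hv.lip _ _ _ _ (cl_mem _ _ _ hr.le) (cl_mem _ _ _ hr.le) (cl_mem _ _ _ hr.le)
    (cl_mem _ _ _ hr.le)).trans ?_
  exact mul_le_mul_of_nonneg_left (add_le_add (cl_lip _ _ _ _) (cl_lip _ _ _ _)) hL.le

lemma vt_cont (hr : 0 < r) (hv : Sad l L r p0 y0 v) (hL : 0 < L) : Continuous (vt v p0 y0 r) := by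
  have h1 : LipschitzWith (2 * L).toNNReal (vt v p0 y0 r) := by
    apply LipschitzWith.of_dist_le_mul
    intro z z'
    rw [Real.dist_eq, Real.coe_toNNReal _ (by positivity)]
    refine (vt_lip hr hv hL z z').trans ?_
    have a1 : |z.1 - z'.1| ≤ dist z z' := by
      rw [Prod.dist_eq]; exact le_max_left _ _
    have a2 : |z.2 - z'.2| ≤ dist z z' := by
      rw [Prod.dist_eq]; exact le_max_right _ _
    nlinarith
  exact h1.continuous

lemma vt_bdd (hr : 0 < r) (hv : Sad l L r p0 y0 v) (hL : 0 < L) (z : ℝ × ℝ) :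
    |vt v p0 y0 r z| ≤ |v p0 y0| + 2 * L * r := by
  have h1 := hv.lip _ _ p0 y0 (cl_mem p0 r z.1 hr.le) (cl_mem y0 r z.2 hr.le)
    (by rw [sub_self, abs_zero]; exact hr.le) (by rw [sub_self, abs_zero]; exact hr.le)
  have h2 := cl_mem p0 r z.1 hr.le
  have h3 := cl_mem y0 r z.2 hr.le
  have h4 : |vt v p0 y0 r z| ≤ |v p0 y0| + |vt v p0 y0 r z - v p0 y0| := by
    have := abs_sub_abs_le_abs_sub (vt v p0 y0 r z) (v p0 y0)
    linarith
  refine h4.trans ?_
  unfold vt
  have h5 : L * (|cl p0 r z.1 - p0| + |cl y0 r z.2 - y0|) ≤ L * (r + r) :=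
    mul_le_mul_of_nonneg_left (add_le_add h2 h3) hL.le
  linarith

lemma vt_eq (z : ℝ × ℝ) (h1 : |z.1 - p0| ≤ r) (h2 : |z.2 - y0| ≤ r) :
    vt v p0 y0 r z = v z.1 z.2 := by
  unfold vt
  rw [cl_self _ _ _ h1, cl_self _ _ _ h2]

end

/-! ### Fubini -/

lemma fub (φ : ℝ × ℝ → ℝ) (hφ : Continuous φ) (hφc : HasCompactSupport φ) (K : ℝ → ℝ)
    (hK : Continuous K) (G : ℝ → ℝ × ℝ → ℝ) (hG : Continuous (fun q : ℝ × (ℝ × ℝ) => G q.1 q.2))
    (M : ℝ) (hM : ∀ s t, |G s t| ≤ M) (a b : ℝ) (hab : a ≤ b) :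
    (∫ s in a..b, K s * ∫ t, φ t * G s t) = (∫ t, φ t * ∫ s in a..b, K s * G s t) ∧
      Integrable (fun t => φ t * ∫ s in a..b, K s * G s t) := by
  have hφi : Integrable φ := hφ.integrable_of_hasCompactSupport hφc
  have hKi : Integrable K (volume.restrict (Ioc a b)) :=
    (hK.integrableOn_Icc (a := a) (b := b)).mono_set Ioc_subset_Icc_self
  have hF : Integrable (fun q : ℝ × (ℝ × ℝ) => K q.1 * (φ q.2 * G q.1 q.2))
      ((volume.restrict (Ioc a b)).prod volume) := by
    have h1 := (hKi.norm.mul_const M).mul_prod hφi.norm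
    refine h1.mono' ?_ (Eventually.of_forall fun q => ?_)
    · apply Continuous.aestronglyMeasurable
      fun_prop
    · rw [norm_mul, norm_mul]
      have h2 : ‖G q.1 q.2‖ ≤ M := hM _ _
      calc ‖K q.1‖ * (‖φ q.2‖ * ‖G q.1 q.2‖) ≤ ‖K q.1‖ * (‖φ q.2‖ * M) :=
            mul_le_mul_of_nonneg_left (mul_le_mul_of_nonneg_left h2 (norm_nonneg _)) (norm_nonneg _)
        _ = ‖K q.1‖ * M * ‖φ q.2‖ := by ring
  have hin : ∀ t, ∫ s in Ioc a b, K s * (φ t * G s t) = φ t * ∫ s in a..b, K s * G s t := by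
    intro t
    rw [intervalIntegral.integral_of_le hab, ← integral_const_mul]
    congr 1
    funext s
    ring
  constructor
  · rw [intervalIntegral.integral_of_le hab]
    calc ∫ s in Ioc a b, K s * ∫ t, φ t * G s t = ∫ s in Ioc a b, ∫ t, K s * (φ t * G s t) := by
          congr 1
          funext s
          rw [integral_const_mul]
      _ = ∫ t, ∫ s in Ioc a b, K s * (φ t * G s t) := integral_integral_swap hF
      _ = _ := by simp_rw [hin]
  · have h3 := hF.integral_prod_right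
    simp_rw [hin] at h3
    exact h3

theorem t_MOL : S_MOL := by
  intro l L r p0 y0 v hl hl1 hL hr hv ε hε hεr
  let bmp : ContDiffBump (0 : ℝ × ℝ) := ⟨ε / 2, ε, by positivity, by linarith⟩
  set φ : ℝ × ℝ → ℝ := bmp.normed volume with hφ
  have hφnn : ∀ t, 0 ≤ φ t := fun t => bmp.nonneg_normed t
  have hφc : Continuous φ := bmp.continuous_normed
  have hφs : HasCompactSupport φ := bmp.hasCompactSupport_normed
  have hφsupp : ∀ t, φ t ≠ 0 → |t.1| < ε ∧ |t.2| < ε := by
    intro t ht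
    have h1 : t ∈ Function.support φ := ht
    rw [hφ, bmp.support_normed_eq] at h1
    have h2 : dist t 0 < ε := h1
    rw [Prod.dist_eq, max_lt_iff] at h2
    simpa [Real.dist_eq] using h2
  have hφint : ∫ t, φ t = 1 := bmp.integral_normed
  have hφi : Integrable φ := hφc.integrable_of_hasCompactSupport hφs
  set V := vt v p0 y0 r with hV
  have hVc : Continuous V := vt_cont hr hv hL
  have hVb : ∀ z, |V z| ≤ |v p0 y0| + 2 * L * r := vt_bdd hr hv hL
  set M := |v p0 y0| + 2 * L * r with hM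
  set w : ℝ × ℝ → ℝ := fun z => ∫ t, φ t * V (z - t) with hw
  have hi : ∀ z, Integrable (fun t => φ t * V (z - t)) := by
    intro z
    apply Continuous.integrable_of_hasCompactSupport (by fun_prop)
    exact hφs.mul_right
  have hwsm : ContDiff ℝ 4 w := by
    have h1 : ContDiff ℝ 4 (φ ⋆[ContinuousLinearMap.lsmul ℝ ℝ, volume] V) :=
      hφs.contDiff_convolution_left _ bmp.contDiff_normed hVc.locallyIntegrable
    exact h1
  have hwlip : ∀ z z', |w z - w z'| ≤ L * (|z.1 - z'.1| + |z.2 - z'.2|) := by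
    intro z z'
    simp only [hw]
    rw [← integral_sub (hi z) (hi z')]
    refine (abs_integral_le_integral_abs).trans ?_
    calc ∫ t, |φ t * V (z - t) - φ t * V (z' - t)| ≤
          ∫ t, φ t * (L * (|z.1 - z'.1| + |z.2 - z'.2|)) := by
          apply integral_mono ((hi z).sub (hi z')).abs (hφi.mul_const _)
          intro t
          change |φ t * V (z - t) - φ t * V (z' - t)| ≤ _
          rw [← mul_sub, abs_mul, abs_of_nonneg (hφnn t)]
          refine mul_le_mul_of_nonneg_left ?_ (hφnn t)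
          have := vt_lip hr hv hL (z - t) (z' - t)
          simpa using this
      _ = _ := by rw [integral_mul_const, hφint, one_mul]
  refine ⟨w, hwsm, fun z hz1 hz2 => ?_⟩
  have hVz : V z = v z.1 z.2 := vt_eq z (by linarith) (by linarith)
  have hdiff : |w z - v z.1 z.2| ≤ 2 * L * ε := by
    have e1 : w z - v z.1 z.2 = ∫ t, (φ t * V (z - t) - φ t * V z) := by
      rw [integral_sub (hi z) (hφi.mul_const _), integral_mul_const, hφint, one_mul, hVz]
    rw [e1]
    refine (abs_integral_le_integral_abs).trans ?_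
    calc ∫ t, |φ t * V (z - t) - φ t * V z| ≤ ∫ t, φ t * (L * (ε + ε)) := by
          apply integral_mono ((hi z).sub (hφi.mul_const _)).abs (hφi.mul_const _)
          intro t
          change |φ t * V (z - t) - φ t * V z| ≤ φ t * (L * (ε + ε))
          rw [← mul_sub, abs_mul, abs_of_nonneg (hφnn t)]
          by_cases ht : φ t = 0
          · rw [ht, zero_mul, zero_mul]
          · refine mul_le_mul_of_nonneg_left ?_ (hφnn t)
            have h1 := vt_lip hr hv hL (z - t) z
            have h2 := hφsupp t ht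
            refine h1.trans (mul_le_mul_of_nonneg_left ?_ hL.le)
            have a1 : |(z - t).1 - z.1| = |t.1| := by
              simp
            have a2 : |(z - t).2 - z.2| = |t.2| := by
              simp
            rw [a1, a2]
            linarith [h2.1, h2.2]
      _ = _ := by rw [integral_mul_const, hφint]; ring
  have hpxw : |px w z| ≤ L := by
    have h1 : LipschitzWith L.toNNReal (fun x => w (x, z.2)) := by
      apply LipschitzWith.of_dist_le_mul
      intro x x'
      rw [Real.dist_eq, Real.dist_eq, Real.coe_toNNReal _ hL.le]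
      have := hwlip (x, z.2) (x', z.2)
      simpa using this
    have h2 := norm_deriv_le_of_lipschitz (x₀ := z.1) h1
    rw [Real.coe_toNNReal _ hL.le] at h2
    exact h2
  have hpyw : |py w z| ≤ L := by
    have h1 : LipschitzWith L.toNNReal (fun y => w (z.1, y)) := by
      apply LipschitzWith.of_dist_le_mul
      intro x x'
      rw [Real.dist_eq, Real.dist_eq, Real.coe_toNNReal _ hL.le]
      have := hwlip (z.1, x) (z.1, x')
      simpa using this
    have h2 := norm_deriv_le_of_lipschitz (x₀ := z.2) h1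
    rw [Real.coe_toNNReal _ hL.le] at h2
    exact h2
  -- second differences of `w`
  have comb : ∀ a b c : ℝ × ℝ, w a + w b - 2 * w c =
      ∫ t, φ t * (V (a - t) + V (b - t) - 2 * V (c - t)) := by
    intro a b c
    have h1 : Integrable (fun t => φ t * V (a - t) + φ t * V (b - t)) := (hi a).add (hi b)
    have h2 := integral_sub h1 ((hi c).const_mul 2)
    have h3 := integral_add (hi a) (hi b)
    rw [integral_const_mul, h3] at h2
    change (∫ t, φ t * V (a - t)) + (∫ t, φ t * V (b - t)) - 2 * (∫ t, φ t * V (c - t)) = _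
    rw [← h2]
    congr 1
    funext t
    ring
  have hGX : ∀ h s : ℝ, w (z.1 + h, z.2 + s) + w (z.1 - h, z.2 + s) - 2 * w (z.1, z.2 + s) =
      ∫ t, φ t * (V (z.1 - t.1 + h, z.2 - t.2 + s) + V (z.1 - t.1 - h, z.2 - t.2 + s) -
        2 * V (z.1 - t.1, z.2 - t.2 + s)) := by
    intro h s
    rw [comb]
    congr 1
    funext t
    have a1 : ((z.1 + h, z.2 + s) : ℝ × ℝ) - t = (z.1 - t.1 + h, z.2 - t.2 + s) := by
      ext <;> simp <;> ring
    have a2 : ((z.1 - h, z.2 + s) : ℝ × ℝ) - t = (z.1 - t.1 - h, z.2 - t.2 + s) := by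
      ext <;> simp <;> ring
    have a3 : ((z.1, z.2 + s) : ℝ × ℝ) - t = (z.1 - t.1, z.2 - t.2 + s) := by
      ext <;> simp <;> ring
    rw [a1, a2, a3]
  have hGY : ∀ k s : ℝ, 2 * w (z.1 + s, z.2) - w (z.1 + s, z.2 + k) - w (z.1 + s, z.2 - k) =
      ∫ t, φ t * (2 * V (z.1 - t.1 + s, z.2 - t.2) - V (z.1 - t.1 + s, z.2 - t.2 + k) -
        V (z.1 - t.1 + s, z.2 - t.2 - k)) := by
    intro k s
    have e0 : 2 * w (z.1 + s, z.2) - w (z.1 + s, z.2 + k) - w (z.1 + s, z.2 - k) =
      -(w (z.1 + s, z.2 + k) + w (z.1 + s, z.2 - k) - 2 * w (z.1 + s, z.2)) := by ring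
    rw [e0, comb, ← integral_neg]
    congr 1
    funext t
    have a1 : ((z.1 + s, z.2) : ℝ × ℝ) - t = (z.1 - t.1 + s, z.2 - t.2) := by
      ext <;> simp <;> ring
    have a2 : ((z.1 + s, z.2 + k) : ℝ × ℝ) - t = (z.1 - t.1 + s, z.2 - t.2 + k) := by
      ext <;> simp <;> ring
    have a3 : ((z.1 + s, z.2 - k) : ℝ × ℝ) - t = (z.1 - t.1 + s, z.2 - t.2 - k) := by
      ext <;> simp <;> ring
    rw [a1, a2, a3]
    ring
  -- the shifted points
  have hsh : ∀ t, φ t ≠ 0 → |z.1 - t.1 - p0| ≤ 3 * r / 4 ∧ |z.2 - t.2 - y0| ≤ 3 * r / 4 := by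
    intro t ht
    obtain ⟨b1, b2⟩ := hφsupp t ht
    rw [abs_lt] at b1 b2
    rw [abs_le] at hz1 hz2
    constructor <;> rw [abs_le] <;> constructor <;> linarith [hz1.1, hz1.2, hz2.1, hz2.2, b1.1,
      b1.2, b2.1, b2.2]
  have hIX : ∀ h k : ℝ, 0 < k →
      (∫ s in (-k)..k, (k - |s|) * (w (z.1 + h, z.2 + s) + w (z.1 - h, z.2 + s) -
        2 * w (z.1, z.2 + s))) = (∫ t, φ t * ∫ s in (-k)..k, (k - |s|) *
          (V (z.1 - t.1 + h, z.2 - t.2 + s) + V (z.1 - t.1 - h, z.2 - t.2 + s) -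
            2 * V (z.1 - t.1, z.2 - t.2 + s))) ∧
      Integrable (fun t : ℝ × ℝ => φ t * ∫ s in (-k)..k, (k - |s|) *
          (V (z.1 - t.1 + h, z.2 - t.2 + s) + V (z.1 - t.1 - h, z.2 - t.2 + s) -
            2 * V (z.1 - t.1, z.2 - t.2 + s))) := by
    intro h k hk
    simp_rw [hGX]
    apply fub φ hφc hφs (fun s => k - |s|) (by fun_prop) (fun s t =>
      V (z.1 - t.1 + h, z.2 - t.2 + s) + V (z.1 - t.1 - h, z.2 - t.2 + s) -
            2 * V (z.1 - t.1, z.2 - t.2 + s)) (by fun_prop) (4 * M) _ (-k) k (by linarith)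
    intro s t
    have b1 := abs_le.1 (hVb (z.1 - t.1 + h, z.2 - t.2 + s))
    have b2 := abs_le.1 (hVb (z.1 - t.1 - h, z.2 - t.2 + s))
    have b3 := abs_le.1 (hVb (z.1 - t.1, z.2 - t.2 + s))
    rw [abs_le]
    constructor <;> linarith [b1.1, b1.2, b2.1, b2.2, b3.1, b3.2]
  have hIY : ∀ h k : ℝ, 0 < h →
      (∫ s in (-h)..h, (h - |s|) * (2 * w (z.1 + s, z.2) - w (z.1 + s, z.2 + k) -
        w (z.1 + s, z.2 - k))) = (∫ t, φ t * ∫ s in (-h)..h, (h - |s|) *
          (2 * V (z.1 - t.1 + s, z.2 - t.2) - V (z.1 - t.1 + s, z.2 - t.2 + k) -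
        V (z.1 - t.1 + s, z.2 - t.2 - k))) ∧
      Integrable (fun t : ℝ × ℝ => φ t * ∫ s in (-h)..h, (h - |s|) *
          (2 * V (z.1 - t.1 + s, z.2 - t.2) - V (z.1 - t.1 + s, z.2 - t.2 + k) -
        V (z.1 - t.1 + s, z.2 - t.2 - k))) := by
    intro h k hh
    simp_rw [hGY]
    apply fub φ hφc hφs (fun s => h - |s|) (by fun_prop) (fun s t =>
      2 * V (z.1 - t.1 + s, z.2 - t.2) - V (z.1 - t.1 + s, z.2 - t.2 + k) -
        V (z.1 - t.1 + s, z.2 - t.2 - k)) (by fun_prop) (4 * M) _ (-h) h (by linarith)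
    intro s t
    have b1 := abs_le.1 (hVb (z.1 - t.1 + s, z.2 - t.2))
    have b2 := abs_le.1 (hVb (z.1 - t.1 + s, z.2 - t.2 + k))
    have b3 := abs_le.1 (hVb (z.1 - t.1 + s, z.2 - t.2 - k))
    rw [abs_le]
    constructor <;> linarith [b1.1, b1.2, b2.1, b2.2, b3.1, b3.2]
  -- the inner integrals in terms of `v`
  have hvX : ∀ h k : ℝ, 0 < h → 0 < k → h ≤ r / 4 → k ≤ r / 4 → ∀ t, φ t ≠ 0 →
      (∫ s in (-k)..k, (k - |s|) * (V (z.1 - t.1 + h, z.2 - t.2 + s) +
        V (z.1 - t.1 - h, z.2 - t.2 + s) - 2 * V (z.1 - t.1, z.2 - t.2 + s))) =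
      ∫ s in (-k)..k, (k - |s|) * (v (z.1 - t.1 + h) (z.2 - t.2 + s) +
        v (z.1 - t.1 - h) (z.2 - t.2 + s) - 2 * v (z.1 - t.1) (z.2 - t.2 + s)) := by
    intro h k hh hk hhr hkr t ht
    obtain ⟨b1, b2⟩ := hsh t ht
    rw [abs_le] at b1 b2
    apply intervalIntegral.integral_congr
    intro s hs
    rw [uIcc_of_le (by linarith)] at hs
    simp only
    rw [hV, vt_eq _ (by simp only; rw [abs_le]; constructor <;> linarith [b1.1, b1.2])
        (by simp only; rw [abs_le]; constructor <;> linarith [b2.1, b2.2, hs.1, hs.2]),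
      vt_eq _ (by simp only; rw [abs_le]; constructor <;> linarith [b1.1, b1.2])
        (by simp only; rw [abs_le]; constructor <;> linarith [b2.1, b2.2, hs.1, hs.2]),
      vt_eq _ (by simp only; rw [abs_le]; constructor <;> linarith [b1.1, b1.2])
        (by simp only; rw [abs_le]; constructor <;> linarith [b2.1, b2.2, hs.1, hs.2])]
  have hvY : ∀ h k : ℝ, 0 < h → 0 < k → h ≤ r / 4 → k ≤ r / 4 → ∀ t, φ t ≠ 0 →
      (∫ s in (-h)..h, (h - |s|) * (2 * V (z.1 - t.1 + s, z.2 - t.2) -
        V (z.1 - t.1 + s, z.2 - t.2 + k) - V (z.1 - t.1 + s, z.2 - t.2 - k))) =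
      ∫ s in (-h)..h, (h - |s|) * (2 * v (z.1 - t.1 + s) (z.2 - t.2) -
        v (z.1 - t.1 + s) (z.2 - t.2 + k) - v (z.1 - t.1 + s) (z.2 - t.2 - k)) := by
    intro h k hh hk hhr hkr t ht
    obtain ⟨b1, b2⟩ := hsh t ht
    rw [abs_le] at b1 b2
    apply intervalIntegral.integral_congr
    intro s hs
    rw [uIcc_of_le (by linarith)] at hs
    simp only
    rw [hV, vt_eq _ (by simp only; rw [abs_le]; constructor <;> linarith [b1.1, b1.2, hs.1, hs.2])
        (by simp only; rw [abs_le]; constructor <;> linarith [b2.1, b2.2]),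
      vt_eq _ (by simp only; rw [abs_le]; constructor <;> linarith [b1.1, b1.2, hs.1, hs.2])
        (by simp only; rw [abs_le]; constructor <;> linarith [b2.1, b2.2]),
      vt_eq _ (by simp only; rw [abs_le]; constructor <;> linarith [b1.1, b1.2, hs.1, hs.2])
        (by simp only; rw [abs_le]; constructor <;> linarith [b2.1, b2.2])]
  have hfin := infin w hwsm z l (r / 4) hl (by positivity) ?_ ?_ ?_
  · exact ⟨hdiff, hpxw, hpyw, hfin.1, hfin.2.1, hfin.2.2⟩
  · -- convexity
    intro h hh hhr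
    have e := hGX h 0
    simp only [add_zero] at e
    have e2 : w (z.1 + h, z.2) + w (z.1 - h, z.2) - 2 * w z =
      w (z.1 + h, z.2) + w (z.1 - h, z.2) - 2 * w (z.1, z.2) := rfl
    rw [e2, e]
    apply integral_nonneg
    intro t
    simp only [Pi.zero_apply]
    by_cases ht : φ t = 0
    · rw [ht, zero_mul]
    · apply mul_nonneg (hφnn t)
      obtain ⟨b1, b2⟩ := hsh t ht
      rw [abs_le] at b1
      have b2' := abs_le.1 b2
      rw [hV, vt_eq _ (by simp only; rw [abs_le]; constructor <;> linarith [b1.1, b1.2])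
          (by simp only; linarith),
        vt_eq _ (by simp only; rw [abs_le]; constructor <;> linarith [b1.1, b1.2])
          (by simp only; linarith),
        vt_eq _ (by simp only; rw [abs_le]; constructor <;> linarith [b1.1, b1.2])
          (by simp only; linarith)]
      simp only
      have hc := hv.cvx (z.2 - t.2) (by linarith)
      have m1 : z.1 - t.1 + h ∈ Icc (p0 - r) (p0 + r) := ⟨by linarith [b1.1], by linarith [b1.2]⟩
      have m2 : z.1 - t.1 - h ∈ Icc (p0 - r) (p0 + r) := ⟨by linarith [b1.1], by linarith [b1.2]⟩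
      have h1 := hc.2 m1 m2 (by norm_num : (0 : ℝ) ≤ 1 / 2) (by norm_num : (0 : ℝ) ≤ 1 / 2)
        (by norm_num)
      simp only [smul_eq_mul] at h1
      have e3 : 1 / 2 * (z.1 - t.1 + h) + 1 / 2 * (z.1 - t.1 - h) = z.1 - t.1 := by ring
      rw [e3] at h1
      linarith
  · -- lower inequality
    intro h k hh hk hhr hkr
    rw [(hIX h k hk).1, (hIY h k hh).1, ← integral_const_mul]
    apply integral_mono ((hIX h k hk).2.const_mul l) (hIY h k hh).2
    intro t
    simp only
    by_cases ht : φ t = 0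
    · rw [ht, zero_mul, zero_mul, mul_zero]
    · rw [hvX h k hh hk hhr hkr t ht, hvY h k hh hk hhr hkr t ht, mul_left_comm]
      refine mul_le_mul_of_nonneg_left ?_ (hφnn t)
      obtain ⟨b1, b2⟩ := hsh t ht
      exact hv.rl (z.1 - t.1) (z.2 - t.2) h k hh hk (by linarith) (by linarith)
  · -- upper inequality
    intro h k hh hk hhr hkr
    rw [(hIX h k hk).1, (hIY h k hh).1, ← integral_const_mul]
    apply integral_mono (hIY h k hh).2 ((hIX h k hk).2.const_mul l⁻¹)
    intro t
    simp only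
    by_cases ht : φ t = 0
    · rw [ht, zero_mul, zero_mul, mul_zero]
    · rw [hvX h k hh hk hhr hkr t ht, hvY h k hh hk hhr hkr t ht, mul_left_comm]
      refine mul_le_mul_of_nonneg_left ?_ (hφnn t)
      obtain ⟨b1, b2⟩ := hsh t ht
      exact hv.ru (z.1 - t.1) (z.2 - t.2) h k hh hk (by linarith) (by linarith)

end Pool.Agent.W775.WH.MOL
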