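import Pool.Agent.W775.WH.Stm

/-!
Project WH, part NE: subgradients exist and are locally bounded (helper554).
-/

set_option autoImplicit false

open MeasureTheory Set Filter Topology

namespace Pool.Agent.W775.WH.NE

theorem t_NE : S_NE := by
  intro Ω u hO hu a ha
  have hc : ContinuousOn u Ω := hu.continuousOn hO
  set S : Set ((ℝ × ℝ) × ℝ) := {p | p.1 ∈ Ω ∧ u p.1 < p.2} with hS
  have hSc : Convex ℝ S := hu.convex_strict_epigraph
  have hSo : IsOpen S := by
    have h1 : ContinuousOn (fun p : (ℝ × ℝ) × ℝ => p.2 - u p.1) (Prod.fst ⁻¹' Ω) :=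
      continuous_snd.continuousOn.sub (hc.comp continuous_fst.continuousOn fun p hp => hp)
    have h2 := h1.isOpen_inter_preimage (hO.preimage continuous_fst) (isOpen_Ioi (a := (0 : ℝ)))
    convert! h2 using 1
    ext p
    simp only [hS, mem_ofPred_eq, mem_inter_iff, mem_preimage, mem_Ioi, sub_pos]
  have hx : (a, u a) ∉ S := fun h => lt_irrefl _ h.2
  obtain ⟨f, hf⟩ := geometric_hahn_banach_open_point hSc hSo hx
  set c : ℝ := f ((0, 0), 1) with hcd
  have hf1 : ∀ (w : ℝ × ℝ) (t : ℝ), f (w, t) = w.1 * f ((1, 0), 0) + w.2 * f ((0, 1), 0) + t * c := by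
    intro w t
    have e : ((w, t) : (ℝ × ℝ) × ℝ) = w.1 • ((1, 0), 0) + w.2 • ((0, 1), 0) + t • ((0, 0), 1) := by
      ext <;> simp
    rw [e, map_add, map_add, map_smul, map_smul, map_smul]
    simp only [smul_eq_mul, hcd]
  have hc0 : c < 0 := by
    have := hf (a, u a + 1) ⟨ha, by simp⟩
    rw [hf1 a (u a + 1), hf1 a (u a)] at this
    linarith
  refine ⟨(f ((1, 0), 0) / (-c), f ((0, 1), 0) / (-c)), ?_⟩
  intro w hw
  have h3 : ∀ ε : ℝ, 0 < ε → w.1 * f ((1, 0), 0) + w.2 * f ((0, 1), 0) + (u w + ε) * c ≤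
      a.1 * f ((1, 0), 0) + a.2 * f ((0, 1), 0) + u a * c := by
    intro ε hε
    have := hf (w, u w + ε) ⟨hw, by simpa using hε⟩
    rw [hf1 w (u w + ε), hf1 a (u a)] at this
    exact this.le
  have h4 : w.1 * f ((1, 0), 0) + w.2 * f ((0, 1), 0) + u w * c ≤
      a.1 * f ((1, 0), 0) + a.2 * f ((0, 1), 0) + u a * c := by
    apply le_of_forall_pos_le_add
    intro ε hε
    have := h3 (ε / (-c)) (div_pos hε (by linarith))
    have hcn : c ≠ 0 := hc0.ne
    have e : ε / (-c) * c = -ε := by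
      field_simp
    rw [add_mul, e] at this
    linarith
  have hcn : -c ≠ 0 := by linarith
  have h5 : f ((1, 0), 0) / (-c) * (w.1 - a.1) + f ((0, 1), 0) / (-c) * (w.2 - a.2) =
      (f ((1, 0), 0) * (w.1 - a.1) + f ((0, 1), 0) * (w.2 - a.2)) / (-c) := by
    ring
  show u a + (f ((1, 0), 0) / (-c) * (w.1 - a.1) + f ((0, 1), 0) / (-c) * (w.2 - a.2)) ≤ u w
  rw [h5]
  have h6 : (f ((1, 0), 0) * (w.1 - a.1) + f ((0, 1), 0) * (w.2 - a.2)) / (-c) ≤ u w - u a := by
    rw [div_le_iff₀ (by linarith)]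
    nlinarith
  linarith

theorem t_LIP : S_LIP := by
  intro Ω u hO hu K hK hKO
  have hc : ContinuousOn u Ω := hu.continuousOn hO
  obtain ⟨ε, hε, hsub⟩ := hK.exists_cthickening_subset_open hO hKO
  have hK' : IsCompact (Metric.cthickening ε K) := hK.cthickening
  obtain ⟨M, hM⟩ := hK'.exists_bound_of_continuousOn (hc.mono hsub)
  have hmem : ∀ a ∈ K, ∀ w : ℝ × ℝ, dist w a ≤ ε → w ∈ Metric.cthickening ε K := by
    intro a ha w hw
    exact Metric.mem_cthickening_of_dist_le w a ε K ha hw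
  have hM' : ∀ a ∈ K, ∀ w : ℝ × ℝ, dist w a ≤ ε → |u w| ≤ M := fun a ha w hw =>
    hM w (hmem a ha w hw)
  have hsl : ∀ a ∈ K, ∀ p ∈ Sub Ω u a, ‖p‖ ≤ 2 * M / ε := by
    intro a ha p hp
    have hMa := abs_le.1 (hM' a ha a (by simpa using hε.le))
    have key : ∀ (w : ℝ × ℝ), dist w a ≤ ε → p.1 * (w.1 - a.1) + p.2 * (w.2 - a.2) ≤ 2 * M := by
      intro w hw
      have h1 := hp w (hsub (hmem a ha w hw))
      have h2 := abs_le.1 (hM' a ha w hw)
      linarith [h2.2, hMa.1]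
    have hd : ∀ x y : ℝ, |x| ≤ ε → |y| ≤ ε → dist ((a.1 + x, a.2 + y) : ℝ × ℝ) a ≤ ε := by
      intro x y hx hy
      rw [Prod.dist_eq, Real.dist_eq, Real.dist_eq]
      simp only [add_sub_cancel_left]
      exact max_le hx hy
    have e0 : |(0 : ℝ)| ≤ ε := by simpa using hε.le
    have e1 : |ε| ≤ ε := by rw [abs_of_pos hε]
    have e2 : |-ε| ≤ ε := by rw [abs_neg, abs_of_pos hε]
    have k1 := key _ (hd ε 0 e1 e0)
    have k2 := key _ (hd (-ε) 0 e2 e0)
    have k3 := key _ (hd 0 ε e0 e1)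
    have k4 := key _ (hd 0 (-ε) e0 e2)
    simp only [add_sub_cancel_left, mul_zero, add_zero, zero_add] at k1 k2 k3 k4
    rw [Prod.norm_def]
    refine max_le ?_ ?_
    · rw [Real.norm_eq_abs, le_div_iff₀ hε]
      rcases abs_cases p.1 with ⟨h, _⟩ | ⟨h, _⟩ <;> rw [h] <;> linarith
    · rw [Real.norm_eq_abs, le_div_iff₀ hε]
      rcases abs_cases p.2 with ⟨h, _⟩ | ⟨h, _⟩ <;> rw [h] <;> linarith
  refine ⟨2 * |2 * M / ε| + 1, by positivity, ?_, ?_⟩
  · intro a ha p hp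
    have h1 := hsl a ha p hp
    have h2 := le_abs_self (2 * M / ε)
    have h3 := abs_nonneg (2 * M / ε)
    linarith
  · have one : ∀ a ∈ K, ∀ a' ∈ K, u a - u a' ≤ (2 * |2 * M / ε| + 1) * ‖a - a'‖ := by
      intro a ha a' ha'
      obtain ⟨p, hp⟩ := t_NE Ω u hO hu a (hKO ha)
      have h1 := hp a' (hKO ha')
      have h2 := (hsl a ha p hp).trans (le_abs_self _)
      have h3 : ‖p.1‖ ≤ ‖p‖ := norm_fst_le p
      have h4 : ‖p.2‖ ≤ ‖p‖ := norm_snd_le p
      have h5 : ‖(a - a').1‖ ≤ ‖a - a'‖ := norm_fst_le _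
      have h6 : ‖(a - a').2‖ ≤ ‖a - a'‖ := norm_snd_le _
      rw [Real.norm_eq_abs] at h3 h4 h5 h6
      rw [Prod.fst_sub] at h5
      rw [Prod.snd_sub] at h6
      have h7 : p.1 * (a.1 - a'.1) ≤ |2 * M / ε| * ‖a - a'‖ := by
        refine (le_abs_self _).trans ?_
        rw [abs_mul]
        exact mul_le_mul (h3.trans h2) h5 (abs_nonneg _) (abs_nonneg _)
      have h8 : p.2 * (a.2 - a'.2) ≤ |2 * M / ε| * ‖a - a'‖ := by
        refine (le_abs_self _).trans ?_
        rw [abs_mul]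
        exact mul_le_mul (h4.trans h2) h6 (abs_nonneg _) (abs_nonneg _)
      have h9 := norm_nonneg (a - a')
      nlinarith
    intro a ha a' ha'
    rw [abs_le]
    constructor
    · have := one a' ha' a ha
      rw [norm_sub_rev] at this
      linarith
    · exact one a ha a' ha'

end Pool.Agent.W775.WH.NE
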