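import Pool.Agent.W775.WH.Stm

set_option autoImplicit false

open MeasureTheory Set Filter Topology

namespace Pool.Agent.W775.WH.PSD

lemma gam_nonneg (w : ℝ × ℝ) : 0 ≤ gam w := by
  unfold gam; positivity

lemma gam_cont : Continuous gam := by
  unfold gam; fun_prop

lemma gam_eq (w : ℝ × ℝ) : gam w = (4 * Real.pi)⁻¹ *
    (Real.exp (-(1 / 4) * w.1 ^ 2) * Real.exp (-(1 / 4) * w.2 ^ 2)) := by
  unfold gam
  rw [← Real.exp_add]
  congr 2
  ring

lemma int_abs_gauss : Integrable (fun x : ℝ => |x| * Real.exp (-(1 / 4) * x ^ 2)) := by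
  have h := (integrable_mul_exp_neg_mul_sq (b := 1 / 4) (by norm_num)).norm
  refine h.congr (Filter.Eventually.of_forall fun x => ?_)
  simp [Real.abs_exp]

lemma int_gam : Integrable gam := by
  have h := ((integrable_exp_neg_mul_sq (b := 1 / 4) (by norm_num)).mul_prod
    (integrable_exp_neg_mul_sq (b := 1 / 4) (by norm_num))).const_mul ((4 * Real.pi)⁻¹)
  refine h.congr (Filter.Eventually.of_forall fun x => ?_)
  simp only [gam_eq]

lemma int_gam1 : Integrable (fun w : ℝ × ℝ => gam w * |w.1|) := by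
  have h := (int_abs_gauss.mul_prod
    (integrable_exp_neg_mul_sq (b := 1 / 4) (by norm_num))).const_mul ((4 * Real.pi)⁻¹)
  refine h.congr (Filter.Eventually.of_forall fun x => ?_)
  simp only [gam_eq]
  ring

lemma int_gam2 : Integrable (fun w : ℝ × ℝ => gam w * |w.2|) := by
  have h := ((integrable_exp_neg_mul_sq (b := 1 / 4) (by norm_num)).mul_prod
    int_abs_gauss).const_mul ((4 * Real.pi)⁻¹)
  refine h.congr (Filter.Eventually.of_forall fun x => ?_)
  simp only [gam_eq]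
  ring

lemma g_cont {g : ℝ × ℝ → ℝ} {C : ℝ} (hg : ∀ z w : ℝ × ℝ, |g z - g w| ≤ C * ‖z - w‖) :
    Continuous g := by
  have h : LipschitzWith (Real.toNNReal C) g := by
    refine LipschitzWith.of_dist_le' fun z w => ?_
    rw [Real.dist_eq, dist_eq_norm]
    exact hg z w
  exact h.continuous

lemma int_main {g : ℝ × ℝ → ℝ} {C : ℝ} (hg : ∀ z w : ℝ × ℝ, |g z - g w| ≤ C * ‖z - w‖)
    (t x y : ℝ) :
    Integrable (fun w : ℝ × ℝ => gam w * g (x - Real.sqrt t * w.1, y - Real.sqrt t * w.2)) := by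
  have hC : 0 ≤ C := by
    have := hg (1, 0) (0, 0)
    have h2 : ‖((1, 0) : ℝ × ℝ) - (0, 0)‖ = 1 := by simp [Prod.norm_def]
    rw [h2] at this
    linarith [abs_nonneg (g (1, 0) - g (0, 0))]
  have hb : Integrable (fun w : ℝ × ℝ => |g (x, y)| * gam w + C * Real.sqrt t * (gam w * |w.1|) +
      C * Real.sqrt t * (gam w * |w.2|)) :=
    ((int_gam.const_mul _).add (int_gam1.const_mul _)).add (int_gam2.const_mul _)
  refine hb.mono' ?_ (Filter.Eventually.of_forall fun w => ?_)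
  · refine Continuous.aestronglyMeasurable ?_
    have := g_cont hg
    have := gam_cont
    fun_prop
  · rw [Real.norm_eq_abs, abs_mul, abs_of_nonneg (gam_nonneg w)]
    have h1 := hg (x - Real.sqrt t * w.1, y - Real.sqrt t * w.2) (x, y)
    have h2 : ‖((x - Real.sqrt t * w.1, y - Real.sqrt t * w.2) : ℝ × ℝ) - (x, y)‖ ≤
        Real.sqrt t * |w.1| + Real.sqrt t * |w.2| := by
      rw [Prod.norm_def]
      simp only [Prod.mk_sub_mk, sub_sub_cancel_left, norm_neg, norm_mul, Real.norm_eq_abs,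
        abs_of_nonneg (Real.sqrt_nonneg t)]
      refine max_le ?_ ?_
      · have := mul_nonneg (Real.sqrt_nonneg t) (abs_nonneg w.2); linarith
      · have := mul_nonneg (Real.sqrt_nonneg t) (abs_nonneg w.1); linarith
    have h3 : |g (x - Real.sqrt t * w.1, y - Real.sqrt t * w.2)| ≤
        |g (x, y)| + C * (Real.sqrt t * |w.1| + Real.sqrt t * |w.2|) := by
      have h4 := abs_sub_abs_le_abs_sub (g (x - Real.sqrt t * w.1, y - Real.sqrt t * w.2)) (g (x, y))
      have h5 := mul_le_mul_of_nonneg_left h2 hC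
      linarith
    have h6 := mul_le_mul_of_nonneg_left h3 (gam_nonneg w)
    nlinarith [h6]

lemma cv_HU {g : ℝ × ℝ → ℝ} {C : ℝ} (hg : ∀ z w : ℝ × ℝ, |g z - g w| ≤ C * ‖z - w‖)
    (hc : ConvexOn ℝ univ g) (t : ℝ) :
    ConvexOn ℝ univ (fun z : ℝ × ℝ => HU g t z.1 z.2) := by
  refine ⟨convex_univ, fun z _ z' _ a b ha hb hab => ?_⟩
  have e1 : a • HU g t z.1 z.2 + b • HU g t z'.1 z'.2 =
      ∫ w : ℝ × ℝ, (a * (gam w * g (z.1 - Real.sqrt t * w.1, z.2 - Real.sqrt t * w.2)) +
        b * (gam w * g (z'.1 - Real.sqrt t * w.1, z'.2 - Real.sqrt t * w.2))) := by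
    rw [integral_add ((int_main hg t z.1 z.2).const_mul a) ((int_main hg t z'.1 z'.2).const_mul b),
      integral_const_mul, integral_const_mul]
    rfl
  show HU g t (a • z + b • z').1 (a • z + b • z').2 ≤ _
  rw [e1]
  unfold HU
  refine integral_mono (int_main hg t _ _)
    (((int_main hg t z.1 z.2).const_mul a).add ((int_main hg t z'.1 z'.2).const_mul b))
    fun w => ?_
  have h1 := hc.2 (mem_univ (z.1 - Real.sqrt t * w.1, z.2 - Real.sqrt t * w.2))
    (mem_univ (z'.1 - Real.sqrt t * w.1, z'.2 - Real.sqrt t * w.2)) ha hb hab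
  have h2 : a • (z.1 - Real.sqrt t * w.1, z.2 - Real.sqrt t * w.2) +
      b • (z'.1 - Real.sqrt t * w.1, z'.2 - Real.sqrt t * w.2) =
      ((a • z + b • z').1 - Real.sqrt t * w.1, (a • z + b • z').2 - Real.sqrt t * w.2) := by
    have hb' : b = 1 - a := by linarith
    subst hb'
    ext <;> simp <;> ring
  rw [h2] at h1
  have h3 := mul_le_mul_of_nonneg_left h1 (gam_nonneg w)
  simp only [smul_eq_mul] at h3
  show gam w * _ ≤ a * _ + b * _
  linarith [h3]

/-- the second derivative of a `C^2` convex function is nonnegative -/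
lemma snd_nonneg {F : ℝ × ℝ → ℝ} (hF : ContDiff ℝ 2 F) (hc : ConvexOn ℝ univ F) (z v : ℝ × ℝ) :
    0 ≤ fderiv ℝ (fderiv ℝ F) z v v := by
  have hF1 : Differentiable ℝ F := hF.differentiable (by norm_num)
  have hF2 : Differentiable ℝ (fderiv ℝ F) :=
    (hF.fderiv_right (m := 1) (by norm_num)).differentiable (by norm_num)
  have hl : ∀ s : ℝ, HasDerivAt (fun s : ℝ => z + s • v) v s := fun s => by
    simpa using ((hasDerivAt_id s).smul_const v).const_add z
  have h1 : ∀ s : ℝ, HasDerivAt (fun s : ℝ => F (z + s • v)) (fderiv ℝ F (z + s • v) v) s :=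
    fun s => (hF1 _).hasFDerivAt.comp_hasDerivAt s (hl s)
  have hcv : ConvexOn ℝ univ (fun s : ℝ => F (z + s • v)) := by
    refine ⟨convex_univ, fun s _ s' _ a b ha hb hab => ?_⟩
    have := hc.2 (mem_univ (z + s • v)) (mem_univ (z + s' • v)) ha hb hab
    have e : a • (z + s • v) + b • (z + s' • v) = z + (a • s + b • s') • v := by
      have hb' : b = 1 - a := by linarith
      subst hb'
      ext <;> simp <;> ring
    rw [e] at this
    exact this
  have hm : Monotone (fun s : ℝ => fderiv ℝ F (z + s • v) v) := by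
    have hm1 : MonotoneOn (deriv (fun s : ℝ => F (z + s • v))) univ := by
      refine hcv.monotoneOn_deriv fun s _ => (h1 s).differentiableAt
    intro s s' hss
    have := hm1 (mem_univ s) (mem_univ s') hss
    rwa [(h1 s).deriv, (h1 s').deriv] at this
  have h2 : HasDerivAt (fun s : ℝ => fderiv ℝ F (z + s • v) v) (fderiv ℝ (fderiv ℝ F) z v v) 0 := by
    have h3 : HasDerivAt (fun s : ℝ => fderiv ℝ F (z + s • v))
        (fderiv ℝ (fderiv ℝ F) (z + (0 : ℝ) • v) v) 0 :=
      (hF2 _).hasFDerivAt.comp_hasDerivAt (0 : ℝ) (hl 0)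
    have h4 := h3.clm_apply (hasDerivAt_const (0 : ℝ) v)
    simpa using h4
  rw [← h2.deriv]
  exact hm.deriv_nonneg

lemma main_form {g : ℝ × ℝ → ℝ} {C : ℝ} (h1 : S_HEAT)
    (hg : ∀ z w : ℝ × ℝ, |g z - g w| ≤ C * ‖z - w‖)
    (hc : ConvexOn ℝ univ g) (t x y : ℝ) (ht : 0 < t) (a b : ℝ) :
    0 ≤ (HT g t x y + HA g t x y) / 2 * a ^ 2 + HB g t x y * (a * b) +
      (HT g t x y - HA g t x y) / 2 * b ^ 2 := by
  obtain ⟨hs, hd⟩ := h1 g C hg
  set F : ℝ × ℝ → ℝ := fun z => HU g t z.1 z.2 with hFd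
  have hF6 : ContDiff ℝ 6 F := by
    rw [← contDiffOn_univ]
    have : ContDiffOn ℝ 6 (fun z : ℝ × ℝ => ((t, z.1, z.2) : ℝ × ℝ × ℝ)) univ := by
      refine ContDiff.contDiffOn ?_
      fun_prop
    exact ContDiffOn.comp (t := {q : ℝ × ℝ × ℝ | 0 < q.1}) hs this (fun z _ => ht)
  have hF : ContDiff ℝ 2 F := hF6.of_le (by norm_num)
  have hF1 : Differentiable ℝ F := hF.differentiable (by norm_num)
  have hF2 : Differentiable ℝ (fderiv ℝ F) :=
    (hF.fderiv_right (m := 1) (by norm_num)).differentiable (by norm_num)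
  have hlx : ∀ x y : ℝ, HasDerivAt (fun x' : ℝ => ((x', y) : ℝ × ℝ)) (1, 0) x := fun x y =>
    (hasDerivAt_id x).prodMk (hasDerivAt_const x y)
  have hly : ∀ x y : ℝ, HasDerivAt (fun y' : ℝ => ((x, y') : ℝ × ℝ)) (0, 1) y := fun x y =>
    (hasDerivAt_const y x).prodMk (hasDerivAt_id y)
  have dx : ∀ x y : ℝ, dX (HU g) t x y = fderiv ℝ F (x, y) (1, 0) := fun x y => by
    have h3 : HasDerivAt (fun x' : ℝ => F (x', y)) (fderiv ℝ F (x, y) (1, 0)) x :=
      HasFDerivAt.comp_hasDerivAt (l := F) x (hF1 (x, y)).hasFDerivAt (hlx x y)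
    exact h3.deriv
  have dy : ∀ x y : ℝ, dY (HU g) t x y = fderiv ℝ F (x, y) (0, 1) := fun x y => by
    have h3 : HasDerivAt (fun y' : ℝ => F (x, y')) (fderiv ℝ F (x, y) (0, 1)) y :=
      HasFDerivAt.comp_hasDerivAt (l := F) y (hF1 (x, y)).hasFDerivAt (hly x y)
    exact h3.deriv
  have hx2 : ∀ (x y : ℝ) (v : ℝ × ℝ), HasDerivAt (fun x' : ℝ => fderiv ℝ F (x', y) v)
      (fderiv ℝ (fderiv ℝ F) (x, y) (1, 0) v) x := fun x y v => by
    have h3 : HasDerivAt (fun x' : ℝ => fderiv ℝ F (x', y))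
        (fderiv ℝ (fderiv ℝ F) (x, y) (1, 0)) x :=
      (hF2 (x, y)).hasFDerivAt.comp_hasDerivAt x (hlx x y)
    have h4 := h3.clm_apply (hasDerivAt_const x v)
    simpa using h4
  have hy2 : ∀ (x y : ℝ) (v : ℝ × ℝ), HasDerivAt (fun y' : ℝ => fderiv ℝ F (x, y') v)
      (fderiv ℝ (fderiv ℝ F) (x, y) (0, 1) v) y := fun x y v => by
    have h3 : HasDerivAt (fun y' : ℝ => fderiv ℝ F (x, y'))
        (fderiv ℝ (fderiv ℝ F) (x, y) (0, 1)) y :=
      (hF2 (x, y)).hasFDerivAt.comp_hasDerivAt y (hly x y)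
    have h4 := h3.clm_apply (hasDerivAt_const y v)
    simpa using h4
  obtain ⟨-, -, exx, eyy, exy, -⟩ := hd t x y ht
  have fxx : dX (dX (HU g)) t x y = fderiv ℝ (fderiv ℝ F) (x, y) (1, 0) (1, 0) := by
    have : (fun x' => dX (HU g) t x' y) = fun x' => fderiv ℝ F (x', y) (1, 0) :=
      funext fun x' => dx x' y
    show deriv (fun x' => dX (HU g) t x' y) x = _
    rw [this]; exact (hx2 x y (1, 0)).deriv
  have fyy : dY (dY (HU g)) t x y = fderiv ℝ (fderiv ℝ F) (x, y) (0, 1) (0, 1) := by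
    have : (fun y' => dY (HU g) t x y') = fun y' => fderiv ℝ F (x, y') (0, 1) :=
      funext fun y' => dy x y'
    show deriv (fun y' => dY (HU g) t x y') y = _
    rw [this]; exact (hy2 x y (0, 1)).deriv
  have fxy : dX (dY (HU g)) t x y = fderiv ℝ (fderiv ℝ F) (x, y) (1, 0) (0, 1) := by
    have : (fun x' => dY (HU g) t x' y) = fun x' => fderiv ℝ F (x', y) (0, 1) :=
      funext fun x' => dy x' y
    show deriv (fun x' => dY (HU g) t x' y) x = _
    rw [this]; exact (hx2 x y (0, 1)).deriv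
  have hsym : fderiv ℝ (fderiv ℝ F) (x, y) (0, 1) (1, 0) =
      fderiv ℝ (fderiv ℝ F) (x, y) (1, 0) (0, 1) :=
    second_derivative_symmetric (fun z => (hF1 z).hasFDerivAt) (hF2 (x, y)).hasFDerivAt _ _
  have hcv := cv_HU hg hc t
  have h := snd_nonneg hF hcv (x, y) (a, b)
  have hv : ((a, b) : ℝ × ℝ) = a • (1, 0) + b • (0, 1) := by ext <;> simp
  rw [hv] at h
  simp only [map_add, map_smul, add_apply, smul_apply, smul_eq_mul] at h
  rw [hsym, ← fxx, ← fyy, ← fxy, exx, eyy, exy] at h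
  nlinarith [h]

theorem t_PSD (h1 : S_HEAT) : S_PSD := by
  intro g C hg hc t x y ht
  have hf := main_form h1 hg hc t x y ht
  refine ⟨?_, ?_, hf⟩
  · have e1 := hf 1 0
    have e2 := hf 0 1
    simp at e1 e2
    linarith
  · unfold HD
    set p := (HT g t x y + HA g t x y) / 2 with hp
    set r := (HT g t x y - HA g t x y) / 2 with hr
    set q := HB g t x y with hq
    have hp0 : 0 ≤ p := by have := hf 1 0; simpa using this
    have hr0 : 0 ≤ r := by have := hf 0 1; simpa using this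
    have key : q ^ 2 ≤ 4 * p * r := by
      have := discrim_le_zero (a := p) (b := q) (c := r) (fun s => by
        have := hf s 1
        nlinarith [this])
      unfold discrim at this
      linarith
    have e : HT g t x y ^ 2 - HA g t x y ^ 2 = 4 * p * r := by rw [hp, hr]; ring
    have : 0 ≤ HT g t x y ^ 2 - HA g t x y ^ 2 - q ^ 2 := by linarith
    linarith

end Pool.Agent.W775.WH.PSD
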