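import Pool.Agent.W775.WH.Stm

/-! Project WH, part PTL: pointwise limits of the heat extension. -/

set_option autoImplicit false

open MeasureTheory Set Filter Topology

namespace Pool.Agent.W775.WH.PTL

/-- one dimensional Gaussian -/
noncomputable def G (x : ℝ) : ℝ := Real.exp (-x ^ 2 / 4)

lemma int_pow (n : ℕ) : Integrable (fun x : ℝ => x ^ n * G x) := by
  have h := integrable_rpow_mul_exp_neg_mul_sq (b := 1/4) (by norm_num) (s := (n : ℝ))
    (lt_of_lt_of_le (by norm_num) (Nat.cast_nonneg n))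
  refine h.congr (Eventually.of_forall fun x => ?_)
  simp only [Real.rpow_natCast, G]
  congr 2; ring

lemma derG (x : ℝ) : HasDerivAt (fun y => -2 * G y) (x * G x) x := by
  have h1 : HasDerivAt (fun y : ℝ => -y ^ 2 / 4) (-(2 * x) / 4) x := by
    have := ((hasDerivAt_pow 2 x).neg).div_const 4
    simpa using this
  have h2 := (h1.exp).const_mul (-2)
  refine h2.congr_deriv ?_
  simp only [G]; ring

lemma rec (n : ℕ) : ∫ x : ℝ, x ^ (n + 2) * G x = 2 * (n + 1) * ∫ x : ℝ, x ^ n * G x := by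
  have h := integral_mul_deriv_eq_deriv_mul_of_integrable (A := ℝ)
    (u := fun x : ℝ => x ^ (n + 1)) (v := fun y => -2 * G y)
    (u' := fun x : ℝ => ((n + 1 : ℕ) : ℝ) * x ^ n) (v' := fun x => x * G x)
    (fun x _ => by simpa using hasDerivAt_pow (n + 1) x) (fun x _ => derG x) ?_ ?_ ?_
  · have e1 : (fun x : ℝ => x ^ (n + 2) * G x) = fun x : ℝ => x ^ (n + 1) * (x * G x) := by
      funext x; ring
    rw [e1, h, ← integral_const_mul, ← integral_neg]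
    congr 1; funext x; push_cast; ring
  · refine (int_pow (n + 2)).congr (Eventually.of_forall fun x => ?_)
    simp only [Pi.mul_apply]; ring
  · refine ((int_pow n).const_mul (-2 * (n + 1))).congr (Eventually.of_forall fun x => ?_)
    simp only [Pi.mul_apply]; push_cast; ring
  · refine ((int_pow (n + 1)).const_mul (-2)).congr (Eventually.of_forall fun x => ?_)
    simp only [Pi.mul_apply]; ring

lemma m0 : ∫ x : ℝ, x ^ 0 * G x = Real.sqrt (4 * Real.pi) := by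
  have h := integral_gaussian (1/4)
  have e : (fun x : ℝ => x ^ 0 * G x) = fun x : ℝ => Real.exp (-(1/4) * x ^ 2) := by
    funext x; simp only [G]; rw [pow_zero, one_mul]; congr 1; ring
  rw [e, h]; congr 1; field_simp

lemma odd_zero (n : ℕ) (hn : Odd n) : ∫ x : ℝ, x ^ n * G x = 0 := by
  have h := integral_neg_eq_self (fun x : ℝ => x ^ n * G x) volume
  have e : (fun x : ℝ => (-x) ^ n * G (-x)) = fun x : ℝ => - (x ^ n * G x) := by
    funext x; simp only [G]; rw [hn.neg_pow]; ring_nf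
  rw [e, integral_neg] at h
  linarith

lemma m1 : ∫ x : ℝ, x ^ 1 * G x = 0 := odd_zero 1 (by decide)
lemma m2 : ∫ x : ℝ, x ^ 2 * G x = 2 * Real.sqrt (4 * Real.pi) := by
  rw [rec 0, m0]; push_cast; ring
lemma m3 : ∫ x : ℝ, x ^ 3 * G x = 0 := odd_zero 3 (by decide)
lemma m4 : ∫ x : ℝ, x ^ 4 * G x = 12 * Real.sqrt (4 * Real.pi) := by
  rw [rec 2, m2]; push_cast; ring

lemma gam_eq (w : ℝ × ℝ) : gam w = (4 * Real.pi)⁻¹ * (G w.1 * G w.2) := by
  simp only [gam, G]; rw [← Real.exp_add]; congr 2; ring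

lemma int2 (a b : ℕ) : Integrable (fun w : ℝ × ℝ => w.1 ^ a * w.2 ^ b * gam w) := by
  have h := (Integrable.mul_prod (int_pow a) (int_pow b)).const_mul ((4 * Real.pi)⁻¹)
  refine h.congr (Eventually.of_forall fun x => ?_)
  simp only [gam_eq]; ring

lemma mom (a b : ℕ) : ∫ w : ℝ × ℝ, w.1 ^ a * w.2 ^ b * gam w =
    (4 * Real.pi)⁻¹ * ((∫ x : ℝ, x ^ a * G x) * ∫ x : ℝ, x ^ b * G x) := by
  have h := integral_prod_mul (μ := (volume : Measure ℝ)) (ν := (volume : Measure ℝ))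
    (fun x : ℝ => x ^ a * G x) (fun x : ℝ => x ^ b * G x)
  rw [← h, ← integral_const_mul]
  congr 1; funext w; simp only [gam_eq]; ring

lemma key : (4 * Real.pi)⁻¹ * (Real.sqrt (4 * Real.pi) * Real.sqrt (4 * Real.pi)) = 1 := by
  rw [Real.mul_self_sqrt (by positivity)]
  exact inv_mul_cancel₀ (by positivity)

lemma mom00 : ∫ w : ℝ × ℝ, w.1 ^ 0 * w.2 ^ 0 * gam w = 1 := by rw [mom, m0]; linarith [key]
lemma mom20 : ∫ w : ℝ × ℝ, w.1 ^ 2 * w.2 ^ 0 * gam w = 2 := by rw [mom, m0, m2]; linarith [key]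
lemma mom02 : ∫ w : ℝ × ℝ, w.1 ^ 0 * w.2 ^ 2 * gam w = 2 := by rw [mom, m0, m2]; linarith [key]
lemma mom40 : ∫ w : ℝ × ℝ, w.1 ^ 4 * w.2 ^ 0 * gam w = 12 := by rw [mom, m0, m4]; linarith [key]
lemma mom04 : ∫ w : ℝ × ℝ, w.1 ^ 0 * w.2 ^ 4 * gam w = 12 := by rw [mom, m0, m4]; linarith [key]
lemma mom22 : ∫ w : ℝ × ℝ, w.1 ^ 2 * w.2 ^ 2 * gam w = 4 := by rw [mom, m2]; linarith [key]
lemma mom_odd1 (a b : ℕ) (h : Odd a) : ∫ w : ℝ × ℝ, w.1 ^ a * w.2 ^ b * gam w = 0 := by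
  rw [mom, odd_zero a h]; ring
lemma mom_odd2 (a b : ℕ) (h : Odd b) : ∫ w : ℝ × ℝ, w.1 ^ a * w.2 ^ b * gam w = 0 := by
  rw [mom, odd_zero b h]; ring


/-! ### second order Taylor expansion -/

lemma lin_apply (p h : ℝ × ℝ) : lin p h = p.1 * h.1 + p.2 * h.2 := by
  simp [lin]

lemma lin_norm (p : ℝ × ℝ) : ‖lin p‖ ≤ 2 * ‖p‖ := by
  refine ContinuousLinearMap.opNorm_le_bound _ (by positivity) fun h => ?_
  rw [lin_apply, Real.norm_eq_abs]
  have h1 : |p.1| ≤ ‖p‖ := norm_fst_le p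
  have h2 : |p.2| ≤ ‖p‖ := norm_snd_le p
  have h3 : |h.1| ≤ ‖h‖ := norm_fst_le h
  have h4 : |h.2| ≤ ‖h‖ := norm_snd_le h
  calc |p.1 * h.1 + p.2 * h.2| ≤ |p.1 * h.1| + |p.2 * h.2| := abs_add_le _ _
    _ = |p.1| * |h.1| + |p.2| * |h.2| := by rw [abs_mul, abs_mul]
    _ ≤ ‖p‖ * ‖h‖ + ‖p‖ * ‖h‖ := by gcongr
    _ = 2 * ‖p‖ * ‖h‖ := by ring

/-- remainder -/
noncomputable def Ps (g : ℝ × ℝ → ℝ) (P : ℝ × ℝ → ℝ × ℝ) (z h : ℝ × ℝ) : ℝ :=
  g (z + h) - g z - ((P z).1 * h.1 + (P z).2 * h.2) -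
    (1 / 2) * (h11 P z * h.1 ^ 2 + 2 * h12 P z * (h.1 * h.2) + h22 P z * h.2 ^ 2)

lemma taylor (l b C R : ℝ) (z0 : ℝ × ℝ) (g : ℝ × ℝ → ℝ) (P : ℝ × ℝ → ℝ × ℝ)
    (H : Loc l b C R z0 g P) (z : ℝ × ℝ) (hz : z ∈ Metric.ball z0 (3 * R)) (hg : Good l P z) :
    ∀ ε : ℝ, 0 < ε → ∃ δ : ℝ, 0 < δ ∧ ∀ h : ℝ × ℝ, ‖h‖ < δ → |Ps g P z h| ≤ ε * ‖h‖ ^ 2 := by
  intro ε hε
  obtain ⟨hd, hsym, -⟩ := hg
  have h1 := (hasFDerivAt_iff_isLittleO_nhds_zero.1 hd.hasFDerivAt).def (half_pos hε)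
  have h2 : ∀ᶠ h : ℝ × ℝ in 𝓝 0, z + h ∈ Metric.ball z0 (3 * R) := by
    have hc : ContinuousAt (fun h : ℝ × ℝ => z + h) 0 := by fun_prop
    refine hc.eventually_mem ?_
    simpa using Metric.isOpen_ball.mem_nhds hz
  obtain ⟨δ, hδ, hb⟩ := Metric.eventually_nhds_iff_ball.1 (h1.and h2)
  refine ⟨δ, hδ, fun h hh => ?_⟩
  have hs : ∀ k ∈ Metric.closedBall (0 : ℝ × ℝ) ‖h‖, k ∈ Metric.ball (0 : ℝ × ℝ) δ := by
    intro k hk
    rw [mem_closedBall_zero_iff] at hk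
    rw [mem_ball_zero_iff]; exact lt_of_le_of_lt hk hh
  have hder : ∀ k ∈ Metric.closedBall (0 : ℝ × ℝ) ‖h‖,
      HasFDerivWithinAt (Ps g P z) (lin (P (z + k) - P z - fderiv ℝ P z k))
        (Metric.closedBall (0 : ℝ × ℝ) ‖h‖) k := by
    intro k hk
    have hk' := (hb k (hs k hk)).2
    have e1 : HasFDerivAt (fun h : ℝ × ℝ => g (z + h)) (lin (P (z + k))) k := by
      have := (H.der (z + k) hk').comp k ((hasFDerivAt_id k).const_add z)
      simpa [Function.comp_def] using this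
    have f1 : HasFDerivAt (fun h : ℝ × ℝ => h.1) (ContinuousLinearMap.fst ℝ ℝ ℝ) k := hasFDerivAt_fst
    have f2 : HasFDerivAt (fun h : ℝ × ℝ => h.2) (ContinuousLinearMap.snd ℝ ℝ ℝ) k := hasFDerivAt_snd
    have e2 := (e1.sub_const (g z)).sub ((f1.const_mul (P z).1).add (f2.const_mul (P z).2))
    have e3 := e2.sub ((((f1.pow 2).const_mul (h11 P z)).add
      ((f1.mul f2).const_mul (2 * h12 P z))).add ((f2.pow 2).const_mul (h22 P z)) |>.const_mul (1 / 2))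
    refine HasFDerivAt.hasFDerivWithinAt ?_
    refine HasFDerivAt.congr_fderiv e3 ?_
    have hP : fderiv ℝ P z k = (k.1 * h11 P z + k.2 * h12 P z, k.1 * h12 P z + k.2 * h22 P z) := by
      have : k = k.1 • ((1 : ℝ), (0 : ℝ)) + k.2 • ((0 : ℝ), (1 : ℝ)) := by
        ext <;> simp
      conv_lhs => rw [this]
      rw [map_add, map_smul, map_smul]
      rw [show h12 P z = h21 P z from hsym]
      ext
      · simp only [Prod.fst_add, Prod.smul_fst, smul_eq_mul, h11]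
        rw [← hsym]; rfl
      · simp only [Prod.snd_add, Prod.smul_snd, smul_eq_mul, h21, h22]
    rw [hP]
    ext
    · simp [lin_apply]; ring
    · simp [lin_apply]; ring
  have hbd : ∀ k ∈ Metric.closedBall (0 : ℝ × ℝ) ‖h‖,
      ‖lin (P (z + k) - P z - fderiv ℝ P z k)‖ ≤ ε * ‖h‖ := by
    intro k hk
    have hk1 := (hb k (hs k hk)).1
    rw [mem_closedBall_zero_iff] at hk
    calc _ ≤ 2 * ‖P (z + k) - P z - fderiv ℝ P z k‖ := lin_norm _
      _ ≤ 2 * (ε / 2 * ‖k‖) := by gcongr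
      _ = ε * ‖k‖ := by ring
      _ ≤ ε * ‖h‖ := by gcongr
  have hmv := Convex.norm_image_sub_le_of_norm_hasFDerivWithin_le (𝕜 := ℝ) hder hbd
    (convex_closedBall 0 ‖h‖) (x := 0) (y := h) (by simp) (by simp)
  have h0 : Ps g P z 0 = 0 := by simp [Ps]
  rw [h0, sub_zero, sub_zero, Real.norm_eq_abs] at hmv
  calc _ ≤ ε * ‖h‖ * ‖h‖ := hmv
    _ = ε * ‖h‖ ^ 2 := by ring

lemma gbound (l b C R : ℝ) (z0 : ℝ × ℝ) (g : ℝ × ℝ → ℝ) (P : ℝ × ℝ → ℝ × ℝ)
    (H : Loc l b C R z0 g P) (z : ℝ × ℝ) (hz : z ∈ Metric.ball z0 (3 * R)) (hg : Good l P z) :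
    ∃ K : ℝ, 0 ≤ K ∧ ∀ h : ℝ × ℝ, |Ps g P z h| ≤ K * ‖h‖ ^ 2 := by
  obtain ⟨δ, hδ, hb⟩ := taylor l b C R z0 g P H z hz hg 1 one_pos
  have hC := H.C0
  refine ⟨1 + (C + 2 * ‖P z‖) / δ + (1 / 2) * (|h11 P z| + 2 * |h12 P z| + |h22 P z|),
    by positivity, fun h => ?_⟩
  by_cases hh : ‖h‖ < δ
  · refine (hb h hh).trans ?_
    refine mul_le_mul_of_nonneg_right ?_ (by positivity)
    have : 0 ≤ (C + 2 * ‖P z‖) / δ := by positivity
    have : 0 ≤ (1 / 2 : ℝ) * (|h11 P z| + 2 * |h12 P z| + |h22 P z|) := by positivity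
    linarith
  · push Not at hh
    have a1 : |g (z + h) - g z| ≤ C * ‖h‖ := by simpa using H.lip (z + h) z
    have a2 : |(P z).1 * h.1 + (P z).2 * h.2| ≤ 2 * ‖P z‖ * ‖h‖ := by
      have := (lin (P z)).le_of_opNorm_le (lin_norm (P z)) h
      rwa [lin_apply, Real.norm_eq_abs] at this
    have h3 : |h.1| ≤ ‖h‖ := norm_fst_le h
    have h4 : |h.2| ≤ ‖h‖ := norm_snd_le h
    have a3 : |h11 P z * h.1 ^ 2 + 2 * h12 P z * (h.1 * h.2) + h22 P z * h.2 ^ 2| ≤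
        (|h11 P z| + 2 * |h12 P z| + |h22 P z|) * ‖h‖ ^ 2 := by
      calc _ ≤ |h11 P z * h.1 ^ 2 + 2 * h12 P z * (h.1 * h.2)| + |h22 P z * h.2 ^ 2| := abs_add_le _ _
        _ ≤ |h11 P z * h.1 ^ 2| + |2 * h12 P z * (h.1 * h.2)| + |h22 P z * h.2 ^ 2| := by
            gcongr; exact abs_add_le _ _
        _ = |h11 P z| * |h.1| ^ 2 + 2 * |h12 P z| * (|h.1| * |h.2|) + |h22 P z| * |h.2| ^ 2 := by
            simp only [abs_mul, abs_pow, Nat.abs_ofNat]
        _ ≤ |h11 P z| * ‖h‖ ^ 2 + 2 * |h12 P z| * (‖h‖ * ‖h‖) + |h22 P z| * ‖h‖ ^ 2 := by gcongr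
        _ = _ := by ring
    have a4 : ‖h‖ ≤ ‖h‖ ^ 2 / δ := by
      rw [le_div_iff₀ hδ]; nlinarith [norm_nonneg h]
    have a5 : |Ps g P z h| ≤ C * ‖h‖ + 2 * ‖P z‖ * ‖h‖ +
        (1 / 2) * ((|h11 P z| + 2 * |h12 P z| + |h22 P z|) * ‖h‖ ^ 2) := by
      unfold Ps
      refine (abs_sub _ _).trans ?_
      refine add_le_add ((abs_sub _ _).trans (add_le_add a1 a2)) ?_
      rw [abs_mul, abs_of_pos (by norm_num : (0:ℝ) < 1 / 2)]
      gcongr
    calc _ ≤ _ := a5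
      _ = (C + 2 * ‖P z‖) * ‖h‖ + (1 / 2) * ((|h11 P z| + 2 * |h12 P z| + |h22 P z|) * ‖h‖ ^ 2) := by ring
      _ ≤ (C + 2 * ‖P z‖) * (‖h‖ ^ 2 / δ) + (1 / 2) * ((|h11 P z| + 2 * |h12 P z| + |h22 P z|) * ‖h‖ ^ 2) := by
          gcongr
      _ ≤ 1 * ‖h‖ ^ 2 + ((C + 2 * ‖P z‖) * (‖h‖ ^ 2 / δ) + (1 / 2) * ((|h11 P z| + 2 * |h12 P z| + |h22 P z|) * ‖h‖ ^ 2)) := by
          have : 0 ≤ 1 * ‖h‖ ^ 2 := by positivity
          linarith
      _ = _ := by ring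


/-! ### the limit -/

lemma gam_nonneg (w : ℝ × ℝ) : 0 ≤ gam w := by unfold gam; positivity

lemma gam_cont : Continuous gam := by unfold gam; fun_prop

/-- quadratic weight with vanishing Gaussian mean -/
noncomputable def qm (α β γ : ℝ) (w : ℝ × ℝ) : ℝ :=
  α * w.1 ^ 2 + β * w.2 ^ 2 + γ * (w.1 * w.2) - 2 * α - 2 * β

lemma qm_cont (α β γ : ℝ) : Continuous (qm α β γ) := by unfold qm; fun_prop

lemma qm_bd (α β γ : ℝ) (w : ℝ × ℝ) :
    |qm α β γ w| ≤ (|α| + |β| + |γ|) * (w.1 ^ 2 + w.2 ^ 2 + 2) := by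
  have h1 : |w.1 * w.2| ≤ w.1 ^ 2 + w.2 ^ 2 := by
    rw [abs_le]; constructor <;> nlinarith [sq_nonneg (w.1 - w.2), sq_nonneg (w.1 + w.2)]
  have e : qm α β γ w = α * (w.1 ^ 2 - 2) + β * (w.2 ^ 2 - 2) + γ * (w.1 * w.2) := by
    unfold qm; ring
  have h2 : |w.1 ^ 2 - 2| ≤ w.1 ^ 2 + w.2 ^ 2 + 2 := by
    rw [abs_le]; constructor <;> nlinarith [sq_nonneg w.1, sq_nonneg w.2]
  have h3 : |w.2 ^ 2 - 2| ≤ w.1 ^ 2 + w.2 ^ 2 + 2 := by
    rw [abs_le]; constructor <;> nlinarith [sq_nonneg w.1, sq_nonneg w.2]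
  rw [e]
  calc _ ≤ |α * (w.1 ^ 2 - 2) + β * (w.2 ^ 2 - 2)| + |γ * (w.1 * w.2)| := abs_add_le _ _
    _ ≤ |α * (w.1 ^ 2 - 2)| + |β * (w.2 ^ 2 - 2)| + |γ * (w.1 * w.2)| := by
        gcongr; exact abs_add_le _ _
    _ = |α| * |w.1 ^ 2 - 2| + |β| * |w.2 ^ 2 - 2| + |γ| * |w.1 * w.2| := by simp only [abs_mul]
    _ ≤ |α| * (w.1 ^ 2 + w.2 ^ 2 + 2) + |β| * (w.1 ^ 2 + w.2 ^ 2 + 2) +
        |γ| * (w.1 ^ 2 + w.2 ^ 2 + 2) := by
        gcongr; linarith
    _ = _ := by ring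

lemma int2' (a b : ℕ) (c : ℝ) : Integrable (fun w : ℝ × ℝ => c * (w.1 ^ a * w.2 ^ b * gam w)) :=
  (int2 a b).const_mul c

/-- integral of `qm * gam` against monomials -/
lemma qm_int (α β γ : ℝ) (a b : ℕ) :
    Integrable (fun w : ℝ × ℝ => qm α β γ w * gam w * (w.1 ^ a * w.2 ^ b)) ∧
    ∫ w : ℝ × ℝ, qm α β γ w * gam w * (w.1 ^ a * w.2 ^ b) =
      α * (∫ w : ℝ × ℝ, w.1 ^ (a + 2) * w.2 ^ b * gam w) +
      β * (∫ w : ℝ × ℝ, w.1 ^ a * w.2 ^ (b + 2) * gam w) +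
      γ * (∫ w : ℝ × ℝ, w.1 ^ (a + 1) * w.2 ^ (b + 1) * gam w) +
      (-2 * α - 2 * β) * (∫ w : ℝ × ℝ, w.1 ^ a * w.2 ^ b * gam w) := by
  have i1 := int2' (a + 2) b α
  have i2 := int2' a (b + 2) β
  have i3 := int2' (a + 1) (b + 1) γ
  have i4 := int2' a b (-2 * α - 2 * β)
  have e : (fun w : ℝ × ℝ => qm α β γ w * gam w * (w.1 ^ a * w.2 ^ b)) =
      fun w : ℝ × ℝ => ((α * (w.1 ^ (a + 2) * w.2 ^ b * gam w) +
        β * (w.1 ^ a * w.2 ^ (b + 2) * gam w)) +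
        γ * (w.1 ^ (a + 1) * w.2 ^ (b + 1) * gam w)) +
        (-2 * α - 2 * β) * (w.1 ^ a * w.2 ^ b * gam w) := by
    funext w; unfold qm; ring
  rw [e]
  refine ⟨((i1.add i2).add i3).add i4, ?_⟩
  have s1 := integral_add i1 i2
  have s2 := integral_add (i1.add i2) i3
  have s3 := integral_add ((i1.add i2).add i3) i4
  simp only [Pi.add_apply] at s1 s2 s3
  rw [s3, s2, s1]
  simp only [integral_const_mul]

lemma q00 (α β γ : ℝ) : ∫ w : ℝ × ℝ, qm α β γ w * gam w * (w.1 ^ 0 * w.2 ^ 0) = 0 := by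
  rw [(qm_int α β γ 0 0).2, mom20, mom02, mom_odd1 (0 + 1) (0 + 1) (by decide), mom00]; ring
lemma q10 (α β γ : ℝ) : ∫ w : ℝ × ℝ, qm α β γ w * gam w * (w.1 ^ 1 * w.2 ^ 0) = 0 := by
  rw [(qm_int α β γ 1 0).2, mom_odd1 (1 + 2) 0 (by decide), mom_odd1 1 (0 + 2) (by decide),
    mom_odd2 (1 + 1) (0 + 1) (by decide), mom_odd1 1 0 (by decide)]; ring
lemma q01 (α β γ : ℝ) : ∫ w : ℝ × ℝ, qm α β γ w * gam w * (w.1 ^ 0 * w.2 ^ 1) = 0 := by
  rw [(qm_int α β γ 0 1).2, mom_odd2 (0 + 2) 1 (by decide), mom_odd2 0 (1 + 2) (by decide),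
    mom_odd1 (0 + 1) (1 + 1) (by decide), mom_odd2 0 1 (by decide)]; ring
lemma q20 (α β γ : ℝ) : ∫ w : ℝ × ℝ, qm α β γ w * gam w * (w.1 ^ 2 * w.2 ^ 0) = 8 * α := by
  rw [(qm_int α β γ 2 0).2, mom40, mom22, mom_odd1 (2 + 1) (0 + 1) (by decide), mom20]; ring
lemma q02 (α β γ : ℝ) : ∫ w : ℝ × ℝ, qm α β γ w * gam w * (w.1 ^ 0 * w.2 ^ 2) = 8 * β := by
  rw [(qm_int α β γ 0 2).2, mom22, mom04, mom_odd1 (0 + 1) (2 + 1) (by decide), mom02]; ring
lemma q11 (α β γ : ℝ) : ∫ w : ℝ × ℝ, qm α β γ w * gam w * (w.1 ^ 1 * w.2 ^ 1) = 4 * γ := by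
  rw [(qm_int α β γ 1 1).2, mom_odd1 (1 + 2) 1 (by decide), mom_odd1 1 (1 + 2) (by decide), mom22,
    mom_odd1 1 1 (by decide)]; ring

lemma lim (l b C R : ℝ) (z0 : ℝ × ℝ) (g : ℝ × ℝ → ℝ) (P : ℝ × ℝ → ℝ × ℝ)
    (H : Loc l b C R z0 g P) (z : ℝ × ℝ) (hz : z ∈ Metric.ball z0 (3 * R)) (hg : Good l P z)
    (α β γ : ℝ) :
    Tendsto (fun t : ℝ => t⁻¹ * ∫ w : ℝ × ℝ, qm α β γ w * gam w *
      g (z.1 - Real.sqrt t * w.1, z.2 - Real.sqrt t * w.2)) (𝓝[>] 0)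
      (𝓝 (4 * α * h11 P z + 4 * β * h22 P z + 4 * γ * h12 P z)) := by
  obtain ⟨K, hK, hKb⟩ := gbound l b C R z0 g P H z hz hg
  have hgc : Continuous g := by
    have : LipschitzWith (Real.toNNReal C) g := LipschitzWith.of_dist_le_mul fun x y => by
      rw [Real.dist_eq, dist_eq_norm, Real.coe_toNNReal _ H.C0.le]; exact H.lip x y
    exact this.continuous
  have hPc : Continuous (Ps g P z) := by unfold Ps; fun_prop
  -- the remainder part
  have hsm : ∀ (t : ℝ) (w : ℝ × ℝ), 0 ≤ t →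
      |Ps g P z (-Real.sqrt t * w.1, -Real.sqrt t * w.2)| ≤ K * (t * ‖w‖ ^ 2) := by
    intro t w ht
    refine (hKb _).trans ?_
    have e : ((-Real.sqrt t * w.1, -Real.sqrt t * w.2) : ℝ × ℝ) = (-Real.sqrt t) • w := by
      ext <;> simp
    rw [e, norm_smul, norm_neg, Real.norm_eq_abs, abs_of_nonneg (Real.sqrt_nonneg t), mul_pow,
      Real.sq_sqrt ht]
  have hbi : Integrable (fun w : ℝ × ℝ =>
      ((|α| + |β| + |γ|) * (w.1 ^ 2 + w.2 ^ 2 + 2)) * gam w * (K * (w.1 ^ 2 + w.2 ^ 2))) := by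
    have i1 := int2 4 0
    have i2 := int2 2 2
    have i3 := int2 0 4
    have i4 := int2 2 0
    have i5 := int2 0 2
    have := ((((i1.add (i2.const_mul 2)).add i3).add (i4.const_mul 2)).add
      (i5.const_mul 2)).const_mul ((|α| + |β| + |γ|) * K)
    refine this.congr (Eventually.of_forall fun w => ?_)
    simp only [Pi.add_apply]; ring
  have hrem : Tendsto (fun t : ℝ => ∫ w : ℝ × ℝ, qm α β γ w * gam w *
      (Ps g P z (-Real.sqrt t * w.1, -Real.sqrt t * w.2) / t)) (𝓝[>] 0) (𝓝 (∫ _w : ℝ × ℝ, (0 : ℝ))) := by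
    refine tendsto_integral_filter_of_dominated_convergence _ ?_ ?_ hbi ?_
    · refine Eventually.of_forall fun t => Continuous.aestronglyMeasurable ?_
      have := qm_cont α β γ
      have := gam_cont
      fun_prop
    · filter_upwards [self_mem_nhdsWithin] with t ht
      have ht' : 0 < t := ht
      refine Eventually.of_forall fun w => ?_
      rw [Real.norm_eq_abs, abs_mul, abs_mul, abs_of_nonneg (gam_nonneg w), abs_div, abs_of_pos ht']
      have hw : ‖w‖ ^ 2 ≤ w.1 ^ 2 + w.2 ^ 2 := by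
        have : ‖w‖ = max |w.1| |w.2| := rfl
        rw [this]
        rcases max_cases |w.1| |w.2| with ⟨e, _⟩ | ⟨e, _⟩ <;> rw [e, sq_abs] <;>
          nlinarith [sq_nonneg w.1, sq_nonneg w.2]
      have h1 := hsm t w ht'.le
      have h2 : |Ps g P z (-Real.sqrt t * w.1, -Real.sqrt t * w.2)| / t ≤ K * (w.1 ^ 2 + w.2 ^ 2) := by
        rw [div_le_iff₀ ht']
        refine h1.trans ?_
        have : K * (t * ‖w‖ ^ 2) = K * ‖w‖ ^ 2 * t := by ring
        rw [this]; gcongr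
      have h3 := qm_bd α β γ w
      have h4 := gam_nonneg w
      gcongr
    · refine Eventually.of_forall fun w => ?_
      have hlim : Tendsto (fun t : ℝ => Ps g P z (-Real.sqrt t * w.1, -Real.sqrt t * w.2) / t)
          (𝓝[>] 0) (𝓝 0) := by
        rw [Metric.tendsto_nhds]
        intro ε hε
        have hε' : 0 < ε / (‖w‖ ^ 2 + 1) := by positivity
        obtain ⟨δ, hδ, hb⟩ := taylor l b C R z0 g P H z hz hg _ hε'
        have hcont : Tendsto (fun t : ℝ => Real.sqrt t * ‖w‖) (𝓝[>] 0) (𝓝 0) := by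
          have : ContinuousAt (fun t : ℝ => Real.sqrt t * ‖w‖) 0 := by fun_prop
          have h := this.tendsto
          simp only [Real.sqrt_zero, zero_mul] at h
          exact h.mono_left nhdsWithin_le_nhds
        filter_upwards [hcont.eventually (gt_mem_nhds hδ), self_mem_nhdsWithin] with t h1 ht
        have ht' : 0 < t := ht
        have e : ((-Real.sqrt t * w.1, -Real.sqrt t * w.2) : ℝ × ℝ) = (-Real.sqrt t) • w := by
          ext <;> simp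
        have en : ‖((-Real.sqrt t * w.1, -Real.sqrt t * w.2) : ℝ × ℝ)‖ = Real.sqrt t * ‖w‖ := by
          rw [e, norm_smul, norm_neg, Real.norm_eq_abs, abs_of_nonneg (Real.sqrt_nonneg t)]
        have h2 := hb (-Real.sqrt t * w.1, -Real.sqrt t * w.2) (by rw [en]; exact h1)
        rw [en, mul_pow, Real.sq_sqrt ht'.le] at h2
        rw [Real.dist_eq, sub_zero, abs_div, abs_of_pos ht', div_lt_iff₀ ht']
        refine h2.trans_lt ?_
        have h3 : ε / (‖w‖ ^ 2 + 1) * (t * ‖w‖ ^ 2) = ε * t * (‖w‖ ^ 2 / (‖w‖ ^ 2 + 1)) := by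
          field_simp
        rw [h3]
        have h4 : ‖w‖ ^ 2 / (‖w‖ ^ 2 + 1) < 1 := by
          rw [div_lt_one (by positivity)]; linarith
        nlinarith [mul_pos hε ht']
      have := hlim.const_mul (qm α β γ w * gam w)
      simpa using this
  -- the identity
  have hid : ∀ᶠ t : ℝ in 𝓝[>] 0, (4 * α * h11 P z + 4 * β * h22 P z + 4 * γ * h12 P z) +
      (∫ w : ℝ × ℝ, qm α β γ w * gam w *
        (Ps g P z (-Real.sqrt t * w.1, -Real.sqrt t * w.2) / t)) =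
      t⁻¹ * ∫ w : ℝ × ℝ, qm α β γ w * gam w *
        g (z.1 - Real.sqrt t * w.1, z.2 - Real.sqrt t * w.2) := by
    filter_upwards [self_mem_nhdsWithin] with t ht
    have ht' : 0 < t := ht
    have hs := Real.sq_sqrt ht'.le
    have hir : Integrable (fun w : ℝ × ℝ => qm α β γ w * gam w *
        (Ps g P z (-Real.sqrt t * w.1, -Real.sqrt t * w.2) / t)) := by
      refine hbi.mono' (Continuous.aestronglyMeasurable ?_) (Eventually.of_forall fun w => ?_)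
      · have := qm_cont α β γ
        have := gam_cont
        fun_prop
      · rw [Real.norm_eq_abs, abs_mul, abs_mul, abs_of_nonneg (gam_nonneg w), abs_div, abs_of_pos ht']
        have hw : ‖w‖ ^ 2 ≤ w.1 ^ 2 + w.2 ^ 2 := by
          have : ‖w‖ = max |w.1| |w.2| := rfl
          rw [this]
          rcases max_cases |w.1| |w.2| with ⟨e, _⟩ | ⟨e, _⟩ <;> rw [e, sq_abs] <;>
            nlinarith [sq_nonneg w.1, sq_nonneg w.2]
        have h1 := hsm t w ht'.le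
        have h2 : |Ps g P z (-Real.sqrt t * w.1, -Real.sqrt t * w.2)| / t ≤
            K * (w.1 ^ 2 + w.2 ^ 2) := by
          rw [div_le_iff₀ ht']
          refine h1.trans ?_
          have : K * (t * ‖w‖ ^ 2) = K * ‖w‖ ^ 2 * t := by ring
          rw [this]; gcongr
        have h3 := qm_bd α β γ w
        have h4 := gam_nonneg w
        gcongr
    have j00 := (qm_int α β γ 0 0).1.const_mul (t⁻¹ * g z)
    have j10 := (qm_int α β γ 1 0).1.const_mul (-(t⁻¹ * Real.sqrt t * (P z).1))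
    have j01 := (qm_int α β γ 0 1).1.const_mul (-(t⁻¹ * Real.sqrt t * (P z).2))
    have j20 := (qm_int α β γ 2 0).1.const_mul (1 / 2 * h11 P z)
    have j11 := (qm_int α β γ 1 1).1.const_mul (h12 P z)
    have j02 := (qm_int α β γ 0 2).1.const_mul (1 / 2 * h22 P z)
    have e : (fun w : ℝ × ℝ => t⁻¹ * (qm α β γ w * gam w *
        g (z.1 - Real.sqrt t * w.1, z.2 - Real.sqrt t * w.2))) = fun w : ℝ × ℝ =>
        ((((((t⁻¹ * g z) * (qm α β γ w * gam w * (w.1 ^ 0 * w.2 ^ 0)) +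
        (-(t⁻¹ * Real.sqrt t * (P z).1)) * (qm α β γ w * gam w * (w.1 ^ 1 * w.2 ^ 0))) +
        (-(t⁻¹ * Real.sqrt t * (P z).2)) * (qm α β γ w * gam w * (w.1 ^ 0 * w.2 ^ 1))) +
        (1 / 2 * h11 P z) * (qm α β γ w * gam w * (w.1 ^ 2 * w.2 ^ 0))) +
        (h12 P z) * (qm α β γ w * gam w * (w.1 ^ 1 * w.2 ^ 1))) +
        (1 / 2 * h22 P z) * (qm α β γ w * gam w * (w.1 ^ 0 * w.2 ^ 2))) +
        qm α β γ w * gam w * (Ps g P z (-Real.sqrt t * w.1, -Real.sqrt t * w.2) / t) := by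
      funext w
      have e1 : Ps g P z (-Real.sqrt t * w.1, -Real.sqrt t * w.2) =
          g (z.1 - Real.sqrt t * w.1, z.2 - Real.sqrt t * w.2) - g z +
          Real.sqrt t * ((P z).1 * w.1 + (P z).2 * w.2) -
          t * ((1 / 2) * (h11 P z * w.1 ^ 2 + 2 * h12 P z * (w.1 * w.2) + h22 P z * w.2 ^ 2)) := by
        unfold Ps
        have : z + (-Real.sqrt t * w.1, -Real.sqrt t * w.2) =
            (z.1 - Real.sqrt t * w.1, z.2 - Real.sqrt t * w.2) := by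
          ext <;> simp <;> ring
        rw [this]
        linear_combination (-(1 / 2) * (h11 P z * w.1 ^ 2 + 2 * h12 P z * (w.1 * w.2) +
          h22 P z * w.2 ^ 2)) * hs
      rw [e1]
      field_simp
      ring
    have s1 := integral_add j00 j10
    have s2 := integral_add (j00.add j10) j01
    have s3 := integral_add ((j00.add j10).add j01) j20
    have s4 := integral_add (((j00.add j10).add j01).add j20) j11
    have s5 := integral_add ((((j00.add j10).add j01).add j20).add j11) j02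
    have s6 := integral_add (((((j00.add j10).add j01).add j20).add j11).add j02) hir
    simp only [Pi.add_apply] at s1 s2 s3 s4 s5 s6
    rw [← integral_const_mul, e, s6, s5, s4, s3, s2, s1]
    simp only [integral_const_mul]
    rw [q00, q10, q01, q20, q11, q02]
    ring
  have hfin := (tendsto_const_nhds (x := 4 * α * h11 P z + 4 * β * h22 P z + 4 * γ * h12 P z)
    (f := 𝓝[>] (0 : ℝ))).add hrem
  rw [integral_zero, add_zero] at hfin
  exact hfin.congr' hid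

theorem t_PTL : S_PTL := by
  intro l b C R z0 g P H z hz hg
  have hT := lim l b C R z0 g P H z hz hg (1 / 4) (1 / 4) 0
  have hA := lim l b C R z0 g P H z hz hg (1 / 4) (-1 / 4) 0
  have hB := lim l b C R z0 g P H z hz hg 0 0 (1 / 2)
  have hT' : Tendsto (fun t : ℝ => HT g t z.1 z.2) (𝓝[>] 0) (𝓝 (T0 P z)) := by
    have e : T0 P z = 4 * (1 / 4) * h11 P z + 4 * (1 / 4) * h22 P z + 4 * 0 * h12 P z := by
      unfold T0; ring
    rw [e]
    refine hT.congr fun t => ?_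
    unfold HT
    congr 2; funext w; unfold qm; ring
  have hA' : Tendsto (fun t : ℝ => HA g t z.1 z.2) (𝓝[>] 0) (𝓝 (h11 P z - h22 P z)) := by
    have e : h11 P z - h22 P z = 4 * (1 / 4) * h11 P z + 4 * (-1 / 4) * h22 P z + 4 * 0 * h12 P z := by
      ring
    rw [e]
    refine hA.congr fun t => ?_
    unfold HA
    congr 2; funext w; unfold qm; ring
  have hB' : Tendsto (fun t : ℝ => HB g t z.1 z.2) (𝓝[>] 0) (𝓝 (2 * h12 P z)) := by
    have e : 2 * h12 P z = 4 * 0 * h11 P z + 4 * 0 * h22 P z + 4 * (1 / 2) * h12 P z := by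
      ring
    rw [e]
    refine hB.congr fun t => ?_
    unfold HB
    congr 2; funext w; unfold qm; ring
  refine ⟨hT', ?_⟩
  have h := (((hT'.pow 2).sub (hA'.pow 2)).sub (hB'.pow 2)).div_const 4
  have e : D0 P z = (T0 P z ^ 2 - (h11 P z - h22 P z) ^ 2 - (2 * h12 P z) ^ 2) / 4 := by
    unfold D0 T0; ring
  rw [e]
  exact h

end Pool.Agent.W775.WH.PTL
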