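import Mathlib
import Pool.Agent.W775.WH.Defs
import Pool.Agent.W775.WH.Stm

/-!
WH-ROT: rotation invariance.
-/

set_option autoImplicit false

open MeasureTheory Set Filter Topology

namespace Pool.Agent.W775.WH.ROT

open Pool.Agent.W775.WH

/-- `rot` as a linear map -/
noncomputable def rl (c s : ℝ) : (ℝ × ℝ) →ₗ[ℝ] (ℝ × ℝ) :=
  Matrix.toLin (Module.Basis.finTwoProd ℝ) (Module.Basis.finTwoProd ℝ) !![c, -s; s, c]

theorem rl_apply (c s : ℝ) (z : ℝ × ℝ) : rl c s z = rot c s z := by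
  unfold rl rot
  rw [Matrix.toLin_finTwoProd_apply]
  simp only [neg_mul]
  rfl

theorem rl_coe (c s : ℝ) : ⇑(rl c s) = rot c s := funext (rl_apply c s)

theorem rl_det (c s : ℝ) : LinearMap.det (rl c s) = c ^ 2 + s ^ 2 := by
  unfold rl
  rw [LinearMap.det_toLin, Matrix.det_fin_two_of]
  ring

theorem rot_rot (c s : ℝ) (h : c ^ 2 + s ^ 2 = 1) (z : ℝ × ℝ) : rot c s (rot c (-s) z) = z := by
  unfold rot
  ext
  · simp only
    linear_combination z.1 * h
  · simp only
    linear_combination z.2 * h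

theorem rot_rot' (c s : ℝ) (h : c ^ 2 + s ^ 2 = 1) (z : ℝ × ℝ) : rot c (-s) (rot c s z) = z := by
  have := rot_rot c (-s) (by rw [neg_sq]; exact h) z
  rwa [neg_neg] at this

theorem rot_cont (c s : ℝ) : Continuous (rot c s) := by
  unfold rot
  fun_prop

theorem vol_pre (c s : ℝ) (h : c ^ 2 + s ^ 2 = 1) (B : Set (ℝ × ℝ)) :
    volume (rot c s ⁻¹' B) = volume B := by
  have h1 := Measure.addHaar_preimage_linearMap (volume : Measure (ℝ × ℝ)) (f := rl c s)
    (by rw [rl_det, h]; exact one_ne_zero) B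
  rw [rl_det, h, rl_coe] at h1
  simpa using h1

theorem mem_sub (Ω : Set (ℝ × ℝ)) (u : ℝ × ℝ → ℝ) (c s : ℝ) (h : c ^ 2 + s ^ 2 = 1)
    (z p : ℝ × ℝ) : p ∈ Sub (rot c s ⁻¹' Ω) (fun w => u (rot c s w)) z ↔
      rot c s p ∈ Sub Ω u (rot c s z) := by
  have dot : ∀ w : ℝ × ℝ, (rot c s p).1 * ((rot c s w).1 - (rot c s z).1) +
      (rot c s p).2 * ((rot c s w).2 - (rot c s z).2) =
      p.1 * (w.1 - z.1) + p.2 * (w.2 - z.2) := by
    intro w
    unfold rot
    simp only
    linear_combination (p.1 * (w.1 - z.1) + p.2 * (w.2 - z.2)) * h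
  constructor
  · intro hp w hw
    have h1 := hp (rot c (-s) w) (by rw [mem_preimage, rot_rot c s h]; exact hw)
    simp only [rot_rot c s h] at h1
    have h2 := dot (rot c (-s) w)
    rw [rot_rot c s h] at h2
    rw [h2]
    exact h1
  · intro hp w hw
    have h1 := hp (rot c s w) hw
    rw [dot w] at h1
    exact h1

theorem t_ROTS : S_ROTS := by
  intro Ω u c s h z p hp
  rw [mem_sub Ω u c s h, rot_rot c s h, rot_rot c s h]
  exact hp

theorem t_ROT : S_ROT := by
  intro l Ω u c s h hM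
  refine ⟨hM.op.preimage (rot_cont c s), ?_, ?_, ?_⟩
  · have := hM.cx.linear_preimage (rl c s)
    rwa [rl_coe] at this
  · have := hM.cv.comp_linearMap (rl c s)
    rw [rl_coe] at this
    exact this
  · intro B hB hBΩ
    have hB' : MeasurableSet (rot c (-s) ⁻¹' B) := hB.preimage (rot_cont c (-s)).measurable
    have hBΩ' : rot c (-s) ⁻¹' B ⊆ Ω := by
      intro z hz
      have h1 := hBΩ hz
      rw [mem_preimage, rot_rot c s h] at h1
      exact h1
    have h1 := hM.bd _ hB' hBΩ'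
    have e1 : volume (rot c (-s) ⁻¹' B) = volume B := vol_pre c (-s) (by rw [neg_sq]; exact h) B
    have e2 : (⋃ z ∈ B, Sub (rot c s ⁻¹' Ω) (fun z => u (rot c s z)) z) =
        rot c s ⁻¹' (⋃ z ∈ rot c (-s) ⁻¹' B, Sub Ω u z) := by
      ext x
      simp only [mem_iUnion, mem_preimage, exists_prop]
      constructor
      · rintro ⟨z, hz, hx⟩
        refine ⟨rot c s z, ?_, (mem_sub Ω u c s h z x).1 hx⟩
        rw [rot_rot' c s h]
        exact hz
      · rintro ⟨z, hz, hx⟩
        refine ⟨rot c (-s) z, hz, (mem_sub Ω u c s h _ x).2 ?_⟩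
        rw [rot_rot c s h]
        exact hx
    rw [e2, vol_pre c s h, ← e1]
    exact h1

end Pool.Agent.W775.WH.ROT
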