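import Mathlib
import Pool.Agent.W775.WH.Stm

set_option autoImplicit false

open MeasureTheory Set Filter Topology

namespace Pool.Agent.W775.WH.SEL

open Pool.Agent.W775.WH

/-- the derivative at a point of differentiability is the only subgradient -/
theorem fderiv_of_sub {Ω : Set (ℝ × ℝ)} {u : ℝ × ℝ → ℝ} (hO : IsOpen Ω) {z p : ℝ × ℝ}
    (hz : z ∈ Ω) (hd : DifferentiableAt ℝ u z) (hp : p ∈ Sub Ω u z) :
    fderiv ℝ u z = lin p := by
  have hmin : IsLocalMin (fun w => u w - lin p w) z := by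
    filter_upwards [hO.mem_nhds hz] with w hw
    have := hp w hw
    simp only [lin, ContinuousLinearMap.add_apply, ContinuousLinearMap.smul_apply,
      ContinuousLinearMap.coe_fst', ContinuousLinearMap.coe_snd', smul_eq_mul]
    nlinarith
  have h0 := hmin.hasFDerivAt_eq_zero (hd.hasFDerivAt.sub (lin p).hasFDerivAt)
  exact sub_eq_zero.mp h0

theorem lin_10 (p : ℝ × ℝ) : lin p (1, 0) = p.1 := by simp [lin]
theorem lin_01 (p : ℝ × ℝ) : lin p (0, 1) = p.2 := by simp [lin]

theorem null_nondiff {Ω : Set (ℝ × ℝ)} {u : ℝ × ℝ → ℝ} (hO : IsOpen Ω)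
    (hL : ∀ K : Set (ℝ × ℝ), IsCompact K → K ⊆ Ω → ∃ L : ℝ, 0 < L ∧
      ∀ a ∈ K, ∀ a' ∈ K, |u a - u a'| ≤ L * ‖a - a'‖) :
    volume (Ω \ {z | DifferentiableAt ℝ u z}) = 0 := by
  refine measure_null_of_locally_null _ fun z hz => ?_
  obtain ⟨r, hr, hball⟩ := Metric.isOpen_iff.mp hO z hz.1
  have hKs : Metric.closedBall z (r / 2) ⊆ Ω :=
    (Metric.closedBall_subset_ball (by linarith)).trans hball
  obtain ⟨L, hL0, hLip⟩ := hL _ (isCompact_closedBall z (r / 2)) hKs
  have hlip : LipschitzOnWith ⟨L, hL0.le⟩ u (Metric.closedBall z (r / 2)) := by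
    refine LipschitzOnWith.of_dist_le_mul fun a ha b hb => ?_
    rw [Real.dist_eq, dist_eq_norm]
    exact hLip a ha b hb
  have hae := hlip.ae_differentiableWithinAt (μ := volume) Metric.isClosed_closedBall.measurableSet
  refine ⟨(Ω \ {z | DifferentiableAt ℝ u z}) ∩ Metric.ball z (r / 2), ?_, ?_⟩
  · exact inter_mem_nhdsWithin _ (Metric.ball_mem_nhds z (by linarith))
  · rw [ae_restrict_iff' Metric.isClosed_closedBall.measurableSet] at hae
    refine measure_mono_null ?_ (ae_iff.mp hae)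
    rintro w ⟨⟨hwO, hwd⟩, hwb⟩
    simp only [mem_setOf_eq, Classical.not_imp]
    refine ⟨Metric.ball_subset_closedBall hwb, fun h => hwd ?_⟩
    exact h.differentiableAt (mem_of_superset (Metric.isOpen_ball.mem_nhds hwb)
      Metric.ball_subset_closedBall)

theorem t_SEL (h1 : S_NE) (h2 : S_LIP) : S_SEL := by
  intro l Ω u hl hMA
  have hO := hMA.op
  have hL : ∀ K : Set (ℝ × ℝ), IsCompact K → K ⊆ Ω → ∃ L : ℝ, 0 < L ∧
      ∀ a ∈ K, ∀ a' ∈ K, |u a - u a'| ≤ L * ‖a - a'‖ := by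
    intro K hK hKO
    obtain ⟨L, hL0, -, hL⟩ := h2 Ω u hO hMA.cv K hK hKO
    exact ⟨L, hL0, hL⟩
  have hnull := null_nondiff hO hL
  have hmeas : MeasurableSet (Ω \ {z | DifferentiableAt ℝ u z}) :=
    hO.measurableSet.diff (measurableSet_of_differentiableAt ℝ u)
  refine ⟨Ω \ {z | DifferentiableAt ℝ u z}, fun z => (fderiv ℝ u z (1, 0), fderiv ℝ u z (0, 1)),
    hmeas, hnull, ?_, ?_, ?_⟩
  · exact (measurable_fderiv_apply_const ℝ u (1, 0)).prodMk
      (measurable_fderiv_apply_const ℝ u (0, 1))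
  · intro z hz hzN
    have hd : DifferentiableAt ℝ u z := by
      by_contra h
      exact hzN ⟨hz, h⟩
    have hsub : ∀ p ∈ Sub Ω u z, p = (fderiv ℝ u z (1, 0), fderiv ℝ u z (0, 1)) := by
      intro p hp
      have h := fderiv_of_sub hO hz hd hp
      rw [h, lin_10, lin_01]
    obtain ⟨p, hp⟩ := h1 Ω u hO hMA.cv z hz
    ext q
    constructor
    · intro hq
      exact hsub q hq
    · intro hq
      rw [mem_singleton_iff] at hq
      rw [hq]
      change (fderiv ℝ u z (1, 0), fderiv ℝ u z (0, 1)) ∈ Sub Ω u z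
      rw [← hsub p hp]
      exact hp
  · have hb := (hMA.bd (Ω ∩ (Ω \ {z | DifferentiableAt ℝ u z}))
      (hO.measurableSet.inter hmeas) inter_subset_left).2
    have h0 : volume (Ω ∩ (Ω \ {z | DifferentiableAt ℝ u z})) = 0 :=
      measure_mono_null inter_subset_right hnull
    rw [h0, mul_zero] at hb
    exact nonpos_iff_eq_zero.mp hb

end Pool.Agent.W775.WH.SEL
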