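import Pool.Agent.W775.WH.Stm

/-!
Project WH, part SIG (helper490): integrability of the pointwise trace, sign of the singular part
and `L^1` bound of the trace of the heat extension.
-/

set_option autoImplicit false

open MeasureTheory Set Filter Topology

namespace Pool.Agent.W775.WH.SIG

theorem gcont {g : ℝ × ℝ → ℝ} {C : ℝ} (hg : ∀ z w : ℝ × ℝ, |g z - g w| ≤ C * ‖z - w‖) :
    Continuous g := by
  refine (LipschitzWith.of_dist_le_mul (K := Real.toNNReal C) fun z w => ?_).continuous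
  rw [Real.dist_eq, dist_eq_norm]
  exact (hg z w).trans (mul_le_mul_of_nonneg_right (Real.le_coe_toNNReal C) (norm_nonneg _))

theorem gam_cont : Continuous gam := by unfold gam; fun_prop

theorem gam_pos (w : ℝ × ℝ) : 0 < gam w := by
  unfold gam
  have := Real.pi_pos
  positivity

/-- Gaussian moments -/
theorem gm : Integrable (fun w : ℝ × ℝ => (1 + w.1 ^ 2 + w.2 ^ 2) ^ 2 * gam w) := by
  have h1 : Integrable (fun w : ℝ × ℝ => Real.exp (-(1 / 8) * w.1 ^ 2) *
      Real.exp (-(1 / 8) * w.2 ^ 2)) :=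
    (integrable_exp_neg_mul_sq (by norm_num)).mul_prod (integrable_exp_neg_mul_sq (by norm_num))
  refine (h1.const_mul (256 * (4 * Real.pi)⁻¹)).mono' ?_ (Filter.Eventually.of_forall fun w => ?_)
  · have : Continuous (fun w : ℝ × ℝ => (1 + w.1 ^ 2 + w.2 ^ 2) ^ 2 * gam w) := by
      have := gam_cont
      fun_prop
    exact this.aestronglyMeasurable
  · have hp := Real.pi_pos
    rw [Real.norm_of_nonneg (mul_nonneg (sq_nonneg _) (gam_pos w).le)]
    unfold gam
    set s := w.1 ^ 2 + w.2 ^ 2 with hs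
    have hs0 : 0 ≤ s := by positivity
    have e1 : Real.exp (-(1 / 8) * w.1 ^ 2) * Real.exp (-(1 / 8) * w.2 ^ 2) =
        Real.exp (-s / 8) := by
      rw [← Real.exp_add]; congr 1; rw [hs]; ring
    have e2 : Real.exp (-s / 4) = Real.exp (-s / 8) * Real.exp (-s / 8) := by
      rw [← Real.exp_add]; congr 1; ring
    have e3 : (1 + s) ^ 2 * Real.exp (-s / 8) ≤ 256 := by
      have h2 : 1 + s / 16 ≤ Real.exp (s / 16) := by
        have := Real.add_one_le_exp (s / 16); linarith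
      have h3 : (1 + s) ≤ 16 * Real.exp (s / 16) := by linarith
      have h4 : (1 + s) ^ 2 ≤ (16 * Real.exp (s / 16)) ^ 2 :=
        pow_le_pow_left₀ (by linarith) h3 2
      have h5 : (16 * Real.exp (s / 16)) ^ 2 * Real.exp (-s / 8) = 256 := by
        rw [mul_pow, ← Real.exp_nat_mul, mul_assoc, ← Real.exp_add]
        have : ((2 : ℕ) : ℝ) * (s / 16) + -s / 8 = 0 := by push_cast; ring
        rw [this, Real.exp_zero]; norm_num
      calc (1 + s) ^ 2 * Real.exp (-s / 8) ≤ (16 * Real.exp (s / 16)) ^ 2 * Real.exp (-s / 8) :=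
            mul_le_mul_of_nonneg_right h4 (Real.exp_pos _).le
        _ = 256 := h5
    rw [e1]
    have e4 : 1 + w.1 ^ 2 + w.2 ^ 2 = 1 + s := by rw [hs]; ring
    rw [e4, e2]
    have h6 : 0 < Real.exp (-s / 8) := Real.exp_pos _
    have h7 : 0 < (4 * Real.pi)⁻¹ := by positivity
    calc (1 + s) ^ 2 * ((4 * Real.pi)⁻¹ * (Real.exp (-s / 8) * Real.exp (-s / 8)))
        = ((1 + s) ^ 2 * Real.exp (-s / 8)) * ((4 * Real.pi)⁻¹ * Real.exp (-s / 8)) := by ring
      _ ≤ 256 * ((4 * Real.pi)⁻¹ * Real.exp (-s / 8)) :=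
          mul_le_mul_of_nonneg_right e3 (by positivity)
      _ = _ := by ring

/-- the moment -/
noncomputable def GM : ℝ := ∫ w : ℝ × ℝ, (1 + w.1 ^ 2 + w.2 ^ 2) ^ 2 * gam w

/-- bound of averages -/
theorem avg_le {g : ℝ × ℝ → ℝ} {C : ℝ} (hg : ∀ z w : ℝ × ℝ, |g z - g w| ≤ C * ‖z - w‖)
    (p : ℝ × ℝ → ℝ) (hp : ∀ w : ℝ × ℝ, |p w| ≤ 1 + w.1 ^ 2 + w.2 ^ 2) {t : ℝ} (x y : ℝ) :
    |∫ w : ℝ × ℝ, p w * gam w * g (x - Real.sqrt t * w.1, y - Real.sqrt t * w.2)| ≤
      (|g (x, y)| + |C| * Real.sqrt t) * GM := by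
  unfold GM
  rw [← integral_const_mul, ← Real.norm_eq_abs]
  refine norm_integral_le_of_norm_le (gm.const_mul _) (Filter.Eventually.of_forall fun w => ?_)
  set s := w.1 ^ 2 + w.2 ^ 2 with hs
  have hs0 : 0 ≤ s := by positivity
  have h0 : 0 ≤ Real.sqrt t := Real.sqrt_nonneg t
  have h1 : |g (x - Real.sqrt t * w.1, y - Real.sqrt t * w.2)| ≤
      |g (x, y)| + |C| * Real.sqrt t * ‖w‖ := by
    have h2 := hg (x - Real.sqrt t * w.1, y - Real.sqrt t * w.2) (x, y)
    have h3 : ‖((x - Real.sqrt t * w.1, y - Real.sqrt t * w.2) : ℝ × ℝ) - (x, y)‖ =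
        Real.sqrt t * ‖w‖ := by
      have : ((x - Real.sqrt t * w.1, y - Real.sqrt t * w.2) : ℝ × ℝ) - (x, y) =
          (-Real.sqrt t) • w := by
        ext <;> simp
      rw [this, norm_smul, norm_neg, Real.norm_of_nonneg h0]
    rw [h3] at h2
    have h4 : C * (Real.sqrt t * ‖w‖) ≤ |C| * Real.sqrt t * ‖w‖ := by
      rw [mul_assoc]
      exact mul_le_mul_of_nonneg_right (le_abs_self C) (by positivity)
    have h5 := abs_sub_abs_le_abs_sub (g (x - Real.sqrt t * w.1, y - Real.sqrt t * w.2)) (g (x, y))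
    linarith
  have h2 : ‖w‖ ≤ 1 + s := by
    rw [Prod.norm_def]
    refine max_le ?_ ?_
    · rw [Real.norm_eq_abs]
      nlinarith [sq_abs w.1, sq_nonneg (|w.1| - 1), sq_nonneg w.2, abs_nonneg w.1]
    · rw [Real.norm_eq_abs]
      nlinarith [sq_abs w.2, sq_nonneg (|w.2| - 1), sq_nonneg w.1, abs_nonneg w.2]
  have h3 : |g (x, y)| + |C| * Real.sqrt t * ‖w‖ ≤ (|g (x, y)| + |C| * Real.sqrt t) * (1 + s) := by
    have h4 : |g (x, y)| * 1 ≤ |g (x, y)| * (1 + s) :=
      mul_le_mul_of_nonneg_left (by linarith) (abs_nonneg _)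
    have h5 : |C| * Real.sqrt t * ‖w‖ ≤ |C| * Real.sqrt t * (1 + s) :=
      mul_le_mul_of_nonneg_left h2 (by positivity)
    linarith
  have h4 : |p w| ≤ 1 + s := by have := hp w; rw [hs]; linarith
  have hgm := gam_pos w
  rw [norm_mul, norm_mul, Real.norm_eq_abs, Real.norm_eq_abs, Real.norm_eq_abs, abs_of_pos hgm]
  have e4 : 1 + w.1 ^ 2 + w.2 ^ 2 = 1 + s := by rw [hs]; ring
  rw [e4]
  calc |p w| * gam w * |g (x - Real.sqrt t * w.1, y - Real.sqrt t * w.2)|
      ≤ (1 + s) * gam w * ((|g (x, y)| + |C| * Real.sqrt t) * (1 + s)) := by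
        refine mul_le_mul (mul_le_mul_of_nonneg_right h4 hgm.le) (h1.trans h3) (abs_nonneg _) ?_
        positivity
    _ = _ := by ring

theorem HT_le {g : ℝ × ℝ → ℝ} {C : ℝ} (hg : ∀ z w : ℝ × ℝ, |g z - g w| ≤ C * ‖z - w‖) {t : ℝ}
    (ht : 0 < t) (z : ℝ × ℝ) :
    |HT g t z.1 z.2| ≤ t⁻¹ * ((|g z| + |C| * Real.sqrt t) * GM) := by
  unfold HT
  rw [abs_mul, abs_of_pos (inv_pos.2 ht)]
  refine mul_le_mul_of_nonneg_left ?_ (inv_pos.2 ht).le
  refine avg_le hg (fun w => (w.1 ^ 2 + w.2 ^ 2) / 4 - 1) (fun w => ?_) z.1 z.2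
  rw [abs_le]
  constructor <;> nlinarith [sq_nonneg w.1, sq_nonneg w.2]

theorem HU_le {g : ℝ × ℝ → ℝ} {C : ℝ} (hg : ∀ z w : ℝ × ℝ, |g z - g w| ≤ C * ‖z - w‖) {t : ℝ}
    (z : ℝ × ℝ) : |HU g t z.1 z.2| ≤ (|g z| + |C| * Real.sqrt t) * GM := by
  have h := avg_le (t := t) hg (fun _ => 1) (fun w => by
    rw [abs_one]; nlinarith [sq_nonneg w.1, sq_nonneg w.2]) z.1 z.2
  simp only [one_mul] at h
  exact h

theorem GM_nonneg : 0 ≤ GM :=
  integral_nonneg fun w => mul_nonneg (sq_nonneg _) (gam_pos w).le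

theorem HT_meas {g : ℝ × ℝ → ℝ} (hg : Continuous g) (t : ℝ) :
    Measurable (fun z : ℝ × ℝ => HT g t z.1 z.2) := by
  unfold HT
  refine Measurable.const_mul ?_ _
  have hc : Continuous (Function.uncurry fun (z w : ℝ × ℝ) =>
      ((w.1 ^ 2 + w.2 ^ 2) / 4 - 1) * gam w *
        g (z.1 - Real.sqrt t * w.1, z.2 - Real.sqrt t * w.2)) := by
    have := gam_cont
    unfold Function.uncurry
    fun_prop
  exact (hc.stronglyMeasurable.integral_prod_right).measurable

theorem chiHT_int {g : ℝ × ℝ → ℝ} {C : ℝ} (hg : ∀ z w : ℝ × ℝ, |g z - g w| ≤ C * ‖z - w‖) {t : ℝ}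
    (ht : 0 < t) {χ : ℝ × ℝ → ℝ} (hχ : Continuous χ) (hc : HasCompactSupport χ) :
    Integrable (fun z : ℝ × ℝ => χ z ^ 2 * HT g t z.1 z.2) := by
  have hgc := gcont hg
  have h1 : Integrable (fun z : ℝ × ℝ => χ z ^ 2 *
      (t⁻¹ * ((|g z| + |C| * Real.sqrt t) * GM))) := by
    refine Continuous.integrable_of_hasCompactSupport (by fun_prop) ?_
    refine HasCompactSupport.mul_right ?_
    exact hc.comp_left (g := fun x : ℝ => x ^ 2) (by simp)
  refine h1.mono' ((hχ.pow 2).aestronglyMeasurable.mul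
    (HT_meas hgc t).aestronglyMeasurable) (Filter.Eventually.of_forall fun z => ?_)
  rw [norm_mul, Real.norm_of_nonneg (sq_nonneg _), Real.norm_eq_abs]
  exact mul_le_mul_of_nonneg_left (HT_le hg ht z) (sq_nonneg _)

/-! ### The Laplacian of `χ ^ 2` -/

theorem px_eq {f : ℝ × ℝ → ℝ} (hf : Differentiable ℝ f) :
    px f = fun z => fderiv ℝ f z (1, 0) := by
  funext z
  have h1 : HasDerivAt (fun x : ℝ => (x, z.2)) ((1 : ℝ), (0 : ℝ)) z.1 :=
    (hasDerivAt_id z.1).prodMk (hasDerivAt_const z.1 z.2)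
  have h2 : HasFDerivAt f (fderiv ℝ f z) (z.1, z.2) := (hf z).hasFDerivAt
  exact (h2.comp_hasDerivAt z.1 h1).deriv

theorem py_eq {f : ℝ × ℝ → ℝ} (hf : Differentiable ℝ f) :
    py f = fun z => fderiv ℝ f z (0, 1) := by
  funext z
  have h1 : HasDerivAt (fun y : ℝ => (z.1, y)) ((0 : ℝ), (1 : ℝ)) z.2 :=
    (hasDerivAt_const z.2 z.1).prodMk (hasDerivAt_id z.2)
  have h2 : HasFDerivAt f (fderiv ℝ f z) (z.1, z.2) := (hf z).hasFDerivAt
  exact (h2.comp_hasDerivAt z.2 h1).deriv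

theorem lap2_int {χ : ℝ × ℝ → ℝ} (hχ : ContDiff ℝ 3 χ) (hc : HasCompactSupport χ) :
    Continuous (lap2 χ) ∧ HasCompactSupport (lap2 χ) := by
  set q : ℝ × ℝ → ℝ := fun w => χ w ^ 2 with hq
  have q3 : ContDiff ℝ 3 q := hχ.pow 2
  have qc : HasCompactSupport q := hc.comp_left (g := fun x : ℝ => x ^ 2) (by simp)
  have qd : Differentiable ℝ q := q3.differentiable (by norm_num)
  have x1 : px q = fun z => fderiv ℝ q z (1, 0) := px_eq qd
  have y1 : py q = fun z => fderiv ℝ q z (0, 1) := py_eq qd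
  have x2 : ContDiff ℝ 2 (px q) := by
    rw [x1]
    exact (q3.fderiv_right (m := 2) (by norm_num)).clm_apply contDiff_const
  have y2 : ContDiff ℝ 2 (py q) := by
    rw [y1]
    exact (q3.fderiv_right (m := 2) (by norm_num)).clm_apply contDiff_const
  have x3 : HasCompactSupport (px q) := by
    rw [x1]; exact qc.fderiv_apply ℝ _
  have y3 : HasCompactSupport (py q) := by
    rw [y1]; exact qc.fderiv_apply ℝ _
  have x4 : px (px q) = fun z => fderiv ℝ (px q) z (1, 0) :=
    px_eq (x2.differentiable (by norm_num))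
  have y4 : py (py q) = fun z => fderiv ℝ (py q) z (0, 1) :=
    py_eq (y2.differentiable (by norm_num))
  have x5 : Continuous (px (px q)) := by
    rw [x4]
    exact ((x2.fderiv_right (m := 1) (by norm_num)).clm_apply contDiff_const).continuous
  have y5 : Continuous (py (py q)) := by
    rw [y4]
    exact ((y2.fderiv_right (m := 1) (by norm_num)).clm_apply contDiff_const).continuous
  have x6 : HasCompactSupport (px (px q)) := by
    rw [x4]; exact x3.fderiv_apply ℝ _
  have y6 : HasCompactSupport (py (py q)) := by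
    rw [y4]; exact y3.fderiv_apply ℝ _
  exact ⟨x5.add y5, x6.add y6⟩

/-! ### The theorem -/

theorem t_SIG (h1 : S_LTT) (h2 : S_PTL) (h3 : S_PSD) : S_SIG := by
  intro l b C R z0 g P hL
  have hg := hL.lip
  have hgc := gcont hg
  have hR := hL.R0
  have hT0 : ∀ t : ℝ, 0 < t → ∀ z : ℝ × ℝ, 0 ≤ HT g t z.1 z.2 :=
    fun t ht z => (h3 g C hg hL.cv t z.1 z.2 ht).1
  -- `∫⁻ χ² HT`
  have hlin : ∀ χ : ℝ × ℝ → ℝ, ContDiff ℝ 3 χ → HasCompactSupport χ → ∀ t : ℝ, 0 < t →
      ∫⁻ z : ℝ × ℝ, ENNReal.ofReal (χ z ^ 2 * HT g t z.1 z.2) =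
        ENNReal.ofReal (∫ z : ℝ × ℝ, χ z ^ 2 * HT g t z.1 z.2) := by
    intro χ hχ hc t ht
    rw [ofReal_integral_eq_lintegral_ofReal (chiHT_int hg ht hχ.continuous hc)
      (Filter.Eventually.of_forall fun z => mul_nonneg (sq_nonneg _) (hT0 t ht z))]
  -- the times
  set tn : ℕ → ℝ := fun n => 1 / ((n : ℝ) + 1) with htn
  have tn0 : ∀ n, 0 < tn n := fun n => by simp only [htn]; positivity
  have tn1 : ∀ n, tn n ≤ 1 := fun n => by
    simp only [htn]
    rw [div_le_one (by positivity)]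
    have : (0 : ℝ) ≤ n := Nat.cast_nonneg n
    linarith
  have tnl : Tendsto tn atTop (𝓝[>] 0) := by
    rw [tendsto_nhdsWithin_iff]
    exact ⟨tendsto_one_div_add_atTop_nhds_zero_nat, Filter.Eventually.of_forall tn0⟩
  have hae : ∀ᵐ z ∂(volume.restrict (Metric.ball z0 (3 * R))),
      Tendsto (fun n => HT g (tn n) z.1 z.2) atTop (𝓝 (T0 P z)) := by
    filter_upwards [hL.good, ae_restrict_mem Metric.isOpen_ball.measurableSet] with z hz hz'
    exact (h2 l b C R z0 g P hL z hz' hz).1.comp tnl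
  have hsub : Metric.closedBall z0 (2 * R) ⊆ Metric.ball z0 (3 * R) :=
    Metric.closedBall_subset_ball (by linarith)
  have hae2 := ae_restrict_of_ae_restrict_of_subset hsub hae
  -- the uniform bound
  have hK : ∃ K : ℝ, 0 < K ∧ ∀ t : ℝ, 0 < t → t ≤ 1 →
      (∫⁻ z in Metric.closedBall z0 (2 * R), ENNReal.ofReal (HT g t z.1 z.2)) ≤
        ENNReal.ofReal K := by
    set f : ContDiffBump z0 := ⟨2 * R, 3 * R, by linarith, by linarith⟩ with hf
    set χ : ℝ × ℝ → ℝ := fun z => f z with hχ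
    have hχs : ContDiff ℝ 3 χ := f.contDiff
    have hχc : HasCompactSupport χ := f.hasCompactSupport
    have hχ1 : ∀ z ∈ Metric.closedBall z0 (2 * R), χ z = 1 := fun z hz =>
      f.one_of_mem_closedBall hz
    obtain ⟨c1, c2⟩ := lap2_int hχs hχc
    have hbi : Integrable (fun z : ℝ × ℝ => (|g z| + |C| * 1) * GM * |lap2 χ z|) := by
      refine Continuous.integrable_of_hasCompactSupport (by fun_prop) ?_
      exact HasCompactSupport.mul_left (c2.comp_left (g := fun x : ℝ => |x|) (by simp))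
    refine ⟨(∫ z : ℝ × ℝ, (|g z| + |C| * 1) * GM * |lap2 χ z|) + 1, ?_, fun t ht ht1 => ?_⟩
    · have : 0 ≤ ∫ z : ℝ × ℝ, (|g z| + |C| * 1) * GM * |lap2 χ z| :=
        integral_nonneg fun z => by
          have := GM_nonneg
          positivity
      linarith
    · calc (∫⁻ z in Metric.closedBall z0 (2 * R), ENNReal.ofReal (HT g t z.1 z.2))
          = ∫⁻ z in Metric.closedBall z0 (2 * R), ENNReal.ofReal (χ z ^ 2 * HT g t z.1 z.2) := by
            refine setLIntegral_congr_fun measurableSet_closedBall fun z hz => ?_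
            rw [hχ1 z hz, one_pow, one_mul]
        _ ≤ ∫⁻ z : ℝ × ℝ, ENNReal.ofReal (χ z ^ 2 * HT g t z.1 z.2) := setLIntegral_le_lintegral _ _
        _ = ENNReal.ofReal (∫ z : ℝ × ℝ, χ z ^ 2 * HT g t z.1 z.2) := hlin χ hχs hχc t ht
        _ ≤ _ := by
            refine ENNReal.ofReal_le_ofReal ?_
            rw [(h1 g C hg χ hχs hχc).1 t ht]
            have h5 : ‖∫ z : ℝ × ℝ, HU g t z.1 z.2 * lap2 χ z‖ ≤
                ∫ z : ℝ × ℝ, (|g z| + |C| * 1) * GM * |lap2 χ z| := by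
              refine norm_integral_le_of_norm_le hbi (Filter.Eventually.of_forall fun z => ?_)
              rw [norm_mul, Real.norm_eq_abs, Real.norm_eq_abs]
              refine mul_le_mul_of_nonneg_right ((HU_le hg z).trans ?_) (abs_nonneg _)
              refine mul_le_mul_of_nonneg_right ?_ GM_nonneg
              have h6 : Real.sqrt t ≤ 1 := Real.sqrt_le_one.2 ht1
              have := mul_le_mul_of_nonneg_left h6 (abs_nonneg C)
              linarith
            have h7 := le_abs_self (∫ z : ℝ × ℝ, HU g t z.1 z.2 * lap2 χ z)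
            rw [Real.norm_eq_abs] at h5
            linarith
  refine ⟨?_, hK, ?_⟩
  · obtain ⟨K, hK0, hK1⟩ := hK
    have haem : AEMeasurable (T0 P) (volume.restrict (Metric.closedBall z0 (2 * R))) :=
      aemeasurable_of_tendsto_metrizable_ae atTop (fun n => (HT_meas hgc (tn n)).aemeasurable) hae2
    have hnn : ∀ᵐ z ∂(volume.restrict (Metric.closedBall z0 (2 * R))), 0 ≤ T0 P z := by
      filter_upwards [hae2] with z hz
      exact ge_of_tendsto' hz fun n => hT0 _ (tn0 n) z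
    refine ⟨haem.aestronglyMeasurable, ?_⟩
    rw [hasFiniteIntegral_iff_ofReal hnn]
    refine lt_of_le_of_lt ?_ (ENNReal.ofReal_lt_top (r := K))
    calc ∫⁻ z in Metric.closedBall z0 (2 * R), ENNReal.ofReal (T0 P z)
        = ∫⁻ z in Metric.closedBall z0 (2 * R),
            liminf (fun n => ENNReal.ofReal (HT g (tn n) z.1 z.2)) atTop := by
          refine lintegral_congr_ae ?_
          filter_upwards [hae2] with z hz
          exact ((ENNReal.tendsto_ofReal hz).liminf_eq).symm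
      _ ≤ liminf (fun n => ∫⁻ z in Metric.closedBall z0 (2 * R),
            ENNReal.ofReal (HT g (tn n) z.1 z.2)) atTop :=
          lintegral_liminf_le fun n => (HT_meas hgc (tn n)).ennreal_ofReal
      _ ≤ ENNReal.ofReal K := by
          refine liminf_le_of_frequently_le' (Filter.Frequently.of_forall fun n => ?_)
          exact hK1 _ (tn0 n) (tn1 n)
  · intro χ hχs hχc hχt
    have hχae : ∀ᵐ z : ℝ × ℝ, Tendsto (fun n => χ z ^ 2 * HT g (tn n) z.1 z.2) atTop
        (𝓝 (χ z ^ 2 * T0 P z)) := by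
      have h5 := (ae_restrict_iff' Metric.isOpen_ball.measurableSet).1 hae
      filter_upwards [h5] with z hz
      by_cases hzχ : χ z = 0
      · simp [hzχ]
      · have h6 : z ∈ tsupport χ := subset_tsupport χ hzχ
        have h7 : z ∈ Metric.ball z0 (3 * R) :=
          Metric.ball_subset_ball (by linarith) (hχt h6)
        exact (hz h7).const_mul _
    have hlim := ((h1 g C hg χ hχs hχc).2).comp tnl
    have hg0 : 0 ≤ ∫ z : ℝ × ℝ, g z * lap2 χ z :=
      ge_of_tendsto' hlim fun n => integral_nonneg fun z =>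
        mul_nonneg (sq_nonneg _) (hT0 _ (tn0 n) z)
    have haem : AEMeasurable (fun z => χ z ^ 2 * T0 P z) (volume : Measure (ℝ × ℝ)) :=
      aemeasurable_of_tendsto_metrizable_ae atTop (fun n =>
        ((hχs.continuous.pow 2).measurable.mul (HT_meas hgc (tn n))).aemeasurable) hχae
    have hnn : ∀ᵐ z : ℝ × ℝ, 0 ≤ χ z ^ 2 * T0 P z := by
      filter_upwards [hχae] with z hz
      exact ge_of_tendsto' hz fun n => mul_nonneg (sq_nonneg _) (hT0 _ (tn0 n) z)
    have hle : ∫⁻ z : ℝ × ℝ, ENNReal.ofReal (χ z ^ 2 * T0 P z) ≤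
        ENNReal.ofReal (∫ z : ℝ × ℝ, g z * lap2 χ z) := by
      calc ∫⁻ z : ℝ × ℝ, ENNReal.ofReal (χ z ^ 2 * T0 P z)
          = ∫⁻ z : ℝ × ℝ, liminf (fun n => ENNReal.ofReal (χ z ^ 2 * HT g (tn n) z.1 z.2))
              atTop := by
            refine lintegral_congr_ae ?_
            filter_upwards [hχae] with z hz
            exact ((ENNReal.tendsto_ofReal hz).liminf_eq).symm
        _ ≤ liminf (fun n => ∫⁻ z : ℝ × ℝ, ENNReal.ofReal (χ z ^ 2 * HT g (tn n) z.1 z.2))
              atTop :=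
            lintegral_liminf_le fun n =>
              ((hχs.continuous.pow 2).measurable.mul (HT_meas hgc (tn n))).ennreal_ofReal
        _ = liminf (fun n => ENNReal.ofReal (∫ z : ℝ × ℝ, χ z ^ 2 * HT g (tn n) z.1 z.2))
              atTop := by
            congr 1
            funext n
            exact hlin χ hχs hχc _ (tn0 n)
        _ = ENNReal.ofReal (∫ z : ℝ × ℝ, g z * lap2 χ z) :=
            (ENNReal.tendsto_ofReal hlim).liminf_eq
    rw [integral_eq_lintegral_of_nonneg_ae hnn haem.aestronglyMeasurable]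
    calc (∫⁻ z : ℝ × ℝ, ENNReal.ofReal (χ z ^ 2 * T0 P z)).toReal
        ≤ (ENNReal.ofReal (∫ z : ℝ × ℝ, g z * lap2 χ z)).toReal :=
          ENNReal.toReal_mono ENNReal.ofReal_ne_top hle
      _ = ∫ z : ℝ × ℝ, g z * lap2 χ z := ENNReal.toReal_ofReal hg0

end Pool.Agent.W775.WH.SIG
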