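import Pool.Agent.W775.WH.Stm

/-!
WH-STG (by helper672): one stage of the bootstrap, no singular part and weak type bound.
-/

set_option autoImplicit false

open MeasureTheory Set Filter Topology

namespace Pool.Agent.W775.WH.STG

/-! ### pointwise facts -/

theorem pp_nonneg (x : ℝ) : 0 ≤ pp x := le_max_right _ _

theorem pp_mul (x : ℝ) : pp x * pp x = pp x * x := by
  unfold pp
  rcases le_total x 0 with h | h
  · rw [max_eq_right h]; ring
  · rw [max_eq_left h]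

theorem pp4 (x : ℝ) : pp x ^ 4 = pp x ^ 3 * x := by
  calc pp x ^ 4 = pp x ^ 2 * (pp x * pp x) := by ring
    _ = pp x ^ 3 * x := by rw [pp_mul]; ring

theorem pp_of_le {x : ℝ} (h : x ≤ 0) : pp x = 0 := max_eq_right h

theorem pp_of_ge {x : ℝ} (h : 0 ≤ x) : pp x = x := max_eq_left h

theorem pp_le {s T : ℝ} (hs : 0 < s) (hT : 0 ≤ T) : pp (T - s) ≤ T :=
  max_le (by linarith) hT

theorem pp_cont : Continuous pp := by unfold pp; fun_prop

theorem fA_nonneg {s T : ℝ} (hs : 0 < s) (hT : 0 ≤ T) : 0 ≤ fA s T := by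
  unfold fA
  have := pp_nonneg (T - s)
  positivity

theorem fA_le {s T : ℝ} (hs : 0 < s) (hT : 0 ≤ T) :
    s ^ 2 * fA s T ≤ if s < T then 4 / 3 * T else 0 := by
  unfold fA
  by_cases h : s < T
  · rw [if_pos h]
    have hT0 : 0 < T := hs.trans h
    have hp := pp_le hs hT
    have hp0 := pp_nonneg (T - s)
    rw [mul_div_assoc', div_le_iff₀ (by positivity)]
    have h1 : pp (T - s) ^ 3 ≤ T ^ 3 := pow_le_pow_left₀ hp0 hp 3
    have h2 : 8 * T ^ 2 + 9 * s * T + 3 * s ^ 2 ≤ 20 * T ^ 2 := by nlinarith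
    have h3 : pp (T - s) ^ 3 * (8 * T ^ 2 + 9 * s * T + 3 * s ^ 2) ≤ T ^ 3 * (20 * T ^ 2) :=
      mul_le_mul h1 h2 (by positivity) (by positivity)
    calc s ^ 2 * (pp (T - s) ^ 3 * (8 * T ^ 2 + 9 * s * T + 3 * s ^ 2))
        ≤ s ^ 2 * (T ^ 3 * (20 * T ^ 2)) := mul_le_mul_of_nonneg_left h3 (by positivity)
      _ = 20 * s * T ^ 5 * s := by ring
      _ ≤ 20 * s * T ^ 5 * T := mul_le_mul_of_nonneg_left h.le (by positivity)
      _ = 4 / 3 * T * (15 * s * T ^ 5) := by ring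
  · rw [if_neg h, pp_of_le (by linarith)]
    simp

theorem fA_le' {s T : ℝ} (hs : 0 < s) (hT : 0 ≤ T) : fA s T ≤ 4 / (3 * s ^ 2) * T := by
  have h := fA_le hs hT
  have h1 : (if s < T then 4 / 3 * T else 0) ≤ 4 / 3 * T := by
    split
    · exact le_rfl
    · positivity
  have h2 : 4 / (3 * s ^ 2) * T = (4 / 3 * T) / s ^ 2 := by field_simp
  rw [h2, le_div_iff₀ (by positivity)]
  linarith

/-- `fB` without the factor `l` -/
noncomputable def fb (s T : ℝ) : ℝ :=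
  pp (T - s) ^ 3 * (5 * T ^ 3 + 7 * s * T ^ 2 + 6 * s ^ 2 * T + 2 * s ^ 3) / (15 * s ^ 2 * T ^ 5)

theorem fB_eq (l s T : ℝ) : fB l s T = l * fb s T := rfl

theorem fb_nonneg {s T : ℝ} (hs : 0 < s) (hT : 0 ≤ T) : 0 ≤ fb s T := by
  unfold fb
  have := pp_nonneg (T - s)
  positivity

theorem fb_le {s T : ℝ} (hs : 0 < s) (hT : 0 ≤ T) : fb s T ≤ 4 / (3 * s ^ 2) * T := by
  unfold fb
  rcases hT.eq_or_lt with h | hT0
  · rw [← h]; simp
  by_cases h : s < T
  · have hp := pp_le hs hT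
    have hp0 := pp_nonneg (T - s)
    rw [div_le_iff₀ (by positivity)]
    have h1 : pp (T - s) ^ 3 ≤ T ^ 3 := pow_le_pow_left₀ hp0 hp 3
    have h2 : 5 * T ^ 3 + 7 * s * T ^ 2 + 6 * s ^ 2 * T + 2 * s ^ 3 ≤ 20 * T ^ 3 := by
      have g1 : s * T ^ 2 ≤ T * T ^ 2 := mul_le_mul_of_nonneg_right h.le (by positivity)
      have g2 : s ^ 2 * T ≤ T ^ 2 * T :=
        mul_le_mul_of_nonneg_right (pow_le_pow_left₀ hs.le h.le 2) hT
      have g3 : s ^ 3 ≤ T ^ 3 := pow_le_pow_left₀ hs.le h.le 3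
      nlinarith
    have h3 : pp (T - s) ^ 3 * (5 * T ^ 3 + 7 * s * T ^ 2 + 6 * s ^ 2 * T + 2 * s ^ 3) ≤
        T ^ 3 * (20 * T ^ 3) := mul_le_mul h1 h2 (by positivity) (by positivity)
    refine h3.trans (le_of_eq ?_)
    field_simp
    ring
  · rw [pp_of_le (by linarith)]
    have : 0 ≤ 4 / (3 * s ^ 2) * T := by positivity
    simpa using this

theorem fM_nonneg {s T : ℝ} (hT : 0 ≤ T) (hs : 0 < s) : 0 ≤ fM s T := by
  unfold fM
  have := pp_nonneg (T - s)
  positivity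

theorem fM_le {s T : ℝ} (hs : 0 < s) (hT : 0 ≤ T) : fM s T ≤ 1 / (3 * s ^ 2) * T := by
  unfold fM
  rcases hT.eq_or_lt with h | hT0
  · rw [← h]; simp
  by_cases h : s < T
  · have hp := pp_le hs hT
    have hp0 := pp_nonneg (T - s)
    rw [div_le_iff₀ (by positivity)]
    have h1 : pp (T - s) ^ 4 ≤ T ^ 4 := pow_le_pow_left₀ hp0 hp 4
    have h2 : 5 * T ^ 2 + 4 * s * T + s ^ 2 ≤ 10 * T ^ 2 := by nlinarith
    have h3 : pp (T - s) ^ 4 * (5 * T ^ 2 + 4 * s * T + s ^ 2) ≤ T ^ 4 * (10 * T ^ 2) :=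
      mul_le_mul h1 h2 (by positivity) (by positivity)
    refine h3.trans (le_of_eq ?_)
    field_simp
    ring
  · rw [pp_of_le (by linarith)]
    have : 0 ≤ 1 / (3 * s ^ 2) * T := by positivity
    simpa using this

/-- the derivative of `fM` in `s` -/
noncomputable def fM1 (s T : ℝ) : ℝ := -(fb s T / s)

theorem hasDerivAt_pp4 (x : ℝ) : HasDerivAt (fun y => pp y ^ 4) (4 * pp x ^ 3) x := by
  have h := hasDerivAt_of_hasDerivAt_of_ne' (f := fun y => pp y ^ 4)
    (g := fun y => 4 * pp y ^ 3) (x := 0) ?_ ?_ ?_ x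
  · exact h
  · intro y hy
    rcases lt_or_gt_of_ne hy with h | h
    · have h1 : (fun y => pp y ^ 4) =ᶠ[𝓝 y] fun _ => (0 : ℝ) := by
        filter_upwards [Iio_mem_nhds h] with z hz
        rw [pp_of_le (le_of_lt hz)]; norm_num
      have h2 : 4 * pp y ^ 3 = 0 := by rw [pp_of_le h.le]; norm_num
      simp only [h2]
      exact (hasDerivAt_const y (0 : ℝ)).congr_of_eventuallyEq h1
    · have h1 : (fun y => pp y ^ 4) =ᶠ[𝓝 y] fun z => z ^ 4 := by
        filter_upwards [Ioi_mem_nhds h] with z hz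
        rw [pp_of_ge (le_of_lt hz)]
      have h2 : 4 * pp y ^ 3 = 4 * y ^ 3 := by rw [pp_of_ge h.le]
      simp only [h2]
      have h3 := hasDerivAt_pow 4 y
      norm_num at h3
      exact h3.congr_of_eventuallyEq h1
  · exact (pp_cont.pow 4).continuousAt
  · exact (continuous_const.mul (pp_cont.pow 3)).continuousAt

theorem hasDerivAt_fM {s T : ℝ} (hs : 0 < s) (hT : 0 ≤ T) :
    HasDerivAt (fun s => fM s T) (fM1 s T) s := by
  rcases hT.eq_or_lt with h | hT0
  · have h1 : (fun s => fM s T) = fun _ => (0 : ℝ) := by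
      funext s
      unfold fM
      rw [← h]; simp
    have h2 : fM1 s T = 0 := by
      unfold fM1 fb
      rw [← h]; simp
    rw [h1, h2]
    exact hasDerivAt_const s 0
  · have h1 : HasDerivAt (fun s : ℝ => pp (T - s) ^ 4) (4 * pp (T - s) ^ 3 * (-1)) s := by
      have h2 : HasDerivAt (fun s : ℝ => T - s) (-1) s := by
        simpa using (hasDerivAt_id s).const_sub T
      exact (hasDerivAt_pp4 (T - s)).comp s h2
    have h3 : HasDerivAt (fun s : ℝ => 5 * T ^ 2 + 4 * s * T + s ^ 2) (4 * T + 2 * s) s := by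
      have g1 : HasDerivAt (fun s : ℝ => 4 * s * T) (4 * T) s := by
        have := ((hasDerivAt_id s).const_mul 4).mul_const T
        simpa using this
      have g2 : HasDerivAt (fun s : ℝ => s ^ 2) (2 * s) s := by
        simpa using hasDerivAt_pow 2 s
      exact (((hasDerivAt_const s (5 * T ^ 2)).fun_add g1).fun_add g2).congr_deriv (by ring)
    have h4 : HasDerivAt (fun s : ℝ => 30 * s ^ 2 * T ^ 5) (60 * s * T ^ 5) s := by
      have g2 : HasDerivAt (fun s : ℝ => s ^ 2) (2 * s) s := by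
        simpa using hasDerivAt_pow 2 s
      exact ((g2.const_mul 30).mul_const (T ^ 5)).congr_deriv (by ring)
    refine ((h1.fun_mul h3).fun_div h4 (by positivity)).congr_deriv ?_
    unfold fM1 fb
    rw [pp4]
    field_simp
    ring

theorem fM1_abs {s T : ℝ} (hs : 0 < s) (hT : 0 ≤ T) : |fM1 s T| ≤ 4 / (3 * s ^ 3) * T := by
  unfold fM1
  rw [abs_neg, abs_of_nonneg (div_nonneg (fb_nonneg hs hT) hs.le), div_le_iff₀ hs]
  refine (fb_le hs hT).trans (le_of_eq ?_)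
  field_simp

theorem ident {l s T : ℝ} (hl : 0 < l) (hs : 0 < s) (hT : 0 ≤ T) :
    fB l s T - fA s T / l = 2 / l * fM s T + (1 - l ^ 2) / l * (s * fM1 s T) := by
  rw [fB_eq]
  unfold fM1 fb fA fM
  rcases hT.eq_or_lt with h | hT0
  · rw [← h]; simp
  · rw [pp4]
    field_simp
    ring

theorem fM_ge {s T : ℝ} (hs : 0 < s) (hT : 2 * s ≤ T) : 1 / (48 * s) ≤ fM s T := by
  have hT0 : 0 < T := by linarith
  unfold fM
  rw [pp_of_ge (by linarith), div_le_div_iff₀ (by positivity) (by positivity)]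
  have h1 : (T / 2) ^ 4 ≤ (T - s) ^ 4 := pow_le_pow_left₀ (by positivity) (by linarith) 4
  have h2 : 5 * T ^ 2 ≤ 5 * T ^ 2 + 4 * s * T + s ^ 2 := by nlinarith
  have h3 : (T / 2) ^ 4 * (5 * T ^ 2) ≤ (T - s) ^ 4 * (5 * T ^ 2 + 4 * s * T + s ^ 2) :=
    mul_le_mul h1 h2 (by positivity) (by positivity)
  have h4 : 2 * s * T ^ 5 ≤ T * T ^ 5 := mul_le_mul_of_nonneg_right hT (by positivity)
  have h5 : 1 * (30 * s ^ 2 * T ^ 5) ≤ (T / 2) ^ 4 * (5 * T ^ 2) * (48 * s) := by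
    nlinarith
  exact h5.trans (mul_le_mul_of_nonneg_right h3 (by positivity))

/-! ### measurability -/

theorem meas_h (P : ℝ × ℝ → ℝ × ℝ) : Measurable (h11 P) ∧ Measurable (h12 P) ∧
    Measurable (h22 P) := by
  refine ⟨?_, ?_, ?_⟩
  · exact (measurable_fderiv_apply_const ℝ P (1, 0)).fst
  · exact (measurable_fderiv_apply_const ℝ P (0, 1)).fst
  · exact (measurable_fderiv_apply_const ℝ P (0, 1)).snd

theorem meas_T0 (P : ℝ × ℝ → ℝ × ℝ) : Measurable (T0 P) :=
  (meas_h P).1.add (meas_h P).2.2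

theorem meas_D0 (P : ℝ × ℝ → ℝ × ℝ) : Measurable (D0 P) :=
  ((meas_h P).1.mul (meas_h P).2.2).sub ((meas_h P).2.1.pow_const 2)

theorem meas_fA (s : ℝ) : Measurable (fA s) := by
  unfold fA pp
  fun_prop

theorem meas_fB (l s : ℝ) : Measurable (fB l s) := by
  unfold fB pp
  fun_prop

theorem meas_fM (s : ℝ) : Measurable (fM s) := by
  unfold fM pp
  fun_prop

theorem meas_fM1 (s : ℝ) : Measurable (fM1 s) := by
  unfold fM1 fb pp
  fun_prop

/-- integrability with the weight -/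
theorem intg {P : ℝ × ℝ → ℝ × ℝ} {χ : ℝ × ℝ → ℝ} (hχ : Continuous χ)
    (hT : Integrable (fun z => χ z ^ 2 * T0 P z)) (f : ℝ × ℝ → ℝ) (c : ℝ) (hf : Measurable f)
    (hb : ∀ᵐ z, χ z ≠ 0 → |f z| ≤ c * T0 P z) : Integrable (fun z => χ z ^ 2 * f z) := by
  refine (hT.const_mul c).mono' ?_ ?_
  · exact ((hχ.measurable.pow_const 2).mul hf).aestronglyMeasurable
  · filter_upwards [hb] with z hz
    by_cases h : χ z = 0
    · rw [h]; simp
    · rw [norm_mul, Real.norm_eq_abs, Real.norm_eq_abs, abs_of_nonneg (sq_nonneg _)]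
      calc χ z ^ 2 * |f z| ≤ χ z ^ 2 * (c * T0 P z) :=
            mul_le_mul_of_nonneg_left (hz h) (sq_nonneg _)
        _ = c * (χ z ^ 2 * T0 P z) := by ring

/-- comparison of integrals with the weight -/
theorem mono_w {χ : ℝ × ℝ → ℝ} (f g : ℝ × ℝ → ℝ) (hf : Integrable (fun z => χ z ^ 2 * f z))
    (hg : Integrable (fun z => χ z ^ 2 * g z)) (h : ∀ᵐ z, χ z ≠ 0 → f z ≤ g z) :
    (∫ z, χ z ^ 2 * f z) ≤ ∫ z, χ z ^ 2 * g z := by
  refine integral_mono_ae hf hg ?_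
  filter_upwards [h] with z hz
  by_cases h0 : χ z = 0
  · rw [h0]; simp
  · exact mul_le_mul_of_nonneg_left (hz h0) (sq_nonneg _)

/-- the data of the second half -/
structure Dat (l : ℝ) (P : ℝ × ℝ → ℝ × ℝ) (χ : ℝ × ℝ → ℝ) : Prop where
  l0 : 0 < l
  l1 : l < 1
  hχ : Continuous χ
  hT : Integrable (fun z => χ z ^ 2 * T0 P z)
  gd : ∀ᵐ z, χ z ≠ 0 → 0 ≤ T0 P z ∧ l ≤ D0 P z ∧ D0 P z ≤ l⁻¹

variable {l : ℝ} {P : ℝ × ℝ → ℝ × ℝ} {χ : ℝ × ℝ → ℝ}

/-- the main integral -/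
noncomputable def II (l : ℝ) (P : ℝ × ℝ → ℝ × ℝ) (χ : ℝ × ℝ → ℝ) (s : ℝ) : ℝ :=
  ∫ z : ℝ × ℝ, χ z ^ 2 * (fB l s (T0 P z) - fA s (T0 P z) * D0 P z)

theorem Dat.intA (d : Dat l P χ) {s : ℝ} (hs : 0 < s) :
    Integrable (fun z => χ z ^ 2 * fA s (T0 P z)) := by
  refine intg d.hχ d.hT _ (4 / (3 * s ^ 2)) ((meas_fA s).comp (meas_T0 P)) ?_
  filter_upwards [d.gd] with z hz h0
  obtain ⟨h1, -, -⟩ := hz h0
  rw [abs_of_nonneg (fA_nonneg hs h1)]
  exact fA_le' hs h1

theorem Dat.intAD (d : Dat l P χ) {s : ℝ} (hs : 0 < s) :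
    Integrable (fun z => χ z ^ 2 * (fA s (T0 P z) * D0 P z)) := by
  refine intg d.hχ d.hT _ (4 / (3 * s ^ 2) * l⁻¹)
    (((meas_fA s).comp (meas_T0 P)).mul (meas_D0 P)) ?_
  filter_upwards [d.gd] with z hz h0
  obtain ⟨h1, h2, h3⟩ := hz h0
  have hD : 0 ≤ D0 P z := d.l0.le.trans h2
  have hA := fA_nonneg hs h1
  rw [abs_of_nonneg (mul_nonneg hA hD)]
  calc fA s (T0 P z) * D0 P z ≤ (4 / (3 * s ^ 2) * T0 P z) * l⁻¹ :=
        mul_le_mul (fA_le' hs h1) h3 hD (by positivity)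
    _ = 4 / (3 * s ^ 2) * l⁻¹ * T0 P z := by ring

theorem Dat.intB (d : Dat l P χ) {s : ℝ} (hs : 0 < s) :
    Integrable (fun z => χ z ^ 2 * fB l s (T0 P z)) := by
  refine intg d.hχ d.hT _ (l * (4 / (3 * s ^ 2))) ((meas_fB l s).comp (meas_T0 P)) ?_
  filter_upwards [d.gd] with z hz h0
  obtain ⟨h1, -, -⟩ := hz h0
  rw [fB_eq, abs_of_nonneg (mul_nonneg d.l0.le (fb_nonneg hs h1)), mul_assoc]
  exact mul_le_mul_of_nonneg_left (fb_le hs h1) d.l0.le

theorem Dat.intM (d : Dat l P χ) {s : ℝ} (hs : 0 < s) :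
    Integrable (fun z => χ z ^ 2 * fM s (T0 P z)) := by
  refine intg d.hχ d.hT _ (1 / (3 * s ^ 2)) ((meas_fM s).comp (meas_T0 P)) ?_
  filter_upwards [d.gd] with z hz h0
  obtain ⟨h1, -, -⟩ := hz h0
  rw [abs_of_nonneg (fM_nonneg h1 hs)]
  exact fM_le hs h1

theorem Dat.intM1 (d : Dat l P χ) {s : ℝ} (hs : 0 < s) :
    Integrable (fun z => χ z ^ 2 * fM1 s (T0 P z)) := by
  refine intg d.hχ d.hT _ (4 / (3 * s ^ 3)) ((meas_fM1 s).comp (meas_T0 P)) ?_
  filter_upwards [d.gd] with z hz h0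
  obtain ⟨h1, -, -⟩ := hz h0
  exact fM1_abs hs h1

theorem Dat.int_ind (d : Dat l P χ) (s : ℝ) :
    Integrable (fun z => χ z ^ 2 * (if s < T0 P z then 4 / 3 * T0 P z else 0)) := by
  refine intg d.hχ d.hT _ (4 / 3) ?_ ?_
  · exact Measurable.ite (measurableSet_lt measurable_const (meas_T0 P))
      ((meas_T0 P).const_mul _) measurable_const
  · filter_upwards [d.gd] with z hz h0
    obtain ⟨h1, -, -⟩ := hz h0
    split
    · rw [abs_of_nonneg (by positivity)]
    · rw [abs_zero]; positivity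

/-- the tail -/
noncomputable def JJ (P : ℝ × ℝ → ℝ × ℝ) (χ : ℝ × ℝ → ℝ) (s : ℝ) : ℝ :=
  ∫ z : ℝ × ℝ, χ z ^ 2 * (if s < T0 P z then 4 / 3 * T0 P z else 0)

theorem Dat.tendJ (d : Dat l P χ) : Tendsto (fun n : ℕ => JJ P χ n) atTop (𝓝 0) := by
  have h := tendsto_integral_of_dominated_convergence (μ := (volume : Measure (ℝ × ℝ)))
    (F := fun (n : ℕ) z => χ z ^ 2 * (if (n : ℝ) < T0 P z then 4 / 3 * T0 P z else 0))
    (f := fun _ => (0 : ℝ)) (fun z => 4 / 3 * |χ z ^ 2 * T0 P z|)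
    (fun n => (d.int_ind n).aestronglyMeasurable) (d.hT.abs.const_mul _) ?_ ?_
  · simpa [JJ] using h
  · intro n
    refine Filter.Eventually.of_forall fun z => ?_
    split
    · rw [norm_mul, norm_mul, Real.norm_eq_abs, Real.norm_eq_abs, Real.norm_eq_abs, abs_mul]
      rw [abs_of_pos (by norm_num : (0 : ℝ) < 4 / 3)]
      exact le_of_eq (by ring)
    · simp only [mul_zero, norm_zero]
      positivity
  · refine Filter.Eventually.of_forall fun z => ?_
    apply tendsto_const_nhds.congr'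
    obtain ⟨N, hN⟩ := exists_nat_ge (T0 P z)
    filter_upwards [eventually_ge_atTop N] with n hn
    have : (N : ℝ) ≤ n := by exact_mod_cast hn
    rw [if_neg (by linarith), mul_zero]

/-- lower bound of the main integral by the tail -/
theorem Dat.lowJ (d : Dat l P χ) {s : ℝ} (hs : 0 < s) :
    -(l⁻¹ * JJ P χ s) ≤ s ^ 2 * II l P χ s := by
  have h2 : II l P χ s = (∫ z : ℝ × ℝ, χ z ^ 2 * fB l s (T0 P z)) -
      ∫ z : ℝ × ℝ, χ z ^ 2 * (fA s (T0 P z) * D0 P z) := by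
    unfold II
    rw [← integral_sub (d.intB hs) (d.intAD hs)]
    refine integral_congr_ae (Filter.Eventually.of_forall fun z => ?_)
    ring
  have h3 : 0 ≤ ∫ z : ℝ × ℝ, χ z ^ 2 * fB l s (T0 P z) := by
    refine integral_nonneg_of_ae ?_
    filter_upwards [d.gd] with z hz
    by_cases h0 : χ z = 0
    · rw [h0]; simp
    · obtain ⟨g1, -, -⟩ := hz h0
      exact mul_nonneg (sq_nonneg _) (by rw [fB_eq]; exact mul_nonneg d.l0.le (fb_nonneg hs g1))
  have h4 : s ^ 2 * (∫ z : ℝ × ℝ, χ z ^ 2 * (fA s (T0 P z) * D0 P z)) ≤ l⁻¹ * JJ P χ s := by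
    unfold JJ
    rw [← integral_const_mul, ← integral_const_mul]
    refine integral_mono_ae ((d.intAD hs).const_mul _) ((d.int_ind s).const_mul _) ?_
    filter_upwards [d.gd] with z hz
    by_cases h0 : χ z = 0
    · rw [h0]; simp
    · obtain ⟨g1, g2, g3⟩ := hz h0
      have hD : 0 ≤ D0 P z := d.l0.le.trans g2
      have hA := fA_nonneg hs g1
      have hA2 := fA_le hs g1
      have hl := d.l0
      calc s ^ 2 * (χ z ^ 2 * (fA s (T0 P z) * D0 P z))
          = χ z ^ 2 * ((s ^ 2 * fA s (T0 P z)) * D0 P z) := by ring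
        _ ≤ χ z ^ 2 * ((if s < T0 P z then 4 / 3 * T0 P z else 0) * l⁻¹) := by
            apply mul_le_mul_of_nonneg_left _ (sq_nonneg _)
            exact mul_le_mul hA2 g3 hD (le_trans (by positivity) hA2)
        _ = l⁻¹ * (χ z ^ 2 * (if s < T0 P z then 4 / 3 * T0 P z else 0)) := by ring
  have h5 : 0 ≤ s ^ 2 * ∫ z : ℝ × ℝ, χ z ^ 2 * fB l s (T0 P z) := by positivity
  rw [h2, mul_sub]
  linarith

/-- the integral of `fM` -/
noncomputable def YY (P : ℝ × ℝ → ℝ × ℝ) (χ : ℝ × ℝ → ℝ) (s : ℝ) : ℝ :=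
  ∫ z : ℝ × ℝ, χ z ^ 2 * fM s (T0 P z)
/-- the integral of `fM1` -/
noncomputable def YY1 (P : ℝ × ℝ → ℝ × ℝ) (χ : ℝ × ℝ → ℝ) (s : ℝ) : ℝ :=
  ∫ z : ℝ × ℝ, χ z ^ 2 * fM1 s (T0 P z)

theorem Dat.YY_nonneg (d : Dat l P χ) {s : ℝ} (hs : 0 < s) : 0 ≤ YY P χ s := by
  refine integral_nonneg_of_ae ?_
  filter_upwards [d.gd] with z hz
  by_cases h0 : χ z = 0
  · rw [h0]; simp
  · exact mul_nonneg (sq_nonneg _) (fM_nonneg (hz h0).1 hs)

theorem Dat.deriv_YY (d : Dat l P χ) {s : ℝ} (hs : 0 < s) :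
    HasDerivAt (YY P χ) (YY1 P χ s) s := by
  have h := hasDerivAt_integral_of_dominated_loc_of_deriv_le (μ := (volume : Measure (ℝ × ℝ)))
    (F := fun s z => χ z ^ 2 * fM s (T0 P z)) (F' := fun s z => χ z ^ 2 * fM1 s (T0 P z))
    (x₀ := s) (s := Ioi (s / 2)) (bound := fun z => 4 / (3 * (s / 2) ^ 3) * (χ z ^ 2 * T0 P z))
    (Ioi_mem_nhds (by linarith)) ?_ (d.intM hs) (d.intM1 hs).aestronglyMeasurable ?_
    (d.hT.const_mul _) ?_
  · exact h.2
  · filter_upwards [Ioi_mem_nhds hs] with x hx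
    exact (d.intM hx).aestronglyMeasurable
  · filter_upwards [d.gd] with z hz x hx
    have hx' : s / 2 < x := hx
    have hx0 : 0 < x := by linarith
    by_cases h0 : χ z = 0
    · rw [h0]; simp
    · obtain ⟨g1, -, -⟩ := hz h0
      rw [norm_mul, Real.norm_eq_abs, Real.norm_eq_abs, abs_of_nonneg (sq_nonneg _)]
      have g2 := fM1_abs hx0 g1
      have g3 : 4 / (3 * x ^ 3) * T0 P z ≤ 4 / (3 * (s / 2) ^ 3) * T0 P z := by
        apply mul_le_mul_of_nonneg_right _ g1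
        apply div_le_div_of_nonneg_left (by norm_num) (by positivity)
        have := pow_le_pow_left₀ (by positivity) hx'.le 3
        linarith
      calc χ z ^ 2 * |fM1 x (T0 P z)| ≤ χ z ^ 2 * (4 / (3 * (s / 2) ^ 3) * T0 P z) :=
            mul_le_mul_of_nonneg_left (g2.trans g3) (sq_nonneg _)
        _ = 4 / (3 * (s / 2) ^ 3) * (χ z ^ 2 * T0 P z) := by ring
  · filter_upwards [d.gd] with z hz x hx
    have hx' : s / 2 < x := hx
    have hx0 : 0 < x := by linarith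
    by_cases h0 : χ z = 0
    · have e1 : (fun x => χ z ^ 2 * fM x (T0 P z)) = fun _ => (0 : ℝ) := by
        funext x; rw [h0]; simp
      have e2 : χ z ^ 2 * fM1 x (T0 P z) = 0 := by rw [h0]; simp
      rw [e1, e2]
      exact hasDerivAt_const x 0
    · exact (hasDerivAt_fM hx0 (hz h0).1).const_mul _

/-- lower bound of the main integral by `YY` -/
theorem Dat.lowY (d : Dat l P χ) {s : ℝ} (hs : 0 < s) :
    2 / l * YY P χ s + (1 - l ^ 2) / l * (s * YY1 P χ s) ≤ II l P χ s := by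
  have h1 : 2 / l * YY P χ s + (1 - l ^ 2) / l * (s * YY1 P χ s) =
      ∫ z : ℝ × ℝ, χ z ^ 2 * (2 / l * fM s (T0 P z) +
        (1 - l ^ 2) / l * (s * fM1 s (T0 P z))) := by
    unfold YY YY1
    rw [← integral_const_mul, ← integral_const_mul, ← integral_const_mul, ← integral_add
      ((d.intM hs).const_mul _) (((d.intM1 hs).const_mul _).const_mul _)]
    refine integral_congr_ae (Filter.Eventually.of_forall fun z => ?_)
    ring
  have hint1 : Integrable (fun z => χ z ^ 2 * (2 / l * fM s (T0 P z) +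
        (1 - l ^ 2) / l * (s * fM1 s (T0 P z)))) := by
    refine (((d.intM hs).const_mul (2 / l)).add
      (((d.intM1 hs).const_mul s).const_mul ((1 - l ^ 2) / l))).congr
      (Filter.Eventually.of_forall fun z => ?_)
    simp only [Pi.add_apply]
    ring
  have hint2 : Integrable (fun z => χ z ^ 2 * (fB l s (T0 P z) - fA s (T0 P z) * D0 P z)) := by
    refine ((d.intB hs).sub (d.intAD hs)).congr (Filter.Eventually.of_forall fun z => ?_)
    simp only [Pi.sub_apply]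
    ring
  rw [h1]
  unfold II
  refine mono_w _ _ hint1 hint2 ?_
  filter_upwards [d.gd] with z hz h0
  obtain ⟨g1, g2, g3⟩ := hz h0
  rw [← ident d.l0 hs g1]
  have hA := fA_nonneg hs g1
  have h5 : fA s (T0 P z) * D0 P z ≤ fA s (T0 P z) * l⁻¹ := mul_le_mul_of_nonneg_left g3 hA
  rw [div_eq_mul_inv]
  linarith

/-- the monotone quantity -/
theorem Dat.weak (d : Dat l P χ) (M a s1 p : ℝ) (hs1 : 1 ≤ s1) (hM : 0 < M)
    (hp2 : p ≤ pst l) (hI : ∀ s, s1 ≤ s → II l P χ s ≤ M * s ^ a) (ha : p + a < -1) :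
    ∃ K : ℝ, ∀ S, s1 ≤ S → S ^ (p + 1) * YY P χ S ≤ K := by
  have hl0 := d.l0
  have hl1 := d.l1
  have hl2 : 0 < 1 - l ^ 2 := by nlinarith
  obtain ⟨κ, hκ⟩ : ∃ κ : ℝ, κ = -(p + a) - 1 := ⟨_, rfl⟩
  have hκ0 : 0 < κ := by rw [hκ]; linarith
  obtain ⟨C', hC'⟩ : ∃ C' : ℝ, C' = l * M / (1 - l ^ 2) := ⟨_, rfl⟩
  have hC'0 : 0 < C' := by rw [hC']; positivity
  have hp3 : (1 - l ^ 2) * (p + 1) ≤ 2 := by
    have h1 : (1 - l ^ 2) * pst l = 1 + l ^ 2 := by
      unfold pst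
      field_simp
    have h2 : (1 - l ^ 2) * p ≤ (1 - l ^ 2) * pst l := mul_le_mul_of_nonneg_left hp2 hl2.le
    linarith
  have hder : ∀ s, 0 < s → HasDerivAt (fun s => s ^ (p + 1) * YY P χ s + C' / κ * s ^ (-κ))
      ((p + 1) * s ^ (p + 1 - 1) * YY P χ s + s ^ (p + 1) * YY1 P χ s +
        C' / κ * (-κ * s ^ (-κ - 1))) s := by
    intro s hs
    exact ((Real.hasDerivAt_rpow_const (Or.inl hs.ne')).fun_mul (d.deriv_YY hs)).fun_add
      ((Real.hasDerivAt_rpow_const (Or.inl hs.ne')).const_mul _)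
  have hanti : AntitoneOn (fun s => s ^ (p + 1) * YY P χ s + C' / κ * s ^ (-κ)) (Ici s1) := by
    apply antitoneOn_of_deriv_nonpos (convex_Ici s1)
    · intro s hs
      have hs' : s1 ≤ s := hs
      exact (hder s (by linarith)).continuousAt.continuousWithinAt
    · intro s hs
      rw [interior_Ici] at hs
      have hs' : s1 < s := hs
      exact (hder s (by linarith)).differentiableAt.differentiableWithinAt
    · intro s hs
      rw [interior_Ici] at hs
      have hs' : s1 < s := hs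
      have hs0 : 0 < s := by linarith
      rw [(hder s hs0).deriv]
      have h1 := d.lowY hs0
      have h2 := hI s hs'.le
      have hY := d.YY_nonneg hs0
      have e1 : s ^ (p + 1 - 1) = s ^ p := by congr 1; ring
      have e2 : s ^ (p + 1) = s ^ p * s := by rw [Real.rpow_add_one hs0.ne']
      have e3 : s ^ (-κ - 1) = s ^ p * s ^ a := by
        rw [← Real.rpow_add hs0]
        congr 1
        rw [hκ]; ring
      have hsp : 0 < s ^ p := Real.rpow_pos_of_pos hs0 _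
      have h3 : (1 - l ^ 2) * ((p + 1) * YY P χ s + s * YY1 P χ s) ≤ l * (M * s ^ a) := by
        have g1 : 2 * YY P χ s + (1 - l ^ 2) * (s * YY1 P χ s) ≤ l * II l P χ s := by
          have g2 := mul_le_mul_of_nonneg_left h1 hl0.le
          have g3 : l * (2 / l * YY P χ s + (1 - l ^ 2) / l * (s * YY1 P χ s)) =
              2 * YY P χ s + (1 - l ^ 2) * (s * YY1 P χ s) := by field_simp
          rwa [g3] at g2
        have g4 := mul_le_mul_of_nonneg_left h2 hl0.le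
        have g5 := mul_le_mul_of_nonneg_right hp3 hY
        linarith
      have h4 : (p + 1) * YY P χ s + s * YY1 P χ s ≤ C' * s ^ a := by
        rw [hC', div_mul_eq_mul_div, le_div_iff₀ hl2]
        linarith
      have h5 := mul_le_mul_of_nonneg_left h4 hsp.le
      rw [e1, e2, e3]
      have h6 : C' / κ * (-κ * (s ^ p * s ^ a)) = -(s ^ p * (C' * s ^ a)) := by
        field_simp
      rw [h6]
      linarith
  refine ⟨s1 ^ (p + 1) * YY P χ s1 + C' / κ * s1 ^ (-κ), fun S hS => ?_⟩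
  have h1 := hanti (mem_Ici.2 le_rfl) (mem_Ici.2 hS) hS
  have hS0 : 0 < S := by linarith
  have h2 : 0 ≤ C' / κ * S ^ (-κ) := by positivity
  simp only at h1
  linarith

/-- Chebyshev -/
theorem Dat.cheb (d : Dat l P χ) {S : ℝ} (hS : 0 < S) :
    ENNReal.ofReal (1 / (48 * S)) * volume {z : ℝ × ℝ | χ z = 1 ∧ 2 * S ≤ T0 P z} ≤
      ENNReal.ofReal (YY P χ S) := by
  have hA : MeasurableSet {z : ℝ × ℝ | χ z = 1 ∧ 2 * S ≤ T0 P z} :=
    (measurableSet_eq_fun d.hχ.measurable measurable_const).inter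
      (measurableSet_le measurable_const (meas_T0 P))
  have hnn : 0 ≤ᵐ[volume] fun z : ℝ × ℝ => χ z ^ 2 * fM S (T0 P z) := by
    filter_upwards [d.gd] with z hz
    by_cases h0 : χ z = 0
    · rw [h0]; simp
    · exact mul_nonneg (sq_nonneg _) (fM_nonneg (hz h0).1 hS)
  unfold YY
  rw [ofReal_integral_eq_lintegral_ofReal (d.intM hS) hnn]
  calc ENNReal.ofReal (1 / (48 * S)) * volume {z : ℝ × ℝ | χ z = 1 ∧ 2 * S ≤ T0 P z}
      = ∫⁻ _ in {z : ℝ × ℝ | χ z = 1 ∧ 2 * S ≤ T0 P z}, ENNReal.ofReal (1 / (48 * S)) := by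
        rw [setLIntegral_const]
    _ ≤ ∫⁻ z in {z : ℝ × ℝ | χ z = 1 ∧ 2 * S ≤ T0 P z},
        ENNReal.ofReal (χ z ^ 2 * fM S (T0 P z)) := by
        refine setLIntegral_mono' hA fun z hz => ?_
        obtain ⟨hz1, hz2⟩ := hz
        apply ENNReal.ofReal_le_ofReal
        rw [hz1, one_pow, one_mul]
        exact fM_ge hS hz2
    _ ≤ _ := setLIntegral_le_lintegral _ _

theorem t_STG (h1 : S_E0) (h2 : S_ERR) (h3 : S_SIG) (h4 : S_SUP) : S_STG := by
  intro l b C R z0 g P L ρ q K χ hρ hρ2 hq hK hχ3 hχc hχs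
  obtain ⟨e, he1, he2, he3, herr⟩ := h2 l b C R z0 g P L
  obtain ⟨M, hM, hMb⟩ := herr ρ q K χ hρ hρ2 hq hK hχ3 hχc hχs
  obtain ⟨K1, hK1, hsup⟩ := h4 l b C R z0 g P L
  obtain ⟨hT0, -, hsig⟩ := h3 l b C R z0 g P L
  have hsub : tsupport χ ⊆ Metric.ball z0 (2 * R) := hχs.trans (Metric.ball_subset_ball hρ2)
  have hsig := hsig χ hχ3 hχc hsub
  have hl0 := L.l0
  have hl1 := L.l1
  have hb0 := L.b0
  have hb1 := L.b1
  have hR0 := L.R0
  obtain ⟨s1, hs1⟩ : ∃ s1 : ℝ, s1 = max 1 K1 := ⟨_, rfl⟩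
  have hs11 : 1 ≤ s1 := by rw [hs1]; exact le_max_left _ _
  have hs1K : K1 ≤ s1 := by rw [hs1]; exact le_max_right _ _
  obtain ⟨sig, hsg⟩ : ∃ sig : ℝ, sig = (∫ z : ℝ × ℝ, g z * lap2 χ z) -
    ∫ z : ℝ × ℝ, χ z ^ 2 * T0 P z := ⟨_, rfl⟩
  obtain ⟨a, ha⟩ : ∃ a : ℝ, a = 1 - q - 2 / (1 - b) := ⟨_, rfl⟩
  have hb2 : 2 / (1 - b) = 2 + 2 * b / (1 - b) := by
    have : 1 - b ≠ 0 := by linarith
    field_simp
    ring
  have hbb : 0 < 2 * b / (1 - b) := by
    have : 0 < 1 - b := by linarith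
    positivity
  have hE : ∀ s, s1 ≤ s → II l P χ s + l / (3 * s ^ 2) * sig ≤ M * s ^ a := by
    intro s hs
    have hs0 : 0 < s := by linarith
    rw [hsg, ha]
    refine h1 l b C R z0 g P L χ e hχ3 hχc hsub he1 he2 he3 s _ hs0 ?_ ?_
    · intro z hz
      have g1 := (hsup 1 one_pos le_rfl z (Metric.ball_subset_closedBall (hsub hz))).1
      rw [Real.one_rpow, mul_one] at g1
      exact (le_abs_self _).trans (g1.trans (hs1K.trans hs))
    · intro t1 ht1 ht1'
      exact hMb s (by linarith) t1 ht1 ht1'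
  have hχ : Continuous χ := hχ3.continuous
  have hsupp : Function.support (fun z => χ z ^ 2 * T0 P z) ⊆ Metric.closedBall z0 (2 * R) := by
    intro z hz
    have : χ z ≠ 0 := by
      intro h0
      apply hz
      simp [h0]
    exact Metric.ball_subset_closedBall (hsub (subset_tsupport χ this))
  have d : Dat l P χ := by
    refine ⟨hl0, hl1, hχ, ?_, ?_⟩
    · rw [← integrableOn_iff_integrable_of_support_subset hsupp]
      exact hT0.continuousOn_mul (hχ.pow 2).continuousOn (isCompact_closedBall z0 (2 * R))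
    · have g1 := (ae_restrict_iff' measurableSet_ball).1 L.good
      filter_upwards [g1] with z hz h0
      have hz3 : z ∈ Metric.ball z0 (3 * R) :=
        Metric.ball_subset_ball (by linarith) (hsub (subset_tsupport χ h0))
      obtain ⟨-, -, g2, g3, g4, g5⟩ := hz hz3
      exact ⟨add_nonneg g2 g3, g4, g5⟩
  -- no singular part
  have hsig0 : sig ≤ 0 := by
    have hlim : Tendsto (fun n : ℕ => M * (n : ℝ) ^ (-(-(2 + a))) + l⁻¹ * JJ P χ n) atTop
        (𝓝 (M * 0 + l⁻¹ * 0)) := by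
      refine Tendsto.add (Tendsto.const_mul _ ?_) (d.tendJ.const_mul _)
      refine (tendsto_rpow_neg_atTop (y := -(2 + a)) ?_).comp tendsto_natCast_atTop_atTop
      rw [ha]; linarith
    rw [mul_zero, mul_zero, add_zero] at hlim
    have hle : l / 3 * sig ≤ 0 := by
      refine ge_of_tendsto hlim ?_
      obtain ⟨N, hN⟩ := exists_nat_ge s1
      filter_upwards [eventually_ge_atTop N] with n hn
      have hn' : s1 ≤ (n : ℝ) := hN.trans (by exact_mod_cast hn)
      have hn0 : (0 : ℝ) < n := by linarith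
      have g1 := hE n hn'
      have g2 := d.lowJ hn0
      have g3 := mul_le_mul_of_nonneg_left g1 (sq_nonneg (n : ℝ))
      have g4 : (n : ℝ) ^ 2 * (II l P χ n + l / (3 * (n : ℝ) ^ 2) * sig) =
          (n : ℝ) ^ 2 * II l P χ n + l / 3 * sig := by
        field_simp
      have g5 : (n : ℝ) ^ 2 * (M * (n : ℝ) ^ a) = M * (n : ℝ) ^ (-(-(2 + a))) := by
        rw [neg_neg, Real.rpow_add hn0]
        rw [Real.rpow_ofNat]
        ring
      rw [g4, g5] at g3
      linarith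
    have hl3 : 0 < l / 3 := by positivity
    by_contra hcon
    push Not at hcon
    have := mul_pos hl3 hcon
    linarith
  have hsig1 : sig = 0 := le_antisymm hsig0 (by rw [hsg]; linarith)
  refine ⟨by rw [hsg] at hsig1; linarith, ?_⟩
  intro p hp1 hp2 hp3
  have hI : ∀ s, s1 ≤ s → II l P χ s ≤ M * s ^ a := by
    intro s hs
    have g1 := hE s hs
    rw [hsig1, mul_zero, add_zero] at g1
    exact g1
  obtain ⟨K2, hK2⟩ := d.weak M a s1 p hs11 hM hp2 hI (by rw [ha]; linarith)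
  have hvol : volume {z : ℝ × ℝ | χ z = 1} < ⊤ := by
    refine lt_of_le_of_lt (measure_mono ?_) (IsCompact.measure_lt_top hχc)
    intro z hz
    apply subset_tsupport χ
    have hz' : χ z = 1 := hz
    rw [Function.mem_support, hz']
    exact one_ne_zero
  refine ⟨48 * |K2| + s1 ^ p * (volume {z : ℝ × ℝ | χ z = 1}).toReal + 1, by positivity, ?_⟩
  intro S hS
  have hS0 : 0 < S := by linarith
  rcases le_or_gt s1 S with h | h
  · have g1 := d.cheb hS0
    have g2 := hK2 S h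
    have g3 : ENNReal.ofReal (S ^ p) = ENNReal.ofReal (48 * S ^ (p + 1)) *
        ENNReal.ofReal (1 / (48 * S)) := by
      rw [← ENNReal.ofReal_mul (by positivity), Real.rpow_add_one hS0.ne']
      congr 1
      field_simp
    rw [g3, mul_assoc]
    calc ENNReal.ofReal (48 * S ^ (p + 1)) * (ENNReal.ofReal (1 / (48 * S)) *
          volume {z : ℝ × ℝ | χ z = 1 ∧ 2 * S ≤ T0 P z})
        ≤ ENNReal.ofReal (48 * S ^ (p + 1)) * ENNReal.ofReal (YY P χ S) := by gcongr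
      _ = ENNReal.ofReal (48 * S ^ (p + 1) * YY P χ S) := by
          rw [← ENNReal.ofReal_mul (by positivity)]
      _ ≤ _ := by
          apply ENNReal.ofReal_le_ofReal
          have g5 := le_abs_self K2
          have g6 : 0 ≤ s1 ^ p * (volume {z : ℝ × ℝ | χ z = 1}).toReal := by positivity
          have g7 : 48 * S ^ (p + 1) * YY P χ S = 48 * (S ^ (p + 1) * YY P χ S) := by ring
          rw [g7]
          linarith
  · have g1 : volume {z : ℝ × ℝ | χ z = 1 ∧ 2 * S ≤ T0 P z} ≤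
        volume {z : ℝ × ℝ | χ z = 1} := measure_mono fun z hz => hz.1
    have g2 : S ^ p ≤ s1 ^ p := Real.rpow_le_rpow hS0.le h.le (by linarith)
    calc ENNReal.ofReal (S ^ p) * volume {z : ℝ × ℝ | χ z = 1 ∧ 2 * S ≤ T0 P z}
        ≤ ENNReal.ofReal (s1 ^ p) * volume {z : ℝ × ℝ | χ z = 1} := by
          gcongr
      _ = ENNReal.ofReal (s1 ^ p * (volume {z : ℝ × ℝ | χ z = 1}).toReal) := by
          rw [ENNReal.ofReal_mul (by positivity), ENNReal.ofReal_toReal hvol.ne]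
      _ ≤ _ := by
          apply ENNReal.ofReal_le_ofReal
          have := abs_nonneg K2
          linarith

end Pool.Agent.W775.WH.STG
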