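import Pool.Agent.W775.WH.Stm

set_option autoImplicit false

open MeasureTheory Set Filter Topology

namespace Pool.Agent.W775.WH.STR

lemma rot_rot {c s : ℝ} (h : c ^ 2 + s ^ 2 = 1) (z : ℝ × ℝ) : rot c s (rot c (-s) z) = z := by
  refine Prod.ext ?_ ?_
  · simp only [rot]
    linear_combination z.1 * h
  · simp only [rot]
    linear_combination z.2 * h

theorem t_STR (h1 : S_ROT) (h2 : S_ROTS) (h3 : S_STR0) : S_STR := by
  intro l Ω u hl hMA a ha b hb hab p hp hp'
  have hv : 0 < (b.1 - a.1) ^ 2 + (b.2 - a.2) ^ 2 := by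
    by_contra h
    push Not at h
    have e1 : (b.1 - a.1) ^ 2 = 0 := by nlinarith [sq_nonneg (b.1 - a.1), sq_nonneg (b.2 - a.2)]
    have e2 : (b.2 - a.2) ^ 2 = 0 := by nlinarith [sq_nonneg (b.1 - a.1), sq_nonneg (b.2 - a.2)]
    apply hab
    refine Prod.ext ?_ ?_
    · have := pow_eq_zero_iff (two_ne_zero) |>.1 e1
      linarith
    · have := pow_eq_zero_iff (two_ne_zero) |>.1 e2
      linarith
  set N : ℝ := Real.sqrt ((b.1 - a.1) ^ 2 + (b.2 - a.2) ^ 2) with hN
  have hN0 : 0 < N := Real.sqrt_pos.2 hv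
  have hN2 : N ^ 2 = (b.1 - a.1) ^ 2 + (b.2 - a.2) ^ 2 := Real.sq_sqrt hv.le
  have hcs : ((b.1 - a.1) / N) ^ 2 + ((b.2 - a.2) / N) ^ 2 = 1 := by
    rw [div_pow, div_pow, ← add_div, ← hN2, div_self (by positivity)]
  set c : ℝ := (b.1 - a.1) / N with hc
  set s : ℝ := (b.2 - a.2) / N with hs
  have hc' : c * N = b.1 - a.1 := by
    rw [hc]
    field_simp
  have hs' : s * N = b.2 - a.2 := by
    rw [hs]
    field_simp
  refine h3 l (rot c s ⁻¹' Ω) (fun z => u (rot c s z)) hl (h1 l Ω u c s hcs hMA)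
    (rot c (-s) a) ?_ (rot c (-s) b) ?_ ?_ ?_ (rot c (-s) p) (h2 Ω u c s hcs a p hp)
    (h2 Ω u c s hcs b p hp')
  · rw [mem_preimage, rot_rot hcs]
    exact ha
  · rw [mem_preimage, rot_rot hcs]
    exact hb
  · simp only [rot]
    linear_combination s * hc' - c * hs'
  · simp only [rot]
    have e : c * (b.1 - a.1) + s * (b.2 - a.2) = N := by
      rw [← hc', ← hs']
      linear_combination N * hcs
    linarith

end Pool.Agent.W775.WH.STR
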