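import Pool.Agent.W775.WH.Stm

/-!
Project WH: there is no horizontal flat segment (Alexandrov's argument).
-/

set_option autoImplicit false

open MeasureTheory Set Filter Topology

namespace Pool.Agent.W775.WH.STR0

open Pool.Agent.W775.WH

theorem t_STR0 : S_STR0 := by
  intro l Ω u hl hma a ha b hb hab2 hab1 p hpa hpb
  obtain ⟨x0, hx0⟩ : ∃ x0 : ℝ, x0 = (a.1 + b.1) / 2 := ⟨_, rfl⟩
  obtain ⟨r, hr⟩ : ∃ r : ℝ, r = (b.1 - a.1) / 2 := ⟨_, rfl⟩
  obtain ⟨y0, hy0⟩ : ∃ y0 : ℝ, y0 = a.2 := ⟨_, rfl⟩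
  have hr0 : 0 < r := by rw [hr]; linarith
  have ha1 : a.1 = x0 - r := by rw [hx0, hr]; ring
  have hb1 : b.1 = x0 + r := by rw [hx0, hr]; ring
  have hb2 : b.2 = y0 := by rw [hy0, hab2]
  have haeq : a = (x0 - r, y0) := Prod.ext ha1 hy0.symm
  have hbeq : b = (x0 + r, y0) := Prod.ext hb1 hb2
  -- a rectangle
  obtain ⟨h, hh0, hrect⟩ : ∃ h : ℝ, 0 < h ∧ ∀ x t : ℝ, |x| ≤ r → 0 ≤ t → t ≤ h →
      (x0 + x, y0 + t) ∈ Ω := by
    obtain ⟨e1, he1, hs1⟩ := Metric.isOpen_iff.1 hma.op a ha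
    obtain ⟨e2, he2, hs2⟩ := Metric.isOpen_iff.1 hma.op b hb
    refine ⟨min e1 e2 / 2, by positivity, ?_⟩
    intro x t hx ht0 ht
    have hm1 : min e1 e2 ≤ e1 := min_le_left _ _
    have hm2 : min e1 e2 ≤ e2 := min_le_right _ _
    have hmp : 0 < min e1 e2 := lt_min he1 he2
    have h1 : ((x0 - r, y0 + t) : ℝ × ℝ) ∈ Ω := by
      apply hs1
      rw [haeq, Metric.mem_ball, Prod.dist_eq]
      simp only [dist_self, Real.dist_eq, add_sub_cancel_left]
      rw [abs_of_nonneg ht0]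
      exact max_lt he1 (by linarith)
    have h2 : ((x0 + r, y0 + t) : ℝ × ℝ) ∈ Ω := by
      apply hs2
      rw [hbeq, Metric.mem_ball, Prod.dist_eq]
      simp only [dist_self, Real.dist_eq, add_sub_cancel_left]
      rw [abs_of_nonneg ht0]
      exact max_lt he2 (by linarith)
    rw [abs_le] at hx
    have h3 := hma.cx h1 h2 (a := (r - x) / (2 * r)) (b := (r + x) / (2 * r))
      (div_nonneg (by linarith) (by linarith)) (div_nonneg (by linarith) (by linarith))
      (by field_simp; ring)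
    have e : ((r - x) / (2 * r)) • ((x0 - r, y0 + t) : ℝ × ℝ) +
        ((r + x) / (2 * r)) • ((x0 + r, y0 + t) : ℝ × ℝ) = (x0 + x, y0 + t) := by
      ext
      · simp only [Prod.fst_add, Prod.smul_fst, smul_eq_mul]
        field_simp
        ring
      · simp only [Prod.snd_add, Prod.smul_snd, smul_eq_mul]
        field_simp
        ring
    rw [e] at h3
    exact h3
  -- the function
  obtain ⟨G, hG⟩ : ∃ G : ℝ → ℝ → ℝ, ∀ x t, G x t =
      u (x0 + x, y0 + t) - u a - p.1 * (x0 + x - a.1) - p.2 * t := ⟨_, fun _ _ => rfl⟩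
  have hG0 : ∀ x t, |x| ≤ r → 0 ≤ t → t ≤ h → 0 ≤ G x t := by
    intro x t hx ht0 ht
    have := hpa _ (hrect x t hx ht0 ht)
    simp only at this
    rw [hG]
    rw [← hy0] at this
    have e : y0 + t - y0 = t := by ring
    rw [e] at this
    linarith
  have hconv : ∀ x1 t1 x2 t2 s : ℝ, |x1| ≤ r → 0 ≤ t1 → t1 ≤ h → |x2| ≤ r → 0 ≤ t2 → t2 ≤ h →
      0 ≤ s → s ≤ 1 → G (s * x1 + (1 - s) * x2) (s * t1 + (1 - s) * t2) ≤
        s * G x1 t1 + (1 - s) * G x2 t2 := by
    intro x1 t1 x2 t2 s hx1 ht1 ht1' hx2 ht2 ht2' hs hs1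
    have := hma.cv.2 (hrect x1 t1 hx1 ht1 ht1') (hrect x2 t2 hx2 ht2 ht2') hs
      (show 0 ≤ 1 - s by linarith) (by ring)
    have e : s • ((x0 + x1, y0 + t1) : ℝ × ℝ) + (1 - s) • ((x0 + x2, y0 + t2) : ℝ × ℝ) =
        (x0 + (s * x1 + (1 - s) * x2), y0 + (s * t1 + (1 - s) * t2)) := by
      ext
      · simp only [Prod.fst_add, Prod.smul_fst, smul_eq_mul]
        ring
      · simp only [Prod.snd_add, Prod.smul_snd, smul_eq_mul]
        ring
    rw [e, smul_eq_mul, smul_eq_mul] at this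
    rw [hG, hG, hG]
    nlinarith [this]
  have hGz : ∀ x, |x| ≤ r → G x 0 = 0 := by
    intro x hx
    apply le_antisymm _ (hG0 x 0 hx le_rfl hh0.le)
    have hG1 : G (-r) 0 = 0 := by
      rw [hG, haeq]
      simp only [add_zero]
      rw [← sub_eq_add_neg]
      ring
    have hG2 : G r 0 = 0 := by
      apply le_antisymm _ (hG0 r 0 (by rw [abs_of_pos hr0]) le_rfl hh0.le)
      have := hpb a ha
      rw [hG, add_zero, ← hbeq]
      rw [ha1, hb1, hb2, ← hy0] at this
      rw [ha1]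
      linarith
    have hx' := abs_le.1 hx
    have := hconv (-r) 0 r 0 ((r - x) / (2 * r)) (by rw [abs_neg, abs_of_pos hr0]) le_rfl hh0.le
      (by rw [abs_of_pos hr0]) le_rfl hh0.le (div_nonneg (by linarith) (by linarith))
      (by rw [div_le_one (by linarith)]; linarith)
    rw [hG1, hG2] at this
    have e : (r - x) / (2 * r) * -r + (1 - (r - x) / (2 * r)) * r = x := by
      field_simp
      ring
    rw [e] at this
    simpa using this
  -- consequences of convexity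
  have hC1 : ∀ m x t, |m| ≤ r → |x| ≤ r → |2 * m - x| ≤ r → 0 ≤ t → t ≤ h →
      G m (t / 2) ≤ G x t / 2 := by
    intro m x t hm hx hmx ht0 ht
    have := hconv (2 * m - x) 0 x t (1 / 2) hmx le_rfl hh0.le hx ht0 ht (by norm_num) (by norm_num)
    rw [hGz _ hmx] at this
    have e1 : 1 / 2 * (2 * m - x) + (1 - 1 / 2) * x = m := by ring
    have e2 : 1 / 2 * 0 + (1 - 1 / 2) * t = t / 2 := by ring
    rw [e1, e2] at this
    linarith
  have hC2 : ∀ x t s, |x| ≤ r → 0 ≤ t → t ≤ h → 0 ≤ s → s ≤ 1 → G x (s * t) ≤ s * G x t := by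
    intro x t s hx ht0 ht hs hs1
    have := hconv x t x 0 s hx ht0 ht hx le_rfl hh0.le hs hs1
    rw [hGz _ hx] at this
    have e1 : s * x + (1 - s) * x = x := by ring
    have e2 : s * t + (1 - s) * 0 = s * t := by ring
    rw [e1, e2] at this
    linarith
  -- the slope
  obtain ⟨A, hA⟩ : ∃ A : ℝ, A = sInf ((fun t => G 0 t / t) '' Ioc 0 h) := ⟨_, rfl⟩
  have habs0 : |(0 : ℝ)| ≤ r := by rw [abs_zero]; exact hr0.le
  have hbdd : BddBelow ((fun t => G 0 t / t) '' Ioc 0 h) := by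
    refine ⟨0, ?_⟩
    rintro _ ⟨t, ht, rfl⟩
    exact div_nonneg (hG0 0 t habs0 ht.1.le ht.2) ht.1.le
  have hlow : ∀ x t, |x| ≤ r → 0 ≤ t → t ≤ h → A * t ≤ G x t := by
    intro x t hx ht0 ht
    rcases ht0.lt_or_eq with htp | ht0'
    · have h1 : A ≤ G 0 (t / 2) / (t / 2) := by
        rw [hA]
        exact csInf_le hbdd ⟨t / 2, ⟨by linarith, by linarith⟩, rfl⟩
      rw [le_div_iff₀ (by linarith)] at h1
      have h2 := hC1 0 x t habs0 hx (by rw [mul_zero, zero_sub, abs_neg]; exact hx) ht0 ht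
      linarith
    · rw [← ht0', hGz x hx, mul_zero]
  -- small epsilon
  obtain ⟨ε, hε0, hε⟩ : ∃ ε : ℝ, 0 < ε ∧ 1152 * ε ^ 2 < l * r ^ 2 := by
    refine ⟨r * min l 1 / 48, by positivity, ?_⟩
    have h1 : min l 1 ≤ l := min_le_left _ _
    have h2 : min l 1 ≤ 1 := min_le_right _ _
    have h3 : 0 < min l 1 := lt_min hl one_pos
    have h4 : min l 1 ^ 2 ≤ l := by nlinarith
    have h5 : 0 < r ^ 2 := by positivity
    have h6 : (r * min l 1 / 48) ^ 2 = r ^ 2 * min l 1 ^ 2 / 2304 := by ring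
    rw [h6]
    nlinarith
  obtain ⟨t0, ht0, hT⟩ : ∃ t0 ∈ Ioc 0 h, G 0 t0 / t0 < A + ε := by
    have hne : ((fun t => G 0 t / t) '' Ioc 0 h).Nonempty := ⟨_, ⟨h, ⟨hh0, le_rfl⟩, rfl⟩⟩
    have : sInf ((fun t => G 0 t / t) '' Ioc 0 h) < A + ε := by rw [← hA]; linarith
    obtain ⟨_, ⟨t, ht, rfl⟩, hlt⟩ := exists_lt_of_csInf_lt hne this
    exact ⟨t, ht, hlt⟩
  rw [div_lt_iff₀ ht0.1] at hT
  obtain ⟨T, hTdef⟩ : ∃ T : ℝ, T = t0 / 2 := ⟨_, rfl⟩
  have hT0 : 0 < T := by rw [hTdef]; linarith [ht0.1]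
  have hTh : T ≤ h := by rw [hTdef]; linarith [ht0.1, ht0.2]
  have hend : ∀ m, |m| = r / 3 → ∀ t, 0 ≤ t → t ≤ T → G m t ≤ (A + ε) * t := by
    intro m hm t ht htT
    have hmr : |m| ≤ r := by rw [hm]; linarith
    have h1 := hC1 m 0 t0 hmr habs0 (by
      rw [sub_zero, abs_mul, hm, abs_of_pos (by norm_num : (0 : ℝ) < 2)]
      linarith) ht0.1.le ht0.2
    rw [← hTdef] at h1
    have h2 := hC2 m T (t / T) hmr hT0.le hTh (div_nonneg ht hT0.le)
      (by rw [div_le_one hT0]; exact htT)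
    rw [div_mul_cancel₀ _ hT0.ne'] at h2
    have h3 : G m T ≤ (A + ε) * T := by
      rw [hTdef] at h1 ⊢
      linarith
    calc G m t ≤ t / T * G m T := h2
      _ ≤ t / T * ((A + ε) * T) := mul_le_mul_of_nonneg_left h3 (div_nonneg ht hT0.le)
      _ = (A + ε) * t := by field_simp
  have hup : ∀ x t, |x| ≤ r / 3 → 0 ≤ t → t ≤ T → G x t ≤ (A + ε) * t := by
    intro x t hx ht htT
    have h1 := hend (-(r / 3)) (by rw [abs_neg, abs_of_pos (by linarith)]) t ht htT
    have h2 := hend (r / 3) (by rw [abs_of_pos (by linarith)]) t ht htT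
    have hx' := abs_le.1 hx
    have h3 := hconv (-(r / 3)) t (r / 3) t ((r / 3 - x) / (2 * (r / 3)))
      (by rw [abs_neg, abs_of_pos (by linarith)]; linarith) ht (by linarith)
      (by rw [abs_of_pos (by linarith)]; linarith) ht (by linarith)
      (div_nonneg (by linarith) (by linarith))
      (by rw [div_le_one (by linarith)]; linarith)
    have e1 : (r / 3 - x) / (2 * (r / 3)) * -(r / 3) +
        (1 - (r / 3 - x) / (2 * (r / 3))) * (r / 3) = x := by
      field_simp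
      ring
    have e2 : (r / 3 - x) / (2 * (r / 3)) * t + (1 - (r / 3 - x) / (2 * (r / 3))) * t = t := by
      ring
    rw [e1, e2] at h3
    have hs0 : 0 ≤ (r / 3 - x) / (2 * (r / 3)) := div_nonneg (by linarith) (by linarith)
    have hs1 : (r / 3 - x) / (2 * (r / 3)) ≤ 1 := by rw [div_le_one (by linarith)]; linarith
    calc G x t ≤ _ := h3
      _ ≤ (r / 3 - x) / (2 * (r / 3)) * ((A + ε) * t) +
          (1 - (r / 3 - x) / (2 * (r / 3))) * ((A + ε) * t) :=
        add_le_add (mul_le_mul_of_nonneg_left h1 hs0)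
          (mul_le_mul_of_nonneg_left h2 (by linarith))
      _ = _ := by ring
  -- the set
  obtain ⟨F, hF⟩ : ∃ F : Set (ℝ × ℝ), F = Icc (x0 - r / 6) (x0 + r / 6) ×ˢ
      Icc (y0 + T / 2) (y0 + 3 * T / 4) := ⟨_, rfl⟩
  have hFm : MeasurableSet F := by rw [hF]; exact measurableSet_Icc.prod measurableSet_Icc
  have hFΩ : F ⊆ Ω := by
    rw [hF]
    rintro ⟨x, y⟩ ⟨hx, hy⟩
    have := hrect (x - x0) (y - y0) (by
      rw [abs_le]
      constructor <;> linarith [hx.1, hx.2]) (by linarith [hy.1]) (by linarith [hy.2])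
    simpa using this
  have hincl : (⋃ z ∈ F, Sub Ω u z) ⊆ Icc (p.1 - 6 * ε * T / r) (p.1 + 6 * ε * T / r) ×ˢ
      Icc (p.2 + A - 4 * ε) (p.2 + A + 4 * ε) := by
    intro q hq
    simp only [mem_iUnion] at hq
    obtain ⟨z, hz, hqz⟩ := hq
    rw [hF] at hz
    obtain ⟨hz1, hz2⟩ := hz
    obtain ⟨x, hx⟩ : ∃ x : ℝ, x = z.1 - x0 := ⟨_, rfl⟩
    obtain ⟨t, ht⟩ : ∃ t : ℝ, t = z.2 - y0 := ⟨_, rfl⟩
    have hzeq : z = (x0 + x, y0 + t) := by
      ext
      · simp [hx]
      · simp [ht]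
    have hxa : |x| ≤ r / 6 := by
      rw [abs_le, hx]
      constructor <;> linarith [hz1.1, hz1.2]
    have ht1 : T / 2 ≤ t := by rw [ht]; linarith [hz2.1]
    have ht2 : t ≤ 3 * T / 4 := by rw [ht]; linarith [hz2.2]
    have hxa' := abs_le.1 hxa
    -- comparison
    have hcmp : ∀ x' t', |x'| ≤ r / 3 → 0 ≤ t' → t' ≤ T →
        (q.1 - p.1) * (x' - x) + (q.2 - p.2) * (t' - t) ≤ (A + ε) * t' - A * t := by
      intro x' t' hx' ht' htT'
      have hx'r : |x'| ≤ r := by linarith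
      have h1 := hqz _ (hrect x' t' hx'r ht' (by linarith))
      rw [hzeq] at h1
      simp only at h1
      have h2 := hup x' t' hx' ht' htT'
      have h3 := hlow x t (by linarith) (by linarith) (by linarith)
      rw [hG] at h2 h3
      have e1 : x0 + x' - (x0 + x) = x' - x := by ring
      have e2 : y0 + t' - (y0 + t) = t' - t := by ring
      rw [e1, e2] at h1
      nlinarith [h1, h2, h3]
    have htT : t ≤ T := by linarith
    have h1 := hcmp (x + r / 6) t (by rw [abs_le]; constructor <;> linarith) (by linarith) htT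
    have h2 := hcmp (x - r / 6) t (by rw [abs_le]; constructor <;> linarith) (by linarith) htT
    have h3 := hcmp x (t + T / 4) (by rw [abs_le]; constructor <;> linarith) (by linarith)
      (by linarith)
    have h4 := hcmp x (t - T / 4) (by rw [abs_le]; constructor <;> linarith) (by linarith)
      (by linarith)
    have e1 : (q.1 - p.1) * (x + r / 6 - x) + (q.2 - p.2) * (t - t) = (q.1 - p.1) * r / 6 := by ring
    have e2 : (q.1 - p.1) * (x - r / 6 - x) + (q.2 - p.2) * (t - t) = -((q.1 - p.1) * r / 6) := by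
      ring
    have e3 : (q.1 - p.1) * (x - x) + (q.2 - p.2) * (t + T / 4 - t) = (q.2 - p.2) * T / 4 := by ring
    have e4 : (q.1 - p.1) * (x - x) + (q.2 - p.2) * (t - T / 4 - t) = -((q.2 - p.2) * T / 4) := by
      ring
    rw [e1] at h1
    rw [e2] at h2
    rw [e3] at h3
    rw [e4] at h4
    have hεt : ε * t ≤ ε * T := mul_le_mul_of_nonneg_left htT hε0.le
    refine ⟨⟨?_, ?_⟩, ⟨?_, ?_⟩⟩
    · have : p.1 - q.1 ≤ 6 * ε * T / r := by
        rw [le_div_iff₀ hr0]
        nlinarith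
      linarith
    · have : q.1 - p.1 ≤ 6 * ε * T / r := by
        rw [le_div_iff₀ hr0]
        nlinarith
      linarith
    · have h5 : (p.2 + A - q.2) * T ≤ 4 * ε * T := by nlinarith
      have := le_of_mul_le_mul_right h5 hT0
      linarith
    · have h5 : (q.2 - p.2 - A) * T ≤ 4 * ε * T := by nlinarith
      have := le_of_mul_le_mul_right h5 hT0
      linarith
  have hvol := (hma.bd F hFm hFΩ).1.trans (measure_mono hincl)
  rw [hF, Measure.volume_eq_prod, Measure.prod_prod, Measure.prod_prod, Real.volume_Icc,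
    Real.volume_Icc, Real.volume_Icc, Real.volume_Icc, ← ENNReal.ofReal_mul (by linarith),
    ← ENNReal.ofReal_mul hl.le, ← ENNReal.ofReal_mul (by
      have : 0 ≤ 6 * ε * T / r := by positivity
      linarith), ENNReal.ofReal_le_ofReal_iff (by
      have : 0 ≤ 6 * ε * T / r := by positivity
      apply mul_nonneg <;> linarith)] at hvol
  have e1 : l * ((x0 + r / 6 - (x0 - r / 6)) * (y0 + 3 * T / 4 - (y0 + T / 2))) = l * r * T / 12 := by
    ring
  have e2 : (p.1 + 6 * ε * T / r - (p.1 - 6 * ε * T / r)) *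
      (p.2 + A + 4 * ε - (p.2 + A - 4 * ε)) = 96 * ε ^ 2 * T / r := by
    field_simp
    ring
  rw [e1, e2, le_div_iff₀ hr0] at hvol
  have h5 : (l * r ^ 2) * T ≤ (1152 * ε ^ 2) * T := by nlinarith
  have := le_of_mul_le_mul_right h5 hT0
  linarith

end Pool.Agent.W775.WH.STR0
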