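import Pool.Agent.W775.WH.Stm

/-! Project WH (MP_4aaa5f_an): S_SUP, upper bounds of the heat extension from the Hoelder estimate. -/

set_option autoImplicit false

open MeasureTheory Set Filter Topology

namespace Pool.Agent.W775.WH.SUP

open Pool.Agent.W775.WH

/-- the one dimensional gaussian -/
noncomputable def G (x : ℝ) : ℝ := Real.exp (-(1 / 4) * x ^ 2)

theorem gam_eq (w : ℝ × ℝ) : gam w = (4 * Real.pi)⁻¹ * (G w.1 * G w.2) := by
  unfold gam G
  rw [← Real.exp_add]
  congr 2
  ring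

theorem int_G : Integrable G := integrable_exp_neg_mul_sq (by norm_num)

theorem int_xG : Integrable (fun x : ℝ => x * G x) := integrable_mul_exp_neg_mul_sq (by norm_num)

theorem int_x2G : Integrable (fun x : ℝ => x ^ 2 * G x) := by
  have := integrable_rpow_mul_exp_neg_mul_sq (b := 1 / 4) (by norm_num) (s := 2) (by norm_num)
  refine this.congr (Filter.Eventually.of_forall fun x => ?_)
  simp [G]

theorem m0 : ∫ x : ℝ, G x = 2 * Real.sqrt Real.pi := by
  unfold G
  rw [integral_gaussian]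
  rw [show Real.pi / (1 / 4) = 2 ^ 2 * Real.pi by ring, Real.sqrt_mul (by positivity),
    Real.sqrt_sq (by norm_num)]

theorem m1 : ∫ x : ℝ, x * G x = 0 := by
  have h := integral_neg_eq_self (fun x : ℝ => x * G x) volume
  have h2 : (fun x : ℝ => -x * G (-x)) = fun x => -(x * G x) := by
    funext x
    unfold G
    rw [neg_sq]
    ring
  rw [h2, integral_neg] at h
  linarith

theorem m2 : ∫ x : ℝ, x ^ 2 * G x = 4 * Real.sqrt Real.pi := by
  have hG : ∀ x : ℝ, HasDerivAt (fun x : ℝ => -2 * G x) (x * G x) x := by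
    intro x
    have h1 : HasDerivAt (fun x : ℝ => -(1 / 4) * x ^ 2) (-(1 / 4) * (2 * x)) x := by
      simpa using (hasDerivAt_pow 2 x).const_mul (-(1 / 4 : ℝ))
    have h2 := (h1.exp).const_mul (-2 : ℝ)
    refine h2.congr_deriv ?_
    unfold G
    ring
  have h := integral_mul_deriv_eq_deriv_mul_of_integrable (u := fun x : ℝ => x)
    (v := fun x => -2 * G x) (u' := fun _ => (1 : ℝ)) (v' := fun x => x * G x)
    (fun x _ => hasDerivAt_id x) (fun x _ => hG x)
    (by
      refine int_x2G.congr (Filter.Eventually.of_forall fun x => ?_)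
      simp only [Pi.mul_apply]; ring)
    (by
      refine (int_G.const_mul (-2)).congr (Filter.Eventually.of_forall fun x => ?_)
      simp only [Pi.mul_apply]; ring)
    (by
      refine (int_xG.const_mul (-2)).congr (Filter.Eventually.of_forall fun x => ?_)
      simp only [Pi.mul_apply]; ring)
  have h3 : (fun x : ℝ => x ^ 2 * G x) = fun x => x * (x * G x) := by
    funext x; ring
  rw [h3, h]
  simp only [one_mul]
  rw [integral_const_mul, m0]
  ring

/-- product moments -/
theorem mom (a b : ℝ → ℝ) : ∫ w : ℝ × ℝ, a w.1 * b w.2 * gam w =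
    (4 * Real.pi)⁻¹ * ((∫ x, a x * G x) * ∫ y, b y * G y) := by
  rw [← integral_prod_mul (μ := (volume : Measure ℝ)) (ν := (volume : Measure ℝ)), ← integral_const_mul]
  refine integral_congr_ae (Filter.Eventually.of_forall fun w => ?_)
  simp only [gam_eq]
  ring

theorem gam_pos (w : ℝ × ℝ) : 0 < gam w := by
  unfold gam; positivity

theorem gam_cont : Continuous gam := by
  unfold gam; fun_prop

/-- the dominating function -/
noncomputable def W (w : ℝ × ℝ) : ℝ := (1 + w.1 ^ 2 + w.2 ^ 2) ^ 2 * gam w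

theorem W_cont : Continuous W := by
  unfold W
  have := gam_cont
  fun_prop

theorem W_nonneg (w : ℝ × ℝ) : 0 ≤ W w := by
  unfold W
  have := gam_pos w
  positivity

theorem W_int : Integrable W := by
  have h1 : Integrable (fun x : ℝ => Real.exp (-(1 / 8) * x ^ 2)) :=
    integrable_exp_neg_mul_sq (by norm_num)
  have h2 := (h1.mul_prod h1).const_mul (256 * (4 * Real.pi)⁻¹)
  refine h2.mono' W_cont.aestronglyMeasurable (Filter.Eventually.of_forall fun w => ?_)
  rw [Real.norm_of_nonneg (W_nonneg w)]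
  unfold W
  rw [gam_eq]
  set s : ℝ := w.1 ^ 2 + w.2 ^ 2 with hs
  have hs0 : 0 ≤ s := by positivity
  have e1 : 1 + w.1 ^ 2 + w.2 ^ 2 = 1 + s := by rw [hs]; ring
  have e2 : G w.1 * G w.2 = Real.exp (-(s / 4)) := by
    unfold G
    rw [← Real.exp_add, hs]
    congr 1; ring
  have e3 : Real.exp (-(1 / 8) * w.1 ^ 2) * Real.exp (-(1 / 8) * w.2 ^ 2) = Real.exp (-(s / 8)) := by
    rw [← Real.exp_add, hs]
    congr 1; ring
  rw [e1, e2, e3]
  have h3 : (1 + s) / 16 ≤ Real.exp (s / 16) := by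
    have := Real.add_one_le_exp (s / 16)
    linarith
  have h4 : ((1 + s) / 16) ^ 2 ≤ Real.exp (s / 8) := by
    calc ((1 + s) / 16) ^ 2 ≤ Real.exp (s / 16) ^ 2 := by
          apply pow_le_pow_left₀ (by positivity) h3
      _ = Real.exp (s / 8) := by
          rw [← Real.exp_nat_mul]; congr 1; push_cast; ring
  have h5 : (1 + s) ^ 2 ≤ 256 * Real.exp (s / 8) := by
    have : ((1 + s) / 16) ^ 2 = (1 + s) ^ 2 / 256 := by ring
    rw [this] at h4
    linarith
  have h6 : Real.exp (s / 8) * Real.exp (-(s / 4)) = Real.exp (-(s / 8)) := by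
    rw [← Real.exp_add]; congr 1; ring
  have h7 : 0 < (4 * Real.pi)⁻¹ := by positivity
  calc (1 + s) ^ 2 * ((4 * Real.pi)⁻¹ * Real.exp (-(s / 4)))
      ≤ (256 * Real.exp (s / 8)) * ((4 * Real.pi)⁻¹ * Real.exp (-(s / 4))) := by
        apply mul_le_mul_of_nonneg_right h5 (by positivity)
    _ = 256 * (4 * Real.pi)⁻¹ * (Real.exp (s / 8) * Real.exp (-(s / 4))) := by ring
    _ = 256 * (4 * Real.pi)⁻¹ * Real.exp (-(s / 8)) := by rw [h6]

theorem dom_int (f : ℝ × ℝ → ℝ) (hf : Continuous f) (c : ℝ) (h : ∀ w, |f w| ≤ c * W w) :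
    Integrable f :=
  (W_int.const_mul c).mono' hf.aestronglyMeasurable (Filter.Eventually.of_forall fun w => by
    rw [Real.norm_eq_abs]; exact h w)

/-- norm estimates -/
theorem norm_rpow_le (w : ℝ × ℝ) (a : ℝ) (h0 : 0 ≤ a) (h2 : a ≤ 2) :
    ‖w‖ ^ a ≤ 1 + w.1 ^ 2 + w.2 ^ 2 := by
  have hn : ‖w‖ ^ 2 ≤ w.1 ^ 2 + w.2 ^ 2 := by
    rw [Prod.norm_def]
    rcases max_cases ‖w.1‖ ‖w.2‖ with ⟨h, _⟩ | ⟨h, _⟩
    · rw [h, Real.norm_eq_abs, sq_abs]
      have := sq_nonneg w.2
      linarith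
    · rw [h, Real.norm_eq_abs, sq_abs]
      have := sq_nonneg w.1
      linarith
  rcases le_total ‖w‖ 1 with h | h
  · have := Real.rpow_le_one (norm_nonneg w) h h0
    have := sq_nonneg w.1
    have := sq_nonneg w.2
    linarith
  · have h3 : ‖w‖ ^ a ≤ ‖w‖ ^ (2 : ℝ) := Real.rpow_le_rpow_of_exponent_le h h2
    rw [Real.rpow_two] at h3
    linarith

/-- the main estimate for a kernel `k` -/
theorem key (l b C R : ℝ) (z0 : ℝ × ℝ) (g : ℝ × ℝ → ℝ) (P : ℝ × ℝ → ℝ × ℝ)
    (hL : Loc l b C R z0 g P) (k : ℝ × ℝ → ℝ) (hk : Continuous k)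
    (hkb : ∀ w, |k w| ≤ 1 + w.1 ^ 2 + w.2 ^ 2) (c0 c1 c2 : ℝ)
    (h0 : ∫ w, k w * gam w = c0) (h1 : ∫ w, k w * w.1 * gam w = c1)
    (h2 : ∫ w, k w * w.2 * gam w = c2) (t : ℝ) (ht : 0 < t) (z : ℝ × ℝ)
    (hz : z ∈ Metric.closedBall z0 (2 * R)) :
    |(∫ w : ℝ × ℝ, k w * gam w * g (z.1 - Real.sqrt t * w.1, z.2 - Real.sqrt t * w.2)) -
      (g z * c0 - Real.sqrt t * ((P z).1 * c1 + (P z).2 * c2))| ≤
      C * Real.sqrt t ^ (1 + b) * ∫ w, W w := by
  have hgc : Continuous g := by
    have : LipschitzWith (Real.toNNReal C) g := by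
      refine LipschitzWith.of_dist_le_mul fun x y => ?_
      rw [Real.dist_eq, dist_eq_norm, Real.coe_toNNReal _ hL.C0.le]
      exact hL.lip x y
    exact this.continuous
  have hgam := gam_cont
  have hs : 0 < Real.sqrt t := Real.sqrt_pos.2 ht
  have hb0 := hL.b0
  have hb1 := hL.b1
  have hC0 := hL.C0
  obtain ⟨r, hr⟩ : ∃ r : ℝ × ℝ → ℝ, r = fun w => g (z.1 - Real.sqrt t * w.1, z.2 - Real.sqrt t * w.2) -
      g z + Real.sqrt t * ((P z).1 * w.1 + (P z).2 * w.2) := ⟨_, rfl⟩
  have hrc : Continuous r := by rw [hr]; fun_prop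
  have hrb : ∀ w, |r w| ≤ C * Real.sqrt t ^ (1 + b) * (1 + w.1 ^ 2 + w.2 ^ 2) := by
    intro w
    have h := hL.hol z hz (z.1 - Real.sqrt t * w.1, z.2 - Real.sqrt t * w.2)
    have e1 : (z.1 - Real.sqrt t * w.1, z.2 - Real.sqrt t * w.2) - z = -(Real.sqrt t • w) := by
      ext <;> simp
    rw [e1, norm_neg, norm_smul, Real.norm_of_nonneg hs.le,
      Real.mul_rpow hs.le (norm_nonneg w)] at h
    have e2 : r w = g (z.1 - Real.sqrt t * w.1, z.2 - Real.sqrt t * w.2) - g z -
        ((P z).1 * ((z.1 - Real.sqrt t * w.1, z.2 - Real.sqrt t * w.2).1 - z.1) +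
          (P z).2 * ((z.1 - Real.sqrt t * w.1, z.2 - Real.sqrt t * w.2).2 - z.2)) := by
      rw [hr]; simp only; ring
    rw [e2]
    refine h.trans ?_
    have h3 := norm_rpow_le w (1 + b) (by linarith) (by linarith)
    have h4 : 0 ≤ C * Real.sqrt t ^ (1 + b) := by positivity
    calc C * (Real.sqrt t ^ (1 + b) * ‖w‖ ^ (1 + b)) = C * Real.sqrt t ^ (1 + b) * ‖w‖ ^ (1 + b) := by
          ring
      _ ≤ _ := mul_le_mul_of_nonneg_left h3 h4
  have hsw : ∀ w : ℝ × ℝ, (1 : ℝ) ≤ 1 + w.1 ^ 2 + w.2 ^ 2 := by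
    intro w
    have := sq_nonneg w.1
    have := sq_nonneg w.2
    linarith
  have hrb2 : ∀ w, |k w * gam w * r w| ≤ C * Real.sqrt t ^ (1 + b) * W w := by
    intro w
    rw [abs_mul, abs_mul, abs_of_pos (gam_pos w)]
    unfold W
    have h4 : 0 ≤ C * Real.sqrt t ^ (1 + b) := by positivity
    have hg := gam_pos w
    have hw := hsw w
    calc |k w| * gam w * |r w|
        ≤ (1 + w.1 ^ 2 + w.2 ^ 2) * gam w * (C * Real.sqrt t ^ (1 + b) * (1 + w.1 ^ 2 + w.2 ^ 2)) := by
          apply mul_le_mul _ (hrb w) (abs_nonneg _) (by positivity)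
          exact mul_le_mul_of_nonneg_right (hkb w) hg.le
      _ = _ := by ring
  have i3 : Integrable (fun w => k w * gam w * r w) :=
    dom_int _ (by fun_prop) _ hrb2
  have i0 : Integrable (fun w => k w * gam w) := by
    refine dom_int _ (by fun_prop) 1 fun w => ?_
    rw [abs_mul, abs_of_pos (gam_pos w)]
    unfold W
    have hg := gam_pos w
    have hw := hsw w
    have : |k w| ≤ (1 + w.1 ^ 2 + w.2 ^ 2) ^ 2 := by
      refine (hkb w).trans ?_
      nlinarith
    calc |k w| * gam w ≤ (1 + w.1 ^ 2 + w.2 ^ 2) ^ 2 * gam w :=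
          mul_le_mul_of_nonneg_right this hg.le
      _ = _ := by ring
  have i1 : Integrable (fun w => k w * w.1 * gam w) := by
    refine dom_int _ (by fun_prop) 1 fun w => ?_
    rw [abs_mul, abs_mul, abs_of_pos (gam_pos w)]
    unfold W
    have hg := gam_pos w
    have hw := hsw w
    have h5 : |w.1| ≤ 1 + w.1 ^ 2 + w.2 ^ 2 := by
      have : |w.1| ≤ 1 + w.1 ^ 2 := by
        rw [← sq_abs w.1]
        nlinarith [sq_nonneg (|w.1| - 1), abs_nonneg w.1]
      have := sq_nonneg w.2
      linarith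
    calc |k w| * |w.1| * gam w ≤ (1 + w.1 ^ 2 + w.2 ^ 2) * (1 + w.1 ^ 2 + w.2 ^ 2) * gam w := by
          apply mul_le_mul_of_nonneg_right _ hg.le
          exact mul_le_mul (hkb w) h5 (abs_nonneg _) (by positivity)
      _ = _ := by ring
  have i2 : Integrable (fun w => k w * w.2 * gam w) := by
    refine dom_int _ (by fun_prop) 1 fun w => ?_
    rw [abs_mul, abs_mul, abs_of_pos (gam_pos w)]
    unfold W
    have hg := gam_pos w
    have hw := hsw w
    have h5 : |w.2| ≤ 1 + w.1 ^ 2 + w.2 ^ 2 := by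
      have : |w.2| ≤ 1 + w.2 ^ 2 := by
        rw [← sq_abs w.2]
        nlinarith [sq_nonneg (|w.2| - 1), abs_nonneg w.2]
      have := sq_nonneg w.1
      linarith
    calc |k w| * |w.2| * gam w ≤ (1 + w.1 ^ 2 + w.2 ^ 2) * (1 + w.1 ^ 2 + w.2 ^ 2) * gam w := by
          apply mul_le_mul_of_nonneg_right _ hg.le
          exact mul_le_mul (hkb w) h5 (abs_nonneg _) (by positivity)
      _ = _ := by ring
  have e : (fun w : ℝ × ℝ => k w * gam w * g (z.1 - Real.sqrt t * w.1, z.2 - Real.sqrt t * w.2)) =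
      fun w => (k w * gam w * r w + g z * (k w * gam w)) -
        Real.sqrt t * ((P z).1 * (k w * w.1 * gam w) + (P z).2 * (k w * w.2 * gam w)) := by
    funext w
    rw [hr]
    simp only
    ring
  have j1 : Integrable (fun w => k w * gam w * r w + g z * (k w * gam w)) := i3.add (i0.const_mul _)
  have j2 : Integrable (fun w : ℝ × ℝ => (P z).1 * (k w * w.1 * gam w) +
      (P z).2 * (k w * w.2 * gam w)) := (i1.const_mul _).add (i2.const_mul _)
  rw [e, integral_sub j1 (j2.const_mul _),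
    integral_add i3 (i0.const_mul _), integral_const_mul, integral_const_mul,
    integral_add (i1.const_mul _) (i2.const_mul _), integral_const_mul, integral_const_mul, h0, h1, h2]
  have hfin : (∫ w, k w * gam w * r w) + g z * c0 - Real.sqrt t * ((P z).1 * c1 + (P z).2 * c2) -
      (g z * c0 - Real.sqrt t * ((P z).1 * c1 + (P z).2 * c2)) = ∫ w, k w * gam w * r w := by ring
  rw [hfin, ← integral_const_mul, ← Real.norm_eq_abs]
  refine norm_integral_le_of_norm_le (W_int.const_mul _) (Filter.Eventually.of_forall fun w => ?_)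
  rw [Real.norm_eq_abs]
  exact hrb2 w

theorem sqrt_rpow (t : ℝ) (ht : 0 < t) (a : ℝ) : Real.sqrt t ^ a = t ^ (a / 2) := by
  rw [Real.sqrt_eq_rpow, ← Real.rpow_mul ht.le]
  congr 1
  ring

theorem momG (a b : ℝ → ℝ) (f : ℝ × ℝ → ℝ) (hf : ∀ w, f w = a w.1 * b w.2 * gam w) (A B c : ℝ)
    (hA : ∫ x, a x * G x = A) (hB : ∫ x, b x * G x = B) (hc : (4 * Real.pi)⁻¹ * (A * B) = c) :
    ∫ w, f w = c := by
  rw [← hc, ← hA, ← hB, ← mom]
  exact integral_congr_ae (Filter.Eventually.of_forall fun w => hf w)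

theorem pi_id : Real.sqrt Real.pi * Real.sqrt Real.pi = Real.pi := Real.mul_self_sqrt Real.pi_pos.le

theorem m0' : ∫ x : ℝ, (fun _ : ℝ => (1 : ℝ)) x * G x = 2 * Real.sqrt Real.pi := by
  simp only [one_mul]; exact m0

theorem odd_zero (f : ℝ × ℝ → ℝ) (hf : ∀ w, f (-w) = -f w) : ∫ w, f w = 0 := by
  have h := integral_neg_eq_self f volume
  have h2 : (fun w => f (-w)) = fun w => -(f w) := by
    funext w; exact hf w
  rw [h2, integral_neg] at h
  linarith

theorem gam_neg (w : ℝ × ℝ) : gam (-w) = gam w := by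
  unfold gam
  simp

theorem mom00 : ∫ w : ℝ × ℝ, gam w = 1 := by
  refine momG (fun _ => 1) (fun _ => 1) _ (fun w => by ring) _ _ 1 m0' m0' ?_
  have := Real.pi_pos
  have e : 2 * Real.sqrt Real.pi * (2 * Real.sqrt Real.pi) = 4 * Real.pi := by
    calc _ = 4 * (Real.sqrt Real.pi * Real.sqrt Real.pi) := by ring
      _ = _ := by rw [pi_id]
  rw [e]
  field_simp

theorem mom20 : ∫ w : ℝ × ℝ, w.1 ^ 2 * gam w = 2 := by
  refine momG (fun x => x ^ 2) (fun _ => 1) _ (fun w => by ring) _ _ 2 m2 m0' ?_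
  have := Real.pi_pos
  have e : 4 * Real.sqrt Real.pi * (2 * Real.sqrt Real.pi) = 8 * Real.pi := by
    calc _ = 8 * (Real.sqrt Real.pi * Real.sqrt Real.pi) := by ring
      _ = _ := by rw [pi_id]
  rw [e]
  field_simp
  norm_num

theorem mom02 : ∫ w : ℝ × ℝ, w.2 ^ 2 * gam w = 2 := by
  refine momG (fun _ => 1) (fun x => x ^ 2) _ (fun w => by ring) _ _ 2 m0' m2 ?_
  have := Real.pi_pos
  have e : 2 * Real.sqrt Real.pi * (4 * Real.sqrt Real.pi) = 8 * Real.pi := by
    calc _ = 8 * (Real.sqrt Real.pi * Real.sqrt Real.pi) := by ring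
      _ = _ := by rw [pi_id]
  rw [e]
  field_simp
  norm_num

theorem mom11 : ∫ w : ℝ × ℝ, w.1 * w.2 * gam w = 0 := by
  refine momG (fun x => x) (fun x => x) _ (fun w => by ring) _ _ 0 m1 m1 ?_
  ring

theorem int00 : Integrable gam := by
  refine dom_int _ gam_cont 1 fun w => ?_
  rw [abs_of_pos (gam_pos w)]
  unfold W
  have hg := gam_pos w
  have h : (1 : ℝ) ≤ (1 + w.1 ^ 2 + w.2 ^ 2) ^ 2 := by
    have := sq_nonneg w.1
    have := sq_nonneg w.2
    nlinarith
  nlinarith

theorem int20 : Integrable (fun w : ℝ × ℝ => w.1 ^ 2 * gam w) := by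
  have hgam := gam_cont
  refine dom_int _ (by fun_prop) 1 fun w => ?_
  have hg := gam_pos w
  rw [abs_of_nonneg (by positivity)]
  unfold W
  have h : w.1 ^ 2 ≤ (1 + w.1 ^ 2 + w.2 ^ 2) ^ 2 := by
    have := sq_nonneg w.1
    have := sq_nonneg w.2
    nlinarith
  nlinarith

theorem int02 : Integrable (fun w : ℝ × ℝ => w.2 ^ 2 * gam w) := by
  have hgam := gam_cont
  refine dom_int _ (by fun_prop) 1 fun w => ?_
  have hg := gam_pos w
  rw [abs_of_nonneg (by positivity)]
  unfold W
  have h : w.2 ^ 2 ≤ (1 + w.1 ^ 2 + w.2 ^ 2) ^ 2 := by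
    have := sq_nonneg w.1
    have := sq_nonneg w.2
    nlinarith
  nlinarith

theorem t_SUP : S_SUP := by
  intro l b C R z0 g P hL
  obtain ⟨M, hM⟩ : ∃ M : ℝ, M = ∫ w, W w := ⟨_, rfl⟩
  have hM0 : 0 ≤ M := by rw [hM]; exact integral_nonneg W_nonneg
  have hC0 := hL.C0
  have hb0 := hL.b0
  have hb1 := hL.b1
  refine ⟨C * M + 1, by positivity, ?_⟩
  intro t ht ht1 z hz
  have hs : 0 < Real.sqrt t := Real.sqrt_pos.2 ht
  have hss : Real.sqrt t * Real.sqrt t = t := Real.mul_self_sqrt ht.le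
  have hCM : C * M ≤ C * M + 1 := by linarith
  have hdiv : ∀ x : ℝ, |x| ≤ C * Real.sqrt t ^ (1 + b) * M →
      |(Real.sqrt t)⁻¹ * x| ≤ (C * M + 1) * t ^ (b / 2) := by
    intro x hx
    rw [abs_mul, abs_of_pos (inv_pos.2 hs)]
    have e : Real.sqrt t ^ (1 + b) = Real.sqrt t * t ^ (b / 2) := by
      rw [Real.rpow_add hs, Real.rpow_one, sqrt_rpow t ht b]
    rw [e] at hx
    have hp : 0 ≤ t ^ (b / 2) := by positivity
    calc (Real.sqrt t)⁻¹ * |x| ≤ (Real.sqrt t)⁻¹ * (C * (Real.sqrt t * t ^ (b / 2)) * M) :=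
          mul_le_mul_of_nonneg_left hx (inv_pos.2 hs).le
      _ = C * M * t ^ (b / 2) := by field_simp
      _ ≤ _ := mul_le_mul_of_nonneg_right hCM hp
  refine ⟨?_, ?_, ?_, ?_⟩
  · have h := key l b C R z0 g P hL (fun w => (w.1 ^ 2 + w.2 ^ 2) / 4 - 1) (by fun_prop)
      (by
        intro w
        rw [abs_le]
        have := sq_nonneg w.1
        have := sq_nonneg w.2
        constructor <;> linarith) 0 0 0
      (by
        have e : (fun w : ℝ × ℝ => ((w.1 ^ 2 + w.2 ^ 2) / 4 - 1) * gam w) =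
            fun w => ((1 / 4) * (w.1 ^ 2 * gam w) + (1 / 4) * (w.2 ^ 2 * gam w)) - gam w := by
          funext w; ring
        have j : Integrable (fun w : ℝ × ℝ => (1 / 4) * (w.1 ^ 2 * gam w) +
          (1 / 4) * (w.2 ^ 2 * gam w)) := (int20.const_mul _).add (int02.const_mul _)
        rw [e, integral_sub j int00, integral_add (int20.const_mul _) (int02.const_mul _),
          integral_const_mul, integral_const_mul, mom20, mom02, mom00]
        norm_num)
      (odd_zero _ (fun w => by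
        rw [gam_neg]
        simp only [Prod.fst_neg, Prod.snd_neg]
        ring))
      (odd_zero _ (fun w => by
        rw [gam_neg]
        simp only [Prod.fst_neg, Prod.snd_neg]
        ring)) t ht z hz
    unfold HT
    rw [← hM] at h
    simp only [mul_zero, add_zero, sub_zero] at h
    rw [abs_mul, abs_of_pos (inv_pos.2 ht)]
    have e : Real.sqrt t ^ (1 + b) = t * t ^ (-(1 - b) / 2) := by
      rw [sqrt_rpow t ht (1 + b)]
      conv_rhs => rw [← Real.rpow_one t, ← Real.rpow_mul ht.le, ← Real.rpow_add ht]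
      congr 1
      ring
    rw [e] at h
    have hp : 0 ≤ t ^ (-(1 - b) / 2) := by positivity
    calc t⁻¹ * _ ≤ t⁻¹ * (C * (t * t ^ (-(1 - b) / 2)) * M) :=
          mul_le_mul_of_nonneg_left h (inv_pos.2 ht).le
      _ = C * M * t ^ (-(1 - b) / 2) := by field_simp
      _ ≤ _ := mul_le_mul_of_nonneg_right hCM hp
  · have h := key l b C R z0 g P hL (fun w => -w.1 / 2) (by fun_prop)
      (by
        intro w
        rw [abs_le]
        have := sq_nonneg (w.1 - 1)
        have := sq_nonneg (w.1 + 1)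
        have := sq_nonneg w.2
        constructor <;> nlinarith) 0 (-1) 0
      (odd_zero _ (fun w => by
        rw [gam_neg]
        simp only [Prod.fst_neg]
        ring))
      (by
        have e : (fun w : ℝ × ℝ => -w.1 / 2 * w.1 * gam w) =
            fun w => (-1 / 2) * (w.1 ^ 2 * gam w) := by
          funext w; ring
        rw [e, integral_const_mul, mom20]
        norm_num)
      (by
        have e : (fun w : ℝ × ℝ => -w.1 / 2 * w.2 * gam w) =
            fun w => (-1 / 2) * (w.1 * w.2 * gam w) := by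
          funext w; ring
        rw [e, integral_const_mul, mom11]
        norm_num) t ht z hz
    rw [← hM] at h
    have h' := hdiv _ h
    have e : HX g t z.1 z.2 - (P z).1 = (Real.sqrt t)⁻¹ *
        ((∫ w : ℝ × ℝ, -w.1 / 2 * gam w * g (z.1 - Real.sqrt t * w.1, z.2 - Real.sqrt t * w.2)) -
          (g z * 0 - Real.sqrt t * ((P z).1 * -1 + (P z).2 * 0))) := by
      unfold HX
      field_simp
      ring
    rw [e]
    exact h'
  · have h := key l b C R z0 g P hL (fun w => -w.2 / 2) (by fun_prop)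
      (by
        intro w
        rw [abs_le]
        have := sq_nonneg (w.2 - 1)
        have := sq_nonneg (w.2 + 1)
        have := sq_nonneg w.1
        constructor <;> nlinarith) 0 0 (-1)
      (odd_zero _ (fun w => by
        rw [gam_neg]
        simp only [Prod.snd_neg]
        ring))
      (by
        have e : (fun w : ℝ × ℝ => -w.2 / 2 * w.1 * gam w) =
            fun w => (-1 / 2) * (w.1 * w.2 * gam w) := by
          funext w; ring
        rw [e, integral_const_mul, mom11]
        norm_num)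
      (by
        have e : (fun w : ℝ × ℝ => -w.2 / 2 * w.2 * gam w) =
            fun w => (-1 / 2) * (w.2 ^ 2 * gam w) := by
          funext w; ring
        rw [e, integral_const_mul, mom02]
        norm_num) t ht z hz
    rw [← hM] at h
    have h' := hdiv _ h
    have e : HY g t z.1 z.2 - (P z).2 = (Real.sqrt t)⁻¹ *
        ((∫ w : ℝ × ℝ, -w.2 / 2 * gam w * g (z.1 - Real.sqrt t * w.1, z.2 - Real.sqrt t * w.2)) -
          (g z * 0 - Real.sqrt t * ((P z).1 * 0 + (P z).2 * -1))) := by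
      unfold HY
      field_simp
      ring
    rw [e]
    exact h'
  · have h := key l b C R z0 g P hL (fun _ => 1) (by fun_prop)
      (by
        intro w
        rw [abs_one]
        have := sq_nonneg w.1
        have := sq_nonneg w.2
        linarith) 1 0 0
      (by simp only [one_mul]; exact mom00)
      (odd_zero _ (fun w => by
        rw [gam_neg]
        simp only [Prod.fst_neg]
        ring))
      (odd_zero _ (fun w => by
        rw [gam_neg]
        simp only [Prod.snd_neg]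
        ring)) t ht z hz
    rw [← hM] at h
    simp only [one_mul, mul_zero, add_zero, sub_zero, mul_one] at h
    unfold HU
    refine h.trans ?_
    have e : Real.sqrt t ^ (1 + b) ≤ t ^ (1 / 2 : ℝ) := by
      rw [sqrt_rpow t ht (1 + b)]
      exact Real.rpow_le_rpow_of_exponent_ge ht ht1 (by linarith)
    have hp : 0 ≤ t ^ (1 / 2 : ℝ) := by positivity
    calc C * Real.sqrt t ^ (1 + b) * M ≤ C * t ^ (1 / 2 : ℝ) * M := by
          apply mul_le_mul_of_nonneg_right _ hM0
          exact mul_le_mul_of_nonneg_left e hC0.le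
      _ = C * M * t ^ (1 / 2 : ℝ) := by ring
      _ ≤ _ := mul_le_mul_of_nonneg_right hCM hp

end Pool.Agent.W775.WH.SUP
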