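import Pool.Agent.W775.WH.Stm

set_option autoImplicit false

/-!
Symmetry and positivity of the derivative of the gradient map.
-/

open MeasureTheory Set Filter Topology

namespace Pool.Agent.W775.WH.SYM

/-- `lin` as a continuous linear map -/
noncomputable def linL : ℝ × ℝ →L[ℝ] (ℝ × ℝ →L[ℝ] ℝ) :=
  (ContinuousLinearMap.fst ℝ ℝ ℝ).smulRight (ContinuousLinearMap.fst ℝ ℝ ℝ) +
    (ContinuousLinearMap.snd ℝ ℝ ℝ).smulRight (ContinuousLinearMap.snd ℝ ℝ ℝ)

theorem linL_apply (p : ℝ × ℝ) : linL p = lin p := rfl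

theorem lin_apply (p w : ℝ × ℝ) : lin p w = p.1 * w.1 + p.2 * w.2 := rfl

theorem t_SYM : S_SYM := by
  intro l b Ω u P _ _ hG z hz hd
  set A : ℝ × ℝ →L[ℝ] ℝ × ℝ := fderiv ℝ P z with hA
  have hP : HasFDerivAt P A z := hd.hasFDerivAt
  -- symmetry
  have hev : ∀ᶠ y in 𝓝 z, HasFDerivAt u (lin (P y)) y := by
    filter_upwards [hG.ma.op.mem_nhds hz] with y hy
    exact hG.der y hy
  have hlin : HasFDerivAt (fun w => lin (P w)) (linL.comp A) z := linL.hasFDerivAt.comp z hP
  have hs := second_derivative_symmetric_of_eventually hev hlin (1, 0) (0, 1)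
  have h12eq : h12 P z = h21 P z := by
    have e1 : (linL.comp A) (1, 0) (0, 1) = (A (1, 0)).2 := by
      show lin (A (1, 0)) (0, 1) = _
      rw [lin_apply]; simp
    have e2 : (linL.comp A) (0, 1) (1, 0) = (A (0, 1)).1 := by
      show lin (A (0, 1)) (1, 0) = _
      rw [lin_apply]; simp
    rw [e1, e2] at hs
    exact hs.symm
  -- monotonicity
  have hmono : ∀ w ∈ Ω, 0 ≤ ((P w).1 - (P z).1) * (w.1 - z.1) +
      ((P w).2 - (P z).2) * (w.2 - z.2) := by
    intro w hw
    have h1 : P z ∈ Sub Ω u z := by rw [hG.sub z hz]; rfl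
    have h2 : P w ∈ Sub Ω u w := by rw [hG.sub w hw]; rfl
    have h3 := h1 w hw
    have h4 := h2 z hz
    nlinarith [h3, h4]
  have hquad : ∀ c d : ℝ, 0 ≤ h11 P z * c ^ 2 + 2 * h12 P z * c * d + h22 P z * d ^ 2 := by
    intro c d
    have hline : HasDerivAt (fun t : ℝ => z + t • ((c, d) : ℝ × ℝ)) (c, d) 0 := by
      have := ((hasDerivAt_id (0 : ℝ)).smul_const ((c, d) : ℝ × ℝ)).const_add z
      simpa using this
    have hz0 : z + (0 : ℝ) • ((c, d) : ℝ × ℝ) = z := by simp
    have hPl : HasDerivAt (fun t : ℝ => P (z + t • ((c, d) : ℝ × ℝ))) (A (c, d)) 0 := by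
      have h1 : HasFDerivAt P A (z + (0 : ℝ) • ((c, d) : ℝ × ℝ)) := by rw [hz0]; exact hP
      exact h1.comp_hasDerivAt 0 hline
    have hQ : HasDerivAt (fun t : ℝ => lin (c, d) (P (z + t • ((c, d) : ℝ × ℝ))))
        (lin (c, d) (A (c, d))) 0 :=
      (lin (c, d)).hasFDerivAt.comp_hasDerivAt 0 hPl
    have hcont : Tendsto (fun t : ℝ => z + t • ((c, d) : ℝ × ℝ)) (𝓝[>] 0) (𝓝 z) := by
      have := hline.continuousAt.tendsto
      rw [hz0] at this
      exact this.mono_left nhdsWithin_le_nhds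
    have hsl := hQ.tendsto_slope_zero_right
    have hge : 0 ≤ lin (c, d) (A (c, d)) := by
      refine ge_of_tendsto hsl ?_
      filter_upwards [hcont.eventually (hG.ma.op.mem_nhds hz), self_mem_nhdsWithin] with t ht ht0
      have h3 := hmono _ ht
      have ht0' : 0 < t := ht0
      simp only [Prod.fst_add, Prod.snd_add, Prod.smul_fst, Prod.smul_snd, smul_eq_mul,
        add_sub_cancel_left] at h3
      rw [zero_add, hz0, smul_eq_mul]
      simp only [lin_apply]
      have h4 : 0 ≤ t * (c * (P (z + t • ((c, d) : ℝ × ℝ))).1 +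
          d * (P (z + t • ((c, d) : ℝ × ℝ))).2 - (c * (P z).1 + d * (P z).2)) := by
        nlinarith [h3]
      have h5 := nonneg_of_mul_nonneg_right h4 ht0'
      exact mul_nonneg (inv_nonneg.mpr ht0'.le) h5
    have hAe : A (c, d) = c • A (1, 0) + d • A (0, 1) := by
      rw [← map_smul, ← map_smul, ← map_add]
      congr 1
      ext <;> simp
    rw [lin_apply, hAe] at hge
    simp only [Prod.fst_add, Prod.snd_add, Prod.smul_fst, Prod.smul_snd, smul_eq_mul] at hge
    have e1 : (A (1, 0)).1 = h11 P z := rfl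
    have e2 : (A (0, 1)).1 = h12 P z := rfl
    have e3 : (A (1, 0)).2 = h12 P z := h12eq.symm
    have e4 : (A (0, 1)).2 = h22 P z := rfl
    rw [e1, e2, e3, e4] at hge
    nlinarith [hge]
  refine ⟨h12eq, ?_, ?_, ?_⟩
  · have := hquad 1 0
    nlinarith [this]
  · have := hquad 0 1
    nlinarith [this]
  · have hdis : ∀ x : ℝ, 0 ≤ h11 P z * (x * x) + (2 * h12 P z) * x + h22 P z := by
      intro x
      have := hquad x 1
      nlinarith [this]
    have := discrim_le_zero hdis
    unfold discrim at this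
    unfold D0
    nlinarith [this]

end Pool.Agent.W775.WH.SYM
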