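import Pool.Agent.W775.WH.Stm

/-! Project WH: subtask WH-WK, iteration of the weak type estimate. -/

set_option autoImplicit false

open MeasureTheory Set Filter Topology

namespace Pool.Agent.W775.WH.WK

/-- strong bound on `A` -/
def Cl (T : ℝ × ℝ → ℝ) (q : ℝ) (A : Set (ℝ × ℝ)) : Prop :=
  AEMeasurable T (volume.restrict A) ∧ (∫⁻ z in A, ENNReal.ofReal (T z) ^ q) < ⊤

/-- weak bound on `A` -/
def Wk (T : ℝ × ℝ → ℝ) (p : ℝ) (A : Set (ℝ × ℝ)) : Prop :=
  AEMeasurable T (volume.restrict A) ∧ ∃ C : ℝ, 0 ≤ C ∧ ∀ s : ℝ, 0 < s →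
    ENNReal.ofReal (s ^ p) * volume {z ∈ A | s < T z} ≤ ENNReal.ofReal C

theorem cl_empty (T : ℝ × ℝ → ℝ) (q : ℝ) : Cl T q ∅ := by
  refine ⟨by simp, by simp⟩

theorem cl_mono (T : ℝ × ℝ → ℝ) (q : ℝ) {A B : Set (ℝ × ℝ)} (h : A ⊆ B) (hB : Cl T q B) :
    Cl T q A :=
  ⟨hB.1.mono_set h, lt_of_le_of_lt (lintegral_mono_set h) hB.2⟩

theorem cl_union (T : ℝ × ℝ → ℝ) (q : ℝ) {A B : Set (ℝ × ℝ)} (hA : Cl T q A) (hB : Cl T q B) :
    Cl T q (A ∪ B) :=
  ⟨aemeasurable_union_iff.2 ⟨hA.1, hB.1⟩,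
    lt_of_le_of_lt (lintegral_union_le _ A B) (ENNReal.add_lt_top.2 ⟨hA.2, hB.2⟩)⟩

theorem wk_empty (T : ℝ × ℝ → ℝ) (q : ℝ) : Wk T q ∅ := by
  refine ⟨by simp, 0, le_refl _, fun s _ => ?_⟩
  simp

theorem wk_mono (T : ℝ × ℝ → ℝ) (q : ℝ) {A B : Set (ℝ × ℝ)} (h : A ⊆ B) (hB : Wk T q B) :
    Wk T q A := by
  obtain ⟨h1, C, hC, h2⟩ := hB
  refine ⟨h1.mono_set h, C, hC, fun s hs => le_trans ?_ (h2 s hs)⟩
  gcongr

theorem wk_union (T : ℝ × ℝ → ℝ) (q : ℝ) {A B : Set (ℝ × ℝ)} (hA : Wk T q A) (hB : Wk T q B) :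
    Wk T q (A ∪ B) := by
  obtain ⟨h1, C, hC, h2⟩ := hA
  obtain ⟨h3, D, hD, h4⟩ := hB
  refine ⟨aemeasurable_union_iff.2 ⟨h1, h3⟩, C + D, add_nonneg hC hD, fun s hs => ?_⟩
  have e : {z ∈ A ∪ B | s < T z} ⊆ {z ∈ A | s < T z} ∪ {z ∈ B | s < T z} := by
    rintro z ⟨hz | hz, h⟩
    · exact Or.inl ⟨hz, h⟩
    · exact Or.inr ⟨hz, h⟩
  calc ENNReal.ofReal (s ^ q) * volume {z ∈ A ∪ B | s < T z}
      ≤ ENNReal.ofReal (s ^ q) * (volume {z ∈ A | s < T z} + volume {z ∈ B | s < T z}) := by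
        gcongr
        exact (measure_mono e).trans (measure_union_le _ _)
    _ = ENNReal.ofReal (s ^ q) * volume {z ∈ A | s < T z} +
        ENNReal.ofReal (s ^ q) * volume {z ∈ B | s < T z} := by rw [mul_add]
    _ ≤ ENNReal.ofReal C + ENNReal.ofReal D := add_le_add (h2 s hs) (h4 s hs)
    _ = ENNReal.ofReal (C + D) := (ENNReal.ofReal_add hC hD).symm

/-- weak implies strong on sets of finite measure -/
theorem cl_of_wk (T : ℝ × ℝ → ℝ) {p r : ℝ} (hr : 1 ≤ r) (hrp : r < p) {A : Set (ℝ × ℝ)}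
    (hA : MeasurableSet A) (hA2 : volume A < ⊤) (h : Wk T p A) : Cl T r A := by
  obtain ⟨h1, C, hC0, hC⟩ := h
  refine ⟨h1, ?_⟩
  have hr0 : (0 : ℝ) < r := lt_of_lt_of_le one_pos hr
  have e1 : ∀ z, ENNReal.ofReal (T z) ^ r = ENNReal.ofReal ((max (T z) 0) ^ r) := by
    intro z
    rw [← ENNReal.ofReal_rpow_of_nonneg (le_max_right _ _) hr0.le]
    congr 1
    rcases le_total 0 (T z) with h0 | h0
    · rw [max_eq_left h0]
    · rw [max_eq_right h0, ENNReal.ofReal_of_nonpos h0, ENNReal.ofReal_zero]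
  simp_rw [e1]
  rw [lintegral_rpow_eq_lintegral_meas_lt_mul (volume.restrict A)
    (f := fun z => max (T z) 0) (Eventually.of_forall fun z => le_max_right _ _)
    (h1.max aemeasurable_const) hr0]
  refine ENNReal.mul_lt_top ENNReal.ofReal_lt_top ?_
  have hset : ∀ t : ℝ, 0 < t → (volume.restrict A) {a | t < max (T a) 0} ≤
      volume {z ∈ A | t < T z} := by
    intro t ht
    rw [Measure.restrict_apply' hA]
    refine measure_mono ?_
    rintro z ⟨hz1, hz2⟩
    refine ⟨hz2, ?_⟩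
    have hz3 : t < max (T z) 0 := hz1
    rcases lt_max_iff.1 hz3 with h0 | h0
    · exact h0
    · exact absurd h0 (not_lt.2 ht.le)
  have hsp : (Ioi (0 : ℝ)) ⊆ Ioc 0 1 ∪ Ioi 1 := by
    intro t ht
    rcases le_or_gt t 1 with h0 | h0
    · exact Or.inl ⟨ht, h0⟩
    · exact Or.inr h0
  refine lt_of_le_of_lt (lintegral_mono_set hsp) ?_
  refine lt_of_le_of_lt (lintegral_union_le _ _ _) (ENNReal.add_lt_top.2 ⟨?_, ?_⟩)
  · have : (∫⁻ t in Ioc (0 : ℝ) 1, (volume.restrict A) {a | t < max (T a) 0} *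
        ENNReal.ofReal (t ^ (r - 1))) ≤ ∫⁻ t in Ioc (0 : ℝ) 1, volume A := by
      refine setLIntegral_mono' measurableSet_Ioc fun t ht => ?_
      have h2 : ENNReal.ofReal (t ^ (r - 1)) ≤ 1 := by
        rw [← ENNReal.ofReal_one]
        exact ENNReal.ofReal_le_ofReal (Real.rpow_le_one ht.1.le ht.2 (by linarith))
      calc (volume.restrict A) {a | t < max (T a) 0} * ENNReal.ofReal (t ^ (r - 1))
          ≤ volume A * 1 := by
            refine mul_le_mul' ?_ h2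
            exact (hset t ht.1).trans (measure_mono fun z hz => hz.1)
        _ = volume A := mul_one _
    refine lt_of_le_of_lt this ?_
    rw [setLIntegral_const, Real.volume_Ioc]
    exact ENNReal.mul_lt_top hA2 ENNReal.ofReal_lt_top
  · have : (∫⁻ t in Ioi (1 : ℝ), (volume.restrict A) {a | t < max (T a) 0} *
        ENNReal.ofReal (t ^ (r - 1))) ≤ ∫⁻ t in Ioi (1 : ℝ), ENNReal.ofReal (C * t ^ (r - 1 - p)) := by
      refine setLIntegral_mono' measurableSet_Ioi fun t ht => ?_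
      have ht0 : (0 : ℝ) < t := lt_trans one_pos ht
      have e2 : ENNReal.ofReal (t ^ (r - 1)) =
          ENNReal.ofReal (t ^ p) * ENNReal.ofReal (t ^ (r - 1 - p)) := by
        rw [← ENNReal.ofReal_mul (Real.rpow_nonneg ht0.le _), ← Real.rpow_add ht0]
        congr 2
        ring
      calc (volume.restrict A) {a | t < max (T a) 0} * ENNReal.ofReal (t ^ (r - 1))
          ≤ volume {z ∈ A | t < T z} * ENNReal.ofReal (t ^ (r - 1)) :=
            mul_le_mul' (hset t ht0) (le_refl _)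
        _ = (ENNReal.ofReal (t ^ p) * volume {z ∈ A | t < T z}) *
            ENNReal.ofReal (t ^ (r - 1 - p)) := by
            rw [e2]
            ring
        _ ≤ ENNReal.ofReal C * ENNReal.ofReal (t ^ (r - 1 - p)) :=
            mul_le_mul' (hC t ht0) (le_refl _)
        _ = ENNReal.ofReal (C * t ^ (r - 1 - p)) := (ENNReal.ofReal_mul hC0).symm
    refine lt_of_le_of_lt this ?_
    have hI : IntegrableOn (fun t : ℝ => C * t ^ (r - 1 - p)) (Ioi 1) :=
      (integrableOn_Ioi_rpow_of_lt (by linarith) one_pos).const_mul C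
    exact hI.lintegral_lt_top

/-- one local stage -/
theorem step (h2 : S_SIG) (h3 : S_IQQ) (h4 : S_STG) {l b C R : ℝ} {z0 : ℝ × ℝ} {g : ℝ × ℝ → ℝ}
    {P : ℝ × ℝ → ℝ × ℝ} (hL : Loc l b C R z0 g P) {q p : ℝ} (hq : 1 ≤ q)
    (hcl : (∫⁻ z in Metric.closedBall z0 (2 * R), ENNReal.ofReal (T0 P z) ^ q) < ⊤)
    (hp1 : 1 < p) (hp2 : p ≤ pst l) (hp3 : p < q + 2 * b / (1 - b)) :
    Wk (T0 P) p (Metric.closedBall z0 (R / 2)) := by
  have hR := hL.R0
  obtain ⟨hint, ⟨K1, hK1, hK1b⟩, -⟩ := h2 l b C R z0 g P hL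
  have hid : ∀ χ : ℝ × ℝ → ℝ, ContDiff ℝ 3 χ → HasCompactSupport χ →
      tsupport χ ⊆ Metric.ball z0 (2 * R) →
      (∫ z : ℝ × ℝ, g z * lap2 χ z) = ∫ z : ℝ × ℝ, χ z ^ 2 * T0 P z := by
    intro χ hχ1 hχ2 hχ3
    refine (h4 l b C R z0 g P hL (2 * R) 1 K1 χ (by linarith) (le_refl _) (le_refl _) ?_
      hχ1 hχ2 hχ3).1
    intro t ht0 ht1
    simp_rw [ENNReal.rpow_one]
    exact hK1b t ht0 ht1
  obtain ⟨K2, hK2, hK2b⟩ := h3 l b C R z0 g P hL q hq
    (lt_of_le_of_lt (lintegral_mono_set Metric.ball_subset_closedBall) hcl) hid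
  let χ : ContDiffBump z0 := ⟨R / 2, 3 * R / 4, by linarith, by linarith⟩
  have hχ1 : ContDiff ℝ 3 (χ : ℝ × ℝ → ℝ) := χ.contDiff
  have hχ2 : HasCompactSupport (χ : ℝ × ℝ → ℝ) := χ.hasCompactSupport
  have hχ3 : tsupport (χ : ℝ × ℝ → ℝ) ⊆ Metric.ball z0 R := by
    rw [χ.tsupport_eq]
    exact Metric.closedBall_subset_ball (by show 3 * R / 4 < R; linarith)
  obtain ⟨K3, hK3, hK3b⟩ := (h4 l b C R z0 g P hL R q K2 χ hR (by linarith) hq hK2b
      hχ1 hχ2 hχ3).2 p hp1 hp2 hp3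
  have hmeas : AEMeasurable (T0 P) (volume.restrict (Metric.closedBall z0 (R / 2))) :=
    (hint.mono_set (Metric.closedBall_subset_closedBall (by linarith))).aestronglyMeasurable.aemeasurable
  have hp0 : (0 : ℝ) < p := lt_trans one_pos hp1
  set V : ℝ := (volume (Metric.closedBall z0 (R / 2))).toReal with hV
  have hVt : volume (Metric.closedBall z0 (R / 2)) = ENNReal.ofReal V := by
    rw [hV, ENNReal.ofReal_toReal]
    exact (isCompact_closedBall z0 (R / 2)).measure_lt_top.ne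
  have hV0 : 0 ≤ V := ENNReal.toReal_nonneg
  refine ⟨hmeas, 2 ^ p * (K3 + V), by positivity, fun s hs => ?_⟩
  rcases le_or_gt 2 s with h0 | h0
  · have hS : (1 : ℝ) ≤ s / 2 := by linarith
    have e1 : s ^ p = 2 ^ p * (s / 2) ^ p := by
      rw [← Real.mul_rpow (by norm_num) (by linarith)]
      congr 1
      ring
    calc ENNReal.ofReal (s ^ p) * volume {z ∈ Metric.closedBall z0 (R / 2) | s < T0 P z}
        ≤ ENNReal.ofReal (s ^ p) * volume {z : ℝ × ℝ | χ z = 1 ∧ 2 * (s / 2) ≤ T0 P z} := by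
          refine mul_le_mul' (le_refl _) (measure_mono ?_)
          rintro z ⟨hz1, hz2⟩
          refine ⟨χ.one_of_mem_closedBall hz1, ?_⟩
          have : 2 * (s / 2) = s := by ring
          rw [this]
          exact hz2.le
      _ = ENNReal.ofReal (2 ^ p) * (ENNReal.ofReal ((s / 2) ^ p) *
          volume {z : ℝ × ℝ | χ z = 1 ∧ 2 * (s / 2) ≤ T0 P z}) := by
          rw [e1, ENNReal.ofReal_mul (by positivity), mul_assoc]
      _ ≤ ENNReal.ofReal (2 ^ p) * ENNReal.ofReal K3 := mul_le_mul' (le_refl _) (hK3b _ hS)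
      _ = ENNReal.ofReal (2 ^ p * K3) := (ENNReal.ofReal_mul (by positivity)).symm
      _ ≤ ENNReal.ofReal (2 ^ p * (K3 + V)) := by
          apply ENNReal.ofReal_le_ofReal
          have : (0 : ℝ) ≤ 2 ^ p := by positivity
          nlinarith
  · calc ENNReal.ofReal (s ^ p) * volume {z ∈ Metric.closedBall z0 (R / 2) | s < T0 P z}
        ≤ ENNReal.ofReal (2 ^ p) * ENNReal.ofReal V := by
          rw [← hVt]
          refine mul_le_mul' (ENNReal.ofReal_le_ofReal ?_) (measure_mono fun z hz => hz.1)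
          exact Real.rpow_le_rpow hs.le h0.le hp0.le
      _ = ENNReal.ofReal (2 ^ p * V) := (ENNReal.ofReal_mul (by positivity)).symm
      _ ≤ ENNReal.ofReal (2 ^ p * (K3 + V)) := by
          apply ENNReal.ofReal_le_ofReal
          have : (0 : ℝ) ≤ 2 ^ p := by positivity
          nlinarith

theorem one_lt_pst {l : ℝ} (h0 : 0 < l) (h1 : l < 1) : 1 < pst l := by
  unfold pst
  have h2 : 0 < 1 - l ^ 2 := by nlinarith
  rw [lt_div_iff₀ h2]
  nlinarith

theorem t_WK (h1 : S_LOC) (h2 : S_SIG) (h3 : S_IQQ) (h4 : S_STG) : S_WK := by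
  intro l b Ω u P hl0 hl1 hb0 hb1 hG
  have hpst := one_lt_pst hl0 hl1
  have hbb : b < 2 * b / (1 - b) := by
    rw [lt_div_iff₀ (by linarith)]
    nlinarith
  -- local packages
  have hloc : ∀ z ∈ Ω, ∃ R : ℝ, 0 < R ∧ Metric.closedBall z (4 * R) ⊆ Ω ∧
      ∃ (C : ℝ) (g : ℝ × ℝ → ℝ), Loc l b C R z g P := by
    intro z hz
    obtain ⟨ε, hε, hεs⟩ := Metric.isOpen_iff.1 hG.ma.op z hz
    have hs : Metric.closedBall z (4 * (ε / 5)) ⊆ Ω :=
      (Metric.closedBall_subset_ball (by linarith)).trans hεs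
    exact ⟨ε / 5, by linarith, hs, h1 l b Ω u P hl0 hl1 hb0 hb1 hG z (ε / 5) (by linarith) hs⟩
  -- from the strong bound at `q` to the weak bound
  have hstep : ∀ q p : ℝ, 1 ≤ q → (∀ K : Set (ℝ × ℝ), IsCompact K → K ⊆ Ω → Cl (T0 P) q K) →
      1 < p → p ≤ pst l → p < q + 2 * b / (1 - b) →
      ∀ K : Set (ℝ × ℝ), IsCompact K → K ⊆ Ω → Wk (T0 P) p K := by
    intro q p hq hcl hp1 hp2 hp3 K hK hKΩ
    refine hK.induction_on (wk_empty _ _) (fun s t hst ht => wk_mono _ _ hst ht)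
      (fun s t hs ht => wk_union _ _ hs ht) fun z hz => ?_
    obtain ⟨R, hR, hRs, C, g, hL⟩ := hloc z (hKΩ hz)
    refine ⟨Metric.closedBall z (R / 2), mem_nhdsWithin_of_mem_nhds
      (Metric.closedBall_mem_nhds z (by linarith)), ?_⟩
    refine step h2 h3 h4 hL hq ?_ hp1 hp2 hp3
    exact (hcl (Metric.closedBall z (2 * R)) (isCompact_closedBall _ _)
      ((Metric.closedBall_subset_closedBall (by linarith)).trans hRs)).2
  -- base case
  have hbase : ∀ K : Set (ℝ × ℝ), IsCompact K → K ⊆ Ω → Cl (T0 P) 1 K := by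
    intro K hK hKΩ
    refine hK.induction_on (cl_empty _ _) (fun s t hst ht => cl_mono _ _ hst ht)
      (fun s t hs ht => cl_union _ _ hs ht) fun z hz => ?_
    obtain ⟨R, hR, hRs, C, g, hL⟩ := hloc z (hKΩ hz)
    refine ⟨Metric.closedBall z (2 * R), mem_nhdsWithin_of_mem_nhds
      (Metric.closedBall_mem_nhds z (by linarith)), ?_⟩
    have hint := (h2 l b C R z g P hL).1
    refine ⟨hint.aestronglyMeasurable.aemeasurable, ?_⟩
    simp_rw [ENNReal.rpow_one]
    exact hint.lintegral_lt_top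
  -- iteration
  have hiter : ∀ n : ℕ,
      (∀ K : Set (ℝ × ℝ), IsCompact K → K ⊆ Ω → Cl (T0 P) (1 + n * (b / 2)) K) ∨
      (∀ K : Set (ℝ × ℝ), IsCompact K → K ⊆ Ω → Wk (T0 P) (pst l) K) := by
    intro n
    induction n with
    | zero =>
      left
      intro K hK hKΩ
      have := hbase K hK hKΩ
      simpa using this
    | succ n ih =>
      rcases ih with ih | ih
      · have hn : (0 : ℝ) ≤ (n : ℝ) * (b / 2) := by positivity
        rcases le_or_gt (pst l) (1 + n * (b / 2) + b) with h0 | h0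
        · right
          exact hstep (1 + n * (b / 2)) (pst l) (by linarith) ih hpst (le_refl _) (by linarith)
        · left
          intro K hK hKΩ
          have hw := hstep (1 + n * (b / 2)) (1 + n * (b / 2) + b) (by linarith) ih
            (by linarith) h0.le (by linarith) K hK hKΩ
          have e : 1 + ((n + 1 : ℕ) : ℝ) * (b / 2) = 1 + n * (b / 2) + b / 2 := by
            push_cast
            ring
          rw [e]
          exact cl_of_wk _ (by linarith) (by linarith) hK.measurableSet hK.measure_lt_top hw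
      · exact Or.inr ih
  have hfin : ∀ K : Set (ℝ × ℝ), IsCompact K → K ⊆ Ω → Wk (T0 P) (pst l) K := by
    obtain ⟨n, hn⟩ := exists_nat_gt (pst l / (b / 2))
    rw [div_lt_iff₀ (by linarith)] at hn
    rcases hiter n with h | h
    · exact hstep (1 + n * (b / 2)) (pst l) (by linarith) h hpst (le_refl _) (by linarith)
    · exact h
  intro K hK hKΩ
  obtain ⟨-, C, -, hC⟩ := hfin K hK hKΩ
  exact ⟨C, hC⟩

end Pool.Agent.W775.WH.WK
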