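import Pool.Agent.W775.WH.AED
import Pool.Agent.W775.WH.ALG
import Pool.Agent.W775.WH.ARE
import Pool.Agent.W775.WH.C1B
import Pool.Agent.W775.WH.CPT
import Pool.Agent.W775.WH.DER
import Pool.Agent.W775.WH.DET
import Pool.Agent.W775.WH.DTX
import Pool.Agent.W775.WH.E0
import Pool.Agent.W775.WH.ERR
import Pool.Agent.W775.WH.EXT
import Pool.Agent.W775.WH.F1
import Pool.Agent.W775.WH.F2
import Pool.Agent.W775.WH.FL
import Pool.Agent.W775.WH.GOOD
import Pool.Agent.W775.WH.GRAD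
import Pool.Agent.W775.WH.HEAT
import Pool.Agent.W775.WH.HF1
import Pool.Agent.W775.WH.HF2
import Pool.Agent.W775.WH.HFS
import Pool.Agent.W775.WH.HOLD
import Pool.Agent.W775.WH.HSYS
import Pool.Agent.W775.WH.IQQ
import Pool.Agent.W775.WH.L1D
import Pool.Agent.W775.WH.LEG
import Pool.Agent.W775.WH.LEGB
import Pool.Agent.W775.WH.LNK
import Pool.Agent.W775.WH.LOC
import Pool.Agent.W775.WH.LOW
import Pool.Agent.W775.WH.LTT
import Pool.Agent.W775.WH.MAIN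
import Pool.Agent.W775.WH.MEAS
import Pool.Agent.W775.WH.MOL
import Pool.Agent.W775.WH.NE
import Pool.Agent.W775.WH.PSD
import Pool.Agent.W775.WH.PTL
import Pool.Agent.W775.WH.ROT
import Pool.Agent.W775.WH.SEL
import Pool.Agent.W775.WH.SIG
import Pool.Agent.W775.WH.STG
import Pool.Agent.W775.WH.STR
import Pool.Agent.W775.WH.STR0
import Pool.Agent.W775.WH.SUP
import Pool.Agent.W775.WH.SYM
import Pool.Agent.W775.WH.WK

set_option autoImplicit false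

namespace Pool.Agent.W775.WH.Asm

open Pool.Agent.W775.WH

theorem str : S_STR := STR.t_STR ROT.t_ROT ROT.t_ROTS STR0.t_STR0
theorem cpt : S_CPT := CPT.t_CPT ROT.t_ROT ROT.t_ROTS str NE.t_NE NE.t_LIP
theorem sel : S_SEL := SEL.t_SEL NE.t_NE NE.t_LIP
theorem meas : S_MEAS := MEAS.t_MEAS NE.t_NE NE.t_LIP str sel
theorem leg : S_LEG := LEG.t_LEG sel meas F1.t_F1 F2.t_F2 LNK.t_LNK1 LNK.t_LNK2 LEGB.t_LEGB str
theorem hold : S_HOLD := HOLD.t_HOLD MOL.t_MOL (HFS.t_HFS HF1.t_HF1 HF2.t_HF2)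
theorem c1b : S_C1B := C1B.t_C1B ROT.t_ROT ROT.t_ROTS cpt leg hold LNK.t_LNK1 NE.t_LIP
theorem grad : S_GRAD := GRAD.t_GRAD c1b str NE.t_NE
theorem are : S_ARE := ARE.t_ARE AED.t_AED SYM.t_SYM
theorem good : S_GOOD := GOOD.t_GOOD AED.t_AED SYM.t_SYM are
theorem ext : S_EXT := EXT.t_EXT NE.t_NE NE.t_LIP
theorem loc : S_LOC := LOC.t_LOC ext good are
theorem hsys : S_HSYS := HSYS.t_HSYS HEAT.t_HEAT
theorem psd : S_PSD := PSD.t_PSD HEAT.t_HEAT
theorem low : S_LOW := LOW.t_LOW HEAT.t_HEAT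
theorem det : S_DET := DET.t_DET low psd
theorem l1d : S_L1D := L1D.t_L1D HEAT.t_HEAT SUP.t_SUP PTL.t_PTL det psd
theorem ltt : S_LTT := LTT.t_LTT HEAT.t_HEAT
theorem sig : S_SIG := SIG.t_SIG ltt PTL.t_PTL psd
theorem fl : S_FL := FL.t_FL DER.t_DER ALG.t_ALG
theorem e0 : S_E0 := E0.t_E0 fl hsys psd PTL.t_PTL l1d ltt sig
theorem err : S_ERR := ERR.t_ERR det SUP.t_SUP DTX.t_DTX psd
theorem stg : S_STG := STG.t_STG e0 err sig SUP.t_SUP
theorem wk : S_WK := WK.t_WK loc sig IQQ.t_IQQ stg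
theorem main : S_MAIN := MAIN.t_MAIN grad wk SYM.t_SYM

end Pool.Agent.W775.WH.Asm
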