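import Pool.Agent.W775.WH.Stm

/-!
Project WH: the gradient map is differentiable almost everywhere (Minty's transform and Rademacher's
theorem).
-/

set_option autoImplicit false

open MeasureTheory Set Filter Topology

namespace Pool.Agent.W775.WH.AED

open Pool.Agent.W775.WH

variable {l b : ℝ} {Ω : Set (ℝ × ℝ)} {u : ℝ × ℝ → ℝ} {P : ℝ × ℝ → ℝ × ℝ}

/-- Minty's transform -/
def Z (P : ℝ × ℝ → ℝ × ℝ) (z : ℝ × ℝ) : ℝ × ℝ := z + P z

theorem mono (h : Grad l b Ω u P) {z w : ℝ × ℝ} (hz : z ∈ Ω) (hw : w ∈ Ω) :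
    0 ≤ ((P z).1 - (P w).1) * (z.1 - w.1) + ((P z).2 - (P w).2) * (z.2 - w.2) := by
  have h1 : P z ∈ Sub Ω u z := by rw [h.sub z hz]; exact mem_singleton _
  have h2 : P w ∈ Sub Ω u w := by rw [h.sub w hw]; exact mem_singleton _
  have h3 := h1 w hw
  have h4 := h2 z hz
  nlinarith

theorem expand (h : Grad l b Ω u P) {z w : ℝ × ℝ} (hz : z ∈ Ω) (hw : w ∈ Ω) :
    dist z w ≤ 2 * dist (Z P z) (Z P w) := by
  have h1 := mono h hz hw
  set a := z.1 - w.1 with ha
  set b' := z.2 - w.2 with hb'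
  set c := (P z).1 - (P w).1 with hc
  set d := (P z).2 - (P w).2 with hd
  have e1 : dist z w = max |a| |b'| := by
    rw [Prod.dist_eq, Real.dist_eq, Real.dist_eq]
  have e2 : dist (Z P z) (Z P w) = max |a + c| |b' + d| := by
    rw [Prod.dist_eq, Real.dist_eq, Real.dist_eq]
    unfold Z
    rw [Prod.fst_add, Prod.fst_add, Prod.snd_add, Prod.snd_add, ha, hb', hc, hd]
    congr 2 <;> ring
  rw [e1, e2]
  set M := max |a + c| |b' + d| with hM
  have hM0 : 0 ≤ M := (abs_nonneg _).trans (le_max_left _ _)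
  have h2 : (a + c) ^ 2 ≤ M ^ 2 := by
    rw [← sq_abs (a + c)]
    exact pow_le_pow_left₀ (abs_nonneg _) (le_max_left _ _) 2
  have h3 : (b' + d) ^ 2 ≤ M ^ 2 := by
    rw [← sq_abs (b' + d)]
    exact pow_le_pow_left₀ (abs_nonneg _) (le_max_right _ _) 2
  have h4 : a ^ 2 + b' ^ 2 ≤ 2 * M ^ 2 := by nlinarith [sq_nonneg c, sq_nonneg d]
  refine max_le ?_ ?_
  · refine abs_le_of_sq_le_sq ?_ (by linarith)
    nlinarith [sq_nonneg b', sq_nonneg M]
  · refine abs_le_of_sq_le_sq ?_ (by linarith)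
    nlinarith [sq_nonneg a, sq_nonneg M]

theorem contAt (hb : 0 < b) (h : Grad l b Ω u P) {z : ℝ × ℝ} (hz : z ∈ Ω) : ContinuousAt P z := by
  obtain ⟨r, hr, hrO⟩ := Metric.nhds_basis_closedBall.mem_iff.1 (h.ma.op.mem_nhds hz)
  obtain ⟨C, hC, hCK⟩ := h.hol (Metric.closedBall z r) (isCompact_closedBall z r) hrO
  have h1 : Tendsto (fun w : ℝ × ℝ => C * ‖z - w‖ ^ b) (𝓝 z) (𝓝 0) := by
    have h2 : ContinuousAt (fun w : ℝ × ℝ => C * ‖z - w‖ ^ b) z := by
      refine ContinuousAt.mul continuousAt_const (ContinuousAt.rpow_const ?_ (Or.inr hb.le))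
      fun_prop
    have h3 : C * ‖z - z‖ ^ b = 0 := by
      rw [sub_self, norm_zero, Real.zero_rpow hb.ne', mul_zero]
    have h4 := h2.tendsto
    rwa [h3] at h4
  rw [ContinuousAt, tendsto_iff_norm_sub_tendsto_zero]
  refine squeeze_zero' (Eventually.of_forall fun w => norm_nonneg _) ?_ h1
  filter_upwards [Metric.closedBall_mem_nhds z hr] with w hw
  rw [norm_sub_rev]
  exact hCK z (Metric.mem_closedBall_self hr.le) w hw

theorem t_AED : S_AED := by
  intro l b Ω u P hl hb h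
  have hinj : InjOn (Z P) Ω := by
    intro z hz w hw hzw
    have h1 := expand h hz hw
    rw [hzw, dist_self, mul_zero] at h1
    exact dist_le_zero.1 h1
  set X : ℝ × ℝ → ℝ × ℝ := Function.invFunOn (Z P) Ω with hX
  have hXZ : ∀ z ∈ Ω, X (Z P z) = z := fun z hz => hinj.leftInvOn_invFunOn hz
  have hlip : ∀ p ∈ Z P '' Ω, ∀ q ∈ Z P '' Ω, dist (X p) (X q) ≤ 2 * dist p q := by
    rintro _ ⟨z, hz, rfl⟩ _ ⟨w, hw, rfl⟩
    rw [hXZ z hz, hXZ w hw]
    exact expand h hz hw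
  have h1 : LipschitzOnWith 2 (fun p => (X p).1) (Z P '' Ω) :=
    LipschitzOnWith.of_dist_le_mul fun p hp q hq => by
      refine le_trans ?_ (hlip p hp q hq)
      rw [Prod.dist_eq]
      exact le_max_left _ _
  have h2 : LipschitzOnWith 2 (fun p => (X p).2) (Z P '' Ω) :=
    LipschitzOnWith.of_dist_le_mul fun p hp q hq => by
      refine le_trans ?_ (hlip p hp q hq)
      rw [Prod.dist_eq]
      exact le_max_right _ _
  obtain ⟨g1, hg1, he1⟩ := h1.extend_real
  obtain ⟨g2, hg2, he2⟩ := h2.extend_real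
  set Y : ℝ × ℝ → ℝ × ℝ := fun p => (g1 p, g2 p) with hY
  have hYl : LipschitzWith 2 Y := by
    have := hg1.prodMk hg2
    rwa [max_self] at this
  have hYZ : ∀ z ∈ Ω, Y (Z P z) = z := by
    intro z hz
    have a1 := he1 (mem_image_of_mem (Z P) hz)
    have a2 := he2 (mem_image_of_mem (Z P) hz)
    simp only [hXZ z hz] at a1 a2
    exact Prod.ext a1.symm a2.symm
  -- the exceptional sets
  have hN1 : volume {p | ¬ DifferentiableAt ℝ Y p} = 0 := hYl.ae_differentiableAt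
  have hI1 : volume (Y '' {p | ¬ DifferentiableAt ℝ Y p}) = 0 := by
    rw [← hausdorffMeasure_prod_real] at hN1 ⊢
    have a1 := (hYl.lipschitzOnWith (s := {p | ¬ DifferentiableAt ℝ Y p})).hausdorffMeasure_image_le
      (d := 2) (by norm_num)
    rw [hN1, mul_zero] at a1
    exact le_antisymm a1 bot_le
  have hI2 : volume (Y '' {p | DifferentiableAt ℝ Y p ∧ (fderiv ℝ Y p).det = 0}) = 0 :=
    addHaar_image_eq_zero_of_det_fderivWithin_eq_zero volume
      (fun p hp => hp.1.hasFDerivAt.hasFDerivWithinAt) (fun p hp => hp.2)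
  rw [ae_restrict_iff' h.ma.op.measurableSet]
  refine measure_mono_null ?_ (measure_union_null hI1 hI2)
  intro z hz
  rw [mem_compl_iff, Set.mem_ofPred_eq] at hz
  push Not at hz
  obtain ⟨hzO, hzd⟩ := hz
  by_contra hcon
  apply hzd
  have hd : DifferentiableAt ℝ Y (Z P z) := by
    by_contra hn
    exact hcon (Or.inl ⟨Z P z, hn, hYZ z hzO⟩)
  have hdet : (fderiv ℝ Y (Z P z)).det ≠ 0 := by
    intro hn
    exact hcon (Or.inr ⟨Z P z, ⟨hd, hn⟩, hYZ z hzO⟩)
  have hZc : ContinuousAt (Z P) z := continuousAt_id.add (contAt hb h hzO)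
  have hf : HasFDerivAt Y (((fderiv ℝ Y (Z P z)).toContinuousLinearEquivOfDetNeZero hdet :
      (ℝ × ℝ) ≃L[ℝ] (ℝ × ℝ)) : (ℝ × ℝ) →L[ℝ] (ℝ × ℝ)) (Z P z) := by
    rw [ContinuousLinearMap.coe_toContinuousLinearEquivOfDetNeZero]
    exact hd.hasFDerivAt
  have hZd := hf.of_local_left_inverse hZc (by
    filter_upwards [h.ma.op.mem_nhds hzO] with w hw
    exact hYZ w hw)
  have : P = fun w => Z P w - w := by
    funext w
    unfold Z
    rw [add_sub_cancel_left]
  rw [this]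
  exact hZd.differentiableAt.sub differentiableAt_id

end Pool.Agent.W775.WH.AED
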