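import Pool.Agent.W775.WH.Stm

/-!
Project WH, part GRAD: the gradient package exists.
-/

set_option autoImplicit false

open MeasureTheory Set Filter Topology

namespace Pool.Agent.W775.WH.GRAD

lemma lin_apply (p v : ℝ × ℝ) : lin p v = p.1 * v.1 + p.2 * v.2 := by
  simp [lin]

lemma dot_le (p v : ℝ × ℝ) : |p.1 * v.1 + p.2 * v.2| ≤ 2 * ‖p‖ * ‖v‖ := by
  have h1 : |p.1| ≤ ‖p‖ := norm_fst_le p
  have h2 : |p.2| ≤ ‖p‖ := norm_snd_le p
  have h3 : |v.1| ≤ ‖v‖ := norm_fst_le v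
  have h4 : |v.2| ≤ ‖v‖ := norm_snd_le v
  calc |p.1 * v.1 + p.2 * v.2| ≤ |p.1 * v.1| + |p.2 * v.2| := abs_add_le _ _
    _ = |p.1| * |v.1| + |p.2| * |v.2| := by rw [abs_mul, abs_mul]
    _ ≤ ‖p‖ * ‖v‖ + ‖p‖ * ‖v‖ := by gcongr
    _ = _ := by ring

theorem t_GRAD (h1 : S_C1B) (h2 : S_STR) (h3 : S_NE) : S_GRAD := by
  classical
  intro l hl hl1
  obtain ⟨b, hb, hb1, H⟩ := h1 l hl hl1
  refine ⟨b, hb, hb1, ?_⟩
  intro Ω u hu
  set P : ℝ × ℝ → ℝ × ℝ := fun z => if h : (Sub Ω u z).Nonempty then h.some else 0 with hP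
  have hPm : ∀ z ∈ Ω, P z ∈ Sub Ω u z := by
    intro z hz
    have hne := h3 Ω u hu.op hu.cv z hz
    have e : P z = hne.some := by simp only [hP, dif_pos hne]
    rw [e]
    exact hne.some_mem
  clear_value P
  refine ⟨P, hu, ?_, ?_, ?_, ?_⟩
  · intro z hz
    refine Set.eq_singleton_iff_unique_mem.2 ⟨hPm z hz, ?_⟩
    intro p hp
    obtain ⟨C, hC, hCb⟩ := H Ω u hu {z} isCompact_singleton (by simpa using hz)
    have := hCb z rfl z rfl p hp (P z) (hPm z hz)
    rw [sub_self, norm_zero, Real.zero_rpow hb.ne', mul_zero] at this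
    exact sub_eq_zero.1 (norm_le_zero_iff.1 this)
  · intro z hz
    obtain ⟨r, hr, hrΩ⟩ := Metric.isOpen_iff.1 hu.op z hz
    have hK : Metric.closedBall z (r / 2) ⊆ Ω :=
      (Metric.closedBall_subset_ball (by linarith)).trans hrΩ
    obtain ⟨C, hC, hCb⟩ := H Ω u hu (Metric.closedBall z (r / 2)) (isCompact_closedBall _ _) hK
    refine HasFDerivAt.of_isLittleO (Asymptotics.isLittleO_iff.2 ?_)
    intro c hc
    have ht : Tendsto (fun w : ℝ × ℝ => 2 * (C * ‖z - w‖ ^ b)) (𝓝 z) (𝓝 0) := by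
      have hcont : Continuous (fun w : ℝ × ℝ => 2 * (C * ‖z - w‖ ^ b)) := by
        refine continuous_const.mul (continuous_const.mul ?_)
        exact (continuous_const.sub continuous_id).norm.rpow_const (fun w => Or.inr hb.le)
      have := hcont.tendsto z
      simpa [Real.zero_rpow hb.ne'] using this
    have he : ∀ᶠ w in 𝓝 z, 2 * (C * ‖z - w‖ ^ b) < c := ht.eventually (gt_mem_nhds hc)
    have he2 : ∀ᶠ w in 𝓝 z, w ∈ Metric.closedBall z (r / 2) :=
      Metric.closedBall_mem_nhds z (by linarith)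
    filter_upwards [he, he2] with w hw hwK
    have hwΩ : w ∈ Ω := hK hwK
    have hzK : z ∈ Metric.closedBall z (r / 2) := Metric.mem_closedBall_self (by linarith)
    have a1 := hPm z hz w hwΩ
    have a2 := hPm w hwΩ z hz
    have a3 := hCb z hzK w hwK (P z) (hPm z hz) (P w) (hPm w hwΩ)
    have a4 := dot_le (P z - P w) (w - z)
    simp only [Prod.fst_sub, Prod.snd_sub] at a4
    have a5 := abs_le.1 a4
    rw [lin_apply, Real.norm_eq_abs, Prod.fst_sub, Prod.snd_sub]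
    have a6 : 2 * ‖P z - P w‖ * ‖w - z‖ ≤ c * ‖w - z‖ := by
      refine mul_le_mul_of_nonneg_right ?_ (norm_nonneg _)
      linarith
    rw [abs_le]
    constructor
    · have : 0 ≤ c * ‖w - z‖ := by positivity
      linarith
    · nlinarith [a5.1, a5.2]
  · intro z hz w hw hzw
    by_contra hne
    refine h2 l Ω u hl hu z hz w hw hne (P z) (hPm z hz) ?_
    rw [hzw]
    exact hPm w hw
  · intro K hK hKΩ
    obtain ⟨C, hC, hCb⟩ := H Ω u hu K hK hKΩ
    exact ⟨C, hC, fun z hz w hw => hCb z hz w hw (P z) (hPm z (hKΩ hz)) (P w) (hPm w (hKΩ hw))⟩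

end Pool.Agent.W775.WH.GRAD
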