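import Pool.Agent.W775.WH.Stm

/-!
Project WH, part MAIN: transfer to the Euclidean plane.
-/

set_option autoImplicit false

open MeasureTheory Set Filter Topology

namespace Pool.Agent.W775.WH.MAIN

open Pool.Agent.W775.WH

abbrev E2 := EuclideanSpace ℝ (Fin 2)

/-- coordinates, linear -/
noncomputable def eL : E2 ≃L[ℝ] ℝ × ℝ :=
  (EuclideanSpace.equiv (Fin 2) ℝ).trans (ContinuousLinearEquiv.finTwoArrow ℝ ℝ)

/-- coordinates, measurable -/
noncomputable def eM : E2 ≃ᵐ ℝ × ℝ :=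
  (MeasurableEquiv.toLp 2 (Fin 2 → ℝ)).symm.trans MeasurableEquiv.finTwoArrow

theorem eL_apply (x : E2) : eL x = (x 0, x 1) := rfl

theorem eM_apply (x : E2) : eM x = (x 0, x 1) := rfl

theorem eM_mp : MeasurePreserving eM volume volume :=
  (volume_preserving_finTwoArrow ℝ).comp
    (EuclideanSpace.volume_preserving_symm_measurableEquiv_toLp (Fin 2))

theorem vol_pre (S : Set (ℝ × ℝ)) : volume (eL ⁻¹' S) = volume S :=
  eM_mp.measure_preimage_equiv S

theorem lin_apply (p v : ℝ × ℝ) : lin p v = p.1 * v.1 + p.2 * v.2 := by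
  simp [lin]

theorem inner_eq (p y x : E2) :
    inner ℝ p (y - x) = (eL p).1 * ((eL y).1 - (eL x).1) + (eL p).2 * ((eL y).2 - (eL x).2) := by
  rw [eL_apply, eL_apply, eL_apply, PiLp.inner_apply, Fin.sum_univ_two]
  simp
  ring

theorem decomp (v : E2) : v = v 0 • eL.symm (1, 0) + v 1 • eL.symm (0, 1) := by
  apply eL.injective
  rw [map_add, map_smul, map_smul, eL.apply_symm_apply, eL.apply_symm_apply, eL_apply]
  simp

theorem coord_le (v : E2) (i : Fin 2) : |v i| ≤ ‖v‖ := PiLp.norm_apply_le v i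

/-- bound of a positive semidefinite form -/
theorem bound (a c d v0 v1 w0 w1 A B : ℝ) (ha : 0 ≤ a) (hd : 0 ≤ d) (hc : 0 ≤ a * d - c ^ 2)
    (hv0 : |v0| ≤ A) (hv1 : |v1| ≤ A) (hw0 : |w0| ≤ B) (hw1 : |w1| ≤ B) :
    |v0 * w0 * a + v0 * w1 * c + v1 * w0 * c + v1 * w1 * d| ≤ 2 * (a + d) * A * B := by
  have hA : 0 ≤ A := (abs_nonneg _).trans hv0
  have hB : 0 ≤ B := (abs_nonneg _).trans hw0
  have h1 : |c| ≤ (a + d) / 2 := by
    apply abs_le_of_sq_le_sq _ (by linarith)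
    nlinarith [sq_nonneg (a - d)]
  have k : ∀ x y z X Y Z : ℝ, |x| ≤ X → |y| ≤ Y → |z| ≤ Z → |x * y * z| ≤ X * Y * Z := by
    intro x y z X Y Z hx hy hz
    have hX := (abs_nonneg _).trans hx
    have hY := (abs_nonneg _).trans hy
    rw [abs_mul, abs_mul]
    gcongr
  have e1 := k v0 w0 a A B a hv0 hw0 (abs_of_nonneg ha).le
  have e2 := k v0 w1 c A B ((a + d) / 2) hv0 hw1 h1
  have e3 := k v1 w0 c A B ((a + d) / 2) hv1 hw0 h1
  have e4 := k v1 w1 d A B d hv1 hw1 (abs_of_nonneg hd).le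
  have t1 := abs_add_le (v0 * w0 * a + v0 * w1 * c + v1 * w0 * c) (v1 * w1 * d)
  have t2 := abs_add_le (v0 * w0 * a + v0 * w1 * c) (v1 * w0 * c)
  have t3 := abs_add_le (v0 * w0 * a) (v0 * w1 * c)
  nlinarith

theorem t_MAIN (h1 : S_GRAD) (h2 : S_WK) (h3 : S_SYM) : S_MAIN := by
  intro Ω u l hΩo hΩc hu hl hl1 hMA K hK hKΩ
  obtain ⟨b, hb, hb1, H⟩ := h1 l hl hl1
  let Ω' : Set (ℝ × ℝ) := eL.symm ⁻¹' Ω
  let u' : ℝ × ℝ → ℝ := u ∘ eL.symm
  have hΩ' : ∀ x : E2, eL x ∈ Ω' ↔ x ∈ Ω := by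
    intro x
    change eL.symm (eL x) ∈ Ω ↔ _
    rw [eL.symm_apply_apply]
  have hu' : ∀ x : E2, u' (eL x) = u x := by
    intro x
    change u (eL.symm (eL x)) = _
    rw [eL.symm_apply_apply]
  have hma : MA l Ω' u' := by
    refine ⟨hΩo.preimage eL.symm.continuous, ?_, ?_, ?_⟩
    · exact hΩc.linear_preimage (eL.symm.toLinearEquiv : (ℝ × ℝ) →ₗ[ℝ] E2)
    · exact hu.comp_linearMap (eL.symm.toLinearEquiv : (ℝ × ℝ) →ₗ[ℝ] E2)
    · intro B hB hBΩ
      have hB1 : MeasurableSet (eL ⁻¹' B) := eL.continuous.measurable hB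
      have hB2 : eL ⁻¹' B ⊆ Ω := by
        intro x hx
        exact (hΩ' x).1 (hBΩ hx)
      have hS : (⋃ x ∈ eL ⁻¹' B, {p : EuclideanSpace ℝ (Fin 2) |
              ∀ y ∈ Ω, u x + inner ℝ p (y - x) ≤ u y}) = eL ⁻¹' (⋃ z ∈ B, Sub Ω' u' z) := by
        ext p
        simp only [mem_iUnion, mem_preimage, mem_ofPred_eq, exists_prop, Sub]
        constructor
        · rintro ⟨x, hx, hp⟩
          refine ⟨eL x, hx, fun w hw => ?_⟩
          have h4 := hp (eL.symm w) hw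
          rw [inner_eq, eL.apply_symm_apply] at h4
          rw [hu']
          exact h4
        · rintro ⟨z, hz, hp⟩
          refine ⟨eL.symm z, by rwa [eL.apply_symm_apply], fun y hy => ?_⟩
          have h4 := hp (eL y) ((hΩ' y).2 hy)
          rw [inner_eq, eL.apply_symm_apply]
          rw [hu'] at h4
          exact h4
      have h5 := hMA (eL ⁻¹' B) hB1 hB2
      rw [hS, vol_pre, vol_pre] at h5
      exact h5
  obtain ⟨P, hP⟩ := H Ω' u' hma
  have hK' : IsCompact (eL '' K) := hK.image eL.continuous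
  have hK'Ω : eL '' K ⊆ Ω' := by
    rintro _ ⟨x, hx, rfl⟩
    exact (hΩ' x).2 (hKΩ hx)
  obtain ⟨C, hC⟩ := h2 l b Ω' u' P hl hl1 hb hb1 hP (eL '' K) hK' hK'Ω
  -- the derivative of `u`
  have hfd : ∀ y ∈ Ω, fderiv ℝ u y = (lin (P (eL y))).comp (eL : E2 →L[ℝ] ℝ × ℝ) := by
    intro y hy
    have h4 := hP.der (eL y) ((hΩ' y).2 hy)
    have h5 : HasFDerivAt (u' ∘ eL) ((lin (P (eL y))).comp (eL : E2 →L[ℝ] ℝ × ℝ)) y :=
      h4.comp y eL.hasFDerivAt
    have h6 : u' ∘ eL = u := by funext x; exact hu' x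
    rw [h6] at h5
    exact h5.fderiv
  have incl : ∀ s : ℝ, 0 < s → {x ∈ K | s < ‖fderiv ℝ (fderiv ℝ u) x‖} ⊆
      eL ⁻¹' {z ∈ eL '' K | s / 2 < T0 P z} := by
    rintro s hs x ⟨hxK, hx⟩
    refine ⟨⟨x, hxK, rfl⟩, ?_⟩
    have hxΩ : x ∈ Ω := hKΩ hxK
    have hdf : DifferentiableAt ℝ (fderiv ℝ u) x := by
      by_contra hcon
      rw [fderiv_zero_of_not_differentiableAt hcon] at hx
      have h9 : ‖(0 : E2 →L[ℝ] (E2 →L[ℝ] ℝ))‖ = 0 := ContinuousLinearMap.opNorm_zero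
      exact absurd (lt_of_lt_of_eq hx h9) (by linarith)
    set F2 := fderiv ℝ (fderiv ℝ u) x with hF2
    have hF : HasFDerivAt (fderiv ℝ u) F2 x := hdf.hasFDerivAt
    have hFz : HasFDerivAt (fun z => fderiv ℝ u (eL.symm z))
        (F2.comp (eL.symm : (ℝ × ℝ) →L[ℝ] E2)) (eL x) := by
      have h4 : HasFDerivAt (fderiv ℝ u) F2 (eL.symm (eL x)) := by
        rw [eL.symm_apply_apply]; exact hF
      exact h4.comp (eL x) eL.symm.hasFDerivAt
    have hv : ∀ v : E2, HasFDerivAt (fun z => fderiv ℝ u (eL.symm z) v)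
        ((ContinuousLinearMap.apply ℝ ℝ v).comp (F2.comp (eL.symm : (ℝ × ℝ) →L[ℝ] E2)))
        (eL x) := by
      intro v
      exact (ContinuousLinearMap.apply ℝ ℝ v).hasFDerivAt.comp (eL x) hFz
    have hQ := (hv (eL.symm (1, 0))).prodMk (hv (eL.symm (0, 1)))
    have hPQ : P =ᶠ[𝓝 (eL x)] fun z => (fderiv ℝ u (eL.symm z) (eL.symm (1, 0)),
        fderiv ℝ u (eL.symm z) (eL.symm (0, 1))) := by
      have hnh : Ω' ∈ 𝓝 (eL x) := hma.op.mem_nhds ((hΩ' x).2 hxΩ)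
      filter_upwards [hnh] with z hz
      have hz' : eL.symm z ∈ Ω := hz
      rw [hfd _ hz', eL.apply_symm_apply]
      simp [lin_apply]
    have hPd := hQ.congr_of_eventuallyEq hPQ
    have hDP : fderiv ℝ P (eL x) = _ := hPd.fderiv
    have hsym := h3 l b Ω' u' P hl hb hP (eL x) ((hΩ' x).2 hxΩ) hPd.differentiableAt
    have e11 : h11 P (eL x) = F2 (eL.symm (1, 0)) (eL.symm (1, 0)) := by
      rw [h11, hDP]; rfl
    have e12 : h12 P (eL x) = F2 (eL.symm (0, 1)) (eL.symm (1, 0)) := by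
      rw [h12, hDP]; rfl
    have e21 : h21 P (eL x) = F2 (eL.symm (1, 0)) (eL.symm (0, 1)) := by
      rw [h21, hDP]; rfl
    have e22 : h22 P (eL x) = F2 (eL.symm (0, 1)) (eL.symm (0, 1)) := by
      rw [h22, hDP]; rfl
    obtain ⟨s1, s2, s3, s4⟩ := hsym
    have hn : ‖F2‖ ≤ 2 * T0 P (eL x) := by
      refine ContinuousLinearMap.opNorm_le_bound₂ F2 (by rw [T0]; linarith) ?_
      intro v w
      have h7 : F2 v w = v 0 * w 0 * h11 P (eL x) + v 0 * w 1 * h12 P (eL x) +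
          v 1 * w 0 * h12 P (eL x) + v 1 * w 1 * h22 P (eL x) := by
        conv_lhs => rw [decomp v, decomp w]
        simp only [map_add, map_smul, add_apply, smul_apply,
          smul_eq_mul]
        rw [← e11, ← e12, ← e21, ← e22, ← s1]
        ring
      rw [h7, Real.norm_eq_abs, T0]
      exact bound _ _ _ _ _ _ _ _ _ s2 s3 s4 (coord_le v 0) (coord_le v 1) (coord_le w 0)
        (coord_le w 1)
    change s / 2 < T0 P (eL x)
    linarith
  refine ⟨2 ^ ((1 + l ^ 2) / (1 - l ^ 2)) * C, fun s hs => ?_⟩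
  have h4 := hC (s / 2) (by linarith)
  have h5 : volume {x ∈ K | s < ‖fderiv ℝ (fderiv ℝ u) x‖} ≤
      volume {z ∈ eL '' K | s / 2 < T0 P z} := by
    rw [← vol_pre]
    exact measure_mono (incl s hs)
  have h6 : s ^ ((1 + l ^ 2) / (1 - l ^ 2)) =
      2 ^ ((1 + l ^ 2) / (1 - l ^ 2)) * (s / 2) ^ ((1 + l ^ 2) / (1 - l ^ 2)) := by
    rw [← Real.mul_rpow (by norm_num) (by linarith)]
    congr 1
    ring
  have h7 : (0 : ℝ) ≤ 2 ^ ((1 + l ^ 2) / (1 - l ^ 2)) := Real.rpow_nonneg (by norm_num) _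
  rw [h6, ENNReal.ofReal_mul h7, ENNReal.ofReal_mul h7, mul_assoc]
  exact mul_le_mul_right ((mul_le_mul_right h5 _).trans h4) _

end Pool.Agent.W775.WH.MAIN
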